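import Mathlib

/-!
# `Λ`-trees, isometric actions, axes
-/

set_option autoImplicit false

noncomputable section

namespace Pool.Agent.Lib.MP_d87150_al

/-- A `Λ`-tree structure on the type `T`. -/
structure LTree (Λ : Type) [AddCommGroup Λ] [LinearOrder Λ] [IsOrderedAddMonoid Λ]
    (T : Type) where
  d : T → T → Λ
  d_self : ∀ x, d x x = 0
  d_comm : ∀ x y, d x y = d y x
  eq_of_d : ∀ x y, d x y = 0 → x = y
  four : ∀ x y z w, d x y + d z w ≤ max (d x z + d y w) (d x w + d y z)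
  geo : ∀ x y t, 0 ≤ t → t ≤ d x y → ∃ m, d x m = t ∧ d m y = d x y - t
  half : ∀ x y z, ∃ c, c + c = d x y + d x z - d y z

namespace LTree

variable {Λ T : Type} [AddCommGroup Λ] [LinearOrder Λ] [IsOrderedAddMonoid Λ] (𝒯 : LTree Λ T)

theorem d_nonneg (x y : T) : 0 ≤ 𝒯.d x y := by
  have h := 𝒯.four x x y y
  rw [𝒯.d_self, 𝒯.d_self, max_self] at h
  grind

theorem d_triangle (x y z : T) : 𝒯.d x z ≤ 𝒯.d x y + 𝒯.d y z := by
  have h := 𝒯.four x z y y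
  rw [𝒯.d_self, max_self, 𝒯.d_comm z y] at h
  grind

theorem ltree_pos {x y : T} (h : x ≠ y) : 0 < 𝒯.d x y :=
  lt_of_le_of_ne (𝒯.d_nonneg x y) fun h' => h (𝒯.eq_of_d x y h'.symm)

/-- `m` lies on the segment from `x` to `y`. -/
def Btw (x m y : T) : Prop := 𝒯.d x m + 𝒯.d m y = 𝒯.d x y

variable {𝒯}

theorem Btw.symm {x m y : T} (h : 𝒯.Btw x m y) : 𝒯.Btw y m x := by
  unfold Btw at *
  rw [𝒯.d_comm y m, 𝒯.d_comm m x, 𝒯.d_comm y x, add_comm, h]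

theorem Btw.unique {x m m' y : T} (h : 𝒯.Btw x m y) (h' : 𝒯.Btw x m' y)
    (hd : 𝒯.d x m = 𝒯.d x m') : m = m' := by
  unfold Btw at *
  have h1 := 𝒯.four m m' x y
  have h2 := 𝒯.d_nonneg m m'
  rw [𝒯.d_comm m x, 𝒯.d_comm m' x] at h1
  exact 𝒯.eq_of_d _ _ (by grind)

theorem Btw.order {x m m' y : T} (h : 𝒯.Btw x m y) (h' : 𝒯.Btw x m' y)
    (hd : 𝒯.d x m ≤ 𝒯.d x m') : 𝒯.Btw x m m' ∧ 𝒯.Btw m m' y := by
  unfold Btw at *
  have h1 := 𝒯.four m m' x y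
  have h2 := 𝒯.d_triangle x m m'
  rw [𝒯.d_comm m x, 𝒯.d_comm m' x] at h1
  constructor <;> grind

theorem Btw.left {a b c m : T} (h : 𝒯.Btw a b c) (h' : 𝒯.Btw a m b) :
    𝒯.Btw a m c ∧ 𝒯.Btw m b c := by
  unfold Btw at *
  have h1 := 𝒯.d_triangle a m c
  have h2 := 𝒯.d_triangle m b c
  constructor <;> grind

/-- Local-to-global principle for geodesics. -/
theorem Btw.trans {a b c e : T} (h : 𝒯.Btw a b c) (h' : 𝒯.Btw b c e) (hbc : b ≠ c) :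
    𝒯.Btw a b e ∧ 𝒯.Btw a c e := by
  unfold Btw at *
  have h0 := 𝒯.ltree_pos hbc
  have h1 := 𝒯.four a c b e
  have h2 := 𝒯.d_triangle a b e
  have h3 := 𝒯.d_triangle a c e
  rw [𝒯.d_comm c b] at h1
  constructor <;> grind

theorem exists_median (x y z : T) : ∃ m, 𝒯.Btw x m y ∧ 𝒯.Btw y m z ∧ 𝒯.Btw x m z := by
  obtain ⟨c, hc⟩ := 𝒯.half x y z
  have t1 := 𝒯.d_triangle y x z
  have t2 := 𝒯.d_triangle x y z
  rw [𝒯.d_comm y x] at t1
  obtain ⟨m, h1, h2⟩ := 𝒯.geo x y c (by grind) (by grind)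
  have h3 := 𝒯.four m z x y
  have h4 := 𝒯.d_triangle x m z
  rw [𝒯.d_comm m x, 𝒯.d_comm z y, 𝒯.d_comm z x] at h3
  refine ⟨m, ?_, ?_, ?_⟩ <;> unfold Btw
  · grind
  · rw [𝒯.d_comm y m]; grind
  · grind

theorem ltree_arith1 {a b e : Λ} (h1 : e ≤ a) (h2 : e ≤ b) (h : a + b - (e + e) = 0) :
    e = a ∧ e = b := by
  constructor <;> grind

theorem ltree_arith2 {xx yy zz ww xy xz xw yz yw zw : Λ} (h1 : min xz yz ≤ xy)
    (h2 : min xw yw ≤ xy) (h3 : min xz xw ≤ zw) (h4 : min yz yw ≤ zw) :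
    xx + yy - (xy + xy) + (zz + ww - (zw + zw)) ≤
      max (xx + zz - (xz + xz) + (yy + ww - (yw + yw)))
        (xx + ww - (xw + xw) + (yy + zz - (yz + yz))) := by
  grind

theorem ltree_arith3 {xx yy xy xm my mm t : Λ} (h0 : 0 ≤ t) (ht : t ≤ xx - xy)
    (e1 : xm = min (xx - t) xx) (e2 : my = min (xx - t) xy) (e3 : mm = min (xx - t) xm) :
    xx + mm - (xm + xm) = t ∧ mm + yy - (my + my) = xx + yy - (xy + xy) - t := by
  constructor <;> grind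

theorem ltree_arith4 {xx yy xy t : Λ} (n1 : 0 ≤ xy) (ht : ¬ t ≤ xx - xy)
    (h1 : t ≤ xx + yy - (xy + xy)) : 0 ≤ t - xx + xy + xy ∧ t - xx + xy + xy ≤ yy := by
  constructor <;> grind

theorem ltree_arith5 {xx yy xy xm my mm t : Λ} (ht : ¬ t ≤ xx - xy) (a2 : t - xx + xy + xy ≤ yy)
    (e1 : xm = min (t - xx + xy + xy) xy) (e2 : my = min (t - xx + xy + xy) yy)
    (e3 : mm = min (t - xx + xy + xy) my) :
    xx + mm - (xm + xm) = t ∧ mm + yy - (my + my) = xx + yy - (xy + xy) - t := by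
  constructor <;> grind

/-- A rooted description of a tree through its Gromov product at the root. -/
theorem exists_ofRooted (c : T → T → Λ) (symm : ∀ x y, c x y = c y x)
    (nonneg : ∀ x y, 0 ≤ c x y) (le : ∀ x y, c x y ≤ c x x)
    (ultra : ∀ x y z, min (c x z) (c y z) ≤ c x y)
    (sep : ∀ x y, c x y = c x x → c x y = c y y → x = y)
    (trunc : ∀ x t, 0 ≤ t → t ≤ c x x → ∃ m, ∀ y, c m y = min t (c x y)) :
    ∃ 𝒯 : LTree Λ T, ∀ x y, 𝒯.d x y = c x x + c y y - (c x y + c x y) := by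
  refine ⟨⟨fun x y => c x x + c y y - (c x y + c x y), fun x => ?_, fun x y => ?_,
    fun x y h => ?_, fun x y z w => ?_, fun x y t h0 h1 => ?_, fun x y z => ?_⟩, fun x y => rfl⟩
  · exact sub_self _
  · rw [symm y x, add_comm (c x x)]
  · have h1 := le x y
    have h2 := le y x
    rw [symm y x] at h2
    have h3 := ltree_arith1 h1 h2 h
    exact sep x y h3.1 h3.2
  · have h1 := ultra x y z
    have h2 := ultra x y w
    have h3 := ultra z w x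
    have h4 := ultra z w y
    rw [symm z x, symm w x] at h3
    rw [symm z y, symm w y] at h4
    exact ltree_arith2 h1 h2 h3 h4
  · have l1 := le x y
    have l2 := le y x
    have n1 := nonneg x y
    rw [symm y x] at l2
    by_cases ht : t ≤ c x x - c x y
    · obtain ⟨m, hm⟩ := trunc x (c x x - t) (sub_nonneg.2 (ht.trans (sub_le_self _ n1)))
        (sub_le_self _ h0)
      have e1 := hm x
      have e2 := hm y
      have e3 := hm m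
      rw [symm m x] at e1
      exact ⟨m, ltree_arith3 h0 ht e1 e2 e3⟩
    · obtain ⟨a1, a2⟩ := ltree_arith4 n1 ht h1
      obtain ⟨m, hm⟩ := trunc y (t - c x x + c x y + c x y) a1 a2
      have e1 := hm x
      have e2 := hm y
      have e3 := hm m
      rw [symm m x, symm y x] at e1
      rw [symm y m] at e3
      exact ⟨m, ltree_arith5 ht a2 e1 e2 e3⟩
  · exact ⟨c x x - c x y - c x z + c y z, by abel⟩

section Action

variable (𝒯) (K : Type) [Group K] [MulAction K T]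

/-- The action is isometric. -/
def Iso : Prop := ∀ (g : K) (x y : T), 𝒯.d (g • x) (g • y) = 𝒯.d x y

variable {K}

/-- The axis of `g`. -/
def Ax (g : K) : Set T := {p | 𝒯.d p (g • g • p) = 𝒯.d p (g • p) + 𝒯.d p (g • p)}

/-- `g` is hyperbolic. -/
def Hyp (g : K) : Prop := (∀ p : T, g • p ≠ p) ∧ (𝒯.Ax g).Nonempty

/-- Signed distance along the axis of `g`. -/
def sd (g : K) (p q : T) : Λ :=
  if 𝒯.d p (g⁻¹ • q) ≤ 𝒯.d p (g • q) then 𝒯.d p q else - 𝒯.d p q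

variable {𝒯}

theorem Iso.btw (hI : 𝒯.Iso K) (g : K) {x m y : T} (h : 𝒯.Btw x m y) :
    𝒯.Btw (g • x) (g • m) (g • y) := by
  unfold Btw at *
  rw [hI, hI, hI, h]

/-- A common fixed point of the ends gives a fixed segment. -/
theorem Iso.fix_btw (hI : 𝒯.Iso K) {g : K} {x m y : T} (h : 𝒯.Btw x m y) (hx : g • x = x)
    (hy : g • y = y) : g • m = m := by
  have h1 := hI.btw g h
  rw [hx, hy] at h1
  refine h1.unique h ?_
  conv_lhs => rw [← hx]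
  exact hI g x m

theorem ltree_d_inv (hI : 𝒯.Iso K) (g : K) (p q : T) : 𝒯.d p (g⁻¹ • q) = 𝒯.d q (g • p) := by
  rw [← hI g, smul_inv_smul, 𝒯.d_comm]

theorem ltree_mem_inv (hI : 𝒯.Iso K) {g : K} {p : T} (hp : p ∈ 𝒯.Ax g) : p ∈ 𝒯.Ax g⁻¹ := by
  change _ = _
  rw [ltree_d_inv hI g p p, ← mul_smul, ← mul_inv_rev, ltree_d_inv hI, mul_smul]
  exact hp

/-- An element with a fixed point does not move points further by its square. -/
theorem ltree_le_of_fix (hI : 𝒯.Iso K) {g : K} {q : T} (hq : g • q = q) (p : T) :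
    𝒯.d p (g • g • p) ≤ 𝒯.d p (g • p) := by
  have h1 := 𝒯.four p (g • g • p) (g • p) q
  have h2 := hI g p q
  have h3 := hI g (g • p) q
  have h4 := hI g (g • p) p
  rw [hq] at h2 h3
  rw [𝒯.d_comm (g • p) p] at h4
  grind

/-- The median of `g⁻¹ p`, `p`, `g p`. -/
theorem ltree_median (hI : 𝒯.Iso K) {g : K} {p : T} (h : 𝒯.d p (g • p) ≤ 𝒯.d p (g • g • p)) :
    ∃ m ∈ 𝒯.Ax g, 𝒯.d p (g • p) = 𝒯.d p m + 𝒯.d m (g • m) + 𝒯.d p m := by
  obtain ⟨m, h1, h2, h3⟩ := exists_median (𝒯 := 𝒯) (g⁻¹ • p) p (g • p)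
  have h4 := hI.btw g h1
  have h5 := hI.btw g h3
  rw [smul_inv_smul] at h4 h5
  have e1 : 𝒯.d (g • m) (g • p) = 𝒯.d p m := by rw [hI, 𝒯.d_comm]
  have e2 : 𝒯.d (g • m) (g • g • p) = 𝒯.d m (g • p) := hI g _ _
  have hle : 𝒯.d p m ≤ 𝒯.d p (g • m) := by
    unfold Btw at h2 h4 h5
    grind
  obtain ⟨h6, h7⟩ := h2.order h4 hle
  have h8 := hI.btw g h7
  have h9 := ((h5.symm.left h8.symm).2.symm.left h6).2
  refine ⟨m, ?_, ?_⟩
  · change _ = _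
    unfold Btw at h9
    rw [← h9, hI g m (g • m)]
  · unfold Btw at h2 h7
    grind

/-- Every point sees a point of the axis from behind or from ahead. -/
theorem ltree_dir (hI : 𝒯.Iso K) {g : K} {q : T} (hq : q ∈ 𝒯.Ax g) (p : T) :
    𝒯.Btw p q (g • q) ∨ 𝒯.d q (g • p) = 𝒯.d p q + 𝒯.d q (g • q) := by
  have h0 : 𝒯.d q (g • g • q) = 𝒯.d q (g • q) + 𝒯.d q (g • q) := hq
  have h1 := 𝒯.four q (g • g • q) (g • q) (g • p)
  have h2 := 𝒯.d_triangle p q (g • q)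
  have h3 := 𝒯.d_triangle q (g • q) (g • p)
  rw [hI g q p, hI g (g • q) p, hI g (g • q) q, 𝒯.d_comm q p, 𝒯.d_comm (g • q) p,
    𝒯.d_comm (g • q) q] at h1
  rw [hI g q p, 𝒯.d_comm q p] at h3
  unfold Btw
  grind

theorem ltree_disp_le (hI : 𝒯.Iso K) {g : K} {q : T} (hq : q ∈ 𝒯.Ax g) (p : T) :
    𝒯.d q (g • q) ≤ 𝒯.d p (g • p) := by
  have h1 := 𝒯.d_triangle p (g • p) (g • q)
  have h2 := 𝒯.d_triangle q p (g • p)
  rw [hI g p q] at h1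
  rw [𝒯.d_comm q p] at h2
  rcases ltree_dir hI hq p with h | h
  · unfold Btw at h
    grind
  · grind

theorem ltree_le_sq (hI : 𝒯.Iso K) {g : K} (hg : 𝒯.Hyp g) (p : T) :
    𝒯.d p (g • p) ≤ 𝒯.d p (g • g • p) := by
  by_contra hlt
  rw [not_le] at hlt
  obtain ⟨m, h1, h2, h3⟩ := exists_median (𝒯 := 𝒯) (g⁻¹ • p) p (g • p)
  have h4 := hI.btw g h1
  have h5 := hI.btw g h3
  rw [smul_inv_smul] at h4 h5
  have e1 : 𝒯.d (g • m) (g • p) = 𝒯.d p m := by rw [hI, 𝒯.d_comm]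
  have e2 : 𝒯.d (g • m) (g • g • p) = 𝒯.d m (g • p) := hI g _ _
  have hle : 𝒯.d p (g • m) ≤ 𝒯.d p m := by
    unfold Btw at h2 h4 h5
    grind
  have h6 := (h4.order h2 hle).1
  have h7 := hI.btw g (h1.symm.left h6).1
  rw [smul_inv_smul] at h7
  have h8 : g • g • m = m := by
    refine h7.unique h2.symm ?_
    rw [hI g p (g • m), 𝒯.d_comm (g • p) m]
    unfold Btw at h2 h4
    grind
  obtain ⟨q, hq⟩ := hg.2
  have hq0 : 𝒯.d q (g • g • q) = 𝒯.d q (g • q) + 𝒯.d q (g • q) := hq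
  have b1 : 𝒯.Btw q (g • q) (g • g • q) := by
    unfold Btw
    rw [hI g q (g • q), hq0]
  have b2 := hI.btw g b1
  have b3 := hI.btw g b2
  have b4 := (b1.trans b2 (hg.1 _).symm).2
  have b5 := (b4.trans b3 (hg.1 _).symm).1
  have b6 := ltree_le_of_fix hI (g := g * g) (q := m) (by rw [mul_smul, h8]) q
  have b7 := 𝒯.ltree_pos (hg.1 q).symm
  simp only [mul_smul] at b6
  unfold Btw at b5
  rw [hI g (g • q), hI g q] at b5
  grind

theorem ltree_btw_disp (hI : 𝒯.Iso K) {g : K} {p q m : T} (hp : p ∈ 𝒯.Ax g) (hq : q ∈ 𝒯.Ax g)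
    (hm : 𝒯.Btw p m q) : 𝒯.d m (g • m) ≤ 𝒯.d p (g • p) := by
  have e1 := ltree_disp_le hI hp q
  have e2 := ltree_disp_le hI hq p
  have n1 := 𝒯.d_nonneg p (g • p)
  have c1 := 𝒯.d_comm m p
  have c2 := 𝒯.d_comm q m
  have c3 := 𝒯.d_comm (g • p) p
  have c4 := 𝒯.d_comm (g • q) q
  unfold Btw at hm
  rcases ltree_dir hI hq p with h | h
  · have h1 := 𝒯.four m (g • m) p (g • q)
    have h2 := 𝒯.d_triangle m q (g • q)
    have h3 := 𝒯.d_triangle (g • m) (g • p) p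
    rw [hI g m q] at h1
    rw [hI g m p] at h3
    unfold Btw at h
    grind
  · have h1 := 𝒯.four m (g • m) q (g • p)
    have h2 := 𝒯.d_triangle m p (g • p)
    have h3 := 𝒯.d_triangle (g • m) (g • q) q
    rw [hI g m p] at h1
    rw [hI g m q] at h3
    grind

theorem hyp_of_lt (hI : 𝒯.Iso K) {g : K} {p : T} (h : 𝒯.d p (g • p) < 𝒯.d p (g • g • p)) :
    𝒯.Hyp g := by
  refine ⟨fun q hq => absurd (ltree_le_of_fix hI hq p) (not_le.2 h), ?_⟩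
  obtain ⟨m, hm, -⟩ := ltree_median hI h.le
  exact ⟨m, hm⟩

theorem mem_ax_conj (hI : 𝒯.Iso K) (g h : K) (p : T) :
    h • p ∈ 𝒯.Ax (h * g * h⁻¹) ↔ p ∈ 𝒯.Ax g := by
  simp only [Ax, Set.mem_ofPred_eq, mul_smul, inv_smul_smul, hI h]

theorem mem_ax_inv (hI : 𝒯.Iso K) {g : K} (hg : 𝒯.Hyp g) {p : T} (hp : p ∈ 𝒯.Ax g) :
    p ∈ 𝒯.Ax g⁻¹ := by
  exact ltree_mem_inv hI hp

theorem smul_mem_ax (hI : 𝒯.Iso K) {g h : K} (hc : Commute g h) {p : T} (hp : p ∈ 𝒯.Ax g) :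
    h • p ∈ 𝒯.Ax g := by
  have h1 := (mem_ax_conj hI g h p).2 hp
  rwa [← hc.eq, mul_inv_cancel_right] at h1

/-- Projection to the axis. -/
theorem exists_proj (hI : 𝒯.Iso K) {g : K} (hg : 𝒯.Hyp g) (p : T) :
    ∃ m ∈ 𝒯.Ax g, (∀ r ∈ 𝒯.Ax g, 𝒯.Btw p m r) ∧
      𝒯.d p (g • p) = 𝒯.d p m + 𝒯.d m (g • m) + 𝒯.d p m := by
  obtain ⟨m, hm, hd⟩ := ltree_median hI (ltree_le_sq hI hg p)
  refine ⟨m, hm, fun r hr => ?_, hd⟩
  obtain ⟨n, h1, h2, h3⟩ := exists_median (𝒯 := 𝒯) p m r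
  have h4 := ltree_btw_disp hI hm hr h2
  have h5 := 𝒯.d_triangle p n (g • p)
  have h6 := 𝒯.d_triangle n (g • n) (g • p)
  have h7 := 𝒯.d_nonneg n m
  rw [hI, 𝒯.d_comm n p] at h6
  unfold Btw at h1
  have : n = m := 𝒯.eq_of_d _ _ (by grind)
  rwa [this] at h3

theorem d_smul_eq_of_mem_ax (hI : 𝒯.Iso K) {g : K} (hg : 𝒯.Hyp g) {p q : T}
    (hp : p ∈ 𝒯.Ax g) (hq : q ∈ 𝒯.Ax g) : 𝒯.d p (g • p) = 𝒯.d q (g • q) := by
  exact le_antisymm (ltree_disp_le hI hp q) (ltree_disp_le hI hq p)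

theorem btw_mem_ax (hI : 𝒯.Iso K) {g : K} (hg : 𝒯.Hyp g) {p q m : T}
    (hp : p ∈ 𝒯.Ax g) (hq : q ∈ 𝒯.Ax g) (hm : 𝒯.Btw p m q) : m ∈ 𝒯.Ax g := by
  obtain ⟨n, hn, -, hd⟩ := exists_proj hI hg m
  have h1 := ltree_btw_disp hI hp hq hm
  have h2 := ltree_disp_le hI hp n
  have h3 := 𝒯.d_nonneg m n
  have : m = n := 𝒯.eq_of_d _ _ (by grind)
  rwa [this]

theorem abs_sd (g : K) (p q : T) : |𝒯.sd g p q| = 𝒯.d p q := by
  unfold sd
  split_ifs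
  · exact abs_of_nonneg (𝒯.d_nonneg p q)
  · rw [abs_neg]; exact abs_of_nonneg (𝒯.d_nonneg p q)

theorem ltree_sd_of_ahead (hI : 𝒯.Iso K) {g : K} {p q : T} (h : 𝒯.Btw p q (g • q)) :
    𝒯.sd g p q = 𝒯.d p q := by
  have h1 := 𝒯.d_triangle p q (g⁻¹ • q)
  rw [ltree_d_inv hI g q q] at h1
  unfold Btw at h
  unfold sd
  rw [if_pos (h1.trans h.le)]

theorem ltree_sd_cases (hI : 𝒯.Iso K) {g : K} (hg : 𝒯.Hyp g) {p q : T} (hp : p ∈ 𝒯.Ax g)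
    (hq : q ∈ 𝒯.Ax g) : (𝒯.Btw p q (g • q) ∧ 𝒯.sd g p q = 𝒯.d p q) ∨
      (𝒯.Btw q p (g • p) ∧ 𝒯.sd g p q = - 𝒯.d p q) := by
  by_cases h : 𝒯.Btw p q (g • q)
  · exact Or.inl ⟨h, ltree_sd_of_ahead hI h⟩
  · have h1 := (ltree_dir hI hq p).resolve_left h
    have h2 := 𝒯.d_triangle p q (g • q)
    have e1 := d_smul_eq_of_mem_ax hI hg hp hq
    have c1 := 𝒯.d_comm q p
    unfold Btw at *
    refine Or.inr ⟨by grind, ?_⟩
    unfold sd
    rw [if_neg]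
    rw [ltree_d_inv hI g p q]
    grind

theorem ltree_ahead_trans (hI : 𝒯.Iso K) {g : K} (hg : 𝒯.Hyp g) {p q r : T} (hq : q ∈ 𝒯.Ax g)
    (hr : r ∈ 𝒯.Ax g) (h1 : 𝒯.Btw p q (g • q)) (h2 : 𝒯.Btw q r (g • r)) :
    𝒯.Btw p q r ∧ 𝒯.Btw p r (g • r) := by
  have e1 := d_smul_eq_of_mem_ax hI hg hq hr
  have h3 : 𝒯.Btw q (g • q) (g • r) := by
    unfold Btw at *
    rw [hI g q r]
    grind
  have h4 := (h1.trans h3 (hg.1 q).symm).1
  have t1 := 𝒯.d_triangle p r (g • r)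
  have t2 := 𝒯.d_triangle p q r
  unfold Btw at *
  constructor <;> grind

theorem ltree_ahead_antisymm (hI : 𝒯.Iso K) {g : K} (hg : 𝒯.Hyp g) {p q : T} (hp : p ∈ 𝒯.Ax g)
    (hq : q ∈ 𝒯.Ax g) (h1 : 𝒯.Btw p q (g • q)) (h2 : 𝒯.Btw q p (g • p)) : 𝒯.d p q = 0 := by
  have e1 := d_smul_eq_of_mem_ax hI hg hp hq
  have h3 := 𝒯.four p (g • q) (g • p) q
  have h4 := 𝒯.ltree_pos (hg.1 q).symm
  have h5 := 𝒯.d_nonneg p q
  have c1 := 𝒯.d_comm q p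
  rw [hI g q p, 𝒯.d_comm (g • p) q, 𝒯.d_comm (g • q) q] at h3
  unfold Btw at *
  grind

theorem sd_add (hI : 𝒯.Iso K) {g : K} (hg : 𝒯.Hyp g) {p q r : T}
    (hp : p ∈ 𝒯.Ax g) (hq : q ∈ 𝒯.Ax g) (hr : r ∈ 𝒯.Ax g) :
    𝒯.sd g p q + 𝒯.sd g q r = 𝒯.sd g p r := by
  have e1 := d_smul_eq_of_mem_ax hI hg hp hq
  have e2 := d_smul_eq_of_mem_ax hI hg hp hr
  have c1 := 𝒯.d_comm q p
  have c2 := 𝒯.d_comm r q
  have c3 := 𝒯.d_comm r p
  rcases ltree_sd_cases hI hg hp hq with ⟨a1, s1⟩ | ⟨a1, s1⟩ <;>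
    rcases ltree_sd_cases hI hg hq hr with ⟨a2, s2⟩ | ⟨a2, s2⟩ <;>
    rcases ltree_sd_cases hI hg hp hr with ⟨a3, s3⟩ | ⟨a3, s3⟩ <;> rw [s1, s2, s3]
  · exact (ltree_ahead_trans hI hg hq hr a1 a2).1
  · have h1 := ltree_ahead_trans hI hg hq hr a1 a2
    have h2 := ltree_ahead_antisymm hI hg hp hr h1.2 a3
    have h3 := h1.1
    unfold Btw at h3
    grind
  · have h3 := (ltree_ahead_trans hI hg hr hq a3 a2).1
    unfold Btw at h3
    grind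
  · have h3 := (ltree_ahead_trans hI hg hp hq a3 a1).1
    unfold Btw at h3
    grind
  · have h3 := (ltree_ahead_trans hI hg hp hr a1 a3).1
    unfold Btw at h3
    grind
  · have h3 := (ltree_ahead_trans hI hg hr hp a2 a3).1
    unfold Btw at h3
    grind
  · have h1 := ltree_ahead_trans hI hg hq hp a2 a1
    have h2 := ltree_ahead_antisymm hI hg hp hr a3 h1.2
    have h3 := h1.1
    unfold Btw at h3
    grind
  · have h3 := (ltree_ahead_trans hI hg hq hp a2 a1).1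
    unfold Btw at h3
    grind

theorem sd_smul_self (hI : 𝒯.Iso K) {g : K} (hg : 𝒯.Hyp g) {p : T} (hp : p ∈ 𝒯.Ax g) :
    𝒯.sd g p (g • p) = 𝒯.d p (g • p) := by
  have hq : g • p ∈ 𝒯.Ax g := smul_mem_ax hI (Commute.refl g) hp
  refine ltree_sd_of_ahead hI ?_
  unfold Btw
  rw [hI g p (g • p)]
  exact hp.symm

theorem sd_smul_smul (hI : 𝒯.Iso K) {g h : K} (hc : Commute g h) (p q : T) :
    𝒯.sd g (h • p) (h • q) = 𝒯.sd g p q := by
  have e1 : g • h • q = h • g • q := by rw [← mul_smul, hc.eq, mul_smul]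
  have e2 : g⁻¹ • h • q = h • g⁻¹ • q := by rw [← mul_smul, hc.inv_left.eq, mul_smul]
  unfold sd
  rw [e1, e2, hI, hI, hI]

theorem eq_of_sd_eq (hI : 𝒯.Iso K) {g : K} (hg : 𝒯.Hyp g) {p q r : T}
    (hp : p ∈ 𝒯.Ax g) (hq : q ∈ 𝒯.Ax g) (hr : r ∈ 𝒯.Ax g)
    (h : 𝒯.sd g p q = 𝒯.sd g p r) : q = r := by
  have h1 := sd_add hI hg hp hq hr
  have h2 : 𝒯.sd g q r = 0 := by grind
  have h3 := abs_sd (𝒯 := 𝒯) g q r
  rw [h2, abs_zero] at h3
  exact 𝒯.eq_of_d _ _ h3.symm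

/-- The centralizer of a hyperbolic element acts on its axis by translations. -/
theorem exists_transl (hI : 𝒯.Iso K) {g : K} (hg : 𝒯.Hyp g) :
    ∃ τ : Subgroup.centralizer ({g} : Set K) →* Multiplicative Λ,
      ∀ (h : Subgroup.centralizer ({g} : Set K)), ∀ p ∈ 𝒯.Ax g,
        Multiplicative.toAdd (τ h) = 𝒯.sd g p ((h : K) • p) := by
  obtain ⟨p₀, hp₀⟩ := hg.2
  have hc : ∀ h : Subgroup.centralizer ({g} : Set K), Commute g (h : K) := fun h =>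
    (Subgroup.mem_centralizer_iff.1 h.2) g rfl
  refine ⟨MonoidHom.mk' (fun h => Multiplicative.ofAdd (𝒯.sd g p₀ ((h : K) • p₀))) fun h k => ?_,
    fun h p hp => ?_⟩
  · rw [← ofAdd_add, Subgroup.coe_mul, mul_smul, ← sd_smul_smul hI (hc h) p₀ ((k : K) • p₀),
      sd_add hI hg hp₀ (smul_mem_ax hI (hc h) hp₀)
        (smul_mem_ax hI (hc h) (smul_mem_ax hI (hc k) hp₀))]
  · change 𝒯.sd g p₀ ((h : K) • p₀) = _
    have h1 := sd_add hI hg hp₀ hp (smul_mem_ax hI (hc h) hp)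
    have h2 := sd_add hI hg hp₀ (smul_mem_ax hI (hc h) hp₀) (smul_mem_ax hI (hc h) hp)
    rw [sd_smul_smul hI (hc h)] at h2
    grind

theorem ax_subset_of_commute (hI : 𝒯.Iso K) {g h : K} (hg : 𝒯.Hyp g) (hc : Commute g h) :
    𝒯.Ax g ⊆ 𝒯.Ax h := by
  intro p hp
  have h1 := sd_add hI hg hp (smul_mem_ax hI hc hp) (smul_mem_ax hI hc (smul_mem_ax hI hc hp))
  rw [sd_smul_smul hI hc] at h1
  change _ = _
  rw [← abs_sd g p (h • h • p), ← abs_sd g p (h • p), ← h1]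
  grind

theorem d_zpow_smul (hI : 𝒯.Iso K) {g : K} (hg : 𝒯.Hyp g) {p : T} (hp : p ∈ 𝒯.Ax g) (n : ℤ) :
    𝒯.sd g p (g ^ n • p) = n • 𝒯.d p (g • p) := by
  obtain ⟨τ, hτ⟩ := exists_transl hI hg
  have hm : g ∈ Subgroup.centralizer ({g} : Set K) :=
    Subgroup.mem_centralizer_iff.2 fun h hh => by rw [Set.mem_singleton_iff.1 hh]
  have h1 := hτ (⟨g, hm⟩ ^ n) p hp
  have h2 := hτ ⟨g, hm⟩ p hp
  rw [map_zpow, toAdd_zpow, h2, sd_smul_self hI hg hp] at h1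
  exact h1.symm

/-- Two isometric charts into the same axis that agree at two points agree. -/
theorem chart_agree (hI : 𝒯.Iso K) {g : K} (hg : 𝒯.Hyp g) {V : Type} [AddCommGroup V]
    [LinearOrder V] [IsOrderedAddMonoid V] (j : V →+ Λ) (hj : StrictMono j) {S : Set V}
    {κ κ' : V → T} (h1 : ∀ s ∈ S, ∀ t ∈ S, 𝒯.d (κ s) (κ t) = j |s - t|)
    (h2 : ∀ s ∈ S, ∀ t ∈ S, 𝒯.d (κ' s) (κ' t) = j |s - t|)
    (a1 : ∀ s ∈ S, κ s ∈ 𝒯.Ax g) (a2 : ∀ s ∈ S, κ' s ∈ 𝒯.Ax g) {s₀ t₀ : V} (hs : s₀ ∈ S)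
    (ht : t₀ ∈ S) (hne : s₀ ≠ t₀) (e1 : κ s₀ = κ' s₀) (e2 : κ t₀ = κ' t₀) :
    ∀ s ∈ S, κ s = κ' s := by
  intro s hs'
  have p1 := a1 s₀ hs
  have p2 := a1 t₀ ht
  have q1 := a1 s hs'
  have q2 := a2 s hs'
  refine eq_of_sd_eq hI hg p1 q1 q2 ?_
  have b1 := sd_add hI hg p1 p2 q1
  have b2 := sd_add hI hg p1 p2 q2
  have c1 : |𝒯.sd g (κ s₀) (κ s)| = |𝒯.sd g (κ s₀) (κ' s)| := by
    rw [abs_sd, abs_sd, h1 s₀ hs s hs', e1, h2 s₀ hs s hs']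
  have c2 : |𝒯.sd g (κ t₀) (κ s)| = |𝒯.sd g (κ t₀) (κ' s)| := by
    rw [abs_sd, abs_sd, h1 t₀ ht s hs', e2, h2 t₀ ht s hs']
  have c3 : 0 < |𝒯.sd g (κ s₀) (κ t₀)| := by
    rw [abs_sd, h1 s₀ hs t₀ ht, ← map_zero j]
    exact hj (abs_pos.2 (sub_ne_zero.2 hne))
  rw [abs_pos] at c3
  rw [abs_eq_abs] at c1 c2
  grind

end Action

end LTree

end Pool.Agent.Lib.MP_d87150_al
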