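import Pool.Agent.Lib.MP_d87150_al.Dim

/-!
# Cocycles on subgroups and the class `InK`
-/

set_option autoImplicit false

noncomputable section

namespace Pool.Agent.Lib.MP_d87150_al

/-- Torsion-free, commutative transitive, malnormal centralizers, spectral gap for
non-commuting pairs. -/
structure Nice (G : Type) [Group G] : Prop where
  tf : ∀ x : G, x ≠ 1 → ¬ IsOfFinOrder x
  ct : ∀ x y z : G, x ≠ 1 → Commute x y → Commute x z → Commute y z
  mal : ∀ x g : G, x ≠ 1 → Commute x (g * x * g⁻¹) → Commute x g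
  gap : ∀ x y : G, ¬ Commute x y → ∃ u ∈ Subgroup.closure ({x, y} : Set G),
    ∃ v ∈ Subgroup.closure ({x, y} : Set G),
      ∀ ξ : L2 G, ‖ξ‖ ≤ 4 * (‖u • ξ - ξ‖ + ‖v • ξ - ξ‖)

variable {G : Type} [Group G]

/-- The conjugate `g K g⁻¹`. -/
def cj (g : G) (K : Subgroup G) : Subgroup G := K.map (MulAut.conj g).toMonoidHom

theorem mem_cj {g x : G} {K : Subgroup G} : x ∈ cj g K ↔ g⁻¹ * x * g ∈ K := by
  constructor
  · rintro ⟨y, hy, rfl⟩
    have e : g⁻¹ * (MulAut.conj g).toMonoidHom y * g = y := by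
      change g⁻¹ * (g * y * g⁻¹) * g = y
      group
    rw [e]
    exact hy
  · intro h
    refine ⟨g⁻¹ * x * g, h, ?_⟩
    change g * (g⁻¹ * x * g) * g⁻¹ = x
    group

theorem cj_one (K : Subgroup G) : cj 1 K = K := by
  ext x
  simp [mem_cj]

theorem cj_mul (g h : G) (K : Subgroup G) : cj (g * h) K = cj g (cj h K) := by
  ext x
  simp only [mem_cj, mul_inv_rev, mul_assoc]

/-- If `y ≠ 1` commutes with `x ≠ 1` and `g y g⁻¹` commutes with `x`, then `g` commutes
with `x`. -/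
theorem Nice.commute_of_conj (hG : Nice G) {x y g : G} (hx : x ≠ 1) (hy : y ≠ 1)
    (h1 : Commute x y) (h2 : Commute x (g * y * g⁻¹)) : Commute x g := by
  exact hG.ct y x g hy h1.symm (hG.mal y g hy (hG.ct x y _ hx h1 h2))

/-- `c` is a 1-cocycle on the subgroup `K` with values in `l2(G)`. -/
def IsCoc (K : Subgroup G) (c : G → L2 G) : Prop :=
  ∀ a ∈ K, ∀ b ∈ K, c (a * b) = c a + a • c b

namespace IsCoc

variable {K : Subgroup G} {c c' : G → L2 G}

theorem one (h : IsCoc K c) : c 1 = 0 := by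
  have e := h 1 K.one_mem 1 K.one_mem
  rw [mul_one, one_smul] at e
  exact left_eq_add.1 e

theorem inv (h : IsCoc K c) {a : G} (ha : a ∈ K) : c a⁻¹ = -(a⁻¹ • c a) := by
  have e := h a⁻¹ (K.inv_mem ha) a ha
  rw [inv_mul_cancel, h.one] at e
  exact eq_neg_of_add_eq_zero_left e.symm

theorem mono (h : IsCoc K c) {K' : Subgroup G} (hK : K' ≤ K) : IsCoc K' c := by
  exact fun a ha b hb => h a (hK ha) b (hK hb)

theorem zero : IsCoc K (fun _ => (0 : L2 G)) := by
  intro a _ b _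
  simp

theorem add (h : IsCoc K c) (h' : IsCoc K c') : IsCoc K (fun g => c g + c' g) := by
  intro a ha b hb
  simp only [h a ha b hb, h' a ha b hb, smul_add]
  abel

theorem sub (h : IsCoc K c) (h' : IsCoc K c') : IsCoc K (fun g => c g - c' g) := by
  intro a ha b hb
  simp only [h a ha b hb, h' a ha b hb, smul_sub]
  abel

theorem inner (ξ : L2 G) : IsCoc K (fun g => g • ξ - ξ) := by
  intro a _ b _
  simp only [mul_smul, smul_sub]
  abel

theorem conj (h : IsCoc K c) {g a : G} (hg : g ∈ K) (ha : a ∈ K) :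
    c (g * a * g⁻¹) = c g + g • c a - (g * a * g⁻¹) • c g := by
  rw [h (g * a) (K.mul_mem hg ha) g⁻¹ (K.inv_mem hg), h g hg a ha, h.inv hg, smul_neg,
    ← mul_smul, sub_eq_add_neg]

theorem comm (h : IsCoc K c) {a b : G} (ha : a ∈ K) (hb : b ∈ K) (hab : Commute a b) :
    a • c b - c b = b • c a - c a := by
  have e1 := h a ha b hb
  have e2 := h b hb a ha
  rw [← hab.eq, e1] at e2
  have e3 : a • c b = c b + b • c a - c a := by
    rw [← e2]
    abel
  rw [e3]
  abel

theorem eq_zero_of_commute (hG : Nice G) (h : IsCoc K c) {x z : G} (hx : x ∈ K) (hz : z ∈ K)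
    (hx1 : x ≠ 1) (hxz : Commute x z) (h0 : c x = 0) : c z = 0 := by
  have e := h.comm hx hz hxz
  rw [h0, smul_zero, sub_zero, sub_eq_zero] at e
  exact L2.eq_zero_of_gsmul_eq (hG.tf x hx1) e

theorem eqOn_closure (h : IsCoc K c) (h' : IsCoc K c') {s : Set G} (hs : s ⊆ K)
    (he : ∀ g ∈ s, c g = c' g) : ∀ g ∈ Subgroup.closure s, c g = c' g := by
  have hle : Subgroup.closure s ≤ K := (Subgroup.closure_le K).2 hs
  intro g hg
  induction hg using Subgroup.closure_induction with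
  | mem g hg => exact he g hg
  | one => rw [h.one, h'.one]
  | mul a b ha hb ea eb => rw [h a (hle ha) b (hle hb), h' a (hle ha) b (hle hb), ea, eb]
  | inv a ha ea => rw [h.inv (hle ha), h'.inv (hle ha), ea]

theorem cj (h : IsCoc K c) (g : G) : IsCoc (cj g K) (fun k => g • c (g⁻¹ * k * g)) := by
  intro a ha b hb
  have e : g⁻¹ * (a * b) * g = (g⁻¹ * a * g) * (g⁻¹ * b * g) := by group
  have e' : g * (g⁻¹ * a * g) = a * g := by group
  simp only
  rw [e, h _ (mem_cj.1 ha) _ (mem_cj.1 hb), smul_add, ← mul_smul, ← mul_smul, e']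

theorem restr_rt (h : IsCoc K c) (r : G) :
    IsCoc K (fun k => L2.restr (K : Set G) (L2.rt r (c k))) := by
  intro a ha b hb
  simp only
  rw [h a ha b hb, map_add, map_add, L2.rt_gsmul,
    L2.restr_gsmul (fun k => Subgroup.mul_mem_cancel_left K ha)]

end IsCoc

/-- The class of good subgroups: finitely presented, finitely generated centralizers, and
non-commuting elements are separated by a cocycle. -/
structure InK (K : Subgroup G) : Prop where
  fp : Group.IsFinitelyPresented K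
  cfg : ∀ x ∈ K, x ≠ 1 → (K ⊓ Subgroup.centralizer {x}).FG
  sep : ∀ x ∈ K, ∀ y ∈ K, ¬ Commute x y → ∃ c, IsCoc K c ∧ c x = 0 ∧ c y ≠ 0

theorem InK.fg {K : Subgroup G} (h : InK K) : K.FG := by
  obtain ⟨n, φ, hφ, -⟩ := h.fp.out
  exact (Group.fg_iff_subgroup_fg K).1 (Group.fg_of_surjective hφ)

theorem InK.cj {K : Subgroup G} (h : InK K) (g : G) : InK (cj g K) := by
  refine ⟨?_, fun x hx hx1 => ?_, fun x hx y hy hxy => ?_⟩
  · have := h.fp
    exact Group.IsFinitelyPresented.equiv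
      (K.equivMapOfInjective (MulAut.conj g).toMonoidHom (MulAut.conj g).injective)
  · have hx' : g⁻¹ * x * g ≠ 1 := by
      intro e
      apply hx1
      calc x = g * (g⁻¹ * x * g) * g⁻¹ := by group
        _ = 1 := by rw [e]; group
    have e : MP_d87150_al.cj g K ⊓ Subgroup.centralizer {x}
        = MP_d87150_al.cj g (K ⊓ Subgroup.centralizer {g⁻¹ * x * g}) := by
      ext z
      simp only [Subgroup.mem_inf, mem_cj, Subgroup.mem_centralizer_singleton_iff]
      refine and_congr_right fun _ => ⟨fun k => ?_, fun k => ?_⟩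
      · calc g⁻¹ * z * g * (g⁻¹ * x * g) = g⁻¹ * (z * x) * g := by group
          _ = g⁻¹ * (x * z) * g := by rw [k]
          _ = _ := by group
      · calc z * x = g * (g⁻¹ * z * g * (g⁻¹ * x * g)) * g⁻¹ := by group
          _ = g * (g⁻¹ * x * g * (g⁻¹ * z * g)) * g⁻¹ := by rw [k]
          _ = _ := by group
    rw [e]
    obtain ⟨S, hS⟩ := h.cfg _ (mem_cj.1 hx) hx'
    classical
    refine ⟨S.image (MulAut.conj g).toMonoidHom, ?_⟩
    rw [Finset.coe_image, ← MonoidHom.map_closure, hS]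
    rfl
  · have hxy' : ¬ Commute (g⁻¹ * x * g) (g⁻¹ * y * g) := by
      intro k
      apply hxy
      calc x * y = g * (g⁻¹ * x * g * (g⁻¹ * y * g)) * g⁻¹ := by group
        _ = g * (g⁻¹ * y * g * (g⁻¹ * x * g)) * g⁻¹ := by rw [k.eq]
        _ = y * x := by group
    obtain ⟨c, hc, c0, c1⟩ := h.sep _ (mem_cj.1 hx) _ (mem_cj.1 hy) hxy'
    refine ⟨_, hc.cj g, ?_, ?_⟩
    · simp only [c0, smul_zero]
    · intro k
      exact c1 ((smul_eq_zero_iff_eq g).1 k)

/-- Subgroups of a finitely generated commutative group are finitely generated. -/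
theorem coc_fg_subgroup {P : Type} [Group P] (hfg : Group.FG P) (hc : ∀ a b : P, a * b = b * a)
    (N : Subgroup P) : N.FG := by
  let : CommGroup P := { (inferInstance : Group P) with mul_comm := hc }
  have : AddGroup.FG (Additive P) := GroupFG.iff_add_fg.1 hfg
  have : Module.Finite ℤ (Additive P) := Module.Finite.iff_addGroup_fg.2 inferInstance
  have h := IsNoetherian.noetherian (R := ℤ) (AddSubgroup.toIntSubmodule N.toAddSubgroup)
  rw [Submodule.fg_iff_addSubgroup_fg] at h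
  exact (Subgroup.fg_iff_add_fg N).2 h

/-- A finitely generated commutative group is finitely presented. -/
theorem isFinitelyPresented_of_comm {P : Type} [Group P] (hfg : Group.FG P)
    (hc : ∀ a b : P, Commute a b) : Group.IsFinitelyPresented P := by
  obtain ⟨α, hα, φ, hφ⟩ := Group.fg_iff_exists_freeGroup_hom_surjective_finite.1 hfg
  let R : Set (FreeGroup α) := Set.range fun p : α × α =>
    FreeGroup.of p.1 * FreeGroup.of p.2 * (FreeGroup.of p.2 * FreeGroup.of p.1)⁻¹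
  have : Finite R := Set.finite_range _
  have hR : ∀ r ∈ R, FreeGroup.lift (fun a => φ (FreeGroup.of a)) r = 1 := by
    rintro r ⟨p, rfl⟩
    simp only [map_mul, map_inv, FreeGroup.lift_apply_of]
    rw [(hc (φ (FreeGroup.of p.1)) (φ (FreeGroup.of p.2))).eq, mul_inv_cancel]
  have hof : ∀ a b : α, Commute (PresentedGroup.of a : PresentedGroup R) (PresentedGroup.of b) := by
    intro a b
    have := PresentedGroup.mk_eq_mk_of_mul_inv_mem (rels := R)
      (x := FreeGroup.of a * FreeGroup.of b) (y := FreeGroup.of b * FreeGroup.of a) ⟨(a, b), rfl⟩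
    rw [map_mul, map_mul] at this
    exact this
  have h1 : ∀ (a : α) (y : PresentedGroup R), Commute (PresentedGroup.of a) y := by
    intro a y
    have := PresentedGroup.generated_by R (Subgroup.centralizer {PresentedGroup.of a})
      (fun b => Subgroup.mem_centralizer_singleton_iff.2 (hof b a).eq) y
    exact (Subgroup.mem_centralizer_singleton_iff.1 this).symm
  have h2 : ∀ x y : PresentedGroup R, x * y = y * x := by
    intro x y
    have := PresentedGroup.generated_by R (Subgroup.centralizer {y})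
      (fun b => Subgroup.mem_centralizer_singleton_iff.2 (h1 b y).eq) x
    exact Subgroup.mem_centralizer_singleton_iff.1 this
  have hfgQ : Group.FG (PresentedGroup R) :=
    Group.fg_of_surjective (PresentedGroup.mk_surjective R)
  have hs : Function.Surjective (PresentedGroup.toGroup hR) := by
    intro p
    obtain ⟨w, rfl⟩ := hφ p
    refine ⟨PresentedGroup.mk R w, ?_⟩
    have e : (PresentedGroup.toGroup hR).comp (PresentedGroup.mk R) = φ := by
      ext a
      exact PresentedGroup.toGroup.of hR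
    exact DFunLike.congr_fun e w
  have := (Group.fg_iff_subgroup_fg _).2
    (coc_fg_subgroup hfgQ h2 (PresentedGroup.toGroup hR).ker)
  exact Group.IsFinitelyPresented.of_surjective _ hs (.of_FG _)

theorem inK_of_comm {K : Subgroup G} (hfg : K.FG) (hc : ∀ a ∈ K, ∀ b ∈ K, Commute a b) :
    InK K := by
  refine ⟨?_, fun x hx _ => ?_, fun x hx y hy hxy => absurd (hc x hx y hy) hxy⟩
  · exact isFinitelyPresented_of_comm ((Group.fg_iff_subgroup_fg K).2 hfg)
      fun a b => Subtype.ext (hc a a.2 b b.2).eq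
  · have e : K ⊓ Subgroup.centralizer {x} = K :=
      inf_eq_left.2 fun z hz => Subgroup.mem_centralizer_singleton_iff.2 (hc z hz x hx).eq
    rw [e]
    exact hfg

theorem inK_bot : InK (⊥ : Subgroup G) := by
  refine inK_of_comm ⟨∅, by simp⟩ fun a ha b _ => ?_
  rw [Subgroup.mem_bot.1 ha]
  exact Commute.one_left b

/-- The cocycles on a finitely generated subgroup form a closed invariant subspace of tuples. -/
theorem exists_cocycle_space {K : Subgroup G} (hfg : K.FG) :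
    ∃ (n : ℕ) (Z : Submodule ℝ (H G (Fin n))) (ev : G → Fn G (Fin n)),
      Inv Z ∧ (∀ g, EqvF (ev g)) ∧ (∀ v ∈ Z, IsCoc K (fun g => ev g v)) ∧
        ∀ c, IsCoc K c → ∃ v ∈ Z, ∀ g ∈ K, ev g v = c g := by
  classical
  obtain ⟨S, hS⟩ := hfg
  let s : Fin S.card → G := fun i => (S.equivFin.symm i : G)
  have hsK : ∀ i, s i ∈ K := fun i => hS ▸ Subgroup.subset_closure (S.equivFin.symm i).2
  have key : ∀ g ∈ Subgroup.closure (S : Set G), ∃ e : Fn G (Fin S.card), EqvF e ∧
      ∀ c, IsCoc K c → e (fun i => c (s i)) = c g := by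
    intro g hg
    induction hg using Subgroup.closure_induction with
    | mem g hg =>
      refine ⟨ContinuousLinearMap.proj (S.equivFin ⟨g, hg⟩), EqvF.proj _, fun c _ => ?_⟩
      simp [s]
    | one => exact ⟨0, EqvF.zero, fun c hc => by simp [hc.one]⟩
    | mul a b ha hb ea eb =>
      obtain ⟨ea, qa, pa⟩ := ea
      obtain ⟨eb, qb, pb⟩ := eb
      refine ⟨ea + a • eb, qa.add (qb.gsmul a), fun c hc => ?_⟩
      rw [add_apply, smul_apply, pa c hc, pb c hc,
        hc a (hS ▸ ha) b (hS ▸ hb)]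
    | inv a ha ea =>
      obtain ⟨ea, qa, pa⟩ := ea
      refine ⟨-(a⁻¹ • ea), (qa.gsmul a⁻¹).neg, fun c hc => ?_⟩
      rw [neg_apply, smul_apply, pa c hc,
        hc.inv (hS ▸ ha)]
  have key' : ∀ g : G, ∃ e : Fn G (Fin S.card), EqvF e ∧
      (g ∈ K → ∀ c, IsCoc K c → e (fun i => c (s i)) = c g) := by
    intro g
    by_cases hg : g ∈ K
    · obtain ⟨e, q, p⟩ := key g (hS.symm ▸ hg)
      exact ⟨e, q, fun _ => p⟩
    · exact ⟨0, EqvF.zero, fun h => absurd h hg⟩
  choose ev q p using key'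
  let d : K × K → Fn G (Fin S.card) := fun x =>
    ev (x.1 * x.2) - (ev x.1 + (x.1 : G) • ev x.2)
  have hd : ∀ (x : K × K) (v : H G (Fin S.card)),
      v ∈ LinearMap.ker (d x : H G (Fin S.card) →ₗ[ℝ] L2 G) ↔
        ev (x.1 * x.2) v = ev x.1 v + (x.1 : G) • ev x.2 v := by
    intro x v
    rw [LinearMap.mem_ker, ← sub_eq_zero (a := ev (x.1 * x.2) v)]
    rfl
  refine ⟨S.card, ⨅ x, LinearMap.ker (d x : H G (Fin S.card) →ₗ[ℝ] L2 G), ev,
    Inv.iInf fun x => Inv.kerF ((q _).sub ((q _).add ((q _).gsmul _))), q, fun v hv => ?_,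
    fun c hc => ⟨fun i => c (s i), ?_, fun g hg => p g hg c hc⟩⟩
  · intro a ha b hb
    exact (hd (⟨a, ha⟩, ⟨b, hb⟩) v).1 ((Submodule.mem_iInf _).1 hv _)
  · refine (Submodule.mem_iInf _).2 fun x => (hd x _).2 ?_
    rw [p _ (K.mul_mem x.1.2 x.2.2) c hc, p _ x.1.2 c hc, p _ x.2.2 c hc]
    exact hc _ x.1.2 _ x.2.2

/-- The tuples on which given functionals take inner values are dense. -/
theorem coc_dense (hG : Nice G) {A ι : Type} [Fintype A] [Fintype ι] {Z : Submodule ℝ (H G A)}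
    (hZ : Inv Z) {ev : ι → Fn G A} (hev : ∀ i, EqvF (ev i)) (u : ι → G) (hu : ∀ i, u i ≠ 1) :
    (Z : Set (H G A)) ⊆ closure {c | c ∈ Z ∧ ∀ i, ∃ ξ, ev i c = u i • ξ - ξ} := by
  refine subset_closure_range_cond hZ hev
    (D := fun i => L2.lt (u i) - ContinuousLinearMap.id ℝ (L2 G)) (fun i g ξ => ?_)
    (fun i ξ η h => ?_) (fun i => ?_)
  · change u i • L2.rt g ξ - L2.rt g ξ = L2.rt g (u i • ξ - ξ)
    rw [map_sub, L2.rt_gsmul]
  · exact L2.eq_of_gsmul_sub_eq (hG.tf _ (hu i)) h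
  · exact L2.denseRange_gsmul_sub (hG.tf _ (hu i))

/-- Separation by a cocycle supported in `K` which is inner on finitely many given elements. -/
theorem InK.sep_flex (hG : Nice G) {K : Subgroup G} (hK : InK K) {x y : G} (hx : x ∈ K)
    (hy : y ∈ K) (hxy : ¬ Commute x y) {ι : Type} [Finite ι] (u : ι → G)
    (hu : ∀ i, u i ∈ K ∧ u i ≠ 1) :
    ∃ c, IsCoc K c ∧ (∀ k, L2.SuppIn (K : Set G) (c k)) ∧ c x = 0 ∧ c y ≠ 0 ∧
      ∀ i, ∃ ξ, L2.SuppIn (K : Set G) ξ ∧ c (u i) = u i • ξ - ξ := by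
  have := Fintype.ofFinite ι
  obtain ⟨n, Z, ev, hZ, hev, hc1, hc2⟩ := exists_cocycle_space hK.fg
  obtain ⟨c₀, k0, kx, ky⟩ := hK.sep x hx y hy hxy
  obtain ⟨v₀, hv₀, e₀⟩ := hc2 c₀ k0
  have hZ' := hZ.inf (Inv.kerF (hev x))
  have hcl := coc_dense hG hZ' (ev := fun i => ev (u i)) (fun i => hev _) u (fun i => (hu i).2)
    (a := v₀) ⟨hv₀, by
      change ev x v₀ = 0
      rw [e₀ x hx, kx]⟩
  have hopen : IsOpen {v | ev y v ≠ 0} :=
    (isClosed_eq (ev y).continuous continuous_const).isOpen_compl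
  obtain ⟨v, hvy, ⟨hvZ, hvx⟩, hvu⟩ := mem_closure_iff.1 hcl _ hopen (by
    change ev y v₀ ≠ 0
    rw [e₀ y hy]
    exact ky)
  have hvx' : ev x v = 0 := hvx
  obtain ⟨r, hr⟩ := L2.exists_restr_rt_ne_zero K (ξ := ev y v) hvy
  refine ⟨_, (hc1 v hvZ).restr_rt r, fun k => L2.suppIn_restr _ _, ?_, hr, fun i => ?_⟩
  · simp only [hvx', map_zero]
  · obtain ⟨ξ, hξ⟩ := hvu i
    refine ⟨L2.restr (K : Set G) (L2.rt r ξ), L2.suppIn_restr _ _, ?_⟩
    rw [hξ, map_sub, map_sub, L2.rt_gsmul,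
      L2.restr_gsmul (fun k => Subgroup.mul_mem_cancel_left K (hu i).1)]

/-- A cocycle unbounded on `⟨x, y⟩` gives a separating cocycle. -/
theorem sep_of_unbounded (hG : Nice G) {K : Subgroup G} (hfg : K.FG) {x y : G} (hx : x ∈ K)
    (hy : y ∈ K) (hxy : ¬ Commute x y) {c : G → L2 G} (hc : IsCoc K c)
    (hunb : ∀ C : ℝ, ∃ g ∈ Subgroup.closure ({x, y} : Set G), C < ‖c g‖) :
    ∃ c', IsCoc K c' ∧ c' x = 0 ∧ c' y ≠ 0 := by
  by_contra hno
  have hno' : ∀ c', IsCoc K c' → c' x = 0 → c' y = 0 := by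
    intro c' h1 h2
    by_contra h3
    exact hno ⟨c', h1, h2, h3⟩
  have hx1 : x ≠ 1 := by
    rintro rfl
    exact hxy (Commute.one_left y)
  have hs : ({x, y} : Set G) ⊆ K := by
    rintro z (rfl | rfl)
    · exact hx
    · exact hy
  have hle : Subgroup.closure ({x, y} : Set G) ≤ K := (Subgroup.closure_le K).2 hs
  obtain ⟨u, hu, v, hv, hgap⟩ := hG.gap x y hxy
  obtain ⟨n, Z, ev, hZ, hev, hc1, hc2⟩ := exists_cocycle_space hfg
  obtain ⟨w₀, hw₀, e₀⟩ := hc2 c hc
  obtain ⟨g, hg, hlt⟩ := hunb (8 * (‖c u‖ + ‖c v‖))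
  have hcl := coc_dense hG hZ (ι := Unit) (ev := fun _ => ev x) (fun _ => hev _) (fun _ => x)
    (fun _ => hx1) hw₀
  have hclosed : IsClosed {w | ‖ev g w‖ ≤ 8 * (‖ev u w‖ + ‖ev v w‖)} :=
    isClosed_le (by fun_prop) (by fun_prop)
  have hmem := closure_minimal (t := {w | ‖ev g w‖ ≤ 8 * (‖ev u w‖ + ‖ev v w‖)}) ?_ hclosed hcl
  · have hmem' : ‖ev g w₀‖ ≤ 8 * (‖ev u w₀‖ + ‖ev v w₀‖) := hmem
    rw [e₀ g (hle hg), e₀ u (hle hu), e₀ v (hle hv)] at hmem'
    exact absurd hlt (not_lt.2 hmem')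
  · rintro w ⟨hw, hξ⟩
    obtain ⟨ξ, hξ⟩ := hξ ()
    have k1 := hc1 w hw
    have k2 : IsCoc K (fun g => g • ξ - ξ) := IsCoc.inner ξ
    have k3 := hno' _ (k1.sub k2) (sub_eq_zero.2 hξ)
    have k4 := k1.eqOn_closure k2 hs (by
      rintro z (rfl | rfl)
      · exact hξ
      · exact sub_eq_zero.1 k3)
    have eg : ev g w = g • ξ - ξ := k4 g hg
    have eu : ev u w = u • ξ - ξ := k4 u hu
    have ev' : ev v w = v • ξ - ξ := k4 v hv
    change ‖ev g w‖ ≤ 8 * (‖ev u w‖ + ‖ev v w‖)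
    rw [eg, eu, ev']
    have k5 := norm_sub_le (g • ξ) ξ
    rw [L2.norm_gsmul] at k5
    have k6 := hgap ξ
    linarith

end Pool.Agent.Lib.MP_d87150_al
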