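import Pool.Agent.Lib.MP_d87150_al.ZTree
import Pool.Agent.Lib.MP_d87150_al.Coc

/-!
# The coset graph of a one-edge graph of groups
-/

set_option autoImplicit false

noncomputable section

namespace Pool.Agent.Lib.MP_d87150_al

/-- Vertex groups `A i`, one edge group `E`; the end `s` of the base edge is the vertex
`t s • A (κ s)`. -/
structure EData (P : Type) [Group P] (ι : Type) where
  A : ι → Subgroup P
  κ : Bool → ι
  t : Bool → P
  E : Subgroup P
  le : ∀ s, ∀ e ∈ E, (t s)⁻¹ * e * t s ∈ A (κ s)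

namespace EData

variable {P ι : Type} [Group P] (D : EData P ι)

/-- Vertices. -/
abbrev Vx : Type := Σ i : ι, P ⧸ D.A i

/-- Nodes of the barycentric subdivision: vertices and edges. -/
abbrev Node : Type := D.Vx ⊕ (P ⧸ D.E)

/-- The end `s` of an edge. -/
def endp (s : Bool) (e : P ⧸ D.E) : D.Vx :=
  Quotient.liftOn' e (fun g => (⟨D.κ s, ((g * D.t s : P) : P ⧸ D.A (D.κ s))⟩ : D.Vx)) (by
    intro a b hab
    have h := QuotientGroup.leftRel_apply.mp hab
    have h2 := D.le s _ h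
    have : ((a * D.t s : P) : P ⧸ D.A (D.κ s)) = ((b * D.t s : P) : P ⧸ D.A (D.κ s)) := by
      rw [QuotientGroup.eq]
      simpa [mul_assoc] using h2
    simp only [this])

theorem endp_mk (s : Bool) (g : P) :
    D.endp s (g : P ⧸ D.E) = ⟨D.κ s, ((g * D.t s : P) : P ⧸ D.A (D.κ s))⟩ := rfl

theorem endp_smul (s : Bool) (k : P) (e : P ⧸ D.E) : D.endp s (k • e) = k • D.endp s e := by
  induction e using QuotientGroup.induction_on with
  | H g =>
    rw [MulAction.Quotient.smul_coe, endp_mk, endp_mk, Sigma.smul_mk, MulAction.Quotient.smul_coe]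
    simp only [smul_eq_mul, mul_assoc]

theorem bs_vx_eq {i i' : ι} {a b : P} :
    (⟨i, (a : P ⧸ D.A i)⟩ : D.Vx) = ⟨i', (b : P ⧸ D.A i')⟩ ↔ i = i' ∧ a⁻¹ * b ∈ D.A i := by
  constructor
  · intro h
    obtain rfl : i = i' := congrArg Sigma.fst h
    exact ⟨rfl, QuotientGroup.eq.1 (eq_of_heq (Sigma.mk.inj h).2)⟩
  · rintro ⟨rfl, h⟩
    rw [QuotientGroup.eq.2 h]

theorem bs_fix {i : ι} {a k : P} :
    k • (⟨i, (a : P ⧸ D.A i)⟩ : D.Vx) = ⟨i, (a : P ⧸ D.A i)⟩ ↔ a⁻¹ * k * a ∈ D.A i := by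
  rw [Sigma.smul_mk, MulAction.Quotient.smul_coe, eq_comm, bs_vx_eq]
  simp [mul_assoc]

/-- The coset graph (barycentric subdivision). -/
def graph : SimpleGraph D.Node :=
  SimpleGraph.fromRel fun a b => ∃ s e, a = Sum.inl (D.endp s e) ∧ b = Sum.inr e

theorem adj_inl_inr {v : D.Vx} {e : P ⧸ D.E} :
    D.graph.Adj (Sum.inl v) (Sum.inr e) ↔ ∃ s, v = D.endp s e := by
  simp [graph, SimpleGraph.fromRel_adj]

theorem not_adj_inl_inl (v w : D.Vx) : ¬ D.graph.Adj (Sum.inl v) (Sum.inl w) := by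
  simp [graph, SimpleGraph.fromRel_adj]

theorem not_adj_inr_inr (e f : P ⧸ D.E) : ¬ D.graph.Adj (Sum.inr e) (Sum.inr f) := by
  simp [graph, SimpleGraph.fromRel_adj]

theorem bs_adj_endp (s : Bool) (e : P ⧸ D.E) : D.graph.Adj (Sum.inl (D.endp s e)) (Sum.inr e) :=
  D.adj_inl_inr.2 ⟨s, rfl⟩

theorem bs_adj {a b : D.Node} (h : D.graph.Adj a b) :
    (∃ s e, a = Sum.inl (D.endp s e) ∧ b = Sum.inr e) ∨
      ∃ s e, a = Sum.inr e ∧ b = Sum.inl (D.endp s e) := by
  rcases ((SimpleGraph.fromRel_adj _ _ _).1 h).2 with h | ⟨s, e, h1, h2⟩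
  · exact Or.inl h
  · exact Or.inr ⟨s, e, h2, h1⟩

theorem bs_piv (β : Bool) (a b : D.Node) (h : D.graph.Adj a b) :
    a.isLeft = β ↔ ¬ b.isLeft = β := by
  rcases D.bs_adj h with ⟨s, e, rfl, rfl⟩ | ⟨s, e, rfl, rfl⟩ <;> cases β <;> simp

theorem adj_smul (k : P) {a b : D.Node} (h : D.graph.Adj a b) : D.graph.Adj (k • a) (k • b) := by
  rcases D.bs_adj h with ⟨s, e, rfl, rfl⟩ | ⟨s, e, rfl, rfl⟩
  · rw [Sum.smul_inl, Sum.smul_inr, ← endp_smul]
    exact D.bs_adj_endp s _
  · rw [Sum.smul_inl, Sum.smul_inr, ← endp_smul]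
    exact (D.bs_adj_endp s _).symm

/-- The action of an element as a graph homomorphism. -/
def bs_hom (k : P) : D.graph →g D.graph := ⟨fun n => k • n, D.adj_smul k⟩

/-- The group is generated by the stabilizers of the two ends and the connecting elements. -/
def Gen : Prop :=
  Function.Surjective D.κ ∧
    Subgroup.closure ({g | ∃ s, (D.t s)⁻¹ * g * D.t s ∈ D.A (D.κ s)} ∪
      {g | ∃ s s', D.κ s = D.κ s' ∧ g = D.t s * (D.t s')⁻¹}) = ⊤

theorem connected (h : D.Gen) : D.graph.Connected := by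
  have key : ∀ g : P,
      D.graph.Reachable (Sum.inr ((1 : P) : P ⧸ D.E)) (Sum.inr (g : P ⧸ D.E)) := by
    intro g
    have hg : g ∈ (⊤ : Subgroup P) := Subgroup.mem_top g
    rw [← h.2] at hg
    have two : ∀ (s s' : Bool) (g : P),
        D.endp s ((1 : P) : P ⧸ D.E) = D.endp s' (g : P ⧸ D.E) →
        D.graph.Reachable (Sum.inr ((1 : P) : P ⧸ D.E)) (Sum.inr (g : P ⧸ D.E)) := by
      intro s s' g e
      exact (D.bs_adj_endp s _).symm.reachable.trans (e ▸ (D.bs_adj_endp s' _).reachable)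
    induction hg using Subgroup.closure_induction with
    | mem g hg =>
      rcases hg with ⟨s, hs⟩ | ⟨s, s', hs, rfl⟩
      · exact two s s g (D.bs_vx_eq.2 ⟨rfl, by simpa [mul_assoc] using hs⟩)
      · exact two s s' _ (D.bs_vx_eq.2 ⟨hs, by simp⟩)
    | one => rfl
    | mul a b _ _ ha hb =>
      refine ha.trans ?_
      have := hb.map (D.bs_hom a)
      simpa [bs_hom, Sum.smul_inr] using this
    | inv a _ ha =>
      have := ha.map (D.bs_hom a⁻¹)
      simpa [bs_hom, Sum.smul_inr] using this.symm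
  have all : ∀ n, D.graph.Reachable (Sum.inr ((1 : P) : P ⧸ D.E)) n := by
    rintro (⟨i, q⟩ | e)
    · obtain ⟨s, rfl⟩ := h.1 i
      induction q using QuotientGroup.induction_on with
      | H g =>
        refine (key (g * (D.t s)⁻¹)).trans (SimpleGraph.Adj.reachable ?_)
        exact (D.adj_inl_inr.2 ⟨s, by simp [endp_mk]⟩).symm
    · induction e using QuotientGroup.induction_on with
      | H g => exact key g
  have : Nonempty D.Node := ⟨Sum.inr ((1 : P) : P ⧸ D.E)⟩
  exact ⟨fun a b => (all a).symm.trans (all b)⟩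

/-- The two ends of the base edge are different. -/
def EndsNe : Prop := D.endp false ((1 : P) : P ⧸ D.E) ≠ D.endp true ((1 : P) : P ⧸ D.E)

/-- Another edge at the terminus of the base edge has a stabilizer that does not commute with
`E`. -/
def TurnNC : Prop :=
  ∀ (g : P) (s : Bool), D.endp s (g : P ⧸ D.E) = D.endp true ((1 : P) : P ⧸ D.E) → g ∉ D.E →
    ∀ e ∈ D.E, ∀ e' ∈ D.E, e ≠ 1 → e' ≠ 1 → ¬ Commute e (g * e' * g⁻¹)

theorem bs_ends (hne : D.EndsNe) {s s' : Bool} {e : P ⧸ D.E} (h : D.endp s e = D.endp s' e) :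
    s = s' := by
  induction e using QuotientGroup.induction_on with
  | H g =>
    have h1 := congrArg (g⁻¹ • ·) h
    simp only [← endp_smul, MulAction.Quotient.smul_coe, smul_eq_mul, inv_mul_cancel] at h1
    cases s <;> cases s'
    · rfl
    · exact absurd h1 hne
    · exact absurd h1.symm hne
    · rfl

/-- Injectivity criterion: a group with the same local structure mapping to a tree. -/
theorem injective_of_isAcyclic {P' : Type} [Group P'] (D' : EData P' ι) (π : P' →* P)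
    (hκ : D'.κ = D.κ) (ht : ∀ s, π (D'.t s) = D.t s) (hA : ∀ i, ∀ g ∈ D'.A i, π g ∈ D.A i)
    (hinj : ∀ i, ∀ g ∈ D'.A i, π g = 1 → g = 1) (hE : ∀ g ∈ D'.E, π g ∈ D.E)
    (hE' : ∀ s g, (D'.t s)⁻¹ * g * D'.t s ∈ D'.A (D'.κ s) → π g ∈ D.E → g ∈ D'.E)
    (hgen : D'.Gen) (hne : D.EndsNe) (hac : D.graph.IsAcyclic) : Function.Injective π := by
  let fv : D'.Vx → D.Vx := fun v => ⟨v.1, Quotient.map' π (fun a b hab => by
    rw [QuotientGroup.leftRel_apply] at hab ⊢
    simpa using hA _ _ hab) v.2⟩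
  let fe : P' ⧸ D'.E → P ⧸ D.E := Quotient.map' π (fun a b hab => by
    rw [QuotientGroup.leftRel_apply] at hab ⊢
    simpa using hE _ hab)
  have hfe : ∀ g : P', fe (g : P' ⧸ D'.E) = (π g : P ⧸ D.E) := fun _ => rfl
  have hend : ∀ s e, fv (D'.endp s e) = D.endp s (fe e) := by
    intro s e
    induction e using QuotientGroup.induction_on with
    | H g =>
      exact (D.bs_vx_eq (i := D'.κ s) (a := π (g * D'.t s))).2 ⟨by rw [hκ], by simp [ht]⟩
  have hf := injective_of_locally_injective (D'.connected hgen).preconnected hac (Sum.map fv fe)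
    (fun a b hab => ?_) (fun a b c hab hac hbc => ?_)
  · refine (injective_iff_map_eq_one π).2 fun g hg => ?_
    have h1 : (Sum.inr (g : P' ⧸ D'.E) : D'.Node) = Sum.inr ((1 : P') : P' ⧸ D'.E) :=
      hf (by simp only [Sum.map_inr, hfe, hg, map_one])
    have h2 : g ∈ D'.E := by simpa [QuotientGroup.eq] using h1
    have h3 := hinj _ _ (D'.le true g h2) (by simp [hg])
    have h4 : g = D'.t true * ((D'.t true)⁻¹ * g * D'.t true) * (D'.t true)⁻¹ := by group
    rw [h4, h3]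
    simp
  · rcases D'.bs_adj hab with ⟨s, e, rfl, rfl⟩ | ⟨s, e, rfl, rfl⟩
    · rw [Sum.map_inl, Sum.map_inr, hend]
      exact D.bs_adj_endp s _
    · rw [Sum.map_inl, Sum.map_inr, hend]
      exact (D.bs_adj_endp s _).symm
  · rcases D'.bs_adj hab with ⟨s, e, rfl, rfl⟩ | ⟨s, e, rfl, rfl⟩
    · rcases D'.bs_adj hac with ⟨s', e', h1, rfl⟩ | ⟨s', e', h1, rfl⟩
      · have h2 : D'.endp s e = D'.endp s' e' := Sum.inl_injective h1
        have h3 : fe e = fe e' := Sum.inr_injective hbc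
        have h4 : s = s' := D.bs_ends hne (e := fe e) (by rw [← hend, h2, hend, h3])
        subst h4
        induction e using QuotientGroup.induction_on with
        | H g =>
          induction e' using QuotientGroup.induction_on with
          | H g' =>
            have h5 := (D'.bs_vx_eq.1 h2).2
            rw [hfe, hfe, QuotientGroup.eq] at h3
            exact congrArg _ (QuotientGroup.eq.2
              (hE' s _ (by simpa [mul_assoc] using h5) (by simpa using h3)))
      · exact absurd h1 Sum.inl_ne_inr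
    · rcases D'.bs_adj hac with ⟨s', e', h1, rfl⟩ | ⟨s', e', h1, rfl⟩
      · exact absurd h1 Sum.inr_ne_inl
      · obtain rfl : e = e' := Sum.inr_injective h1
        have h3 : fv (D'.endp s e) = fv (D'.endp s' e) := Sum.inl_injective hbc
        rw [hend, hend] at h3
        rw [D.bs_ends hne h3]

variable {G : Type} [Group G] (j : P →* G)

/-- Cocycles along `j`. -/
def CocH (c : P → L2 G) : Prop := ∀ a b : P, c (a * b) = c a + j a • c b

/-- Every turn at the terminus of the base edge is detected by an equivariant field on edges. -/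
def FieldsE : Prop :=
  ∀ (g : P) (s : Bool), D.endp s (g : P ⧸ D.E) = D.endp true ((1 : P) : P ⧸ D.E) → g ∉ D.E →
    ∃ (c : P → L2 G) (b : D.Node → L2 G), CocH j c ∧
      Fld D.graph (fun n => n.isLeft = true) b ∧
      (∀ (k : P) (e : P ⧸ D.E), b (Sum.inr (k • e)) = j k • b (Sum.inr e) + c k) ∧
      b (Sum.inr ((1 : P) : P ⧸ D.E)) ≠ b (Sum.inr (g : P ⧸ D.E))

/-- For a trivial edge group: an equivariant function on vertices jumping by a Dirac function
along the base edge. -/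
def Field0 : Prop :=
  ∃ (c : P → L2 G) (b : D.Vx → L2 G), CocH j c ∧
    (∀ (k : P) (v : D.Vx), b (k • v) = j k • b v + c k) ∧
    b (D.endp true ((1 : P) : P ⧸ D.E)) - b (D.endp false ((1 : P) : P ⧸ D.E)) = L2.dirac 1

/-- The two kinds of hypotheses under which the coset graph is a tree. -/
def Hyps : Prop :=
  (D.E = ⊥ ∧ D.Field0 j) ∨ (D.EndsNe ∧ D.TurnNC ∧ D.FieldsE j)

variable {D j}

theorem Hyps.endsNe (h : D.Hyps j) : D.EndsNe := by
  rcases h with ⟨-, c, b, -, -, h⟩ | h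
  · intro e
    rw [e, sub_self] at h
    exact L2.dirac_ne_zero _ h.symm
  · exact h.1

theorem Hyps.turnNC (h : D.Hyps j) : D.TurnNC := by
  rcases h with ⟨h, -⟩ | h
  · intro g s _ _ e he e' _ h1
    rw [h] at he
    exact absurd he h1
  · exact h.2.1

theorem bs_turn {s : Bool} {g g' : P}
    (h : D.endp true (g : P ⧸ D.E) = D.endp s (g' : P ⧸ D.E)) :
    D.endp s ((g⁻¹ * g' : P) : P ⧸ D.E) = D.endp true ((1 : P) : P ⧸ D.E) := by
  have h1 := congrArg (g⁻¹ • ·) h
  simp only [← endp_smul, MulAction.Quotient.smul_coe, smul_eq_mul, inv_mul_cancel] at h1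
  exact h1.symm

/-- Among two consecutive turns one is detected by an equivariant field. -/
theorem Hyps.bs_field (hj : Function.Injective j) (h : D.Hyps j) :
    ∃ β : Bool, ∀ p₀ w₁ p₁ w₂ p₂ : D.Node, w₁.isLeft = β → w₂.isLeft = β → D.graph.Adj w₁ p₀ →
      D.graph.Adj w₁ p₁ → D.graph.Adj w₂ p₁ → D.graph.Adj w₂ p₂ → p₀ ≠ p₁ → p₁ ≠ p₂ → w₁ ≠ w₂ →
      ∃ (c : P → L2 G) (b : D.Node → L2 G), CocH j c ∧ Fld D.graph (fun n => n.isLeft = β) b ∧
        (∀ (k : P) (n : D.Node), ¬ n.isLeft = β → b (k • n) = j k • b n + c k) ∧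
        (b p₀ ≠ b p₁ ∨ b p₁ ≠ b p₂) := by
  rcases h with ⟨hE, c, b, hc, hb, hd⟩ | ⟨-, -, hF⟩
  · have jump : ∀ g : P, b (D.endp true (g : P ⧸ D.E)) - b (D.endp false (g : P ⧸ D.E)) =
        L2.dirac (j g) := fun g => by
      have e : (g : P ⧸ D.E) = g • ((1 : P) : P ⧸ D.E) := by simp
      rw [e, endp_smul, endp_smul, hb, hb, add_sub_add_right_eq_sub, ← smul_sub, hd,
        L2.gsmul_dirac, mul_one]
    have nb : ∀ {w p : D.Node}, w.isLeft = false → D.graph.Adj w p →
        ∃ s e, w = Sum.inr e ∧ p = Sum.inl (D.endp s e) := fun hw h =>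
      (D.bs_adj h).resolve_left (by rintro ⟨s, e, rfl, -⟩; simp at hw)
    refine ⟨false, fun p₀ w₁ p₁ w₂ p₂ a1 _ a3 a4 _ _ a7 _ _ =>
      ⟨c, Sum.elim b fun _ => 0, hc, ⟨Sum.elim (fun _ => ∅) fun e => {γ | ∃ g : P, g = e ∧ j g = γ},
        ?_, ?_⟩, ?_, Or.inl ?_⟩⟩
    · rintro (v | e) (v' | e') hw hw' hne
      · simp at hw
      · simp at hw
      · simp at hw'
      · refine Set.disjoint_left.2 ?_
        rintro _ ⟨g, rfl, rfl⟩ ⟨g', rfl, hg⟩
        exact hne (by rw [hj hg])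
    · intro w p q hw hp hq
      obtain ⟨s, e, rfl, rfl⟩ := nb hw hp
      obtain ⟨s', e', h1, rfl⟩ := nb hw hq
      obtain rfl : e = e' := Sum.inr_injective h1
      induction e using QuotientGroup.induction_on with
      | H g =>
        have h2 : L2.SuppIn {γ | ∃ g' : P, g' = (g : P ⧸ D.E) ∧ j g' = γ} (L2.dirac (j g)) :=
          (L2.suppIn_dirac _).mono (by rintro _ rfl; exact ⟨g, rfl, rfl⟩)
        simp only [Sum.elim_inl, Sum.elim_inr]
        cases s <;> cases s'
        · rw [sub_self]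
          exact L2.SuppIn.zero _
        · rw [← neg_sub, jump]
          exact h2.neg
        · rw [jump]
          exact h2
        · rw [sub_self]
          exact L2.SuppIn.zero _
    · rintro k (v | e) hn
      · exact hb k v
      · simp at hn
    · obtain ⟨s, e, rfl, rfl⟩ := nb a1 a3
      obtain ⟨s', e', h1, rfl⟩ := nb a1 a4
      obtain rfl : e = e' := Sum.inr_injective h1
      induction e using QuotientGroup.induction_on with
      | H g =>
        have h2 : b (D.endp true (g : P ⧸ D.E)) ≠ b (D.endp false (g : P ⧸ D.E)) := by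
          rw [← sub_ne_zero, jump]
          exact L2.dirac_ne_zero _
        cases s <;> cases s'
        · exact absurd rfl a7
        · exact h2.symm
        · exact h2
        · exact absurd rfl a7
  · have nb : ∀ {w p : D.Node}, w.isLeft = true → D.graph.Adj w p →
        ∃ s e, w = Sum.inl (D.endp s e) ∧ p = Sum.inr e := fun hw h =>
      (D.bs_adj h).resolve_right (by rintro ⟨s, e, rfl, -⟩; simp at hw)
    have key : ∀ (s : Bool) (e e' : P ⧸ D.E), D.endp true e = D.endp s e' → e ≠ e' →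
        ∃ (c : P → L2 G) (b : D.Node → L2 G), CocH j c ∧
          Fld D.graph (fun n => n.isLeft = true) b ∧
          (∀ (k : P) (n : D.Node), ¬ n.isLeft = true → b (k • n) = j k • b n + c k) ∧
          b (Sum.inr e) ≠ b (Sum.inr e') := by
      intro s e e' h1 h2
      induction e using QuotientGroup.induction_on with
      | H g =>
        induction e' using QuotientGroup.induction_on with
        | H g' =>
          obtain ⟨c, b, hc, hf, hb, hne⟩ :=
            hF _ s (bs_turn h1) fun hh => h2 (QuotientGroup.eq.2 hh)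
          refine ⟨c, b, hc, hf, ?_, fun hh => hne ?_⟩
          · rintro k (v | e) hn
            · simp at hn
            · exact hb k e
          · have e1 := hb g⁻¹ (g : P ⧸ D.E)
            have e2 := hb g⁻¹ (g' : P ⧸ D.E)
            simp only [MulAction.Quotient.smul_coe, smul_eq_mul, inv_mul_cancel] at e1 e2
            rw [e1, e2, hh]
    refine ⟨true, fun p₀ w₁ p₁ w₂ p₂ a1 a2 a3 a4 a5 a6 a7 a8 a9 => ?_⟩
    obtain ⟨s₀, e₀, h₀, rfl⟩ := nb a1 a3
    obtain ⟨s₁, e₁, rfl, rfl⟩ := nb a1 a4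
    obtain ⟨s₂, e₂, h₂, rfl⟩ := nb a2 a6
    obtain ⟨s', e', rfl, h'⟩ := nb a2 a5
    obtain rfl : e₁ = e' := Sum.inr_injective h'
    cases s₁
    · cases s'
      · exact absurd rfl a9
      · obtain ⟨c, b, h1, h2, h3, h4⟩ :=
          key s₂ e₁ e₂ (Sum.inl_injective h₂) fun hh => a8 (congrArg _ hh)
        exact ⟨c, b, h1, h2, h3, Or.inr h4⟩
    · obtain ⟨c, b, h1, h2, h3, h4⟩ :=
        key s₀ e₁ e₀ (Sum.inl_injective h₀) fun hh => a7 (congrArg _ hh.symm)
      exact ⟨c, b, h1, h2, h3, Or.inl h4.symm⟩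

theorem Hyps.isAcyclic (hj : Function.Injective j) (h : D.Hyps j) : D.graph.IsAcyclic := by
  obtain ⟨β, hβ⟩ := h.bs_field hj
  refine isAcyclic_of_fld (G := G) (D.bs_piv β)
    fun p₀ w₁ p₁ w₂ p₂ a1 a2 a3 a4 a5 a6 a7 a8 a9 => ?_
  obtain ⟨c, b, -, h1, -, h2⟩ := hβ p₀ w₁ p₁ w₂ p₂ a1 a2 a3 a4 a5 a6 a7 a8 a9
  exact ⟨b, h1, h2⟩

theorem bs_fg_map {P' : Type} [Group P'] {K : Subgroup P} (h : K.FG) (f : P →* P') :
    (K.map f).FG := by
  obtain ⟨S, hS, hf⟩ := (Subgroup.fg_iff K).1 h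
  exact (Subgroup.fg_iff _).2 ⟨f '' S, by rw [← MonoidHom.map_closure, hS], hf.image f⟩

theorem bs_tree (hgen : D.Gen) (hac : D.graph.IsAcyclic) :
    ∃ 𝒯 : LTree ℤ D.Node, 𝒯.Iso P ∧ ∀ x y, 𝒯.d x y = (D.graph.dist x y : ℤ) := by
  obtain ⟨𝒯, hd⟩ := exists_ltree_of_isTree ⟨D.connected hgen, hac⟩
  have le : ∀ (k : P) (a b : D.Node), D.graph.dist (k • a) (k • b) ≤ D.graph.dist a b := by
    intro k a b
    obtain ⟨p, hp⟩ := (D.connected hgen).exists_walk_length_eq_dist a b
    rw [← hp, ← p.length_map (D.bs_hom k)]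
    exact SimpleGraph.dist_le (p.map (D.bs_hom k))
  refine ⟨𝒯, fun k a b => ?_, hd⟩
  have h := le k⁻¹ (k • a) (k • b)
  rw [inv_smul_smul, inv_smul_smul] at h
  rw [hd, hd, le_antisymm (le k a b) h]

theorem bs_step {𝒯 : LTree ℤ D.Node} (hd : ∀ x y, 𝒯.d x y = (D.graph.dist x y : ℤ))
    {a b : D.Node} (h : a ≠ b) :
    ∃ m, D.graph.Adj a m ∧ 𝒯.Btw a m b ∧ 𝒯.d m b = 𝒯.d a b - 1 := by
  have h1 : 𝒯.d a b ≠ 0 := fun e => h (𝒯.eq_of_d _ _ e)
  have h2 := 𝒯.d_nonneg a b
  obtain ⟨m, h3, h4⟩ := 𝒯.geo a b 1 zero_le_one (by omega)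
  refine ⟨m, SimpleGraph.dist_eq_one_iff_adj.1 ?_, ?_, h4⟩
  · rw [hd] at h3
    exact_mod_cast h3
  · unfold LTree.Btw
    omega

theorem bs_even (hgen : D.Gen) {𝒯 : LTree ℤ D.Node}
    (hd : ∀ x y, 𝒯.d x y = (D.graph.dist x y : ℤ)) (a b : D.Node) :
    Even (𝒯.d a b) ↔ a.isLeft = b.isLeft := by
  obtain ⟨p, hp⟩ := (D.connected hgen).exists_walk_length_eq_dist a b
  rw [hd, ← hp, Int.even_coe_nat]
  clear hp
  induction p with
  | nil => simp
  | @cons u v w h p ih =>
    have := D.bs_piv w.isLeft _ _ h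
    rw [SimpleGraph.Walk.length_cons, Nat.even_add_one, ih, this]

theorem bs_isLeft (k : P) (n : D.Node) : (k • n).isLeft = n.isLeft := by
  rcases n with v | e <;> rfl

theorem bs_hyp (hgen : D.Gen) {𝒯 : LTree ℤ D.Node} (hI : 𝒯.Iso P)
    (hd : ∀ x y, 𝒯.d x y = (D.graph.dist x y : ℤ)) {z : P} (h : ¬ ∃ n : D.Node, z • n = n) :
    𝒯.Hyp z :=
  have : Nonempty D.Node := ⟨Sum.inr ((1 : P) : P ⧸ D.E)⟩
  hyp_of_no_fix hI (not_exists.1 h) fun p => (bs_even hgen hd _ _).2 (bs_isLeft z p).symm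

theorem bs_line (hgen : D.Gen) {𝒯 : LTree ℤ D.Node} (hI : 𝒯.Iso P)
    (hd : ∀ x y, 𝒯.d x y = (D.graph.dist x y : ℤ)) {g : P} (hg : 𝒯.Hyp g) (β : Bool) :
    ∃ (ω : ℤ → D.Node) (α : ℤ), 0 < α ∧ ¬ (ω 0).isLeft = β ∧
      (∀ i i', 𝒯.d (ω i) (ω i') = |i - i'|) ∧ ∀ i, g • ω i = ω (i + 2 * α) := by
  obtain ⟨p, hp⟩ := hg.2
  obtain ⟨ω, -, h1, h2⟩ := exists_line hI hg hp
  obtain ⟨α, hα⟩ := (bs_even hgen hd p (g • p)).2 (bs_isLeft g p).symm
  have h3 : 𝒯.d p (g • p) ≠ 0 := fun e => hg.1 p (𝒯.eq_of_d _ _ e).symm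
  have h4 := 𝒯.d_nonneg p (g • p)
  rw [hα, ← two_mul] at h2
  by_cases h0 : (ω 0).isLeft = β
  · refine ⟨fun i => ω (i + 1), α, by omega, ?_, fun i i' => by rw [h1]; simp, fun i => ?_⟩
    · refine (D.bs_piv β _ _ (SimpleGraph.dist_eq_one_iff_adj.1 ?_)).1 h0
      have := h1 0 (0 + 1)
      rw [hd] at this
      simpa using this
    · rw [h2, add_right_comm]
  · exact ⟨ω, α, by omega, h0, h1, h2⟩

/-- An element fixing a vertex and no adjacent edge fixes nothing else. -/
theorem eq_of_fix (hgen : D.Gen) (hac : D.graph.IsAcyclic) {u : P} {v : D.Vx} (hv : u • v = v)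
    (he : ∀ s (e : P ⧸ D.E), D.endp s e = v → u • e ≠ e) {n : D.Node} (hn : u • n = n) :
    n = Sum.inl v := by
  obtain ⟨𝒯, hI, hd⟩ := bs_tree hgen hac
  by_contra hne
  obtain ⟨m, h1, h2, -⟩ := bs_step hd (Ne.symm hne)
  have h3 := hI.fix_btw h2 (by rw [Sum.smul_inl, hv]) hn
  rcases D.bs_adj h1 with ⟨s, e, h4, rfl⟩ | ⟨s, e, h4, rfl⟩
  · exact he s e (Sum.inl_injective h4).symm (Sum.inr_injective h3)
  · exact Sum.inl_ne_inr h4

theorem bs_noturn (hT : D.TurnNC) {x : P} (hx1 : x ≠ 1) {s : Bool} {e e' : P ⧸ D.E}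
    (he : x • e = e) (he' : x • e' = e') (h : D.endp true e = D.endp s e') : e = e' := by
  induction e using QuotientGroup.induction_on with
  | H g =>
    induction e' using QuotientGroup.induction_on with
    | H g' =>
      by_contra hne
      have mem : ∀ g : P, x • (g : P ⧸ D.E) = g → g⁻¹ * x * g ∈ D.E ∧ g⁻¹ * x * g ≠ 1 := by
        intro g hg
        rw [MulAction.Quotient.smul_coe, eq_comm, QuotientGroup.eq] at hg
        refine ⟨by simpa [mul_assoc] using hg, fun h => hx1 ?_⟩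
        have h4 : x = g * (g⁻¹ * x * g) * g⁻¹ := by group
        rw [h4, h]
        simp
      refine hT _ s (bs_turn h) (fun hh => hne (QuotientGroup.eq.2 hh)) _ (mem g he).1 _
        (mem g' he').1 (mem g he).2 (mem g' he').2 ?_
      have : g⁻¹ * g' * (g'⁻¹ * x * g') * (g⁻¹ * g')⁻¹ = g⁻¹ * x * g := by group
      rw [this]

/-- All edges fixed by a nontrivial element have the same origin. -/
theorem bs_two (hgen : D.Gen) (hac : D.graph.IsAcyclic) (hne : D.EndsNe) (hT : D.TurnNC) {x : P}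
    (hx1 : x ≠ 1) {e e' : P ⧸ D.E} (he : x • e = e) (he' : x • e' = e') :
    D.endp false e = D.endp false e' := by
  have _ := hne
  obtain ⟨𝒯, hI, hd⟩ := bs_tree hgen hac
  induction hn : D.graph.dist (Sum.inr e) (Sum.inr e') using Nat.strong_induction_on
    generalizing e with
  | _ n ih =>
    by_cases h : e = e'
    · rw [h]
    have f' : x • (Sum.inr e' : D.Node) = Sum.inr e' := by rw [Sum.smul_inr, he']
    obtain ⟨m, h1, h2, h3⟩ := bs_step hd (Sum.inr_injective.ne h)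
    have f1 := hI.fix_btw h2 (by rw [Sum.smul_inr, he]) f'
    rcases D.bs_adj h1 with ⟨s, e₁, h4, -⟩ | ⟨s, e₁, h4, rfl⟩
    · exact absurd h4 Sum.inr_ne_inl
    obtain rfl : e = e₁ := Sum.inr_injective h4
    obtain ⟨m, h5, h6, h7⟩ := bs_step hd (Sum.inl_ne_inr (a := D.endp s e) (b := e'))
    have f2 := hI.fix_btw h6 f1 f'
    rcases D.bs_adj h5 with ⟨s₂, e₂, h8, rfl⟩ | ⟨s₂, e₂, h8, -⟩
    · have h9 : D.endp s e = D.endp s₂ e₂ := Sum.inl_injective h8
      have f3 : x • e₂ = e₂ := Sum.inr_injective f2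
      have hlt : D.graph.dist (Sum.inr e₂) (Sum.inr e') < n := by
        rw [h3, hd, hd, hn] at h7
        omega
      have hne2 : e ≠ e₂ := fun hh => by
        rw [← hh, hn] at hlt
        exact lt_irrefl _ hlt
      rw [← ih _ hlt f3 rfl]
      cases s
      · cases s₂
        · exact h9
        · exact absurd (bs_noturn hT hx1 f3 he h9.symm).symm hne2
      · exact absurd (bs_noturn hT hx1 he f3 h9) hne2
    · exact absurd h8 Sum.inl_ne_inr

/-- The centralizer of a nontrivial elliptic element fixes a vertex. -/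
theorem bs_ell (hgen : D.Gen) (hac : D.graph.IsAcyclic) (hne : D.EndsNe) (hT : D.TurnNC) {z : P}
    (hz : z ≠ 1) {n : D.Node} (hn : z • n = n) : ∃ v : D.Vx, ∀ k, Commute z k → k • v = v := by
  by_cases h : ∃ e : P ⧸ D.E, z • e = e
  · obtain ⟨e, he⟩ := h
    refine ⟨D.endp false e, fun k hk => ?_⟩
    rw [← endp_smul]
    exact (bs_two hgen hac hne hT hz he (by rw [← mul_smul, hk.eq, mul_smul, he])).symm
  · rcases n with v | e
    · refine ⟨v, fun k hk => Sum.inl_injective (β := P ⧸ D.E) ?_⟩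
      refine eq_of_fix hgen hac (Sum.inl_injective hn) (fun _ e _ he => h ⟨e, he⟩)
        (n := k • Sum.inl v) ?_
      rw [← mul_smul, hk.eq, mul_smul, hn]
    · exact absurd ⟨e, Sum.inr_injective hn⟩ h

/-- Elements commuting with a nontrivial element of `E` fix the origin of the base edge. -/
theorem fix_origin_of_commute (hgen : D.Gen) (hac : D.graph.IsAcyclic) (hne : D.EndsNe)
    (hT : D.TurnNC) {x k : P} (hx : x ∈ D.E) (hx1 : x ≠ 1) (hk : Commute x k) :
    k • D.endp false ((1 : P) : P ⧸ D.E) = D.endp false ((1 : P) : P ⧸ D.E) := by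
  have h1 : x • ((1 : P) : P ⧸ D.E) = ((1 : P) : P ⧸ D.E) := by
    rw [MulAction.Quotient.smul_coe, QuotientGroup.eq]
    simpa using hx
  rw [← endp_smul]
  exact (bs_two hgen hac hne hT hx1 h1 (by rw [← mul_smul, hk.eq, mul_smul, h1])).symm

/-- Centralizers are finitely generated. -/
theorem centralizer_fg (hgen : D.Gen) (hac : D.graph.IsAcyclic) (hne : D.EndsNe)
    (hT : D.TurnNC)
    (hA : ∀ i, ∀ x ∈ D.A i, x ≠ 1 → (D.A i ⊓ Subgroup.centralizer {x}).FG)
    (hct : ∀ x y z : P, x ≠ 1 → Commute x y → Commute x z → Commute y z)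
    {z : P} (hz : z ≠ 1) : (Subgroup.centralizer ({z} : Set P)).FG := by
  have _ := hct
  by_cases h : ∃ n : D.Node, z • n = n
  · obtain ⟨n, hn⟩ := h
    obtain ⟨⟨i, q⟩, hv⟩ := bs_ell hgen hac hne hT hz hn
    induction q using QuotientGroup.induction_on with
    | H a =>
      have h1 := fun k hk => D.bs_fix.1 (hv k hk)
      have h2 := hA i _ (h1 z (Commute.refl z)) (fun h => hz (by
        have h4 : z = a * (a⁻¹ * z * a) * a⁻¹ := by group
        rw [h4, h]
        simp))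
      have h3 : Subgroup.centralizer ({z} : Set P) =
          cj a (D.A i ⊓ Subgroup.centralizer {a⁻¹ * z * a}) := by
        ext k
        rw [mem_cj, Subgroup.mem_inf, Subgroup.mem_centralizer_singleton_iff,
          Subgroup.mem_centralizer_singleton_iff]
        constructor
        · intro hk
          refine ⟨h1 k hk.symm, ?_⟩
          calc a⁻¹ * k * a * (a⁻¹ * z * a) = a⁻¹ * (k * z) * a := by group
            _ = a⁻¹ * z * a * (a⁻¹ * k * a) := by rw [hk]; group
        · rintro ⟨-, hk⟩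
          calc k * z = a * (a⁻¹ * k * a * (a⁻¹ * z * a)) * a⁻¹ := by group
            _ = z * k := by rw [hk]; group
      rw [h3]
      exact bs_fg_map h2 _
  · obtain ⟨𝒯, hI, hd⟩ := bs_tree hgen hac
    refine fg_of_free_centralizer hI (bs_hyp hgen hI hd h) fun k hk p hp => ?_
    by_contra hk1
    obtain ⟨v, hv⟩ := bs_ell hgen hac hne hT hk1 hp
    exact h ⟨Sum.inl v, by rw [Sum.smul_inl, hv z hk.symm]⟩

/-- Non-commuting elements either lie in a common vertex stabilizer or carry an unbounded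
cocycle. -/
theorem Hyps.elliptic_or_unbounded (hj : Function.Injective j) (hgen : D.Gen) (h : D.Hyps j)
    (x y : P) :
    (∃ (i : ι) (g : P), g⁻¹ * x * g ∈ D.A i ∧ g⁻¹ * y * g ∈ D.A i) ∨
      ∃ c : P → L2 G, CocH j c ∧
        ∀ C : ℝ, ∃ g ∈ Subgroup.closure ({x, y} : Set P), C < ‖c g‖ := by
  by_cases hc : ∃ r : D.Node, x • r = r ∧ y • r = r
  · left
    have hv : ∃ v : D.Vx, x • v = v ∧ y • v = v := by
      obtain ⟨v | e, h1, h2⟩ := hc
      · exact ⟨v, Sum.inl_injective h1, Sum.inl_injective h2⟩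
      · refine ⟨D.endp false e, ?_, ?_⟩
        · rw [← endp_smul, show x • e = e from Sum.inr_injective h1]
        · rw [← endp_smul, show y • e = e from Sum.inr_injective h2]
    obtain ⟨⟨i, q⟩, h1, h2⟩ := hv
    induction q using QuotientGroup.induction_on with
    | H a => exact ⟨i, a, D.bs_fix.1 h1, D.bs_fix.1 h2⟩
  right
  obtain ⟨𝒯, hI, hd⟩ := bs_tree hgen (h.isAcyclic hj)
  have mx : x ∈ Subgroup.closure ({x, y} : Set P) := Subgroup.subset_closure (by simp)
  have my : y ∈ Subgroup.closure ({x, y} : Set P) := Subgroup.subset_closure (by simp)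
  obtain ⟨g, hg, hyp⟩ : ∃ g ∈ Subgroup.closure ({x, y} : Set P), 𝒯.Hyp g := by
    by_cases hx : ∃ n : D.Node, x • n = n
    · by_cases hy : ∃ n : D.Node, y • n = n
      · obtain ⟨p, hp⟩ := hx
        obtain ⟨q, hq⟩ := hy
        exact ⟨x * y, mul_mem mx my, hyp_mul_of_no_common_fix hI hp hq (not_exists.1 hc)⟩
      · exact ⟨y, my, bs_hyp hgen hI hd hy⟩
    · exact ⟨x, mx, bs_hyp hgen hI hd hx⟩
  obtain ⟨β, hβ⟩ := h.bs_field hj
  obtain ⟨ω, α, hα, h0, hω, hg'⟩ := bs_line hgen hI hd hyp β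
  have hinj : Function.Injective ω := fun a b hab => by
    have := hω a b
    rw [hab, 𝒯.d_self] at this
    exact sub_eq_zero.1 (abs_eq_zero.1 this.symm)
  have hadj : ∀ i, D.graph.Adj (ω i) (ω (i + 1)) := fun i => by
    have := hω i (i + 1)
    rw [hd] at this
    exact SimpleGraph.dist_eq_one_iff_adj.1 (by simpa using this)
  have hev : ∀ i, ¬ (ω (2 * i)).isLeft = β := fun i => by
    rw [← (bs_even hgen hd (ω 0) (ω (2 * i))).1 (by rw [hω]; simp)]
    exact h0
  have hodd : ∀ i, (ω (2 * i + 1)).isLeft = β := fun i => by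
    by_contra hh
    exact hev i ((D.bs_piv β _ _ (hadj _)).2 hh)
  obtain ⟨c, b, hc, hF, hb, hne⟩ := hβ (ω 0) (ω 1) (ω 2) (ω 3) (ω 4) (hodd 0) (hodd 1)
    (hadj 0).symm (hadj 1) (hadj 2).symm (hadj 3) (hinj.ne (by norm_num)) (hinj.ne (by norm_num))
    (hinj.ne (by norm_num))
  refine ⟨c, hc, fun C => ?_⟩
  obtain ⟨i₀, hi₀⟩ : ∃ i₀ : ℤ, b (ω (2 * i₀ + 2)) ≠ b (ω (2 * i₀)) :=
    hne.elim (fun h => ⟨0, h.symm⟩) fun h => ⟨1, h.symm⟩
  obtain ⟨n, hn⟩ := unbounded_of_line (D.bs_piv β) hF ω hinj hadj h0 hα (fun i => by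
    have e1 : ω (2 * i + 2 * α + 2) = g • ω (2 * (i + 1)) := by
      rw [hg']
      exact congrArg ω (by ring)
    have e2 : ω (2 * i + 2) = ω (2 * (i + 1)) := congrArg ω (by ring)
    rw [e1, e2, ← hg', hb _ _ (hev _), hb _ _ (hev _), add_sub_add_right_eq_sub, ← smul_sub,
      L2.norm_gsmul]) hi₀ (C + 2 * ‖b (ω 0)‖)
  refine ⟨g ^ n, pow_mem hg n, ?_⟩
  have e : ∀ n : ℕ, ω (2 * α * n) = g ^ n • ω 0 := by
    intro n
    induction n with
    | zero => simp
    | succ n ih =>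
      rw [pow_succ', mul_smul, ← ih, hg']
      exact congrArg ω (by push_cast; ring)
  rw [e, hb _ _ h0] at hn
  have h1 := norm_sub_le (j (g ^ n) • b (ω 0) + c (g ^ n)) (b (ω 0))
  have h2 := norm_add_le (j (g ^ n) • b (ω 0)) (c (g ^ n))
  rw [L2.norm_gsmul] at h2
  linarith

/-- The conclusion: the image of `j` is in the class `InK`. -/
theorem Hyps.inK_range (hG : Nice G) (hj : Function.Injective j) (hgen : D.Gen) (h : D.Hyps j)
    (hfp : Group.IsFinitelyPresented P) (hA : ∀ i, InK ((D.A i).map j))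
    (hext : ∀ i, ∀ x ∈ D.A i, ∀ y ∈ D.A i, ¬ Commute x y →
      ∃ c : P → L2 G, CocH j c ∧ c x = 0 ∧ c y ≠ 0) : InK j.range := by
  have hcm : ∀ {a b : P}, Commute (j a) (j b) → Commute a b := fun h => hj (by simpa using h.eq)
  have hcen : ∀ (K : Subgroup P) (z : P), (K ⊓ Subgroup.centralizer {z}).map j =
      K.map j ⊓ Subgroup.centralizer {j z} := by
    intro K z
    ext γ
    simp only [Subgroup.mem_map, Subgroup.mem_inf, Subgroup.mem_centralizer_singleton_iff]
    constructor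
    · rintro ⟨k, ⟨h1, h2⟩, rfl⟩
      exact ⟨⟨k, h1, rfl⟩, by rw [← map_mul, h2, map_mul]⟩
    · rintro ⟨⟨k, h1, rfl⟩, h2⟩
      exact ⟨k, ⟨h1, hj (by simpa using h2)⟩, rfl⟩
  have hback : ∀ K : Subgroup P, (K.map j).FG → K.FG := fun K hK => by
    rw [← Group.fg_iff_subgroup_fg] at hK ⊢
    exact Group.fg_of_surjective (f := (K.equivMapOfInjective j hj).symm.toMonoidHom)
      (K.equivMapOfInjective j hj).symm.surjective
  have hext' : ∀ c : P → L2 G, CocH j c →
      ∃ c' : G → L2 G, IsCoc j.range c' ∧ ∀ k, c' (j k) = c k := fun c hc => by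
    have hl := Function.leftInverse_invFun hj
    refine ⟨fun γ => c (Function.invFun j γ), ?_, fun k => congrArg c (hl k)⟩
    rintro _ ⟨a, rfl⟩ _ ⟨b, rfl⟩
    simp only [← map_mul, hl _]
    exact hc a b
  refine ⟨Group.IsFinitelyPresented.equiv (MonoidHom.ofInjective hj), ?_, ?_⟩
  · rintro _ ⟨z, rfl⟩ hz
    have h1 := centralizer_fg hgen (h.isAcyclic hj) h.endsNe h.turnNC
      (fun i x hx hx1 => hback _ (by
        rw [hcen]
        exact (hA i).cfg _ ⟨x, hx, rfl⟩ fun e => hx1 (hj (by simpa using e))))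
      (fun x y z hx h1 h2 => hcm (hG.ct (j x) _ _ (fun e => hx (hj (by simpa using e)))
        (h1.map j) (h2.map j))) (z := z) (fun e => hz (by simp [e]))
    have h2 := hcen ⊤ z
    rw [top_inf_eq, ← MonoidHom.range_eq_map] at h2
    rw [← h2]
    exact bs_fg_map h1 j
  · rintro _ ⟨x, rfl⟩ _ ⟨y, rfl⟩ hxy
    rcases h.elliptic_or_unbounded hj hgen x y with ⟨i, g, hx, hy⟩ | ⟨c, hc, hu⟩
    · obtain ⟨c, hc, h1, h2⟩ := hext i _ hx _ hy fun hh => hxy (by
        have := (hh.map (MulAut.conj g)).map j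
        simpa [mul_assoc] using this)
      obtain ⟨c', h3, h4⟩ := hext' (fun k => j g • c (g⁻¹ * k * g)) fun a b => by
        have e : g⁻¹ * (a * b) * g = g⁻¹ * a * g * (g⁻¹ * b * g) := by group
        simp only [e]
        rw [hc, smul_add, ← mul_smul, ← mul_smul, ← map_mul, ← map_mul]
        congr 3
        group
      refine ⟨c', h3, by rw [h4, h1, smul_zero], ?_⟩
      rw [h4]
      exact fun e => h2 ((smul_eq_zero_iff_eq _).1 e)
    · obtain ⟨c', h3, h4⟩ := hext' c hc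
      have hfg : j.range.FG := by
        obtain ⟨n, φ, hφ, -⟩ := hfp.out
        have : Group.FG P := Group.fg_of_surjective hφ
        rw [MonoidHom.range_eq_map]
        exact bs_fg_map (Group.fg_def.1 this) j
      refine sep_of_unbounded hG hfg ⟨x, rfl⟩ ⟨y, rfl⟩ hxy h3 fun C => ?_
      obtain ⟨g, hg, hC⟩ := hu C
      refine ⟨j g, ?_, by rwa [h4]⟩
      have := Subgroup.mem_map_of_mem j hg
      rwa [MonoidHom.map_closure, Set.image_pair] at this

end EData

end Pool.Agent.Lib.MP_d87150_al
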