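import Pool.Agent.Lib.MP_d87150_al.Coc

/-!
# Connections in `G × X` and the cocycle spaces they define
-/

set_option autoImplicit false

noncomputable section

namespace Pool.Agent.Lib.MP_d87150_al

/-- An edge between two points of `G × X`, with the functional giving its value. -/
abbrev Edge (G A X : Type) : Type := (G × X) × (G × X) × Fn G A

variable {G A X : Type} [Group G]

/-- Translation on `G × X`. -/
def tr (g : G) (p : G × X) : G × X := (g * p.1, p.2)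

@[simp] theorem tr_mk (g h : G) (x : X) : tr g (h, x) = (g * h, x) := rfl

theorem tr_one (p : G × X) : tr (1 : G) p = p := by simp [tr]

theorem tr_mul (g h : G) (p : G × X) : tr (g * h) p = tr g (tr h p) := by simp [tr, mul_assoc]

/-- Paths in the `G`-cover of an edge set, with the sum of the values of their edges. -/
inductive Conn (𝔈 : Set (Edge G A X)) : G × X → G × X → Fn G A → Prop
  | refl (p : G × X) : Conn 𝔈 p p 0
  | step (g : G) {p q : G × X} {e : Fn G A} : (p, q, e) ∈ 𝔈 → Conn 𝔈 (tr g p) (tr g q) (g • e)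
  | symm {p q : G × X} {e : Fn G A} : Conn 𝔈 p q e → Conn 𝔈 q p (-e)
  | trans {p q r : G × X} {e f : Fn G A} : Conn 𝔈 p q e → Conn 𝔈 q r f → Conn 𝔈 p r (e + f)

namespace Conn

variable {𝔈 : Set (Edge G A X)}

theorem of_mem {p q : G × X} {e : Fn G A} (h : (p, q, e) ∈ 𝔈) : Conn 𝔈 p q e := by
  have := Conn.step (𝔈 := 𝔈) 1 h
  rwa [tr_one, tr_one, one_smul] at this

theorem translate {p q : G × X} {e : Fn G A} (h : Conn 𝔈 p q e) (g : G) :
    Conn 𝔈 (tr g p) (tr g q) (g • e) := by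
  induction h with
  | refl p => rw [smul_zero]; exact Conn.refl _
  | step g' h => rw [← tr_mul, ← tr_mul, ← mul_smul]; exact Conn.step _ h
  | symm _ ih => rw [smul_neg]; exact ih.symm
  | trans _ _ ih1 ih2 => rw [smul_add]; exact ih1.trans ih2

theorem mono {𝔈' : Set (Edge G A X)} (hs : 𝔈 ⊆ 𝔈') {p q : G × X} {e : Fn G A}
    (h : Conn 𝔈 p q e) : Conn 𝔈' p q e := by
  induction h with
  | refl p => exact Conn.refl _
  | step g' h => exact Conn.step _ (hs h)
  | symm _ ih => exact ih.symm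
  | trans _ _ ih1 ih2 => exact ih1.trans ih2

theorem eqvF (hE : ∀ p q e, (p, q, e) ∈ 𝔈 → EqvF e) {p q : G × X} {e : Fn G A}
    (h : Conn 𝔈 p q e) : EqvF e := by
  induction h with
  | refl p => exact EqvF.zero
  | step g' h => exact (hE _ _ _ h).gsmul _
  | symm _ ih => exact ih.neg
  | trans _ _ ih1 ih2 => exact ih1.add ih2

/-- Induction along a path from a fixed starting point. -/
theorem induction_tail {p : G × X} {P : G × X → Fn G A → Prop} (h0 : P p 0)
    (hf : ∀ q e g a b f, Conn 𝔈 p q e → P q e → (a, b, f) ∈ 𝔈 → q = tr g a →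
      P (tr g b) (e + g • f))
    (hb : ∀ q e g a b f, Conn 𝔈 p q e → P q e → (a, b, f) ∈ 𝔈 → q = tr g b →
      P (tr g a) (e - g • f))
    {q : G × X} {e : Fn G A} (h : Conn 𝔈 p q e) : P q e := by
  have key : ∀ q r f, Conn 𝔈 q r f → (∀ e, Conn 𝔈 p q e → P q e → P r (e + f)) ∧
      (∀ e, Conn 𝔈 p r e → P r e → P q (e - f)) := by
    intro q r f h
    induction h with
    | refl q => exact ⟨fun e _ h => by rwa [add_zero], fun e _ h => by rwa [sub_zero]⟩
    | step g h =>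
      exact ⟨fun e h1 h2 => hf _ e g _ _ _ h1 h2 h rfl, fun e h1 h2 => hb _ e g _ _ _ h1 h2 h rfl⟩
    | symm _ ih =>
      exact ⟨fun e h1 h2 => by rw [← sub_eq_add_neg]; exact ih.2 e h1 h2,
        fun e h1 h2 => by rw [sub_neg_eq_add]; exact ih.1 e h1 h2⟩
    | trans c1 c2 ih1 ih2 =>
      refine ⟨fun e h1 h2 => ?_, fun e h1 h2 => ?_⟩
      · rw [← add_assoc]
        exact ih2.1 _ (h1.trans c1) (ih1.1 e h1 h2)
      · rw [add_comm, ← sub_sub]
        refine ih1.2 _ ?_ (ih2.2 e h1 h2)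
        rw [sub_eq_add_neg]
        exact h1.trans c2.symm
  have := (key p q e h).1 0 (Conn.refl p) h0
  rwa [zero_add] at this

/-- Transport of paths when every edge is realized by a path. -/
theorem pull {A' X' : Type} {𝔈' : Set (Edge G A' X')} (μ : X → X') (Ψ : H G A' →L[ℝ] H G A)
    (h : ∀ p q e, (p, q, e) ∈ 𝔈 → Conn 𝔈' (p.1, μ p.2) (q.1, μ q.2) (e.comp Ψ))
    {p q : G × X} {e : Fn G A} (hc : Conn 𝔈 p q e) :
    Conn 𝔈' (p.1, μ p.2) (q.1, μ q.2) (e.comp Ψ) := by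
  induction hc with
  | refl p => rw [ContinuousLinearMap.zero_comp]; exact Conn.refl _
  | step g' h' => exact (h _ _ _ h').translate g'
  | symm _ ih => rw [ContinuousLinearMap.neg_comp]; exact ih.symm
  | trans _ _ ih1 ih2 => rw [ContinuousLinearMap.add_comp]; exact ih1.trans ih2

theorem pull' {X' : Type} {𝔈' : Set (Edge G A X')} (μ : X → X')
    (h : ∀ p q e, (p, q, e) ∈ 𝔈 → Conn 𝔈' (p.1, μ p.2) (q.1, μ q.2) e)
    {p q : G × X} {e : Fn G A} (hc : Conn 𝔈 p q e) :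
    Conn 𝔈' (p.1, μ p.2) (q.1, μ q.2) e := by
  induction hc with
  | refl p => exact Conn.refl _
  | step g' h' => exact (h _ _ _ h').translate g'
  | symm _ ih => exact ih.symm
  | trans _ _ ih1 ih2 => exact ih1.trans ih2

theorem push {B : Type} {𝔉 : Set (Edge G B X)} (Ψ : H G A →L[ℝ] H G B)
    (h : ∀ p q e, (p, q, e) ∈ 𝔈 → ∃ f, Conn 𝔉 p q f ∧ e = f.comp Ψ)
    {p q : G × X} {e : Fn G A} (hc : Conn 𝔈 p q e) : ∃ f, Conn 𝔉 p q f ∧ e = f.comp Ψ := by
  induction hc with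
  | refl p => exact ⟨0, Conn.refl _, (ContinuousLinearMap.zero_comp _).symm⟩
  | step g' h' =>
    obtain ⟨f, hf, rfl⟩ := h _ _ _ h'
    exact ⟨g' • f, hf.translate g', rfl⟩
  | symm _ ih =>
    obtain ⟨f, hf, rfl⟩ := ih
    exact ⟨-f, hf.symm, (ContinuousLinearMap.neg_comp _ _).symm⟩
  | trans _ _ ih1 ih2 =>
    obtain ⟨f, hf, rfl⟩ := ih1
    obtain ⟨f', hf', rfl⟩ := ih2
    exact ⟨f + f', hf.trans hf', (ContinuousLinearMap.add_comp _ _ _).symm⟩

/-- A point whose object is not an end of an edge is isolated. -/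
theorem of_no_edge {x : X} (hx : ∀ p q e, (p, q, e) ∈ 𝔈 → p.2 ≠ x ∧ q.2 ≠ x) {g : G}
    {q : G × X} {e : Fn G A} (h : Conn 𝔈 (g, x) q e) : q = (g, x) ∧ e = 0 := by
  refine induction_tail (P := fun q e => q = (g, x) ∧ e = 0) ⟨rfl, rfl⟩ ?_ ?_ h
  · intro q e g' a b f _ h1 h2 h3
    exact absurd (congrArg Prod.snd (h3.symm.trans h1.1)) (hx _ _ _ h2).1
  · intro q e g' a b f _ h1 h2 h3
    exact absurd (congrArg Prod.snd (h3.symm.trans h1.1)) (hx _ _ _ h2).2

end Conn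

/-- Tuples killing all closed paths. -/
def Zm (𝔈 : Set (Edge G A X)) : Submodule ℝ (H G A) where
  carrier := {c | ∀ p e, Conn 𝔈 p p e → e c = 0}
  add_mem' := fun {a b} ha hb p e h => by rw [map_add, ha p e h, hb p e h, add_zero]
  zero_mem' := fun _ e _ => map_zero e
  smul_mem' := fun r a ha p e h => by rw [map_smul, ha p e h, smul_zero]

theorem mem_Zm {𝔈 : Set (Edge G A X)} {c : H G A} :
    c ∈ Zm 𝔈 ↔ ∀ p e, Conn 𝔈 p p e → e c = 0 := Iff.rfl

/-- Labels of closed paths at `x`. -/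
def Im (𝔈 : Set (Edge G A X)) (x : X) : Subgroup G where
  carrier := {g | ∃ e, Conn 𝔈 (1, x) (g, x) e}
  one_mem' := ⟨0, Conn.refl _⟩
  mul_mem' := by
    rintro a b ⟨e, he⟩ ⟨f, hf⟩
    have := hf.translate a
    simp only [tr_mk, mul_one] at this
    exact ⟨_, he.trans this⟩
  inv_mem' := by
    rintro a ⟨e, he⟩
    have := he.translate a⁻¹
    simp only [tr_mk, mul_one, inv_mul_cancel] at this
    exact ⟨_, this.symm⟩

theorem mem_Im {𝔈 : Set (Edge G A X)} {x : X} {g : G} :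
    g ∈ Im 𝔈 x ↔ ∃ e, Conn 𝔈 (1, x) (g, x) e := Iff.rfl

section
variable {𝔈 : Set (Edge G A X)}

/-- Being connected by a path. -/
def connSetoid (𝔈 : Set (Edge G A X)) : Setoid (G × X) where
  r := fun p q => ∃ e, Conn 𝔈 p q e
  iseqv := ⟨fun p => ⟨0, Conn.refl p⟩, fun ⟨_, h⟩ => ⟨_, h.symm⟩,
    fun ⟨_, h⟩ ⟨_, h'⟩ => ⟨_, h.trans h'⟩⟩

theorem mem_cj_Im {p : G × X} {k : G} :
    k ∈ cj p.1 (Im 𝔈 p.2) ↔ ∃ e, Conn 𝔈 p (tr k p) e := by
  obtain ⟨g, x⟩ := p
  rw [mem_cj, mem_Im]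
  constructor
  · rintro ⟨e, he⟩
    have := he.translate g
    rw [tr_mk, tr_mk, mul_one, mul_assoc, mul_inv_cancel_left] at this
    exact ⟨_, this⟩
  · rintro ⟨e, he⟩
    have := he.translate g⁻¹
    rw [tr_mk, tr_mk, tr_mk, inv_mul_cancel, ← mul_assoc] at this
    exact ⟨_, this⟩

theorem commute_of_conn (hcomm : ∀ x, ∀ a ∈ Im 𝔈 x, ∀ b ∈ Im 𝔈 x, Commute a b) {p : G × X}
    {u v : G} {e f : Fn G A} (hu : Conn 𝔈 p (tr u p) e) (hv : Conn 𝔈 p (tr v p) f) :
    Commute u v := by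
  have h := hcomm p.2 _ (mem_cj.1 (mem_cj_Im.2 ⟨e, hu⟩)) _ (mem_cj.1 (mem_cj_Im.2 ⟨f, hv⟩))
  have h1 : u * v = p.1 * (p.1⁻¹ * u * p.1 * (p.1⁻¹ * v * p.1)) * p.1⁻¹ := by group
  have h2 : v * u = p.1 * (p.1⁻¹ * v * p.1 * (p.1⁻¹ * u * p.1)) * p.1⁻¹ := by group
  change u * v = v * u
  rw [h1, h2, h.eq]

theorem exists_primitive_int {V : Type} [AddCommGroup V] (φ : ℤ → V) :
    ∃ S : ℤ → V, ∀ n, S (n + 1) - S n = φ n := by
  refine ⟨fun n => ∑ i ∈ Finset.range n.toNat, φ i -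
    ∑ i ∈ Finset.range (-n).toNat, φ (-(i + 1 : ℕ)), fun n => ?_⟩
  rcases n with n | n
  · have h1 : (Int.ofNat n + 1).toNat = n + 1 := rfl
    have h2 : (-(Int.ofNat n + 1)).toNat = 0 := by simp
    have h3 : (-(Int.ofNat n)).toNat = 0 := by simp
    have h4 : (Int.ofNat n).toNat = n := rfl
    simp only [h1, h2, h3, h4, Finset.sum_range_succ, Finset.range_zero, Finset.sum_empty]
    simp
  · have h1 : (Int.negSucc n + 1).toNat = 0 := by omega
    have h2 : (-(Int.negSucc n + 1)).toNat = n := by omega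
    have h3 : (-(Int.negSucc n)).toNat = n + 1 := by omega
    have h4 : (Int.negSucc n).toNat = 0 := rfl
    simp only [h1, h2, h3, h4, Finset.sum_range_succ, Finset.range_zero, Finset.sum_empty]
    rw [Int.negSucc_eq]
    push_cast
    abel

/-- Solving a difference equation along the free orbits of an element of infinite order. -/
theorem exists_primitive {V : Type} [AddCommGroup V] {g₀ : G} (h : ¬ IsOfFinOrder g₀)
    (ψ : G → V) : ∃ κ : G → V, ∀ g, κ (g * g₀) - κ g = ψ g := by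
  have hinj : Function.Injective fun n : ℤ => g₀ ^ n := injective_zpow_iff_not_isOfFinOrder.2 h
  let r : G → G := fun g => (QuotientGroup.mk g : G ⧸ Subgroup.zpowers g₀).out
  have h1 : ∀ g, ∃ n : ℤ, r g * g₀ ^ n = g := by
    intro g
    have : (r g)⁻¹ * g ∈ Subgroup.zpowers g₀ := QuotientGroup.eq.1 (Quotient.out_eq _)
    obtain ⟨n, hn⟩ := Subgroup.mem_zpowers_iff.1 this
    exact ⟨n, by rw [hn, mul_inv_cancel_left]⟩
  choose n hn using h1
  have h2 : ∀ g, r (g * g₀) = r g := fun g =>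
    congrArg Quotient.out (QuotientGroup.mk_mul_of_mem g (Subgroup.mem_zpowers g₀))
  have h3 : ∀ g, n (g * g₀) = n g + 1 := by
    intro g
    apply hinj
    have := hn (g * g₀)
    rw [h2] at this
    refine mul_left_cancel (a := r g) ?_
    simp only []
    rw [this, zpow_add_one, ← mul_assoc, hn]
  choose S hS using fun a : G => exists_primitive_int fun m => ψ (a * g₀ ^ m)
  refine ⟨fun g => S (r g) (n g), fun g => ?_⟩
  simp only []
  rw [h2, h3, hS, hn]

theorem inv_Zm (hE : ∀ p q e, (p, q, e) ∈ 𝔈 → EqvF e) : Inv (Zm 𝔈) := by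
  constructor
  · have : (Zm 𝔈 : Set (H G A)) = ⋂ (p) (e) (_ : Conn 𝔈 p p e), {c | e c = 0} := by
      ext c
      simp only [Set.mem_iInter, Set.mem_setOf_eq]
      rfl
    rw [this]
    exact isClosed_iInter fun p => isClosed_iInter fun e => isClosed_iInter fun _ =>
      isClosed_eq e.continuous continuous_const
  · intro g c hc p e h
    rw [h.eqvF hE g c, hc p e h, map_zero]

theorem Zm_anti {𝔈' : Set (Edge G A X)} (hs : 𝔈 ⊆ 𝔈') : Zm 𝔈' ≤ Zm 𝔈 := by
  exact fun c hc p e h => hc p e (h.mono hs)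

theorem Im_mono {𝔈' : Set (Edge G A X)} (hs : 𝔈 ⊆ 𝔈') (x : X) : Im 𝔈 x ≤ Im 𝔈' x := by
  rintro g ⟨e, he⟩
  exact ⟨e, he.mono hs⟩

theorem val_eq {c : H G A} (hc : c ∈ Zm 𝔈) {p q : G × X} {e e' : Fn G A} (h : Conn 𝔈 p q e)
    (h' : Conn 𝔈 p q e') : e c = e' c := by
  have := hc _ _ (h.trans h'.symm)
  rwa [ContinuousLinearMap.add_apply, ContinuousLinearMap.neg_apply, add_neg_eq_zero] at this

theorem mem_Zm_of_potential {c : H G A} (b : G × X → L2 G)
    (hb : ∀ g p q e, (p, q, e) ∈ 𝔈 → g • e c = b (tr g q) - b (tr g p)) : c ∈ Zm 𝔈 := by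
  have key : ∀ p q e, Conn 𝔈 p q e → e c = b q - b p := by
    intro p q e h
    induction h with
    | refl p => rw [sub_self]; rfl
    | step g h => exact hb g _ _ _ h
    | symm _ ih => rw [ContinuousLinearMap.neg_apply, ih, neg_sub]
    | trans _ _ ih1 ih2 => rw [ContinuousLinearMap.add_apply, ih1, ih2]; abel
  intro p e h
  rw [key p p e h, sub_self]

theorem exists_potential {c : H G A} (hc : c ∈ Zm 𝔈) :
    ∃ b : G × X → L2 G, ∀ p q e, Conn 𝔈 p q e → e c = b q - b p := by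
  have h1 : ∀ p : G × X, ∃ e, Conn 𝔈 (Quotient.mk (connSetoid 𝔈) p).out p e := fun p =>
    Quotient.exact (Quotient.out_eq (Quotient.mk (connSetoid 𝔈) p))
  choose f hf using h1
  refine ⟨fun p => f p c, fun p q e h => ?_⟩
  have h2 : Quotient.mk (connSetoid 𝔈) p = Quotient.mk (connSetoid 𝔈) q := Quotient.sound ⟨e, h⟩
  have h3 := (hf p).trans h
  rw [h2] at h3
  change e c = f q c - f p c
  rw [← val_eq hc h3 (hf q), ContinuousLinearMap.add_apply, add_sub_cancel_left]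

/-- With trivial stabilizers there is an equivariant potential. -/
theorem exists_equivariant_potential (hIm : ∀ x, Im 𝔈 x = ⊥) {c : H G A} (hc : c ∈ Zm 𝔈) :
    ∃ β : X → L2 G, ∀ g x g' x' e, Conn 𝔈 (g, x) (g', x') e → e c = g' • β x' - g • β x := by
  let S : Setoid X :=
    { r := fun x x' => ∃ g e, Conn 𝔈 (1, x) (g, x') e
      iseqv := by
        refine ⟨fun x => ⟨1, 0, Conn.refl _⟩, ?_, ?_⟩
        · rintro x x' ⟨g, e, h⟩
          have := (h.translate g⁻¹).symm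
          rw [tr_mk, tr_mk, inv_mul_cancel] at this
          exact ⟨_, _, this⟩
        · rintro x x' x'' ⟨g, e, h⟩ ⟨g', e', h'⟩
          have := h'.translate g
          rw [tr_mk, tr_mk, mul_one] at this
          exact ⟨_, _, h.trans this⟩ }
  have h1 : ∀ x : X, ∃ g e, Conn 𝔈 (1, x) (g, (Quotient.mk S x).out) e := fun x =>
    Quotient.exact (Quotient.out_eq (Quotient.mk S x)).symm
  choose k f hf using h1
  refine ⟨fun x => -f x c, fun g x g' x' e h => ?_⟩
  have h2 : Quotient.mk S x = Quotient.mk S x' := by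
    have := h.translate g⁻¹
    rw [tr_mk, tr_mk, inv_mul_cancel] at this
    exact Quotient.sound ⟨_, _, this⟩
  have h3 := (hf x).translate g
  have h4 := (hf x').translate g'
  rw [tr_mk, tr_mk, mul_one] at h3 h4
  rw [← h2] at h4
  have h5 := (h3.symm.trans (h.trans h4)).translate (g * k x)⁻¹
  rw [tr_mk, tr_mk, inv_mul_cancel] at h5
  have h6 : (g * k x)⁻¹ * (g' * k x') ∈ Im 𝔈 (Quotient.mk S x).out := ⟨_, h5⟩
  rw [hIm, Subgroup.mem_bot, inv_mul_eq_one] at h6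
  rw [← h6] at h4
  have h7 := val_eq hc (h.trans h4) h3
  change e c + g' • f x' c = g • f x c at h7
  rw [smul_neg, smul_neg, ← h7]
  abel

theorem cj_Im_eq {g g' : G} {x x' : X} {e : Fn G A} (h : Conn 𝔈 (g, x) (g', x') e) :
    cj g (Im 𝔈 x) = cj g' (Im 𝔈 x') := by
  ext k
  rw [mem_cj_Im (p := (g, x)), mem_cj_Im (p := (g', x'))]
  exact ⟨fun ⟨_, hf⟩ => ⟨_, h.symm.trans (hf.trans (h.translate k))⟩,
    fun ⟨_, hf⟩ => ⟨_, h.trans (hf.trans (h.translate k).symm)⟩⟩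

theorem exists_isCoc {c : H G A} (hc : c ∈ Zm 𝔈) (x : X) :
    ∃ cK : G → L2 G, IsCoc (Im 𝔈 x) cK ∧ ∀ g e, Conn 𝔈 (1, x) (g, x) e → cK g = e c := by
  classical
  have key : ∀ g e, Conn 𝔈 (1, x) (g, x) e →
      (if h : ∃ e, Conn 𝔈 (1, x) (g, x) e then h.choose c else 0) = e c := by
    intro g e h
    rw [dif_pos ⟨e, h⟩]
    exact val_eq hc (Exists.choose_spec (⟨e, h⟩ : ∃ e, Conn 𝔈 (1, x) (g, x) e)) h
  refine ⟨fun g => if h : ∃ e, Conn 𝔈 (1, x) (g, x) e then h.choose c else 0, ?_, key⟩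
  rintro a ⟨e, he⟩ b ⟨f, hf⟩
  have := hf.translate a
  rw [tr_mk, tr_mk, mul_one] at this
  simp only []
  rw [key _ _ he, key _ _ hf, key _ _ (he.trans this)]
  rfl

/-- Adding an edge parallel to a path. -/
theorem mem_Zm_insert_of_conn {p₀ q₀ : G × X} {e₀ e : Fn G A} (h : Conn 𝔈 p₀ q₀ e) {c : H G A}
    (hc : c ∈ Zm 𝔈) (he : e c = e₀ c) : c ∈ Zm (insert (p₀, q₀, e₀) 𝔈) := by
  obtain ⟨b, hb⟩ := exists_potential hc
  refine mem_Zm_of_potential b ?_
  rintro g p q f (h1 | h1)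
  · obtain ⟨rfl, rfl, rfl⟩ : p = p₀ ∧ q = q₀ ∧ f = e₀ := by
      simpa only [Prod.mk.injEq] using h1
    rw [← he]
    exact hb _ _ _ (h.translate g)
  · exact hb _ _ _ (Conn.step g h1)

/-- Adding an edge between two points with nontrivial commuting stabilizers. -/
theorem mem_Zm_insert_of_comm (hG : Nice G) {p₀ q₀ : G × X} {e₀ ep eq : Fn G A} {u v : G}
    (hcomm : ∀ x, ∀ a ∈ Im (insert (p₀, q₀, e₀) 𝔈) x, ∀ b ∈ Im (insert (p₀, q₀, e₀) 𝔈) x,
      Commute a b)
    (hp : Conn 𝔈 p₀ (tr u p₀) ep) (hq : Conn 𝔈 q₀ (tr v q₀) eq) (hu : u ≠ 1) (hv : v ≠ 1)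
    {c : H G A} (hc : c ∈ Zm 𝔈)
    (he : v • ep c - ep c = u • (eq c + e₀ c - v • e₀ c) - (eq c + e₀ c - v • e₀ c)) :
    c ∈ Zm (insert (p₀, q₀, e₀) 𝔈) := by
  set 𝔈' : Set (Edge G A X) := insert (p₀, q₀, e₀) 𝔈 with h𝔈'
  have hsub : 𝔈 ⊆ 𝔈' := Set.subset_insert _ _
  have hnew : ∀ g, Conn 𝔈' (tr g p₀) (tr g q₀) (g • e₀) := fun g =>
    Conn.step g (Set.mem_insert _ _)
  have hnew1 : Conn 𝔈' p₀ q₀ e₀ := Conn.of_mem (Set.mem_insert _ _)
  have hu' : Conn 𝔈' p₀ (tr u p₀) ep := hp.mono hsub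
  have hv' : Conn 𝔈' p₀ (tr v p₀) _ := hnew1.trans ((hq.mono hsub).trans (hnew v).symm)
  have huv : Commute u v := commute_of_conn hcomm hu' hv'
  have sw : ∀ {a b : G}, Commute a b → ∀ ξ : L2 G, a • b • ξ = b • a • ξ := fun h ξ => by
    rw [← mul_smul, ← mul_smul, h.eq]
  have swt : ∀ {a b : G}, Commute a b → ∀ r : G × X, tr a (tr b r) = tr b (tr a r) := fun h r => by
    rw [← tr_mul, ← tr_mul, h.eq]
  let R : G × X → L2 G → Prop := fun r ξ =>
    (∃ f, Conn 𝔈 r (tr u r) f ∧ ξ = f c) ∨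
      (∃ f, Conn 𝔈 r (tr v r) f ∧ v • ξ - ξ = u • f c - f c)
  have mixed : ∀ r f f', Conn 𝔈 r (tr u r) f → Conn 𝔈 r (tr v r) f' →
      v • f c - f c = u • f' c - f' c := by
    intro r f f' h1 h2
    have h3 := h1.trans (h2.translate u)
    have h4 := h2.trans (h1.translate v)
    rw [swt huv] at h3
    have h5 := val_eq hc h3 h4
    change f c + u • f' c = f' c + v • f c at h5
    rw [sub_eq_sub_iff_add_eq_add, add_comm (v • f c), ← h5, add_comm]
  have uniq : ∀ r ξ ξ', R r ξ → R r ξ' → ξ = ξ' := by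
    rintro r ξ ξ' (⟨f, h1, rfl⟩ | ⟨f, h1, h2⟩) (⟨f', h3, rfl⟩ | ⟨f', h3, h4⟩)
    · exact val_eq hc h1 h3
    · exact L2.eq_of_gsmul_sub_eq (hG.tf v hv) ((mixed r f f' h1 h3).trans h4.symm)
    · exact L2.eq_of_gsmul_sub_eq (hG.tf v hv) (h2.trans (mixed r f' f h3 h1).symm)
    · refine L2.eq_of_gsmul_sub_eq (hG.tf v hv) ?_
      rw [h2, h4, val_eq hc h1 h3]
  have old : ∀ r r' f ξ, Conn 𝔈 r r' f → R r ξ → R r' (ξ + (u • f c - f c)) := by
    rintro r r' f ξ h (⟨f', h1, rfl⟩ | ⟨f', h1, h2⟩)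
    · refine Or.inl ⟨_, h.symm.trans (h1.trans (h.translate u)), ?_⟩
      change _ = -f c + (f' c + u • f c)
      abel
    · refine Or.inr ⟨_, h.symm.trans (h1.trans (h.translate v)), ?_⟩
      change _ = u • (-f c + (f' c + v • f c)) - (-f c + (f' c + v • f c))
      simp only [smul_add, smul_sub, smul_neg]
      rw [sw huv, eq_add_of_sub_eq h2]
      abel
  have newp : ∀ g e, Conn 𝔈' p₀ (tr g p₀) e → R (tr g p₀) (g • ep c) := by
    intro g e h
    have h1 := hp.translate g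
    rw [swt (commute_of_conn hcomm h hu')] at h1
    exact Or.inl ⟨_, h1, rfl⟩
  have newq : ∀ g e, Conn 𝔈' p₀ (tr g p₀) e →
      R (tr g q₀) (g • ep c + (u • g • e₀ c - g • e₀ c)) := by
    intro g e h
    have h1 := hq.translate g
    have hgu := commute_of_conn hcomm h hu'
    have hgv := commute_of_conn hcomm h hv'
    rw [swt hgv] at h1
    refine Or.inr ⟨_, h1, ?_⟩
    change _ = u • g • eq c - g • eq c
    have h2 := congrArg (fun t : L2 G => g • t) he
    simp only [smul_add, smul_sub] at h2 ⊢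
    simp only [sw hgu, sw hgv] at h2
    rw [← sw huv, eq_add_of_sub_eq h2]
    abel
  have main : ∀ r e, Conn 𝔈' p₀ r e → R r (ep c + (u • e c - e c)) := by
    intro r e h
    refine Conn.induction_tail (P := fun r e => R r (ep c + (u • e c - e c))) ?_ ?_ ?_ h
    · refine Or.inl ⟨ep, hp, ?_⟩
      simp
    · rintro q e g a b f h1 h2 (h3 | h3) rfl
      · obtain ⟨rfl, rfl, rfl⟩ : a = p₀ ∧ b = q₀ ∧ f = e₀ := by
          simpa only [Prod.mk.injEq] using h3
        have h4 := newq g e h1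
        rw [← uniq _ _ _ h2 (newp g e h1)] at h4
        have h5 : ep c + (u • (e + g • f) c - (e + g • f) c) =
            ep c + (u • e c - e c) + (u • g • f c - g • f c) := by
          change ep c + (u • (e c + g • f c) - (e c + g • f c)) = _
          rw [smul_add]; abel
        rw [h5]; exact h4
      · have h4 := old _ _ _ _ (Conn.step g h3) h2
        have h5 : ep c + (u • (e + g • f) c - (e + g • f) c) =
            ep c + (u • e c - e c) + (u • (g • f) c - (g • f) c) := by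
          change ep c + (u • (e c + (g • f) c) - (e c + (g • f) c)) = _
          rw [smul_add]; abel
        rw [h5]; exact h4
    · rintro q e g a b f h1 h2 (h3 | h3) rfl
      · obtain ⟨rfl, rfl, rfl⟩ : a = p₀ ∧ b = q₀ ∧ f = e₀ := by
          simpa only [Prod.mk.injEq] using h3
        have h1' := h1.trans (hnew g).symm
        have h4 := uniq _ _ _ h2 (newq g _ h1')
        have h5 : ep c + (u • (e - g • f) c - (e - g • f) c) = g • ep c := by
          change ep c + (u • (e c - g • f c) - (e c - g • f c)) = _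
          rw [smul_sub, ← sub_eq_of_eq_add h4]; abel
        rw [h5]; exact newp g _ h1'
      · have h4 := old _ _ _ _ (Conn.step g h3).symm h2
        have h5 : ep c + (u • (e - g • f) c - (e - g • f) c) =
            ep c + (u • e c - e c) + (u • (-(g • f)) c - (-(g • f)) c) := by
          change ep c + (u • (e c - (g • f) c) - (e c - (g • f) c)) =
            ep c + (u • e c - e c) + (u • (-(g • f) c) - (-(g • f) c))
          rw [smul_sub, smul_neg]; abel
        rw [h5]; exact h4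
  have base : ∀ e, Conn 𝔈' p₀ p₀ e → e c = 0 := by
    intro e h
    have h1 := uniq _ _ _ (main _ _ h) (Or.inl ⟨ep, hp, rfl⟩)
    rw [add_eq_left, sub_eq_zero] at h1
    exact L2.eq_zero_of_gsmul_eq (hG.tf u hu) h1
  intro p e h
  by_cases hcase : ∃ g f, Conn 𝔈' p (tr g p₀) f
  · obtain ⟨g, f, hf⟩ := hcase
    have h1 := (hf.symm.trans (h.trans hf)).translate g⁻¹
    rw [← tr_mul, inv_mul_cancel, tr_one] at h1
    have h2 := base _ h1
    change g⁻¹ • (-f c + (e c + f c)) = 0 at h2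
    rw [smul_eq_zero_iff_eq] at h2
    rw [← h2]; abel
  · refine hc p e ?_
    refine Conn.induction_tail (P := fun r e => Conn 𝔈 p r e) (Conn.refl p) ?_ ?_ h
    · rintro q e g a b f h1 h2 (h3 | h3) rfl
      · obtain ⟨rfl, rfl, rfl⟩ : a = p₀ ∧ b = q₀ ∧ f = e₀ := by
          simpa only [Prod.mk.injEq] using h3
        exact absurd ⟨g, e, h1⟩ hcase
      · exact h2.trans (Conn.step g h3)
    · rintro q e g a b f h1 h2 (h3 | h3) rfl
      · obtain ⟨rfl, rfl, rfl⟩ : a = p₀ ∧ b = q₀ ∧ f = e₀ := by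
          simpa only [Prod.mk.injEq] using h3
        exact absurd ⟨g, _, h1.trans (hnew g).symm⟩ hcase
      · rw [sub_eq_add_neg]
        exact h2.trans (Conn.step g h3).symm

/-- The three cases when an edge is added and all stabilizers stay commutative. -/
theorem insert_cases (hG : Nice G) {p₀ q₀ : G × X} {e₀ : Fn G A}
    (hcomm : ∀ x, ∀ a ∈ Im (insert (p₀, q₀, e₀) 𝔈) x, ∀ b ∈ Im (insert (p₀, q₀, e₀) 𝔈) x,
      Commute a b) :
    (∃ e, Conn 𝔈 p₀ q₀ e) ∨
      (∃ u v ep eq, u ≠ 1 ∧ v ≠ 1 ∧ Commute u v ∧ Conn 𝔈 p₀ (tr u p₀) ep ∧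
        Conn 𝔈 q₀ (tr v q₀) eq) ∨
      Zm 𝔈 ≤ Zm (insert (p₀, q₀, e₀) 𝔈) := by
  classical
  by_cases h1 : ∃ e, Conn 𝔈 p₀ q₀ e
  · exact Or.inl h1
  refine Or.inr ?_
  have hsub : 𝔈 ⊆ insert (p₀, q₀, e₀) 𝔈 := Set.subset_insert _ _
  have hnew : ∀ g, Conn (insert (p₀, q₀, e₀) 𝔈) (tr g p₀) (tr g q₀) (g • e₀) := fun g =>
    Conn.step g (Set.mem_insert _ _)
  have hnew1 : Conn (insert (p₀, q₀, e₀) 𝔈) p₀ q₀ e₀ := Conn.of_mem (Set.mem_insert _ _)
  by_cases h2 : (∃ u ep, u ≠ 1 ∧ Conn 𝔈 p₀ (tr u p₀) ep) ∧ ∃ v eq, v ≠ 1 ∧ Conn 𝔈 q₀ (tr v q₀) eq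
  · obtain ⟨⟨u, ep, hu, hp⟩, v, eq, hv, hq⟩ := h2
    exact Or.inl ⟨u, v, ep, eq, hu, hv, commute_of_conn hcomm (hp.mono hsub)
      (hnew1.trans ((hq.mono hsub).trans (hnew v).symm)), hp, hq⟩
  refine Or.inr fun c hc => ?_
  obtain ⟨b, hb⟩ := exists_potential hc
  let cl : G × X → Quotient (connSetoid 𝔈) := Quotient.mk _
  have hcl : ∀ p q, cl p = cl q ↔ ∃ e, Conn 𝔈 p q e := fun p q => Quotient.eq
  have hinj : ∀ r : G × X, ¬ (∃ u e, u ≠ 1 ∧ Conn 𝔈 r (tr u r) e) →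
      Function.Injective fun g => cl (tr g r) := by
    intro r hr g g' h
    obtain ⟨e, he⟩ := (hcl _ _).1 h
    have := he.translate g⁻¹
    rw [← tr_mul, ← tr_mul, inv_mul_cancel, tr_one] at this
    by_contra hne
    exact hr ⟨_, _, fun h0 => hne (inv_mul_eq_one.1 h0), this⟩
  have key : ∀ ψ : G → L2 G, ∃ κ : Quotient (connSetoid 𝔈) → L2 G,
      ∀ g, κ (cl (tr g q₀)) - κ (cl (tr g p₀)) = ψ g := by
    intro ψ
    by_cases h3 : ∃ g₀ e, Conn 𝔈 q₀ (tr g₀ p₀) e
    · obtain ⟨g₀, e, he⟩ := h3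
      have hg₀ : g₀ ≠ 1 := by
        rintro rfl
        rw [tr_one] at he
        exact h1 ⟨_, he.symm⟩
      have hp : ¬ ∃ u ep, u ≠ 1 ∧ Conn 𝔈 p₀ (tr u p₀) ep := by
        rintro ⟨u, ep, hu, hp⟩
        have h4 := (he.translate (g₀ * u * g₀⁻¹)).symm
        rw [← tr_mul, inv_mul_cancel_right, tr_mul] at h4
        refine h2 ⟨⟨u, ep, hu, hp⟩, g₀ * u * g₀⁻¹, _, ?_,
          he.trans ((hp.translate g₀).trans h4)⟩
        intro h0
        apply hu
        have : u = g₀⁻¹ * (g₀ * u * g₀⁻¹) * g₀ := by group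
        rw [this, h0]; group
      obtain ⟨κ, hκ⟩ := exists_primitive (hG.tf g₀ hg₀) ψ
      refine ⟨Function.extend (fun g => cl (tr g p₀)) κ 0, fun g => ?_⟩
      have h4 : cl (tr g q₀) = cl (tr (g * g₀) p₀) := by
        rw [hcl, tr_mul]
        exact ⟨_, he.translate g⟩
      rw [h4, (hinj p₀ hp).extend_apply, (hinj p₀ hp).extend_apply, hκ]
    · have hdis : ∀ g g', cl (tr g q₀) ≠ cl (tr g' p₀) := by
        intro g g' h
        obtain ⟨e, he⟩ := (hcl _ _).1 h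
        have := he.translate g⁻¹
        rw [← tr_mul, ← tr_mul, inv_mul_cancel, tr_one] at this
        exact h3 ⟨_, _, this⟩
      rcases not_and_or.1 h2 with hp | hq
      · refine ⟨Function.extend (fun g => cl (tr g p₀)) (fun g => -ψ g) 0, fun g => ?_⟩
        rw [(hinj p₀ hp).extend_apply, Function.extend_apply' _ _ _
          (fun ⟨g', h⟩ => hdis g g' h.symm)]
        simp
      · refine ⟨Function.extend (fun g => cl (tr g q₀)) ψ 0, fun g => ?_⟩
        rw [(hinj q₀ hq).extend_apply, Function.extend_apply' _ _ _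
          (fun ⟨g', h⟩ => hdis g' g h)]
        simp
  obtain ⟨κ, hκ⟩ := key fun g => g • e₀ c - (b (tr g q₀) - b (tr g p₀))
  refine mem_Zm_of_potential (fun p => b p + κ (cl p)) ?_
  rintro g p q f (h3 | h3)
  · obtain ⟨rfl, rfl, rfl⟩ : p = p₀ ∧ q = q₀ ∧ f = e₀ := by
      simpa only [Prod.mk.injEq] using h3
    rw [sub_eq_iff_eq_add.1 (hκ g).symm]
    abel
  · have h4 := Conn.step g h3
    have h5 : g • f c = b (tr g q) - b (tr g p) := hb _ _ _ h4
    rw [h5, (hcl _ _).2 ⟨_, h4⟩]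
    abel

/-- With commutative stabilizers finitely many closed paths suffice. -/
theorem exists_finite_loops (hG : Nice G) (hfin : 𝔈.Finite)
    (hcomm : ∀ x, ∀ a ∈ Im 𝔈 x, ∀ b ∈ Im 𝔈 x, Commute a b) :
    ∃ L : Set ((G × X) × Fn G A), L.Finite ∧ (∀ l ∈ L, Conn 𝔈 l.1 l.1 l.2) ∧
      ∀ c : H G A, (∀ l ∈ L, l.2 c = 0) → c ∈ Zm 𝔈 := by
  induction 𝔈, hfin using Set.Finite.induction_on with
  | empty =>
    exact ⟨∅, Set.finite_empty, fun _ h => h.elim, fun c _ =>
      mem_Zm_of_potential (fun _ => 0) fun _ _ _ _ h => h.elim⟩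
  | @insert a 𝔈 _ _ ih =>
    obtain ⟨p₀, q₀, e₀⟩ := a
    have hsub : 𝔈 ⊆ insert (p₀, q₀, e₀) 𝔈 := Set.subset_insert _ _
    have hnew : ∀ g, Conn (insert (p₀, q₀, e₀) 𝔈) (tr g p₀) (tr g q₀) (g • e₀) := fun g =>
      Conn.step g (Set.mem_insert _ _)
    have hnew1 : Conn (insert (p₀, q₀, e₀) 𝔈) p₀ q₀ e₀ := Conn.of_mem (Set.mem_insert _ _)
    obtain ⟨L, hL, h1, h2⟩ := ih fun x a ha b hb =>
      hcomm x a (Im_mono hsub x ha) b (Im_mono hsub x hb)
    rcases insert_cases hG hcomm with ⟨e, he⟩ | ⟨u, v, ep, eq, hu, hv, huv, hp, hq⟩ | h3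
    · refine ⟨insert (p₀, e + -e₀) L, hL.insert _, ?_, fun c hc => ?_⟩
      · rintro l (rfl | hl)
        · exact (he.mono hsub).trans hnew1.symm
        · exact (h1 l hl).mono hsub
      · refine mem_Zm_insert_of_conn he (h2 c fun l hl => hc l (Or.inr hl)) ?_
        have : e c + -e₀ c = 0 := hc _ (Or.inl rfl)
        exact add_neg_eq_zero.1 this
    · have hu' := hp.mono hsub
      have hv' := hnew1.trans ((hq.mono hsub).trans (hnew v).symm)
      have h4 := hu'.trans (hv'.translate u)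
      have h5 := hv'.trans (hu'.translate v)
      rw [← tr_mul, huv.eq, tr_mul] at h4
      refine ⟨insert (p₀, (ep + u • (e₀ + (eq + -(v • e₀)))) +
        -((e₀ + (eq + -(v • e₀))) + v • ep)) L, hL.insert _, ?_, fun c hc => ?_⟩
      · rintro l (rfl | hl)
        · exact h4.trans h5.symm
        · exact (h1 l hl).mono hsub
      · refine mem_Zm_insert_of_comm hG hcomm hp hq hu hv (h2 c fun l hl => hc l (Or.inr hl)) ?_
        have h6 : (ep c + u • (e₀ c + (eq c + -(v • e₀ c)))) +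
            -((e₀ c + (eq c + -(v • e₀ c))) + v • ep c) = 0 := hc _ (Or.inl rfl)
        have h7 : eq c + e₀ c - v • e₀ c = e₀ c + (eq c + -(v • e₀ c)) := by abel
        rw [h7, ← sub_eq_zero, ← neg_eq_zero, ← h6]
        abel
    · exact ⟨L, hL, fun l hl => (h1 l hl).mono hsub, fun c hc => h3 (h2 c hc)⟩

end

end Pool.Agent.Lib.MP_d87150_al
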