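import Pool.Agent.Lib.MP_d87150_al.Step

/-!
# A leaf segment of a quadratic part that returns to the gap where it started
-/

set_option autoImplicit false

noncomputable section

namespace Pool.Agent.Lib.MP_d87150_al

open Set

namespace Skel

variable {V : Type} [AddCommGroup V] {π : V →+ ℝ} {L O : Type} (A : Skel π L O)

/-- A leaf segment crossing the band of `ω n` at the parameter `τ n` from the end `ω n` to the
other end, `n = 0, ..., r + 1`; it avoids `E`, the gaps (between the levels `Lv`) that it crosses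
are different except for the first and the last. -/
structure Curve (Q : Set L) (Lv : L → Set ℝ) (E : Set ℝ) (r : ℕ) (ω : ℕ → L × Bool)
    (τ : ℕ → ℝ) : Prop where
  mem : ∀ n, (ω n).1 ∈ Q
  rng : ∀ n, τ n ∈ Ioo (A.a (ω n).1) (A.b (ω n).1)
  gen : ∀ n s, A.rpos ((ω n).1, s) (τ n) ∉ E
  next : ∀ n, A.rpos (ω (n + 1)) (τ (n + 1)) = A.rpos (bar (ω n)) (τ n)
  turn : ∀ n, ω (n + 1) ≠ bar (ω n)
  close : (ω (r + 1)).1 = (ω 0).1
  gap : ∀ f ∈ Lv (ω 0).1, f < τ (r + 1) ↔ f < τ 0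
  ne : τ (r + 1) ≠ τ 0
  simple : ∀ n n', n < n' → n' ≤ r + 1 → (ω n').1 = (ω n).1 →
    (∀ f ∈ Lv (ω n).1, f < τ n' ↔ f < τ n) → n = 0 ∧ n' = r + 1

variable {A}

theorem curve_abs_rmap_sub (ν : L × Bool) (z p : ℝ) : |A.rmap ν z - A.rmap ν p| = |z - p| := by
  unfold rmap
  rcases Int.units_eq_one_or (A.vsg ν) with h | h <;> rw [h]
  · simp
  · simp only [Units.neg_smul, one_smul]
    rw [← abs_neg]
    congr 1
    ring

/-- A minimal quadratic part has no finite invariant set of generic points. -/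
theorem Quad.curve_no_finite_orbit [Finite L] {Q : Set L} {i : O} {x y : ℝ} (hq : A.Quad Q i x y)
    {Z : Set ℝ} (hZ : Z.Finite) (hne : Z.Nonempty) (hsub : Z ⊆ Ioo x y)
    (hgen : ∀ p ∈ Z, ∀ ν, p ≠ A.lo ν ∧ p ≠ A.hi ν)
    (hinv : ∀ ν : L × Bool, ν.1 ∈ Q → ∀ p ∈ Z, p ∈ A.base ν → A.rmap ν p ∈ Z) : False := by
  obtain ⟨p₀, hp₀, hmax⟩ := Set.exists_max_image Z id hZ hne
  simp only [id] at hmax
  have hev : ∀ c : ℝ, 0 < c → ∀ᶠ ε in nhdsWithin (0 : ℝ) (Ioi 0), ε < c := fun c hc =>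
    Filter.mem_of_superset (Ioo_mem_nhdsGT hc) fun ε hε => hε.2
  have h1 : ∀ᶠ ε in nhdsWithin (0 : ℝ) (Ioi 0),
      ∀ p ∈ Z, ∀ ν, ε < |p - A.lo ν| ∧ ε < |p - A.hi ν| := by
    rw [Filter.eventually_all_finite hZ]
    intro p hp
    rw [Filter.eventually_all]
    intro ν
    exact (hev _ (abs_pos.2 (sub_ne_zero.2 (hgen p hp ν).1))).and
      (hev _ (abs_pos.2 (sub_ne_zero.2 (hgen p hp ν).2)))
  have h2 := hev (y - p₀) (sub_pos.2 (hsub hp₀).2)
  have h3 : ∀ᶠ ε in nhdsWithin (0 : ℝ) (Ioi 0), 0 < ε := self_mem_nhdsWithin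
  obtain ⟨ε, hε1, hε2, hε3⟩ := (h1.and (h2.and h3)).exists
  set U : Set ℝ := ⋃ p ∈ Z, Ioo (p - ε) (p + ε) with hU
  have hmem : ∀ z, z ∈ U ↔ ∃ p ∈ Z, |z - p| < ε := by
    intro z
    simp only [hU, mem_iUnion, mem_Ioo, exists_prop, abs_lt]
    constructor
    · rintro ⟨p, hp, h, h'⟩
      exact ⟨p, hp, by linarith, by linarith⟩
    · rintro ⟨p, hp, h, h'⟩
      exact ⟨p, hp, by linarith, by linarith⟩
  have hopen : IsOpen U := isOpen_biUnion fun p _ => isOpen_Ioo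
  have hcl : closure U ⊆ ⋃ p ∈ Z, Icc (p - ε) (p + ε) :=
    closure_minimal (iUnion₂_mono fun p _ => Ioo_subset_Icc_self)
      (hZ.isClosed_biUnion fun p _ => isClosed_Icc)
  have hfr : (frontier U).Finite := by
    refine ((hZ.image fun p => p - ε).union (hZ.image fun p => p + ε)).subset ?_
    intro z hz
    rw [hopen.frontier_eq] at hz
    obtain ⟨p, hp, hzp⟩ := mem_iUnion₂.1 (hcl hz.1)
    by_contra hcon
    refine hz.2 (mem_iUnion₂.2 ⟨p, hp, lt_of_le_of_ne hzp.1 ?_, lt_of_le_of_ne hzp.2 ?_⟩)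
    · exact fun h => hcon (Or.inl ⟨p, hp, h⟩)
    · exact fun h => hcon (Or.inr ⟨p, hp, h.symm⟩)
  have hfin := hq.min U ∅ hfr finite_empty ?_ ?_
  · refine (Ioo_infinite (show p₀ + ε < y by linarith)) (hfin.subset ?_)
    intro z hz
    refine ⟨⟨by linarith [(hsub hp₀).1, hz.1], hz.2⟩, fun hzU => ?_⟩
    obtain ⟨p, hp, hzp⟩ := (hmem z).1 hzU
    have := hmax p hp
    have := (abs_lt.1 hzp).2
    linarith [hz.1]
  · intro ν hν z hz _ hzU
    obtain ⟨p, hp, hzp⟩ := (hmem z).1 hzU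
    have hpb : p ∈ A.base ν := by
      obtain ⟨ha, hb⟩ := hε1 p hp ν
      obtain ⟨hc, hd⟩ := abs_lt.1 hzp
      have hz1 : A.lo ν < z := hz.1
      have hz2 : z < A.hi ν := hz.2
      constructor
      · by_contra hcon
        rw [abs_of_nonpos (by linarith [not_lt.1 hcon])] at ha
        linarith
      · by_contra hcon
        rw [abs_of_nonneg (by linarith [not_lt.1 hcon])] at hb
        linarith
    exact (hmem _).2 ⟨_, hinv ν hν p hp hpb, by rwa [curve_abs_rmap_sub]⟩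
  · refine (Ioo_infinite (show p₀ < p₀ + ε by linarith)).mono ?_
    intro z hz
    refine ⟨(hmem z).2 ⟨p₀, hp₀, ?_⟩, by linarith [(hsub hp₀).1, hz.1], by linarith [hz.2]⟩
    rw [abs_lt]
    constructor <;> linarith [hz.1, hz.2]

/-- An infinite generic leaf. -/
theorem Quad.curve_exists_leaf [Finite L] {Q : Set L} {i : O} {x y : ℝ} (hq : A.Quad Q i x y)
    {E : Set ℝ} (hE : E.Finite) :
    ∃ (ω : ℕ → L × Bool) (z : ℕ → ℝ), (∀ n, (ω n).1 ∈ Q) ∧ (∀ n, z n ∈ A.base (ω n)) ∧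
      (∀ n, z n ∉ E) ∧ (∀ n, z (n + 1) = A.rmap (ω n) (z n)) ∧ ∀ n, ω (n + 1) ≠ bar (ω n) := by
  obtain ⟨Ec, hEc, hcov⟩ := hq.cov
  set Bad : Set ℝ := ⋃ w : List (L × Bool), (fun e => w.foldr A.rmap e) '' (E ∪ Ec) with hBad
  have hcount : Bad.Countable := countable_iUnion fun w => ((hE.union hEc).image _).countable
  have hsubB : E ∪ Ec ⊆ Bad := fun e he => mem_iUnion.2 ⟨[], e, he, rfl⟩
  have hcl : ∀ ν z, z ∉ Bad → A.rmap ν z ∉ Bad := by
    intro ν z hz hz'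
    obtain ⟨w, e, he, hw⟩ := mem_iUnion.1 hz'
    refine hz (mem_iUnion.2 ⟨bar ν :: w, e, he, ?_⟩)
    simp only [List.foldr_cons] at hw ⊢
    rw [hw, rmap_bar_rmap]
  obtain ⟨z₀, hz₀, hz₀B⟩ : ∃ z₀ ∈ Ioo x y, z₀ ∉ Bad := by
    by_contra hcon
    push Not at hcon
    have h1 : (Ioo x y).Countable := hcount.mono hcon
    have h2 := h1.measure_zero MeasureTheory.volume
    rw [Real.volume_Ioo, ENNReal.ofReal_eq_zero] at h2
    linarith [hq.lt]
  let S := {p : (L × Bool) × ℝ // p.1.1 ∈ Q ∧ p.2 ∈ A.base p.1 ∧ p.2 ∉ Bad}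
  have hstep : ∀ p : S, ∃ p' : S, p'.1.2 = A.rmap p.1.1 p.1.2 ∧ p'.1.1 ≠ bar p.1.1 := by
    rintro ⟨⟨ν, z⟩, hν, hz, hzB⟩
    have hb : A.rmap ν z ∈ A.base (bar ν) := A.rmap_mem_base.2 hz
    have hB := hcl ν z hzB
    obtain ⟨ω₁, ω₂, hne, h1, h2, h3, h4⟩ :=
      hcov _ (hq.sub (bar ν) hν hb) fun h => hB (hsubB (Or.inr h))
    by_cases h : ω₁ = bar ν
    · exact ⟨⟨(ω₂, A.rmap ν z), h2, h4, hB⟩, rfl, fun h' => hne (h.trans h'.symm)⟩
    · exact ⟨⟨(ω₁, A.rmap ν z), h1, h3, hB⟩, rfl, h⟩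
  choose nx hnx using hstep
  obtain ⟨ω₀, -, -, h0, -, h0', -⟩ := hcov z₀ hz₀ fun h => hz₀B (hsubB (Or.inr h))
  let p₀ : S := ⟨(ω₀, z₀), h0, h0', hz₀B⟩
  refine ⟨fun n => (nx^[n] p₀).1.1, fun n => (nx^[n] p₀).1.2, fun n => (nx^[n] p₀).2.1,
    fun n => (nx^[n] p₀).2.2.1, fun n h => (nx^[n] p₀).2.2.2 (hsubB (Or.inl h)), fun n => ?_,
    fun n => ?_⟩
  · simp only [Function.iterate_succ_apply']
    exact (hnx _).1
  · simp only [Function.iterate_succ_apply']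
    exact (hnx _).2

theorem Quad.exists_curve [Finite L] {Q : Set L} {i : O} {x y : ℝ} (hq : A.Quad Q i x y)
    (Lv : L → Set ℝ) (hLv : ∀ k, (Lv k).Finite) {E : Set ℝ} (hE : E.Finite) :
    ∃ r ω τ, A.Curve Q Lv E r ω τ := by
  classical
  obtain ⟨ω, z, hmem, hbase, hgen, hnext, hturn⟩ :=
    hq.curve_exists_leaf ((hE.union (finite_range A.lo)).union (finite_range A.hi))
  choose τ hτ using fun n => A.rpos_surjective (ω n) (z n)
  have hnext' : ∀ n, z (n + 1) = A.rpos (bar (ω n)) (τ n) := fun n => by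
    rw [hnext, ← hτ n, rmap_rpos]
  have hbase' : ∀ n, z (n + 1) ∈ A.base (bar (ω n)) := fun n => by
    rw [hnext]
    exact A.rmap_mem_base.2 (hbase n)
  have hends : ∀ (ν ν' : L × Bool), ν'.1 = ν.1 → ν' = ν ∨ ν' = bar ν := by
    rintro ⟨k, s⟩ ⟨k', s'⟩ h
    obtain rfl : k' = k := h
    cases s <;> cases s' <;> simp [bar]
  -- the leaf does not turn back on itself
  have hback : ∀ d n, ω (n + d + 1) = bar (ω n) → τ (n + d + 1) = τ n → False := by
    intro d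
    induction d using Nat.strong_induction_on with
    | _ d ih =>
      intro n h1 h2
      rcases d with _ | d
      · exact hturn n h1
      have hz : z (n + (d + 1) + 1) = z (n + 1) := by rw [← hτ, h1, h2, hnext']
      have h3 : bar (ω (n + (d + 1))) = ω (n + 1) := by
        rcases hq.two (ω (n + (d + 1) + 1)) (bar (ω (n + (d + 1)))) (ω (n + 1)) (hmem _) (hmem _)
          (hmem _) _ (hbase _) (hbase' _) (hz ▸ hbase _) with h | h | h
        · exact absurd h (hturn _)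
        · exact absurd (h.symm.trans h1) (hturn _)
        · exact h
      have h4 : τ (n + (d + 1)) = τ (n + 1) := by
        apply A.rpos_injective (ω (n + 1))
        rw [hτ, ← hz, hnext', h3]
      rcases d with _ | d
      · exact bar_ne _ h3
      · have e : n + (d + 1 + 1) = n + 1 + d + 1 := by omega
        rw [e] at h3 h4
        exact ih d (by omega) (n + 1) (by rw [← h3, bar_bar]) h4
  -- the leaf is not closed
  have hclosed : ∀ n j, n < j → ω j = ω n → τ j = τ n → False := by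
    intro n j hnj h1 h2
    have hz : z j = z n := by rw [← hτ, ← hτ, h1, h2]
    refine hq.curve_no_finite_orbit (Z := z '' Ioc n j) ((finite_Ioc n j).image _)
      ⟨_, j, ⟨hnj, le_rfl⟩, rfl⟩ ?_ ?_ ?_
    · rintro _ ⟨m, -, rfl⟩
      exact hq.sub _ (hmem m) (hbase m)
    · rintro _ ⟨m, -, rfl⟩ ν
      exact ⟨fun h => hgen m (Or.inl (Or.inr ⟨ν, h.symm⟩)), fun h => hgen m (Or.inr ⟨ν, h.symm⟩)⟩
    · rintro ν hν _ ⟨m, ⟨hm1, hm2⟩, rfl⟩ hb
      obtain ⟨m, rfl⟩ : ∃ m', m = m' + 1 := ⟨m - 1, by omega⟩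
      rcases hq.two (ω (m + 1)) (bar (ω m)) ν (hmem _) (hmem _) hν _ (hbase _) (hbase' _) hb
        with h | h | h
      · exact absurd h (hturn _)
      · subst h
        rcases lt_or_eq_of_le hm2 with h' | h'
        · exact ⟨m + 1 + 1, ⟨by omega, h'⟩, hnext _⟩
        · refine ⟨n + 1, ⟨by omega, by omega⟩, ?_⟩
          rw [hnext, h', h1, hz]
      · subst h
        rw [hnext, rmap_bar_rmap]
        rcases lt_or_eq_of_le (Nat.le_of_lt_succ hm1) with h' | h'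
        · exact ⟨m, ⟨h', by omega⟩, rfl⟩
        · exact ⟨j, ⟨hnj, le_rfl⟩, by rw [hz, h']⟩
  -- two crossings of the same gap
  let Same : ℕ → ℕ → Prop := fun n j =>
    (ω j).1 = (ω n).1 ∧ ∀ f ∈ Lv (ω n).1, f < τ j ↔ f < τ n
  have hex : ∃ j, ∃ n, n < j ∧ Same n j := by
    have hfin : (univ ×ˢ {s : Set ℝ | s ⊆ ⋃ k, Lv k} : Set (L × Set ℝ)).Finite :=
      finite_univ.prod (finite_iUnion hLv).finite_subsets
    have hm : ∀ n : ℕ, ((ω n).1, {f ∈ Lv (ω n).1 | f < τ n}) ∈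
        (univ ×ˢ {s : Set ℝ | s ⊆ ⋃ k, Lv k} : Set (L × Set ℝ)) :=
      fun n => ⟨mem_univ _, fun f hf => mem_iUnion.2 ⟨_, hf.1⟩⟩
    obtain ⟨n, j, hnj, he⟩ := hfin.exists_lt_map_eq_of_forall_mem hm
    obtain ⟨he1, he2⟩ := Prod.ext_iff.1 he
    simp only at he1 he2
    refine ⟨j, n, hnj, he1.symm, fun f hf => ?_⟩
    have := Set.ext_iff.1 he2 f
    simp only [mem_ofPred_eq, ← he1, hf, true_and] at this
    exact this.symm
  obtain ⟨n₀, hn₀, hs₀⟩ := Nat.find_spec hex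
  have hmin : ∀ n j, n < j → j < Nat.find hex → ¬ Same n j := fun n j h1 h2 h3 =>
    Nat.find_min hex h2 ⟨n, h1, h3⟩
  obtain ⟨r, hr⟩ : ∃ r, Nat.find hex = n₀ + (r + 1) := ⟨Nat.find hex - n₀ - 1, by omega⟩
  rw [hr] at hs₀ hmin
  refine ⟨r, fun n => ω (n₀ + n), fun n => τ (n₀ + n), fun n => hmem _, fun n => ?_,
    fun n s => ?_, fun n => ?_, fun n => hturn _, hs₀.1, hs₀.2, fun h => ?_, ?_⟩
  · rw [← A.rpos_mem_base, hτ]
    exact hbase _
  · rcases hends (ω (n₀ + n)) ((ω (n₀ + n)).1, s) rfl with h | h <;> rw [h]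
    · rw [hτ]
      exact fun h' => hgen _ (Or.inl (Or.inl h'))
    · rw [← hnext']
      exact fun h' => hgen _ (Or.inl (Or.inl h'))
  · rw [hτ]
    exact hnext' _
  · rcases hends _ _ hs₀.1 with h' | h'
    · exact hclosed _ _ (by omega) h' h
    · exact hback r n₀ h' h
  · intro n n' h1 h2 h3 h4
    have h5 : n' = r + 1 := by
      by_contra hcon
      exact hmin (n₀ + n) (n₀ + n') (by omega) (by omega) ⟨h3, h4⟩
    subst h5
    refine ⟨?_, rfl⟩
    by_contra hcon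
    have h6 : (ω (n₀ + n)).1 = (ω n₀).1 := h3.symm.trans hs₀.1
    refine hmin n₀ (n₀ + n) (by omega) (by omega) ⟨h6, fun f hf => ?_⟩
    rw [← h4 f (h6 ▸ hf)]
    exact hs₀.2 f hf

end Skel

end Pool.Agent.Lib.MP_d87150_al
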