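import Pool.Agent.Lib.MP_d87150_al.Sys

/-!
# Cutting objects at real thresholds
-/

set_option autoImplicit false

noncomputable section

namespace Pool.Agent.Lib.MP_d87150_al

open Set

/-- A family of cut points `cz κ` in the objects `co κ`. -/
structure Cuts (O K : Type) where
  co : K → O
  cz : K → ℝ

namespace Cuts

variable {O K : Type} (𝒦 : Cuts O K)

open Classical in
/-- The position of the real point `x` of the object `o` relative to the cuts. -/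
def flag (o : O) (x : ℝ) : K → Bool := fun κ => decide (o = 𝒦.co κ ∧ 𝒦.cz κ < x)

open Classical in
/-- The object on the side `σ` of the cut `κ` (`true` is the right side). -/
def side (κ : K) (σ : Bool) : O × (K → Bool) :=
  (𝒦.co κ, Function.update (𝒦.flag (𝒦.co κ) (𝒦.cz κ)) κ σ)

theorem flag_eq_iff {o : O} {x y : ℝ} :
    𝒦.flag o x = 𝒦.flag o y ↔ ∀ κ, o = 𝒦.co κ → (𝒦.cz κ < x ↔ 𝒦.cz κ < y) := by
  unfold flag
  rw [funext_iff]
  refine forall_congr' fun κ => ?_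
  rw [decide_eq_decide]
  exact and_congr_right_iff

theorem side_false_eq {κ : K} {x : ℝ} (hx : x ≤ 𝒦.cz κ)
    (h : ∀ l, l ≠ κ → 𝒦.co l = 𝒦.co κ → 𝒦.cz l ∉ Ico x (𝒦.cz κ)) :
    𝒦.side κ false = (𝒦.co κ, 𝒦.flag (𝒦.co κ) x) := by
  classical
  unfold side
  refine Prod.ext rfl (funext fun l => ?_)
  by_cases hl : l = κ
  · subst hl
    simp [flag, hx]
  · simp only [Function.update_of_ne hl, flag, decide_eq_decide]
    refine and_congr_right fun e => ?_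
    have := h l hl e.symm
    rw [mem_Ico, not_and_or, not_le, not_lt] at this
    constructor
    · intro h1
      exact this.resolve_right (not_le.2 h1)
    · intro h1
      exact h1.trans_le hx

theorem side_true_eq {κ : K} {x : ℝ} (hx : 𝒦.cz κ < x)
    (h : ∀ l, l ≠ κ → 𝒦.co l = 𝒦.co κ → 𝒦.cz l ∉ Ico (𝒦.cz κ) x) :
    𝒦.side κ true = (𝒦.co κ, 𝒦.flag (𝒦.co κ) x) := by
  classical
  unfold side
  refine Prod.ext rfl (funext fun l => ?_)
  by_cases hl : l = κ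
  · subst hl
    simp [flag, hx]
  · simp only [Function.update_of_ne hl, flag, decide_eq_decide]
    refine and_congr_right fun e => ?_
    have := h l hl e.symm
    rw [mem_Ico, not_and_or, not_le, not_lt] at this
    constructor
    · intro h1
      exact h1.trans hx
    · intro h1
      exact this.resolve_right (not_le.2 h1)

end Cuts

variable {Λ T G V : Type} [AddCommGroup Λ] [LinearOrder Λ] [IsOrderedAddMonoid Λ] [Group G]
  [MulAction G T] [AddCommGroup V] [LinearOrder V] {𝒜 : Amb Λ T G V} {O J K : Type}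

namespace Sys

variable (S : Sys 𝒜 O J) (π : V →+ ℝ) (𝒦 : Cuts O K)

/-- The flags of the two ends of a fibre. -/
def fl (k : J) (t : V) : Bool → K → Bool := fun s => 𝒦.flag ((S.B k).en s) (S.lvl π (k, s) t)

/-- The pieces of the bands: fibres with the same flags. -/
def CutJ : Type := {p : J × (Bool → K → Bool) // ∃ t ∈ (S.B p.1).F, S.fl π 𝒦 p.1 t = p.2}

instance [Finite J] [Finite K] : Finite (S.CutJ π 𝒦) := by
  unfold CutJ
  infer_instance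

instance [Finite J] [Finite K] : Fintype (S.CutJ π 𝒦) := Fintype.ofFinite _

/-- The band of a piece. -/
def par (p : S.CutJ π 𝒦) : J := p.1.1

/-- The piece containing a fibre. -/
def piece (k : J) (t : V) (ht : t ∈ (S.B k).F) : S.CutJ π 𝒦 := ⟨(k, S.fl π 𝒦 k t), t, ht, rfl⟩

open Classical in
/-- The system obtained by cutting. -/
def cut : Sys 𝒜 (O × (K → Bool)) (S.CutJ π 𝒦) :=
  S.refine (S.par π 𝒦) Prod.fst
    (fun p => (S.B p.1.1).F.filter fun t => S.fl π 𝒦 p.1.1 t = p.1.2)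
    (fun p => by
      obtain ⟨t, ht, h⟩ := p.2
      exact ⟨t, Finset.mem_filter.2 ⟨ht, h⟩⟩)
    (fun p s => ((S.B p.1.1).en s, p.1.2 s)) (fun _ _ => rfl)
    (fun p t ht => S.valid _ t (Finset.mem_filter.1 ht).1)

@[simp] theorem par_piece (k : J) (t : V) (ht : t ∈ (S.B k).F) :
    S.par π 𝒦 (S.piece π 𝒦 k t ht) = k := rfl

theorem cut_en_piece (k : J) (t : V) (ht : t ∈ (S.B k).F) (s : Bool) :
    ((S.cut π 𝒦).B (S.piece π 𝒦 k t ht)).en s =
      ((S.B k).en s, 𝒦.flag ((S.B k).en s) (S.lvl π (k, s) t)) := rfl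

theorem cut_lab (p : S.CutJ π 𝒦) : ((S.cut π 𝒦).B p).lab = (S.B (S.par π 𝒦 p)).lab := rfl
theorem cut_sg (p : S.CutJ π 𝒦) : ((S.cut π 𝒦).B p).sg = (S.B (S.par π 𝒦 p)).sg := rfl
theorem cut_off (p : S.CutJ π 𝒦) : ((S.cut π 𝒦).B p).off = (S.B (S.par π 𝒦 p)).off := rfl

theorem cut_mem_F_iff {p : S.CutJ π 𝒦} {t : V} :
    t ∈ ((S.cut π 𝒦).B p).F ↔ t ∈ (S.B p.1.1).F ∧ S.fl π 𝒦 p.1.1 t = p.1.2 := by
  classical
  exact Finset.mem_filter

theorem cut_ext {p p' : S.CutJ π 𝒦} (h1 : p.1.1 = p'.1.1) (h2 : p.1.2 = p'.1.2) : p = p' :=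
  Subtype.ext (Prod.ext h1 h2)

theorem cut_lvl (p : S.CutJ π 𝒦) (s : Bool) (t : V) :
    (S.cut π 𝒦).lvl π (p, s) t = S.lvl π (p.1.1, s) t := rfl

theorem exists_piece (p : S.CutJ π 𝒦) :
    ∃ t, ∃ ht : t ∈ (S.B (S.par π 𝒦 p)).F, p = S.piece π 𝒦 (S.par π 𝒦 p) t ht := by
  obtain ⟨⟨k, φ⟩, t, ht, h⟩ := p
  exact ⟨t, ht, Subtype.ext (Prod.ext rfl h.symm)⟩

theorem cut_exists_piece (p : S.CutJ π 𝒦) {k : J} (h : S.par π 𝒦 p = k) :
    ∃ t, ∃ ht : t ∈ (S.B k).F, p = S.piece π 𝒦 k t ht := by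
  subst h
  exact S.exists_piece π 𝒦 p

theorem mem_cut_F {p : S.CutJ π 𝒦} {t : V} :
    t ∈ ((S.cut π 𝒦).B p).F ↔
      ∃ ht : t ∈ (S.B (S.par π 𝒦 p)).F, S.piece π 𝒦 (S.par π 𝒦 p) t ht = p := by
  rw [cut_mem_F_iff]
  constructor
  · rintro ⟨ht, h⟩
    exact ⟨ht, S.cut_ext π 𝒦 rfl h⟩
  · rintro ⟨ht, h⟩
    exact ⟨ht, congrArg (fun q : S.CutJ π 𝒦 => q.1.2) h⟩

theorem piece_eq_iff {k : J} {t t' : V} (ht : t ∈ (S.B k).F) (ht' : t' ∈ (S.B k).F) :
    S.piece π 𝒦 k t ht = S.piece π 𝒦 k t' ht' ↔ ∀ s κ, (S.B k).en s = 𝒦.co κ →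
      (𝒦.cz κ < S.lvl π (k, s) t ↔ 𝒦.cz κ < S.lvl π (k, s) t') := by
  have : S.piece π 𝒦 k t ht = S.piece π 𝒦 k t' ht' ↔ S.fl π 𝒦 k t = S.fl π 𝒦 k t' :=
    ⟨fun h => congrArg (fun q : S.CutJ π 𝒦 => q.1.2) h, fun h => S.cut_ext π 𝒦 rfl h⟩
  rw [this, funext_iff]
  exact forall_congr' fun s => 𝒦.flag_eq_iff

theorem cut_refines : Refines (S.cut π 𝒦) S (S.par π 𝒦) Prod.fst := by
  refine ⟨fun _ _ => rfl, fun _ => rfl, fun _ => rfl, fun _ => rfl,
    fun o v => (o, 𝒦.flag o (π v)), fun k t ht => ⟨S.piece π 𝒦 k t ht, rfl, ?_, fun _ => rfl⟩⟩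
  exact (S.cut_mem_F_iff π 𝒦).2 ⟨ht, rfl⟩

variable [IsOrderedAddMonoid V] {π}

/-- The flags are constant on the closed base of a piece. -/
theorem cut_flag_of_mem_Icc {p : S.CutJ π 𝒦} {s : Bool} {x : ℝ}
    (hx : x ∈ Icc (((S.cut π 𝒦).skel π).lo (p, s)) (((S.cut π 𝒦).skel π).hi (p, s))) :
    𝒦.flag ((S.B p.1.1).en s) x = p.1.2 s := by
  obtain ⟨t₀, h₀, e₀⟩ := (S.cut π 𝒦).exists_lvl_eq_lo (π := π) (p, s)
  obtain ⟨t₁, h₁, e₁⟩ := (S.cut π 𝒦).exists_lvl_eq_hi (π := π) (p, s)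
  have f₀ : 𝒦.flag ((S.B p.1.1).en s) (S.lvl π (p.1.1, s) t₀) = p.1.2 s :=
    congrFun ((S.cut_mem_F_iff π 𝒦).1 h₀).2 s
  have f₁ : 𝒦.flag ((S.B p.1.1).en s) (S.lvl π (p.1.1, s) t₁) = p.1.2 s :=
    congrFun ((S.cut_mem_F_iff π 𝒦).1 h₁).2 s
  rw [← e₀, ← e₁, cut_lvl, cut_lvl] at hx
  have h := 𝒦.flag_eq_iff.1 (f₀.trans f₁.symm)
  rw [← f₀, 𝒦.flag_eq_iff]
  intro κ hκ
  exact ⟨fun h1 => (h κ hκ).2 (h1.trans_le hx.2), fun h1 => h1.trans_le hx.1⟩

theorem cut_ref (hπ : Monotone π) :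
    Skel.Ref ((S.cut π 𝒦).skel π) (S.skel π) (S.par π 𝒦) Prod.fst := by
  refine ⟨fun p _ => S.a_le_level hπ ((S.cut_mem_F_iff π 𝒦).1 (Finset.min'_mem _ _)).1,
    fun p _ => S.level_le_b hπ ((S.cut_mem_F_iff π 𝒦).1 (Finset.max'_mem _ _)).1,
    fun _ _ _ => rfl, fun _ _ _ => rfl, fun _ _ _ => rfl, fun p p' e ne => ?_,
    fun p s p' s' e ⟨x, hx, hx'⟩ => ?_⟩
  · refine Set.disjoint_left.2 fun τ h1 h2 => ne (S.cut_ext π 𝒦 e (funext fun s => ?_))
    have h3 := ((S.cut π 𝒦).skel π).rpos_mem_base (ω := (p, s)).2 h1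
    have h4 := ((S.cut π 𝒦).skel π).rpos_mem_base (ω := (p', s)).2 h2
    rw [← S.cut_flag_of_mem_Icc 𝒦 (Ioo_subset_Icc_self h3),
      ← S.cut_flag_of_mem_Icc 𝒦 (Ioo_subset_Icc_self h4)]
    change 𝒦.flag ((S.B p.1.1).en s) ((S.skel π).rpos (p.1.1, s) τ) =
      𝒦.flag ((S.B p'.1.1).en s) ((S.skel π).rpos (p'.1.1, s) τ)
    rw [show p.1.1 = p'.1.1 from e]
  · have e' : (S.B p.1.1).en s = (S.B p'.1.1).en s' := e
    change ((S.B p.1.1).en s, p.1.2 s) = ((S.B p'.1.1).en s', p'.1.2 s')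
    rw [← S.cut_flag_of_mem_Icc 𝒦 (Ioo_subset_Icc_self hx),
      ← S.cut_flag_of_mem_Icc 𝒦 (Ioo_subset_Icc_self hx'), e']

/-- No cut lies in the open base of a piece. -/
theorem cz_notMem_base (hπ : Monotone π) (p : S.CutJ π 𝒦) (s : Bool) (κ : K)
    (h : (S.B (S.par π 𝒦 p)).en s = 𝒦.co κ) : 𝒦.cz κ ∉ ((S.cut π 𝒦).skel π).base (p, s) := by
  intro hx
  have hle := (hx.1.trans hx.2).le
  have h0 := S.cut_flag_of_mem_Icc 𝒦 (p := p) (s := s) (left_mem_Icc.2 hle)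
  have h1 := S.cut_flag_of_mem_Icc 𝒦 (p := p) (s := s) (right_mem_Icc.2 hle)
  exact lt_asymm hx.1 ((𝒦.flag_eq_iff.1 (h0.trans h1.symm) κ h).2 hx.2)

/-- The object of a piece is read off from any point of its open base. -/
theorem cut_ob_of_mem_base (hπ : Monotone π) {p : S.CutJ π 𝒦} {s : Bool} {x : ℝ}
    (hx : x ∈ ((S.cut π 𝒦).skel π).base (p, s)) :
    ((S.cut π 𝒦).skel π).ob (p, s) =
      ((S.B (S.par π 𝒦 p)).en s, 𝒦.flag ((S.B (S.par π 𝒦 p)).en s) x) := by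
  exact Prod.ext rfl (S.cut_flag_of_mem_Icc 𝒦 (Ioo_subset_Icc_self hx)).symm

theorem cut_lt_iff_lt (hπ : Monotone π) {ω : J × Bool} {z : ℝ}
    (h : z ∉ Ico ((S.skel π).lo ω) ((S.skel π).hi ω)) {t t' : V} (ht : t ∈ (S.B ω.1).F)
    (ht' : t' ∈ (S.B ω.1).F) : z < S.lvl π ω t ↔ z < S.lvl π ω t' := by
  have h1 := S.lvl_mem_Icc hπ ht
  have h2 := S.lvl_mem_Icc hπ ht'
  rw [mem_Ico, not_and_or, not_le, not_lt] at h
  rcases h with h | h
  · exact iff_of_true (h.trans_le h1.1) (h.trans_le h2.1)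
  · exact iff_of_false (not_lt.2 (h1.2.trans h)) (not_lt.2 (h2.2.trans h))

/-- A band whose closed bases contain no cut is not cut. -/
theorem cut_F_eq (hπ : Monotone π) {p : S.CutJ π 𝒦}
    (h : ∀ s κ, (S.B (S.par π 𝒦 p)).en s = 𝒦.co κ →
      𝒦.cz κ ∉ Ico ((S.skel π).lo (S.par π 𝒦 p, s)) ((S.skel π).hi (S.par π 𝒦 p, s))) :
    ((S.cut π 𝒦).B p).F = (S.B (S.par π 𝒦 p)).F := by
  ext t
  rw [cut_mem_F_iff]
  refine ⟨fun h1 => h1.1, fun ht => ⟨ht, ?_⟩⟩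
  obtain ⟨t', ht', e⟩ := p.2
  rw [← e]
  funext s
  exact 𝒦.flag_eq_iff.2 fun κ hκ => S.cut_lt_iff_lt hπ (ω := (p.1.1, s)) (h s κ hκ) ht ht'

theorem cut_full (hπ : Monotone π) {k : J}
    (h : ∀ s κ, (S.B k).en s = 𝒦.co κ →
      𝒦.cz κ ∉ Ico ((S.skel π).lo (k, s)) ((S.skel π).hi (k, s))) :
    Skel.Full ((S.cut π 𝒦).skel π) (S.skel π) (S.par π 𝒦) k := by
  obtain ⟨t, ht⟩ := (S.B k).ne
  have hF : ((S.cut π 𝒦).B (S.piece π 𝒦 k t ht)).F = (S.B k).F := S.cut_F_eq 𝒦 hπ h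
  refine ⟨S.piece π 𝒦 k t ht, rfl, ?_, ?_⟩
  · change π (((S.cut π 𝒦).B (S.piece π 𝒦 k t ht)).F.min' _) = π ((S.B k).F.min' _)
    simp only [hF]
  · change π (((S.cut π 𝒦).B (S.piece π 𝒦 k t ht)).F.max' _) = π ((S.B k).F.max' _)
    simp only [hF]

theorem cut_piece_eq_of_level {k : J} {t t' : V} (ht : t ∈ (S.B k).F) (ht' : t' ∈ (S.B k).F)
    (h : π t = π t') : S.piece π 𝒦 k t ht = S.piece π 𝒦 k t' ht' := by
  rw [piece_eq_iff]
  intro s κ _
  rw [lvl_eq, lvl_eq, h]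

theorem cut_eq_of_consecutive {Y : Type} {c : S.CutJ π 𝒦 → Y} {k : J}
    (h : ∀ t₁ t₂ (h₁ : t₁ ∈ (S.B k).F) (h₂ : t₂ ∈ (S.B k).F), π t₁ < π t₂ →
      (∀ t ∈ (S.B k).F, π t ∉ Ioo (π t₁) (π t₂)) →
      c (S.piece π 𝒦 k t₁ h₁) = c (S.piece π 𝒦 k t₂ h₂))
    {t t' : V} (ht : t ∈ (S.B k).F) (ht' : t' ∈ (S.B k).F) :
    c (S.piece π 𝒦 k t ht) = c (S.piece π 𝒦 k t' ht') := by
  classical
  have key : ∀ n : ℕ, ∀ t t' (ht : t ∈ (S.B k).F) (ht' : t' ∈ (S.B k).F), π t < π t' →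
      ((S.B k).F.filter fun r => π r ∈ Ioo (π t) (π t')).card = n →
      c (S.piece π 𝒦 k t ht) = c (S.piece π 𝒦 k t' ht') := by
    intro n
    induction n using Nat.strong_induction_on with
    | _ n ih =>
      intro t t' ht ht' hlt hn
      by_cases hex : ∃ r ∈ (S.B k).F, π r ∈ Ioo (π t) (π t')
      · obtain ⟨r, hr, hr'⟩ := hex
        have m : r ∈ (S.B k).F.filter fun r => π r ∈ Ioo (π t) (π t') :=
          Finset.mem_filter.2 ⟨hr, hr'⟩
        refine (ih _ ?_ t r ht hr hr'.1 rfl).trans (ih _ ?_ r t' hr ht' hr'.2 rfl)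
        · rw [← hn]
          refine Finset.card_lt_card ⟨fun q hq => ?_, fun hs => ?_⟩
          · rw [Finset.mem_filter] at hq ⊢
            exact ⟨hq.1, hq.2.1, hq.2.2.trans hr'.2⟩
          · exact lt_irrefl _ (Finset.mem_filter.1 (hs m)).2.2
        · rw [← hn]
          refine Finset.card_lt_card ⟨fun q hq => ?_, fun hs => ?_⟩
          · rw [Finset.mem_filter] at hq ⊢
            exact ⟨hq.1, hr'.1.trans hq.2.1, hq.2.2⟩
          · exact lt_irrefl _ (Finset.mem_filter.1 (hs m)).2.1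
      · exact h t t' ht ht' hlt fun r hr hr' => hex ⟨r, hr, hr'⟩
  rcases lt_trichotomy (π t) (π t') with h1 | h1 | h1
  · exact key _ t t' ht ht' h1 rfl
  · rw [S.cut_piece_eq_of_level 𝒦 ht ht' h1]
  · exact (key _ t' t ht' ht h1 rfl).symm

variable [Fintype J] [Fintype K]

/-- Regluing the cuts along an auxiliary edge set with commutative stabilizers. -/
theorem good_of_cut {X : Type} {𝔈 : Set (Edge G (S.CutJ π 𝒦) X)} (μ : X → O × (K → Bool))
    (x x' : K → X) (hx : ∀ κ, μ (x κ) = 𝒦.side κ false) (hx' : ∀ κ, μ (x' κ) = 𝒦.side κ true)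
    (hreal : ∀ p q e, (p, q, e) ∈ 𝔈 → Conn (S.cut π 𝒦).gr.edges (p.1, μ p.2) (q.1, μ q.2) e)
    (hcomm : ∀ y, ∀ a ∈ Im (𝔈 ∪ zeroEdges G (S.CutJ π 𝒦) x x') y,
      ∀ b ∈ Im (𝔈 ∪ zeroEdges G (S.CutJ π 𝒦) x x') y, Commute a b)
    (hrel : ∀ c ∈ Zm (𝔈 ∪ zeroEdges G (S.CutJ π 𝒦) x x'), ∀ k t₁ t₂ (h₁ : t₁ ∈ (S.B k).F)
      (h₂ : t₂ ∈ (S.B k).F), π t₁ < π t₂ → (∀ t ∈ (S.B k).F, π t ∉ Ioo (π t₁) (π t₂)) →
      c (S.piece π 𝒦 k t₁ h₁) = c (S.piece π 𝒦 k t₂ h₂))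
    {Z : Set (H G (S.CutJ π 𝒦))} (hZ0 : Z ⊆ (S.cut π 𝒦).Z0) (hZ : Z ⊆ Zm 𝔈)
    (hg : Good (S.cut π 𝒦).gr Z) : S.IsGood := by
  classical
  have hused : ∀ u ∈ (S.cut π 𝒦).gr.used, ∃ y, u.2 = 𝒦.flag u.1 y := by
    rintro u ⟨p, s, rfl⟩
    obtain ⟨t, -, e⟩ := p.2
    exact ⟨_, (congrFun e s).symm⟩
  have h1 := Good.multi_ab 𝒜.nice μ x x' hreal (fun κ => by rw [hx, hx']; rfl)
    (fun κ => by rw [hx]; simp [Cuts.side]) (fun κ => by rw [hx']; simp [Cuts.side])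
    (fun κ l hl => by rw [hx, hx']; simp [Cuts.side, hl]) ?_ hcomm hZ hg
  · refine good_of_refines (S.cut_refines π 𝒦) (h1.mono fun c hc => ⟨hZ0 hc.1, ?_⟩)
    intro p p' e
    obtain ⟨t, ht, e1⟩ := S.cut_exists_piece π 𝒦 p e
    obtain ⟨t', ht', e2⟩ := S.exists_piece π 𝒦 p'
    exact (congrArg c e1).trans
      ((S.cut_eq_of_consecutive 𝒦 (fun t₁ t₂ => hrel c hc.2 _ t₁ t₂) ht ht').trans
        (congrArg c e2).symm)
  · intro u hu u' hu' κ e h0 h1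
    obtain ⟨y, hy⟩ := hused u hu
    obtain ⟨y', hy'⟩ := hused u' hu'
    rw [hy] at h0
    rw [hy', ← e] at h1
    simp only [Cuts.flag, decide_eq_false_iff_not, decide_eq_true_eq] at h0 h1
    have h2 : y ≤ 𝒦.cz κ := not_lt.1 fun h => h0 ⟨h1.1, h⟩
    rw [hx]
    refine ⟨h1.1, fun l hl h3 => ?_⟩
    rw [hy, hy', ← e] at h3
    rw [hy]
    simp only [Cuts.side, Function.update_of_ne hl, Cuts.flag, decide_eq_decide] at h3 ⊢
    rw [← h1.1]
    refine and_congr_right fun e' => ⟨fun h4 => (h3.2 ⟨e', h4.trans h1.2⟩).2, fun h4 => ?_⟩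
    exact h4.trans_le h2

end Sys

/-- A single cut. -/
def Cuts.one {O : Type} (o : O) (z : ℝ) : Cuts O Unit := ⟨fun _ => o, fun _ => z⟩

namespace Sys

variable [IsOrderedAddMonoid V] (S : Sys 𝒜 O J) {π : V →+ ℝ}

/-- The point `z` lies in the open base `ω`, is not marked and lies in no other base. -/
structure FreeAt (π : V →+ ℝ) (ω : J × Bool) (z : ℝ) : Prop where
  mem : z ∈ (S.skel π).base ω
  unmarked : z ∉ S.Mk π ((S.skel π).ob ω)
  free : ∀ ω', ω' ≠ ω → (S.skel π).ob ω' = (S.skel π).ob ω → z ∉ (S.skel π).base ω'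

variable {S} {ω : J × Bool} {z : ℝ}

theorem FreeAt.cut_notMem_Ico (h : S.FreeAt π ω z) {ω' : J × Bool} (hne : ω' ≠ ω)
    (ho : (S.skel π).ob ω' = (S.skel π).ob ω) :
    z ∉ Ico ((S.skel π).lo ω') ((S.skel π).hi ω') := by
  intro hz
  rcases hz.1.eq_or_lt with e | e
  · obtain ⟨t, ht, e'⟩ := S.exists_lvl_eq_lo (π := π) ω'
    exact h.unmarked ⟨ω', ho, t, ht, e'.trans e⟩
  · exact h.free ω' hne ho ⟨e, hz.2⟩

theorem FreeAt.full (hπ : Monotone π) (h : S.FreeAt π ω z) {k : J} (hk : k ≠ ω.1) :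
    Skel.Full ((S.cut π (Cuts.one ((S.skel π).ob ω) z)).skel π) (S.skel π) (S.par π _) k := by
  exact S.cut_full _ hπ fun s _ e => h.cut_notMem_Ico (ω' := (k, s))
    (fun e' => hk (congrArg Prod.fst e')) e

theorem FreeAt.piece_eq_iff (hπ : Monotone π) (h : S.FreeAt π ω z) {t t' : V}
    (ht : t ∈ (S.B ω.1).F) (ht' : t' ∈ (S.B ω.1).F) :
    S.piece π (Cuts.one ((S.skel π).ob ω) z) ω.1 t ht =
        S.piece π (Cuts.one ((S.skel π).ob ω) z) ω.1 t' ht' ↔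
      (z < S.lvl π ω t ↔ z < S.lvl π ω t') := by
  rw [Sys.piece_eq_iff]
  refine ⟨fun h1 => h1 ω.2 () rfl, fun h1 s _ e => ?_⟩
  by_cases hs : (ω.1, s) = ω
  · rw [hs]
    exact h1
  · exact S.cut_lt_iff_lt hπ (ω := (ω.1, s)) (h.cut_notMem_Ico hs e) ht ht'

variable [Fintype J]

omit [Fintype J] in
/-- The other bands have one piece. -/
theorem FreeAt.cut_unique (hπ : Monotone π) (h : S.FreeAt π ω z)
    {p p' : S.CutJ π (Cuts.one ((S.skel π).ob ω) z)} (e : S.par π _ p = S.par π _ p')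
    (hk : S.par π _ p' ≠ ω.1) : p = p' := by
  obtain ⟨t, ht, e1⟩ := S.cut_exists_piece π _ p e
  obtain ⟨t', ht', e2⟩ := S.exists_piece π _ p'
  refine e1.trans (Eq.trans ?_ e2.symm)
  rw [Sys.piece_eq_iff]
  intro s _ e'
  exact S.cut_lt_iff_lt hπ (ω := (S.par π _ p', s))
    (h.cut_notMem_Ico (fun e'' => hk (congrArg Prod.fst e'')) e') ht ht'

omit [Fintype J] in
/-- The band of `ω` has two pieces. -/
theorem FreeAt.cut_two (hπ : Monotone π) (h : S.FreeAt π ω z) :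
    ∃ p₀ p₁ : S.CutJ π (Cuts.one ((S.skel π).ob ω) z), S.par π _ p₀ = ω.1 ∧ S.par π _ p₁ = ω.1 ∧
      ((S.cut π _).B p₀).en ω.2 = ((S.skel π).ob ω, fun _ => false) ∧
      ((S.cut π _).B p₁).en ω.2 = ((S.skel π).ob ω, fun _ => true) ∧
      ((S.cut π _).B p₀).en (!ω.2) = ((S.cut π _).B p₁).en (!ω.2) ∧
      ((S.cut π _).B p₀).lab = (S.B ω.1).lab ∧ ((S.cut π _).B p₁).lab = (S.B ω.1).lab ∧
      ∀ p, S.par π _ p = ω.1 → p = p₀ ∨ p = p₁ := by
  classical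
  obtain ⟨t₀, h₀, e₀⟩ := S.exists_lvl_eq_lo (π := π) ω
  obtain ⟨t₁, h₁, e₁⟩ := S.exists_lvl_eq_hi (π := π) ω
  have n₀ : ¬ z < S.lvl π ω t₀ := e₀ ▸ not_lt.2 h.mem.1.le
  have n₁ : z < S.lvl π ω t₁ := e₁ ▸ h.mem.2
  refine ⟨S.piece π _ ω.1 t₀ h₀, S.piece π _ ω.1 t₁ h₁, rfl, rfl, ?_, ?_, ?_, rfl, rfl,
    fun p hp => ?_⟩
  · exact Prod.ext rfl (funext fun _ => decide_eq_false fun hh => n₀ hh.2)
  · exact Prod.ext rfl (funext fun _ => decide_eq_true ⟨rfl, n₁⟩)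
  · refine Prod.ext rfl (Cuts.flag_eq_iff _ |>.2 fun _ e => ?_)
    exact S.cut_lt_iff_lt hπ (ω := bar ω) (h.cut_notMem_Ico (bar_ne ω) e) h₀ h₁
  · obtain ⟨t, ht, rfl⟩ := S.cut_exists_piece π _ p hp
    rw [h.piece_eq_iff hπ, h.piece_eq_iff hπ]
    by_cases hz : z < S.lvl π ω t
    · exact Or.inr (iff_of_true hz n₁)
    · exact Or.inl (iff_of_false hz n₀)

/-- Process I: collapsing a free gap. -/
theorem FreeAt.good (hπ : Monotone π) (h : S.FreeAt π ω z)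
    (hg : (S.cut π (Cuts.one ((S.skel π).ob ω) z)).IsGood) : S.IsGood := by
  classical
  obtain ⟨p₀, p₁, -, -, h0, h1, hb, l0, l1, hall⟩ := h.cut_two hπ
  have hne : (((S.skel π).ob ω, fun _ => false) : O × (Unit → Bool)) ≠
      ((S.skel π).ob ω, fun _ => true) := fun e =>
    Bool.false_ne_true (congrFun (congrArg Prod.snd e) ())
  have hm : (S.cut π (Cuts.one ((S.skel π).ob ω) z)).gr.MergeAt Prod.fst
      ((S.skel π).ob ω, fun _ => false) ((S.skel π).ob ω, fun _ => true) := by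
    have hu : ∀ u ∈ (S.cut π (Cuts.one ((S.skel π).ob ω) z)).gr.used ∪
        {((S.skel π).ob ω, fun _ => false), ((S.skel π).ob ω, fun _ => true)},
        u.2 () = true → u.1 = (S.skel π).ob ω := by
      rintro u (⟨p, s, rfl⟩ | rfl | rfl) hu
      · obtain ⟨t, -, e⟩ := p.2
        have e' : (Cuts.one ((S.skel π).ob ω) z).flag _ _ () = true :=
          (congrFun (congrFun e s) ()).trans hu
        exact (of_decide_eq_true e').1
      · rfl
      · rfl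
    refine ⟨hne, rfl, ?_⟩
    rintro ⟨o, f⟩ hf ⟨o', f'⟩ hf' (rfl : o = o')
    have e1 := hu _ hf
    have e2 := hu _ hf'
    simp only [Prod.mk.injEq, funext_iff, true_and] at e1 e2 ⊢
    cases h3 : f () <;> cases h4 : f' () <;> simp_all
  obtain ⟨e, he, hc⟩ : ∃ e, Conn (S.cut π (Cuts.one ((S.skel π).ob ω) z)).gr.edges
      (1, ((S.skel π).ob ω, fun _ => false)) (1, ((S.skel π).ob ω, fun _ => true)) e ∧
      ∀ c, e c = 0 → c p₀ = c p₁ := by
    have a0 := (S.cut π (Cuts.one ((S.skel π).ob ω) z)).gr.conn_arrow p₀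
    have a1 := (S.cut π (Cuts.one ((S.skel π).ob ω) z)).gr.conn_arrow p₁
    obtain ⟨k, s⟩ := ω
    simp only [LG.pt, gr, l0, l1] at a0 a1
    cases s
    · simp only [Bool.not_false] at hb h0 h1
      rw [h0, hb] at a0
      rw [h1] at a1
      refine ⟨_, (a0.trans a1.symm).shift.cast rfl (by simp) rfl, fun c hc => ?_⟩
      rw [smul_apply, smul_eq_zero_iff_eq, add_apply, neg_apply, add_neg_eq_zero] at hc
      exact hc
    · simp only [Bool.not_true] at hb h0 h1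
      rw [h0, hb] at a0
      rw [h1] at a1
      refine ⟨_, (a0.symm.trans a1).shift.cast rfl (by simp) rfl, fun c hc => ?_⟩
      rw [smul_apply, smul_eq_zero_iff_eq, add_apply, neg_apply, neg_add_eq_zero] at hc
      exact hc
  refine good_of_refines (S.cut_refines π _) ((Good.merge_def hm he hg).mono ?_)
  rintro c ⟨hc1, hc2⟩
  refine ⟨hc1, fun p p' e => ?_⟩
  by_cases hk : S.par π _ p' = ω.1
  · rcases hall p (e.trans hk) with rfl | rfl <;> rcases hall p' hk with rfl | rfl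
    · rfl
    · exact hc c hc2
    · exact (hc c hc2).symm
    · rfl
  · rw [h.cut_unique hπ e hk]

open Classical in
theorem cut_sum_card (S : Sys 𝒜 O J) [Finite K] (𝒦 : Cuts O K) (k : J) :
    ∑ p with S.par π 𝒦 p = k, ((((S.cut π 𝒦).B p).F.image π).card - 1) +
      (Finset.univ.filter fun p => S.par π 𝒦 p = k).card ≤ ((S.B k).F.image π).card := by
  rw [Finset.card_eq_sum_ones (Finset.univ.filter _), ← Finset.sum_add_distrib]
  have h1 : ∀ p ∈ Finset.univ.filter fun p => S.par π 𝒦 p = k,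
      (((S.cut π 𝒦).B p).F.image π).card - 1 + 1 = (((S.cut π 𝒦).B p).F.image π).card :=
    fun p _ => Nat.sub_add_cancel (Finset.card_pos.2 (((S.cut π 𝒦).B p).ne.image π))
  rw [Finset.sum_congr rfl h1, ← Finset.card_biUnion]
  · refine Finset.card_le_card fun x hx => ?_
    obtain ⟨p, hp, hx⟩ := Finset.mem_biUnion.1 hx
    rw [← (Finset.mem_filter.1 hp).2]
    exact Finset.image_subset_image (fun t ht => ((S.cut_mem_F_iff π 𝒦).1 ht).1) hx
  · intro p hp p' hp' ne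
    have e : p.1.1 = p'.1.1 :=
      (Finset.mem_filter.1 hp).2.trans (Finset.mem_filter.1 hp').2.symm
    refine Finset.disjoint_left.2 fun x hx hx' => ne (S.cut_ext π 𝒦 e ?_)
    obtain ⟨t, ht, rfl⟩ := Finset.mem_image.1 hx
    obtain ⟨t', ht', e'⟩ := Finset.mem_image.1 hx'
    rw [← ((S.cut_mem_F_iff π 𝒦).1 ht).2, ← ((S.cut_mem_F_iff π 𝒦).1 ht').2, e]
    funext s
    unfold fl
    rw [lvl_eq, lvl_eq, e']

theorem FreeAt.gp_lt (hπ : Monotone π) (h : S.FreeAt π ω z) :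
    (S.cut π (Cuts.one ((S.skel π).ob ω) z)).Gp π < S.Gp π := by
  classical
  obtain ⟨p₀, p₁, q0, q1, h0, h1, -⟩ := h.cut_two hπ
  have hne : p₀ ≠ p₁ := fun e => by
    rw [e, h1] at h0
    exact Bool.false_ne_true (congrFun (congrArg Prod.snd h0) ()).symm
  unfold Gp
  rw [← Finset.sum_fiberwise Finset.univ (S.par π (Cuts.one ((S.skel π).ob ω) z))]
  refine Finset.sum_lt_sum (fun k _ => ?_) ⟨ω.1, Finset.mem_univ _, ?_⟩
  · have h2 := S.cut_sum_card (π := π) (Cuts.one ((S.skel π).ob ω) z) k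
    have h3 : 0 < (Finset.univ.filter fun p =>
        S.par π (Cuts.one ((S.skel π).ob ω) z) p = k).card := by
      obtain ⟨t, ht⟩ := (S.B k).ne
      exact Finset.card_pos.2 ⟨S.piece π _ k t ht, by simp⟩
    omega
  · have h2 := S.cut_sum_card (π := π) (Cuts.one ((S.skel π).ob ω) z) ω.1
    have h3 : 1 < (Finset.univ.filter fun p =>
        S.par π (Cuts.one ((S.skel π).ob ω) z) p = ω.1).card :=
      Finset.one_lt_card.2 ⟨p₀, by simp [q0], p₁, by simp [q1], hne⟩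
    omega

theorem FreeAt.rk_le (hπ : Monotone π) (h : S.FreeAt π ω z) :
    ((S.cut π (Cuts.one ((S.skel π).ob ω) z)).skel π).rk ≤ (S.skel π).rk := by
  classical
  obtain ⟨p₀, p₁, q0, q1, h0, h1, hb, -, -, hall⟩ := h.cut_two hπ
  have hne : p₀ ≠ p₁ := fun e => by
    rw [e, h1] at h0
    exact Bool.false_ne_true (congrFun (congrArg Prod.snd h0) ()).symm
  refine (S.cut_ref _ hπ).rk_le fun y hy hs => ?_
  have z1 : ∀ p, S.par π _ p ≠ ω.1 → y p = 0 := fun p hp => by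
    have := hs (S.par π _ p)
    rwa [Finset.sum_eq_single p (fun p' hp' ne =>
      absurd (h.cut_unique hπ (Finset.mem_filter.1 hp').2 hp) ne) (by simp)] at this
  have z2 : y p₀ + y p₁ = 0 := by
    have := hs ω.1
    rwa [Finset.sum_eq_add_of_mem p₀ p₁ (by simp [q0]) (by simp [q1]) hne fun p hp hn =>
      absurd (hall p (Finset.mem_filter.1 hp).2) (not_or.2 hn)] at this
  have z3 := hy.2 (fun ω' => if (((S.cut π _).B ω'.1).en ω'.2).2 () then 1 else 0)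
    fun ω₁ ω₂ hov => by
      have : ((S.cut π _).B ω₁.1).en ω₁.2 = ((S.cut π _).B ω₂.1).en ω₂.2 := hov.1
      rw [this]
  rw [Finset.sum_eq_add_of_mem p₀ p₁ (Finset.mem_univ _) (Finset.mem_univ _) hne
    fun p _ hn => by rw [z1 p fun hp => (not_or.2 hn) (hall p hp), zero_mul]] at z3
  have z4 : y p₁ = 0 := by
    obtain ⟨k, s⟩ := ω
    cases s
    · simp only [Bool.not_false] at hb h0 h1
      simp only [h0, h1, hb, Bool.false_eq_true, if_true, if_false] at z3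
      linear_combination (if (((S.cut π _).B p₁).en true).2 () then 1 else 0) * z2 - z3
    · simp only [Bool.not_true] at hb h0 h1
      simp only [h0, h1, hb, Bool.false_eq_true, if_true, if_false] at z3
      linear_combination (if (((S.cut π _).B p₁).en false).2 () then 1 else 0) * z2 + z3
  funext p
  by_cases hp : S.par π _ p = ω.1
  · rcases hall p hp with rfl | rfl
    · simpa [z4] using z2
    · exact z4
  · exact z1 p hp

theorem exists_freeAt (S : Sys 𝒜 O J) (π : V →+ ℝ) (h : ¬ (S.skel π).NoFree) :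
    ∃ ω z, S.FreeAt π ω z := by
  by_contra hn
  refine h ⟨_, S.finite_iUnion_Mk (π := π), fun ω x hx hE => ?_⟩
  by_contra hc
  exact hn ⟨ω, x, hx, fun hm => hE (mem_iUnion.2 ⟨_, hm⟩),
    fun ω' ne ho hx' => hc ⟨ω', ne, ho, hx'⟩⟩

end Sys

end Pool.Agent.Lib.MP_d87150_al
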