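import Mathlib

/-!
# The trace on equivariant operators: trace property, faithfulness, rank-nullity

Rank-nullity is proved with the mean ergodic theorem for `1 - S* S` and `1 - S S*`.
-/

set_option autoImplicit false

noncomputable section

namespace Pool.Agent.Lib.MP_d87150_al

open scoped InnerProductSpace
open Filter Topology

/-- A Hilbert space with an orthogonal action and finitely many vectors whose translates satisfy
Parseval's identity. -/
structure HSys (G E A : Type) [Group G] [NormedAddCommGroup E] [InnerProductSpace ℝ E]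
    [Fintype A] where
  U : G → E →L[ℝ] E
  e : A → E
  adj : ∀ g x y, ⟪U g x, y⟫_ℝ = ⟪x, U g⁻¹ y⟫_ℝ
  parseval : ∀ x y, ⟪x, y⟫_ℝ = ∑ a, ∑' g, ⟪x, U g (e a)⟫_ℝ * ⟪U g (e a), y⟫_ℝ

namespace HSys

variable {G E F A B : Type} [Group G] [NormedAddCommGroup E] [InnerProductSpace ℝ E]
  [NormedAddCommGroup F] [InnerProductSpace ℝ F] [Fintype A] [Fintype B]

/-- The trace. -/
def tr (X : HSys G E A) (T : E →L[ℝ] E) : ℝ := ∑ a, ⟪T (X.e a), X.e a⟫_ℝ

/-- Equivariant operators. -/
def Eq (X : HSys G E A) (Y : HSys G F B) (T : E →L[ℝ] F) : Prop :=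
  ∀ g x, T (X.U g x) = Y.U g (T x)

theorem adj' (X : HSys G E A) (g : G) (x y : E) : ⟪x, X.U g y⟫_ℝ = ⟪X.U g⁻¹ x, y⟫_ℝ := by
  rw [X.adj, inv_inv]

theorem tr_sub (X : HSys G E A) (S T : E →L[ℝ] E) : X.tr (S - T) = X.tr S - X.tr T := by
  simp only [tr, sub_apply, inner_sub_left, Finset.sum_sub_distrib]

theorem tr_add (X : HSys G E A) (S T : E →L[ℝ] E) : X.tr (S + T) = X.tr S + X.tr T := by
  simp only [tr, add_apply, inner_add_left, Finset.sum_add_distrib]

theorem eq_starProjection (X : HSys G E A) (K : Submodule ℝ E) [K.HasOrthogonalProjection]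
    (hK : ∀ g, ∀ x ∈ K, X.U g x ∈ K) : X.Eq X K.starProjection := by
  intro g x
  refine Submodule.eq_starProjection_of_mem_of_inner_eq_zero
    (hK g _ (K.starProjection_apply_mem x)) fun w hw => ?_
  rw [← map_sub, X.adj]
  exact Submodule.starProjection_inner_eq_zero x _ (hK _ w hw)

theorem faithful (X : HSys G E A) (K₁ K₂ : Submodule ℝ E) [K₁.HasOrthogonalProjection]
    [K₂.HasOrthogonalProjection] (h₁ : ∀ g, ∀ x ∈ K₁, X.U g x ∈ K₁)
    (h₂ : ∀ g, ∀ x ∈ K₂, X.U g x ∈ K₂) (h : K₁ ≤ K₂)
    (hd : X.tr K₂.starProjection ≤ X.tr K₁.starProjection) : K₂ ≤ K₁ := by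
  have key : ∀ v : E, ⟪K₂.starProjection v - K₁.starProjection v, v⟫_ℝ =
      ‖K₂.starProjection v - K₁.starProjection v‖ ^ 2 := by
    intro v
    have m1 := K₁.starProjection_apply_mem v
    have m2 := K₂.starProjection_apply_mem v
    have e1 := K₂.starProjection_inner_eq_zero v _ (K₂.sub_mem m2 (h m1))
    have e2 := K₂.starProjection_inner_eq_zero v _ (h m1)
    have e3 := K₁.starProjection_inner_eq_zero v _ m1
    rw [← real_inner_self_eq_norm_sq]
    simp only [inner_sub_left, inner_sub_right] at e1 e2 e3 ⊢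
    rw [real_inner_comm v (K₂.starProjection v), real_inner_comm v (K₁.starProjection v),
      real_inner_comm (K₂.starProjection v) (K₁.starProjection v)]
    linarith
  have hs : ∑ a, ‖K₂.starProjection (X.e a) - K₁.starProjection (X.e a)‖ ^ 2 ≤ 0 := by
    simp only [← key, inner_sub_left, Finset.sum_sub_distrib]
    exact sub_nonpos.mpr hd
  have h0 : ∀ a, K₂.starProjection (X.e a) = K₁.starProjection (X.e a) := by
    intro a
    have h3 := (Finset.sum_eq_zero_iff_of_nonneg fun a _ => sq_nonneg _).mp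
      (le_antisymm hs (Finset.sum_nonneg fun a _ => sq_nonneg _)) a (Finset.mem_univ a)
    exact sub_eq_zero.mp (norm_eq_zero.mp (pow_eq_zero_iff two_ne_zero |>.mp h3))
  intro x hx
  have h4 : ∀ g a, ⟪K₂.starProjection x - K₁.starProjection x, X.U g (X.e a)⟫_ℝ = 0 := by
    intro g a
    rw [inner_sub_left, Submodule.inner_starProjection_left_eq_right,
      Submodule.inner_starProjection_left_eq_right, X.eq_starProjection K₂ h₂,
      X.eq_starProjection K₁ h₁, h0, sub_self]
  have h5 := X.parseval (K₂.starProjection x - K₁.starProjection x)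
    (K₂.starProjection x - K₁.starProjection x)
  simp only [h4, zero_mul, tsum_zero, Finset.sum_const_zero, inner_self_eq_zero, sub_eq_zero] at h5
  rw [Submodule.starProjection_eq_self_iff.mpr hx] at h5
  rw [h5]
  exact K₁.starProjection_apply_mem x

variable [CompleteSpace E] [CompleteSpace F]

theorem Eq.adjoint {X : HSys G E A} {Y : HSys G F B} {S : E →L[ℝ] F} (h : X.Eq Y S) :
    Y.Eq X (ContinuousLinearMap.adjoint S) := by
  intro g y
  refine ext_inner_right ℝ fun x => ?_
  rw [ContinuousLinearMap.adjoint_inner_left, Y.adj, ← h, X.adj,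
    ContinuousLinearMap.adjoint_inner_left]

/-- The trace property. -/
theorem tr_comm {X : HSys G E A} {Y : HSys G F B} {S : E →L[ℝ] F} {T : F →L[ℝ] E}
    (hS : X.Eq Y S) (hT : Y.Eq X T) : X.tr (T.comp S) = Y.tr (S.comp T) := by
  unfold tr
  simp only [ContinuousLinearMap.comp_apply]
  have e1 : ∀ a, ⟪T (S (X.e a)), X.e a⟫_ℝ = ∑ b, ∑' g, ⟪T (Y.e b), X.U g (X.e a)⟫_ℝ *
      ⟪X.U g (X.e a), ContinuousLinearMap.adjoint S (Y.e b)⟫_ℝ := by
    intro a
    rw [← ContinuousLinearMap.adjoint_inner_right, Y.parseval]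
    refine Finset.sum_congr rfl fun b _ => ?_
    rw [← (Equiv.inv G).tsum_eq]
    refine tsum_congr fun g => ?_
    rw [Equiv.inv_apply, ContinuousLinearMap.adjoint_inner_right,
      ContinuousLinearMap.adjoint_inner_right, hT, X.adj, Y.adj', inv_inv, hS, mul_comm]
  have e2 : ∀ b, ⟪S (T (Y.e b)), Y.e b⟫_ℝ = ∑ a, ∑' g, ⟪T (Y.e b), X.U g (X.e a)⟫_ℝ *
      ⟪X.U g (X.e a), ContinuousLinearMap.adjoint S (Y.e b)⟫_ℝ := by
    intro b
    rw [← ContinuousLinearMap.adjoint_inner_right, X.parseval]
  simp only [e1, e2]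
  exact Finset.sum_comm

omit [CompleteSpace E] in
theorem Eq.pow {X : HSys G E A} {S : E →L[ℝ] E} (h : X.Eq X S) (n : ℕ) : X.Eq X (S ^ n) := by
  induction n with
  | zero => exact fun _ _ => rfl
  | succ n ih =>
    intro g x
    rw [pow_succ, mul_apply_eq_comp, mul_apply_eq_comp, h, ih]

theorem tr_tendsto (X : HSys G E A) (f : E →L[ℝ] E) (hf : ‖f‖ ≤ 1)
    (K : Submodule ℝ E) [K.HasOrthogonalProjection] (hK : ∀ x, x ∈ K ↔ f x = x) :
    Tendsto (fun n : ℕ => (n : ℝ)⁻¹ * ∑ k ∈ Finset.range n, X.tr (f ^ k)) atTop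
      (𝓝 (X.tr K.starProjection)) := by
  have hK' : K = f.eqLocus (1 : E →L[ℝ] E) := Submodule.ext fun x => hK x
  subst hK'
  have h := tendsto_finsetSum (Finset.univ : Finset A) fun a _ =>
    (f.tendsto_birkhoffAverage_orthogonalProjection hf (X.e a)).inner (𝕜 := ℝ)
      (tendsto_const_nhds (x := X.e a))
  refine h.congr fun n => ?_
  simp only [tr, birkhoffAverage, birkhoffSum, id, real_inner_smul_left, sum_inner,
    FunLike.coe_pow_eq_iterate]
  rw [← Finset.mul_sum, Finset.sum_comm]

theorem norm_one_sub_le {S : E →L[ℝ] F} (hS : ‖S‖ ≤ 1) :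
    ‖1 - (ContinuousLinearMap.adjoint S).comp S‖ ≤ 1 := by
  refine ContinuousLinearMap.opNorm_le_bound _ zero_le_one fun x => ?_
  rw [one_mul]
  refine le_of_sq_le_sq ?_ (norm_nonneg _)
  have h1 : ‖ContinuousLinearMap.adjoint S (S x)‖ ≤ ‖S x‖ := by
    refine ((ContinuousLinearMap.adjoint S).le_opNorm _).trans ?_
    rw [LinearIsometryEquiv.norm_map]
    exact mul_le_of_le_one_left (norm_nonneg _) hS
  change ‖x - ContinuousLinearMap.adjoint S (S x)‖ ^ 2 ≤ _
  rw [norm_sub_sq_real, ContinuousLinearMap.adjoint_inner_right, real_inner_self_eq_norm_sq]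
  nlinarith [norm_nonneg (ContinuousLinearMap.adjoint S (S x))]

theorem one_sub_fix {S : E →L[ℝ] F} (x : E) :
    S x = 0 ↔ (1 - (ContinuousLinearMap.adjoint S).comp S) x = x := by
  change _ ↔ x - ContinuousLinearMap.adjoint S (S x) = x
  rw [sub_eq_self]
  refine ⟨fun h => by rw [h, map_zero], fun h => ?_⟩
  rw [← inner_self_eq_zero (𝕜 := ℝ), ← ContinuousLinearMap.adjoint_inner_right, h,
    inner_zero_right]

/-- The kernels of `S` and of its adjoint have the same codimension. -/
theorem tr_ker {X : HSys G E A} {Y : HSys G F B} {S : E →L[ℝ] F} (hS : X.Eq Y S) (h1 : ‖S‖ ≤ 1)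
    (K : Submodule ℝ E) [K.HasOrthogonalProjection] (hK : ∀ x, x ∈ K ↔ S x = 0)
    (L : Submodule ℝ F) [L.HasOrthogonalProjection]
    (hL : ∀ y, y ∈ L ↔ ContinuousLinearMap.adjoint S y = 0) :
    X.tr K.starProjection - Y.tr L.starProjection = X.tr 1 - Y.tr 1 := by
  set T := ContinuousLinearMap.adjoint S with hT
  have hTe : Y.Eq X T := hS.adjoint
  have hTT : ContinuousLinearMap.adjoint T = S := ContinuousLinearMap.adjoint_adjoint S
  set f : E →L[ℝ] E := 1 - T.comp S with hf
  set f' : F →L[ℝ] F := 1 - S.comp T with hf'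
  have hfe : X.Eq X f := fun g x => by
    change X.U g x - T (S (X.U g x)) = X.U g (x - T (S x))
    rw [hS, hTe, map_sub]
  have hc : ∀ (k : ℕ) (x : E), S ((f ^ k) x) = (f' ^ k) (S x) := by
    intro k
    induction k with
    | zero => exact fun _ => rfl
    | succ k ih =>
      intro x
      rw [pow_succ, pow_succ, mul_apply_eq_comp, mul_apply_eq_comp, ih]
      congr 1
      exact map_sub S _ _
  have hk : ∀ k : ℕ, X.tr (f ^ k) - Y.tr (f' ^ k) = X.tr 1 - Y.tr 1 := by
    intro k
    induction k with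
    | zero => rfl
    | succ k ih =>
      have e1 : f ^ (k + 1) = f ^ k - T.comp (S.comp (f ^ k)) := by
        rw [pow_succ', hf, sub_mul, one_mul]
        rfl
      have e2 : f' ^ (k + 1) = f' ^ k - (S.comp (f ^ k)).comp T := by
        rw [pow_succ]
        nth_rewrite 2 [hf']
        rw [mul_sub, mul_one]
        congr 1
        ext y
        exact (hc k _).symm
      have e3 : X.Eq Y (S.comp (f ^ k)) := fun g x => by
        rw [ContinuousLinearMap.comp_apply, ContinuousLinearMap.comp_apply, hfe.pow k, hS]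
      rw [e1, e2, tr_sub, tr_sub, tr_comm e3 hTe]
      linarith
  have t1 := X.tr_tendsto f (norm_one_sub_le h1) K fun x => (hK x).trans (one_sub_fix x)
  have t2 := Y.tr_tendsto f' (by
    have := norm_one_sub_le (S := T) (by rwa [hT, LinearIsometryEquiv.norm_map])
    rwa [hTT] at this) L fun y => (hL y).trans (by
      have := one_sub_fix (S := T) y
      rwa [hTT] at this)
  refine tendsto_nhds_unique (t1.sub t2) (tendsto_const_nhds.congr' ?_)
  filter_upwards [eventually_gt_atTop 0] with n hn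
  have hn' : (n : ℝ) ≠ 0 := by positivity
  rw [← mul_sub, ← Finset.sum_sub_distrib]
  simp only [hk, Finset.sum_const, Finset.card_range, nsmul_eq_mul]
  field_simp

/-- Rank-nullity. -/
theorem rank {X : HSys G E A} {Y : HSys G F B} {T : E →L[ℝ] F} (hT : X.Eq Y T)
    (W K : Submodule ℝ E) (R : Submodule ℝ F) [W.HasOrthogonalProjection]
    [K.HasOrthogonalProjection] [R.HasOrthogonalProjection] (hW : ∀ g, ∀ x ∈ W, X.U g x ∈ W)
    (hK : ∀ x, x ∈ K ↔ x ∈ W ∧ T x = 0) (hR : ∀ y, y ∈ Rᗮ ↔ ∀ x ∈ W, ⟪T x, y⟫_ℝ = 0) :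
    X.tr W.starProjection = X.tr K.starProjection + Y.tr R.starProjection := by
  set c : ℝ := (‖T.comp W.starProjection‖ + 1)⁻¹ with hc
  have hc0 : 0 < c := by positivity
  set S : E →L[ℝ] F := c • T.comp W.starProjection with hS
  have hSx : ∀ x, S x = c • T (W.starProjection x) := fun x => rfl
  have hSe : X.Eq Y S := fun g x => by
    rw [hSx, hSx, X.eq_starProjection W hW, hT, map_smul]
  have h1 : ‖S‖ ≤ 1 := by
    rw [hS, norm_smul, Real.norm_of_nonneg hc0.le, hc, inv_mul_le_iff₀ (by positivity)]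
    linarith
  have h0 : ∀ x, S x = 0 ↔ T (W.starProjection x) = 0 := fun x => by
    rw [hSx, smul_eq_zero, or_iff_right hc0.ne']
  have h2 := tr_ker hSe h1 S.ker (fun x => Iff.rfl) Rᗮ fun y => by
    rw [hR]
    constructor
    · intro h
      refine ext_inner_left ℝ fun x => ?_
      rw [ContinuousLinearMap.adjoint_inner_right, hSx, real_inner_smul_left,
        h _ (W.starProjection_apply_mem x), mul_zero, inner_zero_right]
    · intro h x hx
      have h3 := ContinuousLinearMap.adjoint_inner_right S x y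
      rw [h, inner_zero_right, hSx, real_inner_smul_left,
        Submodule.starProjection_eq_self_iff.mpr hx] at h3
      exact (mul_eq_zero.mp h3.symm).resolve_left hc0.ne'
  have h4 : S.ker.starProjection = K.starProjection + (1 - W.starProjection) := by
    ext x
    have m1 := (hK _).mp (K.starProjection_apply_mem x)
    have m2 := W.starProjection_apply_mem x
    change _ = K.starProjection x + (x - W.starProjection x)
    refine Submodule.eq_starProjection_of_mem_of_inner_eq_zero ?_ fun w hw => ?_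
    · change S _ = 0
      rw [h0, map_add, map_sub, Submodule.starProjection_eq_self_iff.mpr m1.1,
        Submodule.starProjection_eq_self_iff.mpr m2, sub_self, add_zero, m1.2]
    · have m3 : W.starProjection w ∈ K := (hK _).mpr ⟨W.starProjection_apply_mem w, (h0 w).mp hw⟩
      have e1 : x - (K.starProjection x + (x - W.starProjection x)) =
          W.starProjection (x - K.starProjection x) := by
        rw [map_sub, Submodule.starProjection_eq_self_iff.mpr m1.1]
        abel
      rw [e1, Submodule.inner_starProjection_left_eq_right]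
      exact K.starProjection_inner_eq_zero x _ m3
  rw [h4, Submodule.starProjection_orthogonal', tr_add, tr_sub, tr_sub] at h2
  linarith

end HSys

end Pool.Agent.Lib.MP_d87150_al
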