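import Pool.Agent.Lib.MP_d87150_al.L2More
import Pool.Agent.Lib.MP_d87150_al.DimAux

/-!
# Von Neumann dimension of closed right-invariant subspaces of `l2(G)^A`
-/

set_option autoImplicit false

noncomputable section

namespace Pool.Agent.Lib.MP_d87150_al

open scoped InnerProductSpace

/-- `A`-tuples of vectors of `l2(G)`. -/
abbrev H (G A : Type) : Type := A → L2 G

/-- Continuous linear maps from `A`-tuples to `l2(G)`. -/
abbrev Fn (G A : Type) : Type := H G A →L[ℝ] L2 G

variable {G : Type} [Group G]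

/-- The right action on tuples. -/
def rtH {A : Type} (g : G) (c : H G A) : H G A := fun a => L2.rt g (c a)

/-- Closed subspaces invariant under the right action. -/
structure Inv {A : Type} (W : Submodule ℝ (H G A)) : Prop where
  closed : IsClosed (W : Set (H G A))
  inv : ∀ (g : G) (c : H G A), c ∈ W → rtH g c ∈ W

/-- Right-equivariant maps between tuples. -/
def Eqv {A B : Type} (T : H G A →L[ℝ] H G B) : Prop :=
  ∀ (g : G) (c : H G A), T (rtH g c) = rtH g (T c)

/-- Right-equivariant functionals. -/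
def EqvF {A : Type} (e : Fn G A) : Prop :=
  ∀ (g : G) (c : H G A), e (rtH g c) = L2.rt g (e c)

/-- Right-equivariant operators on `l2(G)`. -/
def EqvL (D : L2 G →L[ℝ] L2 G) : Prop :=
  ∀ (g : G) (ξ : L2 G), D (L2.rt g ξ) = L2.rt g (D ξ)

/-- The Hilbert space structure on tuples. -/
abbrev HP (G A : Type) : Type := PiLp 2 (fun _ : A => L2 G)

/-- Identification of tuples with the Hilbert sum. -/
def toHP {A : Type} [Fintype A] : H G A ≃L[ℝ] HP G A :=
  (PiLp.continuousLinearEquiv 2 ℝ (fun _ : A => L2 G)).symm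

open Classical in
/-- The basis vector at `(1, a)`. -/
def bas {A : Type} [Fintype A] (a : A) : HP G A := toHP (Pi.single a (L2.dirac (1 : G)))

/-- The von Neumann dimension (of the closure) of a subspace. -/
def dim {A : Type} [Fintype A] (W : Submodule ℝ (H G A)) : ℝ :=
  ∑ a : A, ⟪(W.map (toHP (G := G) (A := A)).toLinearMap).topologicalClosure.starProjection
    (bas a), bas a⟫_ℝ

section
variable {A B : Type}

theorem EqvF.proj (a : A) : EqvF (ContinuousLinearMap.proj a : Fn G A) := fun _ _ => rfl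

theorem EqvF.zero : EqvF (0 : Fn G A) := fun g c => by simp

theorem EqvF.add {e f : Fn G A} (he : EqvF e) (hf : EqvF f) : EqvF (e + f) := fun g c => by
  simp [he g c, hf g c]

theorem EqvF.neg {e : Fn G A} (he : EqvF e) : EqvF (-e) := fun g c => by
  simp [he g c]

theorem EqvF.sub {e f : Fn G A} (he : EqvF e) (hf : EqvF f) : EqvF (e - f) := fun g c => by
  simp [he g c, hf g c]

theorem EqvF.gsmul {e : Fn G A} (he : EqvF e) (g : G) : EqvF (g • e) := fun h c => by
  rw [smul_apply, smul_apply, he h c, L2.rt_gsmul]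

theorem EqvF.comp {e : Fn G B} {T : H G A →L[ℝ] H G B} (he : EqvF e) (hT : Eqv T) :
    EqvF (e.comp T) := fun g c => by
  rw [ContinuousLinearMap.comp_apply, ContinuousLinearMap.comp_apply, hT g c, he g]

theorem Eqv.pi {φ : B → Fn G A} (h : ∀ b, EqvF (φ b)) :
    Eqv (ContinuousLinearMap.pi φ : H G A →L[ℝ] H G B) := fun g c => funext fun b => h b g c

theorem Inv.top : Inv (⊤ : Submodule ℝ (H G A)) := ⟨by simp, fun _ _ _ => trivial⟩

theorem Inv.bot : Inv (⊥ : Submodule ℝ (H G A)) := ⟨by simp, fun g c hc => by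
  rw [Submodule.mem_bot] at hc ⊢
  subst hc
  funext a
  simp [rtH]⟩

theorem Inv.inf {W₁ W₂ : Submodule ℝ (H G A)} (h₁ : Inv W₁) (h₂ : Inv W₂) : Inv (W₁ ⊓ W₂) :=
  ⟨h₁.closed.inter h₂.closed, fun g c hc => ⟨h₁.inv g c hc.1, h₂.inv g c hc.2⟩⟩

theorem Inv.iInf {ι : Type} {W : ι → Submodule ℝ (H G A)} (h : ∀ i, Inv (W i)) :
    Inv (⨅ i, W i) := ⟨by
    rw [Submodule.coe_iInf]
    exact isClosed_iInter fun i => (h i).closed, fun g c hc =>
  (Submodule.mem_iInf _).mpr fun i => (h i).inv g c ((Submodule.mem_iInf _).mp hc i)⟩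

theorem Inv.kerF {e : Fn G A} (he : EqvF e) : Inv (LinearMap.ker (e : H G A →ₗ[ℝ] L2 G)) :=
  ⟨e.isClosed_ker, fun g c hc => by
    have h1 : e c = 0 := hc
    show e (rtH g c) = 0
    rw [he g c, h1, map_zero]⟩

theorem Inv.comap {W : Submodule ℝ (H G B)} (hW : Inv W) {T : H G A →L[ℝ] H G B} (hT : Eqv T) :
    Inv (W.comap (T : H G A →ₗ[ℝ] H G B)) :=
  ⟨hW.closed.preimage T.continuous, fun g c hc => by
    show T (rtH g c) ∈ W
    rw [hT g c]
    exact hW.inv g _ hc⟩

theorem Inv.closure_map {W : Submodule ℝ (H G A)} (hW : Inv W) {T : H G A →L[ℝ] H G B}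
    (hT : Eqv T) : Inv (W.map (T : H G A →ₗ[ℝ] H G B)).topologicalClosure :=
  ⟨Submodule.isClosed_topologicalClosure _, fun g c hc => by
    have hcont : Continuous (rtH g : H G B → H G B) :=
      continuous_pi fun b => (L2.rt g).continuous.comp (continuous_apply b)
    refine map_mem_closure hcont hc ?_
    rintro _ ⟨d, hd, rfl⟩
    exact ⟨rtH g d, hW.inv g d hd, hT g d⟩⟩

variable [Fintype A] [Fintype B]

theorem inner_bas_self (a : A) : ⟪(bas a : HP G A), bas a⟫_ℝ = 1 := by
  classical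
  rw [PiLp.inner_apply, Finset.sum_eq_single a]
  · have h : (bas a : HP G A) a = L2.dirac 1 := by simp [bas, toHP]
    rw [h, L2.inner_dirac, L2.val_dirac, if_pos rfl]
  · intro b _ hb
    simp [bas, toHP, hb]
  · simp

omit [Group G] in
theorem closure_map_toHP (W : Submodule ℝ (H G A)) :
    (W.map (toHP (G := G) (A := A)).toLinearMap).topologicalClosure =
      W.topologicalClosure.map (toHP (G := G) (A := A)).toLinearMap := by
  apply SetLike.coe_injective
  rw [Submodule.topologicalClosure_coe, Submodule.map_coe, Submodule.map_coe,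
    Submodule.topologicalClosure_coe]
  exact ((toHP (G := G) (A := A)).toHomeomorph.image_closure _).symm

theorem dim_congr_closure {W₁ W₂ : Submodule ℝ (H G A)}
    (h : W₁.topologicalClosure = W₂.topologicalClosure) : dim W₁ = dim W₂ := by
  have e : (W₁.map (toHP (G := G) (A := A)).toLinearMap).topologicalClosure =
      (W₂.map (toHP (G := G) (A := A)).toLinearMap).topologicalClosure := by
    rw [closure_map_toHP, closure_map_toHP, h]
  unfold dim
  simp only [e]

theorem inner_starProjection_self {E : Type} [NormedAddCommGroup E] [InnerProductSpace ℝ E]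
    (K : Submodule ℝ E) [K.HasOrthogonalProjection] (v : E) :
    ⟪K.starProjection v, v⟫_ℝ = ‖K.starProjection v‖ ^ 2 := by
  have h := Submodule.starProjection_inner_eq_zero (K := K) v _ (K.starProjection_apply_mem v)
  rw [inner_sub_left, real_inner_self_eq_norm_sq, real_inner_comm] at h
  linarith

theorem dim_top : dim (⊤ : Submodule ℝ (H G A)) = Fintype.card A := by
  have e : ((⊤ : Submodule ℝ (H G A)).map
      (toHP (G := G) (A := A)).toLinearMap).topologicalClosure = ⊤ := by
    rw [eq_top_iff]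
    intro v _
    exact Submodule.le_topologicalClosure _ ⟨toHP.symm v, trivial, by simp⟩
  unfold dim
  simp only [e, Submodule.starProjection_top', one_apply_eq_self, inner_bas_self]
  simp

theorem dim_bot : dim (⊥ : Submodule ℝ (H G A)) = 0 := by
  have e : ((⊥ : Submodule ℝ (H G A)).map
      (toHP (G := G) (A := A)).toLinearMap).topologicalClosure = ⊥ := by
    rw [Submodule.map_bot]
    exact IsClosed.submodule_topologicalClosure_eq (by simp)
  unfold dim
  simp only [e]
  simp

theorem dim_nonneg (W : Submodule ℝ (H G A)) : 0 ≤ dim W :=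
  Finset.sum_nonneg fun a _ => by
    rw [inner_starProjection_self]
    exact sq_nonneg _

theorem dim_mono {W₁ W₂ : Submodule ℝ (H G A)} (h : W₁ ≤ W₂) : dim W₁ ≤ dim W₂ :=
  Finset.sum_le_sum fun a _ => by
    rw [inner_starProjection_self, inner_starProjection_self]
    refine pow_le_pow_left₀ (norm_nonneg _) ?_ 2
    have h1 := Submodule.topologicalClosure_mono
      (Submodule.map_mono (f := (toHP (G := G) (A := A)).toLinearMap) h)
    rw [← Submodule.starProjection_comp_starProjection_of_le h1]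
    exact Submodule.norm_starProjection_apply_le _ _

theorem dim_closure (W : Submodule ℝ (H G A)) : dim W.topologicalClosure = dim W :=
  dim_congr_closure (Submodule.isClosed_topologicalClosure W).submodule_topologicalClosure_eq

theorem dimB_inner_rt (g : G) (ξ η : L2 G) : ⟪L2.rt g ξ, η⟫_ℝ = ⟪ξ, L2.rt g⁻¹ η⟫_ℝ := by
  have h1 := L2.hasSum_inner (L2.rt g ξ) η
  have h2 := ((Equiv.mulRight g).hasSum_iff (f := fun k => ξ.val k * (L2.rt g⁻¹ η).val k)).2
    (L2.hasSum_inner ξ (L2.rt g⁻¹ η))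
  refine h1.unique ?_
  simpa [Function.comp_def] using h2

/-- The right action on the Hilbert sum. -/
def dimB_U (A : Type) [Fintype A] (g : G) : HP G A →L[ℝ] HP G A :=
  (toHP (G := G) (A := A) : H G A →L[ℝ] HP G A).comp
    ((ContinuousLinearMap.pi fun a => (L2.rt g).comp (ContinuousLinearMap.proj a)).comp
      ((toHP (G := G) (A := A)).symm : HP G A →L[ℝ] H G A))

theorem dimB_U_toHP (g : G) (c : H G A) : dimB_U A g (toHP c) = toHP (rtH g c) := rfl

omit [Group G] in
theorem dimB_inner (c d : H G A) : ⟪toHP c, toHP d⟫_ℝ = ∑ a, ⟪c a, d a⟫_ℝ :=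
  PiLp.inner_apply _ _

theorem dimB_inner_bas (c : H G A) (g : G) (a : A) :
    ⟪toHP c, dimB_U A g (bas a)⟫_ℝ = (c a).val g⁻¹ := by
  classical
  unfold bas
  rw [dimB_U_toHP, dimB_inner, Finset.sum_eq_single a]
  · rw [real_inner_comm, rtH, dimB_inner_rt, real_inner_comm, Pi.single_eq_same, L2.inner_dirac,
      L2.val_rt, one_mul]
  · intro b _ hb
    rw [rtH, Pi.single_eq_of_ne hb, map_zero, inner_zero_right]
  · simp

/-- The Hilbert sum with the right action and the basis vectors. -/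
def dimB_sys (G A : Type) [Group G] [Fintype A] : HSys G (HP G A) A where
  U := dimB_U A
  e := bas
  adj := fun g x y => by
    obtain ⟨c, rfl⟩ := toHP.surjective x
    obtain ⟨d, rfl⟩ := toHP.surjective y
    rw [dimB_U_toHP, dimB_U_toHP, dimB_inner, dimB_inner]
    exact Finset.sum_congr rfl fun a _ => dimB_inner_rt g _ _
  parseval := fun x y => by
    obtain ⟨c, rfl⟩ := toHP.surjective x
    obtain ⟨d, rfl⟩ := toHP.surjective y
    rw [dimB_inner]
    refine Finset.sum_congr rfl fun a _ => ?_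
    simp only [real_inner_comm (toHP d), dimB_inner_bas]
    exact (L2.hasSum_inner _ _).tsum_eq.symm.trans
      ((Equiv.inv G).tsum_eq fun g => (c a).val g * (d a).val g).symm

omit [Group G] in
theorem dimB_mem {W : Submodule ℝ (H G A)} (hW : IsClosed (W : Set (H G A))) (c : H G A) :
    toHP c ∈ (W.map (toHP (G := G) (A := A)).toLinearMap).topologicalClosure ↔ c ∈ W := by
  have h1 : IsClosed ((W.map (toHP (G := G) (A := A)).toLinearMap : Submodule ℝ (HP G A)) :
      Set (HP G A)) := (toHP (G := G) (A := A)).isClosed_image.mpr hW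
  rw [h1.submodule_topologicalClosure_eq]
  constructor
  · rintro ⟨d, hd, h⟩
    rwa [← toHP.injective h]
  · exact fun h => ⟨c, h, rfl⟩

theorem dimB_inv {W : Submodule ℝ (H G A)} (hW : Inv W) (g : G) :
    ∀ x ∈ (W.map (toHP (G := G) (A := A)).toLinearMap).topologicalClosure,
      (dimB_sys G A).U g x ∈ (W.map (toHP (G := G) (A := A)).toLinearMap).topologicalClosure := by
  intro x hx
  obtain ⟨c, rfl⟩ := toHP.surjective x
  exact (dimB_mem hW.closed (rtH g c)).mpr (hW.inv g c ((dimB_mem hW.closed c).mp hx))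

/-- Faithfulness. -/
theorem eq_of_le_of_dim_le {W₁ W₂ : Submodule ℝ (H G A)} (h₁ : Inv W₁) (h₂ : Inv W₂)
    (h : W₁ ≤ W₂) (hd : dim W₂ ≤ dim W₁) : W₁ = W₂ := by
  have h3 := (dimB_sys G A).faithful _ _ (dimB_inv h₁) (dimB_inv h₂)
    (Submodule.topologicalClosure_mono (Submodule.map_mono h)) hd
  exact le_antisymm h fun c hc => (dimB_mem h₁.closed c).mp (h3 ((dimB_mem h₂.closed c).mpr hc))

/-- Rank-nullity. -/
theorem dim_eq_ker_add_map {W : Submodule ℝ (H G A)} (hW : Inv W) {T : H G A →L[ℝ] H G B}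
    (hT : Eqv T) :
    dim W = dim (W ⊓ LinearMap.ker (T : H G A →ₗ[ℝ] H G B)) +
      dim (W.map (T : H G A →ₗ[ℝ] H G B)) := by
  refine HSys.rank (X := dimB_sys G A) (Y := dimB_sys G B)
    (T := (toHP (G := G) (A := B) : H G B →L[ℝ] HP G B).comp
      (T.comp ((toHP (G := G) (A := A)).symm : HP G A →L[ℝ] H G A))) (fun g x => ?_) _ _ _
    (dimB_inv hW) (fun x => ?_) fun y => ?_
  · obtain ⟨c, rfl⟩ := toHP.surjective x
    exact congrArg toHP (hT g c)
  · obtain ⟨c, rfl⟩ := toHP.surjective x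
    rw [dimB_mem hW.closed, dimB_mem (hW.closed.inter T.isClosed_ker)]
    exact and_congr_right fun _ => (toHP (G := G) (A := B)).map_eq_zero_iff.symm
  · rw [Submodule.orthogonal_closure]
    constructor
    · intro h x hx
      obtain ⟨c, rfl⟩ := toHP.surjective x
      exact h _ ⟨T c, ⟨c, (dimB_mem hW.closed c).mp hx, rfl⟩, rfl⟩
    · rintro h _ ⟨_, ⟨c, hc, rfl⟩, rfl⟩
      exact h (toHP c) ((dimB_mem hW.closed c).mpr hc)

/-- Continuity along decreasing sequences. -/
theorem tendsto_dim_iInf {W : ℕ → Submodule ℝ (H G A)} (hW : ∀ n, Inv (W n))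
    (hanti : Antitone W) :
    Filter.Tendsto (fun n => dim (W n)) Filter.atTop (nhds (dim (⨅ n, W n))) := by
  refine tendsto_finsetSum _ fun a _ => ?_
  let U : ℕ → Submodule ℝ (HP G A) := fun n =>
    ((W n).map (toHP (G := G) (A := A)).toLinearMap).topologicalClosure
  have hU : Monotone fun n => (U n)ᗮ := fun m n h => Submodule.orthogonal_le
    (Submodule.topologicalClosure_mono (Submodule.map_mono (hanti h)))
  have h1 := Submodule.starProjection_tendsto_closure_iSup (fun n => (U n)ᗮ) hU (bas a)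
  have e : (⨆ n, (U n)ᗮ).topologicalClosure =
      (((⨅ n, W n).map (toHP (G := G) (A := A)).toLinearMap).topologicalClosure)ᗮ := by
    rw [← Submodule.orthogonal_orthogonal_eq_closure, ← Submodule.iInf_orthogonal]
    refine congrArg Submodule.orthogonal ?_
    have e1 : ∀ n, (U n)ᗮᗮ = (W n).map (toHP (G := G) (A := A)).toLinearMap := fun n => by
      rw [Submodule.orthogonal_orthogonal]
      simp only [U]
      rw [closure_map_toHP, (hW n).closed.submodule_topologicalClosure_eq]
    rw [closure_map_toHP, (Inv.iInf hW).closed.submodule_topologicalClosure_eq,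
      Submodule.map_iInf _ (toHP (G := G) (A := A)).injective]
    exact iInf_congr e1
  simp only [e, Submodule.starProjection_orthogonal_val] at h1
  have h2 := (tendsto_const_nhds (x := (bas a : HP G A))).sub h1
  simp only [sub_sub_cancel] at h2
  exact h2.inner tendsto_const_nhds

theorem dim_map_of_injOn {W : Submodule ℝ (H G A)} (hW : Inv W) {T : H G A →L[ℝ] H G B}
    (hT : Eqv T) (hinj : ∀ c ∈ W, T c = 0 → c = 0) :
    dim (W.map (T : H G A →ₗ[ℝ] H G B)) = dim W := by
  have h := dim_eq_ker_add_map hW hT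
  have e : W ⊓ LinearMap.ker (T : H G A →ₗ[ℝ] H G B) = ⊥ :=
    eq_bot_iff.mpr fun c hc => hinj c hc.1 hc.2
  rw [e, dim_bot, zero_add] at h
  exact h.symm

omit [Group G] [Fintype A] in
theorem ker_pi_unit (e : Fn G A) :
    LinearMap.ker ((ContinuousLinearMap.pi fun _ : Unit => e : H G A →L[ℝ] H G Unit) :
      H G A →ₗ[ℝ] H G Unit) = LinearMap.ker (e : H G A →ₗ[ℝ] L2 G) := by
  ext c
  exact ⟨fun h => congrFun h (), fun h => funext fun _ => h⟩

/-- One equation with dense range lowers the dimension by one. -/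
theorem dim_eq_ker_add_one {W : Submodule ℝ (H G A)} (hW : Inv W) {e : Fn G A} (he : EqvF e)
    (hd : Dense (e '' (W : Set (H G A)))) :
    dim W = dim (W ⊓ LinearMap.ker (e : H G A →ₗ[ℝ] L2 G)) + 1 := by
  have h := dim_eq_ker_add_map hW (Eqv.pi (φ := fun _ : Unit => e) fun _ => he)
  rw [ker_pi_unit, ← dim_closure (W.map _)] at h
  have e1 : (W.map ((ContinuousLinearMap.pi fun _ : Unit => e : H G A →L[ℝ] H G Unit) :
      H G A →ₗ[ℝ] H G Unit)).topologicalClosure = ⊤ := by
    rw [eq_top_iff]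
    intro v _
    have hc : Continuous fun ξ : L2 G => (fun _ : Unit => ξ : H G Unit) :=
      continuous_pi fun _ => continuous_id
    refine map_mem_closure hc (hd (v ())) ?_
    rintro _ ⟨c, hc, rfl⟩
    exact ⟨c, hc, rfl⟩
  rw [e1, dim_top] at h
  simpa using h

/-- One equation lowers the dimension by at most one. -/
theorem dim_le_ker_add_one {W : Submodule ℝ (H G A)} (hW : Inv W) {e : Fn G A} (he : EqvF e) :
    dim W ≤ dim (W ⊓ LinearMap.ker (e : H G A →ₗ[ℝ] L2 G)) + 1 := by
  have h := dim_eq_ker_add_map hW (Eqv.pi (φ := fun _ : Unit => e) fun _ => he)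
  rw [ker_pi_unit] at h
  have h2 := dim_mono (le_top : W.map ((ContinuousLinearMap.pi fun _ : Unit => e :
    H G A →L[ℝ] H G Unit) : H G A →ₗ[ℝ] H G Unit) ≤ ⊤)
  rw [dim_top] at h2
  simp only [Fintype.card_unique, Nat.cast_one] at h2
  linarith

/-- An injective equivariant map between tuples of the same size has dense range. -/
theorem denseRange_of_injective {T : H G B →L[ℝ] H G A} (hT : Eqv T)
    (hinj : Function.Injective T) (hc : Fintype.card A ≤ Fintype.card B) : DenseRange T := by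
  have h1 := dim_map_of_injOn Inv.top hT fun c _ hc => hinj (by rw [hc, map_zero])
  have h2 := eq_of_le_of_dim_le (Inv.top.closure_map hT) Inv.top le_top (by
    rw [dim_closure, h1, dim_top, dim_top]
    exact_mod_cast hc)
  have h3 := Submodule.dense_iff_topologicalClosure_eq_top.mpr h2
  refine h3.mono ?_
  rintro _ ⟨c, -, rfl⟩
  exact ⟨c, rfl⟩

/-- Range conditions for injective dense-range operators hold on a dense subset.
Proof: compare dimensions of `Z` and of the closed subspace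
`{(c, ξ) | c ∈ Z, ∀ i, ev i c = D i (ξ i)}` of `H G (A ⊕ ι)`. -/
theorem subset_closure_range_cond {ι : Type} [Fintype ι] {Z : Submodule ℝ (H G A)} (hZ : Inv Z)
    {ev : ι → Fn G A} (hev : ∀ i, EqvF (ev i)) {D : ι → L2 G →L[ℝ] L2 G}
    (hD : ∀ i, EqvL (D i)) (hinj : ∀ i, Function.Injective (D i))
    (hden : ∀ i, DenseRange (D i)) :
    (Z : Set (H G A)) ⊆ closure {c | c ∈ Z ∧ ∀ i, ∃ ξ, ev i c = D i ξ} := by
  let P : H G (A ⊕ ι) →L[ℝ] H G A :=
    ContinuousLinearMap.pi fun a => ContinuousLinearMap.proj (Sum.inl a)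
  have hP : Eqv P := Eqv.pi fun a => EqvF.proj _
  let T : H G (A ⊕ ι) →L[ℝ] H G ι := ContinuousLinearMap.pi fun i =>
    (ev i).comp P - (D i).comp (ContinuousLinearMap.proj (Sum.inr i))
  have hT : Eqv T := Eqv.pi fun i => ((hev i).comp hP).sub fun g c => hD i g _
  let Q : H G (A ⊕ ι) →L[ℝ] H G ι :=
    ContinuousLinearMap.pi fun i => ContinuousLinearMap.proj (Sum.inr i)
  have hQ : Eqv Q := Eqv.pi fun a => EqvF.proj _
  have hZ' := hZ.comap hP
  set Z' := Z.comap (P : H G (A ⊕ ι) →ₗ[ℝ] H G A) with hZ'd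
  have hker : ∀ {C : Type} {S : H G (A ⊕ ι) →L[ℝ] H G C}, Eqv S →
      Inv (Z' ⊓ LinearMap.ker (S : H G (A ⊕ ι) →ₗ[ℝ] H G C)) := fun {C S} hS =>
    hZ'.inf (Inv.bot.comap hS)
  have a1 := dim_eq_ker_add_map hZ' hT
  have a2 := dim_eq_ker_add_map hZ' hQ
  have e1 : (Z'.map (T : H G (A ⊕ ι) →ₗ[ℝ] H G ι)).topologicalClosure = ⊤ := by
    rw [← Submodule.dense_iff_topologicalClosure_eq_top]
    refine (DenseRange.piMap hden).mono ?_
    rintro _ ⟨ξ, rfl⟩
    refine ⟨Sum.elim 0 (-ξ), ?_, ?_⟩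
    · show P _ ∈ Z
      exact Z.zero_mem
    · funext i
      show ev i 0 - D i (-ξ i) = D i (ξ i)
      simp
  have e2 : Z'.map (Q : H G (A ⊕ ι) →ₗ[ℝ] H G ι) = ⊤ := by
    rw [eq_top_iff]
    intro ξ _
    refine ⟨Sum.elim 0 ξ, ?_, rfl⟩
    show P _ ∈ Z
    exact Z.zero_mem
  rw [← dim_closure (Z'.map _), e1] at a1
  rw [e2] at a2
  have a3 := dim_map_of_injOn (hker hQ) hP fun c hc h0 => by
    funext x
    rcases x with a | i
    · exact congrFun h0 a
    · exact congrFun hc.2 i
  have e3 : (Z' ⊓ LinearMap.ker (Q : H G (A ⊕ ι) →ₗ[ℝ] H G ι)).map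
      (P : H G (A ⊕ ι) →ₗ[ℝ] H G A) = Z := by
    refine le_antisymm ?_ fun c hc => ⟨Sum.elim c 0, ⟨hc, rfl⟩, rfl⟩
    rintro _ ⟨c, hc, rfl⟩
    exact hc.1
  have a4 := dim_map_of_injOn (hker hT) hP fun c hc h0 => by
    funext x
    rcases x with a | i
    · exact congrFun h0 a
    · have h1 : ev i (P c) - D i (c (Sum.inr i)) = 0 := congrFun hc.2 i
      rw [h0, map_zero, zero_sub, neg_eq_zero] at h1
      exact hinj i (h1.trans (map_zero _).symm)
  rw [e3] at a3
  have a5 := eq_of_le_of_dim_le ((hker hT).closure_map hP) hZ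
    (Submodule.topologicalClosure_minimal _ (by
      rintro _ ⟨c, hc, rfl⟩
      exact hc.1) hZ.closed) (by
      rw [dim_closure]
      linarith)
  rw [← a5, Submodule.topologicalClosure_coe]
  refine closure_mono ?_
  rintro _ ⟨c, hc, rfl⟩
  refine ⟨Submodule.le_topologicalClosure _ ⟨c, hc, rfl⟩, fun i => ⟨c (Sum.inr i), ?_⟩⟩
  have h1 : ev i (P c) - D i (c (Sum.inr i)) = 0 := congrFun hc.2 i
  exact sub_eq_zero.mp h1

/-- The integrality argument that ends the proof. -/
theorem exists_eq_iInf_of_int {Z : ℕ → Submodule ℝ (H G A)} (hZ : ∀ n, Inv (Z n))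
    (hanti : Antitone Z) {W : ℕ → Submodule ℝ (H G A)} (hW : ∀ n, Inv (W n))
    (h1 : ∀ n, (⨅ m, Z m) ≤ W n) (h2 : ∀ n, W n ≤ Z n) (h3 : ∀ n, ∃ m : ℕ, dim (W n) = m) :
    ∃ n, W n = ⨅ m, Z m := by
  have ht := tendsto_dim_iInf hZ hanti
  obtain ⟨N, hN⟩ := Filter.eventually_atTop.mp
    (ht.eventually (gt_mem_nhds (lt_add_one (dim (⨅ m, Z m)))))
  obtain ⟨m0, hm0⟩ := h3 N
  have hle : ∀ n, N ≤ n → dim (W n) = m0 := fun n hn => by
    obtain ⟨m, hm⟩ := h3 n
    have b1 := dim_mono (h1 n)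
    have b2 := (dim_mono (h2 n)).trans_lt (hN n hn)
    have b3 := dim_mono (h1 N)
    have b4 := (dim_mono (h2 N)).trans_lt (hN N le_rfl)
    have c1 : (m : ℝ) < m0 + 1 := by linarith
    have c2 : (m0 : ℝ) < m + 1 := by linarith
    have c3 : m < m0 + 1 := by exact_mod_cast c1
    have c4 : m0 < m + 1 := by exact_mod_cast c2
    rw [hm, show m = m0 by omega]
  have h4 : (m0 : ℝ) ≤ dim (⨅ m, Z m) := ge_of_tendsto ht
    (Filter.eventually_atTop.mpr ⟨N, fun n hn => (hle n hn).symm.le.trans (dim_mono (h2 n))⟩)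
  exact ⟨N, (eq_of_le_of_dim_le (Inv.iInf hZ) (hW N) (h1 N) (hm0.le.trans h4)).symm⟩

end

end Pool.Agent.Lib.MP_d87150_al
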