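import Pool.Agent.Lib.MP_d87150_al.LTree

/-!
# Chiswell's construction: a free Lyndon length function gives a free action on a tree
-/

set_option autoImplicit false

noncomputable section

namespace Pool.Agent.Lib.MP_d87150_al

section
variable {Λ G : Type} [AddCommGroup Λ] [LinearOrder Λ] [IsOrderedAddMonoid Λ] [Group G]

/-- A left invariant tree-like pseudometric on a group. -/
structure LynD (Λ G : Type) [AddCommGroup Λ] [LinearOrder Λ] [Group G] where
  D : G → G → Λ
  self : ∀ a, D a a = 0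
  comm : ∀ a b, D a b = D b a
  inv : ∀ k a b, D (k * a) (k * b) = D a b
  four : ∀ a b c e, D a b + D c e ≤ max (D a c + D b e) (D a e + D b c)
  half : ∀ a b, ∃ c, c + c = D 1 a + D 1 b - D a b

namespace LynD

variable (X : LynD Λ G)

def Rep (f : G → Λ) (a b : G) (s t : Λ) : Prop :=
  0 ≤ s ∧ 0 ≤ t ∧ s + t = X.D a b ∧ ∀ h, f h = max (X.D a h - s) (X.D b h - t)

def Pt : Type := {f : G → Λ // ∃ a b s t, X.Rep f a b s t}

instance : MulAction G X.Pt where
  smul k f := ⟨fun h => f.1 (k⁻¹ * h), by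
    obtain ⟨a, b, s, t, h1, h2, h3, h4⟩ := f.2
    refine ⟨k * a, k * b, s, t, h1, h2, by rw [X.inv, h3], fun h => ?_⟩
    show f.1 (k⁻¹ * h) = _
    rw [h4, ← X.inv k a, ← X.inv k b, mul_inv_cancel_left]⟩
  one_smul f := Subtype.ext (funext fun h => by
    show f.1 (1⁻¹ * h) = f.1 h
    simp)
  mul_smul k l f := Subtype.ext (funext fun h => by
    show f.1 ((k * l)⁻¹ * h) = f.1 (l⁻¹ * (k⁻¹ * h))
    simp [mul_assoc])

theorem smul_val (k : G) (f : X.Pt) (h : G) : (k • f).1 h = f.1 (k⁻¹ * h) := rfl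

theorem Rep.smul {X : LynD Λ G} {f : X.Pt} {a b : G} {s t : Λ} (hr : X.Rep f.1 a b s t) (k : G) :
    X.Rep (k • f).1 (k * a) (k * b) s t := by
  obtain ⟨h1, h2, h3, h4⟩ := hr
  refine ⟨h1, h2, by rw [X.inv, h3], fun h => ?_⟩
  rw [smul_val, h4, ← X.inv k a, ← X.inv k b, mul_inv_cancel_left]

theorem nonneg (a b : G) : 0 ≤ X.D a b := by
  have h1 := X.four a a b b
  have h2 := X.self a
  have h3 := X.self b
  grind

theorem tri (a b c : G) : X.D a c ≤ X.D a b + X.D b c := by
  have h1 := X.four a c b b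
  have h2 := X.self b
  have h3 := X.comm c b
  grind

theorem exists_root (f : X.Pt) : ∃ g s t, X.Rep f.1 1 g s t := by
  obtain ⟨a, b, s, t, h1, h2, h3, h4⟩ := f.2
  rcases le_total (s + s) (X.D 1 a + X.D a b - X.D 1 b) with hle | hle
  · refine ⟨a, X.D 1 a - s, s, ?_, h1, by abel, fun h => ?_⟩
    · have := X.tri a 1 b
      have := X.comm a 1
      grind
    · rw [h4]
      have e1 := X.four 1 h a b
      have e2 := X.four b h a 1
      have e3 := X.comm b a
      have e4 := X.comm b 1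
      have e5 := X.comm h a
      have e6 := X.comm h b
      have e7 := X.comm h 1
      have e8 := X.comm a 1
      grind
  · refine ⟨b, X.D 1 b - t, t, ?_, h2, by abel, fun h => ?_⟩
    · have := X.tri a 1 b
      have := X.comm a 1
      grind
    · rw [h4]
      have e1 := X.four 1 h a b
      have e2 := X.four a h b 1
      have e3 := X.comm b a
      have e4 := X.comm b 1
      have e5 := X.comm h a
      have e6 := X.comm h b
      have e7 := X.comm h 1
      have e8 := X.comm a 1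
      grind

/-- The distance. -/
def d (f f' : X.Pt) : Λ :=
  max (f.1 f'.2.choose - f'.2.choose_spec.choose_spec.choose)
    (f.1 f'.2.choose_spec.choose - f'.2.choose_spec.choose_spec.choose_spec.choose)

theorem d_left {f : X.Pt} {a b : G} {s t : Λ} (hr : X.Rep f.1 a b s t) (f' : X.Pt) :
    X.d f f' = max (f'.1 a - s) (f'.1 b - t) := by
  have h := f'.2.choose_spec.choose_spec.choose_spec.choose_spec
  unfold d
  set a' := f'.2.choose
  set b' := f'.2.choose_spec.choose
  set s' := f'.2.choose_spec.choose_spec.choose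
  set t' := f'.2.choose_spec.choose_spec.choose_spec.choose
  rw [hr.2.2.2 a', hr.2.2.2 b', h.2.2.2 a, h.2.2.2 b, X.comm a' a, X.comm a' b, X.comm b' a,
    X.comm b' b]
  grind

theorem d_smul (k : G) (f f' : X.Pt) : X.d (k • f) (k • f') = X.d f f' := by
  obtain ⟨a, b, s, t, hr⟩ := f.2
  rw [X.d_left (hr.smul k), X.d_left hr, smul_val, smul_val, inv_mul_cancel_left,
    inv_mul_cancel_left]

def c (a b : G) : Λ := (X.half a b).choose

theorem c_spec (a b : G) : X.c a b + X.c a b = X.D 1 a + X.D 1 b - X.D a b :=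
  (X.half a b).choose_spec

theorem d_root {f f' : X.Pt} {g g' : G} {s t s' t' : Λ} (hr : X.Rep f.1 1 g s t)
    (hr' : X.Rep f'.1 1 g' s' t') :
    X.d f f' = s + s' - (min s (min s' (X.c g g')) + min s (min s' (X.c g g'))) := by
  rw [X.d_left hr, hr'.2.2.2, hr'.2.2.2]
  have e1 := X.c_spec g g'
  have e2 := X.self 1
  have e3 := X.comm g' 1
  have e4 := X.comm g' g
  obtain ⟨h1, h2, h3, -⟩ := hr
  obtain ⟨h1', h2', h3', -⟩ := hr'
  grind

theorem val_root {f : X.Pt} {g : G} {s t : Λ} (hr : X.Rep f.1 1 g s t) : f.1 1 = s := by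
  rw [hr.2.2.2]
  have e2 := X.self 1
  have e3 := X.comm g 1
  obtain ⟨h1, h2, h3, -⟩ := hr
  grind

def C (f f' : X.Pt) : Λ :=
  min (f.1 1) (min (f'.1 1) (X.c (X.exists_root f).choose (X.exists_root f').choose))

theorem C_spec (f f' : X.Pt) : X.C f f' + X.C f f' = f.1 1 + f'.1 1 - X.d f f' := by
  obtain ⟨s, t, hr⟩ := (X.exists_root f).choose_spec
  obtain ⟨s', t', hr'⟩ := (X.exists_root f').choose_spec
  rw [X.d_root hr hr', C, X.val_root hr, X.val_root hr']
  abel

theorem C_root {f f' : X.Pt} {g g' : G} {s t s' t' : Λ} (hr : X.Rep f.1 1 g s t)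
    (hr' : X.Rep f'.1 1 g' s' t') : X.C f f' = min s (min s' (X.c g g')) := by
  have h := X.C_spec f f'
  rw [X.d_root hr hr', X.val_root hr, X.val_root hr'] at h
  grind

theorem c_self (g : G) : X.c g g = X.D 1 g := by
  have := X.c_spec g g
  have := X.self g
  grind

theorem c_comm (g h : G) : X.c g h = X.c h g := by
  have := X.c_spec g h
  have := X.c_spec h g
  have := X.comm g h
  grind

theorem c_nonneg (g h : G) : 0 ≤ X.c g h := by
  have := X.c_spec g h
  have := X.tri g 1 h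
  have := X.comm g 1
  grind

theorem c_ultra (g h k : G) : min (X.c g k) (X.c h k) ≤ X.c g h := by
  have := X.c_spec g h
  have := X.c_spec g k
  have := X.c_spec h k
  have := X.four g h k 1
  have := X.comm g 1
  have := X.comm h 1
  have := X.comm k 1
  grind

theorem C_self {f : X.Pt} {g : G} {s t : Λ} (hr : X.Rep f.1 1 g s t) : X.C f f = s := by
  rw [X.C_root hr hr, X.c_self]
  obtain ⟨h1, h2, h3, -⟩ := hr
  grind

theorem exists_tree : ∃ 𝒯 : LTree Λ X.Pt, ∀ x y, 𝒯.d x y = X.d x y := by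
  refine (LTree.exists_ofRooted X.C (fun x y => ?_) (fun x y => ?_) (fun x y => ?_)
    (fun x y z => ?_) (fun x y h1 h2 => ?_) (fun x u h1 h2 => ?_)).imp fun 𝒯 h x y => ?_
  rotate_right
  · obtain ⟨g, s, t, hr⟩ := X.exists_root x
    obtain ⟨g', s', t', hr'⟩ := X.exists_root y
    rw [h, X.C_spec x y, X.C_self hr, X.C_self hr', X.val_root hr, X.val_root hr']
    abel
  · obtain ⟨g, s, t, hr⟩ := X.exists_root x
    obtain ⟨g', s', t', hr'⟩ := X.exists_root y
    rw [X.C_root hr hr', X.C_root hr' hr, X.c_comm g' g]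
    grind
  · obtain ⟨g, s, t, hr⟩ := X.exists_root x
    obtain ⟨g', s', t', hr'⟩ := X.exists_root y
    rw [X.C_root hr hr']
    exact le_min hr.1 (le_min hr'.1 (X.c_nonneg _ _))
  · obtain ⟨g, s, t, hr⟩ := X.exists_root x
    obtain ⟨g', s', t', hr'⟩ := X.exists_root y
    rw [X.C_root hr hr', X.C_self hr]
    exact min_le_left _ _
  · obtain ⟨g, s, t, hr⟩ := X.exists_root x
    obtain ⟨g', s', t', hr'⟩ := X.exists_root y
    obtain ⟨g'', s'', t'', hr''⟩ := X.exists_root z
    rw [X.C_root hr hr', X.C_root hr hr'', X.C_root hr' hr'']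
    have := X.c_ultra g g' g''
    grind
  · obtain ⟨g, s, t, hr⟩ := X.exists_root x
    obtain ⟨g', s', t', hr'⟩ := X.exists_root y
    rw [X.C_root hr hr', X.C_self hr] at h1
    rw [X.C_root hr hr', X.C_self hr'] at h2
    refine Subtype.ext (funext fun h => ?_)
    rw [hr.2.2.2, hr'.2.2.2]
    have e1 := X.c_spec g h
    have e2 := X.c_spec g' h
    have e3 := X.c_ultra g h g'
    have e4 := X.c_ultra g' h g
    have e5 := X.c_comm g' g
    have e6 := X.c_comm h g
    have e7 := X.c_comm h g'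
    obtain ⟨-, -, h3, -⟩ := hr
    obtain ⟨-, -, h3', -⟩ := hr'
    grind
  · obtain ⟨g, s, t, hr⟩ := X.exists_root x
    rw [X.C_self hr] at h2
    have hm : X.Rep (fun h => max (X.D 1 h - u) (X.D g h - (X.D 1 g - u))) 1 g u (X.D 1 g - u) := by
      obtain ⟨h3, h4, h5, -⟩ := hr
      exact ⟨h1, by grind, by abel, fun _ => rfl⟩
    refine ⟨⟨_, _, _, _, _, hm⟩, fun y => ?_⟩
    obtain ⟨g', s', t', hr'⟩ := X.exists_root y
    rw [X.C_root (f := ⟨_, _, _, _, _, hm⟩) hm hr', X.C_root hr hr']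
    grind

/-- The base point. -/
def base : X.Pt := ⟨fun h => X.D 1 h, 1, 1, 0, 0, le_rfl, le_rfl, by rw [X.self, add_zero],
  fun h => by simp⟩

theorem d_base (g : G) : X.d X.base (g • X.base) = X.D 1 g := by
  have hr : X.Rep X.base.1 1 1 0 0 := ⟨le_rfl, le_rfl, by rw [X.self, add_zero], fun h => by
    simp [base]⟩
  rw [X.d_left hr, smul_val]
  show max (X.D 1 (g⁻¹ * 1) - 0) (X.D 1 (g⁻¹ * 1) - 0) = _
  rw [max_self, sub_zero, ← X.inv g, mul_one, mul_one, mul_inv_cancel, X.comm]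

end LynD

end

theorem exists_tree_of_length {Λ G : Type} [AddCommGroup Λ] [LinearOrder Λ]
    [IsOrderedAddMonoid Λ] [Group G] (ℓ : G → Λ) (h1 : ℓ 1 = 0) (h2 : ∀ g : G, ℓ g⁻¹ = ℓ g)
    (h3 : ∀ g f h : G, min (ℓ g + ℓ h - ℓ (g⁻¹ * h)) (ℓ f + ℓ h - ℓ (f⁻¹ * h))
      ≤ ℓ g + ℓ f - ℓ (g⁻¹ * f))
    (h4 : ∀ g f : G, ∃ c : Λ, c + c = ℓ g + ℓ f - ℓ (g⁻¹ * f))
    (h5 : ∀ g : G, g ≠ 1 → ℓ g < ℓ (g * g)) :
    ∃ (T : Type) (_ : MulAction G T) (𝒯 : LTree Λ T),
      Nonempty T ∧ 𝒯.Iso G ∧ ∀ g : G, g ≠ 1 → 𝒯.Hyp g := by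
  have hc : ∀ a b : G, ℓ (a⁻¹ * b) = ℓ (b⁻¹ * a) := fun a b => by
    rw [← h2]
    simp
  let X : LynD Λ G :=
    { D := fun a b => ℓ (a⁻¹ * b)
      self := fun a => by simp [h1]
      comm := hc
      inv := fun k a b => by simp [mul_assoc]
      four := fun a b c e => by
        have := h3 (e⁻¹ * a) (e⁻¹ * b) (e⁻¹ * c)
        simp only [mul_inv_rev, inv_inv, mul_assoc, mul_inv_cancel_left] at this
        have := hc e a
        have := hc e b
        have := hc e c
        grind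
      half := fun a b => by simpa using h4 a b }
  obtain ⟨𝒯, h⟩ := X.exists_tree
  have hI : 𝒯.Iso G := fun g x y => by rw [h, h, X.d_smul]
  refine ⟨X.Pt, inferInstance, 𝒯, ⟨X.base⟩, hI, fun g hg => LTree.hyp_of_lt hI (p := X.base) ?_⟩
  rw [h, h, ← mul_smul, X.d_base, X.d_base]
  simpa [X] using h5 g hg

end Pool.Agent.Lib.MP_d87150_al
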