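import Pool.Agent.Lib.MP_d87150_al.Init
import Pool.Agent.Lib.MP_d87150_al.Lyndon

/-!
# Groups with a free Lyndon length function are finitely presented
-/

set_option autoImplicit false

noncomputable section

namespace Pool.Agent.Lib.MP_d87150_al

theorem final (Λ : Type) [AddCommGroup Λ] [LinearOrder Λ] [IsOrderedAddMonoid Λ]
    (G : Type) [Group G] [Group.FG G] (ℓ : G → Λ) (h1 : ℓ 1 = 0) (h2 : ∀ g : G, ℓ g⁻¹ = ℓ g)
    (h3 : ∀ g f h : G, min (ℓ g + ℓ h - ℓ (g⁻¹ * h)) (ℓ f + ℓ h - ℓ (f⁻¹ * h))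
      ≤ ℓ g + ℓ f - ℓ (g⁻¹ * f))
    (h4 : ∀ g f : G, ∃ c : Λ, c + c = ℓ g + ℓ f - ℓ (g⁻¹ * f))
    (h5 : ∀ g : G, g ≠ 1 → ℓ g < ℓ (g * g)) :
    ∃ (n : ℕ) (rels : Finset (FreeGroup (Fin n))),
      Nonempty (G ≃* PresentedGroup (rels : Set (FreeGroup (Fin n)))) := by
  let ι : Λ →+ DivisibleHull Λ := DivisibleHull.coeAddMonoidHom Λ
  have hmono : Monotone ι := (DivisibleHull.coeOrderAddMonoidHom Λ).monotone'
  have hinj : Function.Injective ι := DivisibleHull.coe_injective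
  have hs : StrictMono ι := hmono.strictMono_of_injective hinj
  obtain ⟨T, inst, 𝒯, hne, hI, hH⟩ := exists_tree_of_length (fun g => ι (ℓ g))
    (by simp only [h1, map_zero]) (fun g => by simp only [h2])
    (fun g f h => by
      have := hmono (h3 g f h)
      rw [hmono.map_min] at this
      simpa only [map_sub, map_add] using this)
    (fun g f => by
      obtain ⟨c, hc⟩ := h4 g f
      exact ⟨ι c, by rw [← map_add, hc, map_sub, map_add]⟩)
    (fun g hg => hs (h5 g hg))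
  have hfp : Group.IsFinitelyPresented G := isFinitelyPresented_of_tree hI hH
  obtain ⟨n, s, hfin, he⟩ := hfp.exists_mulEquiv_presentedGroup
  refine ⟨n, hfin.toFinset, ?_⟩
  rw [hfin.coe_toFinset]
  exact he

end Pool.Agent.Lib.MP_d87150_al
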