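import Pool.Agent.Lib.MP_d87150_al.LTree
import Pool.Agent.Lib.MP_d87150_al.Coc

/-!
# Groups acting freely on `Λ`-trees are `Nice`
-/

set_option autoImplicit false

noncomputable section

namespace Pool.Agent.Lib.MP_d87150_al

open LTree

variable {Λ T G : Type} [AddCommGroup Λ] [LinearOrder Λ] [IsOrderedAddMonoid Λ] [Group G]
  [MulAction G T] {𝒯 : LTree Λ T}

theorem eq_one_of_smul_eq (hH : ∀ g : G, g ≠ 1 → 𝒯.Hyp g) {g : G} {p : T} (h : g • p = p) :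
    g = 1 := by
  by_contra hg
  exact (hH g hg).1 p h

theorem ft_pos {g : G} (hg : 𝒯.Hyp g) (p : T) : 0 < 𝒯.d p (g • p) :=
  lt_of_le_of_ne (𝒯.d_nonneg _ _) fun h => hg.1 p (𝒯.eq_of_d _ _ h.symm).symm

theorem ft_tf (hI : 𝒯.Iso G) (hH : ∀ g : G, g ≠ 1 → 𝒯.Hyp g) (x : G) (hx : x ≠ 1) :
    ¬ IsOfFinOrder x := by
  intro h
  obtain ⟨n, hn, h1⟩ := isOfFinOrder_iff_pow_eq_one.1 h
  obtain ⟨p, hp⟩ := (hH x hx).2
  have h2 := d_zpow_smul hI (hH x hx) hp (n : ℤ)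
  rw [zpow_natCast, h1, one_smul] at h2
  have h3 := abs_sd (𝒯 := 𝒯) x p p
  rw [𝒯.d_self, abs_eq_zero, h2, natCast_zsmul] at h3
  exact (nsmul_pos (ft_pos (hH x hx) p) hn.ne').ne' h3

theorem ft_transl (hI : 𝒯.Iso G) (hH : ∀ g : G, g ≠ 1 → 𝒯.Hyp g) {x : G} (hx : x ≠ 1) :
    ∃ τ : Subgroup.centralizer ({x} : Set G) →* Multiplicative Λ, Function.Injective τ ∧
      ∀ (h : Subgroup.centralizer ({x} : Set G)), ∀ p ∈ 𝒯.Ax x,
        |Multiplicative.toAdd (τ h)| = 𝒯.d p ((h : G) • p) := by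
  obtain ⟨τ, hτ⟩ := exists_transl hI (hH x hx)
  have key : ∀ (h : Subgroup.centralizer ({x} : Set G)), ∀ p ∈ 𝒯.Ax x,
      |Multiplicative.toAdd (τ h)| = 𝒯.d p ((h : G) • p) := fun h p hp => by
    rw [hτ h p hp, abs_sd]
  refine ⟨τ, (injective_iff_map_eq_one τ).2 fun h h1 => ?_, key⟩
  obtain ⟨p, hp⟩ := (hH x hx).2
  have := key h p hp
  rw [h1, toAdd_one, abs_zero] at this
  exact Subtype.ext (eq_one_of_smul_eq hH (𝒯.eq_of_d _ _ this.symm).symm)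

theorem ft_ct (hI : 𝒯.Iso G) (hH : ∀ g : G, g ≠ 1 → 𝒯.Hyp g) (x y z : G) (hx : x ≠ 1)
    (hy : Commute x y) (hz : Commute x z) : Commute y z := by
  obtain ⟨τ, hinj, -⟩ := ft_transl hI hH hx
  let y' : Subgroup.centralizer ({x} : Set G) :=
    ⟨y, Subgroup.mem_centralizer_singleton_iff.2 hy.symm.eq⟩
  let z' : Subgroup.centralizer ({x} : Set G) :=
    ⟨z, Subgroup.mem_centralizer_singleton_iff.2 hz.symm.eq⟩
  have : y' * z' = z' * y' := hinj (by rw [map_mul, map_mul, mul_comm])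
  exact congrArg Subtype.val this

theorem ft_len (hI : 𝒯.Iso G) (hH : ∀ g : G, g ≠ 1 → 𝒯.Hyp g) {x : G} (hx : x ≠ 1) (g : G)
    {p q : T} (hp : p ∈ 𝒯.Ax x) (hq : q ∈ 𝒯.Ax (g * x * g⁻¹)) :
    𝒯.d q ((g * x * g⁻¹) • q) = 𝒯.d p (x • p) := by
  have hx' : g * x * g⁻¹ ≠ 1 := fun h => hx (by simpa using h)
  rw [d_smul_eq_of_mem_ax hI (hH _ hx') hq ((mem_ax_conj hI x g p).2 hp), mul_smul, inv_smul_smul,
    mul_smul, hI]

theorem ft_mal (hI : 𝒯.Iso G) (hH : ∀ g : G, g ≠ 1 → 𝒯.Hyp g) (x g : G) (hx : x ≠ 1)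
    (hc : Commute x (g * x * g⁻¹)) : Commute x g := by
  obtain ⟨τ, hinj, hτ⟩ := ft_transl hI hH hx
  obtain ⟨p, hp⟩ := (hH x hx).2
  let x₀ : Subgroup.centralizer ({x} : Set G) :=
    ⟨x, Subgroup.mem_centralizer_singleton_iff.2 rfl⟩
  let x' : Subgroup.centralizer ({x} : Set G) :=
    ⟨g * x * g⁻¹, Subgroup.mem_centralizer_singleton_iff.2 hc.symm.eq⟩
  have h1 : |Multiplicative.toAdd (τ x')| = |Multiplicative.toAdd (τ x₀)| := by
    rw [hτ x' p hp, hτ x₀ p hp]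
    exact ft_len hI hH hx g hp (ax_subset_of_commute hI (hH x hx) hc hp)
  rcases abs_eq_abs.1 h1 with h2 | h2
  · have h3 : g * x * g⁻¹ = x := congrArg Subtype.val (hinj (Multiplicative.toAdd.injective h2))
    exact (mul_inv_eq_iff_eq_mul.1 h3).symm
  · rw [← toAdd_inv, ← map_inv] at h2
    have h3 : g * x * g⁻¹ = x⁻¹ := congrArg Subtype.val (hinj (Multiplicative.toAdd.injective h2))
    by_cases hg : g = 1
    · rw [hg]
      exact Commute.one_right x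
    have h4 : g * g ≠ 1 := fun h => ft_tf hI hH g hg
      (isOfFinOrder_iff_pow_eq_one.2 ⟨2, two_pos, by rw [pow_two, h]⟩)
    refine ft_ct hI hH (g * g) x g h4 ?_ ((Commute.refl g).mul_left (Commute.refl g))
    have h5 : g * x⁻¹ * g⁻¹ = x := by
      have := congrArg (·⁻¹) h3
      simpa [mul_assoc] using this
    show g * g * x = x * (g * g)
    calc g * g * x = g * (g * x * g⁻¹) * g⁻¹ * (g * g) := by group
      _ = x * (g * g) := by rw [h3, h5]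

theorem ft_btw_of_sd (hI : 𝒯.Iso G) {a : G} (ha : 𝒯.Hyp a) {p q r : T} (hp : p ∈ 𝒯.Ax a)
    (hq : q ∈ 𝒯.Ax a) (hr : r ∈ 𝒯.Ax a)
    (h : (0 ≤ 𝒯.sd a p q ∧ 𝒯.sd a p q ≤ 𝒯.sd a p r) ∨
      (𝒯.sd a p q ≤ 0 ∧ 𝒯.sd a p r ≤ 𝒯.sd a p q)) : 𝒯.Btw p q r := by
  have h1 := sd_add hI ha hp hq hr
  unfold LTree.Btw
  rw [← abs_sd a p q, ← abs_sd a q r, ← abs_sd a p r]
  grind

theorem ft_pp (hI : 𝒯.Iso G) {a : G} (ha : 𝒯.Hyp a) {q : T} (hq : q ∈ 𝒯.Ax a) {z : T}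
    (hz : ¬ 𝒯.Btw q (a⁻¹ • q) z) : 𝒯.Btw q (a • q) ((a * a) • z) := by
  obtain ⟨m, hm, hpr, -⟩ := exists_proj hI ha z
  have hα := ft_pos ha q
  have e1 : 𝒯.sd a q (a⁻¹ • q) = -𝒯.d q (a • q) := by
    simpa using d_zpow_smul hI ha hq (-1)
  have e2 : 𝒯.sd a q (a • q) = 𝒯.d q (a • q) := sd_smul_self hI ha hq
  have hc2 : Commute a (a * a) := (Commute.refl a).mul_right (Commute.refl a)
  have hm2 : (a * a) • m ∈ 𝒯.Ax a := smul_mem_ax hI hc2 hm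
  have e3 : 𝒯.sd a m ((a * a) • m) = 𝒯.d q (a • q) + 𝒯.d q (a • q) := by
    have := d_zpow_smul hI ha hm 2
    rw [zpow_two, two_zsmul, d_smul_eq_of_mem_ax hI ha hm hq] at this
    exact this
  have e4 := sd_add hI ha hq hm hm2
  have h1 : -𝒯.d q (a • q) < 𝒯.sd a q m := by
    by_contra hc
    refine hz ((hpr q hq).symm.left (ft_btw_of_sd hI ha hq
      (smul_mem_ax hI (Commute.refl a).inv_right hq) hm (Or.inr ?_))).1
    grind
  have h2 : 𝒯.Btw q ((a * a) • m) ((a * a) • z) := by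
    have := hI.btw (a * a) (hpr _ (smul_mem_ax hI hc2.inv_right hq))
    rw [smul_inv_smul] at this
    exact this.symm
  refine (h2.left (ft_btw_of_sd hI ha hq (smul_mem_ax hI (Commute.refl a) hq) hm2 (Or.inl ?_))).1
  grind

theorem ft_d_inv (hI : 𝒯.Iso G) (a : G) (q : T) : 𝒯.d q (a⁻¹ • q) = 𝒯.d q (a • q) := by
  rw [← hI a, smul_inv_smul, 𝒯.d_comm]

theorem ft_cross (hH : ∀ g : G, g ≠ 1 → 𝒯.Hyp g) {b b' : G} {q q' z : T} (hb : b ≠ b')
    (hpos : 0 < 𝒯.d q (b • q)) (hlen : 𝒯.d q' (b' • q') = 𝒯.d q (b • q))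
    (h1 : 𝒯.Btw q' q (b • q)) (h2 : 𝒯.Btw q q' (b' • q')) (h3 : 𝒯.Btw q (b • q) z)
    (h4 : 𝒯.Btw q' (b' • q') z) : False := by
  by_cases hq : q = q'
  · subst hq
    have := h3.unique h4 hlen.symm
    exact hb (inv_mul_eq_one.1 (eq_one_of_smul_eq hH (p := q)
      (by rw [mul_smul, ← this, inv_smul_smul])))
  have h5 : q' ≠ b' • q' := fun h => by
    rw [← h, 𝒯.d_self] at hlen
    exact hpos.ne hlen
  have h6 := (h2.trans h4 h5).1
  have h7 : 0 < 𝒯.d q q' := lt_of_le_of_ne (𝒯.d_nonneg _ _) fun h => hq (𝒯.eq_of_d _ _ h.symm)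
  have c1 := 𝒯.d_comm q q'
  have c2 := 𝒯.d_comm q' (b • q)
  unfold LTree.Btw at h1
  rcases le_total (𝒯.d q (b • q)) (𝒯.d q q') with h | h
  · have := (h3.order h6 h).1
    unfold LTree.Btw at this
    grind
  · have := (h6.order h3 h).1
    unfold LTree.Btw at this
    grind

theorem ft_same (hI : 𝒯.Iso G) {a : G} (ha : 𝒯.Hyp a) {q z : T} (hq : q ∈ 𝒯.Ax a)
    (h1 : 𝒯.Btw q (a • q) z) (h2 : 𝒯.Btw q (a⁻¹ • q) z) : False := by
  have h3 := h1.unique h2 (ft_d_inv hI a q).symm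
  have h4 : 𝒯.d q (a • a • q) = 𝒯.d q (a • q) + 𝒯.d q (a • q) := hq
  have h5 := ft_pos ha q
  rw [show a • a • q = q by rw [h3, smul_inv_smul], 𝒯.d_self] at h4
  grind

theorem nice_of_free (hI : 𝒯.Iso G) (hH : ∀ g : G, g ≠ 1 → 𝒯.Hyp g) : Nice G := by
  refine ⟨ft_tf hI hH, ft_ct hI hH, ft_mal hI hH, fun x y hxy => ?_⟩
  have hx : x ≠ 1 := fun h => hxy (h ▸ Commute.one_left y)
  have hx' : y * x * y⁻¹ ≠ 1 := fun h => hx (by simpa using h)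
  have hnc : ¬ Commute x (y * x * y⁻¹) := fun h => hxy (ft_mal hI hH x y hx h)
  set a' := y * x * y⁻¹ with ha'
  obtain ⟨p', hp'⟩ := (hH a' hx').2
  obtain ⟨q, hq, hq1, -⟩ := exists_proj hI (hH x hx) p'
  obtain ⟨q', hq', hq1', -⟩ := exists_proj hI (hH a' hx') q
  have hq2 : ∀ r ∈ 𝒯.Ax x, 𝒯.Btw q' q r := fun r hr =>
    ((hq1 r hr).left (hq1' p' hp').symm).2
  have hlen : 𝒯.d q' (a' • q') = 𝒯.d q (x • q) := ft_len hI hH hx y hq hq'
  have hpos := ft_pos (hH x hx) q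
  have hxm : x ∈ Subgroup.closure ({x, y} : Set G) := Subgroup.subset_closure (by simp)
  have hym : y ∈ Subgroup.closure ({x, y} : Set G) := Subgroup.subset_closure (by simp)
  have ham : a' ∈ Subgroup.closure ({x, y} : Set G) :=
    mul_mem (mul_mem hym hxm) (inv_mem hym)
  have m1 := smul_mem_ax hI (Commute.refl x) hq
  have m2 := smul_mem_ax hI (Commute.refl x).inv_right hq
  have m3 := smul_mem_ax hI (Commute.refl a') hq'
  have m4 := smul_mem_ax hI (Commute.refl a').inv_right hq'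
  have i1 := ft_d_inv hI x q
  have i2 := ft_d_inv hI a' q'
  refine ⟨x * x, mul_mem hxm hxm, a' * a', mul_mem ham ham, fun ξ => L2.norm_le_of_pingpong
    (S₁ := {k | 𝒯.Btw q (x • q) (k • q)}) (S₂ := {k | 𝒯.Btw q (x⁻¹ • q) (k • q)})
    (S₃ := {k | 𝒯.Btw q' (a' • q') (k • q)}) (S₄ := {k | 𝒯.Btw q' (a'⁻¹ • q') (k • q)})
    ?_ ?_ ?_ ?_ ?_ ?_ (fun k hk => ?_) (fun k hk => ?_) ξ⟩
  · exact Set.disjoint_left.2 fun k h1 h2 => ft_same hI (hH x hx) hq h1 h2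
  · exact Set.disjoint_left.2 fun k h1 h2 => ft_cross hH (fun h : x = a' => hnc (h ▸ Commute.refl x))
      hpos hlen (hq2 _ m1) (hq1' _ m3) h1 h2
  · exact Set.disjoint_left.2 fun k h1 h2 => ft_cross hH
      (fun h => hnc (by rw [h]; exact (Commute.refl a').inv_left))
      hpos (i2.trans hlen) (hq2 _ m1) (hq1' _ m4) h1 h2
  · exact Set.disjoint_left.2 fun k h1 h2 => ft_cross hH
      (fun h => hnc (by rw [← h]; exact (Commute.refl x).inv_right))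
      (i1 ▸ hpos) (hlen.trans i1.symm) (hq2 _ m2) (hq1' _ m3) h1 h2
  · exact Set.disjoint_left.2 fun k h1 h2 => ft_cross hH
      (fun h : x⁻¹ = a'⁻¹ => hnc (inv_injective h ▸ Commute.refl x))
      (i1 ▸ hpos) (i2.trans (hlen.trans i1.symm)) (hq2 _ m2) (hq1' _ m4) h1 h2
  · exact Set.disjoint_left.2 fun k h1 h2 => ft_same hI (hH a' hx') hq' h1 h2
  · show 𝒯.Btw q (x • q) ((x * x * k) • q)
    rw [mul_smul (x * x)]
    exact ft_pp hI (hH x hx) hq hk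
  · show 𝒯.Btw q' (a' • q') ((a' * a' * k) • q)
    rw [mul_smul (a' * a')]
    exact ft_pp hI (hH a' hx') hq' hk

end Pool.Agent.Lib.MP_d87150_al
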