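import Pool.Agent.Lib.MP_d87150_al.KSteps

/-!
# Gluing along commuting elements (tree of cylinders)
-/

set_option autoImplicit false

noncomputable section

namespace Pool.Agent.Lib.MP_d87150_al

variable {G : Type} [Group G]

theorem kcomm_mem_cent {x z : G} : z ∈ Subgroup.centralizer ({x} : Set G) ↔ Commute x z := by
  rw [Subgroup.mem_centralizer_singleton_iff]
  exact ⟨fun h => h.symm, fun h => h.eq.symm⟩

/-- A finitely generated subgroup of a centralizer is good. -/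
theorem kcomm_inK (hG : Nice G) {M : Subgroup G} {x : G} (hx : x ≠ 1) (hfg : M.FG)
    (hM : M ≤ Subgroup.centralizer {x}) : InK M :=
  inK_of_comm hfg fun _ ha _ hb =>
    hG.ct x _ _ hx (kcomm_mem_cent.1 (hM ha)) (kcomm_mem_cent.1 (hM hb))

theorem kcomm_eqOn_sup {K M A : Subgroup G} {c c' : G → L2 G} (h : IsCoc K c) (h' : IsCoc K c')
    (hM : M ≤ K) (hA : A ≤ K) (e1 : ∀ g ∈ M, c g = c' g) (e2 : ∀ g ∈ A, c g = c' g) :
    ∀ g ∈ M ⊔ A, c g = c' g := by
  rw [Subgroup.sup_eq_closure]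
  refine h.eqOn_closure h' ?_ ?_
  · rintro g (hg | hg)
    · exact hM hg
    · exact hA hg
  · rintro g (hg | hg)
    · exact e1 g hg
    · exact e2 g hg

theorem inK_comm_amalg (hG : Nice G) {A B : Subgroup G} (hA : InK A) (hB : InK B) {x y : G}
    (hxA : x ∈ A) (hyB : y ∈ B) (hx : x ≠ 1) (hy : y ≠ 1) (hxy : Commute x y)
    (hext : ∀ cA cB, IsCoc A cA → IsCoc B cB → y • cA x - cA x = x • cB y - cB y →
      ∃ c, IsCoc (A ⊔ B) c ∧ (∀ a ∈ A, c a = cA a) ∧ ∀ b ∈ B, c b = cB b) : InK (A ⊔ B) := by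
  set M : Subgroup G := (A ⊓ Subgroup.centralizer {x}) ⊔ (B ⊓ Subgroup.centralizer {y}) with hM
  have hMc : M ≤ Subgroup.centralizer {x} := by
    refine sup_le inf_le_right fun z hz => kcomm_mem_cent.2 ?_
    exact hG.ct y x z hy hxy.symm (kcomm_mem_cent.1 hz.2)
  have hMK : InK M := kcomm_inK hG hx ((hA.cfg x hxA hx).sup (hB.cfg y hyB hy)) hMc
  have hMle : M ≤ A ⊔ B := sup_le_sup inf_le_left inf_le_left
  have hm1 : ∀ z ∈ A, Commute x z → z ∈ M := fun z hz h =>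
    Subgroup.mem_sup_left ⟨hz, kcomm_mem_cent.2 h⟩
  have hm2 : ∀ z ∈ B, Commute y z → z ∈ M := fun z hz h =>
    Subgroup.mem_sup_right ⟨hz, kcomm_mem_cent.2 h⟩
  have hvan : ∀ c, IsCoc (A ⊔ B) c → c x = 0 → ∀ z ∈ M, c z = 0 := fun c hc h0 z hz =>
    hc.eq_zero_of_commute hG (Subgroup.mem_sup_left hxA) (hMle hz) hx
      (kcomm_mem_cent.1 (hMc hz)) h0
  have s1 : InK (M ⊔ A) := by
    refine (inK_amalg hG hMK hA (hm1 x hxA (Commute.refl x)) hxA hx hm1 (ι := Empty)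
      (fun i => i.elim) (fun i => i.elim) ?_).1
    intro cB hcB h0 _
    obtain ⟨c, hc, h1, -⟩ := hext cB (fun _ => 0) hcB IsCoc.zero (by rw [h0]; simp)
    exact ⟨c, hc.mono (sup_le hMle le_sup_left), hvan c hc ((h1 x hxA).trans h0), h1⟩
  have hle : (M ⊔ A) ⊔ B = A ⊔ B :=
    le_antisymm (sup_le (sup_le hMle le_sup_left) le_sup_right)
      (sup_le_sup_right le_sup_right _)
  have s2 : InK ((M ⊔ A) ⊔ B) := by
    refine (inK_amalg hG s1 hB (Subgroup.mem_sup_left (hm2 y hyB (Commute.refl y))) hyB hy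
      (fun b hb h => Subgroup.mem_sup_left (hm2 b hb h)) (ι := Empty)
      (fun i => i.elim) (fun i => i.elim) ?_).1
    intro cB hcB h0 _
    obtain ⟨c, hc, h1, h2⟩ := hext (fun _ => 0) cB IsCoc.zero hcB (by rw [h0]; simp)
    refine ⟨c, hle.symm ▸ hc, ?_, h2⟩
    exact kcomm_eqOn_sup hc IsCoc.zero hMle le_sup_left (hvan c hc (h1 x hxA)) h1
  exact hle ▸ s2

theorem inK_comm_hnn (hG : Nice G) {A : Subgroup G} (hA : InK A) {x y τ : G}
    (hxA : x ∈ A) (hyA : τ * y * τ⁻¹ ∈ A) (hx : x ≠ 1) (hy : y ≠ 1) (hxy : Commute x y)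
    (hext : ∀ cA ξ η, IsCoc A cA → η = τ⁻¹ • (cA (τ * y * τ⁻¹) + (τ * y * τ⁻¹) • ξ - ξ) →
      y • cA x - cA x = x • η - η →
      ∃ c, IsCoc (A ⊔ Subgroup.zpowers τ) c ∧ (∀ a ∈ A, c a = cA a) ∧ c τ = ξ) :
    InK (A ⊔ Subgroup.zpowers τ) := by
  have hτ : τ ∈ A ⊔ Subgroup.zpowers τ := Subgroup.mem_sup_right (Subgroup.mem_zpowers τ)
  have hy' : τ * y * τ⁻¹ ≠ 1 := by
    intro h
    apply hy
    have : y = τ⁻¹ * (τ * y * τ⁻¹) * τ := by group
    rw [this, h]; group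
  by_cases hcase : ∃ a ∈ A, Commute x (a * (τ * y * τ⁻¹) * a⁻¹)
  · obtain ⟨a, ha, hc1⟩ := hcase
    have hc2 : Commute x (a * τ) := by
      refine hG.commute_of_conj hx hy hxy ?_
      have : a * τ * y * (a * τ)⁻¹ = a * (τ * y * τ⁻¹) * a⁻¹ := by group
      rw [this]; exact hc1
    set M : Subgroup G := (A ⊓ Subgroup.centralizer {x}) ⊔ Subgroup.zpowers (a * τ) with hM
    have hMc : M ≤ Subgroup.centralizer {x} :=
      sup_le inf_le_right (Subgroup.zpowers_le.2 (kcomm_mem_cent.2 hc2))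
    have hz : (Subgroup.zpowers (a * τ)).FG :=
      (Subgroup.fg_iff _).2 ⟨{a * τ}, (Subgroup.zpowers_eq_closure _).symm, Set.finite_singleton _⟩
    have hMK : InK M := kcomm_inK hG hx ((hA.cfg x hxA hx).sup hz) hMc
    have hMle : M ≤ A ⊔ Subgroup.zpowers τ :=
      sup_le (inf_le_left.trans le_sup_left)
        (Subgroup.zpowers_le.2 (mul_mem (Subgroup.mem_sup_left ha) hτ))
    have hm1 : ∀ z ∈ A, Commute x z → z ∈ M := fun z hz h =>
      Subgroup.mem_sup_left ⟨hz, kcomm_mem_cent.2 h⟩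
    have hle : M ⊔ A = A ⊔ Subgroup.zpowers τ := by
      refine le_antisymm (sup_le hMle le_sup_left) (sup_le le_sup_right ?_)
      refine Subgroup.zpowers_le.2 ?_
      have h1 : a * τ ∈ M ⊔ A :=
        Subgroup.mem_sup_left (Subgroup.mem_sup_right (Subgroup.mem_zpowers _))
      have h2 : a⁻¹ ∈ M ⊔ A := Subgroup.mem_sup_right (inv_mem ha)
      have := mul_mem h2 h1
      rwa [inv_mul_cancel_left] at this
    have s1 : InK (M ⊔ A) := by
      refine (inK_amalg hG hMK hA (hm1 x hxA (Commute.refl x)) hxA hx hm1 (ι := Empty)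
        (fun i => i.elim) (fun i => i.elim) ?_).1
      intro cB hcB h0 _
      have e1 : cB (a * (τ * y * τ⁻¹) * a⁻¹) = 0 :=
        hcB.eq_zero_of_commute hG hxA (mul_mem (mul_mem ha hyA) (inv_mem ha)) hx hc1 h0
      rw [hcB.conj ha hyA] at e1
      have e2 : cB (τ * y * τ⁻¹) + (τ * y * τ⁻¹) • (-(a⁻¹ • cB a)) - -(a⁻¹ • cB a) = 0 := by
        have e3 := congrArg (fun t : L2 G => a⁻¹ • t) e1
        simp only [smul_sub, smul_add, smul_zero, inv_smul_smul, mul_smul] at e3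
        simp only [smul_neg, mul_smul]
        rw [← e3]; abel
      obtain ⟨c, hc, h1, -⟩ := hext cB (-(a⁻¹ • cB a)) 0 hcB (by rw [e2, smul_zero])
        (by rw [h0]; simp)
      refine ⟨c, hle.symm ▸ hc, fun z hz => ?_, h1⟩
      exact hc.eq_zero_of_commute hG (Subgroup.mem_sup_left hxA) (hMle hz) hx
        (kcomm_mem_cent.1 (hMc hz)) ((h1 x hxA).trans h0)
    exact hle ▸ s1
  · have hnc : ∀ a ∈ A, ¬ Commute x (a * (τ * y * τ⁻¹) * a⁻¹) := fun a ha h => hcase ⟨a, ha, h⟩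
    set M : Subgroup G := (A ⊓ Subgroup.centralizer {x}) ⊔
      cj τ⁻¹ (A ⊓ Subgroup.centralizer {τ * y * τ⁻¹}) with hM
    have hmem : ∀ z, z ∈ cj τ⁻¹ (A ⊓ Subgroup.centralizer {τ * y * τ⁻¹}) ↔
        τ * z * τ⁻¹ ∈ A ∧ Commute y z := by
      intro z
      rw [mem_cj, inv_inv, Subgroup.mem_inf, kcomm_mem_cent]
      refine and_congr_right fun _ => ⟨fun h => ?_, fun h => ?_⟩
      · have h1 : y * z = τ⁻¹ * (τ * y * τ⁻¹ * (τ * z * τ⁻¹)) * τ := by group
        have h2 : z * y = τ⁻¹ * (τ * z * τ⁻¹ * (τ * y * τ⁻¹)) * τ := by group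
        change y * z = z * y
        rw [h1, h2, h.eq]
      · change _ * _ = _ * _
        have h1 : τ * y * τ⁻¹ * (τ * z * τ⁻¹) = τ * (y * z) * τ⁻¹ := by group
        have h2 : τ * z * τ⁻¹ * (τ * y * τ⁻¹) = τ * (z * y) * τ⁻¹ := by group
        rw [h1, h2, h.eq]
    have hMc : M ≤ Subgroup.centralizer {x} := by
      refine sup_le inf_le_right fun z hz => kcomm_mem_cent.2 ?_
      exact hG.ct y x z hy hxy.symm ((hmem z).1 hz).2
    have hfg : (cj τ⁻¹ (A ⊓ Subgroup.centralizer {τ * y * τ⁻¹})).FG := by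
      obtain ⟨S, hS, hfin⟩ := (Subgroup.fg_iff _).1 (hA.cfg _ hyA hy')
      refine (Subgroup.fg_iff _).2 ⟨_, ?_, hfin.image (MulAut.conj τ⁻¹).toMonoidHom⟩
      rw [← MonoidHom.map_closure, hS]
      rfl
    have hMK : InK M := kcomm_inK hG hx ((hA.cfg x hxA hx).sup hfg) hMc
    have hMle : M ≤ A ⊔ Subgroup.zpowers τ := by
      refine sup_le (inf_le_left.trans le_sup_left) fun z hz => ?_
      have h1 : z = τ⁻¹ * (τ * z * τ⁻¹) * τ := by group
      rw [h1]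
      exact mul_mem (mul_mem (inv_mem hτ) (Subgroup.mem_sup_left ((hmem z).1 hz).1)) hτ
    have hm1 : ∀ z ∈ A, Commute x z → z ∈ M := fun z hz h =>
      Subgroup.mem_sup_left ⟨hz, kcomm_mem_cent.2 h⟩
    have hle0 : M ⊔ A ≤ A ⊔ Subgroup.zpowers τ := sup_le hMle le_sup_left
    have hle : (M ⊔ A) ⊔ Subgroup.zpowers τ = A ⊔ Subgroup.zpowers τ :=
      le_antisymm (sup_le hle0 le_sup_right) (sup_le_sup_right le_sup_right _)
    obtain ⟨s1, s2, s3⟩ := inK_amalg hG hMK hA (hm1 x hxA (Commute.refl x)) hxA hx hm1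
      (ι := Unit) (fun _ => τ * y * τ⁻¹) (fun _ => ⟨hyA, hy'⟩) (by
        intro cB hcB h0 hin
        obtain ⟨ξ, hξ⟩ := hin ()
        obtain ⟨c, hc, h1, -⟩ := hext cB (-ξ) 0 hcB (by
          rw [hξ, smul_neg]
          have : (τ * y * τ⁻¹) • ξ - ξ + -((τ * y * τ⁻¹) • ξ) - -ξ = 0 := by abel
          rw [this, smul_zero]) (by rw [h0]; simp)
        refine ⟨c, hc.mono hle0, fun z hz => ?_, h1⟩
        exact hc.eq_zero_of_commute hG (Subgroup.mem_sup_left hxA) (hMle hz) hx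
          (kcomm_mem_cent.1 (hMc hz)) ((h1 x hxA).trans h0))
    have s2' := s2 _ hyA hnc
    have hyM : y ∈ M ⊔ A :=
      Subgroup.mem_sup_left (Subgroup.mem_sup_right ((hmem y).2 ⟨hyA, Commute.refl y⟩))
    have s4 : InK ((M ⊔ A) ⊔ Subgroup.zpowers τ) := by
      refine inK_hnn hG s1 hyM hy (Subgroup.mem_sup_right hyA) ?_ ?_ ?_
      · intro z hz hzc
        have h1 : z⁻¹ * (τ * y * τ⁻¹) * z = τ * y * τ⁻¹ := by
          rw [mul_assoc z⁻¹, ← hzc.eq, inv_mul_cancel_left]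
        have h2 : z ∈ A := (s2' z hz).1 (h1.symm ▸ hyA)
        refine Subgroup.mem_sup_left (Subgroup.mem_sup_right (mem_cj.2 ?_))
        have h3 : τ⁻¹⁻¹ * (τ⁻¹ * z * τ) * τ⁻¹ = z := by group
        rw [h3]
        exact ⟨h2, kcomm_mem_cent.2 hzc.symm⟩
      · intro a ha h
        have h1 : Commute x (a * (τ * y * τ⁻¹) * a⁻¹) := hG.ct y _ _ hy hxy.symm h
        have h2 := s3 _ (mul_mem (mul_mem ha (Subgroup.mem_sup_right hyA)) (inv_mem ha)) h1
        have h3 := (s2' a⁻¹ (inv_mem ha)).2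
        rw [inv_inv] at h3
        exact h3 h2
      · intro cA ξ₁ ξ₂ hcA e1 e2
        obtain ⟨c, hc, h1, h2⟩ := hext cA (τ • ξ₁ - ξ₂) (cA y) (hcA.mono le_sup_right) (by
          rw [e1, e2]
          simp only [smul_sub, smul_add, mul_smul, inv_smul_smul]
          abel) (hcA.comm hyM (Subgroup.mem_sup_right hxA) hxy.symm)
        refine ⟨c, hle.symm ▸ hc, ?_, h2⟩
        have hc' := hc.mono hle0
        refine kcomm_eqOn_sup hc' hcA le_sup_left le_sup_right (fun z hz => ?_) h1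
        have := (hc'.sub hcA).eq_zero_of_commute hG (Subgroup.mem_sup_right hxA)
          (Subgroup.mem_sup_left hz) hx (kcomm_mem_cent.1 (hMc hz)) (by rw [h1 x hxA, sub_self])
        exact sub_eq_zero.1 this
    exact hle ▸ s4

end Pool.Agent.Lib.MP_d87150_al
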