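import Pool.Agent.Lib.MP_d87150_al.Conn
import Pool.Agent.Lib.MP_d87150_al.KComm

/-!
# Labelled graphs and the property `Good`
-/

set_option autoImplicit false

noncomputable section

namespace Pool.Agent.Lib.MP_d87150_al

/-- A graph with arrows `A`, objects `O`; each arrow has two ends carrying labels in `G`. -/
structure LG (G A O : Type) where
  en : A → Bool → O
  lab : A → Bool → G

namespace LG

variable {G A O : Type}

/-- The lifted end of an arrow. -/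
def pt (Γ : LG G A O) (a : A) (s : Bool) : G × O := (Γ.lab a s, Γ.en a s)

/-- The edges of the graph; the value of the arrow `a` is the coordinate `a`. -/
def edges (Γ : LG G A O) : Set (Edge G A O) :=
  Set.range fun a => (Γ.pt a false, Γ.pt a true, (ContinuousLinearMap.proj a : Fn G A))

/-- Relabel objects. -/
def map {O' : Type} (Γ : LG G A O) (ρ : O → O') : LG G A O' :=
  ⟨fun a s => ρ (Γ.en a s), Γ.lab⟩

/-- Objects that are ends of arrows. -/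
def used (Γ : LG G A O) : Set O := {o | ∃ a s, Γ.en a s = o}

/-- `ρ` identifies `o` with `o'` and nothing else among the relevant objects. -/
structure MergeAt {O' : Type} (Γ : LG G A O) (ρ : O → O') (o o' : O) : Prop where
  ne : o ≠ o'
  eq : ρ o = ρ o'
  only : ∀ u ∈ Γ.used ∪ {o, o'}, ∀ u' ∈ Γ.used ∪ {o, o'}, ρ u = ρ u' →
    u = u' ∨ (u = o ∧ u' = o') ∨ (u = o' ∧ u' = o)

end LG

variable {G A O : Type} [Group G]

theorem LG.eqvF_edges (Γ : LG G A O) : ∀ p q e, (p, q, e) ∈ Γ.edges → EqvF e := by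
  rintro p q e ⟨a, ha⟩
  obtain ⟨-, -, rfl⟩ : _ ∧ _ ∧ _ := by simpa only [Prod.mk.injEq] using ha
  exact EqvF.proj a

omit [Group G] in
theorem LG.mem_edges {Γ : LG G A O} {p q : G × O} {e : Fn G A} (h : (p, q, e) ∈ Γ.edges) :
    ∃ a, p = Γ.pt a false ∧ q = Γ.pt a true ∧ e = ContinuousLinearMap.proj a := by
  obtain ⟨a, ha⟩ := h
  simp only [Prod.mk.injEq] at ha
  exact ⟨a, ha.1.symm, ha.2.1.symm, ha.2.2.symm⟩

section Aux

variable {X X' : Type} {𝔈 : Set (Edge G A X)}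

theorem Conn.cast {p q p' q' : G × X} {e e' : Fn G A} (h : Conn 𝔈 p q e) (hp : p = p')
    (hq : q = q') (he : e = e') : Conn 𝔈 p' q' e' := hp ▸ hq ▸ he ▸ h

theorem Conn.val_of_potential {c : H G A} (b : G × X → L2 G)
    (hb : ∀ g p q e, (p, q, e) ∈ 𝔈 → g • e c = b (tr g q) - b (tr g p)) {p q : G × X}
    {e : Fn G A} (h : Conn 𝔈 p q e) : e c = b q - b p := by
  induction h with
  | refl p => simp
  | step g h => exact hb g _ _ _ h
  | symm _ ih => rw [neg_apply, ih, neg_sub]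
  | trans _ _ ih ih' => rw [add_apply, ih, ih']; abel

theorem Zm_le_of_pull {𝔈' : Set (Edge G A X')} (μ : X → X')
    (h : ∀ p q e, (p, q, e) ∈ 𝔈 → Conn 𝔈' (p.1, μ p.2) (q.1, μ q.2) e) : Zm 𝔈' ≤ Zm 𝔈 :=
  fun _ hc _ _ hp => hc _ _ (hp.pull' μ h)

theorem Im_le_of_pull {𝔈' : Set (Edge G A X')} (μ : X → X')
    (h : ∀ p q e, (p, q, e) ∈ 𝔈 → Conn 𝔈' (p.1, μ p.2) (q.1, μ q.2) e) (x : X) :
    Im 𝔈 x ≤ Im 𝔈' (μ x) :=
  fun _ ⟨e, he⟩ => ⟨e, he.pull' μ h⟩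

theorem Conn.shift {g g' : G} {x x' : X} {e : Fn G A} (h : Conn 𝔈 (g, x) (g', x') e) :
    Conn 𝔈 (1, x) (g⁻¹ * g', x') (g⁻¹ • e) :=
  (h.translate g⁻¹).cast (by simp) rfl rfl

theorem conn_new (𝔈 : Set (Edge G A X)) (o o' : X) (g : G) :
    Conn (insert (((1 : G), o), ((1 : G), o'), (0 : Fn G A)) 𝔈) (g, o) (g, o') 0 :=
  (Conn.step g (Set.mem_insert _ _)).cast (by simp) (by simp) (smul_zero g)

theorem Im_insert_le {o o' : X} {M : Subgroup G} (h1 : Im 𝔈 o ≤ M) (h2 : Im 𝔈 o' ≤ M)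
    (h3 : ∀ τ f, Conn 𝔈 (1, o) (τ, o') f → τ ∈ M) :
    Im (insert (((1 : G), o), ((1 : G), o'), (0 : Fn G A)) 𝔈) o ≤ M := by
  let P : G × X → Prop := fun q =>
    ∃ m ∈ M, (∃ f, Conn 𝔈 (m, o) q f) ∨ ∃ f, Conn 𝔈 (m, o') q f
  have k1 : ∀ g, P (g, o) → g ∈ M := by
    rintro g ⟨m, hm, ⟨f, hf⟩ | ⟨f, hf⟩⟩
    · exact (M.mul_mem_cancel_left (M.inv_mem hm)).mp (h1 ⟨_, hf.shift⟩)
    · exact M.inv_mem_iff.mp ((M.mul_mem_cancel_right hm).mp (h3 _ _ hf.symm.shift))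
  have k2 : ∀ g, P (g, o') → g ∈ M := by
    rintro g ⟨m, hm, ⟨f, hf⟩ | ⟨f, hf⟩⟩
    · exact (M.mul_mem_cancel_left (M.inv_mem hm)).mp (h3 _ _ hf.shift)
    · exact (M.mul_mem_cancel_left (M.inv_mem hm)).mp (h2 ⟨_, hf.shift⟩)
  have k3 : ∀ q r f, P q → Conn 𝔈 q r f → P r := by
    rintro q r f ⟨m, hm, ⟨f', hf⟩ | ⟨f', hf⟩⟩ h
    · exact ⟨m, hm, Or.inl ⟨_, hf.trans h⟩⟩
    · exact ⟨m, hm, Or.inr ⟨_, hf.trans h⟩⟩
  rintro g ⟨e, he⟩
  refine k1 g (Conn.induction_tail (P := fun q _ => P q) ⟨1, M.one_mem, Or.inl ⟨0, Conn.refl _⟩⟩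
    ?_ ?_ he)
  · rintro q e g a b f - hP hm rfl
    rcases Set.mem_insert_iff.mp hm with hm | hm
    · simp only [Prod.mk.injEq] at hm
      obtain ⟨rfl, rfl, -⟩ := hm
      exact ⟨g * 1, k1 _ hP, Or.inr ⟨0, Conn.refl _⟩⟩
    · exact k3 _ _ _ hP (Conn.step g hm)
  · rintro q e g a b f - hP hm rfl
    rcases Set.mem_insert_iff.mp hm with hm | hm
    · simp only [Prod.mk.injEq] at hm
      obtain ⟨rfl, rfl, -⟩ := hm
      exact ⟨g * 1, k2 _ hP, Or.inl ⟨0, Conn.refl _⟩⟩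
    · exact k3 _ _ _ hP (Conn.step g hm).symm

theorem Im_insert_amalg {o o' : X} (h : ¬ ∃ τ f, Conn 𝔈 (1, o) (τ, o') f) :
    Im (insert (((1 : G), o), ((1 : G), o'), (0 : Fn G A)) 𝔈) o = Im 𝔈 o ⊔ Im 𝔈 o' := by
  refine le_antisymm (Im_insert_le le_sup_left le_sup_right fun τ f hf => absurd ⟨τ, f, hf⟩ h)
    (sup_le (Im_mono (Set.subset_insert _ _) o) ?_)
  rintro g ⟨e, he⟩
  exact ⟨_, ((conn_new 𝔈 o o' 1).trans (he.mono (Set.subset_insert _ _))).trans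
    (conn_new 𝔈 o o' g).symm⟩

theorem conj_mem_Im {o o' : X} {τ y : G} {f e : Fn G A} (h : Conn 𝔈 (1, o) (τ, o') f)
    (he : Conn 𝔈 (1, o') (y, o') e) :
    Conn 𝔈 (1, o) (τ * y * τ⁻¹, o) (f + τ • e + -((τ * y * τ⁻¹) • f)) :=
  (h.trans ((he.translate τ).cast (by simp) rfl rfl)).trans
    ((h.translate (τ * y * τ⁻¹)).symm.cast (by simp) (by simp) rfl)

theorem Im_insert_hnn {o o' : X} {τ : G} {f : Fn G A} (h : Conn 𝔈 (1, o) (τ, o') f) :
    Im (insert (((1 : G), o), ((1 : G), o'), (0 : Fn G A)) 𝔈) o =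
      Im 𝔈 o ⊔ Subgroup.zpowers τ := by
  have hτ : τ ∈ Im 𝔈 o ⊔ Subgroup.zpowers τ := Subgroup.mem_sup_right (Subgroup.mem_zpowers τ)
  refine le_antisymm (Im_insert_le le_sup_left ?_ fun τ' f' hf => ?_)
    (sup_le (Im_mono (Set.subset_insert _ _) o) ?_)
  · rintro y ⟨e, he⟩
    have h1 : τ * y * τ⁻¹ ∈ Im 𝔈 o ⊔ Subgroup.zpowers τ :=
      Subgroup.mem_sup_left ⟨_, conj_mem_Im h he⟩
    rwa [Subgroup.mul_mem_cancel_right _ (Subgroup.inv_mem _ hτ),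
      Subgroup.mul_mem_cancel_left _ hτ] at h1
  · have h1 : τ' * τ⁻¹ ∈ Im 𝔈 o ⊔ Subgroup.zpowers τ :=
      Subgroup.mem_sup_left ⟨_, hf.trans
        ((h.translate (τ' * τ⁻¹)).symm.cast (by simp) (by simp) rfl)⟩
    rwa [Subgroup.mul_mem_cancel_right _ (Subgroup.inv_mem _ hτ)] at h1
  · rw [Subgroup.zpowers_le]
    exact ⟨_, (h.mono (Set.subset_insert _ _)).trans (conn_new 𝔈 o o' τ).symm⟩

theorem inK_Im_insert {o o' : X} (h1 : ∀ u, InK (Im 𝔈 u))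
    (h2 : InK (Im (insert (((1 : G), o), ((1 : G), o'), (0 : Fn G A)) 𝔈) o)) (u : X) :
    InK (Im (insert (((1 : G), o), ((1 : G), o'), (0 : Fn G A)) 𝔈) u) := by
  by_cases h : ∃ g f, Conn (insert (((1 : G), o), ((1 : G), o'), (0 : Fn G A)) 𝔈) (1, u) (g, o) f
  · obtain ⟨g, f, hf⟩ := h
    have := cj_Im_eq hf
    rw [cj_one] at this
    rw [this]
    exact h2.cj g
  · have : Im (insert (((1 : G), o), ((1 : G), o'), (0 : Fn G A)) 𝔈) u = Im 𝔈 u := by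
      refine le_antisymm ?_ (Im_mono (Set.subset_insert _ _) u)
      rintro g ⟨e, he⟩
      refine Conn.induction_tail (P := fun q _ => ∃ f, Conn 𝔈 (1, u) q f) ⟨0, Conn.refl _⟩
        ?_ ?_ he
      · rintro q e g a b f hq ⟨f', hP⟩ hm rfl
        rcases Set.mem_insert_iff.mp hm with hm | hm
        · simp only [Prod.mk.injEq] at hm
          obtain ⟨rfl, rfl, -⟩ := hm
          exact absurd ⟨_, _, hq⟩ h
        · exact ⟨_, hP.trans (Conn.step g hm)⟩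
      · rintro q e g a b f hq ⟨f', hP⟩ hm rfl
        rcases Set.mem_insert_iff.mp hm with hm | hm
        · simp only [Prod.mk.injEq] at hm
          obtain ⟨rfl, rfl, -⟩ := hm
          exact absurd ⟨_, _, hq.trans (conn_new 𝔈 o o' (g * 1)).symm⟩ h
        · exact ⟨_, hP.trans (Conn.step g hm).symm⟩
    rw [this]
    exact h1 u

theorem exists_coc_insert {o o' : X} {c : H G A}
    (hc : c ∈ Zm (insert (((1 : G), o), ((1 : G), o'), (0 : Fn G A)) 𝔈)) :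
    ∃ cK, IsCoc (Im (insert (((1 : G), o), ((1 : G), o'), (0 : Fn G A)) 𝔈) o) cK ∧
      (∀ g e, Conn 𝔈 (1, o) (g, o) e → cK g = e c) ∧
      (∀ g e, Conn 𝔈 (1, o') (g, o') e → cK g = e c) ∧
      ∀ g e, Conn 𝔈 (1, o) (g, o') e → cK g = e c := by
  obtain ⟨cK, h1, h2⟩ := exists_isCoc hc o
  refine ⟨cK, h1, fun g e he => h2 g e (he.mono (Set.subset_insert _ _)), fun g e he => ?_,
    fun g e he => ?_⟩
  · exact h2 g e ((((conn_new 𝔈 o o' 1).trans (he.mono (Set.subset_insert _ _))).trans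
      (conn_new 𝔈 o o' g).symm).cast rfl rfl (by simp))
  · exact h2 g e (((he.mono (Set.subset_insert _ _)).trans
      (conn_new 𝔈 o o' g).symm).cast rfl rfl (by simp))

theorem IsCoc.exists_ext {K : Subgroup G} {cK : G → L2 G} (hc : IsCoc K cK) :
    ∃ b : G → L2 G, ∀ g, ∀ k ∈ K, b (g * k) = b g + g • cK k := by
  let r : G → G := fun g => (g : G ⧸ K).out
  have hr : ∀ g, (r g)⁻¹ * g ∈ K := fun g => QuotientGroup.eq.mp (QuotientGroup.out_eq' _)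
  refine ⟨fun g => r g • cK ((r g)⁻¹ * g), fun g k hk => ?_⟩
  have e : r (g * k) = r g := by
    simp only [r]
    rw [QuotientGroup.mk_mul_of_mem g hk]
  simp only [e]
  rw [← mul_assoc, hc _ (hr g) _ hk, smul_add, smul_smul, mul_inv_cancel_left]

theorem dim_step [Fintype A] {W Z : Submodule ℝ (H G A)} (hW : Inv W) (hZ : Inv Z) (hle : Z ≤ W)
    {f : Fn G A} (hf : EqvF f) (hd : Dense (f '' (Z : Set (H G A)))) {n : ℕ} (hn : dim W = n) :
    (∃ m : ℕ, dim (W ⊓ LinearMap.ker (f : H G A →ₗ[ℝ] L2 G)) = m) ∧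
      (W ⊓ LinearMap.ker (f : H G A →ₗ[ℝ] L2 G) ≤ Z → W = Z) := by
  have h1 := dim_eq_ker_add_one hW hf (hd.mono (Set.image_mono hle))
  have h2 := dim_eq_ker_add_one hZ hf hd
  constructor
  · have h3 := dim_nonneg (W ⊓ LinearMap.ker (f : H G A →ₗ[ℝ] L2 G))
    have h4 : 1 ≤ n := by
      have : (1 : ℝ) ≤ n := by linarith
      exact_mod_cast this
    refine ⟨n - 1, ?_⟩
    rw [Nat.cast_sub h4]
    push_cast
    linarith
  · intro h
    have h3 : dim (W ⊓ LinearMap.ker (f : H G A →ₗ[ℝ] L2 G)) ≤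
        dim (Z ⊓ LinearMap.ker (f : H G A →ₗ[ℝ] L2 G)) := dim_mono (le_inf h inf_le_right)
    exact (eq_of_le_of_dim_le hZ hW hle (by linarith)).symm

end Aux

theorem LG.conn_arrow (Γ : LG G A O) (a : A) :
    Conn Γ.edges (Γ.pt a false) (Γ.pt a true) (ContinuousLinearMap.proj a) :=
  Conn.of_mem ⟨a, rfl⟩

/-- Realization of a cocycle on the group of the component of `o`, vanishing on the other
components. -/
theorem LG.exists_realize (Γ : LG G A O) (o : O) {cK : G → L2 G}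
    (hc : IsCoc (Im Γ.edges o) cK) :
    ∃ c ∈ Zm Γ.edges, (∀ g e, Conn Γ.edges (1, o) (g, o) e → e c = cK g) ∧
      ∀ p q e, Conn Γ.edges p q e → (¬ ∃ g f, Conn Γ.edges (1, o) (g, p.2) f) → e c = 0 := by
  classical
  let C : O → Prop := fun u => ∃ g f, Conn Γ.edges (1, o) (g, u) f
  have hC : ∀ p q e, Conn Γ.edges p q e → C p.2 → C q.2 := by
    rintro ⟨g, u⟩ ⟨g', u'⟩ e h ⟨k, f, hf⟩
    exact ⟨_, _, hf.trans ((h.translate (k * g⁻¹)).cast (by simp) rfl rfl)⟩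
  obtain ⟨γ, hγ0, hγ⟩ : ∃ γ : O → G, γ o = 1 ∧
      ∀ u, C u → ∃ f, Conn Γ.edges (1, o) (γ u, u) f := by
    refine ⟨fun u => if u = o then 1 else if h : C u then h.choose else 1, by simp, fun u hu => ?_⟩
    by_cases h : u = o
    · subst h
      simp only [if_true]
      exact ⟨0, Conn.refl _⟩
    · simp only [if_neg h, dif_pos hu]
      exact hu.choose_spec
  obtain ⟨B, hB⟩ := hc.exists_ext
  let k : A → G := fun a =>
    γ (Γ.en a false) * (Γ.lab a false)⁻¹ * Γ.lab a true * (γ (Γ.en a true))⁻¹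
  let c : H G A := fun a =>
    if C (Γ.en a false) then (Γ.lab a false * (γ (Γ.en a false))⁻¹) • cK (k a) else 0
  let b : G × O → L2 G := fun p => if C p.2 then B (p.1 * (γ p.2)⁻¹) else 0
  have hb : ∀ g p q e, (p, q, e) ∈ Γ.edges → g • e c = b (tr g q) - b (tr g p) := by
    intro g p q e h
    obtain ⟨a, rfl, rfl, rfl⟩ := LG.mem_edges h
    simp only [ContinuousLinearMap.proj_apply, LG.pt, tr_mk, b, c]
    by_cases h0 : C (Γ.en a false)
    · have h1 : C (Γ.en a true) := hC _ _ _ (Γ.conn_arrow a) h0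
      obtain ⟨f0, hf0⟩ := hγ _ h0
      obtain ⟨f1, hf1⟩ := hγ _ h1
      have hk : k a ∈ Im Γ.edges o :=
        ⟨_, (hf0.trans (((Γ.conn_arrow a).translate
          (γ (Γ.en a false) * (Γ.lab a false)⁻¹)).cast (by simp [LG.pt]) rfl rfl)).trans
          ((hf1.translate (k a)).symm.cast (by simp [LG.pt, k]) (by simp) rfl)⟩
      have e1 := hB (g * Γ.lab a false * (γ (Γ.en a false))⁻¹) _ hk
      have e2 : g * Γ.lab a false * (γ (Γ.en a false))⁻¹ * k a =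
          g * Γ.lab a true * (γ (Γ.en a true))⁻¹ := by simp [k, mul_assoc]
      rw [if_pos h0, if_pos h0, if_pos h1, ← e2, e1, smul_smul, add_sub_cancel_left, mul_assoc]
    · have h1 : ¬ C (Γ.en a true) := fun h => h0 (hC _ _ _ (Γ.conn_arrow a).symm h)
      rw [if_neg h0, if_neg h0, if_neg h1, smul_zero, sub_zero]
  refine ⟨c, mem_Zm_of_potential b hb, fun g e he => ?_, fun p q e he hp => ?_⟩
  · have h0 : C o := ⟨1, 0, Conn.refl _⟩
    rw [he.val_of_potential b hb]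
    have := hB 1 g ⟨e, he⟩
    simp only [b, if_pos h0, hγ0, inv_one, mul_one]
    rw [one_mul, one_smul] at this
    rw [this, add_sub_cancel_left]
  · rw [he.val_of_potential b hb]
    have h1 : ¬ C p.2 := hp
    have h2 : ¬ C q.2 := fun h => h1 (hC _ _ _ he.symm h)
    simp only [b, if_neg h1, if_neg h2, sub_zero]

/-- Gauge transformations supported at `o'`. -/
theorem LG.exists_gauge (Γ : LG G A O) {o o' : O} (h : o ≠ o') (ξ : L2 G) :
    ∃ c ∈ Zm Γ.edges, (∀ g e, Conn Γ.edges (1, o) (g, o) e → e c = 0) ∧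
      (∀ g e, Conn Γ.edges (1, o') (g, o') e → e c = g • ξ - ξ) ∧
      ∀ g e, Conn Γ.edges (1, o) (g, o') e → e c = g • ξ := by
  classical
  let β : O → L2 G := fun u => if u = o' then ξ else 0
  let c : H G A := fun a => Γ.lab a true • β (Γ.en a true) - Γ.lab a false • β (Γ.en a false)
  let b : G × O → L2 G := fun p => p.1 • β p.2
  have hb : ∀ g p q e, (p, q, e) ∈ Γ.edges → g • e c = b (tr g q) - b (tr g p) := by
    intro g p q e h
    obtain ⟨a, rfl, rfl, rfl⟩ := LG.mem_edges h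
    simp only [ContinuousLinearMap.proj_apply, LG.pt, tr_mk, b, c, smul_sub, smul_smul]
  refine ⟨c, mem_Zm_of_potential b hb, fun g e he => ?_, fun g e he => ?_, fun g e he => ?_⟩ <;>
    rw [he.val_of_potential b hb] <;> simp [b, β, h]

theorem LG.exists_realize_amalg (Γ : LG G A O) {o o' : O}
    (h : ¬ ∃ τ f, Conn Γ.edges (1, o) (τ, o') f) {cA cB : G → L2 G}
    (hA : IsCoc (Im Γ.edges o) cA) (hB : IsCoc (Im Γ.edges o') cB) :
    ∃ c ∈ Zm Γ.edges, (∀ g e, Conn Γ.edges (1, o) (g, o) e → e c = cA g) ∧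
      ∀ g e, Conn Γ.edges (1, o') (g, o') e → e c = cB g := by
  obtain ⟨c₁, z1, a1, b1⟩ := Γ.exists_realize o hA
  obtain ⟨c₂, z2, a2, b2⟩ := Γ.exists_realize o' hB
  refine ⟨c₁ + c₂, Submodule.add_mem _ z1 z2, fun g e he => ?_, fun g e he => ?_⟩
  · rw [map_add, a1 g e he, b2 _ _ _ he, add_zero]
    rintro ⟨k, f, hf⟩
    exact h ⟨_, _, hf.symm.shift⟩
  · rw [map_add, a2 g e he, b1 _ _ _ he h, zero_add]

theorem LG.exists_realize_hnn (Γ : LG G A O) {o o' : O} (hne : o ≠ o') {τ : G} {f : Fn G A}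
    (h : Conn Γ.edges (1, o) (τ, o') f) {cA : G → L2 G} (hA : IsCoc (Im Γ.edges o) cA)
    (ξ : L2 G) :
    ∃ c ∈ Zm Γ.edges, (∀ g e, Conn Γ.edges (1, o) (g, o) e → e c = cA g) ∧ f c = ξ := by
  obtain ⟨c₁, z1, a1, -⟩ := Γ.exists_realize o hA
  obtain ⟨c₂, z2, a2, -, a3⟩ := Γ.exists_gauge hne (τ⁻¹ • (ξ - f c₁))
  refine ⟨c₁ + c₂, Submodule.add_mem _ z1 z2, fun g e he => ?_, ?_⟩
  · rw [map_add, a1 g e he, a2 g e he, add_zero]
  · rw [map_add, a3 τ f h, smul_inv_smul, add_sub_cancel]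

theorem LG.pull_map {O' : Type} (Γ : LG G A O) (ρ : O → O') :
    ∀ p q e, (p, q, e) ∈ Γ.edges → Conn (Γ.map ρ).edges (p.1, ρ p.2) (q.1, ρ q.2) e := by
  intro p q e h
  obtain ⟨a, rfl, rfl, rfl⟩ := LG.mem_edges h
  exact (Γ.map ρ).conn_arrow a

theorem LG.MergeAt.pull_insert {O' : Type} {Γ : LG G A O} {ρ : O → O'} {o o' : O}
    (h : Γ.MergeAt ρ o o') :
    ∀ p q e, (p, q, e) ∈ insert (((1 : G), o), ((1 : G), o'), (0 : Fn G A)) Γ.edges →
      Conn (Γ.map ρ).edges (p.1, ρ p.2) (q.1, ρ q.2) e := by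
  intro p q e hm
  rcases Set.mem_insert_iff.mp hm with hm | hm
  · simp only [Prod.mk.injEq] at hm
    obtain ⟨rfl, rfl, rfl⟩ := hm
    exact (Conn.refl _).cast rfl (by rw [h.eq]) rfl
  · exact Γ.pull_map ρ p q e hm

theorem LG.MergeAt.exists_section {O' : Type} {Γ : LG G A O} {ρ : O → O'} {o o' : O}
    (h : Γ.MergeAt ρ o o') : ∃ σ : O' → O,
      (∀ u ∈ Γ.used ∪ {o, o'}, ∀ g : G,
        Conn (insert (((1 : G), o), ((1 : G), o'), (0 : Fn G A)) Γ.edges) (g, σ (ρ u)) (g, u) 0) ∧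
      ∀ p q e, (p, q, e) ∈ (Γ.map ρ).edges →
        Conn (insert (((1 : G), o), ((1 : G), o'), (0 : Fn G A)) Γ.edges)
          (p.1, σ p.2) (q.1, σ q.2) e := by
  have : Nonempty O := ⟨o⟩
  have key : ∀ u ∈ Γ.used ∪ {o, o'}, ∀ g : G,
      Conn (insert (((1 : G), o), ((1 : G), o'), (0 : Fn G A)) Γ.edges)
        (g, Function.invFunOn ρ (Γ.used ∪ {o, o'}) (ρ u)) (g, u) 0 := by
    intro u hu g
    obtain ⟨h1, h2⟩ := Function.invFunOn_pos (f := ρ) (s := Γ.used ∪ {o, o'}) ⟨u, hu, rfl⟩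
    rcases h.only _ h1 u hu h2 with h3 | ⟨h3, h4⟩ | ⟨h3, h4⟩
    · rw [h3]
      exact Conn.refl _
    · rw [h3, h4]
      exact conn_new _ o o' g
    · rw [h3, h4]
      exact (conn_new _ o o' g).symm.cast rfl rfl neg_zero
  refine ⟨_, key, fun p q e hm => ?_⟩
  obtain ⟨a, rfl, rfl, rfl⟩ := LG.mem_edges hm
  exact (((key _ (Or.inl ⟨a, false, rfl⟩) _).trans
    ((Γ.conn_arrow a).mono (Set.subset_insert _ _))).trans
    (key _ (Or.inl ⟨a, true, rfl⟩) _).symm).cast rfl rfl (by simp)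

/-- Merging two objects is the same as adding an edge with value zero. -/
theorem LG.MergeAt.Zm_eq {O' : Type} {Γ : LG G A O} {ρ : O → O'} {o o' : O}
    (h : Γ.MergeAt ρ o o') :
    Zm (Γ.map ρ).edges = Zm (insert (((1 : G), o), ((1 : G), o'), (0 : Fn G A)) Γ.edges) := by
  obtain ⟨σ, -, h2⟩ := h.exists_section
  exact le_antisymm (Zm_le_of_pull ρ h.pull_insert) (Zm_le_of_pull σ h2)

theorem LG.MergeAt.Im_eq {O' : Type} {Γ : LG G A O} {ρ : O → O'} {o o' : O}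
    (h : Γ.MergeAt ρ o o') {u : O} (hu : u ∈ Γ.used ∪ {o, o'}) :
    Im (Γ.map ρ).edges (ρ u) =
      Im (insert (((1 : G), o), ((1 : G), o'), (0 : Fn G A)) Γ.edges) u := by
  obtain ⟨σ, h1, h2⟩ := h.exists_section
  refine le_antisymm (fun g hg => ?_) (Im_le_of_pull ρ h.pull_insert u)
  obtain ⟨e, he⟩ := Im_le_of_pull σ h2 _ hg
  exact ⟨_, ((h1 u hu 1).symm.trans he).trans (h1 u hu g)⟩

theorem LG.Im_eq_bot (Γ : LG G A O) {u : O} (hu : u ∉ Γ.used) : Im Γ.edges u = ⊥ := by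
  rw [eq_bot_iff]
  rintro g ⟨e, he⟩
  have := (he.of_no_edge fun p q e h => by
    obtain ⟨a, rfl, rfl, rfl⟩ := LG.mem_edges h
    exact ⟨fun h => hu ⟨a, false, h⟩, fun h => hu ⟨a, true, h⟩⟩).1
  exact (Prod.mk.inj this).1

theorem LG.MergeAt.inK {O' : Type} {Γ : LG G A O} {ρ : O → O'} {o o' : O}
    (h : Γ.MergeAt ρ o o') (h1 : ∀ u, InK (Im Γ.edges u))
    (h2 : InK (Im (insert (((1 : G), o), ((1 : G), o'), (0 : Fn G A)) Γ.edges) o)) (w : O') :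
    InK (Im (Γ.map ρ).edges w) := by
  by_cases hw : w ∈ (Γ.map ρ).used
  · obtain ⟨a, s, rfl⟩ := hw
    rw [show (Γ.map ρ).en a s = ρ (Γ.en a s) from rfl, h.Im_eq (Or.inl ⟨a, s, rfl⟩)]
    exact inK_Im_insert h1 h2 _
  · rw [LG.Im_eq_bot _ hw]
    exact inK_bot

variable [Fintype A]

/-- There is an integer-dimensional closed invariant space of cocycles inside `Z`, and if it
is the space of true cocycles then all vertex groups have good image. -/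
def Good (Γ : LG G A O) (Z : Set (H G A)) : Prop :=
  ∃ W : Submodule ℝ (H G A), Inv W ∧ Zm Γ.edges ≤ W ∧ (W : Set (H G A)) ⊆ Z ∧
    (∃ n : ℕ, dim W = n) ∧ (W = Zm Γ.edges → ∀ o, InK (Im Γ.edges o))

namespace Good

theorem mono {Γ : LG G A O} {Z Z' : Set (H G A)} (h : Good Γ Z) (hs : Z ⊆ Z') : Good Γ Z' := by
  obtain ⟨W, h1, h2, h3, h4, h5⟩ := h
  exact ⟨W, h1, h2, h3.trans hs, h4, h5⟩

/-- Change of generators. -/
theorem gen {A' : Type} [Fintype A'] {Γ : LG G A O} {Γ' : LG G A' O} (φ : A → Fn G A')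
    (φ' : A' → Fn G A) (hφ : ∀ a, Conn Γ'.edges (Γ.pt a false) (Γ.pt a true) (φ a))
    (hφ' : ∀ a', Conn Γ.edges (Γ'.pt a' false) (Γ'.pt a' true) (φ' a'))
    {Z : Set (H G A)} {Z' : Set (H G A')}
    (h1 : ∀ c' ∈ Z', ∀ a', φ' a' (fun a => φ a c') = c' a')
    (h2 : ∀ c' ∈ Z', (fun a => φ a c') ∈ Z) (h : Good Γ' Z') : Good Γ Z := by
  obtain ⟨W', i1, i2, i3, ⟨n, i4⟩, i5⟩ := h
  let Ψ : H G A' →L[ℝ] H G A := ContinuousLinearMap.pi φ
  let Ψ' : H G A →L[ℝ] H G A' := ContinuousLinearMap.pi φ'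
  have eφ : ∀ a, EqvF (φ a) := fun a => (hφ a).eqvF Γ'.eqvF_edges
  have eΨ' : Eqv Ψ' := Eqv.pi fun a => (hφ' a).eqvF Γ.eqvF_edges
  have p1 : ∀ {p q e}, Conn Γ.edges p q e → Conn Γ'.edges p q (e.comp Ψ) := fun h =>
    h.pull id Ψ fun p q e hm => by
      obtain ⟨a, rfl, rfl, rfl⟩ := LG.mem_edges hm
      exact hφ a
  have p2 : ∀ {p q e}, Conn Γ'.edges p q e → Conn Γ.edges p q (e.comp Ψ') := fun h =>
    h.pull id Ψ' fun p q e hm => by
      obtain ⟨a, rfl, rfl, rfl⟩ := LG.mem_edges hm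
      exact hφ' a
  let V : Submodule ℝ (H G A) := ⨅ a, LinearMap.ker
    (((φ a).comp Ψ' - ContinuousLinearMap.proj a : Fn G A) : H G A →ₗ[ℝ] L2 G)
  have hV : ∀ c, c ∈ V ↔ (fun a => φ a (Ψ' c)) = c := fun c => by
    simp only [V, Submodule.mem_iInf, LinearMap.mem_ker, ContinuousLinearMap.coe_coe,
      sub_apply, ContinuousLinearMap.comp_apply,
      ContinuousLinearMap.proj_apply, sub_eq_zero, funext_iff]
  have hInv : Inv (W'.comap (Ψ' : H G A →ₗ[ℝ] H G A') ⊓ V) :=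
    (i1.comap eΨ').inf (Inv.iInf fun a => Inv.kerF (((eφ a).comp eΨ').sub (EqvF.proj a)))
  have hZ : ∀ c ∈ Zm Γ.edges, Ψ' c ∈ Zm Γ'.edges := fun c hc p e he => hc p _ (p2 he)
  have hmap : (W'.comap (Ψ' : H G A →ₗ[ℝ] H G A') ⊓ V).map (Ψ' : H G A →ₗ[ℝ] H G A') = W' := by
    refine le_antisymm ?_ fun c' hc' => ?_
    · rintro _ ⟨c, hc, rfl⟩
      exact hc.1
    · have e1 : Ψ' (fun a => φ a c') = c' := funext (h1 c' (i3 hc'))
      refine ⟨fun a => φ a c', ⟨?_, (hV _).mpr (by rw [e1])⟩, e1⟩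
      show Ψ' _ ∈ W'
      rwa [e1]
  refine ⟨_, hInv, fun c hc => ⟨i2 (hZ c hc), (hV c).mpr (funext fun a => ?_)⟩, fun c hc => ?_,
    ⟨n, ?_⟩, fun hW o => ?_⟩
  · exact val_eq hc (p2 (hφ a)) (Γ.conn_arrow a)
  · rw [← (hV c).mp hc.2]
    exact h2 _ (i3 hc.1)
  · rw [← dim_map_of_injOn hInv eΨ' fun c hc h0 => ?_, hmap, i4]
    rw [← (hV c).mp hc.2, h0]
    funext a
    exact map_zero _
  · have e1 : W' = Zm Γ'.edges := by
      refine le_antisymm ?_ i2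
      rw [← hmap, hW]
      rintro _ ⟨c, hc, rfl⟩
      exact hZ c hc
    have e2 : Im Γ.edges o = Im Γ'.edges o :=
      le_antisymm (fun _ ⟨_, he⟩ => ⟨_, p1 he⟩) fun _ ⟨_, he⟩ => ⟨_, p2 he⟩
    rw [e2]
    exact i5 e1 o

theorem relabel {O' : Type} {Γ : LG G A O} {ρ : O → O'} (hρ : Set.InjOn ρ Γ.used)
    {Z : Set (H G A)} (h : Good Γ Z) : Good (Γ.map ρ) Z := by
  obtain ⟨W, i1, i2, i3, i4, i5⟩ := h
  have hle : Zm (Γ.map ρ).edges ≤ Zm Γ.edges := Zm_le_of_pull ρ (Γ.pull_map ρ)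
  refine ⟨W, i1, hle.trans i2, i3, i4, fun hW w => ?_⟩
  by_cases hw : w ∈ (Γ.map ρ).used
  · obtain ⟨a, s, rfl⟩ := hw
    have : Nonempty O := ⟨Γ.en a s⟩
    have hσ : ∀ a s, Function.invFunOn ρ Γ.used (ρ (Γ.en a s)) = Γ.en a s := fun a s =>
      hρ.leftInvOn_invFunOn ⟨a, s, rfl⟩
    have h1 := Im_le_of_pull (𝔈 := (Γ.map ρ).edges) (𝔈' := Γ.edges)
      (Function.invFunOn ρ Γ.used) (fun p q e hm => by
        obtain ⟨a, rfl, rfl, rfl⟩ := LG.mem_edges hm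
        exact (Γ.conn_arrow a).cast (Prod.ext rfl (hσ a false).symm)
          (Prod.ext rfl (hσ a true).symm) rfl) (ρ (Γ.en a s))
    rw [hσ] at h1
    rw [show (Γ.map ρ).en a s = ρ (Γ.en a s) from rfl,
      le_antisymm h1 (Im_le_of_pull ρ (Γ.pull_map ρ) _)]
    exact i5 (le_antisymm (hW.le.trans hle) i2) _
  · rw [LG.Im_eq_bot _ hw]
    exact inK_bot

/-- All ends different. -/
theorem of_injective {Γ : LG G A O} (h : Function.Injective fun ω : A × Bool => Γ.en ω.1 ω.2) :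
    Good Γ Set.univ := by
  refine ⟨⊤, Inv.top, le_top, Set.subset_univ _, ⟨_, dim_top⟩, fun _ o => ?_⟩
  let l : O → G := Function.extend (fun ω : A × Bool => Γ.en ω.1 ω.2)
    (fun ω => Γ.lab ω.1 ω.2) 1
  have hl : ∀ a s, l (Γ.en a s) = Γ.lab a s := fun a s => h.extend_apply _ _ (a, s)
  have key : ∀ p q e, Conn Γ.edges p q e → p.1 * (l p.2)⁻¹ = q.1 * (l q.2)⁻¹ := by
    intro p q e he
    induction he with
    | refl p => rfl
    | step g hm =>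
      obtain ⟨a, rfl, rfl, rfl⟩ := LG.mem_edges hm
      simp [LG.pt, hl]
    | symm _ ih => exact ih.symm
    | trans _ _ ih ih' => exact ih.trans ih'
  have : Im Γ.edges o = ⊥ := by
    rw [eq_bot_iff]
    rintro g ⟨e, he⟩
    have h1 : 1 * (l o)⁻¹ = g * (l o)⁻¹ := key _ _ _ he
    exact (mul_right_cancel h1).symm
  rw [this]
  exact inK_bot

theorem merge_free (hG : Nice G) {O' : Type} {Γ : LG G A O} {ρ : O → O'} {o o' : O}
    (hm : Γ.MergeAt ρ o o') {Z : Set (H G A)} (h : Good Γ Z) : Good (Γ.map ρ) Z := by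
  obtain ⟨W, i1, i2, i3, i4, i5⟩ := h
  have hle : Zm (Γ.map ρ).edges ≤ Zm Γ.edges := Zm_le_of_pull ρ (Γ.pull_map ρ)
  refine ⟨W, i1, hle.trans i2, i3, i4, fun hW => ?_⟩
  have hK := i5 (le_antisymm (hW.le.trans hle) i2)
  have hZ := i2.trans (hW.trans hm.Zm_eq).le
  refine hm.inK hK ?_
  by_cases hc : ∃ τ f, Conn Γ.edges (1, o) (τ, o') f
  · obtain ⟨τ, f, hf⟩ := hc
    rw [Im_insert_hnn hf]
    refine inK_free_hnn hG (hK o) τ fun cA ξ hA => ?_
    obtain ⟨c, z1, a1, a2⟩ := Γ.exists_realize_hnn hm.ne hf hA ξ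
    obtain ⟨cK, k0, k1, -, k3⟩ := exists_coc_insert (hZ z1)
    rw [Im_insert_hnn hf] at k0
    exact ⟨cK, k0, fun g ⟨e, he⟩ => (k1 g e he).trans (a1 g e he), (k3 τ f hf).trans a2⟩
  · rw [Im_insert_amalg hc]
    refine inK_free_amalg hG (hK o) (hK o') fun cA cB hA hB => ?_
    obtain ⟨c, z1, a1, a2⟩ := Γ.exists_realize_amalg hc hA hB
    obtain ⟨cK, k0, k1, k2, -⟩ := exists_coc_insert (hZ z1)
    rw [Im_insert_amalg hc] at k0
    exact ⟨cK, k0, fun g ⟨e, he⟩ => (k1 g e he).trans (a1 g e he),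
      fun g ⟨e, he⟩ => (k2 g e he).trans (a2 g e he)⟩

theorem merge_def {O' : Type} {Γ : LG G A O} {ρ : O → O'} {o o' : O}
    (hm : Γ.MergeAt ρ o o') {e : Fn G A} (he : Conn Γ.edges (1, o) (1, o') e)
    {Z : Set (H G A)} (h : Good Γ Z) : Good (Γ.map ρ) {c | c ∈ Z ∧ e c = 0} := by
  obtain ⟨W, i1, i2, i3, ⟨n, i4⟩, i5⟩ := h
  have hle : Zm (Γ.map ρ).edges ≤ Zm Γ.edges := Zm_le_of_pull ρ (Γ.pull_map ρ)
  have hf : EqvF e := he.eqvF Γ.eqvF_edges
  have hd : Dense (e '' (Zm Γ.edges : Set (H G A))) := fun ξ => by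
    obtain ⟨c, z, -, -, a3⟩ := Γ.exists_gauge hm.ne ξ
    exact subset_closure ⟨c, z, by rw [a3 1 e he, one_smul]⟩
  obtain ⟨d1, d2⟩ := dim_step i1 (inv_Zm Γ.eqvF_edges) i2 hf hd i4
  refine ⟨_, i1.inf (Inv.kerF hf), fun c hc => ⟨i2 (hle hc), ?_⟩, fun c hc => ⟨i3 hc.1, hc.2⟩, d1,
    fun hW => ?_⟩
  · rw [hm.Zm_eq] at hc
    exact val_eq hc (he.mono (Set.subset_insert _ _)) (conn_new _ o o' 1)
  · have hK := i5 (d2 (hW.le.trans hle))
    refine hm.inK hK ?_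
    rw [Im_insert_hnn he, Subgroup.zpowers_one_eq_bot, sup_bot_eq]
    exact hK o

theorem merge_comm (hG : Nice G) {O' : Type} {Γ : LG G A O} {ρ : O → O'} {o o' : O}
    (hm : Γ.MergeAt ρ o o') {x y : G} {ep eq : Fn G A} (hp : Conn Γ.edges (1, o) (x, o) ep)
    (hq : Conn Γ.edges (1, o') (y, o') eq) (hx : x ≠ 1) (hy : y ≠ 1) (hxy : Commute x y)
    {Z : Set (H G A)} (h : Good Γ Z) :
    Good (Γ.map ρ) {c | c ∈ Z ∧ y • ep c - ep c = x • eq c - eq c} := by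
  obtain ⟨W, i1, i2, i3, ⟨n, i4⟩, i5⟩ := h
  have hle : Zm (Γ.map ρ).edges ≤ Zm Γ.edges := Zm_le_of_pull ρ (Γ.pull_map ρ)
  have e1 : EqvF ep := hp.eqvF Γ.eqvF_edges
  have e2 : EqvF eq := hq.eqvF Γ.eqvF_edges
  let f : Fn G A := (x • eq - eq) - (y • ep - ep)
  have hf : EqvF f := ((e2.gsmul x).sub e2).sub ((e1.gsmul y).sub e1)
  have hker : ∀ c, c ∈ LinearMap.ker (f : H G A →ₗ[ℝ] L2 G) ↔
      y • ep c - ep c = x • eq c - eq c := fun c => by
    rw [LinearMap.mem_ker, eq_comm (a := y • ep c - ep c), ← sub_eq_zero (a := x • eq c - eq c)]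
    rfl
  have hd : Dense (f '' (Zm Γ.edges : Set (H G A))) := by
    have h1 : DenseRange ((fun ξ : L2 G => x • ξ - ξ) ∘ fun ξ : L2 G => y • ξ - ξ) :=
      (L2.denseRange_gsmul_sub (hG.tf x hx)).comp (L2.denseRange_gsmul_sub (hG.tf y hy))
        ((continuous_const_smul x).sub continuous_id)
    refine Dense.mono ?_ h1
    rintro _ ⟨ξ, rfl⟩
    obtain ⟨c, z, a1, a2, -⟩ := Γ.exists_gauge hm.ne ξ
    refine ⟨c, z, ?_⟩
    show (x • eq c - eq c) - (y • ep c - ep c) = _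
    rw [a1 x ep hp, a2 y eq hq]
    simp
  obtain ⟨d1, d2⟩ := dim_step i1 (inv_Zm Γ.eqvF_edges) i2 hf hd i4
  refine ⟨_, i1.inf (Inv.kerF hf), fun c hc => ⟨i2 (hle hc), (hker c).mpr ?_⟩,
    fun c hc => ⟨i3 hc.1, (hker c).mp hc.2⟩, d1, fun hW => ?_⟩
  · rw [hm.Zm_eq] at hc
    obtain ⟨cK, k0, k1, k2, -⟩ := exists_coc_insert hc
    rw [← k1 x ep hp, ← k2 y eq hq]
    exact (k0.comm ⟨_, hp.mono (Set.subset_insert _ _)⟩
      ⟨_, ((conn_new _ o o' 1).trans (hq.mono (Set.subset_insert _ _))).trans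
        (conn_new _ o o' y).symm⟩ hxy).symm
  · have hK := i5 (d2 (hW.le.trans hle))
    have hZ : ∀ c ∈ Zm Γ.edges, y • ep c - ep c = x • eq c - eq c →
        c ∈ Zm (insert (((1 : G), o), ((1 : G), o'), (0 : Fn G A)) Γ.edges) := fun c hc h0 =>
      (hW.trans hm.Zm_eq).le ⟨i2 hc, (hker c).mpr h0⟩
    refine hm.inK hK ?_
    by_cases hc : ∃ τ f, Conn Γ.edges (1, o) (τ, o') f
    · obtain ⟨τ, f', hf'⟩ := hc
      rw [Im_insert_hnn hf']
      refine inK_comm_hnn hG (hK o) ⟨_, hp⟩ ⟨_, conj_mem_Im hf' hq⟩ hx hy hxy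
        fun cA ξ η hA hη h0 => ?_
      obtain ⟨c, z1, a1, a2⟩ := Γ.exists_realize_hnn hm.ne hf' hA ξ
      have e3 : η = eq c := by
        rw [hη, ← a1 _ _ (conj_mem_Im hf' hq)]
        simp only [add_apply, neg_apply,
          smul_apply, a2]
        rw [neg_add_cancel_right, add_sub_cancel_left, inv_smul_smul]
      obtain ⟨cK, k0, k1, -, k3⟩ := exists_coc_insert (hZ c z1 (by rw [a1 x ep hp, ← e3, h0]))
      rw [Im_insert_hnn hf'] at k0
      exact ⟨cK, k0, fun g ⟨e, he⟩ => (k1 g e he).trans (a1 g e he), (k3 τ f' hf').trans a2⟩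
    · rw [Im_insert_amalg hc]
      refine inK_comm_amalg hG (hK o) (hK o') ⟨_, hp⟩ ⟨_, hq⟩ hx hy hxy fun cA cB hA hB h0 => ?_
      obtain ⟨c, z1, a1, a2⟩ := Γ.exists_realize_amalg hc hA hB
      obtain ⟨cK, k0, k1, k2, -⟩ :=
        exists_coc_insert (hZ c z1 (by rw [a1 x ep hp, a2 y eq hq, h0]))
      rw [Im_insert_amalg hc] at k0
      exact ⟨cK, k0, fun g ⟨e, he⟩ => (k1 g e he).trans (a1 g e he),
        fun g ⟨e, he⟩ => (k2 g e he).trans (a2 g e he)⟩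

end Good

end Pool.Agent.Lib.MP_d87150_al
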