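import Pool.Agent.Lib.MP_d87150_al.Main

/-!
# The system attached to a finite set of group elements
-/

set_option autoImplicit false

noncomputable section

namespace Pool.Agent.Lib.MP_d87150_al

open Set

/-- The graph with one object and a loop labelled `s a` for each `a`. -/
def genGraph {G A : Type} [Group G] (s : A → G) : LG G A Unit :=
  ⟨fun _ _ => (), fun a σ => if σ then s a else 1⟩

theorem init_conn_gen {G A : Type} [Group G] (s : A → G) (a : A) :
    Conn (genGraph s).edges (1, ()) (s a, ()) (ContinuousLinearMap.proj a) :=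
  (genGraph s).conn_arrow a

variable {Λ T G : Type} [AddCommGroup Λ] [LinearOrder Λ] [IsOrderedAddMonoid Λ] [Module ℚ Λ]
  [Group G] [MulAction G T] {𝒯 : LTree Λ T}

omit [Module ℚ Λ] in
/-- A parametrization of a segment. -/
theorem init_exists_geo (𝒯 : LTree Λ T) (x y : T) :
    ∃ κ : Λ → T, ∀ t, 0 ≤ t → t ≤ 𝒯.d x y → 𝒯.d x (κ t) = t ∧ 𝒯.Btw x (κ t) y := by
  have h : ∀ t : Λ, ∃ m, 0 ≤ t → t ≤ 𝒯.d x y → 𝒯.d x m = t ∧ 𝒯.Btw x m y := by
    intro t
    by_cases ht : 0 ≤ t ∧ t ≤ 𝒯.d x y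
    · obtain ⟨m, h1, h2⟩ := 𝒯.geo x y t ht.1 ht.2
      refine ⟨m, fun _ _ => ⟨h1, ?_⟩⟩
      unfold LTree.Btw
      rw [h1, h2]
      abel
    · exact ⟨x, fun h1 h2 => absurd ⟨h1, h2⟩ ht⟩
  choose κ hκ using h
  exact ⟨κ, hκ⟩

omit [Module ℚ Λ] in
theorem init_geo_iso {x y : T} {κ : Λ → T}
    (hκ : ∀ t, 0 ≤ t → t ≤ 𝒯.d x y → 𝒯.d x (κ t) = t ∧ 𝒯.Btw x (κ t) y) {s t : Λ}
    (hs : s ∈ Icc 0 (𝒯.d x y)) (ht : t ∈ Icc 0 (𝒯.d x y)) : 𝒯.d (κ s) (κ t) = |s - t| := by
  have key : ∀ s t : Λ, s ∈ Icc 0 (𝒯.d x y) → t ∈ Icc 0 (𝒯.d x y) → s ≤ t →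
      𝒯.d (κ s) (κ t) = t - s := by
    intro s t hs ht hst
    obtain ⟨a1, a2⟩ := hκ s hs.1 hs.2
    obtain ⟨b1, b2⟩ := hκ t ht.1 ht.2
    have := (a2.order b2 (by rw [a1, b1]; exact hst)).1
    unfold LTree.Btw at this
    rw [a1, b1] at this
    exact eq_sub_of_add_eq' this
  rcases le_total s t with h | h
  · rw [key s t hs ht h, abs_sub_comm, abs_of_nonneg (sub_nonneg.2 h)]
  · rw [𝒯.d_comm, key t s ht hs h, abs_of_nonneg (sub_nonneg.2 h)]

/-- Triples of elements of `B` with `a * b = ab`. -/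
abbrev InitTr (B : Finset G) : Type := {x : B × B × B // (x.1 : G) * x.2.1 = x.2.2}

/-- Index set of the bands. -/
abbrev InitJ (B : Finset G) : Type := (B ⊕ B) ⊕ (InitTr B ⊕ InitTr B ⊕ InitTr B)

open Classical in
/-- The bands attached to a finite set of group elements. -/
def initBand (B : Finset G) (ℓ : G → Λ) (x : G → G → Λ) : InitJ B → Band G Λ (Option B)
  | .inl (.inl b) => ⟨{0}, Finset.singleton_nonempty _, fun σ => if σ then some b else none,
      fun _ => 1, fun _ => 1, fun _ => 0⟩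
  | .inl (.inr b) => ⟨{0}, Finset.singleton_nonempty _, fun σ => if σ then none else some b,
      fun σ => if σ then b else 1, fun _ => 1, fun σ => if σ then 0 else ℓ b⟩
  | .inr (.inl τ) => ⟨{0, x τ.1.1 τ.1.2.2}, Finset.insert_nonempty _ _,
      fun σ => if σ then some τ.1.2.2 else some τ.1.1, fun _ => 1, fun _ => 1, fun _ => 0⟩
  | .inr (.inr (.inl τ)) => ⟨{0, ℓ τ.1.1 - x τ.1.1 τ.1.2.2}, Finset.insert_nonempty _ _,
      fun σ => if σ then some τ.1.2.1 else some τ.1.1, fun σ => if σ then τ.1.1 else 1,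
      fun σ => if σ then 1 else -1, fun σ => if σ then 0 else ℓ τ.1.1⟩
  | .inr (.inr (.inr τ)) => ⟨{0, ℓ τ.1.2.2 - x τ.1.1 τ.1.2.2}, Finset.insert_nonempty _ _,
      fun σ => if σ then some τ.1.2.2 else some τ.1.2.1, fun σ => if σ then 1 else τ.1.1,
      fun _ => -1, fun σ => if σ then ℓ τ.1.2.2 else ℓ τ.1.2.1⟩

/-- Partial cocycles on a finite set. -/
theorem good_ball [Nonempty T] (hI : 𝒯.Iso G) (hH : ∀ g : G, g ≠ 1 → 𝒯.Hyp g) (B : Finset G) :
    Good (genGraph (Subtype.val : B → G))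
      {γ | ∀ a b ab : B, (a : G) * b = ab → γ ab = γ a + (a : G) • γ b} := by
  classical
  obtain ⟨p⟩ := ‹Nonempty T›
  let 𝒜 : Amb Λ T G Λ := ⟨𝒯, hI, hH, AddMonoidHom.id Λ, strictMono_id⟩
  let ℓ : G → Λ := fun g => 𝒯.d p (g • p)
  have hℓ : ∀ g, 0 ≤ ℓ g := fun g => 𝒯.d_nonneg _ _
  choose κ hκ using fun g : G => init_exists_geo 𝒯 p (g • p)
  choose m hm1 hm2 hm3 using fun g h : G => LTree.exists_median (𝒯 := 𝒯) p (g • p) (h • p)
  let x : G → G → Λ := fun g h => 𝒯.d p (m g h)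
  have κeq : ∀ g t q, 𝒯.Btw p q (g • p) → 𝒯.d p q = t → (0 ≤ t ∧ t ≤ ℓ g) ∧ κ g t = q := by
    intro g t q hq ht
    have h0 : 0 ≤ t := ht ▸ 𝒯.d_nonneg _ _
    have h1 : t ≤ ℓ g := by
      have : 𝒯.d p q + 𝒯.d q (g • p) = ℓ g := hq
      rw [← this, ht]
      exact le_add_of_nonneg_right (𝒯.d_nonneg _ _)
    obtain ⟨a1, a2⟩ := hκ g t h0 h1
    exact ⟨⟨h0, h1⟩, a2.unique hq (a1.trans ht.symm)⟩
  have κ0 : ∀ g, κ g 0 = p := fun g =>
    (κeq g 0 p (by unfold LTree.Btw; rw [𝒯.d_self, zero_add]) (𝒯.d_self p)).2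
  have κ1 : ∀ g, κ g (ℓ g) = g • p := fun g =>
    (κeq g (ℓ g) (g • p) (by unfold LTree.Btw; rw [𝒯.d_self, add_zero]) rfl).2
  have κa : ∀ g h, (0 ≤ x g h ∧ x g h ≤ ℓ g) ∧ κ g (x g h) = m g h := fun g h =>
    κeq g _ _ (hm1 g h) rfl
  have κb : ∀ g h, (0 ≤ x g h ∧ x g h ≤ ℓ h) ∧ κ h (x g h) = m g h := fun g h =>
    κeq h _ _ (hm3 g h) rfl
  have κc : ∀ a b, (0 ≤ ℓ a - x a (a * b) ∧ ℓ a - x a (a * b) ≤ ℓ b) ∧
      κ b (ℓ a - x a (a * b)) = a⁻¹ • m a (a * b) := by
    intro a b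
    refine κeq b _ _ ?_ ?_
    · have := hI.btw a⁻¹ (hm2 a (a * b))
      rwa [inv_smul_smul, mul_smul, inv_smul_smul] at this
    · have h1 : 𝒯.d p (m a (a * b)) + 𝒯.d (m a (a * b)) (a • p) = ℓ a := hm1 a (a * b)
      rw [← hI a, smul_inv_smul, 𝒯.d_comm]
      exact eq_sub_of_add_eq' h1
  have κd : ∀ a b, ℓ b - (ℓ (a * b) - x a (a * b)) = ℓ a - x a (a * b) := by
    intro a b
    have h1 : x a (a * b) + 𝒯.d (m a (a * b)) (a • p) = ℓ a := hm1 a (a * b)
    have h2 : 𝒯.d (a • p) (m a (a * b)) + 𝒯.d (m a (a * b)) ((a * b) • p) =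
      𝒯.d (a • p) ((a * b) • p) := hm2 a (a * b)
    have h3 : x a (a * b) + 𝒯.d (m a (a * b)) ((a * b) • p) = ℓ (a * b) := hm3 a (a * b)
    have h4 : 𝒯.d (a • p) ((a * b) • p) = ℓ b := by rw [mul_smul, hI]
    rw [h4, 𝒯.d_comm] at h2
    rw [← h1, ← h2, ← h3]
    abel
  let C : Charts 𝒜 (Option B) :=
    { ch := fun o => o.elim (fun _ => p) fun b => κ b
      dom := fun o => o.elim {0} fun b => Icc 0 (ℓ b)
      conv := by
        rintro (_ | b)
        · exact ordConnected_singleton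
        · exact ordConnected_Icc
      iso := by
        rintro (_ | b) s hs t ht
        · obtain rfl : s = 0 := hs
          obtain rfl : t = 0 := ht
          rw [sub_zero, abs_zero, map_zero]
          exact 𝒯.d_self p
        · exact init_geo_iso (hκ b) hs ht }
  have hval : ∀ k, ∀ t ∈ (initBand B ℓ x k).F, (initBand B ℓ x k).ValidAt C t := by
    rintro ((b | b) | (⟨⟨a, b, ab⟩, h⟩ | ⟨⟨a, b, ab⟩, h⟩ | ⟨⟨a, b, ab⟩, h⟩)) t ht
    · obtain rfl : t = 0 := Finset.mem_singleton.1 ht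
      refine ⟨?_, ?_⟩
      · rintro (_ | _) <;> simp [initBand, Band.pos, C, hℓ]
      · simp [initBand, Band.pos, C, κ0]
    · obtain rfl : t = 0 := Finset.mem_singleton.1 ht
      refine ⟨?_, ?_⟩
      · rintro (_ | _) <;> simp [initBand, Band.pos, C, hℓ]
      · simp [initBand, Band.pos, C, κ1]
    · simp only [initBand, Finset.mem_insert, Finset.mem_singleton] at ht
      rcases ht with rfl | rfl
      · refine ⟨?_, ?_⟩
        · rintro (_ | _) <;> simp [initBand, Band.pos, C, hℓ]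
        · simp [initBand, Band.pos, C, κ0]
      · refine ⟨?_, ?_⟩
        · rintro (_ | _)
          · simpa [initBand, Band.pos, C] using (κa a ab).1
          · simpa [initBand, Band.pos, C] using (κb a ab).1
        · simp [initBand, Band.pos, C, (κa a ab).2, (κb a ab).2]
    · simp only [initBand, Finset.mem_insert, Finset.mem_singleton] at ht
      have h' : (a : G) * b = ab := h
      have c1 := κc a b
      rw [h'] at c1
      rcases ht with rfl | rfl
      · refine ⟨?_, ?_⟩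
        · rintro (_ | _) <;> simp [initBand, Band.pos, C, hℓ]
        · simp [initBand, Band.pos, C, κ0, κ1]
      · refine ⟨?_, ?_⟩
        · rintro (_ | _)
          · simpa [initBand, Band.pos, C] using (κa a ab).1
          · simpa [initBand, Band.pos, C] using c1.1
        · simp [initBand, Band.pos, C, (κa a ab).2, c1.2]
    · simp only [initBand, Finset.mem_insert, Finset.mem_singleton] at ht
      have h' : (a : G) * b = ab := h
      have c1 := κc a b
      have c2 := κd a b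
      rw [h'] at c1 c2
      rcases ht with rfl | rfl
      · refine ⟨?_, ?_⟩
        · rintro (_ | _) <;> simp [initBand, Band.pos, C, hℓ]
        · simp [initBand, Band.pos, C, κ1, ← mul_smul, h']
      · have e1 : (initBand B ℓ x (.inr (.inr (.inr ⟨(a, b, ab), h⟩)))).pos false
            (ℓ ab - x a ab) = ℓ a - x a ab := by
          rw [← c2]
          simp only [initBand, Band.pos, Bool.false_eq_true, if_false, Units.neg_smul, one_smul]
          abel
        have e2 : (initBand B ℓ x (.inr (.inr (.inr ⟨(a, b, ab), h⟩)))).pos true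
            (ℓ ab - x a ab) = x a ab := by
          simp [initBand, Band.pos]
        refine ⟨?_, ?_⟩
        · rintro (_ | _)
          · rw [e1]
            exact c1.1
          · rw [e2]
            exact (κb a ab).1
        · rw [e1, e2]
          simp [initBand, C, (κb a ab).2, c1.2]
  let S : Sys 𝒜 (Option B) (InitJ B) := ⟨C, initBand B ℓ x, hval⟩
  have hg := Good.collapse (Γ := S.gr) none
    (fun o => o.elim 0 fun b => ContinuousLinearMap.proj (.inl (.inl b)))
    (by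
      rintro (_ | b)
      · exact Conn.refl _
      · exact S.gr.conn_arrow (.inl (.inl b))) rfl S.isGood
  have key : ∀ c : H G (InitJ B), c ∈ S.Z0 → (∀ b, c (.inl (.inl b)) = 0) → ∀ τ : InitTr B,
      c (.inr (.inl τ)) = 0 ∧ c (.inr (.inr (.inl τ))) = c (.inl (.inr τ.1.1)) ∧
        c (.inr (.inr (.inr τ))) = -c (.inl (.inr τ.1.1)) ∧
        c (.inl (.inr τ.1.2.2)) = c (.inl (.inr τ.1.1)) + (τ.1.1 : G) • c (.inl (.inr τ.1.2.1)) := by
    rintro c ⟨β, hβ⟩ h0 ⟨⟨a, b, ab⟩, h⟩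
    have h' : (a : G) * b = ab := h
    have c2 := κd a b
    rw [h'] at c2
    have b0 : ∀ b : B, β (some b) 0 = β none 0 := by
      intro b
      have := hβ (.inl (.inl b)) 0 (Finset.mem_singleton_self _)
      rw [h0] at this
      simpa [S, initBand, Band.del, Band.pos, eq_comm, sub_eq_zero] using this
    have b1 : ∀ b : B, c (.inl (.inr b)) = (b : G) • β none 0 - β (some b) (ℓ b) := by
      intro b
      simpa [S, initBand, Band.del, Band.pos] using
        hβ (.inl (.inr b)) 0 (Finset.mem_singleton_self _)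
    have p1 : c (.inr (.inl ⟨(a, b, ab), h⟩)) = 0 := by
      simpa [S, initBand, Band.del, Band.pos, b0] using
        hβ (.inr (.inl ⟨(a, b, ab), h⟩)) 0 (Finset.mem_insert_self _ _)
    have q1 : c (.inr (.inl ⟨(a, b, ab), h⟩)) = β (some ab) (x a ab) - β (some a) (x a ab) := by
      simpa [S, initBand, Band.del, Band.pos] using
        hβ (.inr (.inl ⟨(a, b, ab), h⟩)) (x a ab)
          (Finset.mem_insert_of_mem (Finset.mem_singleton_self _))
    have p2 : c (.inr (.inr (.inl ⟨(a, b, ab), h⟩))) =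
        (a : G) • β none 0 - β (some a) (ℓ a) := by
      simpa [S, initBand, Band.del, Band.pos, b0] using
        hβ (.inr (.inr (.inl ⟨(a, b, ab), h⟩))) 0 (Finset.mem_insert_self _ _)
    have q2 : c (.inr (.inr (.inl ⟨(a, b, ab), h⟩))) =
        (a : G) • β (some b) (ℓ a - x a ab) - β (some a) (x a ab) := by
      simpa [S, initBand, Band.del, Band.pos] using
        hβ (.inr (.inr (.inl ⟨(a, b, ab), h⟩))) (ℓ a - x a ab)
          (Finset.mem_insert_of_mem (Finset.mem_singleton_self _))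
    have p3 : c (.inr (.inr (.inr ⟨(a, b, ab), h⟩))) =
        β (some ab) (ℓ ab) - (a : G) • β (some b) (ℓ b) := by
      simpa [S, initBand, Band.del, Band.pos] using
        hβ (.inr (.inr (.inr ⟨(a, b, ab), h⟩))) 0 (Finset.mem_insert_self _ _)
    have q3 : c (.inr (.inr (.inr ⟨(a, b, ab), h⟩))) =
        β (some ab) (x a ab) - (a : G) • β (some b) (ℓ a - x a ab) := by
      have c3 : x a ab - ℓ ab + ℓ b = ℓ a - x a ab := by rw [← c2]; abel
      simpa [S, initBand, Band.del, Band.pos, c3] using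
        hβ (.inr (.inr (.inr ⟨(a, b, ab), h⟩))) (ℓ ab - x a ab)
          (Finset.mem_insert_of_mem (Finset.mem_singleton_self _))
    have r1 : c (.inr (.inr (.inl ⟨(a, b, ab), h⟩))) = c (.inl (.inr a)) := by rw [p2, b1]
    have r2 : c (.inr (.inr (.inr ⟨(a, b, ab), h⟩))) = -c (.inl (.inr a)) := by
      rw [← r1, q2, q3, neg_sub, sub_left_inj, ← sub_eq_zero, ← q1, p1]
    refine ⟨p1, r1, r2, ?_⟩
    rw [p3] at r2
    have r3 : c (.inl (.inr a)) = (a : G) • β (some b) (ℓ b) - β (some ab) (ℓ ab) := by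
      rw [← neg_sub, r2, neg_neg]
    change c (.inl (.inr ab)) = c (.inl (.inr a)) + (a : G) • c (.inl (.inr b))
    rw [r3, b1 ab, b1 b, smul_sub, ← mul_smul, h']
    abel
  refine Good.gen (Γ := genGraph (Subtype.val : B → G)) (Γ' := S.gr.map fun _ => ())
    (fun b => ContinuousLinearMap.proj (.inl (.inr b)))
    (Sum.elim (Sum.elim (fun _ => 0) fun b => ContinuousLinearMap.proj b)
      (Sum.elim (fun _ => 0) (Sum.elim (fun τ => ContinuousLinearMap.proj τ.1.1)
        fun τ => -ContinuousLinearMap.proj τ.1.1)))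
    (fun b => (S.gr.map fun _ => ()).conn_arrow (.inl (.inr b))) ?_ ?_ ?_ hg
  · rintro ((b | b) | (τ | τ | τ))
    · exact Conn.refl _
    · exact init_conn_gen (Subtype.val : B → G) b
    · exact Conn.refl _
    · exact init_conn_gen (Subtype.val : B → G) τ.1.1
    · exact (init_conn_gen (Subtype.val : B → G) τ.1.1).symm
  · rintro c ⟨hc, h0⟩ ((b | b) | (τ | τ | τ))
    · exact (h0 (some b)).symm
    · rfl
    · exact (key c hc (fun b => h0 (some b)) τ).1.symm
    · exact (key c hc (fun b => h0 (some b)) τ).2.1.symm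
    · exact (key c hc (fun b => h0 (some b)) τ).2.2.1.symm
  · rintro c ⟨hc, h0⟩ a b ab h
    exact (key c hc (fun b => h0 (some b)) ⟨(a, b, ab), h⟩).2.2.2

/-- `γ` is a cocycle as far as products inside `S` are concerned. -/
def InitPC (S : Set G) (γ : G → L2 G) : Prop :=
  ∀ a ∈ S, ∀ b ∈ S, a * b ∈ S → γ (a * b) = γ a + a • γ b

/-- The functional `e` computes the value at `g` of all such `γ`. -/
def InitCov {A : Type} (s : A → G) (S : Set G) (g : G) (e : Fn G A) : Prop :=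
  ∀ γ : G → L2 G, InitPC (S ∪ (insert 1 (range s))) γ → e (fun a => γ (s a)) = γ g

theorem InitCov.mono {A : Type} {s : A → G} {S S' : Set G} {g : G} {e : Fn G A}
    (h : InitCov s S g e) (hs : S ⊆ S') : InitCov s S' g e := fun γ hγ =>
  h γ fun a ha b hb hab =>
    hγ a (union_subset_union_left _ hs ha) b (union_subset_union_left _ hs hb)
      (union_subset_union_left _ hs hab)

/-- Every element of `S` is reached by a path that stays in `S`. -/
def InitCl {A : Type} (s : A → G) (S : Set G) : Prop :=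
  ∀ b ∈ S, ∃ e, Conn (genGraph s).edges (1, ()) (b, ()) e ∧ InitCov s S b e

theorem init_cov_one {A : Type} (s : A → G) (S : Set G) : InitCov s S 1 0 := by
  intro γ hγ
  have h1 : (1 : G) ∈ S ∪ insert 1 (range s) := Or.inr (mem_insert _ _)
  have := hγ 1 h1 1 h1 (by rwa [mul_one])
  rw [mul_one, one_smul] at this
  exact (left_eq_add.1 this).symm

theorem init_exists_cl {A : Type} (s : A → G) {q : G × Unit} {e : Fn G A}
    (h : Conn (genGraph s).edges (1, ()) q e) :
    ∃ S : Set G, S.Finite ∧ q.1 ∈ S ∧ InitCov s S q.1 e ∧ InitCl s S := by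
  refine Conn.induction_tail (p := (1, ()))
    (P := fun q e => ∃ S : Set G, S.Finite ∧ q.1 ∈ S ∧ InitCov s S q.1 e ∧ InitCl s S)
    ⟨{1}, finite_singleton _, rfl, init_cov_one s _, ?_⟩ ?_ ?_ h
  · rintro b rfl
    exact ⟨0, Conn.refl _, init_cov_one s _⟩
  · rintro q e g a b f hc ⟨S, hS, hq, hcov, hcl⟩ hab rfl
    have hc' := hc.trans (Conn.step g hab)
    obtain ⟨i, rfl, rfl, rfl⟩ := LG.mem_edges hab
    have e1 : (tr g ((genGraph s).pt i false)).1 = g := mul_one g
    have e2 : tr g ((genGraph s).pt i true) = (g * s i, ()) := rfl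
    rw [e1] at hq hcov
    rw [e2] at hc' ⊢
    have hcov' : InitCov s (insert (g * s i) S) (g * s i)
        (e + g • (ContinuousLinearMap.proj i : Fn G A)) := by
      intro γ hγ
      have h1 := hcov.mono (subset_insert (g * s i) S) γ hγ
      have h2 := hγ g (Or.inl (mem_insert_of_mem _ hq)) (s i)
        (Or.inr (mem_insert_of_mem _ (mem_range_self i))) (Or.inl (mem_insert _ _))
      rw [h2, ← h1]
      rfl
    refine ⟨insert (g * s i) S, hS.insert _, mem_insert _ _, hcov', ?_⟩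
    rintro b (rfl | hb)
    · exact ⟨_, hc', hcov'⟩
    · obtain ⟨f, hf, hf'⟩ := hcl b hb
      exact ⟨f, hf, hf'.mono (subset_insert _ _)⟩
  · rintro q e g a b f hc ⟨S, hS, hq, hcov, hcl⟩ hab rfl
    have hc' := hc.trans (Conn.step g hab).symm
    obtain ⟨i, rfl, rfl, rfl⟩ := LG.mem_edges hab
    have e1 : tr g ((genGraph s).pt i false) = (g, ()) := Prod.ext (mul_one g) rfl
    have e2 : (tr g ((genGraph s).pt i true)).1 = g * s i := rfl
    rw [e2] at hq hcov
    rw [e1, ← sub_eq_add_neg] at hc'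
    rw [e1]
    have hcov' : InitCov s (insert g S) g (e - g • (ContinuousLinearMap.proj i : Fn G A)) := by
      intro γ hγ
      have h1 := hcov.mono (subset_insert g S) γ hγ
      have h2 := hγ g (Or.inl (mem_insert _ _)) (s i)
        (Or.inr (mem_insert_of_mem _ (mem_range_self i))) (Or.inl (mem_insert_of_mem _ hq))
      have h3 : (e - g • (ContinuousLinearMap.proj i : Fn G A)) (fun a => γ (s a)) =
          e (fun a => γ (s a)) - g • γ (s i) := rfl
      rw [h3, h1, h2, add_sub_cancel_right]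
    refine ⟨insert g S, hS.insert _, mem_insert _ _, hcov', ?_⟩
    rintro b (rfl | hb)
    · exact ⟨_, hc', hcov'⟩
    · obtain ⟨f, hf, hf'⟩ := hcl b hb
      exact ⟨f, hf, hf'.mono (subset_insert _ _)⟩

/-- Finitely many relators. -/
theorem good_loops [Nonempty T] (hI : 𝒯.Iso G) (hH : ∀ g : G, g ≠ 1 → 𝒯.Hyp g) {A : Type}
    [Fintype A] (s : A → G) {L : Set (Fn G A)} (hL : L.Finite)
    (hc : ∀ e ∈ L, Conn (genGraph s).edges (1, ()) (1, ()) e) :
    Good (genGraph s) {c | ∀ e ∈ L, e c = 0} := by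
  classical
  have h1 : ∀ e : L, ∃ S : Set G, S.Finite ∧ InitCov s S 1 e ∧ InitCl s S := fun e => by
    obtain ⟨S, a1, -, a3, a4⟩ := init_exists_cl s (hc e e.2)
    exact ⟨S, a1, a3, a4⟩
  have h2 : ∀ a : Option A, ∃ S : Set G, S.Finite ∧ a.elim 1 s ∈ S ∧ InitCl s S := by
    rintro (_ | a)
    · obtain ⟨S, a1, a2, -, a4⟩ := init_exists_cl s (Conn.refl (1, ()))
      exact ⟨S, a1, a2, a4⟩
    · obtain ⟨S, a1, a2, -, a4⟩ := init_exists_cl s (init_conn_gen s a)
      exact ⟨S, a1, a2, a4⟩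
  choose S₁ f1 c1 l1 using h1
  choose S₂ f2 m2 l2 using h2
  haveI : Finite L := hL
  have hfin : ((⋃ e, S₁ e) ∪ ⋃ a, S₂ a).Finite := (finite_iUnion f1).union (finite_iUnion f2)
  obtain ⟨B, hB⟩ : ∃ B : Finset G, (B : Set G) = (⋃ e, S₁ e) ∪ ⋃ a, S₂ a :=
    ⟨hfin.toFinset, hfin.coe_toFinset⟩
  have s1 : ∀ e, S₁ e ⊆ B := fun e => hB ▸ (subset_iUnion S₁ e).trans subset_union_left
  have s2 : ∀ a, S₂ a ⊆ B := fun a => hB ▸ (subset_iUnion S₂ a).trans subset_union_right
  have hcl : InitCl s B := by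
    intro b hb
    have hb' := hb
    rw [hB] at hb'
    rcases hb' with hb' | hb'
    · obtain ⟨e, he⟩ := mem_iUnion.1 hb'
      obtain ⟨f, a1, a2⟩ := l1 e b he
      exact ⟨f, a1, a2.mono (s1 e)⟩
    · obtain ⟨e, he⟩ := mem_iUnion.1 hb'
      obtain ⟨f, a1, a2⟩ := l2 e b he
      exact ⟨f, a1, a2.mono (s2 e)⟩
  have hone : (1 : G) ∈ B := s2 none (m2 none)
  have hs : ∀ a, s a ∈ B := fun a => s2 (some a) (m2 (some a))
  choose ev hev1 hev2 using fun b : B => hcl b b.2
  have key : ∀ γ : H G B, (∀ a b ab : B, (a : G) * b = ab → γ ab = γ a + (a : G) • γ b) →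
      ∀ g (hg : g ∈ B) (e : Fn G A), InitCov s B g e →
        e (fun a => γ ⟨s a, hs a⟩) = γ ⟨g, hg⟩ := by
    intro γ hγ g hg e he
    let γ' : G → L2 G := fun g => if h : g ∈ B then γ ⟨g, h⟩ else 0
    have hγ' : ∀ g (h : g ∈ B), γ' g = γ ⟨g, h⟩ := fun g h => dif_pos h
    have hsub : ∀ u ∈ (B : Set G) ∪ insert 1 (range s), u ∈ B := by
      rintro u (hu | rfl | ⟨a, rfl⟩)
      · exact hu
      · exact hone
      · exact hs a
    have := he γ' fun a ha b hb hab => by
      rw [hγ' _ (hsub _ ha), hγ' _ (hsub _ hb), hγ' _ (hsub _ hab)]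
      exact hγ ⟨a, hsub _ ha⟩ ⟨b, hsub _ hb⟩ ⟨a * b, hsub _ hab⟩ rfl
    rw [hγ' g hg] at this
    rw [← this]
    exact congrArg e (funext fun a => (hγ' _ (hs a)).symm)
  refine Good.gen (Γ := genGraph s) (Γ' := genGraph (Subtype.val : B → G))
    (fun a => ContinuousLinearMap.proj (⟨s a, hs a⟩ : B)) ev
    (fun a => init_conn_gen (Subtype.val : B → G) ⟨s a, hs a⟩) hev1 ?_ ?_ (good_ball hI hH B)
  · intro γ hγ b
    exact key γ hγ b b.2 _ (hev2 b)
  · intro γ hγ e he
    have h3 := key γ hγ 1 hone e ((c1 ⟨e, he⟩).mono (s1 _))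
    have h4 := hγ ⟨1, hone⟩ ⟨1, hone⟩ ⟨1, hone⟩ (mul_one _)
    rw [one_smul] at h4
    exact h3.trans (left_eq_add.1 h4)

theorem isFinitelyPresented_of_tree [Nonempty T] [Group.FG G] (hI : 𝒯.Iso G)
    (hH : ∀ g : G, g ≠ 1 → 𝒯.Hyp g) : Group.IsFinitelyPresented G := by
  classical
  obtain ⟨S, hS⟩ := Group.fg_def.1 (inferInstance : Group.FG G)
  let s : S → G := Subtype.val
  have hIm : Im (genGraph s).edges () = ⊤ := by
    rw [eq_top_iff, ← hS, Subgroup.closure_le]
    intro g hg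
    exact ⟨_, init_conn_gen s ⟨g, hg⟩⟩
  have hcount : Countable G := by
    have hsurj : Function.Surjective (FreeGroup.lift s) := by
      rw [← MonoidHom.range_eq_top, FreeGroup.range_lift_eq_closure, Subtype.range_coe_subtype]
      exact hS
    exact hsurj.countable
  obtain ⟨u, hu⟩ := exists_surjective_nat G
  have hev : ∀ g : G, ∃ e, Conn (genGraph s).edges (1, ()) (g, ()) e := fun g =>
    mem_Im.1 (hIm ▸ Subgroup.mem_top g)
  choose ev hev using hev
  let r : G → S → Fn G S := fun g a =>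
    ev g + g • (ContinuousLinearMap.proj a : Fn G S) + -ev (g * s a)
  have hr : ∀ g a, Conn (genGraph s).edges (1, ()) (1, ()) (r g a) := by
    intro g a
    have h1 := (init_conn_gen s a).translate g
    rw [tr_mk, tr_mk, mul_one] at h1
    exact ((hev g).trans h1).trans (hev (g * s a)).symm
  let Z : ℕ → Submodule ℝ (H G S) := fun n =>
    ⨅ x : Fin n × S, LinearMap.ker (r (u x.1) x.2 : H G S →ₗ[ℝ] L2 G)
  have hZmem : ∀ n c, c ∈ Z n ↔ ∀ i < n, ∀ a, r (u i) a c = 0 := by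
    intro n c
    simp only [Z, Submodule.mem_iInf, LinearMap.mem_ker]
    exact ⟨fun h i hi a => h (⟨i, hi⟩, a), fun h x => h x.1 x.1.2 x.2⟩
  have hZinv : ∀ n, Inv (Z n) := fun n =>
    Inv.iInf fun x => Inv.kerF ((hr _ _).eqvF (genGraph s).eqvF_edges)
  have hanti : Antitone Z := by
    intro m n hmn c hc
    rw [hZmem] at hc ⊢
    exact fun i hi a => hc i (hi.trans_le hmn) a
  have hinf : (⨅ n, Z n) ≤ Zm (genGraph s).edges := by
    intro c hc
    refine mem_Zm_of_potential (fun p => ev p.1 c) ?_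
    intro g p q e he
    obtain ⟨a, rfl, rfl, rfl⟩ := LG.mem_edges he
    obtain ⟨i, rfl⟩ := hu g
    have h1 := (hZmem _ c).1 ((Submodule.mem_iInf _).1 hc (i + 1)) i (Nat.lt_succ_self i) a
    have h2 : r (u i) a c = ev (u i) c + u i • c a + -ev (u i * s a) c := rfl
    have e1 : (tr (u i) ((genGraph s).pt a false)).1 = u i := mul_one _
    have e2 : (tr (u i) ((genGraph s).pt a true)).1 = u i * s a := rfl
    rw [h2, add_neg_eq_zero] at h1
    simp only [e1, e2]
    rw [← h1, add_sub_cancel_left]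
    rfl
  have hinf' : Zm (genGraph s).edges ≤ ⨅ n, Z n :=
    le_iInf fun n c hc => (hZmem n c).2 fun i _ a => hc _ _ (hr (u i) a)
  have hW : ∀ n : ℕ, ∃ W : Submodule ℝ (H G S), Inv W ∧ Zm (genGraph s).edges ≤ W ∧ W ≤ Z n ∧
      (∃ m : ℕ, dim W = m) ∧ (W = Zm (genGraph s).edges → ∀ o, InK (Im (genGraph s).edges o)) := by
    intro n
    obtain ⟨W, a1, a2, a3, a4, a5⟩ := good_loops hI hH s
      (L := range fun x : Fin n × S => r (u x.1) x.2) (finite_range _)
      (by rintro _ ⟨x, rfl⟩; exact hr _ _)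
    exact ⟨W, a1, a2, fun c hc => (hZmem n c).2 fun i hi a => a3 hc _ ⟨(⟨i, hi⟩, a), rfl⟩, a4, a5⟩
  choose W a1 a2 a3 a4 a5 using hW
  obtain ⟨n, hn⟩ := exists_eq_iInf_of_int hZinv hanti a1 (fun n => hinf.trans (a2 n)) a3 a4
  have hK := (a5 n (hn.trans (le_antisymm hinf hinf')) ()).fp
  rw [hIm] at hK
  exact Group.IsFinitelyPresented.equiv (h := hK) Subgroup.topEquiv

end Pool.Agent.Lib.MP_d87150_al
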