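import Pool.Agent.Lib.MP_d87150_al.KStepsAux2

/-!
# The class `InK` is closed under the amalgam and HNN steps detected by cocycles
-/

set_option autoImplicit false

noncomputable section

namespace Pool.Agent.Lib.MP_d87150_al

variable {G : Type} [Group G]

lemma ks_fg_bot : (⊥ : Subgroup G).FG := ⟨∅, by simp⟩

/-- Free product. -/
theorem inK_free_amalg (hG : Nice G) {A B : Subgroup G} (hA : InK A) (hB : InK B)
    (hext : ∀ cA cB, IsCoc A cA → IsCoc B cB →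
      ∃ c, IsCoc (A ⊔ B) c ∧ (∀ a ∈ A, c a = cA a) ∧ ∀ b ∈ B, c b = cB b) : InK (A ⊔ B) := by
  refine ksAmalg_inK (E := ⊥) (hA := bot_le) (hB := bot_le) hG hA hB ks_fg_bot
    (Or.inl ⟨Subgroup.bot_subgroupOf _, ?_⟩) ?_
  · obtain ⟨c, hc, h1, h2⟩ := hext _ _ IsCoc.zero (IsCoc.inner (-L2.dirac 1))
    refine EData.ks_field0 (ks_cocH hc) (fun i => cond i (L2.dirac 1) 0) ?_ ?_
    · rintro (_ | _) a ha
      · show c a = 0 - (a : G) • (0 : L2 G)
        rw [h1 a ha, smul_zero, sub_zero]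
      · show c a = L2.dirac 1 - (a : G) • L2.dirac 1
        rw [h2 a ha, smul_neg]
        abel
    · show c 1 + (1 : G) • L2.dirac 1 - (c 1 + (1 : G) • (0 : L2 G)) = _
      rw [one_smul, one_smul]
      abel
  · rintro (_ | _) x hx y hy hxy
    · obtain ⟨cA, h1, h2, h3⟩ := hA.sep x hx y hy (fun h => hxy (Subtype.ext h.eq))
      obtain ⟨c, hc, h4, _⟩ := hext _ _ h1 IsCoc.zero
      exact ⟨_, ks_cocH hc, (h4 x hx).trans h2, fun h => h3 ((h4 y hy).symm.trans h)⟩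
    · obtain ⟨cB, h1, h2, h3⟩ := hB.sep x hx y hy (fun h => hxy (Subtype.ext h.eq))
      obtain ⟨c, hc, _, h4⟩ := hext _ _ IsCoc.zero h1
      exact ⟨_, ks_cocH hc, (h4 x hx).trans h2, fun h => h3 ((h4 y hy).symm.trans h)⟩

/-- Free product with an infinite cyclic group. -/
theorem inK_free_hnn (hG : Nice G) {A : Subgroup G} (hA : InK A) (τ : G)
    (hext : ∀ cA ξ, IsCoc A cA →
      ∃ c, IsCoc (A ⊔ Subgroup.zpowers τ) c ∧ (∀ a ∈ A, c a = cA a) ∧ c τ = ξ) :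
    InK (A ⊔ Subgroup.zpowers τ) := by
  refine ksHnn_inK (E := ⊥) (hA := bot_le) (hτ := fun e he => by
      rw [Subgroup.mem_bot.mp he, mul_one, inv_mul_cancel]
      exact A.one_mem) hG hA ks_fg_bot
    (Or.inl ⟨Subgroup.bot_subgroupOf _, ?_⟩) ?_
  · obtain ⟨c, hc, h1, h2⟩ := hext _ (-L2.dirac 1) IsCoc.zero
    refine EData.ks_field0 (ks_cocH hc) (fun _ => 0) ?_ ?_
    · intro _ a ha
      show c a = 0 - (a : G) • (0 : L2 G)
      rw [h1 a ha, smul_zero, sub_zero]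
    · show c 1 + (1 : G) • (0 : L2 G) - (c τ + τ • (0 : L2 G)) = _
      rw [hc.one, h2, smul_zero, smul_zero]
      abel
  · intro x hx y hy hxy
    obtain ⟨cA, h1, h2, h3⟩ := hA.sep x hx y hy hxy
    obtain ⟨c, hc, h4, _⟩ := hext _ 0 h1
    exact ⟨_, hc, (h4 x hx).trans h2, fun h => h3 ((h4 y hy).symm.trans h)⟩

lemma ks_mem_cent {x z : G} : z ∈ Subgroup.centralizer ({x} : Set G) ↔ Commute x z := by
  rw [Subgroup.mem_centralizer_singleton_iff]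
  exact ⟨fun h => h.symm, fun h => h.eq.symm⟩

lemma ks_not_commute (hG : Nice G) {x g e e' : G} (hx : x ≠ 1) (hg : ¬ Commute x g)
    (he : Commute x e) (he' : Commute x e') (h1 : e ≠ 1) (h1' : e' ≠ 1) :
    ¬ Commute e (g * e' * g⁻¹) := fun h =>
  hg (hG.commute_of_conj hx h1' he' (hG.ct e _ _ h1 he.symm h))

lemma ks_coc_eq_inner (hG : Nice G) {K : Subgroup G} {c : G → L2 G} (hc : IsCoc K c) {x e : G}
    (hx : x ∈ K) (he : e ∈ K) (hx1 : x ≠ 1) (hxe : Commute x e) {ξ : L2 G}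
    (h : c x = x • ξ - ξ) : c e = e • ξ - ξ :=
  sub_eq_zero.mp ((hc.sub (IsCoc.inner ξ)).eq_zero_of_commute hG hx he hx1 hxe
    (sub_eq_zero.mpr h))

/-- Amalgam over the centralizer of `x` in `B`. -/
theorem inK_amalg (hG : Nice G) {A B : Subgroup G} (hA : InK A) (hB : InK B) {x : G}
    (hxA : x ∈ A) (hxB : x ∈ B) (hx : x ≠ 1) (hE : ∀ b ∈ B, Commute x b → b ∈ A)
    {ι : Type} [Finite ι] (u : ι → G) (hu : ∀ i, u i ∈ B ∧ u i ≠ 1)
    (hext : ∀ cB, IsCoc B cB → cB x = 0 → (∀ i, ∃ ξ, cB (u i) = u i • ξ - ξ) →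
      ∃ c, IsCoc (A ⊔ B) c ∧ (∀ a ∈ A, c a = 0) ∧ ∀ b ∈ B, c b = cB b) :
    InK (A ⊔ B) ∧
      (∀ w ∈ B, (∀ b ∈ B, ¬ Commute x (b * w * b⁻¹)) →
        ∀ g ∈ A ⊔ B, (g⁻¹ * w * g ∈ B → g ∈ B) ∧ g⁻¹ * w * g ∉ A) ∧
      ∀ k ∈ A ⊔ B, Commute x k → k ∈ A := by
  have hEA : B ⊓ Subgroup.centralizer {x} ≤ A := fun e he => hE e he.1 (ks_mem_cent.mp he.2)
  let D := ksAmalg A B (B ⊓ Subgroup.centralizer {x}) hEA inf_le_left
  have hj : Function.Injective (A ⊔ B).subtype := Subtype.val_injective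
  have hmem : ∀ e : ↥(A ⊔ B), e ∈ D.E ↔ (e : G) ∈ B ∧ Commute x e := fun e =>
    and_congr Iff.rfl ks_mem_cent
  have hturn : ∀ (g : ↥(A ⊔ B)) (s : Bool),
      D.endp s (g : _ ⧸ D.E) = D.endp true ((1 : ↥(A ⊔ B)) : _ ⧸ D.E) → (g : G) ∈ B := by
    intro g s hg
    have h := ksAmalg_turn hg
    rwa [Subgroup.coe_one, mul_one, B.inv_mem_iff] at h
  have hT : D.TurnNC := by
    intro g s hg hgE e he e' he' h1 h1' h
    refine ks_not_commute hG hx (fun h => hgE ((hmem g).mpr ⟨hturn g s hg, h⟩))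
      ((hmem e).mp he).2 ((hmem e').mp he').2 (fun h => h1 (Subtype.ext h))
      (fun h => h1' (Subtype.ext h)) ?_
    exact congrArg Subtype.val h.eq
  have hF : D.FieldsE (A ⊔ B).subtype := by
    intro g s hg hgE
    have hgB := hturn g s hg
    obtain ⟨cB, h1, h2, h3, h4, h5⟩ := hB.sep_flex hG hxB hgB
      (fun h => hgE ((hmem g).mpr ⟨hgB, h⟩)) u hu
    obtain ⟨c, hc, h6, h7⟩ := hext cB h1 h3 (fun i => (h5 i).imp fun ξ h => h.2)
    obtain ⟨b, hb1, hb2, hb3⟩ := EData.ks_field (D := D) hj (ks_cocH hc)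
      (fun e he => h6 e (hEA he)) (by
        intro s s' _ a ha
        show L2.SuppIn _ (c a + (a : G) • c ((1 : ↥(A ⊔ B))⁻¹ : ↥(A ⊔ B)) -
          c ((1 : ↥(A ⊔ B))⁻¹ : ↥(A ⊔ B)))
        rw [inv_one, Subgroup.coe_one, hc.one, smul_zero, add_zero, sub_zero]
        cases s
        · rw [h6 a ha]
          exact L2.SuppIn.zero _
        · rw [h7 a ha]
          exact (h2 a).mono fun k hk => ⟨rfl, ⟨k, Subgroup.mem_sup_right hk⟩, hk, rfl⟩)
    refine ⟨_, b, ks_cocH hc, hb1, hb2, ?_⟩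
    rw [hb3, hb3, Subgroup.coe_one, hc.one, h7 g hgB]
    exact h4.symm
  have hH : D.Hyps (A ⊔ B).subtype := Or.inr ⟨ksAmalg_endsNe, hT, hF⟩
  have hac := hH.isAcyclic hj
  refine ⟨ksAmalg_inK hG hA hB (hB.cfg x hxB hx) hH ?_, ?_, ?_⟩
  · rintro (_ | _) y hy z hz hyz
    · obtain ⟨cA, h1, _, h3, h4, h5⟩ := hA.sep_flex hG (x := y) (y := z) hy hz
        (fun h => hyz (Subtype.ext h.eq)) (fun _ : Unit => x) (fun _ => ⟨hxA, hx⟩)
      obtain ⟨ξ, _, hξ⟩ := h5 ()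
      obtain ⟨C, hC, h6⟩ := EData.ks_coc (D := D) (j := (A ⊔ B).subtype) ksAmalg_gen
        ksAmalg_endsNe hac (fun i k => cond i ((k : G) • ξ - ξ) (cA k))
        (by
          rintro (_ | _) a ha b hb
          · exact h1 a ha b hb
          · exact IsCoc.inner (K := B) ξ a ha b hb) (fun _ => rfl)
        (fun e he => ks_coc_eq_inner hG h1 hxA (hEA he) hx ((hmem e).mp he).2 hξ)
      exact ⟨C, hC, (h6 false y hy).trans h3, fun h => h4 ((h6 false z hz).symm.trans h)⟩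
    · obtain ⟨cB, h1, _, h3, h4, h5⟩ := hB.sep_flex hG (x := y) (y := z) hy hz
        (fun h => hyz (Subtype.ext h.eq)) (fun _ : Unit => x) (fun _ => ⟨hxB, hx⟩)
      obtain ⟨ξ, _, hξ⟩ := h5 ()
      obtain ⟨C, hC, h6⟩ := EData.ks_coc (D := D) (j := (A ⊔ B).subtype) ksAmalg_gen
        ksAmalg_endsNe hac (fun i k => cond i (cB k) ((k : G) • ξ - ξ))
        (by
          rintro (_ | _) a ha b hb
          · exact IsCoc.inner (K := A) ξ a ha b hb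
          · exact h1 a ha b hb) (fun _ => rfl)
        (fun e he => (ks_coc_eq_inner hG h1 hxB ((hmem e).mp he).1 hx ((hmem e).mp he).2 hξ).symm)
      exact ⟨C, hC, (h6 true y hy).trans h3, fun h => h4 ((h6 true z hz).symm.trans h)⟩
  · intro w hw hnc g hg
    let w' : ↥(A ⊔ B) := ⟨w, Subgroup.mem_sup_right hw⟩
    let g' : ↥(A ⊔ B) := ⟨g, hg⟩
    have hfix : ∀ {n : D.Node}, w' • n = n →
        n = Sum.inl (D.endp true ((1 : ↥(A ⊔ B)) : _ ⧸ D.E)) := by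
      intro n hn
      refine EData.eq_of_fix ksAmalg_gen hac ?_ ?_ hn
      · rw [EData.endp_mk, EData.ks_smul_vx, EData.ks_vx_eq]
        show (w' * (1 * 1))⁻¹ * (1 * 1) ∈ B.subgroupOf (A ⊔ B)
        rw [mul_one, mul_one, mul_one]
        exact B.inv_mem hw
      · intro s e he hwe
        induction e using QuotientGroup.induction_on with
        | H h =>
        have h1 := hturn h s he
        rw [EData.ks_smul_edge, QuotientGroup.eq] at hwe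
        have h2 : Commute x ((w * h)⁻¹ * h) := ((hmem _).mp hwe).2
        refine hnc (h : G)⁻¹ (B.inv_mem h1) ?_
        have h3 : (h : G)⁻¹ * w * (h : G)⁻¹⁻¹ = ((w * h)⁻¹ * h)⁻¹ := by group
        rw [h3]
        exact h2.inv_right
    have hfix2 : ∀ i, g⁻¹ * w * g ∈ cond i B A →
        (⟨i, (g' : _ ⧸ D.A i)⟩ : D.Vx) = D.endp true ((1 : ↥(A ⊔ B)) : _ ⧸ D.E) := by
      intro i hi
      refine Sum.inl_injective (hfix ?_)
      show Sum.inl (w' • (⟨i, (g' : _ ⧸ D.A i)⟩ : D.Vx)) = _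
      rw [EData.ks_smul_vx, EData.ks_vx_eq.mpr]
      show (w * g)⁻¹ * g ∈ cond i B A
      have h3 : (w * g)⁻¹ * g = (g⁻¹ * w * g)⁻¹ := by group
      rw [h3]
      exact Subgroup.inv_mem _ hi
    refine ⟨fun h => ?_, fun h => Bool.false_ne_true (congrArg Sigma.fst (hfix2 false h))⟩
    have h1 : g'⁻¹ * (1 * 1) ∈ B.subgroupOf (A ⊔ B) := EData.ks_vx_eq.mp (hfix2 true h)
    rw [mul_one, mul_one] at h1
    exact B.inv_mem_iff.mp h1
  · intro k hk hxk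
    have h := EData.fix_origin_of_commute (D := D) ksAmalg_gen hac ksAmalg_endsNe hT
      (x := ⟨x, Subgroup.mem_sup_left hxA⟩) (k := ⟨k, hk⟩) ((hmem _).mpr ⟨hxB, Commute.refl x⟩)
      (fun h => hx (congrArg Subtype.val h)) (Subtype.ext hxk.eq)
    rw [EData.endp_mk, EData.ks_smul_vx, EData.ks_vx_eq] at h
    have h1 : ((⟨k, hk⟩ : ↥(A ⊔ B)) * (1 * 1))⁻¹ * (1 * 1) ∈ A.subgroupOf (A ⊔ B) := h
    rw [mul_one, mul_one, mul_one] at h1
    exact A.inv_mem_iff.mp h1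

/-- HNN extension whose second associated subgroup is a full centralizer not conjugate into the
centralizer of the first. -/
theorem inK_hnn (hG : Nice G) {A : Subgroup G} (hA : InK A) {y τ : G} (hy : y ∈ A) (hy1 : y ≠ 1)
    (hy2 : τ * y * τ⁻¹ ∈ A) (hE : ∀ z ∈ A, Commute z (τ * y * τ⁻¹) → τ⁻¹ * z * τ ∈ A)
    (hnc : ∀ a ∈ A, ¬ Commute y (a * (τ * y * τ⁻¹) * a⁻¹))
    (hext : ∀ cA ξ₁ ξ₂, IsCoc A cA → cA y = y • ξ₁ - ξ₁ →
      cA (τ * y * τ⁻¹) = (τ * y * τ⁻¹) • ξ₂ - ξ₂ →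
      ∃ c, IsCoc (A ⊔ Subgroup.zpowers τ) c ∧ (∀ a ∈ A, c a = cA a) ∧ c τ = τ • ξ₁ - ξ₂) :
    InK (A ⊔ Subgroup.zpowers τ) := by
  have hy3 : τ * y * τ⁻¹ ≠ 1 := fun h => hy1 (conj_eq_one_iff.mp h)
  have hEτ : ∀ e ∈ A ⊓ Subgroup.centralizer {τ * y * τ⁻¹}, τ⁻¹ * e * τ ∈ A := fun e he =>
    hE e he.1 (ks_mem_cent.mp he.2).symm
  let D := ksHnn A (A ⊓ Subgroup.centralizer {τ * y * τ⁻¹}) τ inf_le_left hEτ
  have hτK : τ ∈ A ⊔ Subgroup.zpowers τ := Subgroup.mem_sup_right (Subgroup.mem_zpowers τ)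
  have hj : Function.Injective (A ⊔ Subgroup.zpowers τ).subtype := Subtype.val_injective
  have hmem : ∀ e : ↥(A ⊔ Subgroup.zpowers τ), e ∈ D.E ↔ (e : G) ∈ A ∧ Commute (τ * y * τ⁻¹) e :=
    fun e => and_congr Iff.rfl ks_mem_cent
  have hnc' : ∀ a ∈ A, ¬ Commute (τ * y * τ⁻¹) (a * y * a⁻¹) := by
    intro a ha h
    refine hnc a⁻¹ (A.inv_mem ha) ?_
    have h2 := (h.conj a⁻¹).symm
    have h3 : a⁻¹ * (a * y * a⁻¹) * a⁻¹⁻¹ = y := by group
    rwa [h3] at h2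
  have hne : D.EndsNe := by
    intro h
    have h1 : (1 : G) * τ ∈ A := ksHnn_turn h
    rw [one_mul] at h1
    exact hnc' τ h1 (Commute.refl _)
  have hT : D.TurnNC := by
    intro g s hg hgE e he e' he' h1 h1' h
    have h2 := ksHnn_turn hg
    have h3 : (e : G) ≠ 1 := fun h => h1 (Subtype.ext h)
    have h3' : (e' : G) ≠ 1 := fun h => h1' (Subtype.ext h)
    have h4 : Commute (e : G) (g * e' * (g : G)⁻¹) := congrArg Subtype.val h.eq
    cases s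
    · have h5 := hG.ct _ _ _ h3 ((hmem e).mp he).2.symm h4
      have h6 := ((hmem e').mp he').2.conj (g : G)
      have h7 := hG.ct _ _ _ (fun h => h3' (conj_eq_one_iff.mp h)) h5.symm h6.symm
      refine hnc' ((g : G) * τ) h2 ?_
      have h8 : (g : G) * τ * y * ((g : G) * τ)⁻¹ = g * (τ * y * τ⁻¹) * (g : G)⁻¹ := by group
      rw [h8]
      exact h7
    · have h5 : (g : G) ∈ A := by simpa using h2
      exact ks_not_commute hG hy3 (fun h => hgE ((hmem g).mpr ⟨h5, h⟩))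
        ((hmem e).mp he).2 ((hmem e').mp he').2 h3 h3' h4
  have hF : D.FieldsE (A ⊔ Subgroup.zpowers τ).subtype := by
    intro g s hg hgE
    have h2 := ksHnn_turn hg
    obtain ⟨w, hw, hwy, hwg⟩ : ∃ w ∈ A, ¬ Commute (τ * y * τ⁻¹) w ∧
        (w = g ∨ w = g * (τ * y * τ⁻¹) * (g : G)⁻¹) := by
      cases s
      · refine ⟨(g : G) * τ * y * ((g : G) * τ)⁻¹,
          A.mul_mem (A.mul_mem h2 hy) (A.inv_mem h2), hnc' _ h2, Or.inr (by group)⟩
      · have h5 : (g : G) ∈ A := by simpa using h2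
        exact ⟨g, h5, fun h => hgE ((hmem g).mpr ⟨h5, h⟩), Or.inl rfl⟩
    obtain ⟨cA, h1, h3, h4, h5, h6⟩ := hA.sep_flex hG hy2 hw hwy (fun _ : Unit => y)
      (fun _ => ⟨hy, hy1⟩)
    obtain ⟨ξ, hξ1, hξ2⟩ := h6 ()
    obtain ⟨c, hc, h7, h8⟩ := hext cA ξ 0 h1 hξ2 (by rw [h4, smul_zero, sub_zero])
    have h9 : ∀ s, L2.SuppIn (A : Set G) (c ((D.t s)⁻¹ : ↥(A ⊔ Subgroup.zpowers τ))) := by
      rintro (_ | _)
      · show L2.SuppIn _ (c τ⁻¹)
        rw [hc.inv hτK, h8, sub_zero, inv_smul_smul]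
        exact hξ1.neg
      · show L2.SuppIn _ (c (1 : G)⁻¹)
        rw [inv_one, hc.one]
        exact L2.SuppIn.zero _
    obtain ⟨b, hb1, hb2, hb3⟩ := EData.ks_field (D := D) hj (ks_cocH hc)
      (fun e he => (h7 e ((hmem e).mp he).1).trans
        (h1.eq_zero_of_commute hG hy2 ((hmem e).mp he).1 hy3 ((hmem e).mp he).2 h4)) (by
        intro s s' _ a ha
        have ha' : (a : G) ∈ A := ha
        have h10 : L2.SuppIn (A : Set G) (c a) := by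
          rw [h7 a ha']
          exact h3 a
        exact ((h10.add (ks_suppIn_smul (h9 s') ha')).sub (h9 s)).mono
          fun k hk => ⟨rfl, ⟨k, Subgroup.mem_sup_left hk⟩, hk, rfl⟩)
    refine ⟨_, b, ks_cocH hc, hb1, hb2, ?_⟩
    rw [hb3, hb3, Subgroup.coe_one, hc.one]
    intro h0
    apply h5
    rw [← h7 w hw]
    rcases hwg with rfl | rfl
    · exact h0.symm
    · rw [hc.conj g.2 (Subgroup.mem_sup_left hy2), ← h0, h7 _ hy2, h4, smul_zero, smul_zero,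
        add_zero, sub_zero]
  refine ksHnn_inK hG hA (hA.cfg _ hy2 hy3) (Or.inr ⟨hne, hT, hF⟩) ?_
  intro x hx z hz hxz
  obtain ⟨cA, h1, _, h3, h4, h5⟩ := hA.sep_flex hG hx hz hxz
    (fun b : Bool => cond b y (τ * y * τ⁻¹)) (by
      rintro (_ | _)
      · exact ⟨hy2, hy3⟩
      · exact ⟨hy, hy1⟩)
  obtain ⟨ξ₁, _, hξ₁⟩ := h5 true
  obtain ⟨ξ₂, _, hξ₂⟩ := h5 false
  obtain ⟨c, hc, h6, _⟩ := hext cA ξ₁ ξ₂ h1 hξ₁ hξ₂
  exact ⟨c, hc, (h6 x hx).trans h3, fun h => h4 ((h6 z hz).symm.trans h)⟩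

end Pool.Agent.Lib.MP_d87150_al
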