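import Pool.Agent.Lib.MP_d87150_al.BS

/-!
# General constructions for one-edge graphs of groups: universal property and fields
-/

set_option autoImplicit false

noncomputable section

namespace Pool.Agent.Lib.MP_d87150_al

/-- The graph of a map that is multiplicative on a subgroup. -/
def ksGraph {P Q : Type} [Group P] [Group Q] (A : Subgroup P) (φ : P → Q)
    (h : ∀ a ∈ A, ∀ b ∈ A, φ (a * b) = φ a * φ b) : Subgroup (P × Q) where
  carrier := {z | z.1 ∈ A ∧ z.2 = φ z.1}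
  mul_mem' := fun {z w} hz hw => ⟨A.mul_mem hz.1 hw.1, by
    rw [Prod.snd_mul, Prod.fst_mul, h _ hz.1 _ hw.1, hz.2, hw.2]⟩
  one_mem' := ⟨A.one_mem, by
    have := h 1 A.one_mem 1 A.one_mem
    rw [one_mul] at this
    exact (left_eq_mul.mp this).symm⟩
  inv_mem' := fun {z} hz => ⟨A.inv_mem hz.1, by
    have h1 := h 1 A.one_mem 1 A.one_mem
    rw [one_mul] at h1
    have h2 := h _ (A.inv_mem hz.1) _ hz.1
    rw [inv_mul_cancel, left_eq_mul.mp h1] at h2
    rw [Prod.snd_inv, Prod.fst_inv, hz.2]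
    exact (eq_inv_of_mul_eq_one_left h2.symm).symm⟩

lemma ks_eq_top_of_le_map {G : Type} [Group G] {K : Subgroup G} {H : Subgroup K}
    (h : K ≤ H.map K.subtype) : H = ⊤ := by
  rw [eq_top_iff]
  intro x _
  obtain ⟨y, hy, hyx⟩ := h x.2
  rwa [← Subtype.ext hyx]

namespace EData

variable {P ι : Type} [Group P] {D : EData P ι}

lemma ks_vx_eq {i : ι} {a b : P} :
    (⟨i, (a : P ⧸ D.A i)⟩ : D.Vx) = ⟨i, (b : P ⧸ D.A i)⟩ ↔ a⁻¹ * b ∈ D.A i := by
  rw [Sigma.mk.inj_iff, heq_eq_eq, QuotientGroup.eq]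
  simp

lemma ks_smul_vx (k : P) (i : ι) (a : P) :
    k • (⟨i, (a : P ⧸ D.A i)⟩ : D.Vx) = ⟨i, ((k * a : P) : P ⧸ D.A i)⟩ := rfl

lemma ks_smul_edge (k a : P) : k • (a : P ⧸ D.E) = ((k * a : P) : P ⧸ D.E) := rfl

/-- The universal property of the fundamental group of a one-edge graph of groups. -/
theorem ks_lift (hgen : D.Gen) (hne : D.EndsNe) (hac : D.graph.IsAcyclic)
    {Q : Type} [Group Q] (φ : ι → P → Q)
    (hφ : ∀ i, ∀ a ∈ D.A i, ∀ b ∈ D.A i, φ i (a * b) = φ i a * φ i b) (q : Bool → Q)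
    (hnorm : ∀ s, ∃ s', D.κ s = D.κ s' ∧ D.t s' = 1 ∧ q s' = 1)
    (hcomp : ∀ e ∈ D.E, q false * φ (D.κ false) ((D.t false)⁻¹ * e * D.t false) * (q false)⁻¹ =
      q true * φ (D.κ true) ((D.t true)⁻¹ * e * D.t true) * (q true)⁻¹) :
    ∃ Φ : P →* Q, (∀ i, ∀ a ∈ D.A i, Φ a = φ i a) ∧ ∀ s, Φ (D.t s) = q s := by
  let Γ : ι → Subgroup (P × Q) := fun i => ksGraph (D.A i) (φ i) (hφ i)
  let T : Bool → P × Q := fun s => (D.t s, q s)
  let S : Set (P × Q) := {g | ∃ s, (T s)⁻¹ * g * T s ∈ Γ (D.κ s)} ∪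
    {g | ∃ s s', D.κ s = D.κ s' ∧ g = T s * (T s')⁻¹}
  let P' : Subgroup (P × Q) := Subgroup.closure S
  have hT : ∀ s, T s ∈ P' := by
    intro s
    obtain ⟨s', h1, h2, h3⟩ := hnorm s
    refine Subgroup.subset_closure (Or.inr ⟨s, s', h1, ?_⟩)
    have : T s' = 1 := Prod.ext h2 h3
    rw [this, inv_one, mul_one]
  have hΓ : ∀ i, Γ i ≤ P' := by
    intro i g hg
    obtain ⟨s, rfl⟩ := hgen.1 i
    obtain ⟨s', h1, h2, h3⟩ := hnorm s
    refine Subgroup.subset_closure (Or.inl ⟨s', ?_⟩)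
    have : T s' = 1 := Prod.ext h2 h3
    rw [this, inv_one, mul_one, one_mul, ← h1]
    exact hg
  let ψ : P → Q := fun e => q true * φ (D.κ true) ((D.t true)⁻¹ * e * D.t true) * (q true)⁻¹
  have hψs : ∀ s, ∀ e ∈ D.E, ψ e = q s * φ (D.κ s) ((D.t s)⁻¹ * e * D.t s) * (q s)⁻¹ := by
    intro s e he
    cases s
    · exact (hcomp e he).symm
    · rfl
  have hψ : ∀ a ∈ D.E, ∀ b ∈ D.E, ψ (a * b) = ψ a * ψ b := by
    intro a ha b hb
    have h1 := hφ _ _ (D.le true a ha) _ (D.le true b hb)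
    have h2 : (D.t true)⁻¹ * (a * b) * D.t true =
        (D.t true)⁻¹ * a * D.t true * ((D.t true)⁻¹ * b * D.t true) := by group
    simp only [ψ]
    rw [h2, h1]
    group
  let D' : EData P' ι :=
    { A := fun i => (Γ i).subgroupOf P'
      κ := D.κ
      t := fun s => ⟨T s, hT s⟩
      E := (ksGraph D.E ψ hψ).subgroupOf P'
      le := by
        intro s e he
        have he' : e.1.1 ∈ D.E ∧ e.1.2 = ψ e.1.1 := he
        refine ⟨D.le s _ he'.1, ?_⟩
        show (q s)⁻¹ * e.1.2 * q s = φ (D.κ s) ((D.t s)⁻¹ * e.1.1 * D.t s)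
        rw [he'.2, hψs s _ he'.1]
        group }
  let π : P' →* P := (MonoidHom.fst P Q).comp P'.subtype
  have hgen' : D'.Gen := by
    refine ⟨hgen.1, ks_eq_top_of_le_map ((Subgroup.closure_le _).mpr fun g hg => ?_)⟩
    refine ⟨⟨g, Subgroup.subset_closure hg⟩, Subgroup.subset_closure ?_, rfl⟩
    rcases hg with ⟨s, hs⟩ | ⟨s, s', h1, h2⟩
    · exact Or.inl ⟨s, hs⟩
    · exact Or.inr ⟨s, s', h1, Subtype.ext h2⟩
  have hinj : Function.Injective π := by
    refine D.injective_of_isAcyclic D' π rfl (fun s => rfl) (fun i g hg => hg.1)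
      (fun i g hg h1 => ?_) (fun g hg => hg.1) (fun s g hg hgE => ?_) hgen' hne hac
    · have h2 : g.1.1 = 1 := h1
      have h3 : g.1.2 = φ i g.1.1 := hg.2
      have h4 : (1 : Q) = φ i 1 := (Γ i).one_mem.2
      refine Subtype.ext (Prod.ext h2 ?_)
      rw [h3, h2, ← h4]
      rfl
    · refine ⟨hgE, ?_⟩
      have h2 : (q s)⁻¹ * g.1.2 * q s = φ (D.κ s) ((D.t s)⁻¹ * g.1.1 * D.t s) := hg.2
      have hgE' : g.1.1 ∈ D.E := hgE
      show g.1.2 = ψ g.1.1
      rw [hψs s _ hgE', ← h2]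
      group
  have hsurj : Function.Surjective π := by
    rw [← MonoidHom.range_eq_top, eq_top_iff, ← hgen.2, Subgroup.closure_le]
    rintro g (⟨s, hs⟩ | ⟨s, s', _, rfl⟩)
    · refine ⟨⟨T s, hT s⟩ * ⟨(_, φ _ _), hΓ _ ⟨hs, rfl⟩⟩ * ⟨T s, hT s⟩⁻¹, ?_⟩
      show D.t s * ((D.t s)⁻¹ * g * D.t s) * (D.t s)⁻¹ = g
      group
    · exact ⟨⟨T s, hT s⟩ * ⟨T s', hT s'⟩⁻¹, rfl⟩
  let eqv := MulEquiv.ofBijective π ⟨hinj, hsurj⟩
  have key : ∀ z : P', ((MonoidHom.snd P Q).comp P'.subtype).comp eqv.symm.toMonoidHom z.1.1 =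
      z.1.2 := by
    intro z
    have : eqv.symm z.1.1 = z := eqv.symm_apply_apply z
    show (eqv.symm z.1.1).1.2 = _
    rw [this]
  exact ⟨((MonoidHom.snd P Q).comp P'.subtype).comp eqv.symm.toMonoidHom,
    fun i a ha => key ⟨(a, φ i a), hΓ i ⟨ha, rfl⟩⟩, fun s => key ⟨T s, hT s⟩⟩

variable {G : Type} [Group G] {j : P →* G}

lemma CocH.ks_one {c : P → L2 G} (h : CocH j c) : c 1 = 0 := by
  have := h 1 1
  rw [one_mul, map_one, one_smul] at this
  exact left_eq_add.mp this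

/-- A cocycle vanishing on the edge group gives an equivariant field on edges. -/
theorem ks_field (hj : Function.Injective j) {C : P → L2 G} (hC : CocH j C)
    (hE : ∀ e ∈ D.E, C e = 0)
    (hloc : ∀ s s', D.κ s = D.κ s' → ∀ a ∈ D.A (D.κ s),
      L2.SuppIn {k | D.κ s = D.κ true ∧ ∃ p ∈ D.A (D.κ s), j p = k}
        (C a + j a • C (D.t s')⁻¹ - C (D.t s)⁻¹)) :
    ∃ b : D.Node → L2 G, Fld D.graph (fun n => n.isLeft = true) b ∧
      (∀ (k : P) (e : P ⧸ D.E), b (Sum.inr (k • e)) = j k • b (Sum.inr e) + C k) ∧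
      ∀ g : P, b (Sum.inr (g : P ⧸ D.E)) = C g := by
  let b0 : P ⧸ D.E → L2 G := fun e => Quotient.liftOn' e C (by
    intro a b hab
    have h1 := hC a (a⁻¹ * b)
    rw [hE _ (QuotientGroup.leftRel_apply.mp hab), smul_zero, add_zero, mul_inv_cancel_left] at h1
    exact h1.symm)
  have hb0 : ∀ g : P, b0 (g : P ⧸ D.E) = C g := fun g => rfl
  refine ⟨Sum.elim (fun _ => 0) b0, ⟨Sum.elim
    (fun v => {k | v.1 = D.κ true ∧ ∃ p : P, (p : P ⧸ D.A v.1) = v.2 ∧ j p = k}) (fun _ => ∅),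
    ?_, ?_⟩, fun k e => ?_, hb0⟩
  · rintro (⟨i, x⟩ | e) (⟨i', x'⟩ | e') h1 h2 hne
    · rw [Set.disjoint_left]
      rintro k ⟨hi, p, hp, rfl⟩ ⟨hi', p', hp', hpp⟩
      dsimp only at hi hi' hp hp'
      subst hi
      subst hi'
      rw [hj hpp] at hp'
      exact hne (by rw [← hp, ← hp'])
    · simp at h2
    · simp at h1
    · simp at h1
  · rintro (v | e) p q h1 hp hq
    · rcases p with p | p
      · exact absurd hp (D.not_adj_inl_inl _ _)
      rcases q with q | q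
      · exact absurd hq (D.not_adj_inl_inl _ _)
      obtain ⟨s', hs'⟩ := D.adj_inl_inr.mp hp
      obtain ⟨s, hs⟩ := D.adj_inl_inr.mp hq
      induction p using QuotientGroup.induction_on with
      | H g' =>
      induction q using QuotientGroup.induction_on with
      | H g =>
      subst hs
      rw [endp_mk, endp_mk] at hs'
      have hκ : D.κ s = D.κ s' := congrArg Sigma.fst hs'
      have ha : (g * D.t s)⁻¹ * (g' * D.t s') ∈ D.A (D.κ s) := by
        rw [← ks_vx_eq, hs']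
        clear hs'
        generalize D.κ s = i at hκ
        subst hκ
        rfl
      have h2 := (hloc s s' hκ _ ha).gsmul (j (g * D.t s))
      have h3 : j (g * D.t s) • (C ((g * D.t s)⁻¹ * (g' * D.t s')) +
          j ((g * D.t s)⁻¹ * (g' * D.t s')) • C (D.t s')⁻¹ - C (D.t s)⁻¹) = C g' - C g := by
        have e1 := hC ((g * D.t s)⁻¹ * (g' * D.t s')) (D.t s')⁻¹
        have e2 := hC (g * D.t s) ((g * D.t s)⁻¹ * (g' * D.t s') * (D.t s')⁻¹)
        have e3 := hC (g * D.t s) (D.t s)⁻¹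
        have e4 : g * D.t s * ((g * D.t s)⁻¹ * (g' * D.t s') * (D.t s')⁻¹) = g' := by group
        rw [e4] at e2
        rw [mul_inv_cancel_right] at e3
        rw [← e1, smul_sub, e2, e3]
        abel
      rw [h3] at h2
      refine L2.SuppIn.mono h2 ?_
      rintro k ⟨k', ⟨hi, p, hp, rfl⟩, rfl⟩
      refine ⟨hi, g * D.t s * p, ?_, map_mul _ _ _⟩
      exact (QuotientGroup.eq.mpr (by rw [inv_mul_cancel_left]; exact hp)).symm
    · simp at h1
  · induction e using QuotientGroup.induction_on with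
    | H g =>
    show C (k * g) = j k • C g + C k
    rw [hC, add_comm]

theorem ks_field0 {C : P → L2 G} (hC : CocH j C) (β : ι → L2 G)
    (hβ : ∀ i, ∀ a ∈ D.A i, C a = β i - j a • β i)
    (hd : C (D.t true) + j (D.t true) • β (D.κ true) -
      (C (D.t false) + j (D.t false) • β (D.κ false)) = L2.dirac 1) : D.Field0 j := by
  refine ⟨C, fun v => Quotient.liftOn' v.2 (fun g => C g + j g • β v.1) ?_, hC, ?_, ?_⟩
  · intro a b hab
    have h1 := hC a (a⁻¹ * b)
    rw [hβ _ _ (QuotientGroup.leftRel_apply.mp hab), mul_inv_cancel_left, smul_sub, ← mul_smul,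
      ← map_mul, mul_inv_cancel_left] at h1
    show C a + j a • β v.1 = C b + j b • β v.1
    rw [h1]
    abel
  · rintro k ⟨i, x⟩
    induction x using QuotientGroup.induction_on with
    | H g =>
    show C (k * g) + j (k * g) • β i = j k • (C g + j g • β i) + C k
    rw [hC, map_mul, mul_smul, smul_add]
    abel
  · show C (1 * D.t true) + j (1 * D.t true) • β (D.κ true) -
      (C (1 * D.t false) + j (1 * D.t false) • β (D.κ false)) = L2.dirac 1
    rw [one_mul, one_mul]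
    exact hd

end EData

/-- The affine group of `l2(G)` over `G`. -/
@[ext] structure KsAff (G : Type) where
  v : L2 G
  g : G

instance {G : Type} [Group G] : Group (KsAff G) where
  mul a b := ⟨a.v + a.g • b.v, a.g * b.g⟩
  one := ⟨0, 1⟩
  inv a := ⟨-(a.g⁻¹ • a.v), a.g⁻¹⟩
  mul_assoc a b c := KsAff.ext (by
    show a.v + a.g • b.v + (a.g * b.g) • c.v = a.v + a.g • (b.v + b.g • c.v)
    rw [smul_add, mul_smul, add_assoc]) (mul_assoc _ _ _)
  one_mul a := KsAff.ext (by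
    show 0 + (1 : G) • a.v = a.v
    rw [one_smul, zero_add]) (one_mul _)
  mul_one a := KsAff.ext (by
    show a.v + a.g • (0 : L2 G) = a.v
    rw [smul_zero, add_zero]) (mul_one _)
  inv_mul_cancel a := KsAff.ext (neg_add_cancel _) (inv_mul_cancel _)

/-- The linear part. -/
def KsAff.lin {G : Type} [Group G] : KsAff G →* G where
  toFun a := a.g
  map_one' := rfl
  map_mul' _ _ := rfl

end Pool.Agent.Lib.MP_d87150_al
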