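import Pool.Agent.Lib.MP_d87150_al.KStepsAux

/-!
# Finite presentations and cocycles for one-edge graphs of groups; amalgam and HNN data
-/

set_option autoImplicit false

noncomputable section

namespace Pool.Agent.Lib.MP_d87150_al

namespace EData

variable {P ι : Type} [Group P] {D : EData P ι}

/-- The embedding of the edge group in the vertex group at the end `s`. -/
def ksConj (D : EData P ι) (s : Bool) : D.E →* D.A (D.κ s) where
  toFun e := ⟨(D.t s)⁻¹ * e * D.t s, D.le s e e.2⟩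
  map_one' := Subtype.ext (by simp)
  map_mul' a b := Subtype.ext (by
    show (D.t s)⁻¹ * (a.1 * b.1) * D.t s = (D.t s)⁻¹ * a.1 * D.t s * ((D.t s)⁻¹ * b.1 * D.t s)
    group)

theorem ks_hom_ext (hgen : D.Gen) {Q : Type} [Group Q] {f g : P →* Q}
    (hA : ∀ i, ∀ a ∈ D.A i, f a = g a) (ht : ∀ s, f (D.t s) = g (D.t s)) : f = g := by
  refine MonoidHom.eq_of_eqOn_dense hgen.2 ?_
  rintro x (⟨s, hs⟩ | ⟨s, s', _, rfl⟩)
  · have h := hA _ _ hs
    rw [map_mul, map_mul, map_inv, map_mul, map_mul, map_inv, ht] at h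
    exact mul_left_cancel (mul_right_cancel h)
  · rw [map_mul, map_mul, map_inv, map_inv, ht, ht]

theorem ks_fp (hgen : D.Gen) (hne : D.EndsNe) (hac : D.graph.IsAcyclic) (hE : D.E.FG)
    {F : Type} [Group F] [Group.IsFinitelyPresented F] (π : F →* P) (φ : ∀ i, D.A i →* F)
    (hφ : ∀ i a, π (φ i a) = a) (q : Bool → F) (hq : ∀ s, π (q s) = D.t s)
    (hnorm : ∀ s, ∃ s', D.κ s = D.κ s' ∧ D.t s' = 1 ∧ q s' = 1)
    (hF : ∀ (Q : Type) [Group Q] (f g : F →* Q), (∀ i a, f (φ i a) = g (φ i a)) →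
      (∀ s, f (q s) = g (q s)) → f = g) : Group.IsFinitelyPresented P := by
  classical
  obtain ⟨S, hS, hSf⟩ := Group.fg_iff.mp ((Group.fg_iff_subgroup_fg _).mpr hE)
  let α : Bool → (D.E →* F) := fun s =>
    (MulAut.conj (q s)).toMonoidHom.comp ((φ (D.κ s)).comp (D.ksConj s))
  have hα : ∀ s e, α s e = q s * φ (D.κ s) (D.ksConj s e) * (q s)⁻¹ := fun s e => rfl
  have hπα : ∀ s e, π (α s e) = e := by
    intro s e
    rw [hα, map_mul, map_mul, map_inv, hq, hφ]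
    show D.t s * ((D.t s)⁻¹ * e.1 * D.t s) * (D.t s)⁻¹ = e.1
    group
  let R : Set F := (fun e => α false e * (α true e)⁻¹) '' S
  let N : Subgroup F := Subgroup.normalClosure R
  have hN : N ≤ π.ker := by
    refine Subgroup.normalClosure_le_normal ?_
    rintro _ ⟨e, _, rfl⟩
    show π (α false e * (α true e)⁻¹) = 1
    rw [map_mul, map_inv, hπα, hπα, mul_inv_cancel]
  have heq : (QuotientGroup.mk' N).comp (α false) = (QuotientGroup.mk' N).comp (α true) := by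
    refine MonoidHom.eq_of_eqOn_dense hS fun e he => ?_
    have h1 : QuotientGroup.mk' N (α false e * (α true e)⁻¹) = 1 :=
      (QuotientGroup.eq_one_iff _).mpr (Subgroup.subset_normalClosure ⟨e, he, rfl⟩)
    rw [map_mul, map_inv, mul_inv_eq_one] at h1
    exact h1
  obtain ⟨Φ, h1, h2⟩ := ks_lift hgen hne hac
    (fun i a => if h : a ∈ D.A i then QuotientGroup.mk' N (φ i ⟨a, h⟩) else 1)
    (fun i a ha b hb => by
      rw [dif_pos ha, dif_pos hb, dif_pos ((D.A i).mul_mem ha hb), ← map_mul, ← map_mul]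
      rfl)
    (fun s => QuotientGroup.mk' N (q s))
    (fun s => by
      obtain ⟨s', e1, e2, e3⟩ := hnorm s
      exact ⟨s', e1, e2, by rw [e3, map_one]⟩)
    (fun e he => by
      rw [dif_pos (D.le false e he), dif_pos (D.le true e he), ← map_inv, ← map_inv, ← map_mul,
        ← map_mul, ← map_mul, ← map_mul]
      exact DFunLike.congr_fun heq ⟨e, he⟩)
  have h3 : Φ.comp π = QuotientGroup.mk' N := by
    refine hF _ _ _ (fun i a => ?_) (fun s => ?_)
    · rw [MonoidHom.comp_apply, hφ, h1 i _ a.2, dif_pos a.2]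
    · rw [MonoidHom.comp_apply, hq, h2]
  have hker : N = π.ker := by
    refine le_antisymm hN fun x hx => ?_
    have h4 : QuotientGroup.mk' N x = 1 := by
      rw [← h3, MonoidHom.comp_apply, MonoidHom.mem_ker.mp hx, map_one]
    exact (QuotientGroup.eq_one_iff _).mp h4
  have hsurj : Function.Surjective π := by
    rw [← MonoidHom.range_eq_top, eq_top_iff, ← hgen.2, Subgroup.closure_le]
    rintro g (⟨s, hs⟩ | ⟨s, s', _, rfl⟩)
    · refine ⟨q s * φ _ ⟨_, hs⟩ * (q s)⁻¹, ?_⟩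
      rw [map_mul, map_mul, map_inv, hq, hφ]
      show D.t s * ((D.t s)⁻¹ * g * D.t s) * (D.t s)⁻¹ = g
      group
    · exact ⟨q s * (q s')⁻¹, by rw [map_mul, map_inv, hq, hq]⟩
  exact Group.IsFinitelyPresented.of_surjective π hsurj ⟨R, hSf.image _, hker⟩

variable {G : Type} [Group G] {j : P →* G}

/-- Compatible cocycles on the vertex groups extend. -/
theorem ks_coc (hgen : D.Gen) (hne : D.EndsNe) (hac : D.graph.IsAcyclic) (c : ι → P → L2 G)
    (hc : ∀ i, ∀ a ∈ D.A i, ∀ b ∈ D.A i, c i (a * b) = c i a + j a • c i b)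
    (ht : ∀ s, D.t s = 1) (hcomp : ∀ e ∈ D.E, c (D.κ false) e = c (D.κ true) e) :
    ∃ C : P → L2 G, CocH j C ∧ ∀ i, ∀ a ∈ D.A i, C a = c i a := by
  obtain ⟨Φ, h1, h2⟩ := ks_lift hgen hne hac (Q := KsAff G) (fun i a => ⟨c i a, j a⟩)
    (fun i a ha b hb => KsAff.ext (hc i a ha b hb) (map_mul j a b)) (fun _ => 1)
    (fun s => ⟨s, rfl, ht s, rfl⟩)
    (fun e he => by
      simp only [ht, inv_one, one_mul, mul_one]
      rw [hcomp e he])
  have h3 : KsAff.lin.comp Φ = j := by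
    refine ks_hom_ext hgen (fun i a ha => ?_) (fun s => ?_)
    · rw [MonoidHom.comp_apply, h1 i a ha]
      rfl
    · rw [ht, map_one, map_one]
  refine ⟨fun a => (Φ a).v, fun a b => ?_, fun i a ha => congrArg KsAff.v (h1 i a ha)⟩
  have h4 : (Φ a).g = j a := DFunLike.congr_fun h3 a
  show (Φ (a * b)).v = _
  rw [map_mul, ← h4]
  rfl

end EData

variable {G : Type} [Group G]

lemma ks_cocH {K : Subgroup G} {c : G → L2 G} (hc : IsCoc K c) :
    EData.CocH K.subtype (fun k : K => c k) := fun a b => hc a a.2 b b.2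

lemma ks_fg_subgroupOf {K E : Subgroup G} (h : E ≤ K) (hE : E.FG) : (E.subgroupOf K).FG := by
  rw [← Group.fg_iff_subgroup_fg] at hE ⊢
  exact Group.fg_of_surjective (f := (Subgroup.subgroupOfEquivOfLe h).symm.toMonoidHom)
    (Subgroup.subgroupOfEquivOfLe h).symm.surjective

lemma ks_fp_subgroupOf {K A : Subgroup G} (h : A ≤ K) (hA : InK A) :
    Group.IsFinitelyPresented (A.subgroupOf K) :=
  haveI := hA.fp
  Group.IsFinitelyPresented.equiv (Subgroup.subgroupOfEquivOfLe h).symm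

lemma ks_suppIn_smul {A : Subgroup G} {ξ : L2 G} (h : L2.SuppIn (A : Set G) ξ) {a : G}
    (ha : a ∈ A) : L2.SuppIn (A : Set G) (a • ξ) := by
  refine (h.gsmul a).mono ?_
  rintro _ ⟨k, hk, rfl⟩
  exact A.mul_mem ha hk

/-- The data of an amalgam. -/
def ksAmalg (A B E : Subgroup G) (hA : E ≤ A) (hB : E ≤ B) : EData (↥(A ⊔ B)) Bool where
  A := fun i => (cond i B A).subgroupOf (A ⊔ B)
  κ := id
  t := fun _ => 1
  E := E.subgroupOf (A ⊔ B)
  le := by
    intro s e he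
    rw [inv_one, one_mul, mul_one]
    cases s
    · exact hA he
    · exact hB he

section Amalg

variable {A B E : Subgroup G} {hA : E ≤ A} {hB : E ≤ B}

lemma ksAmalg_gen : (ksAmalg A B E hA hB).Gen := by
  refine ⟨Function.surjective_id, ks_eq_top_of_le_map (sup_le ?_ ?_)⟩
  · intro a ha
    refine ⟨⟨a, Subgroup.mem_sup_left ha⟩, Subgroup.subset_closure (Or.inl ⟨false, ?_⟩), rfl⟩
    show (1 : ↥(A ⊔ B))⁻¹ * _ * 1 ∈ A.subgroupOf (A ⊔ B)
    rw [inv_one, one_mul, mul_one]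
    exact ha
  · intro b hb
    refine ⟨⟨b, Subgroup.mem_sup_right hb⟩, Subgroup.subset_closure (Or.inl ⟨true, ?_⟩), rfl⟩
    show (1 : ↥(A ⊔ B))⁻¹ * _ * 1 ∈ B.subgroupOf (A ⊔ B)
    rw [inv_one, one_mul, mul_one]
    exact hb

lemma ksAmalg_endsNe : (ksAmalg A B E hA hB).EndsNe := fun h =>
  Bool.false_ne_true (congrArg Sigma.fst h)

lemma ksAmalg_turn {g h : ↥(A ⊔ B)} {s : Bool}
    (hg : (ksAmalg A B E hA hB).endp s (g : _ ⧸ (ksAmalg A B E hA hB).E) =
      (ksAmalg A B E hA hB).endp true (h : _ ⧸ (ksAmalg A B E hA hB).E)) :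
    (g : G)⁻¹ * h ∈ B := by
  have hs : s = true := congrArg Sigma.fst hg
  subst hs
  rw [EData.endp_mk, EData.endp_mk, EData.ks_vx_eq] at hg
  have h2 : (g * 1)⁻¹ * (h * 1) ∈ B.subgroupOf (A ⊔ B) := hg
  rw [mul_one, mul_one] at h2
  exact h2

lemma ksAmalg_inK (hG : Nice G) (hAK : InK A) (hBK : InK B) (hE : E.FG)
    (h : (ksAmalg A B E hA hB).Hyps (A ⊔ B).subtype)
    (hext : ∀ i, ∀ x ∈ (ksAmalg A B E hA hB).A i, ∀ y ∈ (ksAmalg A B E hA hB).A i,
      ¬ Commute x y → ∃ c : ↥(A ⊔ B) → L2 G, EData.CocH (A ⊔ B).subtype c ∧ c x = 0 ∧ c y ≠ 0) :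
    InK (A ⊔ B) := by
  have hj : Function.Injective (A ⊔ B).subtype := Subtype.val_injective
  have hfp : Group.IsFinitelyPresented ↥(A ⊔ B) := by
    have := ks_fp_subgroupOf (le_sup_left : A ≤ A ⊔ B) hAK
    have := ks_fp_subgroupOf (le_sup_right : B ≤ A ⊔ B) hBK
    refine EData.ks_fp ksAmalg_gen h.endsNe (h.isAcyclic hj)
      (ks_fg_subgroupOf (hA.trans le_sup_left) hE)
      (F := Monoid.Coprod (A.subgroupOf (A ⊔ B)) (B.subgroupOf (A ⊔ B)))
      (Monoid.Coprod.lift (Subgroup.subtype _) (Subgroup.subtype _))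
      (fun i => match i with
        | false => Monoid.Coprod.inl
        | true => Monoid.Coprod.inr) ?_ (fun _ => 1) (fun s => map_one _)
      (fun s => ⟨s, rfl, rfl, rfl⟩) ?_
    · rintro (_ | _) a
      · exact Monoid.Coprod.lift_apply_inl _ _ _
      · exact Monoid.Coprod.lift_apply_inr _ _ _
    · intro Q _ f g h1 _
      exact Monoid.Coprod.hom_ext (MonoidHom.ext (h1 false)) (MonoidHom.ext (h1 true))
  have := h.inK_range hG hj ksAmalg_gen hfp (by
    rintro (_ | _)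
    · show InK ((A.subgroupOf (A ⊔ B)).map (A ⊔ B).subtype)
      rwa [Subgroup.map_subgroupOf_eq_of_le le_sup_left]
    · show InK ((B.subgroupOf (A ⊔ B)).map (A ⊔ B).subtype)
      rwa [Subgroup.map_subgroupOf_eq_of_le le_sup_right]) hext
  rwa [Subgroup.range_subtype] at this

end Amalg

/-- The data of an HNN extension. -/
def ksHnn (A E : Subgroup G) (τ : G) (hA : E ≤ A) (hτ : ∀ e ∈ E, τ⁻¹ * e * τ ∈ A) :
    EData (↥(A ⊔ Subgroup.zpowers τ)) Unit where
  A := fun _ => A.subgroupOf (A ⊔ Subgroup.zpowers τ)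
  κ := fun _ => ()
  t := fun s => cond s 1 ⟨τ, Subgroup.mem_sup_right (Subgroup.mem_zpowers τ)⟩
  E := E.subgroupOf (A ⊔ Subgroup.zpowers τ)
  le := by
    intro s e he
    cases s
    · exact hτ e he
    · show (1 : ↥(A ⊔ Subgroup.zpowers τ))⁻¹ * e * 1 ∈ _
      rw [inv_one, one_mul, mul_one]
      exact hA he

section Hnn

variable {A E : Subgroup G} {τ : G} {hA : E ≤ A} {hτ : ∀ e ∈ E, τ⁻¹ * e * τ ∈ A}

lemma ksHnn_gen : (ksHnn A E τ hA hτ).Gen := by
  refine ⟨fun _ => ⟨true, rfl⟩, ks_eq_top_of_le_map (sup_le ?_ ?_)⟩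
  · intro a ha
    refine ⟨⟨a, Subgroup.mem_sup_left ha⟩, Subgroup.subset_closure (Or.inl ⟨true, ?_⟩), rfl⟩
    show (1 : ↥(A ⊔ Subgroup.zpowers τ))⁻¹ * _ * 1 ∈ A.subgroupOf (A ⊔ Subgroup.zpowers τ)
    rw [inv_one, one_mul, mul_one]
    exact ha
  · rw [Subgroup.zpowers_le]
    refine ⟨⟨τ, Subgroup.mem_sup_right (Subgroup.mem_zpowers τ)⟩,
      Subgroup.subset_closure (Or.inr ⟨false, true, rfl, ?_⟩), rfl⟩
    show _ = _ * (1 : ↥(A ⊔ Subgroup.zpowers τ))⁻¹
    rw [inv_one, mul_one]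
    rfl

lemma ksHnn_turn {g : ↥(A ⊔ Subgroup.zpowers τ)} {s : Bool}
    (hg : (ksHnn A E τ hA hτ).endp s (g : _ ⧸ (ksHnn A E τ hA hτ).E) =
      (ksHnn A E τ hA hτ).endp true ((1 : ↥(A ⊔ Subgroup.zpowers τ)) :
        _ ⧸ (ksHnn A E τ hA hτ).E)) :
    (g : G) * cond s 1 τ ∈ A := by
  rw [EData.endp_mk, EData.endp_mk] at hg
  have h1 := EData.ks_vx_eq.mp hg.symm
  have h2 : ((1 : ↥(A ⊔ Subgroup.zpowers τ)) * 1)⁻¹ * (g * (ksHnn A E τ hA hτ).t s) ∈
    A.subgroupOf (A ⊔ Subgroup.zpowers τ) := h1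
  rw [mul_one, inv_one, one_mul] at h2
  cases s
  · exact h2
  · exact h2

lemma ksHnn_inK (hG : Nice G) (hAK : InK A) (hE : E.FG)
    (h : (ksHnn A E τ hA hτ).Hyps (A ⊔ Subgroup.zpowers τ).subtype)
    (hext : ∀ x ∈ A, ∀ y ∈ A, ¬ Commute x y →
      ∃ c, IsCoc (A ⊔ Subgroup.zpowers τ) c ∧ c x = 0 ∧ c y ≠ 0) :
    InK (A ⊔ Subgroup.zpowers τ) := by
  have hj : Function.Injective (A ⊔ Subgroup.zpowers τ).subtype := Subtype.val_injective
  have hfp : Group.IsFinitelyPresented ↥(A ⊔ Subgroup.zpowers τ) := by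
    have := ks_fp_subgroupOf (le_sup_left : A ≤ A ⊔ Subgroup.zpowers τ) hAK
    refine EData.ks_fp ksHnn_gen h.endsNe (h.isAcyclic hj)
      (ks_fg_subgroupOf (hA.trans le_sup_left) hE)
      (F := Monoid.Coprod (A.subgroupOf (A ⊔ Subgroup.zpowers τ)) (Multiplicative ℤ))
      (Monoid.Coprod.lift (Subgroup.subtype _)
        (zpowersHom _ ⟨τ, Subgroup.mem_sup_right (Subgroup.mem_zpowers τ)⟩))
      (fun _ => Monoid.Coprod.inl) (fun _ a => Monoid.Coprod.lift_apply_inl _ _ _)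
      (fun s => cond s 1 (Monoid.Coprod.inr (Multiplicative.ofAdd 1))) ?_
      (fun s => ⟨true, rfl, rfl, rfl⟩) ?_
    · rintro (_ | _)
      · show Monoid.Coprod.lift _ _ (Monoid.Coprod.inr _) = _
        rw [Monoid.Coprod.lift_apply_inr, zpowersHom_apply]
        exact zpow_one _
      · exact map_one _
    · intro Q _ f g h1 h2
      exact Monoid.Coprod.hom_ext (MonoidHom.ext (h1 ())) (MonoidHom.ext_mint (h2 false))
  have := h.inK_range hG hj ksHnn_gen hfp (fun _ => by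
    show InK ((A.subgroupOf (A ⊔ Subgroup.zpowers τ)).map (A ⊔ Subgroup.zpowers τ).subtype)
    rwa [Subgroup.map_subgroupOf_eq_of_le le_sup_left]) (fun _ x hx y hy hxy => by
      obtain ⟨c, h1, h2, h3⟩ := hext x hx y hy (fun h => hxy (Subtype.ext h.eq))
      exact ⟨_, ks_cocH h1, h2, h3⟩)
  rwa [Subgroup.range_subtype] at this

end Hnn

end Pool.Agent.Lib.MP_d87150_al
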