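import Mathlib

/-!
# The Hilbert space `l2(G)` with its left and right actions
-/

set_option autoImplicit false

noncomputable section

namespace Pool.Agent.Lib.MP_d87150_al

open scoped InnerProductSpace

/-- Real square-summable functions on `G`. -/
def L2 (G : Type) : Type := lp (fun _ : G => ℝ) 2

namespace L2

variable {G : Type}

instance : NormedAddCommGroup (L2 G) :=
  inferInstanceAs (NormedAddCommGroup (lp (fun _ : G => ℝ) 2))
instance : InnerProductSpace ℝ (L2 G) :=
  inferInstanceAs (InnerProductSpace ℝ (lp (fun _ : G => ℝ) 2))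
instance : CompleteSpace (L2 G) := inferInstanceAs (CompleteSpace (lp (fun _ : G => ℝ) 2))

/-- The underlying element of `lp`. -/
def toLp (ξ : L2 G) : lp (fun _ : G => ℝ) 2 := ξ

/-- The value of `ξ` at `k`. -/
def val (ξ : L2 G) (k : G) : ℝ := (toLp ξ : ∀ _ : G, ℝ) k

theorem ext {ξ η : L2 G} (h : ∀ k, ξ.val k = η.val k) : ξ = η := lp.ext (funext h)

@[simp] theorem val_zero (k : G) : (0 : L2 G).val k = 0 := rfl
@[simp] theorem val_add (ξ η : L2 G) (k : G) : (ξ + η).val k = ξ.val k + η.val k := rfl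
@[simp] theorem val_neg (ξ : L2 G) (k : G) : (-ξ).val k = - ξ.val k := rfl
@[simp] theorem val_sub (ξ η : L2 G) (k : G) : (ξ - η).val k = ξ.val k - η.val k := rfl
@[simp] theorem val_smul (r : ℝ) (ξ : L2 G) (k : G) : (r • ξ).val k = r * ξ.val k := rfl

theorem summable_sq (ξ : L2 G) : Summable fun k => (ξ.val k) ^ 2 := by
  have h := (lp.memℓp (toLp ξ)).summable (by norm_num)
  refine h.congr fun k => ?_
  simp [val, Real.norm_eq_abs, sq_abs]

theorem hasSum_inner (ξ η : L2 G) : HasSum (fun k => ξ.val k * η.val k) ⟪ξ, η⟫_ℝ := by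
  have h := lp.hasSum_inner (𝕜 := ℝ) (toLp ξ) (toLp η)
  have e : (fun k => ξ.val k * η.val k) =
      fun i => ⟪(toLp ξ : ∀ _ : G, ℝ) i, (toLp η : ∀ _ : G, ℝ) i⟫_ℝ := by
    funext k
    simp [val, mul_comm]
  rw [e]
  exact h

theorem hasSum_sq (ξ : L2 G) : HasSum (fun k => (ξ.val k) ^ 2) (‖ξ‖ ^ 2) := by
  have h := hasSum_inner ξ ξ
  rw [real_inner_self_eq_norm_sq] at h
  simpa [sq] using h

/-- Build an element from a square-summable function. -/
def mk (f : G → ℝ) (hf : Summable fun k => (f k) ^ 2) : L2 G :=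
  (⟨f, memℓp_gen (by
    refine hf.congr fun k => ?_
    simp [Real.norm_eq_abs, sq_abs])⟩ : lp (fun _ : G => ℝ) 2)

@[simp] theorem val_mk (f : G → ℝ) (hf : Summable fun k => (f k) ^ 2) (k : G) :
    (mk f hf).val k = f k := rfl

/-- Reindexing along a permutation. -/
def reidx (σ : G ≃ G) (ξ : L2 G) : L2 G :=
  mk (fun k => ξ.val (σ k)) ((σ.summable_iff (f := fun k => (ξ.val k) ^ 2)).2 (summable_sq ξ))

@[simp] theorem val_reidx (σ : G ≃ G) (ξ : L2 G) (k : G) : (reidx σ ξ).val k = ξ.val (σ k) := rfl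

theorem norm_reidx (σ : G ≃ G) (ξ : L2 G) : ‖reidx σ ξ‖ = ‖ξ‖ := by
  have h1 := hasSum_sq (reidx σ ξ)
  have h2 : HasSum (fun k => (ξ.val (σ k)) ^ 2) (‖ξ‖ ^ 2) :=
    (σ.hasSum_iff (f := fun k => (ξ.val k) ^ 2)).2 (hasSum_sq ξ)
  have := h1.unique h2
  exact (pow_left_inj₀ (norm_nonneg _) (norm_nonneg _) two_ne_zero).1 this

/-- Reindexing as a linear isometry. -/
def reidxL (σ : G ≃ G) : L2 G →ₗᵢ[ℝ] L2 G where
  toFun := reidx σ
  map_add' := fun _ _ => ext fun _ => rfl
  map_smul' := fun _ _ => ext fun _ => rfl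
  norm_map' := norm_reidx σ

open Classical in
/-- The Dirac function at `g`. -/
def dirac (g : G) : L2 G := (lp.single 2 g (1 : ℝ) : lp (fun _ : G => ℝ) 2)

open Classical in
theorem val_dirac (g k : G) : (dirac g).val k = if k = g then 1 else 0 := by
  unfold dirac val toLp
  by_cases h : k = g
  · subst h; simp
  · simp [h]

theorem inner_dirac (g : G) (ξ : L2 G) : ⟪ξ, dirac g⟫_ℝ = ξ.val g := by
  classical
  have h := hasSum_inner ξ (dirac g)
  have h2 : HasSum (fun k => ξ.val k * (dirac g).val k) (ξ.val g * (dirac g).val g) := by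
    apply hasSum_single
    intro k hk
    simp [val_dirac, hk]
  rw [h.unique h2]; simp [val_dirac]

theorem dirac_ne_zero (g : G) : dirac g ≠ 0 := by
  intro h
  have := congrArg (fun ξ : L2 G => ξ.val g) h
  simp [val_dirac] at this

open Classical in
/-- Restriction to a subset (multiplication by its indicator). -/
def restrFun (S : Set G) (ξ : L2 G) : L2 G :=
  mk (fun k => if k ∈ S then ξ.val k else 0) (by
    refine Summable.of_nonneg_of_le (fun k => sq_nonneg _) (fun k => ?_) (summable_sq ξ)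
    split_ifs
    · exact le_rfl
    · simpa using sq_nonneg (ξ.val k))

open Classical in
theorem norm_restrFun_le (S : Set G) (ξ : L2 G) : ‖restrFun S ξ‖ ≤ ‖ξ‖ := by
  have h1 := hasSum_sq (restrFun S ξ)
  have h2 := hasSum_sq ξ
  have : ‖restrFun S ξ‖ ^ 2 ≤ ‖ξ‖ ^ 2 := by
    refine hasSum_le (fun k => ?_) h1 h2
    simp only [restrFun, val_mk]
    split_ifs
    · exact le_rfl
    · simpa using sq_nonneg (ξ.val k)
  exact (pow_le_pow_iff_left₀ (norm_nonneg _) (norm_nonneg _) two_ne_zero).1 this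

open Classical in
/-- Restriction to a subset as a continuous linear map. -/
def restr (S : Set G) : L2 G →L[ℝ] L2 G :=
  LinearMap.mkContinuous
    { toFun := restrFun S
      map_add' := fun ξ η => ext fun k => by
        simp only [restrFun, val_mk, val_add]; split_ifs <;> simp
      map_smul' := fun r ξ => ext fun k => by
        simp only [restrFun, val_mk, val_smul, RingHom.id_apply]; split_ifs <;> simp }
    1 (fun ξ => by simpa using norm_restrFun_le S ξ)

open Classical in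
theorem val_restr (S : Set G) (ξ : L2 G) (k : G) :
    (restr S ξ).val k = if k ∈ S then ξ.val k else 0 := rfl

/-- `ξ` vanishes outside `S`. -/
def SuppIn (S : Set G) (ξ : L2 G) : Prop := ∀ k, k ∉ S → ξ.val k = 0

variable [Group G]

/-- The left regular action `(g • ξ) k = ξ (g⁻¹ k)`. -/
instance : DistribMulAction G (L2 G) where
  smul g ξ := reidx (Equiv.mulLeft g⁻¹) ξ
  one_smul ξ := ext fun k => by
    show ξ.val ((1 : G)⁻¹ * k) = _
    simp
  mul_smul g h ξ := ext fun k => by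
    show ξ.val ((g * h)⁻¹ * k) = ξ.val (h⁻¹ * (g⁻¹ * k))
    simp [mul_assoc]
  smul_zero g := ext fun _ => rfl
  smul_add g ξ η := ext fun _ => rfl

@[simp] theorem val_gsmul (g : G) (ξ : L2 G) (k : G) : (g • ξ).val k = ξ.val (g⁻¹ * k) := rfl

@[simp] theorem norm_gsmul (g : G) (ξ : L2 G) : ‖g • ξ‖ = ‖ξ‖ := norm_reidx _ ξ

instance : SMulCommClass G ℝ (L2 G) := ⟨fun _ _ _ => ext fun _ => rfl⟩
instance : SMulCommClass ℝ G (L2 G) := ⟨fun _ _ _ => ext fun _ => rfl⟩

instance : ContinuousConstSMul G (L2 G) :=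
  ⟨fun g => (reidxL (Equiv.mulLeft g⁻¹)).continuous⟩

/-- Left translation as a continuous linear map. -/
def lt (g : G) : L2 G →L[ℝ] L2 G := (reidxL (Equiv.mulLeft g⁻¹)).toContinuousLinearMap

@[simp] theorem lt_apply (g : G) (ξ : L2 G) : lt g ξ = g • ξ := rfl

/-- Right translation `(rt g ξ) k = ξ (k g)`. -/
def rt (g : G) : L2 G →L[ℝ] L2 G := (reidxL (Equiv.mulRight g)).toContinuousLinearMap

@[simp] theorem val_rt (g : G) (ξ : L2 G) (k : G) : (rt g ξ).val k = ξ.val (k * g) := rfl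

@[simp] theorem norm_rt (g : G) (ξ : L2 G) : ‖rt g ξ‖ = ‖ξ‖ := norm_reidx _ ξ

theorem rt_gsmul (g h : G) (ξ : L2 G) : rt g (h • ξ) = h • rt g ξ :=
  ext fun k => by simp [mul_assoc]

theorem rt_one (ξ : L2 G) : rt (1 : G) ξ = ξ := ext fun k => by simp

theorem rt_mul (g h : G) (ξ : L2 G) : rt (g * h) ξ = rt g (rt h ξ) :=
  ext fun k => by simp [mul_assoc]

end L2

end Pool.Agent.Lib.MP_d87150_al
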