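import Pool.Agent.Lib.MP_d87150_al.L2

/-!
# More facts on `l2(G)`: supports, the operators `x - 1`, ping-pong estimate
-/

set_option autoImplicit false

noncomputable section

namespace Pool.Agent.Lib.MP_d87150_al

open scoped InnerProductSpace

namespace L2

variable {G : Type}

theorem SuppIn.zero (S : Set G) : SuppIn S (0 : L2 G) := fun _ _ => rfl

theorem SuppIn.add {S : Set G} {ξ η : L2 G} (h1 : SuppIn S ξ) (h2 : SuppIn S η) :
    SuppIn S (ξ + η) := fun k hk => by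
  simp [h1 k hk, h2 k hk]

theorem SuppIn.neg {S : Set G} {ξ : L2 G} (h1 : SuppIn S ξ) : SuppIn S (-ξ) := fun k hk => by
  simp [h1 k hk]

theorem SuppIn.sub {S : Set G} {ξ η : L2 G} (h1 : SuppIn S ξ) (h2 : SuppIn S η) :
    SuppIn S (ξ - η) := fun k hk => by
  simp [h1 k hk, h2 k hk]

theorem SuppIn.mono {S S' : Set G} {ξ : L2 G} (h1 : SuppIn S ξ) (h : S ⊆ S') :
    SuppIn S' ξ := fun k hk => h1 k fun hs => hk (h hs)

theorem suppIn_restr (S : Set G) (ξ : L2 G) : SuppIn S (restr S ξ) := fun k hk => by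
  simp [val_restr, hk]

theorem suppIn_dirac (g : G) : SuppIn {g} (dirac g) := fun k hk => by
  rw [val_dirac, if_neg (by simpa using hk)]

theorem inner_eq_zero_of_disjoint {S S' : Set G} {ξ η : L2 G} (h1 : SuppIn S ξ)
    (h2 : SuppIn S' η) (h : Disjoint S S') : ⟪ξ, η⟫_ℝ = 0 := by
  refine (hasSum_inner ξ η).unique ?_
  have e : (fun k => ξ.val k * η.val k) = fun _ => (0 : ℝ) := by
    funext k
    by_cases hk : k ∈ S
    · rw [h2 k (Set.disjoint_left.mp h hk), mul_zero]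
    · rw [h1 k hk, zero_mul]
  rw [e]
  exact hasSum_zero

/-- Pythagoras for disjointly supported vectors. -/
theorem norm_sum_sq_of_disjoint {ι : Type} (s : Finset ι) (S : ι → Set G) (ξ : ι → L2 G)
    (h1 : ∀ i ∈ s, SuppIn (S i) (ξ i))
    (h2 : ∀ i ∈ s, ∀ j ∈ s, i ≠ j → Disjoint (S i) (S j)) :
    ‖∑ i ∈ s, ξ i‖ ^ 2 = ∑ i ∈ s, ‖ξ i‖ ^ 2 := by
  classical
  rw [← real_inner_self_eq_norm_sq, sum_inner]
  refine Finset.sum_congr rfl fun i hi => ?_
  rw [inner_sum, Finset.sum_eq_single i, real_inner_self_eq_norm_sq]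
  · intro j hj hji
    exact inner_eq_zero_of_disjoint (h1 i hi) (h1 j hj) (h2 i hi j hj hji.symm)
  · intro h
    exact absurd hi h

variable [Group G]

theorem SuppIn.gsmul {S : Set G} {ξ : L2 G} (h1 : SuppIn S ξ) (g : G) :
    SuppIn ((fun k => g * k) '' S) (g • ξ) := fun k hk => by
  rw [val_gsmul]
  exact h1 _ fun hs => hk ⟨_, hs, by simp⟩

theorem gsmul_dirac (g h : G) : g • dirac h = dirac (g * h) := ext fun k => by
  classical
  rw [val_gsmul, val_dirac, val_dirac]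
  exact if_congr inv_mul_eq_iff_eq_mul rfl rfl

/-- Restriction to a left `a`-invariant set commutes with `a`. -/
theorem restr_gsmul {S : Set G} {a : G} (h : ∀ k, a * k ∈ S ↔ k ∈ S) (ξ : L2 G) :
    restr S (a • ξ) = a • restr S ξ := ext fun k => by
  have := h (a⁻¹ * k)
  rw [mul_inv_cancel_left] at this
  classical
  rw [val_gsmul, val_restr, val_restr, val_gsmul]
  exact if_congr this rfl rfl

/-- A nonzero vector has a right translate whose restriction to the subgroup `A` is nonzero. -/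
theorem exists_restr_rt_ne_zero (A : Subgroup G) {ξ : L2 G} (h : ξ ≠ 0) :
    ∃ r : G, restr (A : Set G) (rt r ξ) ≠ 0 := by
  by_contra hc
  push Not at hc
  refine h (ext fun k => ?_)
  have := congrArg (fun η : L2 G => η.val 1) (hc k)
  simpa [val_restr, A.one_mem] using this

/-- An element of infinite order fixes no nonzero vector. -/
theorem eq_zero_of_gsmul_eq {x : G} (hx : ¬ IsOfFinOrder x) {ξ : L2 G} (h : x • ξ = ξ) :
    ξ = 0 := by
  refine ext fun k => ?_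
  have h1 : ∀ n : ℕ, x ^ n • ξ = ξ := fun n => by
    induction n with
    | zero => simp
    | succ n ih => rw [pow_succ, mul_smul, h, ih]
  have h2 : ∀ n : ℕ, ξ.val (x ^ n * k) = ξ.val k := fun n => by
    have := congrArg (fun η : L2 G => η.val (x ^ n * k)) (h1 n)
    simpa using this.symm
  have hinj : Function.Injective fun n : ℕ => x ^ n * k := fun a b hab =>
    injective_pow_iff_not_isOfFinOrder.mpr hx (mul_right_cancel hab)
  have h3 := ((summable_sq ξ).comp_injective hinj).tendsto_atTop_zero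
  simp only [Function.comp_def, h2] at h3
  have h4 := tendsto_nhds_unique tendsto_const_nhds h3
  simpa using h4

theorem eq_of_gsmul_sub_eq {x : G} (hx : ¬ IsOfFinOrder x) {ξ η : L2 G}
    (h : x • ξ - ξ = x • η - η) : ξ = η := by
  have h1 : x • (ξ - η) = ξ - η := by
    rw [smul_sub]
    exact sub_eq_sub_iff_sub_eq_sub.mp h
  exact sub_eq_zero.mp (eq_zero_of_gsmul_eq hx h1)

/-- `x - 1` has dense range for `x` of infinite order (its adjoint `x⁻¹ - 1` is injective). -/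
theorem denseRange_gsmul_sub {x : G} (hx : ¬ IsOfFinOrder x) :
    DenseRange (fun ξ : L2 G => x • ξ - ξ) := by
  let D : L2 G →L[ℝ] L2 G := lt x - ContinuousLinearMap.id ℝ (L2 G)
  have h1 : (LinearMap.range (D : L2 G →ₗ[ℝ] L2 G)).topologicalClosure = ⊤ := by
    rw [Submodule.topologicalClosure_eq_top_iff, eq_bot_iff]
    intro η hη
    rw [Submodule.mem_bot]
    refine eq_zero_of_gsmul_eq hx (ext fun k => ?_)
    have h2 := (Submodule.mem_orthogonal' _ _).mp hη (D (dirac (x⁻¹ * k))) ⟨_, rfl⟩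
    have h3 : D (dirac (x⁻¹ * k)) = dirac k - dirac (x⁻¹ * k) := by
      simp [D, gsmul_dirac]
    rw [h3, inner_sub_right, inner_dirac, inner_dirac] at h2
    rw [val_gsmul]
    linarith
  exact Submodule.dense_iff_topologicalClosure_eq_top.mpr h1

/-- Ping-pong sets give a spectral gap. -/
theorem norm_le_of_pingpong {u v : G} {S₁ S₂ S₃ S₄ : Set G}
    (h12 : Disjoint S₁ S₂) (h13 : Disjoint S₁ S₃) (h14 : Disjoint S₁ S₄)
    (h23 : Disjoint S₂ S₃) (h24 : Disjoint S₂ S₄) (h34 : Disjoint S₃ S₄)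
    (hu : ∀ k, k ∉ S₂ → u * k ∈ S₁) (hv : ∀ k, k ∉ S₄ → v * k ∈ S₃) (ξ : L2 G) :
    ‖ξ‖ ≤ 4 * (‖u • ξ - ξ‖ + ‖v • ξ - ξ‖) := by
  classical
  have key : ∀ (w : G) (S S' : Set G), (∀ k, k ∉ S' → w * k ∈ S) →
      ‖ξ‖ ^ 2 - ‖restr S' ξ‖ ^ 2 ≤ (‖restr S ξ‖ + ‖w • ξ - ξ‖) ^ 2 := by
    intro w S S' hw
    have a1 := (hasSum_sq ξ).sub (hasSum_sq (restr S' ξ))
    have a2 : HasSum (fun k => ((restr S (w • ξ)).val (w * k)) ^ 2) (‖restr S (w • ξ)‖ ^ 2) :=
      ((Equiv.mulLeft w).hasSum_iff (f := fun k => ((restr S (w • ξ)).val k) ^ 2)).2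
        (hasSum_sq _)
    have a3 : ‖ξ‖ ^ 2 - ‖restr S' ξ‖ ^ 2 ≤ ‖restr S (w • ξ)‖ ^ 2 := by
      refine hasSum_le (fun k => ?_) a1 a2
      simp only [val_restr, val_gsmul, inv_mul_cancel_left]
      by_cases hk : k ∈ S'
      · rw [if_pos hk, sub_self]
        exact sq_nonneg _
      · rw [if_neg hk, if_pos (hw k hk)]
        simp
    have a4 : ‖restr S (w • ξ)‖ ≤ ‖restr S ξ‖ + ‖w • ξ - ξ‖ := by
      have e : restr S (w • ξ) = restr S ξ + restr S (w • ξ - ξ) := by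
        rw [map_sub]
        abel
      rw [e]
      exact (norm_add_le _ _).trans (add_le_add_right (norm_restrFun_le S _) _)
    exact a3.trans (pow_le_pow_left₀ (norm_nonneg _) a4 2)
  have b1 := key u S₁ S₂ hu
  have b2 := key v S₃ S₄ hv
  have b3 : ‖restr S₁ ξ‖ ^ 2 + ‖restr S₂ ξ‖ ^ 2 + ‖restr S₃ ξ‖ ^ 2 + ‖restr S₄ ξ‖ ^ 2 ≤
      ‖ξ‖ ^ 2 := by
    refine hasSum_le (fun k => ?_) ((((hasSum_sq _).add (hasSum_sq _)).add (hasSum_sq _)).add
      (hasSum_sq _)) (hasSum_sq ξ)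
    simp only [val_restr]
    have c12 : k ∈ S₁ → k ∉ S₂ := fun h => Set.disjoint_left.mp h12 h
    have c13 : k ∈ S₁ → k ∉ S₃ := fun h => Set.disjoint_left.mp h13 h
    have c14 : k ∈ S₁ → k ∉ S₄ := fun h => Set.disjoint_left.mp h14 h
    have c23 : k ∈ S₂ → k ∉ S₃ := fun h => Set.disjoint_left.mp h23 h
    have c24 : k ∈ S₂ → k ∉ S₄ := fun h => Set.disjoint_left.mp h24 h
    have c34 : k ∈ S₃ → k ∉ S₄ := fun h => Set.disjoint_left.mp h34 h
    have := sq_nonneg (ξ.val k)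
    by_cases k1 : k ∈ S₁ <;> by_cases k2 : k ∈ S₂ <;> by_cases k3 : k ∈ S₃ <;>
      by_cases k4 : k ∈ S₄ <;> simp_all
  have n1 : ‖restr S₁ ξ‖ ≤ ‖ξ‖ := norm_restrFun_le S₁ ξ
  have n3 : ‖restr S₃ ξ‖ ≤ ‖ξ‖ := norm_restrFun_le S₃ ξ
  have p0 := norm_nonneg ξ
  have pu := norm_nonneg (u • ξ - ξ)
  have pv := norm_nonneg (v • ξ - ξ)
  by_contra hc
  push Not at hc
  have q1 := mul_le_mul_of_nonneg_right n1 pu
  have q3 := mul_le_mul_of_nonneg_right n3 pv
  have q4 := mul_nonneg pu pv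
  nlinarith

end L2

end Pool.Agent.Lib.MP_d87150_al
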