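import Pool.Agent.Lib.MP_d87150_al.Step

/-!
# An infinite aperiodic Process II ends in a quadratic part
-/

set_option autoImplicit false

noncomputable section

namespace Pool.Agent.Lib.MP_d87150_al

open Set Filter Topology

namespace Skel

variable {V : Type} [AddCommGroup V] {π : V →+ ℝ} {L O : Type}

/-- An infinite run of Process II in the object `i` in which no band disappears. -/
structure Run (A : ℕ → Skel π L O) (l : ℕ → L × Bool) (m : ℕ → ℝ) (i : O) : Prop where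
  car : ∀ n, (A n).Carrier (l n) (m n)
  succ : ∀ n, A (n + 1) = (A n).step (l n) (m n)
  ob : ∀ n, (A n).ob (l n) = i
  lt : ∀ n, m n < (A n).hi (l n)

variable {A : ℕ → Skel π L O} {l : ℕ → L × Bool} {m : ℕ → ℝ} {i : O}

theorem limit_map_smul (ε : ℤˣ) (v : V) : π (ε • v) = ε • π v := by
  rcases Int.units_eq_one_or ε with rfl | rfl <;> simp

theorem limit_step_unslid {B : Skel π L O} {l ω : L × Bool} (m : ℝ) (hs : ¬ B.Slid l ω) :
    (B.step l m).ob ω = B.ob ω ∧ (B.step l m).sg ω = B.sg ω ∧ (B.step l m).off ω = B.off ω :=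
  ⟨if_neg hs, if_neg hs, if_neg hs⟩

theorem limit_step_slid {B : Skel π L O} {l ω : L × Bool} (m : ℝ) (hs : B.Slid l ω) :
    (B.step l m).ob ω = B.ob (bar l) ∧ (B.step l m).sg ω = B.vsg l * B.sg ω ∧
      (B.step l m).off ω = B.vsg l • B.off ω + B.voff l :=
  ⟨if_pos hs, if_pos hs, if_pos hs⟩

theorem limit_step_ab {B : Skel π L O} {l : L × Bool} (m : ℝ) {k : L} (hk : k ≠ l.1) :
    (B.step l m).a k = B.a k ∧ (B.step l m).b k = B.b k :=
  ⟨if_neg fun h => hk h.1, if_neg fun h => hk h.1⟩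

theorem limit_lo_lt_hi {B : Skel π L O} {ω : L × Bool} : B.lo ω < B.hi ω ↔ B.Long ω.1 := by
  have := B.hi_sub_lo ω
  unfold Long
  constructor <;> intro h <;> linarith

theorem limit_lo_bar (B : Skel π L O) (ω : L × Bool) :
    (B.vsg ω = 1 ∧ B.lo (bar ω) = B.lo ω + π (B.voff ω)) ∨
      (B.vsg ω = -1 ∧ B.lo (bar ω) = -B.hi ω + π (B.voff ω)) := by
  have h1 := B.rmap_rpos ω (B.a ω.1)
  have h2 := B.rmap_rpos ω (B.b ω.1)
  unfold rmap at h1 h2
  have hne : (-1 : ℤˣ) ≠ 1 := by decide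
  have hv : B.vsg ω = B.sg (bar ω) * B.sg ω := rfl
  unfold lo hi
  rcases Int.units_eq_one_or (B.sg ω) with e | e <;>
    rcases Int.units_eq_one_or (B.sg (bar ω)) with e' | e' <;> rw [e, e'] at hv
  · left
    rw [mul_one] at hv
    rw [hv, one_smul] at h1
    exact ⟨hv, by rw [if_pos e, if_pos e', bar_fst, h1]⟩
  · right
    rw [mul_one] at hv
    rw [hv, Units.neg_smul, one_smul] at h2
    exact ⟨hv, by rw [if_pos e, if_neg (e' ▸ hne), bar_fst, h2]⟩
  · right
    rw [one_mul] at hv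
    rw [hv, Units.neg_smul, one_smul] at h1
    exact ⟨hv, by rw [if_pos e', if_neg (e ▸ hne), bar_fst, h1]⟩
  · left
    rw [neg_mul_neg, mul_one] at hv
    rw [hv, one_smul] at h2
    exact ⟨hv, by rw [if_neg (e' ▸ hne), if_neg (e ▸ hne), bar_fst, h2]⟩

theorem limit_lo_hi (B : Skel π L O) (ω : L × Bool) :
    (B.sg ω = 1 ∧ B.lo ω = B.a ω.1 + π (B.off ω) ∧ B.hi ω = B.b ω.1 + π (B.off ω)) ∨
      (B.sg ω = -1 ∧ B.lo ω = -B.b ω.1 + π (B.off ω) ∧ B.hi ω = -B.a ω.1 + π (B.off ω)) := by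
  have hne : (-1 : ℤˣ) ≠ 1 := by decide
  unfold lo hi rpos
  rcases Int.units_eq_one_or (B.sg ω) with e | e
  · left
    simp only [e, if_true, one_smul, and_self]
  · right
    simp only [e, if_neg hne, Units.neg_smul, one_smul, and_self]

theorem Run.long_succ (h : Run A l m i) (n : ℕ) :
    (A (n + 1)).Long (l n).1 ∧ (A (n + 1)).ob (l n) = i ∧ (A (n + 1)).lo (l n) = m n ∧
      (A (n + 1)).hi (l n) = (A n).hi (l n) := by
  have hc := h.car n
  rw [h.succ n]
  refine ⟨limit_lo_lt_hi.1 ?_, hc.step_ob.trans (h.ob n), hc.step_lo, hc.step_hi⟩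
  rw [hc.step_lo, hc.step_hi]
  exact h.lt n

theorem Run.lo_succ (h : Run A l m i) (n : ℕ) : (A (n + 1)).lo (l (n + 1)) = m n := by
  obtain ⟨h1, h2, h3, -⟩ := h.long_succ n
  apply le_antisymm
  · rw [← h3]
    exact (h.car (n + 1)).min _ h1 (h2.trans (h.ob _).symm)
  · have h4 := (h.car (n + 1)).long
    have h5 := h.ob (n + 1)
    rw [h.succ n] at h4 h5 ⊢
    exact (h.car n).le_step_lo h4 (h5.trans (h.ob n).symm)

theorem Run.hi_mono (h : Run A l m i) : Monotone fun n => (A n).hi (l n) := by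
  refine monotone_nat_of_le_succ fun n => ?_
  obtain ⟨h1, h2, h3, h4⟩ := h.long_succ n
  rw [← h4]
  exact (h.car (n + 1)).max _ h1 (h2.trans (h.ob _).symm) (h3.trans (h.lo_succ n).symm)

theorem limit_step_base {B : Skel π L O} {l : L × Bool} {m : ℝ} (h : B.Carrier l m)
    {ω : L × Bool} {z : ℝ} (hz : z ∈ (B.step l m).base ω) : ∃ ω', z ∈ B.base ω' := by
  by_cases hs : B.Slid l ω
  · have e : z = B.rmap l (B.rmap (bar l) z) := by
      have := B.rmap_bar_rmap (bar l) z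
      rw [bar_bar] at this
      exact this.symm
    rw [e] at hz ⊢
    exact ⟨bar l, B.rmap_mem_base.2 (h.base_subset hs ((h.mem_step_base_of_slid hs).1 hz))⟩
  · obtain ⟨τ, rfl⟩ := (B.step l m).rpos_surjective ω z
    have h1 := ((B.step l m).rpos_mem_base).1 hz
    obtain ⟨-, e1, e2⟩ := limit_step_unslid m hs
    have e : (B.step l m).rpos ω τ = B.rpos ω τ := by
      unfold rpos
      rw [e1, e2]
    rw [e]
    exact ⟨ω, B.rpos_mem_base.2
      ⟨(h.step_a_le _).trans_lt h1.1, h1.2.trans_le (h.step_b_le _)⟩⟩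

theorem Run.bdd [Finite L] (h : Run A l m i) : ∃ M : ℝ, ∀ n, (A n).hi (l n) ≤ M := by
  obtain ⟨M, hM⟩ := (Set.finite_range (A 0).hi).bddAbove
  have key : ∀ n ω z, z ∈ (A n).base ω → z ≤ M := by
    intro n
    induction n with
    | zero => exact fun ω z hz => hz.2.le.trans (hM ⟨ω, rfl⟩)
    | succ n ih =>
      intro ω z hz
      rw [h.succ n] at hz
      obtain ⟨ω', h'⟩ := limit_step_base (h.car n) hz
      exact ih ω' z h'
  refine ⟨M, fun n => ?_⟩
  by_contra hc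
  rw [not_le] at hc
  obtain ⟨z, hz1, hz2⟩ := exists_between (max_lt hc (limit_lo_lt_hi.2 (h.car n).long))
  have := key n (l n) z ⟨(le_max_right _ _).trans_lt hz1, hz2⟩
  exact absurd ((le_max_left _ _).trans_lt hz1) (not_lt.2 this)

theorem Run.ia (h : Run A l m i) (n : ℕ) {j o : O} {u v : ℝ} (huv : u < v) {ε : ℤˣ} {c : V}
    (hi : (A n).IA j u v o ε c) : (A 0).IA j u v o ε c := by
  induction n with
  | zero => exact hi
  | succ n ih =>
    rw [h.succ n] at hi
    exact ih ((h.car n).step_ia huv hi)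

theorem Run.a_mono (h : Run A l m i) (k : L) : Monotone fun n => (A n).a k := by
  refine monotone_nat_of_le_succ fun n => ?_
  rw [h.succ n]
  exact (h.car n).step_a_le k

theorem Run.b_anti (h : Run A l m i) (k : L) : Antitone fun n => (A n).b k := by
  refine antitone_nat_of_succ_le fun n => ?_
  rw [h.succ n]
  exact (h.car n).step_b_le k

theorem Run.ia_carrier (h : Run A l m i) (n : ℕ) :
    (A 0).IA ((A n).ob (l n)) ((A n).lo (l n)) ((A n).hi (l n)) ((A n).ob (bar (l n)))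
      ((A n).vsg (l n)) ((A n).voff (l n)) :=
  h.ia n (limit_lo_lt_hi.2 (h.car n).long) (IA.single (l n))

/-- The change of position of a base between two times is a word of the initial pseudogroup. -/
theorem Run.transition (h : Run A l m i) (ω : L × Bool) {n n' : ℕ} (hn : n ≤ n') {u v : ℝ}
    (huv : u < v)
    (hs : ∀ z ∈ Ioo u v, ∃ τ ∈ Ioo ((A n').a ω.1) ((A n').b ω.1), z = (A n).rpos ω τ) :
    (A 0).IA ((A n).ob ω) u v ((A n').ob ω) ((A n').sg ω * (A n).sg ω)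
      ((A n').off ω - ((A n').sg ω * (A n).sg ω) • (A n).off ω) := by
  induction n', hn using Nat.le_induction with
  | base =>
    rw [Int.units_mul_self, one_smul, sub_self]
    exact IA.refl
  | succ k hk ih =>
    have hs' : ∀ z ∈ Ioo u v, ∃ τ ∈ Ioo ((A k).a ω.1) ((A k).b ω.1), z = (A n).rpos ω τ := by
      intro z hz
      obtain ⟨τ, hτ, e⟩ := hs z hz
      exact ⟨τ, ⟨(h.a_mono ω.1 (Nat.le_succ k)).trans_lt hτ.1,
        hτ.2.trans_le (h.b_anti ω.1 (Nat.le_succ k))⟩, e⟩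
    have ih := ih hs'
    rw [h.succ k]
    by_cases hsl : (A k).Slid (l k) ω
    · obtain ⟨e1, e2, e3⟩ := limit_step_slid (m k) hsl
      have h1 := h.ia_carrier k
      rw [← hsl.2.2.1] at h1
      have h2 := ih.trans h1 (fun x hx => by
        obtain ⟨τ, hτ, rfl⟩ := hs' x hx
        have e : ((A k).sg ω * (A n).sg ω) • (A n).rpos ω τ +
            π ((A k).off ω - ((A k).sg ω * (A n).sg ω) • (A n).off ω) = (A k).rpos ω τ := by
          unfold rpos
          rw [map_sub, limit_map_smul, smul_add, smul_smul, mul_assoc, Int.units_mul_self, mul_one]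
          ring
        rw [e]
        exact (h.car k).base_subset hsl ((A k).rpos_mem_base.2 hτ))
      rw [e1, e2, e3, mul_assoc]
      have e4 : (A k).vsg (l k) • (A k).off ω + (A k).voff (l k) -
          ((A k).vsg (l k) * ((A k).sg ω * (A n).sg ω)) • (A n).off ω =
          (A k).vsg (l k) • ((A k).off ω - ((A k).sg ω * (A n).sg ω) • (A n).off ω) +
            (A k).voff (l k) := by
        rw [smul_sub, smul_smul]
        abel
      rw [e4]
      exact h2
    · obtain ⟨e1, e2, e3⟩ := limit_step_unslid (m k) hsl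
      rw [e1, e2, e3]
      exact ih

theorem Run.m_lt_succ (h : Run A l m i) (n : ℕ) : m n < m (n + 1) := by
  rw [← h.lo_succ n]
  exact (h.car (n + 1)).lo_lt

/-- The cut points converge. -/
theorem Run.exists_lim [Finite L] (h : Run A l m i) :
    ∃ M : ℝ, (∀ n, m n ≤ M) ∧ ∀ η > 0, ∃ N, ∀ n ≥ N, M - η < (A n).lo (l n) := by
  obtain ⟨M₀, hM₀⟩ := h.bdd
  have hb : BddAbove (range m) := ⟨M₀, by
    rintro _ ⟨n, rfl⟩
    exact (h.lt n).le.trans (hM₀ n)⟩
  have hm : Monotone m := monotone_nat_of_le_succ fun n => (h.m_lt_succ n).le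
  refine ⟨⨆ n, m n, fun n => le_ciSup hb n, fun η hη => ?_⟩
  obtain ⟨N, hN⟩ := exists_lt_of_lt_ciSup (show (⨆ n, m n) - η < ⨆ n, m n by linarith)
  refine ⟨N + 1, fun n hn => ?_⟩
  obtain ⟨k, rfl⟩ : ∃ k, n = k + 1 := ⟨n - 1, by omega⟩
  rw [h.lo_succ k]
  exact hN.trans_le (hm (by omega))

/-- If the upper end of the carrier does not move, the carrier is a translation onto a base that
starts at the cut point. -/
theorem Run.ia_of_hi_eq (h : Run A l m i) (hnr : (A 0).NoRefl) (n : ℕ)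
    (he : (A (n + 1)).hi (l (n + 1)) = (A n).hi (l n)) :
    ∃ c : V, π c = m n - (A n).lo (l n) ∧
      (A 0).IA i ((A n).lo (l n)) ((A n).hi (l n)) i 1 c := by
  have hc := h.car n
  obtain ⟨μ, hμ1, hμ2, hμ3, hμ4⟩ := hc.att.resolve_left (h.lt n).ne
  have hμ : μ = bar (l n) := by
    by_contra hne
    have hk : μ.1 ≠ (l n).1 := by
      intro hk
      by_cases h2 : μ.2 = (l n).2
      · have : μ = l n := Prod.ext hk h2
        rw [this] at hμ3
        exact lt_irrefl _ hμ3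
      · refine hne (Prod.ext hk ?_)
        rw [bar_snd]
        exact Bool.eq_not_of_ne h2
    have hs : ¬ (A n).Slid (l n) μ := fun hs => absurd hs.2.2.2 (not_le.2 hμ3)
    obtain ⟨e1, e2, e3⟩ := limit_step_unslid (m n) hs
    obtain ⟨e4, e5⟩ := limit_step_ab (B := A n) (m n) hk
    rw [← h.succ n] at e1 e2 e3 e4 e5
    have f1 : (A (n + 1)).lo μ = (A n).lo μ := by
      unfold lo rpos
      rw [e2, e3, e4, e5]
    have f2 : (A (n + 1)).hi μ = (A n).hi μ := by
      unfold hi rpos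
      rw [e2, e3, e4, e5]
    have f3 : (A (n + 1)).Long μ.1 := by
      unfold Long
      rw [e4, e5]
      exact hμ1
    have := (h.car (n + 1)).max μ f3 ((e1.trans (hμ2.trans (h.ob n))).trans (h.ob _).symm)
      ((f1.trans hμ4).trans (h.lo_succ n).symm)
    rw [f2, he] at this
    exact absurd this (not_le.2 hμ3)
  subst hμ
  have h1 := h.ia_carrier n
  rw [hμ2, h.ob n] at h1
  rcases limit_lo_bar (A n) (l n) with ⟨e1, e2⟩ | ⟨e1, e2⟩ <;> rw [e1] at h1
  · exact ⟨_, by linarith, h1⟩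
  · refine absurd ⟨?_, ?_⟩ (hnr _ _ _ _ h1) <;> linarith [hc.lo_lt, h.lt n]

/-- In the aperiodic case the widths of the carriers tend to zero. -/
theorem Run.tendsto_width [Finite L] (h : Run A l m i) (hap : (A 0).Aper)
    (hnr : (A 0).NoRefl) :
    Tendsto (fun n => (A n).hi (l n) - (A n).lo (l n)) atTop (𝓝 0) := by
  by_contra hcon
  obtain ⟨δ, hδ, hfr⟩ : ∃ δ > 0, ∃ᶠ n in atTop, δ ≤ (A n).hi (l n) - (A n).lo (l n) := by
    by_contra h2
    refine hcon (tendsto_order.2 ⟨fun a ha => Eventually.of_forall fun n => ?_, fun a ha => ?_⟩)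
    · linarith [limit_lo_lt_hi.2 (h.car n).long]
    · have h3 : ¬ ∃ᶠ n in atTop, a ≤ (A n).hi (l n) - (A n).lo (l n) := fun h3 => h2 ⟨a, ha, h3⟩
      rw [not_frequently] at h3
      exact h3.mono fun n hn => not_le.1 hn
  obtain ⟨⟨ω, σ⟩, hS⟩ : ∃ p : (L × Bool) × ℤˣ, ∃ᶠ n in atTop,
      l n = p.1 ∧ (A n).sg p.1 = p.2 ∧ δ ≤ (A n).hi (l n) - (A n).lo (l n) := by
    by_contra h2
    have h3 : ∀ p : (L × Bool) × ℤˣ, ∀ᶠ n in atTop,
        ¬ (l n = p.1 ∧ (A n).sg p.1 = p.2 ∧ δ ≤ (A n).hi (l n) - (A n).lo (l n)) :=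
      fun p => not_frequently.1 fun h3 => h2 ⟨p, h3⟩
    obtain ⟨n, h4, h5⟩ := (hfr.and_eventually (eventually_all.2 h3)).exists
    exact h5 (l n, (A n).sg (l n)) ⟨rfl, rfl, h4⟩
  rw [frequently_atTop] at hS
  simp only at hS
  obtain ⟨M, hM1, hM2⟩ := h.exists_lim
  have hne : (-1 : ℤˣ) ≠ 1 := by decide
  have hlo : ∀ n, (A n).lo (l n) ≤ M := fun n => (h.car n).lo_lt.le.trans (hM1 n)
  have ha := h.a_mono ω.1
  have hb := h.b_anti ω.1
  by_cases hB : ∃ N₀, (l N₀ = ω ∧ (A N₀).sg ω = σ) ∧ ∀ n ≥ N₀,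
      (l n = ω ∧ (A n).sg ω = σ ∧ δ ≤ (A n).hi (l n) - (A n).lo (l n)) →
        (A n).off ω = (A N₀).off ω
  · obtain ⟨N₀, ⟨hN₁, hN₂⟩, hoff⟩ := hB
    have he : ∀ n ≥ N₀, (A n).hi (l n) = (A N₀).hi (l N₀) := by
      intro n hn
      refine le_antisymm ?_ (h.hi_mono hn)
      obtain ⟨k, hk, hkS⟩ := hS n
      refine (h.hi_mono hk).trans ?_
      have e := hoff k (hn.trans hk) hkS
      have h1 : (A N₀).a ω.1 ≤ (A k).a ω.1 := ha (hn.trans hk)
      have h2 : (A k).b ω.1 ≤ (A N₀).b ω.1 := hb (hn.trans hk)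
      show (A k).hi (l k) ≤ _
      rw [hkS.1, hN₁]
      rcases limit_lo_hi (A k) ω with ⟨s1, -, s2⟩ | ⟨s1, -, s2⟩ <;>
        rcases limit_lo_hi (A N₀) ω with ⟨t1, -, t2⟩ | ⟨t1, -, t2⟩
      · rw [s2, t2, e]; linarith
      · exact absurd (t1.symm.trans (hN₂.trans (hkS.2.1.symm.trans s1))) hne
      · exact absurd (s1.symm.trans (hkS.2.1.trans (hN₂.symm.trans t1))) hne
      · rw [s2, t2, e]; linarith
    refine hap i M ((A N₀).hi (l N₀)) ⟨?_, fun η hη => ?_⟩
    · obtain ⟨N, hN⟩ := hM2 δ hδ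
      obtain ⟨k, hk, hkS⟩ := hS (max N N₀)
      have h1 := hN k ((le_max_left _ _).trans hk)
      have h2 := he k ((le_max_right _ _).trans hk)
      linarith [hkS.2.2]
    · obtain ⟨N, hN⟩ := hM2 η hη
      have h0 : N₀ ≤ max N N₀ := le_max_right _ _
      obtain ⟨c, hc1, hc2⟩ := h.ia_of_hi_eq hnr (max N N₀)
        ((he _ (h0.trans (Nat.le_succ _))).trans (he _ h0).symm)
      have h1 := hN _ (le_max_left N N₀)
      have h2 := (h.car (max N N₀)).lo_lt
      have h3 := hM1 (max N N₀)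
      refine ⟨c, fun h4 => ?_, abs_lt.2 ⟨by linarith, by linarith⟩,
        hc2.mono (hlo _) (he _ h0).ge⟩
      rw [h4, map_zero] at hc1
      linarith
  · have hD : ∀ n, δ ≤ (A n).b ω.1 - (A n).a ω.1 := by
      intro n
      obtain ⟨k, hk, hkS⟩ := hS n
      have h1 : (A n).a ω.1 ≤ (A k).a ω.1 := ha hk
      have h2 : (A k).b ω.1 ≤ (A n).b ω.1 := hb hk
      have h3 := hkS.2.2
      rw [(A k).hi_sub_lo, hkS.1] at h3
      linarith
    have hbb : BddBelow (range fun n => (A n).b ω.1 - (A n).a ω.1) := ⟨δ, by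
      rintro _ ⟨n, rfl⟩
      exact hD n⟩
    refine hap i (M + δ / 4) (M + 3 * δ / 4) ⟨by linarith, fun η hη => ?_⟩
    obtain ⟨θ, hθ0, hθ1, hθ2⟩ : ∃ θ, 0 < θ ∧ θ ≤ η / 2 ∧ θ ≤ δ / 4 :=
      ⟨min (η / 2) (δ / 4), lt_min (by linarith) (by linarith), min_le_left _ _, min_le_right _ _⟩
    obtain ⟨N₁, hN₁⟩ := hM2 θ hθ0
    obtain ⟨N₂, hN₂⟩ := exists_lt_of_ciInf_lt
      (show (⨅ n, (A n).b ω.1 - (A n).a ω.1) < (⨅ n, (A n).b ω.1 - (A n).a ω.1) + θ by linarith)
    obtain ⟨n, hn, hnS⟩ := hS (max N₁ N₂)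
    obtain ⟨n', hn', hn'S, hoff⟩ : ∃ n' ≥ n,
        (l n' = ω ∧ (A n').sg ω = σ ∧ δ ≤ (A n').hi (l n') - (A n').lo (l n')) ∧
          (A n').off ω ≠ (A n).off ω := by
      by_contra h2
      refine hB ⟨n, ⟨hnS.1, hnS.2.1⟩, fun k hk hkS => ?_⟩
      by_contra h3
      exact h2 ⟨k, hk, hkS, h3⟩
    have h1 := hN₁ n ((le_max_left _ _).trans hn)
    have h2 := hN₁ n' (((le_max_left _ _).trans hn).trans hn')
    have h3 := hlo n
    have h4 := hlo n'
    have h5 : (A N₂).a ω.1 ≤ (A n).a ω.1 := ha ((le_max_right _ _).trans hn)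
    have h6 : (A n).b ω.1 ≤ (A N₂).b ω.1 := hb ((le_max_right _ _).trans hn)
    have h7 : (A n).a ω.1 ≤ (A n').a ω.1 := ha hn'
    have h8 : (A n').b ω.1 ≤ (A n).b ω.1 := hb hn'
    have h9 : (⨅ n, (A n).b ω.1 - (A n).a ω.1) ≤ (A n').b ω.1 - (A n').a ω.1 := ciInf_le hbb n'
    have h10 := hD n'
    have o1 := h.ob n
    have o2 := h.ob n'
    rw [hnS.1] at h1 h3 o1
    rw [hn'S.1] at h2 h4 o2
    have key := h.transition ω hn' (u := M + δ / 4) (v := M + 3 * δ / 4) (by linarith)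
      (fun z hz => by
        obtain ⟨τ, rfl⟩ := (A n).rpos_surjective ω z
        refine ⟨τ, ?_, rfl⟩
        obtain ⟨z1, z2⟩ := hz
        unfold rpos at z1 z2
        rcases limit_lo_hi (A n) ω with ⟨s1, s2, -⟩ | ⟨s1, s2, -⟩
        · rw [s1, one_smul] at z1 z2
          constructor <;> linarith
        · rw [s1, Units.neg_smul, one_smul] at z1 z2
          constructor <;> linarith)
    rw [o1, o2, hnS.2.1, hn'S.2.1, Int.units_mul_self, one_smul] at key
    refine ⟨_, sub_ne_zero.2 hoff, ?_, key⟩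
    rw [map_sub, abs_lt]
    rcases limit_lo_hi (A n) ω with ⟨s1, s2, -⟩ | ⟨s1, s2, -⟩ <;>
      rcases limit_lo_hi (A n') ω with ⟨t1, t2, -⟩ | ⟨t1, t2, -⟩
    · constructor <;> linarith
    · exact absurd (t1.symm.trans (hn'S.2.1.trans (hnS.2.1.symm.trans s1))) hne
    · exact absurd (s1.symm.trans (hnS.2.1.trans (hn'S.2.1.symm.trans t1))) hne
    · constructor <;> linarith

section LimitB

open MeasureTheory

/-- Counting with multiplicity: if the sets `S ω` cover `Ioo x y` twice, and `T` three times. -/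
theorem limB_count {ι : Type} (Ω : Finset ι) (S : ι → Set ℝ) (hS : ∀ ω, MeasurableSet (S ω))
    {x y : ℝ} {T E : Set ℝ} (hT : MeasurableSet T) (hE : E.Finite) (hTI : T ⊆ Ioo x y)
    (h2 : ∀ z ∈ Ioo x y, z ∉ E → ∃ ω₁ ∈ Ω, ∃ ω₂ ∈ Ω, ω₁ ≠ ω₂ ∧ z ∈ S ω₁ ∧ z ∈ S ω₂)
    (h3 : ∀ z ∈ T, ∃ ω₁ ∈ Ω, ∃ ω₂ ∈ Ω, ∃ ω₃ ∈ Ω, ω₁ ≠ ω₂ ∧ ω₁ ≠ ω₃ ∧ ω₂ ≠ ω₃ ∧
      z ∈ S ω₁ ∧ z ∈ S ω₂ ∧ z ∈ S ω₃) :
    volume (Ioo x y) + volume (Ioo x y) + volume T ≤ ∑ ω ∈ Ω, volume (S ω) := by
  classical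
  have hI : MeasurableSet (Ioo x y) := measurableSet_Ioo
  have e1 : ∑ ω ∈ Ω, volume (S ω) =
      ∫⁻ z, ∑ ω ∈ Ω, (S ω).indicator (1 : ℝ → ENNReal) z := by
    rw [lintegral_finsetSum]
    · exact Finset.sum_congr rfl fun ω _ => (lintegral_indicator_one (hS ω)).symm
    · exact fun ω _ => measurable_one.indicator (hS ω)
  have e2 : volume (Ioo x y) + volume (Ioo x y) + volume T =
      ∫⁻ z, ((Ioo x y).indicator (1 : ℝ → ENNReal) z + (Ioo x y).indicator 1 z +
        T.indicator 1 z) := by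
    rw [lintegral_add_right _ (measurable_one.indicator hT),
      lintegral_add_right _ (measurable_one.indicator hI), lintegral_indicator_one hI,
      lintegral_indicator_one hT]
  rw [e1, e2]
  refine lintegral_mono_ae ?_
  have hE0 : ∀ᵐ z : ℝ, z ∉ E := hE.countable.ae_notMem volume
  filter_upwards [hE0] with z hz
  by_cases hzT : z ∈ T
  · obtain ⟨ω₁, m₁, ω₂, m₂, ω₃, m₃, n12, n13, n23, z₁, z₂, z₃⟩ := h3 z hzT
    have hsub : ({ω₁, ω₂, ω₃} : Finset ι) ⊆ Ω := by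
      intro ω hω
      simp only [Finset.mem_insert, Finset.mem_singleton] at hω
      rcases hω with rfl | rfl | rfl <;> assumption
    refine le_trans ?_ (Finset.sum_le_sum_of_subset hsub)
    rw [Finset.sum_insert (by simp [n12, n13]), Finset.sum_insert (by simp [n23]),
      Finset.sum_singleton, indicator_of_mem (hTI hzT), indicator_of_mem hzT,
      indicator_of_mem z₁, indicator_of_mem z₂, indicator_of_mem z₃, add_assoc]
  · by_cases hzI : z ∈ Ioo x y
    · obtain ⟨ω₁, m₁, ω₂, m₂, n12, z₁, z₂⟩ := h2 z hzI hz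
      have hsub : ({ω₁, ω₂} : Finset ι) ⊆ Ω := by
        intro ω hω
        simp only [Finset.mem_insert, Finset.mem_singleton] at hω
        rcases hω with rfl | rfl <;> assumption
      refine le_trans ?_ (Finset.sum_le_sum_of_subset hsub)
      rw [Finset.sum_insert (by simp [n12]), Finset.sum_singleton, indicator_of_mem hzI,
        indicator_of_notMem hzT, indicator_of_mem z₁, indicator_of_mem z₂, add_zero]
    · rw [indicator_of_notMem hzI, indicator_of_notMem hzT, add_zero, add_zero]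
      exact zero_le

/-- The same for intervals, with real lengths. -/
theorem limB_count_real {ι : Type} (Ω : Finset ι) (p q : ι → ℝ) (hpq : ∀ ω ∈ Ω, p ω ≤ q ω)
    {x y u v : ℝ} {E : Set ℝ} (hxy : x ≤ y) (huv : u ≤ v) (hE : E.Finite)
    (hTI : Ioo u v ⊆ Ioo x y)
    (h2 : ∀ z ∈ Ioo x y, z ∉ E →
      ∃ ω₁ ∈ Ω, ∃ ω₂ ∈ Ω, ω₁ ≠ ω₂ ∧ z ∈ Ioo (p ω₁) (q ω₁) ∧ z ∈ Ioo (p ω₂) (q ω₂))
    (h3 : ∀ z ∈ Ioo u v, ∃ ω₁ ∈ Ω, ∃ ω₂ ∈ Ω, ∃ ω₃ ∈ Ω, ω₁ ≠ ω₂ ∧ ω₁ ≠ ω₃ ∧ ω₂ ≠ ω₃ ∧
      z ∈ Ioo (p ω₁) (q ω₁) ∧ z ∈ Ioo (p ω₂) (q ω₂) ∧ z ∈ Ioo (p ω₃) (q ω₃)) :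
    (y - x) + (y - x) + (v - u) ≤ ∑ ω ∈ Ω, (q ω - p ω) := by
  have h := limB_count Ω (fun ω => Ioo (p ω) (q ω)) (fun _ => measurableSet_Ioo)
    measurableSet_Ioo hE hTI h2 h3
  simp only [Real.volume_Ioo] at h
  have h0 : 0 ≤ y - x := sub_nonneg.2 hxy
  have h1 : 0 ≤ v - u := sub_nonneg.2 huv
  rw [← ENNReal.ofReal_add h0 h0, ← ENNReal.ofReal_add (add_nonneg h0 h0) h1,
    ← ENNReal.ofReal_sum_of_nonneg fun ω hω => sub_nonneg.2 (hpq ω hω)] at h
  exact (ENNReal.ofReal_le_ofReal_iff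
    (Finset.sum_nonneg fun ω hω => sub_nonneg.2 (hpq ω hω))).1 h

end LimitB

section LimitBStep

variable {B : Skel π L O} {c : L × Bool} {μ : ℝ}

theorem limB_rmap_surj (ω : L × Bool) (z : ℝ) : ∃ z₀, B.rmap ω z₀ = z :=
  ⟨B.rmap (bar ω) z, by
    have := B.rmap_bar_rmap (bar ω) z
    rwa [bar_bar] at this⟩

theorem limB_rmap_inj (ω : L × Bool) : Function.Injective (B.rmap ω) := fun z z' h => by
  rw [← B.rmap_bar_rmap ω z, h, B.rmap_bar_rmap]

theorem limB_eq_or_bar {ω : L × Bool} (h : ω.1 = c.1) : ω = c ∨ ω = bar c := by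
  obtain ⟨k, s⟩ := ω
  obtain ⟨k', s'⟩ := c
  simp only at h
  subst h
  cases s <;> cases s' <;> simp [bar]

theorem limB_a_eq {k : L} (hk : k ≠ c.1) : (B.step c μ).a k = B.a k := by
  simp only [step]
  rw [if_neg fun h => hk h.1]

theorem limB_b_eq {k : L} (hk : k ≠ c.1) : (B.step c μ).b k = B.b k := by
  simp only [step]
  rw [if_neg fun h => hk h.1]

theorem limB_ob_eq {ω : L × Bool} (hs : ¬ B.Slid c ω) : (B.step c μ).ob ω = B.ob ω := by
  simp only [step]
  rw [if_neg hs]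

theorem limB_ob_slid {ω : L × Bool} (hs : B.Slid c ω) : (B.step c μ).ob ω = B.ob (bar c) := by
  simp only [step]
  rw [if_pos hs]

theorem limB_sg_eq {ω : L × Bool} (hs : ¬ B.Slid c ω) : (B.step c μ).sg ω = B.sg ω := by
  simp only [step]
  rw [if_neg hs]

theorem limB_rpos_eq {ω : L × Bool} (hs : ¬ B.Slid c ω) (τ : ℝ) :
    (B.step c μ).rpos ω τ = B.rpos ω τ := by
  simp only [rpos, step]
  rw [if_neg hs, if_neg hs]

theorem limB_lo_eq {ω : L × Bool} (hs : ¬ B.Slid c ω) (hk : ω.1 ≠ c.1) :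
    (B.step c μ).lo ω = B.lo ω := by
  unfold lo
  rw [limB_sg_eq hs, limB_rpos_eq hs, limB_rpos_eq hs, limB_a_eq hk, limB_b_eq hk]

/-- Every base after the step lies in a base before the step, in the same object. -/
theorem limB_theta (h : B.Carrier c μ) (ω : L × Bool) :
    ∃ ν, (B.step c μ).ob ω = B.ob ν ∧ (B.step c μ).base ω ⊆ B.base ν := by
  by_cases hs : B.Slid c ω
  · refine ⟨bar c, limB_ob_slid hs, fun z hz => ?_⟩
    obtain ⟨z₀, rfl⟩ := limB_rmap_surj (B := B) c z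
    exact B.rmap_mem_base.2 (h.base_subset hs ((h.mem_step_base_of_slid hs).1 hz))
  · refine ⟨ω, limB_ob_eq hs, fun z hz => ?_⟩
    obtain ⟨τ, rfl⟩ := (B.step c μ).rpos_surjective ω z
    have h1 := (B.step c μ).rpos_mem_base.1 hz
    rw [limB_rpos_eq hs]
    exact B.rpos_mem_base.2 ⟨(h.step_a_le _).trans_lt h1.1, h1.2.trans_le (h.step_b_le _)⟩

/-- The points of a base where membership in `W` is not preserved across the band. -/
def limBD (B : Skel π L O) (W : Set ℝ) (ω : L × Bool) : Set ℝ :=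
  {z | z ∈ B.base ω ∧ ¬ (z ∈ W ↔ B.rmap ω z ∈ W)}

theorem limBD_compl (W : Set ℝ) (ω : L × Bool) : B.limBD Wᶜ ω = B.limBD W ω := by
  ext z
  simp only [limBD, mem_ofPred_eq, mem_compl_iff, not_iff_not]

theorem limBD_step (h : B.Carrier c μ) {W : Set ℝ} (hc : (B.limBD W c).Finite) {ω : L × Bool}
    (hω : (B.limBD W ω).Finite) : ((B.step c μ).limBD W ω).Finite := by
  have hF : ∀ ν : L × Bool, {τ | τ ∈ Ioo (B.a ν.1) (B.b ν.1) ∧
      ¬ (B.rpos ν τ ∈ W ↔ (B.step c μ).rpos ν τ ∈ W)}.Finite := by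
    intro ν
    by_cases hs : B.Slid c ν
    · refine (hc.preimage (B.rpos_injective ν).injOn).subset ?_
      rintro τ ⟨h1, h2⟩
      rw [h.step_rpos_of_slid hs] at h2
      exact ⟨h.base_subset hs (B.rpos_mem_base.2 h1), h2⟩
    · refine finite_empty.subset ?_
      rintro τ ⟨_, h2⟩
      rw [limB_rpos_eq hs] at h2
      exact h2 Iff.rfl
  refine ((((hF ω).union (hF (bar ω))).union
    (hω.preimage (B.rpos_injective ω).injOn)).image ((B.step c μ).rpos ω)).subset ?_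
  rintro z ⟨hz, hz'⟩
  obtain ⟨τ, rfl⟩ := (B.step c μ).rpos_surjective ω z
  have h1 := (B.step c μ).rpos_mem_base.1 hz
  have h2 : τ ∈ Ioo (B.a ω.1) (B.b ω.1) :=
    ⟨(h.step_a_le _).trans_lt h1.1, h1.2.trans_le (h.step_b_le _)⟩
  rw [rmap_rpos] at hz'
  refine ⟨τ, ?_, rfl⟩
  by_cases h3 : B.rpos ω τ ∈ W ↔ (B.step c μ).rpos ω τ ∈ W
  · by_cases h4 : B.rpos (bar ω) τ ∈ W ↔ (B.step c μ).rpos (bar ω) τ ∈ W
    · refine Or.inr ⟨B.rpos_mem_base.2 h2, ?_⟩
      rw [rmap_rpos, h3, h4]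
      exact hz'
    · exact Or.inl (Or.inr ⟨h2, h4⟩)
  · exact Or.inl (Or.inl ⟨h2, h3⟩)

/-- The band `k` takes part in the step. -/
def limBPart (B : Skel π L O) (c : L × Bool) (k : L) : Prop :=
  k = c.1 ∨ ∃ s, B.Slid c (k, s)

theorem limBPart_long (h : B.Carrier c μ) {k : L} (hk : B.limBPart c k) : B.Long k := by
  rcases hk with rfl | ⟨s, hs⟩
  · exact h.long
  · exact hs.2.1

theorem limBPart_width (h : B.Carrier c μ) {k : L} (hk : B.limBPart c k) :
    B.b k - B.a k ≤ B.hi c - B.lo c := by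
  rcases hk with rfl | ⟨s, hs⟩
  · exact (B.hi_sub_lo c).ge
  · have h1 := B.hi_sub_lo (k, s)
    have h2 := h.min (k, s) hs.2.1 hs.2.2.1
    have h3 := hs.2.2.2
    simp only at h1
    linarith

theorem limB_long_iff (h : B.Carrier c μ) (hlt : μ < B.hi c) (k : L) :
    (B.step c μ).Long k ↔ B.Long k := by
  constructor
  · intro hk
    exact ((h.step_a_le k).trans_lt hk).trans_le (h.step_b_le k)
  · intro hk
    by_cases hkc : k = c.1
    · have h1 := h.step_width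
      have h2 := B.hi_sub_lo c
      unfold Long
      rw [hkc]
      linarith
    · unfold Long
      rw [limB_a_eq hkc, limB_b_eq hkc]
      exact hk

end LimitBStep

theorem Run.limB_long (h : Run A l m i) (n : ℕ) (k : L) : (A n).Long k ↔ (A 0).Long k := by
  induction n with
  | zero => rfl
  | succ n ih => rw [h.succ, limB_long_iff (h.car n) (h.lt n), ih]

theorem Run.limB_noFree [Finite L] (h : Run A l m i) (hnf : (A 0).NoFree) (n : ℕ) :
    (A n).NoFree := by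
  induction n with
  | zero => exact hnf
  | succ n ih => rw [h.succ]; exact (h.car n).step_noFree ih

theorem Run.limB_width_anti (h : Run A l m i) (k : L) :
    Antitone fun n => (A n).b k - (A n).a k := by
  refine antitone_nat_of_succ_le fun n => ?_
  have h1 := (h.car n).step_a_le k
  have h2 := (h.car n).step_b_le k
  rw [h.succ]
  linarith

theorem Run.limB_cover (h : Run A l m i) {n j : ℕ} (hnj : n ≤ j) {z : ℝ}
    (hz : ∃ ω, (A j).ob ω = i ∧ z ∈ (A j).base ω) : ∃ ω, (A n).ob ω = i ∧ z ∈ (A n).base ω := by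
  induction j, hnj using Nat.le_induction with
  | base => exact hz
  | succ j _ ih =>
    obtain ⟨ω, h1, h2⟩ := hz
    rw [h.succ] at h1 h2
    obtain ⟨ν, h3, h4⟩ := limB_theta (h.car j) ω
    exact ih ⟨ν, h3 ▸ h1, h4 h2⟩

theorem Run.limB_strictMono (h : Run A l m i) : StrictMono fun n => (A n).lo (l n) := by
  refine strictMono_nat_of_lt_succ fun n => ?_
  rw [h.lo_succ]
  exact (h.car n).lo_lt

/-- All points of `(lo, M)` except lower ends of bases are covered. -/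
theorem Run.limB_cover' [Finite L] (h : Run A l m i) {M : ℝ}
    (hM : Tendsto (fun n => (A n).lo (l n)) atTop (𝓝 M)) (n : ℕ) {z : ℝ}
    (hz : z ∈ Ioo ((A n).lo (l n)) M) (hne : ∀ ω, z ≠ (A n).lo ω) :
    ∃ ω, (A n).ob ω = i ∧ z ∈ (A n).base ω := by
  classical
  have hex : ∃ j, z < (A j).lo (l j) := (hM.eventually (lt_mem_nhds hz.2)).exists
  have hj := Nat.find_spec hex
  have hnj : n < Nat.find hex := by
    by_contra hcon
    have := h.limB_strictMono.monotone (not_lt.1 hcon)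
    exact absurd (hj.trans_le this) (not_lt.2 hz.1.le)
  obtain ⟨j, hjj⟩ : ∃ j, Nat.find hex = j + 1 := ⟨Nat.find hex - 1, by omega⟩
  have hj' : (A j).lo (l j) ≤ z := not_lt.1 (Nat.find_min hex (by omega))
  rw [hjj, h.lo_succ] at hj
  have hev1 : ∀ᶠ t in 𝓝[>] z, ∃ ω, (A n).ob ω = i ∧ t ∈ (A n).base ω := by
    filter_upwards [Ioo_mem_nhdsGT hj] with t ht
    exact h.limB_cover (by omega : n ≤ j)
      ⟨l j, h.ob j, hj'.trans_lt ht.1, ht.2.trans (h.lt j)⟩
  by_contra hcon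
  have hev2 : ∀ᶠ t in 𝓝[>] z, ∀ ω, (A n).ob ω = i → t ∉ (A n).base ω := by
    refine eventually_all.2 fun ω => ?_
    by_cases ho : (A n).ob ω = i
    · rcases lt_or_gt_of_ne (hne ω) with h1 | h1
      · filter_upwards [Ioo_mem_nhdsGT h1] with t ht _ hb
        exact absurd hb.1 (not_lt.2 ht.2.le)
      · have h2 : (A n).hi ω ≤ z := by
          by_contra h3
          exact hcon ⟨ω, ho, h1, not_le.1 h3⟩
        filter_upwards [self_mem_nhdsWithin] with t ht _ hb
        exact absurd (hb.2.trans_le h2) (not_lt.2 (le_of_lt ht))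
    · exact Eventually.of_forall fun t ho' => absurd ho' ho
  obtain ⟨t, ⟨ω, h1, h2⟩, h3⟩ := (hev1.and hev2).exists
  exact h3 ω h1 h2

/-- If the widths of the carriers tend to zero there is a quadratic part. -/
theorem Run.exists_quad [Finite L] (h : Run A l m i) (hnf : (A 0).NoFree)
    (hw : Tendsto (fun n => (A n).hi (l n) - (A n).lo (l n)) atTop (𝓝 0)) :
    ∃ n Q x y, (A n).Quad Q i x y := by
  classical
  have := Fintype.ofFinite L
  -- the limit `M` of the lower ends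
  obtain ⟨M₀, hM₀⟩ := h.bdd
  have hbdd : BddAbove (range fun n => (A n).lo (l n)) := by
    refine ⟨M₀, ?_⟩
    rintro _ ⟨n, rfl⟩
    exact (((h.car n).lo_lt.trans (h.lt n)).trans_le (hM₀ n)).le
  set M : ℝ := ⨆ n, (A n).lo (l n) with hMdef
  have hM : Tendsto (fun n => (A n).lo (l n)) atTop (𝓝 M) :=
    tendsto_atTop_ciSup h.limB_strictMono.monotone hbdd
  have hltM : ∀ n, (A n).lo (l n) < M := fun n =>
    (h.limB_strictMono (Nat.lt_succ_self n)).trans_le (le_ciSup hbdd (n + 1))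
  -- the bands that take part infinitely often
  set Q : Set L := {k | ∃ᶠ n in atTop, (A n).limBPart (l n) k} with hQdef
  have hN : ∀ᶠ n in atTop, ∀ k, (A n).limBPart (l n) k → k ∈ Q := by
    refine eventually_all.2 fun k => ?_
    by_cases hk : k ∈ Q
    · exact Eventually.of_forall fun _ _ => hk
    · have h1 : ∀ᶠ n in atTop, ¬ (A n).limBPart (l n) k := not_frequently.1 hk
      filter_upwards [h1] with n hn hp
      exact absurd hp hn
  obtain ⟨N, hN⟩ := eventually_atTop.1 hN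
  have hlQ : ∀ n, N ≤ n → (l n).1 ∈ Q := fun n hn => hN n hn _ (Or.inl rfl)
  have hlong : ∀ n, ∀ k ∈ Q, (A n).Long k := by
    intro n k hk
    obtain ⟨j, hj⟩ := Frequently.exists hk
    exact (h.limB_long n k).2 ((h.limB_long j k).1 (limBPart_long (h.car j) hj))
  have hW0 : ∀ k ∈ Q, Tendsto (fun n => (A n).b k - (A n).a k) atTop (𝓝 0) := by
    intro k hk
    refine tendsto_order.2 ⟨fun ε hε => Eventually.of_forall fun n =>
      hε.trans (sub_pos.2 (hlong n k hk)), fun ε hε => ?_⟩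
    obtain ⟨j, hj1, hj2⟩ := (Frequently.and_eventually hk (hw.eventually (gt_mem_nhds hε))).exists
    filter_upwards [eventually_ge_atTop j] with n hn
    exact ((h.limB_width_anti k hn).trans (limBPart_width (h.car j) hj1)).trans_lt hj2
  set QF : Finset L := Finset.univ.filter fun k => k ∈ Q with hQF
  have hmemQF : ∀ k, k ∈ QF ↔ k ∈ Q := fun k => by simp [hQF]
  have hsum1 : ∀ n, N ≤ n →
      ∑ k ∈ QF, ((A (n + 1)).b k - (A (n + 1)).a k) + (A (n + 1)).lo (l (n + 1)) =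
        ∑ k ∈ QF, ((A n).b k - (A n).a k) + (A n).lo (l n) := by
    intro n hn
    have hmem : (l n).1 ∈ QF := (hmemQF _).2 (hlQ n hn)
    rw [h.lo_succ, ← Finset.add_sum_erase _ _ hmem, ← Finset.add_sum_erase _ _ hmem, h.succ,
      (h.car n).step_width]
    have : ∑ k ∈ QF.erase (l n).1, (((A n).step (l n) (m n)).b k - ((A n).step (l n) (m n)).a k) =
        ∑ k ∈ QF.erase (l n).1, ((A n).b k - (A n).a k) := by
      refine Finset.sum_congr rfl fun k hk => ?_
      rw [limB_a_eq (Finset.ne_of_mem_erase hk), limB_b_eq (Finset.ne_of_mem_erase hk)]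
    rw [this]
    ring
  have hsum : ∀ n, N ≤ n → ∑ k ∈ QF, ((A n).b k - (A n).a k) = M - (A n).lo (l n) := by
    intro n hn
    have h1 : ∀ j, n ≤ j → ∑ k ∈ QF, ((A j).b k - (A j).a k) + (A j).lo (l j) =
        ∑ k ∈ QF, ((A n).b k - (A n).a k) + (A n).lo (l n) := by
      intro j hj
      induction j, hj using Nat.le_induction with
      | base => rfl
      | succ j hj ih => rw [hsum1 j (hn.trans hj), ih]
    have h2 : Tendsto (fun j => ∑ k ∈ QF, ((A j).b k - (A j).a k) + (A j).lo (l j)) atTop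
        (𝓝 (∑ _k ∈ QF, (0 : ℝ) + M)) :=
      (tendsto_finsetSum _ fun k hk => hW0 k ((hmemQF k).1 hk)).add hM
    have h3 : Tendsto (fun j => ∑ k ∈ QF, ((A j).b k - (A j).a k) + (A j).lo (l j)) atTop
        (𝓝 (∑ k ∈ QF, ((A n).b k - (A n).a k) + (A n).lo (l n))) := by
      refine tendsto_const_nhds.congr' ?_
      filter_upwards [eventually_ge_atTop n] with j hj
      exact (h1 j hj).symm
    have h4 := tendsto_nhds_unique h2 h3
    rw [Finset.sum_const_zero] at h4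
    linarith
  -- bases of the other bands lie to the right of `M`
  have hsep : ∀ n, N ≤ n → ∀ ω : L × Bool, ω.1 ∉ Q → (A n).Long ω.1 → (A n).ob ω = i →
      M ≤ (A n).lo ω := by
    intro n hn ω hω hl ho
    have h1 : ∀ j, n ≤ j → (A j).ob ω = i ∧ (A j).lo ω = (A n).lo ω := by
      intro j hj
      induction j, hj using Nat.le_induction with
      | base => exact ⟨ho, rfl⟩
      | succ j hj ih =>
        have hs : ¬ (A j).Slid (l j) ω := fun hs => hω (hN j (hn.trans hj) _ (Or.inr ⟨ω.2, hs⟩))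
        have hk : ω.1 ≠ (l j).1 := fun hk => hω (hN j (hn.trans hj) _ (Or.inl hk))
        rw [h.succ, limB_ob_eq hs, limB_lo_eq hs hk]
        exact ih
    refine le_of_tendsto hM ?_
    filter_upwards [eventually_ge_atTop n] with j hj
    rw [← (h1 j hj).2]
    exact (h.car j).min ω ((h.limB_long j _).2 ((h.limB_long n _).1 hl))
      ((h1 j hj).1.trans (h.ob j).symm)
  have hcov : ∀ n, N ≤ n → ∃ E : Set ℝ, E.Finite ∧ ∀ z ∈ Ioo ((A n).lo (l n)) M, z ∉ E →
      ∃ ω₁ ω₂ : L × Bool, ω₁ ≠ ω₂ ∧ ω₁.1 ∈ Q ∧ ω₂.1 ∈ Q ∧ (A n).ob ω₁ = i ∧ (A n).ob ω₂ = i ∧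
        z ∈ (A n).base ω₁ ∧ z ∈ (A n).base ω₂ := by
    intro n hn
    obtain ⟨E, hE, hE'⟩ := h.limB_noFree hnf n
    refine ⟨E ∪ range (A n).lo, hE.union (finite_range _), fun z hz hzE => ?_⟩
    obtain ⟨ω₁, h1, h2⟩ := h.limB_cover' hM n hz fun ω hω => hzE (Or.inr ⟨ω, hω.symm⟩)
    obtain ⟨ω₂, h3, h4, h5⟩ := hE' ω₁ z h2 fun hω => hzE (Or.inl hω)
    have hQ : ∀ ω : L × Bool, (A n).ob ω = i → z ∈ (A n).base ω → ω.1 ∈ Q := by
      intro ω ho hb
      by_contra hω
      have := hsep n hn ω hω ((A n).long_of_mem_base hb) ho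
      exact absurd (hb.1.trans hz.2) (not_lt.2 this)
    exact ⟨ω₁, ω₂, h3.symm, hQ ω₁ h1 h2, hQ ω₂ (h4.trans h1) h5, h1, h4.trans h1, h2, h5⟩
  -- the counting argument
  set Ω : Finset (L × Bool) := QF ×ˢ Finset.univ with hΩ
  have hmemΩ : ∀ ω : L × Bool, ω ∈ Ω ↔ ω.1 ∈ Q := fun ω => by simp [hΩ, hmemQF]
  have hlohi : ∀ n, ∀ ω : L × Bool, ω.1 ∈ Q → (A n).lo ω < (A n).hi ω := by
    intro n ω hω
    have h1 := (A n).hi_sub_lo ω
    have h2 : (A n).a ω.1 < (A n).b ω.1 := hlong n _ hω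
    linarith
  have htot : ∀ n, N ≤ n → ∑ ω ∈ Ω, ((A n).hi ω - (A n).lo ω) =
      (M - (A n).lo (l n)) + (M - (A n).lo (l n)) := by
    intro n hn
    rw [← hsum n hn, hΩ, Finset.sum_product, ← Finset.sum_add_distrib]
    refine Finset.sum_congr rfl fun k _ => ?_
    rw [Fintype.sum_bool, hi_sub_lo, hi_sub_lo]
  have hobsub : ∀ n, N ≤ n → ∀ ω : L × Bool, ω.1 ∈ Q → (A n).ob ω = i ∧ (A n).hi ω ≤ M := by
    intro n hn
    obtain ⟨E, hE, hE'⟩ := hcov n hn
    let q : L × Bool → ℝ := fun ω =>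
      if (A n).ob ω = i then max ((A n).lo ω) (min ((A n).hi ω) M) else (A n).lo ω
    have hq1 : ∀ ω, (A n).lo ω ≤ q ω := by
      intro ω
      simp only [q]
      split_ifs
      · exact le_max_left _ _
      · exact le_rfl
    have hq2 : ∀ ω ∈ Ω, q ω - (A n).lo ω ≤ (A n).hi ω - (A n).lo ω := by
      intro ω hω
      have := (hlohi n ω ((hmemΩ ω).1 hω)).le
      simp only [q]
      split_ifs
      · exact sub_le_sub_right (max_le this (min_le_left _ _)) _
      · exact sub_le_sub_right this _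
    have hc := limB_count_real Ω (A n).lo q (fun ω _ => hq1 ω) (hltM n).le (le_refl (0 : ℝ)) hE
      (by simp) ?_ (by simp)
    · have heq := (Finset.sum_eq_sum_iff_of_le hq2).1
        (le_antisymm (Finset.sum_le_sum hq2) (by rw [htot n hn]; linarith))
      intro ω hω
      have h1 := heq ω ((hmemΩ ω).2 hω)
      have h2 := hlohi n ω hω
      simp only [q] at h1
      split_ifs at h1 with ho
      · refine ⟨ho, ?_⟩
        by_contra h3
        have h4 : max ((A n).lo ω) (min ((A n).hi ω) M) < (A n).hi ω :=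
          max_lt h2 ((min_le_right _ _).trans_lt (not_le.1 h3))
        linarith
      · linarith
    · intro z hz hzE
      obtain ⟨ω₁, ω₂, h1, h2, h3, h4, h5, h6, h7⟩ := hE' z hz hzE
      refine ⟨ω₁, (hmemΩ _).2 h2, ω₂, (hmemΩ _).2 h3, h1, ⟨h6.1, ?_⟩, ⟨h7.1, ?_⟩⟩
      · simp only [q, if_pos h4]
        exact lt_max_of_lt_right (lt_min h6.2 hz.2)
      · simp only [q, if_pos h5]
        exact lt_max_of_lt_right (lt_min h7.2 hz.2)
  have hsub : ∀ n, N ≤ n → ∀ ω : L × Bool, ω.1 ∈ Q →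
      (A n).base ω ⊆ Ioo ((A n).lo (l n)) M := by
    intro n hn ω hω z hz
    obtain ⟨h1, h2⟩ := hobsub n hn ω hω
    exact ⟨((h.car n).min ω (hlong n _ hω) (h1.trans (h.ob n).symm)).trans_lt hz.1,
      hz.2.trans_le h2⟩
  refine ⟨N, Q, (A N).lo (l N), M, hltM N, hlong N, fun ω hω => (hobsub N le_rfl ω hω).1,
    hsub N le_rfl, hsep N le_rfl, ?_, ?_, ?_⟩
  · intro ω₁ ω₂ ω₃ h1 h2 h3 z z1 z2 z3
    by_contra hcon
    simp only [not_or] at hcon
    obtain ⟨n12, n13, n23⟩ := hcon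
    obtain ⟨E, hE, hE'⟩ := hcov N le_rfl
    have huv : max ((A N).lo ω₁) (max ((A N).lo ω₂) ((A N).lo ω₃)) <
        min ((A N).hi ω₁) (min ((A N).hi ω₂) ((A N).hi ω₃)) :=
      (max_lt z1.1 (max_lt z2.1 z3.1)).trans (lt_min z1.2 (lt_min z2.2 z3.2))
    have hin : ∀ t ∈ Ioo (max ((A N).lo ω₁) (max ((A N).lo ω₂) ((A N).lo ω₃)))
        (min ((A N).hi ω₁) (min ((A N).hi ω₂) ((A N).hi ω₃))),
        t ∈ (A N).base ω₁ ∧ t ∈ (A N).base ω₂ ∧ t ∈ (A N).base ω₃ := by
      intro t ht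
      have h4 := ht.1
      have h5 := ht.2
      simp only [max_lt_iff, lt_min_iff] at h4 h5
      exact ⟨⟨h4.1, h5.1⟩, ⟨h4.2.1, h5.2.1⟩, ⟨h4.2.2, h5.2.2⟩⟩
    have hc := limB_count_real Ω (A N).lo (A N).hi
      (fun ω hω => (hlohi N ω ((hmemΩ ω).1 hω)).le) (hltM N).le huv.le hE
      (fun t ht => hsub N le_rfl ω₁ h1 (hin t ht).1) ?_ ?_
    · rw [htot N le_rfl] at hc
      linarith
    · intro t ht htE
      obtain ⟨ν₁, ν₂, h4, h5, h6, _, _, h7, h8⟩ := hE' t ht htE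
      exact ⟨ν₁, (hmemΩ _).2 h5, ν₂, (hmemΩ _).2 h6, h4, h7, h8⟩
    · intro t ht
      exact ⟨ω₁, (hmemΩ _).2 h1, ω₂, (hmemΩ _).2 h2, ω₃, (hmemΩ _).2 h3, n12, n13, n23, hin t ht⟩
  · obtain ⟨E, hE, hE'⟩ := hcov N le_rfl
    refine ⟨E, hE, fun z hz hzE => ?_⟩
    obtain ⟨ω₁, ω₂, h1, h2, h3, _, _, h6, h7⟩ := hE' z hz hzE
    exact ⟨ω₁, ω₂, h1, h2, h3, h6, h7⟩
  · intro U E hU hE hinv hinf
    by_contra hinf'
    have hD0 : ∀ ω : L × Bool, ω.1 ∈ Q → ((A N).limBD U ω).Finite := by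
      intro ω hω
      refine (hE.union (hE.preimage (limB_rmap_inj (B := A N) ω).injOn)).subset ?_
      rintro z ⟨hz, hz'⟩
      by_contra hcon
      simp only [mem_union, mem_preimage, not_or] at hcon
      refine hz' ⟨hinv ω hω z hz hcon.1, fun hzU => ?_⟩
      have := hinv (bar ω) hω _ ((A N).rmap_mem_base.2 hz) hcon.2 hzU
      rwa [rmap_bar_rmap] at this
    have key : ∀ W : Set ℝ, (∀ ω : L × Bool, ω.1 ∈ Q → ((A N).limBD W ω).Finite) →
        (W ∩ Ioo ((A N).lo (l N)) M).Infinite → ∀ n, N ≤ n →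
        (∀ ω : L × Bool, ω.1 ∈ Q → ((A n).limBD W ω).Finite) ∧
          (W ∩ Ioo ((A n).lo (l n)) M).Infinite := by
      intro W hW1 hW2 n hn
      induction n, hn using Nat.le_induction with
      | base => exact ⟨hW1, hW2⟩
      | succ n hn ih =>
        obtain ⟨ih1, ih2⟩ := ih
        have hl := ih1 (l n) (hlQ n hn)
        constructor
        · intro ω hω
          rw [h.succ]
          exact limBD_step (h.car n) hl (ih1 ω hω)
        · rw [h.lo_succ]
          intro hfin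
          apply ih2
          refine (((hfin.union (finite_singleton (m n))).union hl).union
            (hfin.preimage (limB_rmap_inj (B := A n) (l n)).injOn)).subset ?_
          rintro z ⟨hzW, hz⟩
          rcases lt_trichotomy z (m n) with h1 | h1 | h1
          · have hb : z ∈ (A n).base (l n) := ⟨hz.1, h1.trans (h.lt n)⟩
            by_cases h2 : (A n).rmap (l n) z ∈ W
            · have h3 : (A n).rmap (l n) z ∈ (A n).base (bar (l n)) := (A n).rmap_mem_base.2 hb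
              have h4 := (h.car n).le_lo_bar
                ((hobsub n hn (bar (l n)) (hlQ n hn)).1.trans (h.ob n).symm)
              exact Or.inr ⟨h2, h4.trans_lt h3.1, (hsub n hn (bar (l n)) (hlQ n hn) h3).2⟩
            · exact Or.inl (Or.inr ⟨hb, fun h3 => h2 (h3.1 hzW)⟩)
          · exact Or.inl (Or.inl (Or.inr h1))
          · exact Or.inl (Or.inl (Or.inl ⟨hzW, h1, hz.2⟩))
    have hU1 := key U hD0 hinf
    have hU2 := key Uᶜ (fun ω hω => by rw [limBD_compl]; exact hD0 ω hω) (by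
      intro hfin
      apply hinf'
      refine hfin.subset ?_
      rintro z ⟨h1, h2⟩
      exact ⟨h2, h1⟩)
    have hev : ∀ᶠ t in 𝓝[<] M, t ∉ frontier U :=
      (nhdsLT_le_nhdsNE M) (nhdsNE_le_cofinite M hU.eventually_cofinite_notMem)
    obtain ⟨y, hy, hy'⟩ := mem_nhdsLT_iff_exists_Ioo_subset.1 hev
    obtain ⟨n, hn1, hn2⟩ := ((hM.eventually (lt_mem_nhds hy)).and (eventually_ge_atTop N)).exists
    have hsplit : Ioo y M ⊆ interior U ∨ Ioo y M ⊆ interior Uᶜ := by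
      refine IsPreconnected.subset_or_subset isOpen_interior isOpen_interior ?_ ?_
        isPreconnected_Ioo
      · exact disjoint_compl_right.mono interior_subset interior_subset
      · rw [← compl_frontier_eq_union_interior]
        exact hy'
    rcases hsplit with h1 | h1
    · obtain ⟨z, hz1, hz2⟩ := (hU2 n hn2).2.nonempty
      exact hz1 (interior_subset (h1 ⟨hn1.trans hz2.1, hz2.2⟩))
    · obtain ⟨z, hz1, hz2⟩ := (hU1 n hn2).2.nonempty
      exact interior_subset (h1 ⟨hn1.trans hz2.1, hz2.2⟩) hz1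

end Skel

end Pool.Agent.Lib.MP_d87150_al
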