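import Pool.Agent.Lib.MP_d87150_al.Sys

/-!
# Systems of short bands, reduction of the parameter group
-/

set_option autoImplicit false

noncomputable section

namespace Pool.Agent.Lib.MP_d87150_al

open Set

theorem short_posSMulMono (V : Type) [AddCommGroup V] [LinearOrder V] [IsOrderedAddMonoid V]
    [Module ℚ V] : PosSMulMono ℚ V := by
  have key : ∀ q : ℚ, 0 ≤ q → ∀ v : V, 0 ≤ v → 0 ≤ q • v := by
    intro q hq v hv
    have h1 : q.den • (q • v) = q.num • v := by
      rw [← Nat.cast_smul_eq_nsmul ℚ, ← Int.cast_smul_eq_zsmul ℚ, smul_smul, mul_comm,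
        Rat.mul_den_eq_num]
    by_contra hneg
    have h2 : q.den • (q • v) < 0 := nsmul_neg (not_le.1 hneg) q.den_nz
    rw [h1] at h2
    exact absurd (zsmul_nonneg hv (Rat.num_nonneg.2 hq)) (not_le.2 h2)
  refine ⟨fun q hq v w hvw => ?_⟩
  have := key q hq (w - v) (sub_nonneg.2 hvw)
  rwa [smul_sub, sub_nonneg] at this

theorem short_exists_unit (V : Type) [AddCommGroup V] [LinearOrder V] [IsOrderedAddMonoid V]
    [Module ℚ V] [FiniteDimensional ℚ V] [Nontrivial V] :
    ∃ u : V, 0 < u ∧ ∀ v : V, ∃ q : ℚ, |v| ≤ q • u := by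
  have := short_posSMulMono V
  obtain ⟨s, hs⟩ := Module.Finite.fg_top (R := ℚ) (M := V)
  have h0 : (0 : V) ≤ ∑ b ∈ s, |b| := Finset.sum_nonneg fun b _ => abs_nonneg b
  have h1 : ∀ v : V, ∃ q : ℚ, |v| ≤ q • ∑ b ∈ s, |b| := by
    intro v
    have hv : v ∈ Submodule.span ℚ (s : Set V) := hs ▸ Submodule.mem_top
    induction hv using Submodule.span_induction with
    | mem x hx =>
      exact ⟨1, by
        rw [one_smul]
        exact Finset.single_le_sum (f := fun b : V => |b|) (fun b _ => abs_nonneg b) hx⟩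
    | zero => exact ⟨0, by simp⟩
    | add x y _ _ hx hy =>
      obtain ⟨p, hp⟩ := hx
      obtain ⟨q, hq⟩ := hy
      exact ⟨p + q, by rw [add_smul]; exact (abs_add_le x y).trans (add_le_add hp hq)⟩
    | smul a x _ hx =>
      obtain ⟨p, hp⟩ := hx
      exact ⟨|a| * p, by
        rw [abs_smul, mul_smul]
        exact smul_le_smul_of_nonneg_left hp (abs_nonneg a)⟩
  refine ⟨_, lt_of_le_of_ne h0 fun h => ?_, h1⟩
  obtain ⟨v, hv⟩ := exists_ne (0 : V)
  obtain ⟨q, hq⟩ := h1 v
  rw [← h, smul_zero] at hq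
  exact hv (abs_nonpos_iff.1 hq)

/-- A nonzero finite dimensional ordered vector space has a monotone additive map to the reals
with dense range. -/
theorem exists_real_part (V : Type) [AddCommGroup V] [LinearOrder V] [IsOrderedAddMonoid V]
    [Module ℚ V] [FiniteDimensional ℚ V] [Nontrivial V] :
    ∃ π : V →+ ℝ, Monotone π ∧ DenseRange π ∧
      ∃ W : Submodule ℚ V, (∀ v, v ∈ W ↔ π v = 0) ∧ Module.finrank ℚ W < Module.finrank ℚ V := by
  have := short_posSMulMono V
  obtain ⟨u, hu, hb⟩ := short_exists_unit V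
  have hmono : ∀ p q : ℚ, p • u ≤ q • u ↔ p ≤ q := by
    intro p q
    constructor
    · intro h
      by_contra hlt
      have h1 : 0 < p - q := sub_pos.2 (not_le.1 hlt)
      have h2 : (p - q) • u ≤ 0 := by rwa [sub_smul, sub_nonpos]
      have h3 := smul_le_smul_of_nonneg_left h2 (inv_nonneg.2 h1.le)
      rw [smul_smul, inv_mul_cancel₀ h1.ne', one_smul, smul_zero] at h3
      exact absurd hu (not_lt.2 h3)
    · intro h
      have h3 := smul_le_smul_of_nonneg_left hu.le (sub_nonneg.2 h)
      rwa [smul_zero, sub_smul, sub_nonneg] at h3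
  let f : V → ℝ := fun v => sSup {x : ℝ | ∃ q : ℚ, q • u ≤ v ∧ x = q}
  have hne : ∀ v : V, {x : ℝ | ∃ q : ℚ, q • u ≤ v ∧ x = q}.Nonempty := by
    intro v
    obtain ⟨q, hq⟩ := hb v
    exact ⟨_, -q, by rw [neg_smul]; exact (abs_le.1 hq).1, rfl⟩
  have hup : ∀ (v : V) (q : ℚ), v ≤ q • u → (q : ℝ) ∈ upperBounds
      {x : ℝ | ∃ q : ℚ, q • u ≤ v ∧ x = q} := by
    rintro v q hq x ⟨p, hp, rfl⟩
    exact_mod_cast (hmono p q).1 (hp.trans hq)
  have hA : ∀ (v : V) (q : ℚ), q • u ≤ v → (q : ℝ) ≤ f v := by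
    intro v q hq
    obtain ⟨p, hp⟩ := hb v
    exact le_csSup ⟨_, hup v p (abs_le.1 hp).2⟩ ⟨q, hq, rfl⟩
  have hB : ∀ (v : V) (q : ℚ), v ≤ q • u → f v ≤ q := fun v q hq => csSup_le (hne v) (hup v q hq)
  have hA' : ∀ (v : V) (q : ℚ), (q : ℝ) < f v → q • u ≤ v := fun v q hq =>
    (le_total _ _).resolve_right fun h => absurd (hB v q h) (not_le.2 hq)
  have hB' : ∀ (v : V) (q : ℚ), f v < q → v ≤ q • u := fun v q hq =>
    (le_total _ _).resolve_right fun h => absurd (hA v q h) (not_le.2 hq)
  have hadd : ∀ v w : V, f (v + w) = f v + f w := by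
    intro v w
    refine le_antisymm (le_of_forall_pos_le_add fun ε hε => ?_)
      (le_of_forall_pos_le_add fun ε hε => ?_)
    · obtain ⟨p, hp, hp'⟩ := exists_rat_btwn (show f v < f v + ε / 2 by linarith)
      obtain ⟨q, hq, hq'⟩ := exists_rat_btwn (show f w < f w + ε / 2 by linarith)
      have := hB (v + w) (p + q) (by rw [add_smul]; exact add_le_add (hB' v p hp) (hB' w q hq))
      push_cast at this
      linarith
    · obtain ⟨p, hp, hp'⟩ := exists_rat_btwn (show f v - ε / 2 < f v by linarith)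
      obtain ⟨q, hq, hq'⟩ := exists_rat_btwn (show f w - ε / 2 < f w by linarith)
      have := hA (v + w) (p + q) (by rw [add_smul]; exact add_le_add (hA' v p hp') (hA' w q hq'))
      push_cast at this
      linarith
  have hq : ∀ q : ℚ, f (q • u) = q := fun q => le_antisymm (hB _ q le_rfl) (hA _ q le_rfl)
  let π : V →+ ℝ := AddMonoidHom.mk' f hadd
  have hπ : ∀ v, π v = f v := fun _ => rfl
  refine ⟨π, fun v w hvw => ?_, ?_, LinearMap.ker π.toRatLinearMap, fun v => ?_, ?_⟩
  · rw [hπ, hπ]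
    by_contra hlt
    obtain ⟨q, h1, h2⟩ := exists_rat_btwn (not_le.1 hlt)
    exact absurd (hA w q ((hA' v q h2).trans hvw)) (not_le.2 h1)
  · refine Dense.mono ?_ (Rat.denseRange_cast (𝕜 := ℝ))
    rintro _ ⟨q, rfl⟩
    exact ⟨q • u, hq q⟩
  · rfl
  · refine Submodule.finrank_lt fun h => ?_
    have h1 : u ∈ LinearMap.ker π.toRatLinearMap := h ▸ Submodule.mem_top
    have h2 : f u = 0 := h1
    have h3 := hq 1
    rw [one_smul, h2] at h3
    simp at h3

variable {Λ T G V : Type} [AddCommGroup Λ] [LinearOrder Λ] [IsOrderedAddMonoid Λ] [Group G]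
  [MulAction G T] [AddCommGroup V] [LinearOrder V] [IsOrderedAddMonoid V] {𝒜 : Amb Λ T G V}
  {O J : Type} [Fintype J]

/-- The component in `W` of a vector, relative to chosen coset representatives. -/
def shortRet [Module ℚ V] (W : Submodule ℚ V) (v : V) : W :=
  ⟨v - (Submodule.Quotient.mk v : V ⧸ W).out, by
    rw [← Submodule.Quotient.eq]
    exact (Quotient.out_eq' _).symm⟩

/-- Charts over a subspace, one for every coset. -/
def Charts.shortRestrict [Module ℚ V] (C : Charts 𝒜 O) (W : Submodule ℚ V) :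
    Charts (𝒜.restrict W) (O × (V ⧸ W)) where
  ch p w := C.ch p.1 ((w : V) + p.2.out)
  dom p := {w | (w : V) + p.2.out ∈ C.dom p.1}
  conv p := ⟨fun x hx y hy z hz => (C.conv p.1).out hx hy
    ⟨add_le_add_left (show (x : V) ≤ z from hz.1) _,
      add_le_add_left (show (z : V) ≤ y from hz.2) _⟩⟩
  iso p s hs t ht := by
    have h := C.iso p.1 _ hs _ ht
    rw [add_sub_add_right_eq_sub] at h
    refine h.trans (congrArg 𝒜.j ?_)
    change |(s : V) - (t : V)| = ((|s - t| : W) : V)
    rcases le_total s t with hst | hst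
    · rw [abs_of_nonpos (sub_nonpos.2 hst), abs_of_nonpos (sub_nonpos.2 (show (s : V) ≤ t from hst))]
      rfl
    · rw [abs_of_nonneg (sub_nonneg.2 hst), abs_of_nonneg (sub_nonneg.2 (show (t : V) ≤ s from hst))]
      rfl

/-- A band over a subspace. -/
def Band.shortRestrict [Module ℚ V] (q : Band G V O) (W : Submodule ℚ V) :
    Band G W (O × (V ⧸ W)) where
  F := q.F.preimage (fun w : W => (w : V) + q.ne.choose)
    fun _ _ _ _ h => Subtype.ext (add_right_cancel h)
  ne := ⟨0, by
    rw [Finset.mem_preimage, Submodule.coe_zero, zero_add]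
    exact q.ne.choose_spec⟩
  en s := (q.en s, Submodule.Quotient.mk (q.pos s q.ne.choose))
  lab := q.lab
  sg := q.sg
  off s := shortRet W (q.pos s q.ne.choose)

omit [Group G] in
theorem Band.mem_shortRestrict [Module ℚ V] (q : Band G V O) (W : Submodule ℚ V) (w : W) :
    w ∈ (q.shortRestrict W).F ↔ (w : V) + q.ne.choose ∈ q.F := by
  simp only [Band.shortRestrict, Finset.mem_preimage]

omit [Group G] in
theorem Band.shortRestrict_pos [Module ℚ V] (q : Band G V O) (W : Submodule ℚ V) (s : Bool)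
    (w : W) : (((q.shortRestrict W).pos s w : W) : V) + ((q.shortRestrict W).en s).2.out =
      q.pos s ((w : V) + q.ne.choose) := by
  change q.sg s • (w : V) + (q.pos s q.ne.choose - ((q.shortRestrict W).en s).2.out) + _ = _
  simp only [Band.pos, smul_add]
  abel

namespace Sys

/-- If all fibres of each band are congruent modulo `W`, the system lives over `W`. -/
theorem exists_restrict [Module ℚ V] (S : Sys 𝒜 O J) (W : Submodule ℚ V)
    (hW : ∀ k, ∀ t ∈ (S.B k).F, ∀ t' ∈ (S.B k).F, t - t' ∈ W) :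
    ∃ (O' : Type) (S' : Sys (𝒜.restrict W) O' J), S'.IsGood → S.IsGood := by
  let S' : Sys (𝒜.restrict W) (O × (V ⧸ W)) J :=
    { C := S.C.shortRestrict W
      B := fun k => (S.B k).shortRestrict W
      valid := fun k w hw => by
        have hv := S.valid k _ (((S.B k).mem_shortRestrict W w).1 hw)
        refine ⟨fun s => ?_, ?_⟩
        · have := hv.mem s
          rw [← Band.shortRestrict_pos] at this
          exact this
        · have := hv.fib
          rw [← Band.shortRestrict_pos, ← Band.shortRestrict_pos] at this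
          exact this }
  refine ⟨_, S', fun h => ?_⟩
  have h1 : Good S.gr S'.Z0 := Good.map 𝒜.nice Prod.fst h
  refine h1.mono ?_
  rintro c ⟨β, hβ⟩
  refine ⟨fun o v => β (o, Submodule.Quotient.mk v) (shortRet W v), fun k t ht => ?_⟩
  let w : W := ⟨t - (S.B k).ne.choose, hW k t ht _ (S.B k).ne.choose_spec⟩
  have hw : (w : V) + (S.B k).ne.choose = t := sub_add_cancel _ _
  have h2 := hβ k w (((S.B k).mem_shortRestrict W w).2 (by rw [hw]; exact ht))
  have h3 : ∀ s, (Submodule.Quotient.mk ((S.B k).pos s t) : V ⧸ W) =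
      Submodule.Quotient.mk ((S.B k).pos s (S.B k).ne.choose) := by
    intro s
    rw [Submodule.Quotient.eq]
    have : (S.B k).pos s t - (S.B k).pos s (S.B k).ne.choose = (S.B k).sg s • (w : V) := by
      simp only [Band.pos, w, smul_sub]
      abel
    rw [this]
    exact ((S.B k).sg s • w).2
  have h4 : ∀ s, shortRet W ((S.B k).pos s t) = ((S.B k).shortRestrict W).pos s w := by
    intro s
    refine Subtype.ext ?_
    have := (S.B k).shortRestrict_pos W s w
    rw [hw] at this
    rw [← eq_sub_iff_add_eq] at this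
    rw [this]
    change _ - _ = _ - _
    rw [h3]
    rfl
  rw [h2]
  simp only [Band.del, h3, h4]
  rfl

theorem good_of_subsingleton [Subsingleton V] (S : Sys 𝒜 O J) : S.IsGood := by
  have key : ∀ p q e, Conn S.gr.edges p q e → p.1 • S.C.ch p.2 0 = q.1 • S.C.ch q.2 0 := by
    intro p q e h
    induction h with
    | refl p => rfl
    | step g h =>
      obtain ⟨k, rfl, rfl, rfl⟩ := LG.mem_edges h
      obtain ⟨t, ht⟩ := (S.B k).ne
      have := (S.valid k t ht).fib
      rw [Subsingleton.elim ((S.B k).pos false t) 0,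
        Subsingleton.elim ((S.B k).pos true t) 0] at this
      simp only [LG.pt, tr_mk, mul_smul]
      exact congrArg (g • ·) this
    | symm _ ih => exact ih.symm
    | trans _ _ ih ih' => exact ih.trans ih'
  have hIm : ∀ o, Im S.gr.edges o = ⊥ := by
    intro o
    rw [eq_bot_iff]
    rintro g ⟨e, he⟩
    have := key _ _ _ he
    rw [one_smul] at this
    exact 𝒜.eq_one this.symm
  refine (good_of_comm 𝒜.nice S.gr fun o a ha b _ => ?_).mono fun c hc => ?_
  · rw [hIm, Subgroup.mem_bot] at ha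
    rw [ha]
    exact Commute.one_left b
  · obtain ⟨β, hβ⟩ := exists_equivariant_potential hIm hc
    exact ⟨fun o _ => β o, fun k t _ => hβ _ _ _ _ _ (S.gr.conn_arrow k)⟩

theorem sub_mem_of_nl_eq_zero (S : Sys 𝒜 O J) {π : V →+ ℝ} (hπ : Monotone π)
    (h : (S.skel π).NL = 0) : ∀ k, ∀ t ∈ (S.B k).F, ∀ t' ∈ (S.B k).F, π (t - t') = 0 := by
  intro k t ht t' ht'
  have h1 : {k | (S.skel π).Long k} = ∅ := (Set.ncard_eq_zero (Set.toFinite _)).1 h
  have h2 : ¬ (S.skel π).Long k := fun hk => by
    have : k ∈ {k | (S.skel π).Long k} := hk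
    rw [h1] at this
    exact this
  have h3 : (S.skel π).b k ≤ (S.skel π).a k := not_lt.1 h2
  have := S.a_le_level hπ ht
  have := S.a_le_level hπ ht'
  have := S.level_le_b hπ ht
  have := S.level_le_b hπ ht'
  rw [map_sub]
  linarith

end Sys

end Pool.Agent.Lib.MP_d87150_al
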