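import Pool.Agent.Lib.MP_d87150_al.Skel

/-!
# Process II on skeletons, quadratic parts
-/

set_option autoImplicit false
set_option linter.unusedVariables false

noncomputable section

namespace Pool.Agent.Lib.MP_d87150_al

open Set

namespace Skel

variable {V : Type} [AddCommGroup V] {π : V →+ ℝ} {L O : Type} (A : Skel π L O)

/-- The long bases that are moved across the carrier `l`. -/
def Slid (l ω : L × Bool) : Prop := ω ≠ l ∧ A.Long ω.1 ∧ A.ob ω = A.ob l ∧ A.hi ω ≤ A.hi l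

open Classical in
/-- One step of Process II: slide across the carrier `l` and cut its base at `m`. -/
def step (l : L × Bool) (m : ℝ) : Skel π L O where
  a k := if k = l.1 ∧ A.sg l = 1 then m - π (A.off l) else A.a k
  b k := if k = l.1 ∧ A.sg l ≠ 1 then π (A.off l) - m else A.b k
  ob ω := if A.Slid l ω then A.ob (bar l) else A.ob ω
  sg ω := if A.Slid l ω then A.vsg l * A.sg ω else A.sg ω
  off ω := if A.Slid l ω then A.vsg l • A.off ω + A.voff l else A.off ω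

/-- `l` is a longest base among the leftmost ones of its object. -/
structure Lead (l : L × Bool) : Prop where
  long : A.Long l.1
  min : ∀ ω, A.Long ω.1 → A.ob ω = A.ob l → A.lo l ≤ A.lo ω
  max : ∀ ω, A.Long ω.1 → A.ob ω = A.ob l → A.lo ω = A.lo l → A.hi ω ≤ A.hi l

/-- The two bases of the band coincide. -/
def Ann (l : L × Bool) : Prop := A.ob (bar l) = A.ob l ∧ A.lo (bar l) = A.lo l

/-- `l` is a carrier and `m` is the start of the first base not contained in it. -/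
structure Carrier (l : L × Bool) (m : ℝ) : Prop extends A.Lead l where
  nonann : ¬ A.Ann l
  le_hi : m ≤ A.hi l
  le_lo : ∀ ω, A.Long ω.1 → A.ob ω = A.ob l → A.hi l < A.hi ω → m ≤ A.lo ω
  att : m = A.hi l ∨ ∃ ω, A.Long ω.1 ∧ A.ob ω = A.ob l ∧ A.hi l < A.hi ω ∧ A.lo ω = m

/-- `Q` is a minimal quadratic part living on the interval `(x, y)` of the object `i`. -/
structure Quad (Q : Set L) (i : O) (x y : ℝ) : Prop where
  lt : x < y
  long : ∀ k ∈ Q, A.Long k
  ob : ∀ ω : L × Bool, ω.1 ∈ Q → A.ob ω = i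
  sub : ∀ ω : L × Bool, ω.1 ∈ Q → A.base ω ⊆ Ioo x y
  sep : ∀ ω : L × Bool, ω.1 ∉ Q → A.Long ω.1 → A.ob ω = i → y ≤ A.lo ω
  two : ∀ ω₁ ω₂ ω₃ : L × Bool, ω₁.1 ∈ Q → ω₂.1 ∈ Q → ω₃.1 ∈ Q → ∀ z, z ∈ A.base ω₁ →
    z ∈ A.base ω₂ → z ∈ A.base ω₃ → ω₁ = ω₂ ∨ ω₁ = ω₃ ∨ ω₂ = ω₃
  cov : ∃ E : Set ℝ, E.Finite ∧ ∀ z ∈ Ioo x y, z ∉ E → ∃ ω₁ ω₂ : L × Bool, ω₁ ≠ ω₂ ∧
    ω₁.1 ∈ Q ∧ ω₂.1 ∈ Q ∧ z ∈ A.base ω₁ ∧ z ∈ A.base ω₂
  min : ∀ U E : Set ℝ, (frontier U).Finite → E.Finite →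
    (∀ ω : L × Bool, ω.1 ∈ Q → ∀ z ∈ A.base ω, z ∉ E → z ∈ U → A.rmap ω z ∈ U) →
    (U ∩ Ioo x y).Infinite → (Ioo x y \ U).Finite

variable {A}

theorem exists_lead [Finite L] {ω : L × Bool} (h : A.Long ω.1) :
    ∃ l, A.ob l = A.ob ω ∧ A.Lead l := by
  obtain ⟨l₀, hl₀, hmin⟩ := Set.exists_min_image {ν : L × Bool | A.Long ν.1 ∧ A.ob ν = A.ob ω}
    A.lo (Set.toFinite _) ⟨ω, h, rfl⟩
  obtain ⟨l, hl, hmax⟩ := Set.exists_max_image
    {ν : L × Bool | A.Long ν.1 ∧ A.ob ν = A.ob ω ∧ A.lo ν = A.lo l₀}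
    A.hi (Set.toFinite _) ⟨l₀, hl₀.1, hl₀.2, rfl⟩
  refine ⟨l, hl.2.1, hl.1, fun ν h1 h2 => ?_, fun ν h1 h2 h3 => ?_⟩
  · rw [hl.2.2]
    exact hmin ν ⟨h1, h2.trans hl.2.1⟩
  · exact hmax ν ⟨h1, h2.trans hl.2.1, h3.trans hl.2.2⟩

theorem Lead.exists_carrier [Finite L] {l : L × Bool} (h : A.Lead l) (hn : ¬ A.Ann l) :
    ∃ m, A.Carrier l m := by
  by_cases hS : {ν : L × Bool | A.Long ν.1 ∧ A.ob ν = A.ob l ∧ A.hi l < A.hi ν}.Nonempty
  · obtain ⟨μ, hμ, hmin⟩ := Set.exists_min_image _ A.lo (Set.toFinite _) hS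
    by_cases hle : A.lo μ ≤ A.hi l
    · exact ⟨A.lo μ, h, hn, hle, fun ν h1 h2 h3 => hmin ν ⟨h1, h2, h3⟩,
        Or.inr ⟨μ, hμ.1, hμ.2.1, hμ.2.2, rfl⟩⟩
    · exact ⟨A.hi l, h, hn, le_rfl,
        fun ν h1 h2 h3 => (not_le.mp hle).le.trans (hmin ν ⟨h1, h2, h3⟩), Or.inl rfl⟩
  · exact ⟨A.hi l, h, hn, le_rfl, fun ν h1 h2 h3 => absurd ⟨ν, h1, h2, h3⟩ hS, Or.inl rfl⟩

theorem step_lo_lt_hi {ω : L × Bool} (h : A.Long ω.1) : A.lo ω < A.hi ω := by
  have h1 := A.hi_sub_lo ω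
  have h2 : A.a ω.1 < A.b ω.1 := h
  linarith

theorem step_not_slid_self (l : L × Bool) : ¬ A.Slid l l := fun h => h.1 rfl

theorem step_eq_or_eq_bar {l ω : L × Bool} (h : ω.1 = l.1) : ω = l ∨ ω = bar l := by
  obtain ⟨k, s⟩ := ω
  obtain ⟨k', s'⟩ := l
  simp only at h
  subst h
  cases s <;> cases s' <;> simp [bar]

theorem step_pi_smul (ε : ℤˣ) (v : V) : π (ε • v) = ε • π v := by
  simp only [Units.smul_def, map_zsmul]

theorem step_base_nonempty {ω : L × Bool} (h : A.Long ω.1) : (A.base ω).Nonempty :=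
  Set.nonempty_Ioo.mpr (step_lo_lt_hi h)

theorem step_lo_le_of_subset {L' O' : Type} {B : Skel π L' O'} {ω : L × Bool} {ω' : L' × Bool}
    (h : B.Long ω'.1) (hs : B.base ω' ⊆ A.base ω) : A.lo ω ≤ B.lo ω' :=
  ((Set.Ioo_subset_Ioo_iff (step_lo_lt_hi h)).mp hs).1

section Unfold

variable {l ω : L × Bool} {m : ℝ}

theorem step_ob_pos (hs : A.Slid l ω) : (A.step l m).ob ω = A.ob (bar l) := by
  simp [step, hs]

theorem step_ob_neg (hs : ¬ A.Slid l ω) : (A.step l m).ob ω = A.ob ω := by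
  simp [step, hs]

theorem step_sg_pos (hs : A.Slid l ω) : (A.step l m).sg ω = A.vsg l * A.sg ω := by
  simp [step, hs]

theorem step_sg_neg (hs : ¬ A.Slid l ω) : (A.step l m).sg ω = A.sg ω := by
  simp [step, hs]

theorem step_off_pos (hs : A.Slid l ω) :
    (A.step l m).off ω = A.vsg l • A.off ω + A.voff l := by
  simp [step, hs]

theorem step_off_neg (hs : ¬ A.Slid l ω) : (A.step l m).off ω = A.off ω := by
  simp [step, hs]

theorem step_a_ne {k : L} (hk : k ≠ l.1) : (A.step l m).a k = A.a k := by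
  simp [step, hk]

theorem step_b_ne {k : L} (hk : k ≠ l.1) : (A.step l m).b k = A.b k := by
  simp [step, hk]

theorem step_rpos_neg (hs : ¬ A.Slid l ω) (τ : ℝ) : (A.step l m).rpos ω τ = A.rpos ω τ := by
  simp only [rpos, step_sg_neg hs, step_off_neg hs]

end Unfold

namespace Carrier

variable {l : L × Bool} {m : ℝ}

theorem lo_lt (h : A.Carrier l m) : A.lo l < m := by
  rcases h.att with hm | ⟨μ, h1, h2, h3, h4⟩
  · rw [hm]
    exact step_lo_lt_hi h.long
  · rw [← h4]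
    refine lt_of_le_of_ne (h.min μ h1 h2) fun he => ?_
    exact absurd (h.max μ h1 h2 he.symm) (not_le.mpr h3)

theorem not_slid_bar (h : A.Carrier l m) : ¬ A.Slid l (bar l) := by
  rintro ⟨-, h1, h2, h3⟩
  refine h.nonann ⟨h2, le_antisymm ?_ (h.min _ h1 h2)⟩
  have e1 := A.hi_sub_lo l
  have e2 := A.hi_sub_lo (bar l)
  rw [bar_fst] at e2
  linarith

theorem step_fst_ne (h : A.Carrier l m) {ω : L × Bool} (hs : A.Slid l ω) : ω.1 ≠ l.1 := by
  intro he
  rcases step_eq_or_eq_bar he with h1 | h1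
  · exact hs.1 h1
  · exact h.not_slid_bar (h1 ▸ hs)

theorem step_le_lo_of_not_slid (h : A.Carrier l m) {ω : L × Bool} (hs : ¬ A.Slid l ω)
    (hne : ω ≠ l) (hl : A.Long ω.1) (ho : A.ob ω = A.ob l) : m ≤ A.lo ω := by
  refine h.le_lo ω hl ho (not_le.mp fun hh => hs ⟨hne, hl, ho, hh⟩)

theorem le_lo_bar (h : A.Carrier l m) (ho : A.ob (bar l) = A.ob l) : m ≤ A.lo (bar l) :=
  h.step_le_lo_of_not_slid h.not_slid_bar (bar_ne l) h.long ho

theorem base_subset (h : A.Carrier l m) {ω : L × Bool} (hs : A.Slid l ω) :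
    A.base ω ⊆ A.base l :=
  Set.Ioo_subset_Ioo (h.min ω hs.2.1 hs.2.2.1) hs.2.2.2

theorem step_lo (h : A.Carrier l m) : (A.step l m).lo l = m := by
  have hs := step_not_slid_self (A := A) l
  rcases Int.units_eq_one_or (A.sg l) with h1 | h1
  · simp [lo, rpos, step, hs, h1]
  · simp [lo, rpos, step, hs, h1]

theorem step_hi (h : A.Carrier l m) : (A.step l m).hi l = A.hi l := by
  have hs := step_not_slid_self (A := A) l
  rcases Int.units_eq_one_or (A.sg l) with h1 | h1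
  · simp [hi, rpos, step, hs, h1]
  · simp [hi, rpos, step, hs, h1]

theorem step_ob (h : A.Carrier l m) : (A.step l m).ob l = A.ob l :=
  step_ob_neg (step_not_slid_self l)

theorem step_a_le (h : A.Carrier l m) (k : L) : A.a k ≤ (A.step l m).a k := by
  have h0 := h.lo_lt
  by_cases hk : k = l.1
  · subst hk
    rcases Int.units_eq_one_or (A.sg l) with h1 | h1
    · simp only [lo, rpos, h1, if_true, one_smul] at h0
      simp only [step, h1, and_self, if_true]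
      linarith
    · simp [step, h1]
  · rw [step_a_ne hk]

theorem step_b_le (h : A.Carrier l m) (k : L) : (A.step l m).b k ≤ A.b k := by
  have h0 := h.lo_lt
  by_cases hk : k = l.1
  · subst hk
    rcases Int.units_eq_one_or (A.sg l) with h1 | h1
    · simp [step, h1]
    · simp [lo, rpos, h1] at h0
      simp [step, h1]
      linarith
  · rw [step_b_ne hk]

theorem step_long (h : A.Carrier l m) {k : L} (hk : (A.step l m).Long k) : A.Long k :=
  lt_of_le_of_lt (h.step_a_le k) (lt_of_lt_of_le hk (h.step_b_le k))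

theorem step_width (h : A.Carrier l m) :
    (A.step l m).b l.1 - (A.step l m).a l.1 = A.b l.1 - A.a l.1 - (m - A.lo l) := by
  have e1 := A.hi_sub_lo l
  have e2 := (A.step l m).hi_sub_lo l
  rw [h.step_lo, h.step_hi] at e2
  linarith

theorem step_rpos_of_slid (h : A.Carrier l m) {ω : L × Bool} (hs : A.Slid l ω) (τ : ℝ) :
    (A.step l m).rpos ω τ = A.rmap l (A.rpos ω τ) := by
  simp only [rpos, rmap, step_sg_pos hs, step_off_pos hs, map_add, step_pi_smul, mul_smul,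
    smul_add, add_assoc]

theorem mem_step_base_of_slid (h : A.Carrier l m) {ω : L × Bool} (hs : A.Slid l ω) {z : ℝ} :
    A.rmap l z ∈ (A.step l m).base ω ↔ z ∈ A.base ω := by
  obtain ⟨τ, rfl⟩ := A.rpos_surjective ω z
  rw [← h.step_rpos_of_slid hs, rpos_mem_base, rpos_mem_base, step_a_ne (h.step_fst_ne hs),
    step_b_ne (h.step_fst_ne hs)]

theorem step_base_subset_of_not_slid (h : A.Carrier l m) {ω : L × Bool} (hs : ¬ A.Slid l ω) :
    (A.step l m).base ω ⊆ A.base ω := by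
  intro z hz
  obtain ⟨τ, rfl⟩ := A.rpos_surjective ω z
  rw [← step_rpos_neg (m := m) hs, rpos_mem_base] at hz
  rw [rpos_mem_base]
  exact ⟨lt_of_le_of_lt (h.step_a_le _) hz.1, lt_of_lt_of_le hz.2 (h.step_b_le _)⟩

theorem step_rmap_bar_mem (h : A.Carrier l m) {ω : L × Bool} (hs : A.Slid l ω) {z : ℝ}
    (hz : z ∈ (A.step l m).base ω) : A.rmap (bar l) z ∈ A.base ω := by
  rw [← h.mem_step_base_of_slid hs]
  have := A.rmap_bar_rmap (bar l) z
  rw [bar_bar] at this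
  rwa [this]

theorem step_base_subset_of_slid (h : A.Carrier l m) {ω : L × Bool} (hs : A.Slid l ω) :
    (A.step l m).base ω ⊆ A.base (bar l) := by
  intro z hz
  have h1 := h.base_subset hs (h.step_rmap_bar_mem hs hz)
  rw [← A.rmap_mem_base, bar_bar]
  exact h1

theorem step_base_of_not_slid (h : A.Carrier l m) {ω : L × Bool} (hs : ¬ A.Slid l ω)
    (hk : ω.1 ≠ l.1) : (A.step l m).base ω = A.base ω := by
  ext z
  obtain ⟨τ, rfl⟩ := A.rpos_surjective ω z
  rw [rpos_mem_base, ← step_rpos_neg (m := m) hs, rpos_mem_base, step_a_ne hk, step_b_ne hk]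

theorem step_base_self (h : A.Carrier l m) : (A.step l m).base l = Ioo m (A.hi l) := by
  rw [base, h.step_lo, h.step_hi]

theorem mem_step_base_bar (h : A.Carrier l m) {z : ℝ} :
    A.rmap l z ∈ (A.step l m).base (bar l) ↔ z ∈ Ioo m (A.hi l) := by
  have e : A.rmap l z = (A.step l m).rmap l z := by
    simp only [rmap, voff, vsg, step_sg_neg h.not_slid_bar, step_off_neg h.not_slid_bar,
      step_sg_neg (step_not_slid_self l), step_off_neg (step_not_slid_self l)]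
  rw [e, rmap_mem_base, h.step_base_self]

/-- After the step all long bases of the object start at `m` or later. -/
theorem le_step_lo (h : A.Carrier l m) {ω : L × Bool} (hω : (A.step l m).Long ω.1)
    (ho : (A.step l m).ob ω = A.ob l) : m ≤ (A.step l m).lo ω := by
  by_cases hs : A.Slid l ω
  · rw [step_ob_pos hs] at ho
    exact (h.le_lo_bar ho).trans (step_lo_le_of_subset hω (h.step_base_subset_of_slid hs))
  · rw [step_ob_neg hs] at ho
    by_cases he : ω = l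
    · rw [he, h.step_lo]
    · exact (h.step_le_lo_of_not_slid hs he (h.step_long hω) ho).trans
        (step_lo_le_of_subset hω (h.step_base_subset_of_not_slid hs))

theorem step_ia_enter (h : A.Carrier l m) {i : O} {u v : ℝ} {ε : ℤˣ} {c : V} {ω : L × Bool}
    (hi : A.IA i u v ((A.step l m).ob ω) ε c)
    (hb : ∀ x ∈ Ioo u v, ε • x + π c ∈ (A.step l m).base ω) :
    ∃ (ε₁ : ℤˣ) (c₁ : V), A.IA i u v (A.ob ω) ε₁ c₁ ∧
      (∀ x ∈ Ioo u v, ε₁ • x + π c₁ ∈ A.base ω) ∧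
      A.sg ω * ε₁ = (A.step l m).sg ω * ε ∧
      A.sg ω • (c₁ - A.off ω) = (A.step l m).sg ω • (c - (A.step l m).off ω) := by
  by_cases hs : A.Slid l ω
  · rw [step_ob_pos hs] at hi
    have h1 := IA.step (bar l) hi rfl (fun x hx => h.step_base_subset_of_slid hs (hb x hx))
    rw [bar_bar, ← hs.2.2.1] at h1
    refine ⟨_, _, h1, fun x hx => ?_, ?_, ?_⟩
    · have h2 := h.step_rmap_bar_mem hs (hb x hx)
      simpa only [rmap, map_add, step_pi_smul, mul_smul, smul_add, add_assoc] using h2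
    · rw [step_sg_pos hs, vsg_bar, mul_comm (A.vsg l) (A.sg ω), mul_assoc]
    · rw [step_sg_pos hs, step_off_pos hs, vsg_bar, voff_bar, mul_comm (A.vsg l) (A.sg ω),
        mul_smul]
      congr 1
      rw [smul_sub, smul_add, smul_smul, Int.units_mul_self, one_smul]
      abel
  · rw [step_ob_neg hs] at hi
    exact ⟨ε, c, hi, fun x hx => h.step_base_subset_of_not_slid hs (hb x hx),
      by rw [step_sg_neg hs], by rw [step_sg_neg hs, step_off_neg hs]⟩

theorem step_ia_exit (h : A.Carrier l m) {i : O} {u v : ℝ} {ε : ℤˣ} {c : V} {ω : L × Bool}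
    (hi : A.IA i u v (A.ob ω) ε c) (hb : ∀ x ∈ Ioo u v, ε • x + π c ∈ A.base ω) :
    A.IA i u v ((A.step l m).ob ω) ((A.step l m).sg ω * (A.sg ω * ε))
      ((A.step l m).sg ω • (A.sg ω • (c - A.off ω)) + (A.step l m).off ω) := by
  by_cases hs : A.Slid l ω
  · have h1 := IA.step l hi hs.2.2.1.symm (fun x hx => h.base_subset hs (hb x hx))
    rw [step_ob_pos hs, step_sg_pos hs, step_off_pos hs]
    have e1 : A.vsg l * A.sg ω * (A.sg ω * ε) = A.vsg l * ε := by
      rw [mul_assoc, ← mul_assoc (A.sg ω), Int.units_mul_self, one_mul]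
    have e2 : (A.vsg l * A.sg ω) • A.sg ω • (c - A.off ω) + (A.vsg l • A.off ω + A.voff l) =
        A.vsg l • c + A.voff l := by
      rw [smul_smul, mul_assoc, Int.units_mul_self, mul_one, smul_sub]
      abel
    rw [e1, e2]
    exact h1
  · rw [step_ob_neg hs, step_sg_neg hs, step_off_neg hs, ← mul_assoc, Int.units_mul_self,
      one_mul, smul_smul, Int.units_mul_self, one_smul, sub_add_cancel]
    exact hi

theorem step_ia (h : A.Carrier l m) {i o : O} {u v : ℝ} (huv : u < v) {ε : ℤˣ} {c : V}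
    (hi : (A.step l m).IA i u v o ε c) : A.IA i u v o ε c := by
  induction hi with
  | refl => exact IA.refl
  | @step o ε c ω _ ho hb ih =>
    subst ho
    obtain ⟨ε₁, c₁, h1, h2, h3, h4⟩ := h.step_ia_enter ih hb
    have h5 := IA.step ω h1 rfl h2
    have h6 := h.step_ia_exit h5 (fun x hx => by
      have := A.rmap_mem_base.mpr (h2 x hx)
      simpa only [rmap, map_add, step_pi_smul, mul_smul, smul_add, add_assoc] using this)
    have e1 : A.sg (bar ω) * (A.vsg ω * ε₁) = A.sg ω * ε₁ := by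
      rw [vsg, ← mul_assoc, ← mul_assoc, Int.units_mul_self, one_mul]
    have e2 : A.sg (bar ω) • (A.vsg ω • c₁ + A.voff ω - A.off (bar ω)) =
        A.sg ω • (c₁ - A.off ω) := by
      have : A.vsg ω • c₁ + A.voff ω - A.off (bar ω) = A.vsg ω • (c₁ - A.off ω) := by
        rw [voff, smul_sub]
        abel
      rw [this, smul_smul, vsg, ← mul_assoc, Int.units_mul_self, one_mul]
    rw [e1, e2, h3, h4, ← mul_assoc, smul_smul] at h6
    have e3 : (A.step l m).vsg ω • c + (A.step l m).voff ω =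
        ((A.step l m).sg (bar ω) * (A.step l m).sg ω) • (c - (A.step l m).off ω) +
          (A.step l m).off (bar ω) := by
      rw [voff, vsg, smul_sub]
      abel
    rw [e3]
    exact h6

theorem step_aper (h : A.Carrier l m) (ha : A.Aper) : (A.step l m).Aper := by
  rintro i u v ⟨huv, hp⟩
  refine ha i u v ⟨huv, fun η hη => ?_⟩
  obtain ⟨c, h1, h2, h3⟩ := hp η hη
  exact ⟨c, h1, h2, h.step_ia huv h3⟩

theorem step_noFree [Finite L] (h : A.Carrier l m) (ha : A.NoFree) : (A.step l m).NoFree := by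
  obtain ⟨E, hE, hc⟩ := ha
  refine ⟨E ∪ A.rmap l '' (insert m E), hE.union ((hE.insert m).image _), ?_⟩
  have hbar : ∀ z ∈ A.base (bar l), z ∉ E ∪ A.rmap l '' (insert m E) →
      ∃ ν, (ν = bar l ∨ A.Slid l ν) ∧ (A.step l m).ob ν = A.ob (bar l) ∧
        z ∈ (A.step l m).base ν := by
    intro z hz hzE
    obtain ⟨τ, rfl⟩ := A.rpos_surjective (bar l) z
    rw [← A.rmap_rpos, A.rmap_mem_base] at hz
    rw [← A.rmap_rpos] at hzE ⊢
    set z₀ := A.rpos l τ
    have h1 : z₀ ∉ insert m E := fun hh => hzE (Or.inr ⟨z₀, hh, rfl⟩)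
    rw [Set.mem_insert_iff, not_or] at h1
    rcases lt_or_gt_of_ne h1.1 with h2 | h2
    · obtain ⟨ν, hν1, hν2, hν3⟩ := hc l z₀ hz h1.2
      have hs : A.Slid l ν := by
        by_contra hs
        have := h.step_le_lo_of_not_slid hs hν1 (A.long_of_mem_base hν3) hν2
        linarith [hν3.1]
      exact ⟨ν, Or.inr hs, step_ob_pos hs, (h.mem_step_base_of_slid hs).mpr hν3⟩
    · exact ⟨bar l, Or.inl rfl, step_ob_neg h.not_slid_bar, h.mem_step_base_bar.mpr ⟨h2, hz.2⟩⟩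
  have hl : ∀ ν z, (ν = l ∨ A.Slid l ν) → z ∈ A.base ν → m < z →
      A.ob ν = A.ob l ∧ z ∈ (A.step l m).base l := by
    intro ν z hν hz hm
    rw [h.step_base_self]
    rcases hν with rfl | hν
    · exact ⟨rfl, hm, hz.2⟩
    · exact ⟨hν.2.2.1, hm, (h.base_subset hν hz).2⟩
  have hob : ∀ ν, (ν = l ∨ A.Slid l ν) → A.ob ν = A.ob l := by
    rintro ν (rfl | hν)
    · rfl
    · exact hν.2.2.1
  intro ω z hz hzE
  have hzE' : z ∉ E := fun hh => hzE (Or.inl hh)
  by_cases hA : A.Slid l ω ∨ ω = bar l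
  · have hz1 : z ∈ A.base (bar l) := by
      rcases hA with hs | rfl
      · exact h.step_base_subset_of_slid hs hz
      · exact h.step_base_subset_of_not_slid h.not_slid_bar hz
    have ho : (A.step l m).ob ω = A.ob (bar l) := by
      rcases hA with hs | rfl
      · exact step_ob_pos hs
      · exact step_ob_neg h.not_slid_bar
    have hne : l ≠ ω := by
      rcases hA with hs | rfl
      · exact hs.1.symm
      · exact (bar_ne l).symm
    obtain ⟨ν, hν1, hν2, hν3⟩ := hc (bar l) z hz1 hzE'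
    by_cases hν : ν = l ∨ A.Slid l ν
    · have h1 : A.ob (bar l) = A.ob l := hν2.symm.trans (hob ν hν)
      have h2 := hl ν z hν hν3 (lt_of_le_of_lt (h.le_lo_bar h1) hz1.1)
      exact ⟨l, hne, by rw [h.step_ob, ho, h1], h2.2⟩
    · rw [not_or] at hν
      have hk : ν.1 ≠ l.1 := fun hh => (step_eq_or_eq_bar hh).elim hν.1 hν1
      refine ⟨ν, ?_, by rw [step_ob_neg hν.2, ho, hν2], ?_⟩
      · rintro rfl
        exact hA.elim hν.2 hν1
      · rwa [h.step_base_of_not_slid hν.2 hk]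
  · rw [not_or] at hA
    by_cases hωl : ω = l
    · subst hωl
      rw [h.step_base_self] at hz
      rcases h.att with hm | ⟨μ, h1, h2, h3, h4⟩
      · exfalso
        linarith [hz.1, hz.2]
      · have hzμ : z ∈ A.base μ := ⟨h4 ▸ hz.1, hz.2.trans h3⟩
        have hne : μ ≠ ω := fun hh => by
          rw [hh] at h3
          exact lt_irrefl _ h3
        have hs : ¬ A.Slid ω μ := fun hh => absurd hh.2.2.2 (not_le.mpr h3)
        by_cases hb : μ = bar ω
        · subst hb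
          obtain ⟨ν, hν1, hν2, hν3⟩ := hbar z hzμ hzE
          refine ⟨ν, ?_, by rw [hν2, h.step_ob, h2], hν3⟩
          rcases hν1 with rfl | hν1
          · exact bar_ne ω
          · exact hν1.1
        · have hk : μ.1 ≠ ω.1 := fun hh => (step_eq_or_eq_bar hh).elim hne hb
          exact ⟨μ, hne, by rw [step_ob_neg hs, h.step_ob, h2],
            by rwa [h.step_base_of_not_slid hs hk]⟩
    · have hk : ω.1 ≠ l.1 := fun hh => (step_eq_or_eq_bar hh).elim hωl hA.2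
      rw [h.step_base_of_not_slid hA.1 hk] at hz
      rw [step_ob_neg hA.1]
      obtain ⟨ν, hν1, hν2, hν3⟩ := hc ω z hz hzE'
      by_cases hν : ν = l ∨ A.Slid l ν
      · have h1 : A.ob ω = A.ob l := hν2.symm.trans (hob ν hν)
        have h2 := h.step_le_lo_of_not_slid hA.1 hωl (A.long_of_mem_base hz) h1
        have h3 := hl ν z hν hν3 (lt_of_le_of_lt h2 hz.1)
        exact ⟨l, Ne.symm hωl, by rw [h.step_ob, h1], h3.2⟩
      · rw [not_or] at hν
        by_cases hb : ν = bar l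
        · subst hb
          obtain ⟨ν', h1, h2, h3⟩ := hbar z hν3 hzE
          refine ⟨ν', ?_, h2.trans hν2, h3⟩
          rintro rfl
          exact h1.elim hA.2 hA.1
        · have hk' : ν.1 ≠ l.1 := fun hh => (step_eq_or_eq_bar hh).elim hν.1 hb
          exact ⟨ν, hν1, by rw [step_ob_neg hν.2, hν2],
            by rwa [h.step_base_of_not_slid hν.2 hk']⟩

theorem step_rk_le [Fintype L] (h : A.Carrier l m) : (A.step l m).rk ≤ A.rk := by
  classical
  let χ : L × Bool → ℚ := fun ω => if A.Slid l ω then 1 else 0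
  let sgn : ℚ := if l.2 = true then -1 else 1
  let N : (L → ℚ) →ₗ[ℚ] ℚ :=
    { toFun := fun z => ∑ k, z k * (χ (k, true) - χ (k, false))
      map_add' := fun z z' => by simp only [Pi.add_apply, add_mul, Finset.sum_add_distrib]
      map_smul' := fun r z => by
        simp only [Pi.smul_apply, smul_eq_mul, mul_assoc, ← Finset.mul_sum, RingHom.id_apply] }
  let T : (L → ℚ) →ₗ[ℚ] (L → ℚ) := LinearMap.id + N.smulRight (Pi.single l.1 sgn)
  have hT : ∀ z k, T z k = z k + N z * (Pi.single l.1 sgn : L → ℚ) k := fun z k => by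
    simp [T]
  have hmap : ∀ z ∈ (A.step l m).Cyc, T z ∈ A.Cyc := by
    rintro z ⟨h1, h2⟩
    refine ⟨fun k hk => ?_, fun f hf => ?_⟩
    · have hk' : k ≠ l.1 := fun hh => hk (hh ▸ h.long)
      rw [hT, h1 k (fun hh => hk (h.step_long hh)), Pi.single_eq_of_ne hk']
      simp
    · let θ : L × Bool → L × Bool := fun ω => if A.Slid l ω then bar l else ω
      have hθo : ∀ ω, (A.step l m).ob ω = A.ob (θ ω) := fun ω => by
        by_cases hs : A.Slid l ω
        · simp only [θ, hs, if_true, step_ob_pos hs]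
        · simp only [θ, hs, if_false, step_ob_neg hs]
      have hθb : ∀ ω, (A.step l m).base ω ⊆ A.base (θ ω) := fun ω => by
        by_cases hs : A.Slid l ω
        · simp only [θ, hs, if_true]
          exact h.step_base_subset_of_slid hs
        · simp only [θ, hs, if_false]
          exact h.step_base_subset_of_not_slid hs
      have h3 := h2 (fun ω => f (θ ω)) (fun ω ω' hov => hf _ _
        ⟨by rw [← hθo, ← hθo, hov.1], hov.2.mono (Set.inter_subset_inter (hθb ω) (hθb ω'))⟩)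
      have h4 : ∀ ω, f (θ ω) = f ω + χ ω * (f (bar l) - f l) := fun ω => by
        by_cases hs : A.Slid l ω
        · have : f ω = f l := hf _ _ ⟨hs.2.2.1, by
            rw [Set.inter_eq_left.mpr (h.base_subset hs)]
            exact step_base_nonempty hs.2.1⟩
          simp only [θ, χ, hs, if_true, this]
          ring
        · simp only [θ, χ, hs, if_false]
          ring
      have h5 : f (bar l) - f l = sgn * (f (l.1, true) - f (l.1, false)) := by
        obtain ⟨k, s⟩ := l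
        cases s <;> simp [sgn, bar]
      have h6 : ∑ k, (N z * (Pi.single l.1 sgn : L → ℚ) k) * (f (k, true) - f (k, false)) =
          N z * (f (bar l) - f l) := by
        rw [Finset.sum_eq_single l.1]
        · rw [Pi.single_eq_same, h5, mul_assoc]
        · intro k _ hk
          rw [Pi.single_eq_of_ne hk]
          simp
        · simp
      have h7 : N z * (f (bar l) - f l) =
          ∑ k, z k * (χ (k, true) - χ (k, false)) * (f (bar l) - f l) := by
        rw [← Finset.sum_mul]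
        rfl
      simp only [hT, add_mul, Finset.sum_add_distrib]
      rw [h6, h7, ← Finset.sum_add_distrib, ← h3]
      refine Finset.sum_congr rfl fun k _ => ?_
      simp only [h4]
      ring
  refine LinearMap.finrank_le_finrank_of_injective (f := T.restrict hmap) ?_
  rw [← LinearMap.ker_eq_bot, LinearMap.ker_eq_bot']
  intro z hz
  have hz' : ∀ k, T z.1 k = 0 := fun k => congrFun (congrArg Subtype.val hz) k
  have h1 : ∀ k, k ≠ l.1 → z.1 k = 0 := fun k hk => by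
    have := hz' k
    rwa [hT, Pi.single_eq_of_ne hk, mul_zero, add_zero] at this
  have h2 : N z.1 = 0 := by
    refine Finset.sum_eq_zero fun k _ => ?_
    by_cases hk : k = l.1
    · have e1 : ∀ s, χ (k, s) = 0 := fun s => by
        have : ¬ A.Slid l (k, s) := fun hs => h.step_fst_ne hs hk
        simp only [χ, this, if_false]
      rw [e1, e1, sub_zero, mul_zero]
    · rw [h1 k hk, zero_mul]
  ext k
  have := hz' k
  rwa [hT, h2, zero_mul, add_zero] at this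

theorem step_nl_le [Finite L] (h : A.Carrier l m) : (A.step l m).NL ≤ A.NL :=
  Set.ncard_le_ncard (fun _ hk => h.step_long hk) (Set.toFinite _)

theorem step_nl_lt [Finite L] (h : A.Carrier l m) (hm : m = A.hi l) :
    (A.step l m).NL < A.NL := by
  refine Set.ncard_lt_ncard ⟨fun _ hk => h.step_long hk, fun hh => ?_⟩ (Set.toFinite _)
  have h1 : (A.step l m).a l.1 < (A.step l m).b l.1 := hh (show l.1 ∈ {k | A.Long k} from h.long)
  have h2 := h.step_width
  have h3 := A.hi_sub_lo l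
  linarith

end Carrier

section Lift

variable {L' O' : Type} {B : Skel π L' O'} {ρ : L' → L} {pa : O' → O}

theorem Iso.step_exists_lift (h : Iso B A ρ pa) {ω : L × Bool} (hω : A.Long ω.1) :
    ∃ ω' : L' × Bool, B.Long ω'.1 ∧ (ρ ω'.1, ω'.2) = ω := by
  obtain ⟨k, h1, h2, h3⟩ := h.full _ hω
  refine ⟨(k, ω.2), ?_, by simp [h1]⟩
  show B.a k < B.b k
  rw [h2, h3]
  exact hω

theorem Iso.step_base_eq (h : Iso B A ρ pa) {ω : L' × Bool} (hω : B.Long ω.1) :
    B.base ω = A.base (ρ ω.1, ω.2) := by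
  rw [base, base, ← h.lo_eq hω, ← h.hi_eq hω]

theorem Iso.step_ob_iff (h : Iso B A ρ pa) {ω ω' : L' × Bool} (hω : B.Long ω.1)
    (hω' : B.Long ω'.1) : B.ob ω = B.ob ω' ↔ A.ob (ρ ω.1, ω.2) = A.ob (ρ ω'.1, ω'.2) := by
  refine ⟨fun hh => ?_, fun hh => h.obi _ _ _ _ hω hω' hh⟩
  rw [← h.ob _ _ hω, ← h.ob _ _ hω']
  exact congrArg pa hh

theorem Iso.step_eq_iff (h : Iso B A ρ pa) {ω ω' : L' × Bool} (hω : B.Long ω.1)
    (hω' : B.Long ω'.1) : (ρ ω.1, ω.2) = (ρ ω'.1, ω'.2) ↔ ω = ω' := by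
  refine ⟨fun hh => ?_, fun hh => by rw [hh]⟩
  rw [Prod.mk.injEq] at hh
  exact Prod.ext (h.injOn hω hω' hh.1) hh.2

theorem Iso.lift_ann (h : Iso B A ρ pa) {l : L × Bool} (hl : A.Long l.1) (ha : A.Ann l) :
    ∃ l' : L' × Bool, B.Long l'.1 ∧ B.Ann l' := by
  obtain ⟨l', h1, rfl⟩ := h.step_exists_lift hl
  refine ⟨l', h1, (h.step_ob_iff (ω := bar l') h1 h1).mpr ha.1, ?_⟩
  have e1 := h.lo_eq h1 (!l'.2)
  have e2 := h.lo_eq h1 l'.2
  exact e1.trans (ha.2.trans e2.symm)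

theorem Iso.slid_iff (h : Iso B A ρ pa) {l' ω : L' × Bool} (hl : B.Long l'.1)
    (hω : B.Long ω.1) : B.Slid l' ω ↔ A.Slid (ρ l'.1, l'.2) (ρ ω.1, ω.2) := by
  have e1 : B.hi ω = A.hi (ρ ω.1, ω.2) := h.hi_eq hω ω.2
  have e2 : B.hi l' = A.hi (ρ l'.1, l'.2) := h.hi_eq hl l'.2
  unfold Slid
  rw [Ne, Ne, h.step_eq_iff hω hl, h.step_ob_iff hω hl, e1, e2]
  have : A.Long (ρ ω.1) := h.toRef.long hω
  simp only [hω, this]

theorem Iso.lift_carrier (h : Iso B A ρ pa) {l : L × Bool} {m : ℝ} (hc : A.Carrier l m) :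
    ∃ l' : L' × Bool, (ρ l'.1, l'.2) = l ∧ B.Carrier l' m ∧
      Iso (B.step l' m) (A.step l m) ρ pa := by
  obtain ⟨l', hl, rfl⟩ := h.step_exists_lift hc.long
  have elo : ∀ ω : L' × Bool, B.Long ω.1 → B.lo ω = A.lo (ρ ω.1, ω.2) :=
    fun ω hω => h.lo_eq hω ω.2
  have ehi : ∀ ω : L' × Bool, B.Long ω.1 → B.hi ω = A.hi (ρ ω.1, ω.2) :=
    fun ω hω => h.hi_eq hω ω.2
  have hB : B.Carrier l' m := by
    refine ⟨⟨hl, fun ω h1 h2 => ?_, fun ω h1 h2 h3 => ?_⟩, fun ha => hc.nonann ⟨?_, ?_⟩, ?_,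
      fun ω h1 h2 h3 => ?_, ?_⟩
    · rw [elo _ hl, elo _ h1]
      exact hc.min _ (h.toRef.long h1) ((h.step_ob_iff h1 hl).mp h2)
    · rw [elo _ hl, elo _ h1] at h3
      rw [ehi _ hl, ehi _ h1]
      exact hc.max _ (h.toRef.long h1) ((h.step_ob_iff h1 hl).mp h2) h3
    · exact (h.step_ob_iff (ω := bar l') hl hl).mp ha.1
    · exact (elo (bar l') hl).symm.trans (ha.2.trans (elo l' hl))
    · rw [ehi _ hl]
      exact hc.le_hi
    · rw [ehi _ hl, ehi _ h1] at h3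
      rw [elo _ h1]
      exact hc.le_lo _ (h.toRef.long h1) ((h.step_ob_iff h1 hl).mp h2) h3
    · rcases hc.att with hm | ⟨μ, h1, h2, h3, h4⟩
      · exact Or.inl (hm.trans (ehi _ hl).symm)
      · obtain ⟨μ', h5, rfl⟩ := h.step_exists_lift h1
        exact Or.inr ⟨μ', h5, (h.step_ob_iff h5 hl).mpr h2, by rwa [ehi _ hl, ehi _ h5],
          by rwa [elo _ h5]⟩
  have esg : B.sg l' = A.sg (ρ l'.1, l'.2) := h.sg _ _ hl
  have eoff : B.off l' = A.off (ρ l'.1, l'.2) := h.off _ _ hl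
  have esg' : B.sg (bar l') = A.sg (bar (ρ l'.1, l'.2)) := h.sg _ _ hl
  have eoff' : B.off (bar l') = A.off (bar (ρ l'.1, l'.2)) := h.off _ _ hl
  have evsg : B.vsg l' = A.vsg (ρ l'.1, l'.2) := by rw [vsg, vsg, esg, esg']
  have evoff : B.voff l' = A.voff (ρ l'.1, l'.2) := by rw [voff, voff, evsg, eoff, eoff']
  have ek : ∀ k, B.Long k → (k = l'.1 ↔ ρ k = ρ l'.1) :=
    fun k hk => ⟨fun hh => by rw [hh], fun hh => h.injOn hk hl hh⟩
  have ea : ∀ k, B.Long k → (B.step l' m).a k = (A.step (ρ l'.1, l'.2) m).a (ρ k) := by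
    intro k hk
    simp only [step, eoff, h.a_eq hk]
    by_cases h1 : k = l'.1
    · simp [h1, esg]
    · simp [h1, mt (ek k hk).mpr h1]
  have eb : ∀ k, B.Long k → (B.step l' m).b k = (A.step (ρ l'.1, l'.2) m).b (ρ k) := by
    intro k hk
    simp only [step, eoff, h.b_eq hk]
    by_cases h1 : k = l'.1
    · simp [h1, esg]
    · simp [h1, mt (ek k hk).mpr h1]
  have eobi : ∀ k s k' s', (B.step l' m).Long k → (B.step l' m).Long k' →
      (A.step (ρ l'.1, l'.2) m).ob (ρ k, s) = (A.step (ρ l'.1, l'.2) m).ob (ρ k', s') →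
      (B.step l' m).ob (k, s) = (B.step l' m).ob (k', s') := by
    have key : ∀ k s, B.Long k → ∃ ν : L' × Bool, B.Long ν.1 ∧
        (B.step l' m).ob (k, s) = B.ob ν ∧
        (A.step (ρ l'.1, l'.2) m).ob (ρ k, s) = A.ob (ρ ν.1, ν.2) := by
      intro k s hk
      by_cases hs : B.Slid l' (k, s)
      · exact ⟨bar l', hl, step_ob_pos hs, step_ob_pos ((h.slid_iff hl hk).mp hs)⟩
      · exact ⟨(k, s), hk, step_ob_neg hs, step_ob_neg (mt (h.slid_iff (ω := (k, s)) hl hk).mpr hs)⟩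
    intro k s k' s' hk hk' he
    obtain ⟨ν, h1, h2, h3⟩ := key k s (hB.step_long hk)
    obtain ⟨ν', h1', h2', h3'⟩ := key k' s' (hB.step_long hk')
    rw [h2, h2', h.step_ob_iff h1 h1', ← h3, ← h3', he]
  refine ⟨l', rfl, hB, ⟨fun k hk => (ea k (hB.step_long hk)).ge,
    fun k hk => (eb k (hB.step_long hk)).le, fun k s hk => ?_, fun k s hk => ?_,
    fun k s hk => ?_, fun k k' h1 h2 => ?_, fun k s k' s' h1 h2 => ?_⟩, fun k hk => ?_, eobi⟩
  · have hk' := hB.step_long hk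
    by_cases hs : B.Slid l' (k, s)
    · rw [step_sg_pos hs, step_sg_pos ((h.slid_iff hl hk').mp hs), evsg, h.sg _ _ hk']
    · rw [step_sg_neg hs, step_sg_neg (mt (h.slid_iff (ω := (k, s)) hl hk').mpr hs), h.sg _ _ hk']
  · have hk' := hB.step_long hk
    by_cases hs : B.Slid l' (k, s)
    · rw [step_off_pos hs, step_off_pos ((h.slid_iff hl hk').mp hs), evsg, evoff, h.off _ _ hk']
    · rw [step_off_neg hs, step_off_neg (mt (h.slid_iff (ω := (k, s)) hl hk').mpr hs),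
        h.off _ _ hk']
  · have hk' := hB.step_long hk
    by_cases hs : B.Slid l' (k, s)
    · rw [step_ob_pos hs, step_ob_pos ((h.slid_iff hl hk').mp hs)]
      exact h.ob _ _ hl
    · rw [step_ob_neg hs, step_ob_neg (mt (h.slid_iff (ω := (k, s)) hl hk').mpr hs), h.ob _ _ hk']
  · exact (h.disj k k' h1 h2).mono (Set.Ioo_subset_Ioo (hB.step_a_le k) (hB.step_b_le k))
      (Set.Ioo_subset_Ioo (hB.step_a_le k') (hB.step_b_le k'))
  · obtain ⟨z, h3, h4⟩ := h2
    exact eobi k s k' s' ((B.step l' m).long_of_mem_base h3) ((B.step l' m).long_of_mem_base h4) h1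
  · obtain ⟨ν, h1, h2⟩ := h.step_exists_lift (ω := (k, true)) (hc.step_long hk)
    have h3 : ρ ν.1 = k := congrArg Prod.fst h2
    exact ⟨ν.1, h3, by rw [ea _ h1, h3], by rw [eb _ h1, h3]⟩

theorem Quad.step_nonempty {Q : Set L} {i : O} {x y : ℝ} (hq : A.Quad Q i x y) : Q.Nonempty := by
  obtain ⟨E, hE, hc⟩ := hq.cov
  obtain ⟨z, hz1, hz2⟩ := ((Set.Ioo_infinite hq.lt).sdiff hE).nonempty
  obtain ⟨ω₁, -, -, h1, -⟩ := hc z hz1 hz2
  exact ⟨ω₁.1, h1⟩

theorem Iso.lift_quad (h : Iso B A ρ pa) {Q : Set L} {i : O} {x y : ℝ} (hq : A.Quad Q i x y) :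
    ∃ Q' i', B.Quad Q' i' x y := by
  obtain ⟨k₀, hk₀⟩ := hq.step_nonempty
  obtain ⟨ω₀, hω₀, e₀⟩ := h.step_exists_lift (ω := (k₀, true)) (hq.long _ hk₀)
  have hi₀ : A.ob (ρ ω₀.1, ω₀.2) = i := by
    rw [e₀]
    exact hq.ob _ hk₀
  refine ⟨{k | B.Long k ∧ ρ k ∈ Q}, B.ob ω₀, hq.lt, fun k hk => hk.1, fun ω hω => ?_,
    fun ω hω => ?_, fun ω h1 h2 h3 => ?_, fun ω₁ ω₂ ω₃ h1 h2 h3 z hz1 hz2 hz3 => ?_, ?_,
    fun U E hU hE hinv hinf => hq.min U E hU hE (fun ω hω z hz hzE hzU => ?_) hinf⟩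
  · rw [h.step_ob_iff hω.1 hω₀, hi₀]
    exact hq.ob _ hω.2
  · rw [h.step_base_eq hω.1]
    exact hq.sub _ hω.2
  · have e : B.lo ω = A.lo (ρ ω.1, ω.2) := h.lo_eq h2 ω.2
    rw [e]
    exact hq.sep _ (fun hh => h1 ⟨h2, hh⟩) (h.toRef.long h2)
      (((h.step_ob_iff h2 hω₀).mp h3).trans hi₀)
  · rw [h.step_base_eq h1.1] at hz1
    rw [h.step_base_eq h2.1] at hz2
    rw [h.step_base_eq h3.1] at hz3
    rw [← h.step_eq_iff h1.1 h2.1, ← h.step_eq_iff h1.1 h3.1, ← h.step_eq_iff h2.1 h3.1]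
    exact hq.two _ _ _ h1.2 h2.2 h3.2 z hz1 hz2 hz3
  · obtain ⟨E, hE, hc⟩ := hq.cov
    refine ⟨E, hE, fun z hz hzE => ?_⟩
    obtain ⟨ω₁, ω₂, h1, h2, h3, h4, h5⟩ := hc z hz hzE
    obtain ⟨ν₁, g1, rfl⟩ := h.step_exists_lift (hq.long _ h2)
    obtain ⟨ν₂, g2, rfl⟩ := h.step_exists_lift (hq.long _ h3)
    exact ⟨ν₁, ν₂, fun hh => h1 (by rw [hh]), ⟨g1, h2⟩, ⟨g2, h3⟩, by rwa [h.step_base_eq g1],
      by rwa [h.step_base_eq g2]⟩
  · obtain ⟨ν, g1, rfl⟩ := h.step_exists_lift (hq.long _ hω)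
    rw [← h.toRef.rmap g1]
    exact hinv ν ⟨g1, hω⟩ z (by rwa [h.step_base_eq g1]) hzE hzU

theorem Quad.step_mem_of_mem_base {Q : Set L} {i : O} {x y : ℝ} (hq : A.Quad Q i x y)
    {ω ν : L × Bool} (hω : ω.1 ∈ Q) (ho : A.ob ν = A.ob ω) {z : ℝ} (hz : z ∈ A.base ω)
    (hz' : z ∈ A.base ν) : ν.1 ∈ Q := by
  by_contra hn
  have h1 := hq.sep ν hn (A.long_of_mem_base hz') (ho.trans (hq.ob ω hω))
  have h2 := (hq.sub ω hω hz).2
  linarith [hz'.1]

/-- If the quadratic part has been erased and the rest is untouched, there is no free point and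
there are fewer long bands. -/
theorem Quad.erased [Fintype L] [Fintype L'] {Q : Set L} {i : O} {x y : ℝ} (hq : A.Quad Q i x y)
    (hnf : A.NoFree) (h : Ref B A ρ pa) (hQ : ∀ k, B.Long k → ρ k ∉ Q)
    (hfull : ∀ k, k ∉ Q → A.Long k → Full B A ρ k) :
    B.NoFree ∧ B.NL < A.NL ∧ B.rk ≤ A.rk := by
  have hinj : InjOn ρ {k | B.Long k} := by
    intro k hk k' hk' he
    obtain ⟨k₂, h1, h2, h3⟩ := hfull _ (hQ k hk) (h.long hk)
    have e1 : k = k₂ := h.eq_of_full hk h1.symm (by rw [h2, h1]) (by rw [h3, h1])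
    have e2 : k' = k₂ := h.eq_of_full hk' (he.symm.trans h1.symm) (by rw [h2, h1]) (by rw [h3, h1])
    rw [e1, e2]
  refine ⟨?_, ?_, h.rk_le_of_injOn hinj⟩
  · obtain ⟨E, hE, hc⟩ := hnf
    refine ⟨E, hE, ?_⟩
    rintro ⟨k, s⟩ z hz hzE
    have hk : B.Long k := B.long_of_mem_base hz
    have hz' := h.base_subset k s hz
    obtain ⟨⟨k', s'⟩, h1, h2, h3⟩ := hc _ z hz' hzE
    have h4 : k' ∉ Q := fun hh =>
      hQ k hk (hq.step_mem_of_mem_base (ω := (k', s')) (ν := (ρ k, s)) hh h2.symm h3 hz')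
    have h5 : A.Long k' := A.long_of_mem_base h3
    obtain ⟨k₂, rfl, g2, g3⟩ := hfull k' h4 h5
    have hk₂ : B.Long k₂ := by
      show B.a k₂ < B.b k₂
      rw [g2, g3]
      exact h5
    have h6 : z ∈ B.base (k₂, s') := by
      obtain ⟨τ, rfl⟩ := A.rpos_surjective (ρ k₂, s') z
      rw [rpos_mem_base] at h3
      rw [← h.rpos hk₂, rpos_mem_base]
      simpa only [g2, g3] using h3
    refine ⟨(k₂, s'), fun hh => h1 ?_, h.ovk _ _ _ _ h2 ⟨z, h6, hz⟩, h6⟩
    rw [Prod.mk.injEq] at hh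
    rw [hh.1, hh.2]
  · obtain ⟨k₀, hk₀⟩ := hq.step_nonempty
    rw [NL, ← hinj.ncard_image]
    refine Set.ncard_lt_ncard ⟨?_, fun hh => ?_⟩ (Set.toFinite _)
    · rintro _ ⟨k, hk, rfl⟩
      exact h.long hk
    · obtain ⟨k, hk, he⟩ := hh (show k₀ ∈ {k | A.Long k} from hq.long _ hk₀)
      exact hQ k hk (he ▸ hk₀)

/-- Once a gap has been opened in the quadratic part, the remaining pieces have a free point. -/
theorem Quad.exists_free [Finite L'] {Q : Set L} {i : O} {x y : ℝ} (hq : A.Quad Q i x y)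
    (h : Ref B A ρ pa) {k₀ : L} (hk₀ : k₀ ∈ Q) {u v : ℝ} (huv : u < v) (hu : A.a k₀ ≤ u)
    (hv : v ≤ A.b k₀) (hgap : ∀ k, ρ k = k₀ → Disjoint (Ioo (B.a k) (B.b k)) (Ioo u v))
    {k₁ : L'} (hk₁ : ρ k₁ ∈ Q) (hl : B.Long k₁) {E : Set ℝ} (hE : E.Finite) :
    ∃ ω : L' × Bool, ρ ω.1 ∈ Q ∧ ∃ z ∈ B.base ω, z ∉ E ∧
      ∀ ω', ω' ≠ ω → B.ob ω' = B.ob ω → z ∉ B.base ω' := by
  by_contra hcon
  push Not at hcon
  let U : Set ℝ := ⋃ ω ∈ {ω : L' × Bool | ρ ω.1 ∈ Q}, B.base ω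
  have hU : ∀ z, z ∈ U ↔ ∃ ω : L' × Bool, ρ ω.1 ∈ Q ∧ z ∈ B.base ω := fun z => by
    simp only [U, Set.mem_iUnion, Set.mem_ofPred_eq, exists_prop]
  have hopen : IsOpen U := isOpen_biUnion fun ω _ => isOpen_Ioo
  have hfr : (frontier U).Finite := by
    refine ((Set.finite_range B.lo).union (Set.finite_range B.hi)).subset fun z hz => ?_
    rw [hopen.frontier_eq] at hz
    have hcl : closure U ⊆ ⋃ ω ∈ {ω : L' × Bool | ρ ω.1 ∈ Q}, Icc (B.lo ω) (B.hi ω) :=
      closure_minimal (Set.iUnion₂_mono fun ω _ => Set.Ioo_subset_Icc_self)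
        ((Set.toFinite _).isClosed_biUnion fun ω _ => isClosed_Icc)
    obtain ⟨ω, hω, h1⟩ := Set.mem_iUnion₂.mp (hcl hz.1)
    rcases h1.1.eq_or_lt with h2 | h2
    · exact Or.inl ⟨ω, h2⟩
    · rcases h1.2.eq_or_lt with h3 | h3
      · exact Or.inr ⟨ω, h3.symm⟩
      · exact absurd ((hU z).mpr ⟨ω, hω, h2, h3⟩) hz.2
  have hpar : ∀ ν : L × Bool, ν.1 ∈ Q → ∀ z ∈ A.base ν, z ∉ E → z ∈ U →
      ∃ ω : L' × Bool, (ρ ω.1, ω.2) = ν ∧ z ∈ B.base ω := by
    intro ν hν z hz hzE hzU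
    obtain ⟨⟨k, s⟩, h1, h2⟩ := (hU z).mp hzU
    obtain ⟨⟨k', s'⟩, h3, h4, h5⟩ := hcon _ h1 z h2 hzE
    have hk : B.Long k := B.long_of_mem_base h2
    have hk' : B.Long k' := B.long_of_mem_base h5
    have g2 := h.base_subset k s h2
    have g5 := h.base_subset k' s' h5
    have g4 : A.ob (ρ k', s') = A.ob (ρ k, s) := by rw [← h.ob _ _ hk, ← h.ob _ _ hk', h4]
    have g1 : ρ k' ∈ Q := hq.step_mem_of_mem_base (ω := (ρ k, s)) (ν := (ρ k', s')) h1 g4 g2 g5
    rcases hq.two (ρ k, s) (ρ k', s') ν h1 g1 hν z g2 g5 hz with e | e | e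
    · exfalso
      rw [Prod.mk.injEq] at e
      obtain ⟨e1, rfl⟩ := e
      have hne : k ≠ k' := fun hh => h3 (by rw [hh])
      obtain ⟨τ, rfl⟩ := A.rpos_surjective (ρ k, s) z
      rw [← h.rpos hk, rpos_mem_base] at h2
      rw [e1, ← h.rpos hk', rpos_mem_base] at h5
      exact Set.disjoint_left.mp (h.disj k k' e1 hne) h2 h5
    · exact ⟨(k, s), e, h2⟩
    · exact ⟨(k', s'), e, h5⟩
  have hfin : (Ioo x y \ U).Finite := by
    refine hq.min U E hfr hE (fun ν hν z hz hzE hzU => ?_) ?_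
    · obtain ⟨ω, rfl, h2⟩ := hpar ν hν z hz hzE hzU
      rw [← h.rmap (B.long_of_mem_base h2)]
      exact (hU _).mpr ⟨bar ω, hν, B.rmap_mem_base.mpr h2⟩
    · refine (Set.Ioo_infinite (step_lo_lt_hi (A := B) (ω := (k₁, true)) hl)).mono fun z hz => ?_
      exact ⟨(hU z).mpr ⟨(k₁, true), hk₁, hz⟩,
        hq.sub (ρ k₁, true) hk₁ (h.base_subset k₁ true hz)⟩
  refine (((Set.Ioo_infinite huv).image (A.rpos_injective (k₀, true)).injOn).sdiff hE)
    (hfin.subset ?_)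
  rintro _ ⟨⟨τ, hτ, rfl⟩, hzE⟩
  have hz : A.rpos (k₀, true) τ ∈ A.base (k₀, true) :=
    A.rpos_mem_base.mpr ⟨lt_of_le_of_lt hu hτ.1, lt_of_lt_of_le hτ.2 hv⟩
  refine ⟨hq.sub (k₀, true) hk₀ hz, fun hzU => ?_⟩
  obtain ⟨⟨k, s⟩, e, h2⟩ := hpar (k₀, true) hk₀ _ hz hzE hzU
  have hk : B.Long k := B.long_of_mem_base h2
  rw [← e, ← h.rpos hk, rpos_mem_base] at h2
  exact Set.disjoint_left.mp (hgap k (congrArg Prod.fst e)) h2 hτ

end Lift

end Skel

end Pool.Agent.Lib.MP_d87150_al
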