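import Pool.Agent.Lib.MP_d87150_al.Cut
import Pool.Agent.Lib.MP_d87150_al.Step

/-!
# Process II on systems
-/

set_option autoImplicit false

noncomputable section

namespace Pool.Agent.Lib.MP_d87150_al

open Set

variable {Λ T G V : Type} [AddCommGroup Λ] [LinearOrder Λ] [IsOrderedAddMonoid Λ] [Group G]
  [MulAction G T] [AddCommGroup V] [LinearOrder V] [IsOrderedAddMonoid V] {𝒜 : Amb Λ T G V}
  {O J : Type} [Fintype J] {π : V →+ ℝ}

namespace Sys

section Step2Aux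

omit [Fintype J] [IsOrderedAddMonoid V] in
theorem step2_not_long (S : Sys 𝒜 O J) {k : J} {x : ℝ} (h : ∀ t ∈ (S.B k).F, π t = x) :
    ¬ (S.skel π).Long k := by
  have h1 : (S.skel π).a k = x := h _ (Finset.min'_mem _ _)
  have h2 : (S.skel π).b k = x := h _ (Finset.max'_mem _ _)
  unfold Skel.Long
  rw [h1, h2]
  exact lt_irrefl x

omit [Fintype J] in
theorem step2_valid (S : Sys 𝒜 O J) {k : J} {t : V} (h1 : (S.B k).F.min' (S.B k).ne ≤ t)
    (h2 : t ≤ (S.B k).F.max' (S.B k).ne) : (S.B k).ValidAt S.C t :=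
  (S.valid k _ (Finset.min'_mem _ _)).between (S.valid k _ (Finset.max'_mem _ _)) h1 h2

/-- The fibres of the three pieces of a trimmed band. -/
def step2F (S : Sys 𝒜 O J) (a' b' : J → V) (p : J × Option Bool) : Finset V :=
  match p.2 with
  | none => insert (a' p.1) (insert (b' p.1)
      ((S.B p.1).F.filter fun t => a' p.1 ≤ t ∧ t ≤ b' p.1))
  | some false => insert (a' p.1) ((S.B p.1).F.filter fun t => t ≤ a' p.1)
  | some true => insert (b' p.1) ((S.B p.1).F.filter fun t => b' p.1 ≤ t)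

omit [Fintype J] [IsOrderedAddMonoid V] in
theorem step2F_none (S : Sys 𝒜 O J) (a' b' : J → V) (k : J) (t : V) :
    t ∈ S.step2F a' b' (k, none) ↔
      t = a' k ∨ t = b' k ∨ (t ∈ (S.B k).F ∧ a' k ≤ t ∧ t ≤ b' k) := by
  simp [step2F]

omit [Fintype J] [IsOrderedAddMonoid V] in
theorem step2F_false (S : Sys 𝒜 O J) (a' b' : J → V) (k : J) (t : V) :
    t ∈ S.step2F a' b' (k, some false) ↔ t = a' k ∨ (t ∈ (S.B k).F ∧ t ≤ a' k) := by
  simp [step2F]

omit [Fintype J] [IsOrderedAddMonoid V] in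
theorem step2F_true (S : Sys 𝒜 O J) (a' b' : J → V) (k : J) (t : V) :
    t ∈ S.step2F a' b' (k, some true) ↔ t = b' k ∨ (t ∈ (S.B k).F ∧ b' k ≤ t) := by
  simp [step2F]

end Step2Aux

/-- Splitting off short pieces at both ends of every band; `ι k` is the main piece. -/
theorem exists_trim (S : Sys 𝒜 O J) (hπ : Monotone π) (a' b' : J → V)
    (ha : ∀ k, (S.B k).F.min' (S.B k).ne ≤ a' k) (hab : ∀ k, a' k ≤ b' k)
    (hb : ∀ k, b' k ≤ (S.B k).F.max' (S.B k).ne)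
    (hπa : ∀ k, π (a' k) = (S.skel π).a k) (hπb : ∀ k, π (b' k) = (S.skel π).b k) :
    ∃ (J' : Type) (_ : Fintype J') (S' : Sys 𝒜 O J') (ρ : J' → J) (ι : J → J'),
      (∀ k, ρ (ι k) = k) ∧ (∀ k', (S'.skel π).Long k' → k' = ι (ρ k')) ∧
      (∀ k', (S'.B k').en = (S.B (ρ k')).en ∧ (S'.B k').sg = (S.B (ρ k')).sg ∧
        (S'.B k').off = (S.B (ρ k')).off) ∧
      (∀ k, (S'.B (ι k)).F.min' (S'.B (ι k)).ne = a' k ∧
        (S'.B (ι k)).F.max' (S'.B (ι k)).ne = b' k) ∧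
      (S'.IsGood → S.IsGood) := by
  have ne : ∀ p : J × Option Bool, (S.step2F a' b' p).Nonempty := by
    rintro ⟨k, _ | _ | _⟩
    · exact ⟨a' k, (S.step2F_none a' b' k _).2 (Or.inl rfl)⟩
    · exact ⟨a' k, (S.step2F_false a' b' k _).2 (Or.inl rfl)⟩
    · exact ⟨b' k, (S.step2F_true a' b' k _).2 (Or.inl rfl)⟩
  have hva : ∀ k, (S.B k).ValidAt S.C (a' k) := fun k =>
    S.step2_valid (ha k) ((hab k).trans (hb k))
  have hvb : ∀ k, (S.B k).ValidAt S.C (b' k) := fun k =>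
    S.step2_valid ((ha k).trans (hab k)) (hb k)
  have hv : ∀ p : J × Option Bool, ∀ t ∈ S.step2F a' b' p, (S.B p.1).ValidAt S.C t := by
    rintro ⟨k, _ | _ | _⟩ t ht
    · rcases (S.step2F_none a' b' k _).1 ht with rfl | rfl | h
      · exact hva k
      · exact hvb k
      · exact S.valid k t h.1
    · rcases (S.step2F_false a' b' k _).1 ht with rfl | h
      · exact hva k
      · exact S.valid k t h.1
    · rcases (S.step2F_true a' b' k _).1 ht with rfl | h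
      · exact hvb k
      · exact S.valid k t h.1
  let S' : Sys 𝒜 O (J × Option Bool) :=
    S.refine Prod.fst id (S.step2F a' b') ne (fun p => (S.B p.1).en) (fun _ _ => rfl) hv
  have hF : ∀ p, (S'.B p).F = S.step2F a' b' p := fun _ => rfl
  refine ⟨J × Option Bool, inferInstance, S', Prod.fst, fun k => (k, none), fun _ => rfl, ?_,
    fun _ => ⟨rfl, rfl, rfl⟩, fun k => ⟨?_, ?_⟩, fun hg => ?_⟩
  · rintro ⟨k, _ | _ | _⟩ hl
    · rfl
    · refine absurd hl (S'.step2_not_long (x := (S.skel π).a k) fun t ht => ?_)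
      rw [hF] at ht
      rcases (S.step2F_false a' b' k _).1 ht with rfl | h
      · exact hπa k
      · exact le_antisymm ((hπ h.2).trans (hπa k).le) (S.a_le_level hπ h.1)
    · refine absurd hl (S'.step2_not_long (x := (S.skel π).b k) fun t ht => ?_)
      rw [hF] at ht
      rcases (S.step2F_true a' b' k _).1 ht with rfl | h
      · exact hπb k
      · exact le_antisymm (S.level_le_b hπ h.1) ((hπb k).ge.trans (hπ h.2))
  · rw [Finset.min'_eq_iff]
    refine ⟨(S.step2F_none a' b' k _).2 (Or.inl rfl), fun t ht => ?_⟩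
    rcases (S.step2F_none a' b' k _).1 ht with rfl | rfl | h
    · exact le_rfl
    · exact hab k
    · exact h.2.1
  · rw [Finset.max'_eq_iff]
    refine ⟨(S.step2F_none a' b' k _).2 (Or.inr (Or.inl rfl)), fun t ht => ?_⟩
    rcases (S.step2F_none a' b' k _).1 ht with rfl | rfl | h
    · exact hab k
    · exact le_rfl
    · exact h.2.2
  · refine good_of_refines (S' := S') (ρ := Prod.fst) (pa := id)
      ⟨fun _ _ => rfl, fun _ => rfl, fun _ => rfl, fun _ => rfl, fun o _ => o, fun k t ht => ?_⟩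
      (Good.mono hg fun c hc => ⟨hc, ?_⟩)
    · rcases le_total t (a' k) with h1 | h1
      · exact ⟨(k, some false), rfl, (S.step2F_false a' b' k _).2 (Or.inr ⟨ht, h1⟩), fun _ => rfl⟩
      · rcases le_total t (b' k) with h2 | h2
        · exact ⟨(k, none), rfl, (S.step2F_none a' b' k _).2 (Or.inr (Or.inr ⟨ht, h1, h2⟩)),
            fun _ => rfl⟩
        · exact ⟨(k, some true), rfl, (S.step2F_true a' b' k _).2 (Or.inr ⟨ht, h2⟩), fun _ => rfl⟩
    · obtain ⟨β, hβ⟩ := hc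
      have key : ∀ k i, c (k, i) = c (k, none) := by
        rintro k (_ | _ | _)
        · rfl
        · rw [hβ (k, some false) (a' k) ((S.step2F_false a' b' k _).2 (Or.inl rfl)),
            hβ (k, none) (a' k) ((S.step2F_none a' b' k _).2 (Or.inl rfl))]
          rfl
        · rw [hβ (k, some true) (b' k) ((S.step2F_true a' b' k _).2 (Or.inl rfl)),
            hβ (k, none) (b' k) ((S.step2F_none a' b' k _).2 (Or.inr (Or.inl rfl)))]
          rfl
      rintro ⟨k, i⟩ ⟨k', i'⟩ h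
      obtain rfl : k = k' := h
      rw [key k i, key k i']

omit [Fintype J] in
/-- The fibres of a base inside the base `l` that are certainly parallel to fibres of `l`. -/
theorem step2_window (S : Sys 𝒜 O J) {l ω : J × Bool}
    (h1 : (S.skel π).lo l ≤ (S.skel π).lo ω) (h2 : (S.skel π).hi ω ≤ (S.skel π).hi l) :
    ∃ x y : V, π x ≤ (S.skel π).a ω.1 ∧ (S.skel π).b ω.1 ≤ π y ∧ ∀ t, x ≤ t → t ≤ y →
      ∃ t₀, (S.B l.1).F.min' (S.B l.1).ne ≤ t₀ ∧ t₀ ≤ (S.B l.1).F.max' (S.B l.1).ne ∧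
        (S.B ω.1).pos ω.2 t = (S.B l.1).pos l.2 t₀ := by
  have ea : π ((S.B l.1).F.min' (S.B l.1).ne) = (S.skel π).a l.1 := rfl
  have eb : π ((S.B l.1).F.max' (S.B l.1).ne) = (S.skel π).b l.1 := rfl
  have e1 : (S.skel π).sg l = (S.B l.1).sg l.2 := rfl
  have e2 : (S.skel π).sg ω = (S.B ω.1).sg ω.2 := rfl
  have e3 : (S.skel π).off l = (S.B l.1).off l.2 := rfl
  have e4 : (S.skel π).off ω = (S.B ω.1).off ω.2 := rfl
  simp only [Skel.lo, Skel.hi, Skel.rpos, e1, e2, e3, e4] at h1 h2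
  simp only [Band.pos]
  generalize (S.B l.1).F.min' (S.B l.1).ne = p at ea ⊢
  generalize (S.B l.1).F.max' (S.B l.1).ne = q at eb ⊢
  generalize (S.B l.1).off l.2 = c at h1 h2 ⊢
  generalize (S.B ω.1).off ω.2 = d at h1 h2 ⊢
  rcases Int.units_eq_one_or ((S.B l.1).sg l.2) with hl | hl <;>
    rcases Int.units_eq_one_or ((S.B ω.1).sg ω.2) with hω | hω <;>
    simp only [hl, hω, if_true, one_smul, Units.neg_smul,
      show ¬ ((-1 : ℤˣ) = 1) by decide, if_false] at h1 h2 ⊢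
  · refine ⟨p + c - d, q + c - d, ?_, ?_, fun t ht ht' => ⟨t + d - c, ?_, ?_, ?_⟩⟩
    · rw [map_sub, map_add]; linarith
    · rw [map_sub, map_add]; linarith
    · grind
    · grind
    · abel
  · refine ⟨d - (q + c), d - (p + c), ?_, ?_, fun t ht ht' => ⟨-t + d - c, ?_, ?_, ?_⟩⟩
    · rw [map_sub, map_add]; linarith
    · rw [map_sub, map_add]; linarith
    · grind
    · grind
    · abel
  · refine ⟨c - q - d, c - p - d, ?_, ?_, fun t ht ht' => ⟨c - (t + d), ?_, ?_, ?_⟩⟩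
    · rw [map_sub, map_sub]; linarith
    · rw [map_sub, map_sub]; linarith
    · grind
    · grind
    · abel
  · refine ⟨p + d - c, q + d - c, ?_, ?_, fun t ht ht' => ⟨t + c - d, ?_, ?_, ?_⟩⟩
    · rw [map_sub, map_add]; linarith
    · rw [map_sub, map_add]; linarith
    · grind
    · grind
    · abel

omit [Fintype J] in
theorem step2_ends (S : Sys 𝒜 O J) (hπ : Monotone π) {l : J × Bool} {m : ℝ}
    (hc : (S.skel π).Carrier l m) (k : J) :
    ∃ x y : V, (S.B k).F.min' (S.B k).ne ≤ x ∧ x ≤ y ∧ y ≤ (S.B k).F.max' (S.B k).ne ∧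
      π x = (S.skel π).a k ∧ π y = (S.skel π).b k ∧
      (k = l.1 → x = (S.B k).F.min' (S.B k).ne ∧ y = (S.B k).F.max' (S.B k).ne) ∧
      ∀ s, (S.skel π).Slid l (k, s) → ∀ t, x ≤ t → t ≤ y →
        ∃ t₀, (S.B l.1).F.min' (S.B l.1).ne ≤ t₀ ∧ t₀ ≤ (S.B l.1).F.max' (S.B l.1).ne ∧
          (S.B k).pos s t = (S.B l.1).pos l.2 t₀ := by
  by_cases h : ∃ s, (S.skel π).Slid l (k, s)
  · have hw : ∀ s, ∃ x y : V, π x ≤ (S.skel π).a k ∧ (S.skel π).b k ≤ π y ∧
        ((S.skel π).Slid l (k, s) → ∀ t, x ≤ t → t ≤ y →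
        ∃ t₀, (S.B l.1).F.min' (S.B l.1).ne ≤ t₀ ∧ t₀ ≤ (S.B l.1).F.max' (S.B l.1).ne ∧
          (S.B k).pos s t = (S.B l.1).pos l.2 t₀) := by
      intro s
      by_cases hs : (S.skel π).Slid l (k, s)
      · obtain ⟨x, y, h1, h2, h3⟩ :=
          S.step2_window (ω := (k, s)) (hc.min (k, s) hs.2.1 hs.2.2.1) hs.2.2.2
        exact ⟨x, y, h1, h2, fun _ => h3⟩
      · exact ⟨(S.B k).F.min' (S.B k).ne, (S.B k).F.max' (S.B k).ne, le_rfl, le_rfl,
          fun h' => absurd h' hs⟩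
    choose x y hx hy hxy using hw
    obtain ⟨s₀, hs₀⟩ := h
    have hlong : (S.skel π).a k < (S.skel π).b k := hs₀.2.1
    have ea : π ((S.B k).F.min' (S.B k).ne) = (S.skel π).a k := rfl
    have eb : π ((S.B k).F.max' (S.B k).ne) = (S.skel π).b k := rfl
    have e1 : π (max ((S.B k).F.min' (S.B k).ne) (max (x false) (x true))) = (S.skel π).a k := by
      rw [hπ.map_max, hπ.map_max, ea]
      exact max_eq_left (max_le (hx false) (hx true))
    have e2 : π (min ((S.B k).F.max' (S.B k).ne) (min (y false) (y true))) = (S.skel π).b k := by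
      rw [hπ.map_min, hπ.map_min, eb]
      exact min_eq_left (le_min (hy false) (hy true))
    refine ⟨_, _, le_max_left _ _, ?_, min_le_left _ _, e1, e2, fun hk => ?_,
      fun s hs t h1 h2 => hxy s hs t ?_ ?_⟩
    · refine (hπ.reflect_lt ?_).le
      rw [e1, e2]
      exact hlong
    · exfalso
      obtain ⟨k', s'⟩ := l
      obtain rfl : k = k' := hk
      by_cases hs : s₀ = s'
      · exact hs₀.1 (by rw [hs])
      · refine hc.not_slid_bar ?_
        have : bar (k, s') = (k, s₀) := by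
          cases s₀ <;> cases s' <;> simp_all [bar]
        rw [this]
        exact hs₀
    · refine le_trans ?_ h1
      cases s
      · exact le_max_of_le_right (le_max_left _ _)
      · exact le_max_of_le_right (le_max_right _ _)
    · refine le_trans h2 ?_
      cases s
      · exact min_le_of_right_le (min_le_left _ _)
      · exact min_le_of_right_le (min_le_right _ _)
  · exact ⟨_, _, le_rfl, Finset.min'_le_max' _ _, le_rfl, rfl, rfl, fun _ => ⟨rfl, rfl⟩,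
      fun s hs => absurd ⟨s, hs⟩ h⟩

/-- After trimming, the bases to be slid lie inside the carrier also infinitesimally. -/
theorem exists_inside (S : Sys 𝒜 O J) (hπ : Monotone π) {l : J × Bool} {m : ℝ}
    (hc : (S.skel π).Carrier l m) :
    ∃ (J' : Type) (_ : Fintype J') (S' : Sys 𝒜 O J') (ρ : J' → J) (l' : J' × Bool),
      (S'.skel π).Carrier l' m ∧
      Skel.Iso ((S'.skel π).step l' m) ((S.skel π).step l m) ρ id ∧
      (∀ ω, (S'.skel π).Slid l' ω → ∀ t ∈ (S'.B ω.1).F, ∃ t₀,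
        (S'.B l'.1).F.min' (S'.B l'.1).ne ≤ t₀ ∧ t₀ ≤ (S'.B l'.1).F.max' (S'.B l'.1).ne ∧
        (S'.B ω.1).pos ω.2 t = (S'.B l'.1).pos l'.2 t₀) ∧
      (S'.IsGood → S.IsGood) := by
  choose a' b' ha hab hb hπa hπb hl hin using S.step2_ends hπ hc
  obtain ⟨J', _, S', ρ, ι, hρ, hι, hd, hmm, hg⟩ := S.exists_trim hπ a' b' ha hab hb hπa hπb
  have ea : ∀ k, (S'.skel π).a (ι k) = (S.skel π).a k := fun k =>
    (congrArg π (hmm k).1).trans (hπa k)
  have eb : ∀ k, (S'.skel π).b (ι k) = (S.skel π).b k := fun k =>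
    (congrArg π (hmm k).2).trans (hπb k)
  have hob : ∀ k s, (S'.skel π).ob (k, s) = (S.skel π).ob (ρ k, s) := fun k s =>
    congrFun (hd k).1 s
  have hiso : Skel.Iso (S'.skel π) (S.skel π) ρ id := by
    refine ⟨⟨fun k hk => ?_, fun k hk => ?_, fun k s _ => congrFun (hd k).2.1 s,
      fun k s _ => congrFun (hd k).2.2 s, fun k s _ => hob k s, fun k k' h hne => ?_,
      fun k s k' s' h _ => ?_⟩, fun k _ => ⟨ι k, hρ k, ea k, eb k⟩, fun k s k' s' _ _ h => ?_⟩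
    · rw [← ea (ρ k), ← hι k hk]
    · rw [← eb (ρ k), ← hι k hk]
    · by_cases h1 : (S'.skel π).Long k
      · by_cases h2 : (S'.skel π).Long k'
        · exact absurd ((hι k h1).trans ((congrArg ι h).trans (hι k' h2).symm)) hne
        · rw [Ioo_eq_empty h2]
          exact disjoint_empty _
      · rw [Ioo_eq_empty h1]
        exact empty_disjoint _
    · rw [hob, hob, h]
    · rw [hob, hob, h]
  obtain ⟨l', hl', hc', hst⟩ := hiso.lift_carrier hc
  refine ⟨J', inferInstance, S', ρ, l', hc', hst, fun ω hω t ht => ?_, hg⟩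
  have hs := (hiso.slid_iff hc'.long hω.2.1).1 hω
  rw [hl'] at hs
  have e1 : ω.1 = ι (ρ ω.1) := hι _ hω.2.1
  have e2 : l'.1 = ι (ρ l'.1) := hι _ hc'.long
  have e3 : ρ l'.1 = l.1 := congrArg Prod.fst hl'
  have e4 : l'.2 = l.2 := congrArg Prod.snd hl'
  have h1 : a' (ρ ω.1) ≤ t := by
    rw [← (hmm _).1]
    exact Finset.min'_le _ _ (e1 ▸ ht)
  have h2 : t ≤ b' (ρ ω.1) := by
    rw [← (hmm _).2]
    exact Finset.le_max' _ _ (e1 ▸ ht)
  obtain ⟨t₀, h3, h4, h5⟩ := hin (ρ ω.1) ω.2 hs t h1 h2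
  have e5 : l'.1 = ι l.1 := by rw [e2, e3]
  refine ⟨t₀, ?_, ?_, ?_⟩
  · have := (hmm l.1).1.trans (hl l.1 rfl).1
    rw [← e5] at this
    rw [this]
    exact h3
  · have := (hmm l.1).2.trans (hl l.1 rfl).2
    rw [← e5] at this
    rw [this]
    exact h4
  · simp only [Band.pos] at h5 ⊢
    rw [(hd ω.1).2.1, (hd ω.1).2.2, (hd l'.1).2.1, (hd l'.1).2.2, e3, e4]
    exact h5

omit [Fintype J] [IsOrderedAddMonoid V] in
theorem step2_skel_setF (S : Sys 𝒜 O J) {F : J → Finset V} {ne : ∀ k, (F k).Nonempty}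
    {hv : ∀ k, ∀ t ∈ F k, (S.B k).ValidAt S.C t}
    (h1 : ∀ k, (F k).min' (ne k) = (S.B k).F.min' (S.B k).ne)
    (h2 : ∀ k, (F k).max' (ne k) = (S.B k).F.max' (S.B k).ne) :
    (S.setF F ne hv).skel π = S.skel π := by
  have ea : ((S.setF F ne hv).skel π).a = (S.skel π).a := funext fun k => congrArg π (h1 k)
  have eb : ((S.setF F ne hv).skel π).b = (S.skel π).b := funext fun k => congrArg π (h2 k)
  have e : (S.setF F ne hv).skel π = ⟨((S.setF F ne hv).skel π).a, ((S.setF F ne hv).skel π).b,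
    (S.skel π).ob, (S.skel π).sg, (S.skel π).off⟩ := rfl
  rw [e, ea, eb]

/-- Adding fibres to one band inside its range. -/
theorem step2_add (S : Sys 𝒜 O J) (π : V →+ ℝ) (k₀ : J) {X : Set V} (hX : X.Finite)
    (h : ∀ t ∈ X, (S.B k₀).F.min' (S.B k₀).ne ≤ t ∧ t ≤ (S.B k₀).F.max' (S.B k₀).ne) :
    ∃ S₁ : Sys 𝒜 O J, S₁.skel π = S.skel π ∧ (∀ k, k ≠ k₀ → (S₁.B k).F = (S.B k).F) ∧
      (∀ t ∈ X, t ∈ (S₁.B k₀).F) ∧ (S₁.IsGood → S.IsGood) := by
  classical
  let F : J → Finset V := fun k => if k = k₀ then (S.B k).F ∪ hX.toFinset else (S.B k).F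
  have hsub : ∀ k, (S.B k).F ⊆ F k := by
    intro k
    by_cases hk : k = k₀
    · simp only [F, if_pos hk]
      exact Finset.subset_union_left
    · simp only [F, if_neg hk]
      exact subset_rfl
  have hbd : ∀ k, ∀ t ∈ F k, (S.B k).F.min' (S.B k).ne ≤ t ∧ t ≤ (S.B k).F.max' (S.B k).ne := by
    intro k t ht
    by_cases hk : k = k₀
    · subst hk
      simp only [F, if_true, Finset.mem_union, Finite.mem_toFinset] at ht
      rcases ht with ht | ht
      · exact ⟨Finset.min'_le _ _ ht, Finset.le_max' _ _ ht⟩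
      · exact h t ht
    · simp only [F, if_neg hk] at ht
      exact ⟨Finset.min'_le _ _ ht, Finset.le_max' _ _ ht⟩
  have ne : ∀ k, (F k).Nonempty := fun k => (S.B k).ne.mono (hsub k)
  have hv : ∀ k, ∀ t ∈ F k, (S.B k).ValidAt S.C t := fun k t ht =>
    S.step2_valid (hbd k t ht).1 (hbd k t ht).2
  refine ⟨S.setF F ne hv, S.step2_skel_setF (fun k => ?_) (fun k => ?_), fun k hk => ?_,
    fun t ht => ?_, good_of_setF_superset hsub⟩
  · rw [Finset.min'_eq_iff]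
    exact ⟨hsub k (Finset.min'_mem _ _), fun t ht => (hbd k t ht).1⟩
  · rw [Finset.max'_eq_iff]
    exact ⟨hsub k (Finset.max'_mem _ _), fun t ht => (hbd k t ht).2⟩
  · change F k = _
    simp only [F, if_neg hk]
  · change t ∈ F k₀
    simp only [F, if_true, Finset.mem_union, Finite.mem_toFinset]
    exact Or.inr ht

omit [Fintype J] in
/-- A point over the open base lies on a fibre in the range of the band. -/
theorem step2_lift (S : Sys 𝒜 O J) (hπ : Monotone π) {l : J × Bool} {w : V}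
    (hw : π w ∈ (S.skel π).base l) :
    ∃ t₀, (S.B l.1).F.min' (S.B l.1).ne ≤ t₀ ∧ t₀ ≤ (S.B l.1).F.max' (S.B l.1).ne ∧
      w = (S.B l.1).pos l.2 t₀ := by
  have e : w = (S.B l.1).pos l.2 ((S.B l.1).sg l.2 • (w - (S.B l.1).off l.2)) := by
    simp only [Band.pos, smul_smul, Int.units_mul_self, one_smul, sub_add_cancel]
  have e' : π w = (S.skel π).rpos l (π ((S.B l.1).sg l.2 • (w - (S.B l.1).off l.2))) := by
    rw [← S.lvl_eq]
    exact congrArg π e
  rw [e', Skel.rpos_mem_base] at hw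
  exact ⟨_, (hπ.reflect_lt hw.1).le, (hπ.reflect_lt hw.2).le, e⟩

omit [Fintype J] [IsOrderedAddMonoid V] [LinearOrder V] in
theorem step2_lo_congr {L' O' : Type} {A : Skel π J O} {B : Skel π L' O'} {ω : J × Bool}
    {ω' : L' × Bool} (ha : B.a ω'.1 = A.a ω.1) (hb : B.b ω'.1 = A.b ω.1) (hs : B.sg ω' = A.sg ω)
    (ho : B.off ω' = A.off ω) : B.lo ω' = A.lo ω ∧ B.hi ω' = A.hi ω := by
  simp only [Skel.lo, Skel.hi, Skel.rpos, ha, hb, hs, ho, and_self]

omit [Fintype J] [IsOrderedAddMonoid V] [LinearOrder V] in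
theorem step2_ab_congr {L' O' : Type} {A : Skel π J O} {B : Skel π L' O'} {ω : J × Bool}
    {ω' : L' × Bool} (hs : B.sg ω' = A.sg ω) (ho : B.off ω' = A.off ω) (h1 : B.lo ω' = A.lo ω)
    (h2 : B.hi ω' = A.hi ω) : B.a ω'.1 = A.a ω.1 ∧ B.b ω'.1 = A.b ω.1 := by
  have e : ∀ τ, B.rpos ω' τ = A.rpos ω τ := fun τ => by simp only [Skel.rpos, hs, ho]
  simp only [Skel.lo, Skel.hi, hs, e] at h1 h2
  by_cases h : A.sg ω = 1
  · rw [if_pos h, if_pos h] at h1 h2
    exact ⟨A.rpos_injective ω h1, A.rpos_injective ω h2⟩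
  · rw [if_neg h, if_neg h] at h1 h2
    exact ⟨A.rpos_injective ω h2, A.rpos_injective ω h1⟩

omit [Fintype J] [IsOrderedAddMonoid V] [LinearOrder V] in
theorem step2_ne_of_slid {A : Skel π J O} {l ω : J × Bool} {m : ℝ} (hc : A.Carrier l m)
    (hs : A.Slid l ω) : ω.1 ≠ l.1 := by
  intro h
  obtain ⟨k, s⟩ := ω
  obtain ⟨k', s'⟩ := l
  obtain rfl : k = k' := h
  by_cases h' : s = s'
  · exact hs.1 (by rw [h'])
  · refine hc.not_slid_bar ?_
    have : bar (k, s') = (k, s) := by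
      cases s <;> cases s' <;> simp_all [bar]
    rw [this]
    exact hs

/-- Sliding when every fibre to be slid is parallel to a fibre of the carrier. -/
theorem step2_slide (S : Sys 𝒜 O J) (hπ : Monotone π) {l : J × Bool} {m : ℝ}
    (hc : (S.skel π).Carrier l m)
    (hin : ∀ ω, ((S.skel π).Slid l ω ∨ (¬ (S.skel π).Long ω.1 ∧
      (S.skel π).ob ω = (S.skel π).ob l ∧ (S.skel π).lo ω ∈ Ioo ((S.skel π).lo l) m)) →
      ∀ t ∈ (S.B ω.1).F, ∃ t₀ ∈ (S.B l.1).F, (S.B ω.1).pos ω.2 t = (S.B l.1).pos l.2 t₀) :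
    ∃ S' : Sys 𝒜 O J, (∀ k, (S'.B k).F = (S.B k).F) ∧
      (∀ ω, (S.skel π).Long ω.1 → (S'.skel π).ob ω = ((S.skel π).step l m).ob ω ∧
        (S'.skel π).sg ω = ((S.skel π).step l m).sg ω ∧
        (S'.skel π).off ω = ((S.skel π).step l m).off ω) ∧
      (∀ ω, ω ≠ l → (S'.skel π).ob ω = (S.skel π).ob l → ∀ t ∈ (S'.B ω.1).F,
        S'.lvl π ω t ∉ Ioo ((S.skel π).lo l) m ∧ ((S.skel π).Long ω.1 → m ≤ S'.lvl π ω t)) ∧
      (S'.IsGood → S.IsGood) := by
  obtain ⟨S', hF, h1, h2, hg⟩ := S.exists_slide π l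
    (fun ω => (S.skel π).Slid l ω ∨ (¬ (S.skel π).Long ω.1 ∧
      (S.skel π).ob ω = (S.skel π).ob l ∧ (S.skel π).lo ω ∈ Ioo ((S.skel π).lo l) m))
    (fun ω h => h.elim (step2_ne_of_slid hc) fun h' e => h'.1 (e ▸ hc.long))
    (fun ω h => h.elim (fun h' => h'.2.2.1) fun h' => h'.2.1) hin
  refine ⟨S', hF, fun ω hω => ?_, fun ω hne ho t ht => ?_, hg⟩
  · by_cases hs : (S.skel π).Slid l ω
    · simp only [Skel.step, if_pos hs]
      exact h2 ω (Or.inl hs)
    · simp only [Skel.step, if_neg hs]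
      exact h1 ω fun h => h.elim hs fun h' => h'.1 hω
  · rw [hF] at ht
    by_cases hs : (S.skel π).Slid l ω ∨ (¬ (S.skel π).Long ω.1 ∧
      (S.skel π).ob ω = (S.skel π).ob l ∧ (S.skel π).lo ω ∈ Ioo ((S.skel π).lo l) m)
    · obtain ⟨e1, e2, e3⟩ := h2 ω hs
      obtain ⟨t₀, ht₀, e4⟩ := hin ω hs t ht
      have e5 : (S'.B ω.1).pos ω.2 t = (S.B l.1).pos (!l.2) t₀ := by
        rw [← S.vmap_pos (π := π) l t₀, ← e4]
        change (S'.skel π).sg ω • t + (S'.skel π).off ω =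
          (S.skel π).vsg l • ((S.skel π).sg ω • t + (S.skel π).off ω) + _
        rw [e2, e3, smul_add, mul_smul, add_assoc]
      have e6 : S'.lvl π ω t = S.lvl π (bar l) t₀ := congrArg π e5
      have h3 : m ≤ S'.lvl π ω t := by
        rw [e6]
        exact (hc.le_lo_bar (e1.symm.trans ho)).trans (S.lvl_mem_Icc hπ (ω := bar l) ht₀).1
      exact ⟨fun h => absurd h.2 (not_lt.2 h3), fun _ => h3⟩
    · obtain ⟨e1, e2, e3⟩ := h1 ω hs
      have e6 : S'.lvl π ω t = S.lvl π ω t := by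
        change π ((S'.skel π).sg ω • t + (S'.skel π).off ω) =
          π ((S.skel π).sg ω • t + (S.skel π).off ω)
        rw [e2, e3]
      have ho' : (S.skel π).ob ω = (S.skel π).ob l := e1.symm.trans ho
      have hI := S.lvl_mem_Icc hπ (ω := ω) ht
      rw [e6]
      by_cases hl : (S.skel π).Long ω.1
      · have h3 : m ≤ S.lvl π ω t := by
          refine (hc.le_lo ω hl ho' (not_le.1 fun h => hs (Or.inl ⟨hne, hl, ho', h⟩))).trans hI.1
        exact ⟨fun h => absurd h.2 (not_lt.2 h3), fun _ => h3⟩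
      · refine ⟨fun h => hs (Or.inr ⟨hl, ho', ?_⟩), fun h => absurd h hl⟩
        have h4 := (S.skel π).hi_sub_lo ω
        have h5 : (S.skel π).b ω.1 ≤ (S.skel π).a ω.1 := not_lt.1 hl
        have h6 : (S.skel π).lo ω = S.lvl π ω t := by linarith [hI.1, hI.2]
        rw [h6]
        exact h

/-- Dropping the fibres of the carrier over an interval that carries no other marked point. -/
theorem step2_drop (S : Sys 𝒜 O J) (π : V →+ ℝ) {l : J × Bool} {u m : ℝ}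
    (hu : (S.skel π).lo l ≤ u) (hm : m ≤ (S.skel π).hi l)
    (h : ∀ ω, ω ≠ l → (S.skel π).ob ω = (S.skel π).ob l → ∀ t ∈ (S.B ω.1).F,
      S.lvl π ω t ∉ Ioo u m) :
    ∃ S' : Sys 𝒜 O J, S'.skel π = S.skel π ∧
      (∀ k, ∀ t ∈ (S'.B k).F, t ∈ (S.B k).F) ∧
      (∀ t ∈ (S'.B l.1).F, S.lvl π l t ∉ Ioo u m) ∧
      (∀ t ∈ (S.B l.1).F, S.lvl π l t ∉ Ioo u m → t ∈ (S'.B l.1).F) ∧
      (S'.IsGood → S.IsGood) := by
  classical
  let F : J → Finset V := fun k =>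
    if k = l.1 then (S.B k).F.filter fun t => S.lvl π l t ∉ Ioo u m else (S.B k).F
  have hsub : ∀ k, F k ⊆ (S.B k).F := by
    intro k
    by_cases hk : k = l.1
    · simp only [F, if_pos hk]
      exact Finset.filter_subset _ _
    · simp only [F, if_neg hk]
      exact subset_rfl
  have hFl : ∀ t, t ∈ F l.1 ↔ t ∈ (S.B l.1).F ∧ S.lvl π l t ∉ Ioo u m := by
    intro t
    simp only [F, if_true, Finset.mem_filter]
  have hend : ∀ t, S.lvl π l t ∈ Ioo u m → π t ∈ Ioo ((S.skel π).a l.1) ((S.skel π).b l.1) := by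
    intro t ht
    rw [← Skel.rpos_mem_base, ← S.lvl_eq]
    exact ⟨hu.trans_lt ht.1, ht.2.trans_le hm⟩
  have hmin : ∀ k, (S.B k).F.min' (S.B k).ne ∈ F k := by
    intro k
    by_cases hk : k = l.1
    · subst hk
      exact (hFl _).2 ⟨Finset.min'_mem _ _, fun h' => lt_irrefl _ (hend _ h').1⟩
    · simp only [F, if_neg hk]
      exact Finset.min'_mem _ _
  have hmax : ∀ k, (S.B k).F.max' (S.B k).ne ∈ F k := by
    intro k
    by_cases hk : k = l.1
    · subst hk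
      exact (hFl _).2 ⟨Finset.max'_mem _ _, fun h' => lt_irrefl _ (hend _ h').2⟩
    · simp only [F, if_neg hk]
      exact Finset.max'_mem _ _
  have ne : ∀ k, (F k).Nonempty := fun k => ⟨_, hmin k⟩
  have hv : ∀ k, ∀ t ∈ F k, (S.B k).ValidAt S.C t := fun k t ht => S.valid k t (hsub k ht)
  refine ⟨S.setF F ne hv, S.step2_skel_setF (fun k => ?_) (fun k => ?_),
    fun k t ht => hsub k ht, fun t ht => ((hFl t).1 ht).2, fun t ht ht' => (hFl t).2 ⟨ht, ht'⟩,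
    good_of_setF_drop l (fun k hk => ?_) (hsub _) fun t ht ht' ω hω ho t' ht'' e => ?_⟩
  · rw [Finset.min'_eq_iff]
    exact ⟨hmin k, fun t ht => Finset.min'_le _ _ (hsub k ht)⟩
  · rw [Finset.max'_eq_iff]
    exact ⟨hmax k, fun t ht => Finset.le_max' _ _ (hsub k ht)⟩
  · simp only [F, if_neg hk]
  · refine h ω hω ho t' ht'' ?_
    have e' : S.lvl π ω t' = S.lvl π l t := congrArg π e
    rw [e']
    by_contra h'
    exact ht' ((hFl t).2 ⟨ht, h'⟩)

/-- Everything before the cut. -/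
theorem step2_prep (S : Sys 𝒜 O J) (hπ : Monotone π) {l : J × Bool} {m : ℝ}
    (hc : (S.skel π).Carrier l m)
    (hin : ∀ ω, (S.skel π).Slid l ω → ∀ t ∈ (S.B ω.1).F, ∃ t₀,
      (S.B l.1).F.min' (S.B l.1).ne ≤ t₀ ∧ t₀ ≤ (S.B l.1).F.max' (S.B l.1).ne ∧
      (S.B ω.1).pos ω.2 t = (S.B l.1).pos l.2 t₀) :
    ∃ S' : Sys 𝒜 O J, (S'.skel π).a = (S.skel π).a ∧ (S'.skel π).b = (S.skel π).b ∧
      (∀ ω, (S.skel π).Long ω.1 → (S'.skel π).ob ω = ((S.skel π).step l m).ob ω ∧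
        (S'.skel π).sg ω = ((S.skel π).step l m).sg ω ∧
        (S'.skel π).off ω = ((S.skel π).step l m).off ω) ∧
      (∀ ω, (S'.skel π).ob ω = (S.skel π).ob l → ∀ t ∈ (S'.B ω.1).F,
        S'.lvl π ω t ∉ Ioo ((S.skel π).lo l) m) ∧
      (∀ ω, ω ≠ l → (S.skel π).Long ω.1 → (S'.skel π).ob ω = (S.skel π).ob l →
        m ≤ (S'.skel π).lo ω) ∧
      (∃ t ∈ (S'.B l.1).F, S'.lvl π l t = m) ∧
      (S'.IsGood → S.IsGood) := by
  have hm : ∃ t₀, (S.B l.1).F.min' (S.B l.1).ne ≤ t₀ ∧ t₀ ≤ (S.B l.1).F.max' (S.B l.1).ne ∧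
      S.lvl π l t₀ = m := by
    by_cases h : m = (S.skel π).hi l
    · obtain ⟨t, ht, e⟩ := S.exists_lvl_eq_hi (π := π) l
      exact ⟨t, Finset.min'_le _ _ ht, Finset.le_max' _ _ ht, e.trans h.symm⟩
    · obtain ⟨ω, -, -, -, e⟩ := hc.att.resolve_left h
      obtain ⟨t, -, e'⟩ := S.exists_lvl_eq_lo (π := π) ω
      have e2 : π ((S.B ω.1).pos ω.2 t) = m := e'.trans e
      obtain ⟨t₀, h1, h2, h3⟩ := S.step2_lift hπ (l := l) (w := (S.B ω.1).pos ω.2 t)
        (by rw [e2]; exact ⟨hc.lo_lt, lt_of_le_of_ne hc.le_hi h⟩)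
      exact ⟨t₀, h1, h2, (congrArg π h3).symm.trans e2⟩
  obtain ⟨tm, htm1, htm2, htm⟩ := hm
  have hinj : Function.Injective ((S.B l.1).pos l.2) := by
    intro t t' h
    simp only [Band.pos, add_left_inj] at h
    exact MulAction.injective _ h
  let X : Set V := {t₀ | (S.B l.1).F.min' (S.B l.1).ne ≤ t₀ ∧ t₀ ≤ (S.B l.1).F.max' (S.B l.1).ne ∧
    ∃ ω : J × Bool, ∃ t ∈ (S.B ω.1).F, (S.B ω.1).pos ω.2 t = (S.B l.1).pos l.2 t₀}
  have hX : X.Finite := by
    have h1 : (⋃ ω : J × Bool, (S.B ω.1).pos ω.2 '' ((S.B ω.1).F : Set V)).Finite :=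
      finite_iUnion fun ω => (Finset.finite_toSet _).image _
    refine (h1.preimage hinj.injOn).subset ?_
    rintro t₀ ⟨-, -, ω, t, ht, e⟩
    exact mem_iUnion.2 ⟨ω, t, ht, e⟩
  obtain ⟨S₁, hs₁, hF₁, hX₁, hg₁⟩ := S.step2_add π l.1 (hX.insert tm) (by
    rintro t (rfl | ht)
    · exact ⟨htm1, htm2⟩
    · exact ⟨ht.1, ht.2.1⟩)
  have hpos₁ : ∀ (ω : J × Bool) t, (S₁.B ω.1).pos ω.2 t = (S.B ω.1).pos ω.2 t := by
    intro ω t
    change (S₁.skel π).sg ω • t + (S₁.skel π).off ω = (S.skel π).sg ω • t + (S.skel π).off ω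
    rw [hs₁]
  obtain ⟨S₂, hF₂, hd₂, hM₂, hg₂⟩ := S₁.step2_slide hπ (l := l) (m := m) (hs₁ ▸ hc) (by
    intro ω hω t ht
    rw [hs₁] at hω
    have hne : ω.1 ≠ l.1 := hω.elim (step2_ne_of_slid hc) fun h' e => h'.1 (e ▸ hc.long)
    rw [hF₁ _ hne] at ht
    have : ∃ t₀, (S.B l.1).F.min' (S.B l.1).ne ≤ t₀ ∧ t₀ ≤ (S.B l.1).F.max' (S.B l.1).ne ∧
        (S.B ω.1).pos ω.2 t = (S.B l.1).pos l.2 t₀ := by
      rcases hω with hω | ⟨h1, -, h3⟩
      · exact hin ω hω t ht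
      · refine S.step2_lift hπ ?_
        have hI := S.lvl_mem_Icc hπ (ω := ω) ht
        have h4 := (S.skel π).hi_sub_lo ω
        have h5 : (S.skel π).b ω.1 ≤ (S.skel π).a ω.1 := not_lt.1 h1
        have h6 : S.lvl π ω t = (S.skel π).lo ω := by linarith [hI.1, hI.2]
        change S.lvl π ω t ∈ _
        rw [h6]
        exact ⟨h3.1, h3.2.trans_le hc.le_hi⟩
    obtain ⟨t₀, h1, h2, h3⟩ := this
    refine ⟨t₀, hX₁ _ (Or.inr ⟨h1, h2, ω, t, ht, h3⟩), ?_⟩
    rw [hpos₁, hpos₁, h3])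
  rw [hs₁] at hd₂ hM₂
  have ea : (S₂.skel π).a = (S.skel π).a := by
    rw [← hs₁]
    funext k
    change π _ = π _
    simp only [hF₂]
  have eb : (S₂.skel π).b = (S.skel π).b := by
    rw [← hs₁]
    funext k
    change π _ = π _
    simp only [hF₂]
  have hns : ¬ (S.skel π).Slid l l := fun h => h.1 rfl
  have eo : (S₂.skel π).ob l = (S.skel π).ob l := by
    rw [(hd₂ l hc.long).1]
    simp only [Skel.step, if_neg hns]
  have es : (S₂.skel π).sg l = (S.skel π).sg l := by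
    rw [(hd₂ l hc.long).2.1]
    simp only [Skel.step, if_neg hns]
  have ef : (S₂.skel π).off l = (S.skel π).off l := by
    rw [(hd₂ l hc.long).2.2]
    simp only [Skel.step, if_neg hns]
  obtain ⟨elo, ehi⟩ := step2_lo_congr (A := S.skel π) (B := S₂.skel π) (ω := l) (ω' := l)
    (congrFun ea _) (congrFun eb _) es ef
  obtain ⟨S₃, hs₃, hF₃, hM₃, hK₃, hg₃⟩ := S₂.step2_drop π (l := l) (u := (S.skel π).lo l) (m := m)
    elo.le (hc.le_hi.trans ehi.ge) fun ω hω ho t ht => (hM₂ ω hω (ho.trans eo) t ht).1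
  have hl₃ : ∀ ω t, S₃.lvl π ω t = S₂.lvl π ω t := fun ω t => by
    rw [lvl_eq, lvl_eq, hs₃]
  refine ⟨S₃, hs₃ ▸ ea, hs₃ ▸ eb, hs₃ ▸ hd₂, fun ω ho t ht => ?_, fun ω hω hl ho => ?_,
    ⟨tm, ?_, ?_⟩, fun h => hg₁ (hg₂ (hg₃ h))⟩
  · rw [hl₃]
    rw [hs₃] at ho
    by_cases hω : ω = l
    · subst hω
      exact hM₃ t ht
    · exact (hM₂ ω hω ho t (hF₃ _ t ht)).1
  · rw [hs₃] at ho ⊢
    obtain ⟨t, ht, e⟩ := S₂.exists_lvl_eq_lo (π := π) ω
    rw [← e]
    exact (hM₂ ω hω ho t ht).2 hl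
  · have e : S₂.lvl π l tm = m := by
      rw [← htm, lvl_eq, lvl_eq]
      simp only [Skel.rpos, es, ef]
    refine hK₃ tm ?_ ?_
    · rw [hF₂]
      exact hX₁ _ (Or.inl rfl)
    · rw [e]
      exact fun h => lt_irrefl _ h.2
  · rw [hl₃, ← htm, lvl_eq, lvl_eq]
    simp only [Skel.rpos, es, ef]

/-- The step when the slid bases lie inside the carrier. -/
theorem exists_step_of_inside (S : Sys 𝒜 O J) (hπ : Monotone π) {l : J × Bool} {m : ℝ}
    (hc : (S.skel π).Carrier l m)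
    (hin : ∀ ω, (S.skel π).Slid l ω → ∀ t ∈ (S.B ω.1).F, ∃ t₀,
      (S.B l.1).F.min' (S.B l.1).ne ≤ t₀ ∧ t₀ ≤ (S.B l.1).F.max' (S.B l.1).ne ∧
      (S.B ω.1).pos ω.2 t = (S.B l.1).pos l.2 t₀) :
    ∃ (O' J' : Type) (_ : Fintype J') (S' : Sys 𝒜 O' J') (ρ : J' → J) (pa : O' → O),
      Skel.Iso (S'.skel π) ((S.skel π).step l m) ρ pa ∧ (S'.IsGood → S.IsGood) := by
  obtain ⟨S₃, ea, eb, hd, hM, hM', ⟨tm, htm, etm⟩, hg⟩ := S.step2_prep hπ hc hin
  set A := S.skel π with hA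
  have hns : ¬ A.Slid l l := fun h => h.1 rfl
  have eo : (S₃.skel π).ob l = A.ob l := by
    rw [(hd l hc.long).1]
    simp only [Skel.step, if_neg hns]
  have es : (S₃.skel π).sg l = A.sg l := by
    rw [(hd l hc.long).2.1]
    simp only [Skel.step, if_neg hns]
  have ef : (S₃.skel π).off l = A.off l := by
    rw [(hd l hc.long).2.2]
    simp only [Skel.step, if_neg hns]
  obtain ⟨elo, ehi⟩ := step2_lo_congr (A := A) (B := S₃.skel π) (ω := l) (ω' := l)
    (congrFun ea _) (congrFun eb _) es ef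
  have hlong : ∀ k, (S₃.skel π).Long k ↔ A.Long k := fun k => by
    simp only [Skel.Long, ea, eb]
  obtain ⟨z, hz1, hz2⟩ := exists_between hc.lo_lt
  have hfree : S₃.FreeAt π l z := by
    refine ⟨⟨elo.trans_lt hz1, (hz2.trans_le hc.le_hi).trans_eq ehi.symm⟩, ?_, fun ω hω ho h => ?_⟩
    · rintro ⟨ω, ho, t, ht, e⟩
      exact hM ω (Eq.trans ho eo) t ht (e ▸ ⟨hz1, hz2⟩)
    · have := hM' ω hω ((hlong _).1 ((S₃.skel π).long_of_mem_base h)) (ho.trans eo)
      exact lt_irrefl _ ((hz2.trans_le this).trans h.1)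
  set 𝒦 := Cuts.one ((S₃.skel π).ob l) z with h𝒦
  set B := (S₃.cut π 𝒦).skel π with hB
  have href : Skel.Ref B (S₃.skel π) (S₃.par π 𝒦) Prod.fst := S₃.cut_ref 𝒦 hπ
  -- the fibres of the carrier
  have hdich : ∀ t ∈ (S₃.B l.1).F, (z < S₃.lvl π l t ↔ m ≤ S₃.lvl π l t) := by
    intro t ht
    refine ⟨fun h => not_lt.1 fun h' => hM l eo t ht ⟨hz1.trans h, h'⟩, fun h => hz2.trans_le h⟩
  let p₀ : S₃.CutJ π 𝒦 := S₃.piece π 𝒦 l.1 tm htm
  have hp₀ : ∀ t, t ∈ ((S₃.cut π 𝒦).B p₀).F ↔ t ∈ (S₃.B l.1).F ∧ m ≤ S₃.lvl π l t := by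
    intro t
    rw [mem_cut_F]
    constructor
    · rintro ⟨ht, e⟩
      refine ⟨ht, (hdich t ht).1 (((hfree.piece_eq_iff hπ ht htm).1 e).2 ?_)⟩
      rw [etm]
      exact hz2
    · rintro ⟨ht, h⟩
      refine ⟨ht, (hfree.piece_eq_iff hπ ht htm).2 ?_⟩
      rw [etm]
      exact ⟨fun _ => hz2, fun _ => hz2.trans_le h⟩
  have hlo₀ : B.lo (p₀, l.2) = m := by
    obtain ⟨t, ht, e⟩ := (S₃.cut π 𝒦).exists_lvl_eq_lo (π := π) (p₀, l.2)
    refine le_antisymm ?_ (e ▸ ((hp₀ t).1 ht).2)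
    exact (((S₃.cut π 𝒦).lvl_mem_Icc hπ (ω := (p₀, l.2)) ((hp₀ tm).2 ⟨htm, etm.ge⟩)).1).trans
      etm.le
  have hhi₀ : B.hi (p₀, l.2) = A.hi l := by
    obtain ⟨t, ht, e⟩ := (S₃.cut π 𝒦).exists_lvl_eq_hi (π := π) (p₀, l.2)
    obtain ⟨t', ht', e'⟩ := S₃.exists_lvl_eq_hi (π := π) l
    refine le_antisymm ?_ ?_
    · rw [← ehi]
      exact e ▸ (S₃.lvl_mem_Icc hπ (ω := l) ((hp₀ t).1 ht).1).2
    · rw [← ehi, ← e']
      exact ((S₃.cut π 𝒦).lvl_mem_Icc hπ (ω := (p₀, l.2))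
        ((hp₀ t').2 ⟨ht', hc.le_hi.trans (ehi.symm.trans e'.symm).le⟩)).2
  have hab₀ : B.a p₀ = (A.step l m).a l.1 ∧ B.b p₀ = (A.step l m).b l.1 :=
    step2_ab_congr (A := A.step l m) (B := B) (ω := l) (ω' := (p₀, l.2)) (hd l hc.long).2.1
      (hd l hc.long).2.2 (hlo₀.trans hc.step_lo.symm) (hhi₀.trans hc.step_hi.symm)
  have hp₀' : ∀ p, B.Long p → S₃.par π 𝒦 p = l.1 → p = p₀ := by
    intro p hp e
    by_contra hne
    obtain ⟨τ, hτ⟩ := (S₃.skel π).rpos_surjective l (A.lo l)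
    refine (S₃.cut π 𝒦).step2_not_long (x := τ) (fun t ht => ?_) hp
    obtain ⟨ht', e'⟩ := (S₃.mem_cut_F π 𝒦).1 ht
    have ht'' : t ∈ (S₃.B l.1).F := e ▸ ht'
    have h1 : ¬ m ≤ S₃.lvl π l t := by
      intro h
      obtain ⟨h2, e2⟩ := (S₃.mem_cut_F π 𝒦).1 ((hp₀ t).2 ⟨ht'', h⟩)
      refine hne (e'.symm.trans (Eq.trans ?_ e2))
      obtain ⟨⟨k, f⟩, hk⟩ := p
      obtain rfl : k = l.1 := e
      rfl
    have h2 : S₃.lvl π l t = A.lo l := by
      refine le_antisymm (not_lt.1 fun h => hM l eo t ht'' ⟨h, not_le.1 h1⟩) ?_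
      exact elo.ge.trans (S₃.lvl_mem_Icc hπ (ω := l) ht'').1
    rw [lvl_eq, ← hτ] at h2
    exact (S₃.skel π).rpos_injective l h2
  have hstep : ∀ k, k ≠ l.1 → (A.step l m).a k = (S₃.skel π).a k ∧
      (A.step l m).b k = (S₃.skel π).b k := by
    intro k hk
    simp only [Skel.step, hk, false_and, if_false, ea, eb, and_self]
  have hab : ∀ p, B.Long p → B.a p = (A.step l m).a (S₃.par π 𝒦 p) ∧
      B.b p = (A.step l m).b (S₃.par π 𝒦 p) := by
    intro p hp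
    by_cases e : S₃.par π 𝒦 p = l.1
    · rw [hp₀' p hp e]
      exact hab₀
    · obtain ⟨k', e1, e2, e3⟩ := hfree.full hπ e
      have : p = k' := href.eq_of_full hp e1.symm (e1 ▸ e2) (e1 ▸ e3)
      subst this
      rw [(hstep _ e).1, (hstep _ e).2]
      exact ⟨e2, e3⟩
  have hAl : ∀ p, B.Long p → A.Long (S₃.par π 𝒦 p) := fun p hp => (hlong _).1 (href.long hp)
  have hob : ∀ p s, B.Long p → B.ob (p, s) = ((A.step l m).ob (S₃.par π 𝒦 p, s),
      𝒦.flag ((A.step l m).ob (S₃.par π 𝒦 p, s)) m) := by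
    intro p s hp
    have hlt : B.lo (p, s) < B.hi (p, s) := by
      have h1 := B.hi_sub_lo (p, s)
      have h2 : B.a p < B.b p := hp
      change B.hi (p, s) - B.lo (p, s) = B.b p - B.a p at h1
      linarith
    obtain ⟨x, hx⟩ := exists_between hlt
    have hx' : x ∈ B.base (p, s) := hx
    have e : (S₃.B (S₃.par π 𝒦 p)).en s = (A.step l m).ob (S₃.par π 𝒦 p, s) :=
      (hd (S₃.par π 𝒦 p, s) (hAl p hp)).1
    rw [S₃.cut_ob_of_mem_base 𝒦 hπ hx', ← e]
    refine Prod.ext rfl ((𝒦.flag_eq_iff).2 fun κ ho => ?_)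
    refine ⟨fun _ => hz2, fun _ => hz2.trans ?_⟩
    by_cases hω : (S₃.par π 𝒦 p, s) = l
    · have e1 : p = p₀ := hp₀' p hp (congrArg Prod.fst hω)
      have e2 : s = l.2 := congrArg Prod.snd hω
      rw [e1, e2, hlo₀] at hx
      exact hx.1
    · exact (hM' _ hω (hAl p hp) (Eq.trans ho eo)).trans_lt (href.base_subset p s hx').1
  have hobi : ∀ k s k' s', B.Long k → B.Long k' →
      (A.step l m).ob (S₃.par π 𝒦 k, s) = (A.step l m).ob (S₃.par π 𝒦 k', s') →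
      B.ob (k, s) = B.ob (k', s') := by
    intro k s k' s' hk hk' h
    rw [hob k s hk, hob k' s' hk', h]
  refine ⟨O × (Unit → Bool), S₃.CutJ π 𝒦, inferInstance, S₃.cut π 𝒦, S₃.par π 𝒦, Prod.fst,
    ⟨⟨fun k hk => (hab k hk).1.ge, fun k hk => (hab k hk).2.le,
      fun k s hk => (hd (S₃.par π 𝒦 k, s) (hAl k hk)).2.1,
      fun k s hk => (hd (S₃.par π 𝒦 k, s) (hAl k hk)).2.2,
      fun k s hk => (hd (S₃.par π 𝒦 k, s) (hAl k hk)).1, href.disj, ?_⟩, fun k _ => ?_, hobi⟩,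
    fun h => hg (hfree.good hπ h)⟩
  · rintro k s k' s' h ⟨x, h1, h2⟩
    exact hobi k s k' s' (B.long_of_mem_base (ω := (k, s)) (x := x) h1)
      (B.long_of_mem_base (ω := (k', s')) (x := x) h2) h
  · by_cases e : k = l.1
    · subst e
      exact ⟨p₀, rfl, hab₀⟩
    · obtain ⟨k', e1, e2, e3⟩ := hfree.full hπ e
      exact ⟨k', e1, e2.trans (hstep k e).1.symm, e3.trans (hstep k e).2.symm⟩

theorem exists_step (S : Sys 𝒜 O J) (hπ : Monotone π) {l : J × Bool} {m : ℝ}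
    (hc : (S.skel π).Carrier l m) :
    ∃ (O' J' : Type) (_ : Fintype J') (S' : Sys 𝒜 O' J') (ρ : J' → J) (pa : O' → O),
      Skel.Iso (S'.skel π) ((S.skel π).step l m) ρ pa ∧ (S'.IsGood → S.IsGood) := by
  obtain ⟨J₁, _, S₁, ρ₁, l₁, hc₁, hiso, hin, hg⟩ := S.exists_inside hπ hc
  obtain ⟨O₂, J₂, _, S₂, ρ₂, pa₂, hiso₂, hg₂⟩ := S₁.exists_step_of_inside hπ hc₁ hin
  exact ⟨O₂, J₂, inferInstance, S₂, _, _, hiso₂.trans hiso, fun h => hg (hg₂ h)⟩

end Sys

end Pool.Agent.Lib.MP_d87150_al
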