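import Pool.Agent.Lib.MP_d87150_al.Cut
import Pool.Agent.Lib.MP_d87150_al.Curve

/-!
# Erasing a quadratic part
-/

set_option autoImplicit false

noncomputable section

namespace Pool.Agent.Lib.MP_d87150_al

open Set

namespace Cuts

variable {O K : Type} (𝒦 : Cuts O K)

theorem surf_sides {κ : K} {x₁ x₂ : ℝ} (h1 : x₁ < 𝒦.cz κ) (h2 : 𝒦.cz κ < x₂)
    (h : ∀ l, l ≠ κ → 𝒦.co l = 𝒦.co κ → 𝒦.cz l ∉ Icc x₁ x₂) :
    𝒦.side κ false = (𝒦.co κ, 𝒦.flag (𝒦.co κ) x₁) ∧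
      𝒦.side κ true = (𝒦.co κ, 𝒦.flag (𝒦.co κ) x₂) :=
  ⟨𝒦.side_false_eq h1.le fun l hl ho hm => h l hl ho ⟨hm.1, (hm.2.trans h2).le⟩,
    𝒦.side_true_eq h2 fun l hl ho hm => h l hl ho ⟨h1.le.trans hm.1, hm.2.le⟩⟩

theorem surf_sides' {κ : K} {x : Bool → ℝ} (h1 : 𝒦.cz κ ∈ uIoo (x false) (x true))
    (h : ∀ l, l ≠ κ → 𝒦.co l = 𝒦.co κ → 𝒦.cz l ∉ uIcc (x false) (x true)) :
    ∃ s : Bool → Bool, Function.Injective s ∧
      ∀ σ, 𝒦.side κ (s σ) = (𝒦.co κ, 𝒦.flag (𝒦.co κ) (x σ)) := by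
  rcases le_total (x false) (x true) with hx | hx
  · rw [uIoo_of_le hx] at h1
    rw [uIcc_of_le hx] at h
    obtain ⟨e1, e2⟩ := 𝒦.surf_sides h1.1 h1.2 h
    refine ⟨id, Function.injective_id, fun σ => ?_⟩
    cases σ
    · exact e1
    · exact e2
  · rw [uIoo_of_ge hx] at h1
    rw [uIcc_of_ge hx] at h
    obtain ⟨e1, e2⟩ := 𝒦.surf_sides h1.1 h1.2 h
    refine ⟨not, Bool.not_injective, fun σ => ?_⟩
    cases σ
    · exact e2
    · exact e1

theorem surf_two {κ κ' : K} {x₁ x₂ : ℝ} (ho : 𝒦.co κ' = 𝒦.co κ) (h1 : x₁ < 𝒦.cz κ)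
    (h2 : 𝒦.cz κ < 𝒦.cz κ') (h3 : 𝒦.cz κ' < x₂)
    (h : ∀ l, l ≠ κ → l ≠ κ' → 𝒦.co l = 𝒦.co κ → 𝒦.cz l ∉ Icc x₁ x₂) :
    𝒦.side κ false = (𝒦.co κ, 𝒦.flag (𝒦.co κ) x₁) ∧ 𝒦.side κ true = 𝒦.side κ' false ∧
      𝒦.side κ' true = (𝒦.co κ, 𝒦.flag (𝒦.co κ) x₂) := by
  refine ⟨𝒦.side_false_eq h1.le fun l hl hc hm => ?_, ?_, ?_⟩
  · by_cases hl' : l = κ'
    · rw [hl'] at hm
      exact absurd hm.2 (not_lt.2 h2.le)
    · exact h l hl hl' hc ⟨hm.1, (hm.2.trans (h2.trans h3)).le⟩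
  · rw [𝒦.side_true_eq (x := 𝒦.cz κ') h2, 𝒦.side_false_eq (x := 𝒦.cz κ') le_rfl, ho]
    · intro l _ _ hm
      exact absurd hm.2 (not_lt.2 hm.1)
    · intro l hl hc hm
      by_cases hl' : l = κ'
      · rw [hl'] at hm
        exact lt_irrefl _ hm.2
      · exact h l hl hl' hc ⟨h1.le.trans hm.1, (hm.2.trans h3).le⟩
  · rw [← ho]
    refine 𝒦.side_true_eq h3 fun l hl hc hm => ?_
    by_cases hl' : l = κ
    · rw [hl'] at hm
      exact absurd hm.1 (not_le.2 h2)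
    · exact h l hl' hl (hc.trans ho) ⟨(h1.trans h2).le.trans hm.1, hm.2.le⟩

theorem surf_two' {κ κ' : K} {x : Bool → ℝ} (ho : 𝒦.co κ' = 𝒦.co κ)
    (h1 : 𝒦.cz κ ∈ uIoo (x false) (x true)) (h2 : 𝒦.cz κ' ∈ uIoo (x false) (x true))
    (h3 : 𝒦.cz κ ≠ 𝒦.cz κ')
    (h : ∀ l, l ≠ κ → l ≠ κ' → 𝒦.co l = 𝒦.co κ → 𝒦.cz l ∉ uIcc (x false) (x true)) :
    ∃ (s s' : Bool → Bool) (σ : Bool), Function.Injective s ∧ Function.Injective s' ∧
      𝒦.side κ (s false) = 𝒦.side κ' (s' false) ∧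
      𝒦.side κ (s true) = (𝒦.co κ, 𝒦.flag (𝒦.co κ) (x σ)) ∧
      𝒦.side κ' (s' true) = (𝒦.co κ, 𝒦.flag (𝒦.co κ) (x (!σ))) := by
  have key : ∀ σ : Bool, 𝒦.cz κ ∈ Ioo (x σ) (x (!σ)) → 𝒦.cz κ' ∈ Ioo (x σ) (x (!σ)) →
      (∀ l, l ≠ κ → l ≠ κ' → 𝒦.co l = 𝒦.co κ → 𝒦.cz l ∉ Icc (x σ) (x (!σ))) →
      ∃ (s s' : Bool → Bool) (σ : Bool), Function.Injective s ∧ Function.Injective s' ∧
        𝒦.side κ (s false) = 𝒦.side κ' (s' false) ∧
        𝒦.side κ (s true) = (𝒦.co κ, 𝒦.flag (𝒦.co κ) (x σ)) ∧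
        𝒦.side κ' (s' true) = (𝒦.co κ, 𝒦.flag (𝒦.co κ) (x (!σ))) := by
    intro σ g1 g2 g
    rcases lt_or_gt_of_ne h3 with h4 | h4
    · obtain ⟨e1, e2, e3⟩ := 𝒦.surf_two ho g1.1 h4 g2.2 g
      exact ⟨not, id, σ, Bool.not_injective, Function.injective_id, e2, e1, e3⟩
    · obtain ⟨e1, e2, e3⟩ := 𝒦.surf_two ho.symm g2.1 h4 g1.2
        fun l hl hl' hc => g l hl' hl (hc.trans ho)
      rw [ho] at e1 e3
      refine ⟨id, not, !σ, Function.injective_id, Bool.not_injective, e2.symm, e3, ?_⟩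
      rw [Bool.not_not]
      exact e1
  rcases le_total (x false) (x true) with hx | hx
  · rw [uIoo_of_le hx] at h1 h2
    rw [uIcc_of_le hx] at h
    exact key false h1 h2 h
  · rw [uIoo_of_ge hx] at h1 h2
    rw [uIcc_of_ge hx] at h
    exact key true h1 h2 h

end Cuts

variable {Λ T G V : Type} [AddCommGroup Λ] [LinearOrder Λ] [IsOrderedAddMonoid Λ] [Group G]
  [MulAction G T] [AddCommGroup V] [LinearOrder V] [IsOrderedAddMonoid V] {𝒜 : Amb Λ T G V}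
  {O J : Type} [Fintype J] {π : V →+ ℝ}

/-- The value of an arrow crossed from the end `s`. -/
def surfDir (G : Type) {J : Type} (s : Bool) (a : J) : Fn G J :=
  cond s (-ContinuousLinearMap.proj a) (ContinuousLinearMap.proj a)

omit [Fintype J] in
theorem surf_conn_dir {O' : Type} (Γ : LG G J O') (a : J) (s : Bool) :
    Conn Γ.edges (Γ.lab a s, Γ.en a s) (Γ.lab a (!s), Γ.en a (!s)) (surfDir G s a) := by
  cases s
  · exact Γ.conn_arrow a
  · exact (Γ.conn_arrow a).symm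

omit [Fintype J] [Group G] in
theorem surf_dir_eq {a a' : J} {s : Bool} {c : H G J}
    (h : surfDir G s a c = surfDir G s a' c) : c a = c a' := by
  cases s
  · exact h
  · exact neg_injective h

omit [LinearOrder V] [IsOrderedAddMonoid V] in
theorem Skel.surf_rpos_mem_uIoo {L : Type} (A : Skel π L O) (ω : L × Bool) {u v τ : ℝ}
    (h : τ ∈ Ioo u v) : A.rpos ω τ ∈ uIoo (A.rpos ω u) (A.rpos ω v) := by
  obtain ⟨h1, h2⟩ := h
  unfold Skel.rpos
  rcases Int.units_eq_one_or (A.sg ω) with e | e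
  · rw [e, one_smul, one_smul, one_smul, uIoo_of_le (by linarith)]
    constructor <;> linarith
  · rw [e, Units.neg_smul, Units.neg_smul, Units.neg_smul, one_smul, one_smul, one_smul,
      uIoo_of_ge (by linarith)]
    constructor <;> linarith

omit [LinearOrder V] [IsOrderedAddMonoid V] in
theorem Skel.surf_mem_Icc {L : Type} (A : Skel π L O) (ω : L × Bool) {u v τ : ℝ} (huv : u ≤ v)
    (h : A.rpos ω τ ∈ uIcc (A.rpos ω u) (A.rpos ω v)) : τ ∈ Icc u v := by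
  unfold Skel.rpos at h
  rcases Int.units_eq_one_or (A.sg ω) with e | e
  · rw [e, one_smul, one_smul, one_smul, uIcc_of_le (by linarith)] at h
    obtain ⟨h1, h2⟩ := h
    constructor <;> linarith
  · rw [e, Units.neg_smul, Units.neg_smul, Units.neg_smul, one_smul, one_smul, one_smul,
      uIcc_of_ge (by linarith)] at h
    obtain ⟨h1, h2⟩ := h
    constructor <;> linarith

/-- The points where a curve crosses the object `i`. -/
def Skel.curveCuts {L : Type} (A : Skel π L O) (i : O) (r : ℕ) (ω : ℕ → L × Bool) (τ : ℕ → ℝ) :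
    Cuts O (Fin (r + 1)) :=
  ⟨fun _ => i, fun n => A.rpos (ω (n + 1)) (τ (n + 1))⟩

namespace Sys

section Edges

variable {K : Type} (S : Sys 𝒜 O J) (𝒦 : Cuts O K)

omit [IsOrderedAddMonoid V] [Fintype J] in
theorem surf_conn_piece (e : J × Bool) {t : V} (ht : t ∈ (S.B e.1).F) :
    Conn (S.cut π 𝒦).gr.edges
      ((S.B e.1).lab e.2, ((S.B e.1).en e.2, 𝒦.flag ((S.B e.1).en e.2) (S.lvl π e t)))
      ((S.B e.1).lab (!e.2),
        ((S.B e.1).en (!e.2), 𝒦.flag ((S.B e.1).en (!e.2)) (S.lvl π (bar e) t)))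
      (surfDir G e.2 (S.piece π 𝒦 e.1 t ht)) :=
  surf_conn_dir (S.cut π 𝒦).gr (S.piece π 𝒦 e.1 t ht) e.2

omit [IsOrderedAddMonoid V] [Fintype J] in
/-- A gap crossed once at each end. -/
theorem surf_edge_straight (e : J × Bool) (t : Bool → V) (ht : ∀ σ, t σ ∈ (S.B e.1).F)
    {κ κ' : K} (ho : 𝒦.co κ = (S.B e.1).en e.2) (ho' : 𝒦.co κ' = (S.B e.1).en (!e.2))
    (h1 : 𝒦.cz κ ∈ uIoo (S.lvl π e (t false)) (S.lvl π e (t true)))
    (h2 : ∀ l, l ≠ κ → 𝒦.co l = 𝒦.co κ →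
      𝒦.cz l ∉ uIcc (S.lvl π e (t false)) (S.lvl π e (t true)))
    (h1' : 𝒦.cz κ' ∈ uIoo (S.lvl π (bar e) (t false)) (S.lvl π (bar e) (t true)))
    (h2' : ∀ l, l ≠ κ' → 𝒦.co l = 𝒦.co κ' →
      𝒦.cz l ∉ uIcc (S.lvl π (bar e) (t false)) (S.lvl π (bar e) (t true))) :
    ∃ (s s' : Bool → Bool) (φ : Bool → Fn G (S.CutJ π 𝒦)),
      Function.Injective s ∧ Function.Injective s' ∧
      (∀ σ, Conn (S.cut π 𝒦).gr.edges ((S.B e.1).lab e.2, 𝒦.side κ (s σ))
        ((S.B e.1).lab (!e.2), 𝒦.side κ' (s' σ)) (φ σ)) ∧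
      ∀ c, φ false c = φ true c →
        c (S.piece π 𝒦 e.1 (t false) (ht false)) = c (S.piece π 𝒦 e.1 (t true) (ht true)) := by
  obtain ⟨s, hs, e1⟩ := 𝒦.surf_sides' (x := fun σ => S.lvl π e (t σ)) h1 h2
  obtain ⟨s', hs', e2⟩ := 𝒦.surf_sides' (x := fun σ => S.lvl π (bar e) (t σ)) h1' h2'
  refine ⟨s, s', fun σ => surfDir G e.2 (S.piece π 𝒦 e.1 (t σ) (ht σ)), hs, hs', fun σ => ?_,
    fun c hc => surf_dir_eq hc⟩
  rw [e1, e2, ho, ho']
  exact S.surf_conn_piece 𝒦 e (ht σ)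

omit [IsOrderedAddMonoid V] [Fintype J] in
/-- A gap crossed twice at the same end. -/
theorem surf_edge_turn (e : J × Bool) (t : Bool → V) (ht : ∀ σ, t σ ∈ (S.B e.1).F)
    {κ κ' : K} (ho : 𝒦.co κ = (S.B e.1).en e.2) (ho' : 𝒦.co κ' = (S.B e.1).en e.2)
    (h1 : 𝒦.cz κ ∈ uIoo (S.lvl π e (t false)) (S.lvl π e (t true)))
    (h1' : 𝒦.cz κ' ∈ uIoo (S.lvl π e (t false)) (S.lvl π e (t true)))
    (hne : 𝒦.cz κ ≠ 𝒦.cz κ')
    (h2 : ∀ l, l ≠ κ → l ≠ κ' → 𝒦.co l = 𝒦.co κ →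
      𝒦.cz l ∉ uIcc (S.lvl π e (t false)) (S.lvl π e (t true)))
    (h2' : ∀ l, (S.B e.1).en (!e.2) = 𝒦.co l →
      𝒦.cz l ∉ uIcc (S.lvl π (bar e) (t false)) (S.lvl π (bar e) (t true))) :
    ∃ (s s' : Bool → Bool) (φ : Bool → Fn G (S.CutJ π 𝒦)),
      Function.Injective s ∧ Function.Injective s' ∧
      (∀ σ, Conn (S.cut π 𝒦).gr.edges ((S.B e.1).lab e.2, 𝒦.side κ (s σ))
        ((S.B e.1).lab e.2, 𝒦.side κ' (s' σ)) (φ σ)) ∧
      ∀ c, φ false c = φ true c →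
        c (S.piece π 𝒦 e.1 (t false) (ht false)) = c (S.piece π 𝒦 e.1 (t true) (ht true)) := by
  obtain ⟨s, s', σ₀, hs, hs', e1, e2, e3⟩ := 𝒦.surf_two' (x := fun σ => S.lvl π e (t σ))
    (ho'.trans ho.symm) h1 h1' hne h2
  have hfl : 𝒦.flag ((S.B e.1).en (!e.2)) (S.lvl π (bar e) (t false)) =
      𝒦.flag ((S.B e.1).en (!e.2)) (S.lvl π (bar e) (t true)) := by
    rw [Cuts.flag_eq_iff]
    intro l hl
    have := h2' l hl
    rw [mem_uIcc] at this
    constructor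
    · intro h
      by_contra h'
      exact this (Or.inr ⟨not_lt.1 h', h.le⟩)
    · intro h
      by_contra h'
      exact this (Or.inl ⟨not_lt.1 h', h.le⟩)
  have hfl' : 𝒦.flag ((S.B e.1).en (!e.2)) (S.lvl π (bar e) (t σ₀)) =
      𝒦.flag ((S.B e.1).en (!e.2)) (S.lvl π (bar e) (t (!σ₀))) := by
    cases σ₀
    · exact hfl
    · exact hfl.symm
  have c1 := S.surf_conn_piece (π := π) 𝒦 e (ht σ₀)
  have c2 := S.surf_conn_piece (π := π) 𝒦 e (ht (!σ₀))
  rw [hfl'] at c1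
  refine ⟨s, s', fun σ => cond σ (surfDir G e.2 (S.piece π 𝒦 e.1 (t σ₀) (ht σ₀)) +
      -surfDir G e.2 (S.piece π 𝒦 e.1 (t (!σ₀)) (ht (!σ₀)))) 0, hs, hs',
    fun σ => ?_, fun c hc => ?_⟩
  · cases σ
    · rw [e1]
      exact Conn.refl _
    · rw [e2, e3, ho]
      exact c1.trans c2.symm
  · have h3 : c (S.piece π 𝒦 e.1 (t σ₀) (ht σ₀)) =
        c (S.piece π 𝒦 e.1 (t (!σ₀)) (ht (!σ₀))) :=
      surf_dir_eq (add_neg_eq_zero.1 hc.symm)
    cases σ₀
    · exact h3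
    · exact h3.symm

omit [Fintype J] in
theorem surf_piece_eq {k : J} {t t' : V} (ht : t ∈ (S.B k).F) (ht' : t' ∈ (S.B k).F)
    (h : π t = π t') : S.piece π 𝒦 k t ht = S.piece π 𝒦 k t' ht' := by
  rw [S.piece_eq_iff]
  intro s κ _
  rw [S.lvl_eq, S.lvl_eq, h]

end Edges

/-- Consecutive levels of a band. -/
structure SurfGap (S : Sys 𝒜 O J) (π : V →+ ℝ) (k : J) (t : Bool → V) : Prop where
  mem : ∀ σ, t σ ∈ (S.B k).F
  lt : π (t false) < π (t true)
  free : ∀ t' ∈ (S.B k).F, π t' ∉ Ioo (π (t false)) (π (t true))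

omit [IsOrderedAddMonoid V] [Fintype J] in
theorem surf_exists_gap (S : Sys 𝒜 O J) {k : J} {τ : ℝ}
    (h : τ ∈ Ioo ((S.skel π).a k) ((S.skel π).b k)) (hτ : ∀ t ∈ (S.B k).F, π t ≠ τ) :
    ∃ t, S.SurfGap π k t ∧ τ ∈ Ioo (π (t false)) (π (t true)) := by
  classical
  obtain ⟨t₁, h1, m1⟩ := ((S.B k).F.filter fun t => π t < τ).exists_max_image π
    ⟨_, Finset.mem_filter.2 ⟨(S.B k).F.min'_mem (S.B k).ne, h.1⟩⟩
  obtain ⟨t₂, h2, m2⟩ := ((S.B k).F.filter fun t => τ < π t).exists_min_image π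
    ⟨_, Finset.mem_filter.2 ⟨(S.B k).F.max'_mem (S.B k).ne, h.2⟩⟩
  rw [Finset.mem_filter] at h1 h2
  refine ⟨fun σ => cond σ t₂ t₁, ⟨fun σ => ?_, h1.2.trans h2.2, fun t' ht' hm => ?_⟩,
    h1.2, h2.2⟩
  · cases σ
    · exact h1.1
    · exact h2.1
  · rcases lt_or_gt_of_ne (hτ t' ht') with h3 | h3
    · exact absurd hm.1 (not_lt.2 (m1 t' (Finset.mem_filter.2 ⟨ht', h3⟩)))
    · exact absurd hm.2 (not_lt.2 (m2 t' (Finset.mem_filter.2 ⟨ht', h3⟩)))

omit [IsOrderedAddMonoid V] [Fintype J] in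
theorem SurfGap.level_eq {S : Sys 𝒜 O J} {k : J} {t t' : Bool → V} {τ : ℝ}
    (h : S.SurfGap π k t) (h' : S.SurfGap π k t') (hτ : τ ∈ Ioo (π (t false)) (π (t true)))
    (hτ' : τ ∈ Ioo (π (t' false)) (π (t' true))) (σ : Bool) : π (t σ) = π (t' σ) := by
  cases σ
  · rcases lt_trichotomy (π (t false)) (π (t' false)) with h1 | h1 | h1
    · exact absurd ⟨h1, hτ'.1.trans hτ.2⟩ (h.free _ (h'.mem false))
    · exact h1
    · exact absurd ⟨h1, hτ.1.trans hτ'.2⟩ (h'.free _ (h.mem false))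
  · rcases lt_trichotomy (π (t true)) (π (t' true)) with h1 | h1 | h1
    · exact absurd ⟨hτ'.1.trans hτ.2, h1⟩ (h'.free _ (h.mem true))
    · exact h1
    · exact absurd ⟨hτ.1.trans hτ'.2, h1⟩ (h.free _ (h'.mem true))

section Curve

variable {S : Sys 𝒜 O J} {Q : Set J} {i : O} {x y : ℝ} {r : ℕ} {ω : ℕ → J × Bool} {τ : ℕ → ℝ}

omit [Fintype J] in
theorem surf_ne_level (hq : (S.skel π).Quad Q i x y)
    (hc : (S.skel π).Curve Q (fun k => π '' ((S.B k).F : Set V)) (S.Mk π i) r ω τ) (n : ℕ) :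
    ∀ t ∈ (S.B (ω n).1).F, π t ≠ τ n := by
  intro t ht h
  refine hc.gen n false ⟨((ω n).1, false), hq.ob ((ω n).1, false) (hc.mem n), t, ht, ?_⟩
  rw [S.lvl_eq, h]

omit [Fintype J] [IsOrderedAddMonoid V] in
theorem surf_mem_base
    (hc : (S.skel π).Curve Q (fun k => π '' ((S.B k).F : Set V)) (S.Mk π i) r ω τ) (n : ℕ) :
    (S.skel π).rpos (ω n) (τ n) ∈ (S.skel π).base (ω n) :=
  (S.skel π).rpos_mem_base.2 (hc.rng n)

omit [Fintype J] [IsOrderedAddMonoid V] in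
theorem surf_mem_base_bar
    (hc : (S.skel π).Curve Q (fun k => π '' ((S.B k).F : Set V)) (S.Mk π i) r ω τ) (n : ℕ) :
    (S.skel π).rpos (ω (n + 1)) (τ (n + 1)) ∈ (S.skel π).base (bar (ω n)) := by
  rw [hc.next]
  exact (S.skel π).rpos_mem_base.2 (hc.rng n)

omit [Fintype J] in
/-- The cut points in the closed base of a gap. -/
theorem surf_cut_in_gap (hπ : Monotone π) (hq : (S.skel π).Quad Q i x y)
    (hc : (S.skel π).Curve Q (fun k => π '' ((S.B k).F : Set V)) (S.Mk π i) r ω τ)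
    {e : J × Bool} (he : (S.B e.1).en e.2 = i) {t : Bool → V} (ht : S.SurfGap π e.1 t) {l : ℕ}
    (hl : (S.skel π).rpos (ω (l + 1)) (τ (l + 1)) ∈
      uIcc (S.lvl π e (t false)) (S.lvl π e (t true))) :
    (e = ω (l + 1) ∧ τ (l + 1) ∈ Ioo (π (t false)) (π (t true))) ∨
      (e = bar (ω l) ∧ τ l ∈ Ioo (π (t false)) (π (t true))) := by
  obtain ⟨τ', hτ'⟩ := (S.skel π).rpos_surjective e ((S.skel π).rpos (ω (l + 1)) (τ (l + 1)))
  have hg : ∀ σ, τ' ≠ π (t σ) := by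
    intro σ h
    refine hc.gen (l + 1) (ω (l + 1)).2 ⟨e, he, t σ, ht.mem σ, ?_⟩
    rw [S.lvl_eq, ← h]
    exact hτ'
  rw [← hτ', S.lvl_eq, S.lvl_eq] at hl
  have h1 := (S.skel π).surf_mem_Icc e ht.lt.le hl
  have h2 : τ' ∈ Ioo (π (t false)) (π (t true)) :=
    ⟨lt_of_le_of_ne h1.1 (hg false).symm, lt_of_le_of_ne h1.2 (hg true)⟩
  have h3 : (S.skel π).rpos (ω (l + 1)) (τ (l + 1)) ∈ (S.skel π).base e := by
    rw [← hτ', Skel.rpos_mem_base]
    exact ⟨(S.a_le_level hπ (ht.mem false)).trans_lt h2.1,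
      h2.2.trans_le (S.level_le_b hπ (ht.mem true))⟩
  have h4 : e.1 ∈ Q := by
    by_contra h
    have h5 := hq.sep e h ((S.skel π).long_of_mem_base h3) he
    have h6 := hq.sub _ (hc.mem (l + 1)) (surf_mem_base hc (l + 1))
    exact absurd (h3.1.trans h6.2) (not_lt.2 h5)
  rcases hq.two e (ω (l + 1)) (bar (ω l)) h4 (hc.mem _) (hc.mem l) _ h3
    (surf_mem_base hc (l + 1)) (surf_mem_base_bar hc l) with h | h | h
  · refine Or.inl ⟨h, ?_⟩
    rw [h] at hτ'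
    rw [← (S.skel π).rpos_injective _ hτ']
    exact h2
  · refine Or.inr ⟨h, ?_⟩
    rw [h, hc.next] at hτ'
    rw [← (S.skel π).rpos_injective _ hτ']
    exact h2
  · exact absurd h (hc.turn l)

omit [IsOrderedAddMonoid V] [Fintype J] in
theorem surf_same_gap
    (hc : (S.skel π).Curve Q (fun k => π '' ((S.B k).F : Set V)) (S.Mk π i) r ω τ)
    {k : J} {t : Bool → V} (ht : S.SurfGap π k t) {n m : ℕ} (hn : n ≤ r + 1) (hm : m ≤ r + 1)
    (en : (ω n).1 = k) (em : (ω m).1 = k) (gn : τ n ∈ Ioo (π (t false)) (π (t true)))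
    (gm : τ m ∈ Ioo (π (t false)) (π (t true))) :
    n = m ∨ (n = 0 ∧ m = r + 1) ∨ (m = 0 ∧ n = r + 1) := by
  have key : ∀ t' ∈ (S.B k).F, ∀ z ∈ Ioo (π (t false)) (π (t true)),
      (π t' < z ↔ π t' ≤ π (t false)) := by
    intro t' ht' z hz
    refine ⟨fun h => ?_, fun h => h.trans_lt hz.1⟩
    by_contra h'
    exact ht.free t' ht' ⟨not_le.1 h', h.trans hz.2⟩
  rcases lt_trichotomy n m with h | h | h
  · refine Or.inr (Or.inl (hc.simple n m h hm (em.trans en.symm) ?_))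
    rintro f ⟨t', ht', rfl⟩
    rw [en] at ht'
    rw [key t' ht' _ gn, key t' ht' _ gm]
  · exact Or.inl h
  · refine Or.inr (Or.inr (hc.simple m n h hn (en.trans em.symm) ?_))
    rintro f ⟨t', ht', rfl⟩
    rw [em] at ht'
    rw [key t' ht' _ gn, key t' ht' _ gm]

omit [Fintype J] in
theorem surf_gap_ends (hq : (S.skel π).Quad Q i x y)
    (hc : (S.skel π).Curve Q (fun k => π '' ((S.B k).F : Set V)) (S.Mk π i) r ω τ)
    {t : Bool → V} (ht : S.SurfGap π (ω 0).1 t) :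
    τ (r + 1) ∈ Ioo (π (t false)) (π (t true)) ↔ τ 0 ∈ Ioo (π (t false)) (π (t true)) := by
  have h1 := hc.gap _ ⟨t false, ht.mem false, rfl⟩
  have h2 := hc.gap _ ⟨t true, ht.mem true, rfl⟩
  have h3 := surf_ne_level hq hc 0 _ (ht.mem true)
  have h4 := surf_ne_level hq hc (r + 1) (t true) (by rw [hc.close]; exact ht.mem true)
  constructor
  · intro h
    exact ⟨h1.1 h.1, lt_of_le_of_ne (not_lt.1 fun h' => absurd (h2.2 h') (not_lt.2 h.2.le))
      h3.symm⟩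
  · intro h
    exact ⟨h1.2 h.1, lt_of_le_of_ne (not_lt.1 fun h' => absurd (h2.1 h') (not_lt.2 h.2.le))
      h4.symm⟩

/-- Labels of the initial segments of a curve. -/
def surfLab (S : Sys 𝒜 O J) (ω : ℕ → J × Bool) : ℕ → G
  | 0 => 1
  | n + 1 => surfLab S ω n * ((S.B (ω (n + 1)).1).lab (ω (n + 1)).2)⁻¹ *
      (S.B (ω (n + 1)).1).lab (!(ω (n + 1)).2)

omit [Fintype J] in
theorem surf_follow (hπ : Monotone π) (hq : (S.skel π).Quad Q i x y)
    (hc : (S.skel π).Curve Q (fun k => π '' ((S.B k).F : Set V)) (S.Mk π i) r ω τ) (n : ℕ) :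
    ∃ δ : ℝ, 0 < δ ∧ ∀ w, |π w - (S.skel π).rpos (ω 1) (τ 1)| < δ → w ∈ S.C.dom i ∧
      ∃ w', w' ∈ S.C.dom i ∧ |π w' - (S.skel π).rpos (ω (n + 1)) (τ (n + 1))| =
        |π w - (S.skel π).rpos (ω 1) (τ 1)| ∧ S.C.ch i w = surfLab S ω n • S.C.ch i w' := by
  have hb : ∀ n, ∃ δ : ℝ, 0 < δ ∧ ∀ z, |z - (S.skel π).rpos (ω n) (τ n)| < δ →
      z ∈ (S.skel π).base (ω n) := by
    intro n
    obtain ⟨δ, h1, h2⟩ := Metric.isOpen_iff.1 isOpen_Ioo _ (surf_mem_base hc n)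
    exact ⟨δ, h1, fun z hz => h2 hz⟩
  induction n with
  | zero =>
    obtain ⟨δ, h1, h2⟩ := hb 1
    refine ⟨δ, h1, fun w hw => ?_⟩
    have h3 := (S.cross hπ (h2 _ hw)).1
    rw [hq.ob _ (hc.mem 1)] at h3
    exact ⟨h3, w, h3, rfl, (one_smul _ _).symm⟩
  | succ n ih =>
    obtain ⟨δ, h1, h2⟩ := ih
    obtain ⟨δ', h1', h2'⟩ := hb (n + 1)
    refine ⟨min δ δ', lt_min h1 h1', fun w hw => ?_⟩
    obtain ⟨g1, w', g2, g3, g4⟩ := h2 w (hw.trans_le (min_le_left _ _))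
    obtain ⟨-, g5, g6⟩ := S.cross hπ (h2' (π w') (g3.trans_lt (hw.trans_le (min_le_right _ _))))
    rw [hq.ob (bar (ω (n + 1))) (hc.mem (n + 1))] at g5 g6
    rw [hq.ob _ (hc.mem (n + 1))] at g6
    refine ⟨g1, _, g5, ?_, ?_⟩
    · rw [← g3, hc.next, ← Skel.rmap_rpos, map_add]
      unfold Skel.rmap
      rcases Int.units_eq_one_or ((S.skel π).vsg (ω (n + 1))) with e | e
      · rw [e, one_smul, one_smul, add_sub_add_right_eq_sub]
      · rw [e, Units.neg_smul, Units.neg_smul, one_smul, one_smul, map_neg,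
          add_sub_add_right_eq_sub, neg_sub_neg, abs_sub_comm]
    · rw [g4, surfLab, mul_smul, mul_smul, ← g6, inv_smul_smul]

omit [Fintype J] in
theorem surf_lab_ne_one (hπ : Monotone π) (hd : DenseRange π) (hq : (S.skel π).Quad Q i x y)
    (hc : (S.skel π).Curve Q (fun k => π '' ((S.B k).F : Set V)) (S.Mk π i) r ω τ) {n : ℕ}
    (hn : (S.skel π).rpos (ω (n + 1)) (τ (n + 1)) ≠ (S.skel π).rpos (ω 1) (τ 1)) :
    surfLab S ω n ≠ 1 := by
  intro h
  obtain ⟨δ, h1, h2⟩ := surf_follow hπ hq hc n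
  have h3 : 0 < |(S.skel π).rpos (ω (n + 1)) (τ (n + 1)) - (S.skel π).rpos (ω 1) (τ 1)| :=
    abs_pos.2 (sub_ne_zero.2 hn)
  obtain ⟨w, hw⟩ := hd.exists_dist_lt ((S.skel π).rpos (ω 1) (τ 1)) (lt_min h1 (half_pos h3))
  rw [dist_comm, Real.dist_eq, lt_min_iff] at hw
  obtain ⟨g1, w', g2, g3, g4⟩ := h2 w hw.1
  rw [h, one_smul] at g4
  rw [← S.C.injOn i g1 g2 g4] at g3
  have h4 := abs_sub_le ((S.skel π).rpos (ω (n + 1)) (τ (n + 1))) (π w)
    ((S.skel π).rpos (ω 1) (τ 1))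
  rw [abs_sub_comm _ (π w), g3] at h4
  linarith [hw.2]

omit [Fintype J] in
/-- The edge of the cycle along the gap crossed at the step `j + 1`. -/
theorem surf_exists_edge (hπ : Monotone π) (hq : (S.skel π).Quad Q i x y)
    (hc : (S.skel π).Curve Q (fun k => π '' ((S.B k).F : Set V)) (S.Mk π i) r ω τ)
    (j : Fin (r + 1)) {t : Bool → V} (ht : S.SurfGap π (ω (j + 1)).1 t)
    (hτ : τ (j + 1) ∈ Ioo (π (t false)) (π (t true))) :
    ∃ (β : G) (s s' : Bool → Bool) (φ : Bool → Fn G (S.CutJ π ((S.skel π).curveCuts i r ω τ))),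
      Function.Injective s ∧ Function.Injective s' ∧
      (∀ σ, Conn (S.cut π ((S.skel π).curveCuts i r ω τ)).gr.edges
        ((S.B (ω (j + 1)).1).lab (ω (j + 1)).2, ((S.skel π).curveCuts i r ω τ).side j (s σ))
        (β, ((S.skel π).curveCuts i r ω τ).side (j + 1) (s' σ)) (φ σ)) ∧
      (∀ c, φ false c = φ true c →
        c (S.piece π _ _ (t false) (ht.mem false)) = c (S.piece π _ _ (t true) (ht.mem true))) ∧
      ((j : ℕ) < r ∨ ω (r + 1) = ω 0 → β = (S.B (ω (j + 1)).1).lab (!(ω (j + 1)).2)) ∧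
      (¬ ((j : ℕ) < r ∨ ω (r + 1) = ω 0) → β = (S.B (ω (j + 1)).1).lab (ω (j + 1)).2) := by
  have hj := j.2
  have ho : ∀ s, (S.B (ω (j + 1)).1).en s = i := fun s =>
    hq.ob ((ω (j + 1)).1, s) (hc.mem _)
  have hv1 : (j : ℕ) < r → ((j + 1 : Fin (r + 1)) : ℕ) = j + 1 := by
    intro h
    simp only [Fin.val_add, Fin.coe_ofNat_eq_mod, Nat.add_mod_mod]
    exact Nat.mod_eq_of_lt (by omega)
  have hv2 : (j : ℕ) = r → ((j + 1 : Fin (r + 1)) : ℕ) = 0 := by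
    intro h
    simp only [Fin.val_add, Fin.coe_ofNat_eq_mod, Nat.add_mod_mod, h, Nat.mod_self]
  have hτ0 : (j : ℕ) = r → τ 0 ∈ Ioo (π (t false)) (π (t true)) := by
    intro h
    rw [h] at ht hτ
    rw [hc.close] at ht
    exact (surf_gap_ends hq hc ht).1 hτ
  have h1 : ((S.skel π).curveCuts i r ω τ).cz j ∈
      uIoo (S.lvl π (ω (j + 1)) (t false)) (S.lvl π (ω (j + 1)) (t true)) := by
    rw [S.lvl_eq, S.lvl_eq]
    exact (S.skel π).surf_rpos_mem_uIoo _ hτ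
  by_cases hs : (j : ℕ) < r ∨ ω (r + 1) = ω 0
  · refine (S.surf_edge_straight (π := π)
      ((S.skel π).curveCuts i r ω τ) (ω (j + 1)) t ht.mem (κ := j) (κ' := j + 1) (ho _).symm
      (ho _).symm h1 ?_ ?_ ?_).elim fun s ⟨s', φ, g1, g2, g3, g4⟩ =>
        ⟨_, s, s', φ, g1, g2, g3, g4, fun _ => rfl, fun h => absurd hs h⟩
    · intro l hl _ hm
      have hl' := l.2
      rcases surf_cut_in_gap hπ hq hc (ho _) ht hm with ⟨e1, e2⟩ | ⟨e1, e2⟩
      · have := surf_same_gap hc ht (by omega) (by omega) rfl (congrArg Prod.fst e1).symm hτ e2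
        exact hl (Fin.ext (by omega))
      · rcases surf_same_gap hc ht (by omega) (by omega) rfl (congrArg Prod.fst e1).symm hτ e2
          with h | h | h
        · rw [h] at e1
          exact bar_ne _ e1.symm
        · omega
        · rcases hs with hs | hs
          · omega
          · rw [h.1, h.2, hs] at e1
            exact bar_ne _ e1.symm
    · rw [S.lvl_eq, S.lvl_eq]
      change (S.skel π).rpos (ω ((j + 1 : Fin (r + 1)) + 1)) (τ ((j + 1 : Fin (r + 1)) + 1)) ∈ _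
      rw [hc.next]
      by_cases h : (j : ℕ) < r
      · rw [hv1 h]
        exact (S.skel π).surf_rpos_mem_uIoo _ hτ
      · have h' : (j : ℕ) = r := by omega
        rw [hv2 h', h', hs.resolve_left h]
        exact (S.skel π).surf_rpos_mem_uIoo _ (hτ0 h')
    · intro l hl _ hm
      have hl' := l.2
      rcases surf_cut_in_gap (e := bar (ω (j + 1))) hπ hq hc (ho _) ht hm with
        ⟨e1, e2⟩ | ⟨e1, e2⟩
      · rcases surf_same_gap hc ht (by omega) (by omega) rfl (congrArg Prod.fst e1).symm hτ e2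
          with h | h | h
        · rw [← h] at e1
          exact bar_ne _ e1
        · omega
        · omega
      · rcases surf_same_gap hc ht (by omega) (by omega) rfl (congrArg Prod.fst e1).symm hτ e2
          with h | h | h
        · exact hl (Fin.ext (by rw [hv1 (by omega)]; omega))
        · omega
        · exact hl (Fin.ext (by rw [hv2 (by omega)]; omega))
  · have h' : (j : ℕ) = r := by
      have := (not_or.1 hs).1
      omega
    have hb : ω (r + 1) = bar (ω 0) := by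
      refine Prod.ext hc.close ?_
      have h2 : (ω (r + 1)).2 ≠ (ω 0).2 := fun h => (not_or.1 hs).2 (Prod.ext hc.close h)
      rw [bar_snd]
      exact Bool.eq_not.2 h2
    have hz : ((S.skel π).curveCuts i r ω τ).cz (j + 1) = (S.skel π).rpos (ω (j + 1)) (τ 0) := by
      change (S.skel π).rpos (ω ((j + 1 : Fin (r + 1)) + 1)) (τ ((j + 1 : Fin (r + 1)) + 1)) = _
      rw [hc.next, hv2 h', h', hb]
    refine (S.surf_edge_turn (π := π)
      ((S.skel π).curveCuts i r ω τ) (ω (j + 1)) t ht.mem (κ := j) (κ' := j + 1) (ho _).symm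
      (ho _).symm h1 ?_ ?_ ?_ ?_).elim fun s ⟨s', φ, g1, g2, g3, g4⟩ =>
        ⟨_, s, s', φ, g1, g2, g3, g4, fun h => absurd h hs, fun _ => rfl⟩
    · rw [hz, S.lvl_eq, S.lvl_eq]
      exact (S.skel π).surf_rpos_mem_uIoo _ (hτ0 h')
    · rw [hz]
      intro h
      have h2 := (S.skel π).rpos_injective _ h
      rw [h'] at h2
      exact hc.ne h2
    · intro l hl hl2 _ hm
      have hl' := l.2
      rcases surf_cut_in_gap hπ hq hc (ho _) ht hm with ⟨e1, e2⟩ | ⟨e1, e2⟩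
      · have := surf_same_gap hc ht (by omega) (by omega) rfl (congrArg Prod.fst e1).symm hτ e2
        exact hl (Fin.ext (by omega))
      · have := surf_same_gap hc ht (by omega) (by omega) rfl (congrArg Prod.fst e1).symm hτ e2
        exact hl2 (Fin.ext (by rw [hv2 h']; omega))
    · intro l _ hm
      have hl' := l.2
      rcases surf_cut_in_gap (e := bar (ω (j + 1))) hπ hq hc (ho _) ht hm with
        ⟨e1, e2⟩ | ⟨e1, e2⟩
      · rcases surf_same_gap hc ht (by omega) (by omega) rfl (congrArg Prod.fst e1).symm hτ e2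
          with h | h | h
        · rw [← h] at e1
          exact bar_ne _ e1
        · omega
        · omega
      · rcases surf_same_gap hc ht (by omega) (by omega) rfl (congrArg Prod.fst e1).symm hτ e2
          with h | h | h
        · omega
        · omega
        · rw [h.1, h.2, hb, bar_bar] at e1
          exact bar_ne _ e1.symm

end Curve

/-- Cutting along a curve. -/
theorem good_of_curve (S : Sys 𝒜 O J) (hπ : Monotone π) (hd : DenseRange π) {Q : Set J} {i : O}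
    {x y : ℝ} (hq : (S.skel π).Quad Q i x y) {r : ℕ} {ω : ℕ → J × Bool} {τ : ℕ → ℝ}
    (hc : (S.skel π).Curve Q (fun k => π '' ((S.B k).F : Set V)) (S.Mk π i) r ω τ)
    (hg : (S.cut π ((S.skel π).curveCuts i r ω τ)).IsGood) : S.IsGood := by
  classical
  choose t ht hτ using fun n => S.surf_exists_gap (hc.rng n) (surf_ne_level hq hc n)
  choose β s s' φ hs hs' hconn hval hβ hβ' using fun j : Fin (r + 1) =>
    surf_exists_edge hπ hq hc j (ht (j + 1)) (hτ (j + 1))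
  obtain ⟨a, h0, ha, hne⟩ : ∃ a : ℕ → G, a 0 = 1 ∧ (∀ j : Fin (r + 1),
      a (j + 1) = a j * ((S.B (ω (j + 1)).1).lab (ω (j + 1)).2)⁻¹ * β j) ∧ a (r + 1) ≠ 1 := by
    by_cases h : ω (r + 1) = ω 0
    · refine ⟨surfLab S ω, rfl, fun j => by rw [hβ j (Or.inr h)]; rfl,
        surf_lab_ne_one hπ hd hq hc ?_⟩
      rw [hc.next, hc.next 0, h]
      exact fun h' => hc.ne ((S.skel π).rpos_injective _ h')
    · refine ⟨fun n => surfLab S ω (min n r), by simp only [Nat.zero_min]; rfl, fun j => ?_, ?_⟩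
      · by_cases hj : (j : ℕ) < r
        · rw [hβ j (Or.inl hj)]
          simp only [min_eq_left (Nat.succ_le_of_lt hj), min_eq_left hj.le]
          rfl
        · have h' : (j : ℕ) = r := by
            have := j.2
            omega
          rw [hβ' j (not_or.2 ⟨hj, h⟩), inv_mul_cancel_right]
          simp only [h', min_self, min_eq_right (Nat.le_succ r)]
      · simp only [min_eq_right (Nat.le_succ r)]
        refine surf_lab_ne_one hπ hd hq hc ?_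
        have hb : ω (r + 1) = bar (ω 0) := by
          refine Prod.ext hc.close ?_
          have h2 : (ω (r + 1)).2 ≠ (ω 0).2 := fun h' => h (Prod.ext hc.close h')
          rw [bar_snd]
          exact Bool.eq_not.2 h2
        rw [hc.next 0, hb]
        exact fun h' => hc.ne ((S.skel π).rpos_injective _ h')
  obtain ⟨z1, z2, z3⟩ := cycEdges_spec 𝒜.nice
    (fun j : Fin (r + 1) => (S.B (ω (j + 1)).1).lab (ω (j + 1)).2) β s s' φ hs hs' a h0 ha hne
  refine S.good_of_cut ((S.skel π).curveCuts i r ω τ)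
    (fun p : Fin (r + 1) × Bool => ((S.skel π).curveCuts i r ω τ).side p.1 p.2)
    (fun j => (j, false)) (fun j => (j, true)) (fun _ => rfl) (fun _ => rfl) ?_ z2 ?_
    Subset.rfl ?_ hg
  · rintro p q e ⟨⟨j, σ⟩, h⟩
    simp only [Prod.mk.injEq] at h
    obtain ⟨rfl, rfl, rfl⟩ := h
    exact hconn j σ
  · intro c hcm k t₁ t₂ h₁ h₂ hlt hfree
    have hgap : S.SurfGap π k fun σ => cond σ t₂ t₁ :=
      ⟨fun σ => by cases σ; exacts [h₁, h₂], hlt, hfree⟩
    have key : ∀ j : Fin (r + 1), (ω (j + 1)).1 = k → τ (j + 1) ∈ Ioo (π t₁) (π t₂) →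
        c (S.piece π _ k t₁ h₁) = c (S.piece π _ k t₂ h₂) := by
      rintro j rfl hj
      rw [S.surf_piece_eq _ h₁ ((ht _).mem false) (hgap.level_eq (ht _) hj (hτ _) false),
        S.surf_piece_eq _ h₂ ((ht _).mem true) (hgap.level_eq (ht _) hj (hτ _) true)]
      exact hval j c (z3 c hcm j)
    by_cases hp : S.piece π ((S.skel π).curveCuts i r ω τ) k t₁ h₁ = S.piece π _ k t₂ h₂
    · rw [hp]
    · rw [S.piece_eq_iff] at hp
      push Not at hp
      obtain ⟨s₀, κ, e0, hκ⟩ := hp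
      have hm : ((S.skel π).curveCuts i r ω τ).cz κ ∈
          uIcc (S.lvl π (k, s₀) t₁) (S.lvl π (k, s₀) t₂) := by
        rw [mem_uIcc]
        rcases hκ with ⟨h, h'⟩ | ⟨h, h'⟩
        · exact Or.inr ⟨h', h.le⟩
        · exact Or.inl ⟨h, h'.le⟩
      rcases surf_cut_in_gap (e := (k, s₀)) hπ hq hc e0 hgap hm with ⟨e1, e2⟩ | ⟨e1, e2⟩
      · exact key κ (congrArg Prod.fst e1).symm e2
      · have e3 : (ω κ).1 = k := (congrArg Prod.fst e1).symm
        obtain ⟨_ | n, hn⟩ := κ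
        · refine key (Fin.last r) (hc.close.trans e3) ?_
          subst e3
          exact (surf_gap_ends hq hc hgap).2 e2
        · exact key ⟨n, by omega⟩ e3 e2
  · rw [z1]
    exact fun _ _ => Submodule.mem_top

/-- Cutting along a curve opens a gap in the quadratic part. -/
theorem exists_open (S : Sys 𝒜 O J) (hπ : Monotone π) (hd : DenseRange π) {Q : Set J} {i : O}
    {x y : ℝ} (hq : (S.skel π).Quad Q i x y) :
    ∃ (O' J' : Type) (_ : Fintype J') (S' : Sys 𝒜 O' J') (ρ : J' → J) (pa : O' → O),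
      Skel.Ref (S'.skel π) (S.skel π) ρ pa ∧
      (∀ k, k ∉ Q → (S.skel π).Long k → Skel.Full (S'.skel π) (S.skel π) ρ k) ∧
      (∃ k₀ ∈ Q, ∃ u v, u < v ∧ (S.skel π).a k₀ ≤ u ∧ v ≤ (S.skel π).b k₀ ∧
        ∀ k, ρ k = k₀ → Disjoint (Ioo ((S'.skel π).a k) ((S'.skel π).b k)) (Ioo u v)) ∧
      (S'.IsGood → S.IsGood) := by
  obtain ⟨r, ω, τ, hc⟩ := hq.exists_curve (fun k => π '' ((S.B k).F : Set V))
    (fun k => (S.B k).F.finite_toSet.image π) (S.finite_Mk (π := π) i)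
  refine ⟨_, _, inferInstance, S.cut π ((S.skel π).curveCuts i r ω τ), S.par π _, Prod.fst,
    S.cut_ref _ hπ, fun k hk hl => S.cut_full _ hπ fun s κ ho hm => ?_, ?_,
    S.good_of_curve hπ hd hq hc⟩
  · have h1 := hq.sep (k, s) hk hl ho
    have h2 := hq.sub _ (hc.mem (κ + 1)) (surf_mem_base hc (κ + 1))
    exact absurd (hm.1.trans_lt h2.2) (not_lt.2 h1)
  · obtain ⟨t, ht, hτ⟩ := S.surf_exists_gap (hc.rng 0) (surf_ne_level hq hc 0)
    refine ⟨(ω 0).1, hc.mem 0, π (t false), π (t true), ht.lt, S.a_le_level hπ (ht.mem false),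
      S.level_le_b hπ (ht.mem true), fun p hp => ?_⟩
    rw [Set.disjoint_left]
    intro z hz hz'
    have hF : ∀ t' ∈ ((S.cut π ((S.skel π).curveCuts i r ω τ)).B p).F,
        π t' ∉ Ioo (π (t false)) (π (t true)) := by
      intro t' ht'
      obtain ⟨h1, -⟩ := (S.mem_cut_F π _).1 ht'
      rw [hp] at h1
      exact ht.free t' h1
    have h1 : ((S.cut π ((S.skel π).curveCuts i r ω τ)).skel π).a p ≤ π (t false) := by
      by_contra h
      exact hF _ (Finset.min'_mem _ _) ⟨not_le.1 h, hz.1.trans hz'.2⟩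
    have h2 : π (t true) ≤ ((S.cut π ((S.skel π).curveCuts i r ω τ)).skel π).b p := by
      by_contra h
      exact hF _ (Finset.max'_mem _ _) ⟨hz'.1.trans hz.2, not_le.1 h⟩
    refine S.cz_notMem_base ((S.skel π).curveCuts i r ω τ) hπ p (!(ω 0).2) 0 ?_ ?_
    · rw [hp]
      exact hq.ob (bar (ω 0)) (hc.mem 0)
    · have h3 : ((S.skel π).curveCuts i r ω τ).cz 0 =
          ((S.cut π ((S.skel π).curveCuts i r ω τ)).skel π).rpos (p, !(ω 0).2) (τ 0) := by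
        rw [(S.cut_ref _ hπ).rpos (hz.1.trans hz.2), hp]
        exact hc.next 0
      rw [h3, Skel.rpos_mem_base]
      exact ⟨h1.trans_lt hτ.1, hτ.2.trans_le h2⟩

omit [Fintype J] in
theorem surf_erase (S : Sys 𝒜 O J) (hπ : Monotone π) {Q : Set J} {i : O} {x y : ℝ}
    (hq : (S.skel π).Quad Q i x y) {k₀ : J} (hk₀ : k₀ ∈ Q) {u v : ℝ} (huv : u < v)
    (hu : (S.skel π).a k₀ ≤ u) (hv : v ≤ (S.skel π).b k₀) (n : ℕ) :
    ∀ (O₁ J₁ : Type) [Fintype J₁] (S₁ : Sys 𝒜 O₁ J₁) (ρ₁ : J₁ → J) (pa₁ : O₁ → O),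
      S₁.Gp π < n → Skel.Ref (S₁.skel π) (S.skel π) ρ₁ pa₁ →
      (∀ k, k ∉ Q → (S.skel π).Long k → Skel.Full (S₁.skel π) (S.skel π) ρ₁ k) →
      (∀ k, ρ₁ k = k₀ → Disjoint (Ioo ((S₁.skel π).a k) ((S₁.skel π).b k)) (Ioo u v)) →
      ∃ (O' J' : Type) (_ : Fintype J') (S' : Sys 𝒜 O' J') (ρ : J' → J) (pa : O' → O),
        Skel.Ref (S'.skel π) (S.skel π) ρ pa ∧
        (∀ k, k ∉ Q → (S.skel π).Long k → Skel.Full (S'.skel π) (S.skel π) ρ k) ∧
        (∀ k, (S'.skel π).Long k → ρ k ∉ Q) ∧ (S'.IsGood → S₁.IsGood) := by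
  induction n with
  | zero =>
    intro _ _ _ _ _ _ h
    exact absurd h (Nat.not_lt_zero _)
  | succ n ih =>
    intro O₁ J₁ _ S₁ ρ₁ pa₁ hn href hfull hgap
    by_cases h : ∀ k, (S₁.skel π).Long k → ρ₁ k ∉ Q
    · exact ⟨O₁, J₁, inferInstance, S₁, ρ₁, pa₁, href, hfull, h, id⟩
    · push Not at h
      obtain ⟨k₁, hl, hk₁⟩ := h
      obtain ⟨e, he, z, hz, hzE, hfree⟩ := hq.exists_free href hk₀ huv hu hv hgap hk₁ hl
        (S₁.finite_iUnion_Mk (π := π))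
      have hf : S₁.FreeAt π e z := ⟨hz, fun h => hzE (mem_iUnion.2 ⟨_, h⟩), hfree⟩
      have href' := S₁.cut_ref (Cuts.one ((S₁.skel π).ob e) z) hπ
      obtain ⟨O', J', _, S', ρ, pa, g1, g2, g3, g4⟩ := ih _ _
        (S₁.cut π (Cuts.one ((S₁.skel π).ob e) z)) _ _
        ((hf.gp_lt hπ).trans_le (Nat.lt_succ_iff.1 hn)) (href'.trans href)
        (fun k hk hl => (hfull k hk hl).trans fun k' e1 _ _ => hf.full hπ fun e2 =>
          hk (by rw [← e1, e2]; exact he))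
        (fun p hp => by
          by_cases hp' : ((S₁.cut π (Cuts.one ((S₁.skel π).ob e) z)).skel π).Long p
          · exact (hgap _ hp).mono_left (Ioo_subset_Ioo (href'.a_le p hp') (href'.b_le p hp'))
          · rw [Ioo_eq_empty hp']
            exact Set.empty_disjoint _)
      exact ⟨O', J', inferInstance, S', ρ, pa, g1, g2, g3, fun h => hf.good hπ (g4 h)⟩

/-- The whole quadratic part can be erased. -/
theorem exists_erase_quad (S : Sys 𝒜 O J) (hπ : Monotone π) (hd : DenseRange π) {Q : Set J}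
    {i : O} {x y : ℝ} (hq : (S.skel π).Quad Q i x y) :
    ∃ (O' J' : Type) (_ : Fintype J') (S' : Sys 𝒜 O' J') (ρ : J' → J) (pa : O' → O),
      Skel.Ref (S'.skel π) (S.skel π) ρ pa ∧
      (∀ k, k ∉ Q → (S.skel π).Long k → Skel.Full (S'.skel π) (S.skel π) ρ k) ∧
      (∀ k, (S'.skel π).Long k → ρ k ∉ Q) ∧ (S'.IsGood → S.IsGood) := by
  obtain ⟨O₁, J₁, _, S₁, ρ₁, pa₁, h1, h2, ⟨k₀, hk₀, u, v, huv, hu, hv, h3⟩, h4⟩ :=
    S.exists_open hπ hd hq
  obtain ⟨O', J', _, S', ρ, pa, g1, g2, g3, g4⟩ := S.surf_erase hπ hq hk₀ huv hu hv _ O₁ J₁ S₁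
    ρ₁ pa₁ (Nat.lt_succ_self _) h1 h2 h3
  exact ⟨O', J', inferInstance, S', ρ, pa, g1, g2, g3, fun h => h4 (g4 h)⟩

end Sys

end Pool.Agent.Lib.MP_d87150_al
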