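import Pool.Agent.Lib.MP_d87150_al.PerKill
import Pool.Agent.Lib.MP_d87150_al.Short
import Pool.Agent.Lib.MP_d87150_al.Step2
import Pool.Agent.Lib.MP_d87150_al.Surf
import Pool.Agent.Lib.MP_d87150_al.Limit

/-!
# Every system is good
-/

set_option autoImplicit false

noncomputable section

namespace Pool.Agent.Lib.MP_d87150_al

open Set

variable {Λ T G : Type} [AddCommGroup Λ] [LinearOrder Λ] [IsOrderedAddMonoid Λ] [Group G]
  [MulAction G T]

section

variable {V : Type} [AddCommGroup V] [LinearOrder V] [IsOrderedAddMonoid V] [Module ℚ V]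
  {𝒜 : Amb Λ T G V} {π : V →+ ℝ}

/-- The invariant of a run of Process II on a bad system. -/
structure MainInv (𝒜 : Amb Λ T G V) {π : V →+ ℝ} {O J : Type} [Fintype J] (m N : ℕ) (i : O)
    (A : Skel π J O) : Prop where
  nf : A.NoFree
  ap : A.Aper
  rk : A.rk ≤ m
  nl : A.NL ≤ N + 1
  lg : ∃ ω : J × Bool, A.Long ω.1 ∧ A.ob ω = i
  bad : ∃ (O' J' : Type) (_ : Fintype J') (S' : Sys 𝒜 O' J') (ρ : J' → J) (pa : O' → O),
    Skel.Iso (S'.skel π) A ρ pa ∧ ¬ S'.IsGood

theorem MainInv.step (hπ : Monotone π) (hd : DenseRange π) {m N : ℕ}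
    (hm : ∀ (O J : Type) [Fintype J] (S : Sys 𝒜 O J), (S.skel π).Aper → (S.skel π).rk < m →
      S.IsGood)
    (ih : ∀ (O J : Type) [Fintype J] (S : Sys 𝒜 O J), (S.skel π).Aper → (S.skel π).NoFree →
      (S.skel π).rk ≤ m → (S.skel π).NL ≤ N → S.IsGood)
    {O J : Type} [Fintype J] {i : O} {A : Skel π J O} (h : MainInv 𝒜 m N i A) :
    ∃ p : (J × Bool) × ℝ, A.Carrier p.1 p.2 ∧ A.ob p.1 = i ∧ p.2 < A.hi p.1 ∧
      MainInv 𝒜 m N i (A.step p.1 p.2) := by
  obtain ⟨ω, hω, hoω⟩ := h.lg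
  obtain ⟨O', J', _, S', ρ, pa, hiso, hbad⟩ := h.bad
  obtain ⟨l, hol, hl⟩ := Skel.exists_lead hω
  have hna : ¬ A.Ann l := by
    intro ha
    obtain ⟨l', hl', ha'⟩ := hiso.lift_ann hl.long ha
    obtain ⟨S'', h1, h2, h3⟩ := S'.exists_annulus hπ hd (hiso.toRef.aper h.ap) hl' ha'.1 ha'.2
    exact hbad (h3 (hm _ _ S'' h1 (h2.trans_le (hiso.rk_le.trans h.rk))))
  obtain ⟨z, hc⟩ := hl.exists_carrier hna
  obtain ⟨l', -, hc', hiso'⟩ := hiso.lift_carrier hc
  obtain ⟨O'', J'', _, S'', ρ', pa', hiso'', hg⟩ := S'.exists_step hπ hc'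
  have hI := hiso''.trans hiso'
  have hlt : z < A.hi l := by
    refine lt_of_le_of_ne hc.le_hi fun he => hbad (hg ?_)
    refine ih _ _ S'' (hI.toRef.aper (hc.step_aper h.ap)) (hI.noFree (hc.step_noFree h.nf))
      (hI.rk_le.trans (hc.step_rk_le.trans h.rk)) ?_
    have h1 := hI.nl_eq
    have h2 := hc.step_nl_lt he
    have h3 := h.nl
    omega
  refine ⟨(l, z), hc, hol.trans hoω, hlt, hc.step_noFree h.nf, hc.step_aper h.ap,
    hc.step_rk_le.trans h.rk, hc.step_nl_le.trans h.nl,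
    ⟨l, ?_, hc.step_ob.trans (hol.trans hoω)⟩, _, _, inferInstance, S'', _, _, hI,
    fun hh => hbad (hg hh)⟩
  have h1 := hc.step_width
  have h2 := A.hi_sub_lo l
  unfold Skel.Long
  linarith

/-- Process II: systems without free points. -/
theorem good_of_noFree (hπ : Monotone π) (hd : DenseRange π)
    (h0 : ∀ (O J : Type) [Fintype J] (S : Sys 𝒜 O J), (S.skel π).NL = 0 → S.IsGood) (m : ℕ)
    (hm : ∀ (O J : Type) [Fintype J] (S : Sys 𝒜 O J), (S.skel π).Aper → (S.skel π).rk < m →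
      S.IsGood) (N : ℕ) :
    ∀ (O J : Type) [Fintype J] (S : Sys 𝒜 O J), (S.skel π).Aper → (S.skel π).NoFree →
      (S.skel π).rk ≤ m → (S.skel π).NL ≤ N → S.IsGood := by
  induction N with
  | zero => exact fun O J _ S _ _ _ h => h0 O J S (Nat.le_zero.1 h)
  | succ N ih =>
    intro O J _ S hap hnf hrk hnl
    by_contra hbad
    obtain ⟨k, hk⟩ : {k | (S.skel π).Long k}.Nonempty :=
      Set.nonempty_of_ncard_ne_zero fun h => hbad (h0 O J S h)
    let i : O := (S.skel π).ob (k, false)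
    have hI : MainInv 𝒜 m N i (S.skel π) :=
      ⟨hnf, hap, hrk, hnl, ⟨(k, false), hk, rfl⟩, O, J, inferInstance, S, id, id,
        Skel.Iso.refl _, hbad⟩
    choose p hp using fun A : {A : Skel π J O // MainInv 𝒜 m N i A} => A.2.step hπ hd hm ih
    let f : {A : Skel π J O // MainInv 𝒜 m N i A} → {A : Skel π J O // MainInv 𝒜 m N i A} :=
      fun A => ⟨A.1.step (p A).1 (p A).2, (hp A).2.2.2⟩
    let B : ℕ → {A : Skel π J O // MainInv 𝒜 m N i A} := fun n => f^[n] ⟨_, hI⟩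
    have hrun : Skel.Run (fun n => (B n).1) (fun n => (p (B n)).1) (fun n => (p (B n)).2) i :=
      ⟨fun n => (hp _).1, fun n => congrArg Subtype.val (Function.iterate_succ_apply' f n _),
        fun n => (hp _).2.1, fun n => (hp _).2.2.1⟩
    obtain ⟨n, Q, x, y, hq⟩ := hrun.exists_quad hnf (hrun.tendsto_width hap (S.noRefl hπ hd))
    have h := (B n).2
    obtain ⟨O', J', _, S', ρ, pa, hiso, hbad'⟩ := h.bad
    obtain ⟨Q', i', hq'⟩ := hiso.lift_quad hq
    obtain ⟨O'', J'', _, S'', ρ', pa', href, hfull, hQ, hg⟩ := S'.exists_erase_quad hπ hd hq'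
    obtain ⟨h1, h2, h3⟩ := hq'.erased (hiso.noFree h.nf) href hQ hfull
    refine hbad' (hg (ih _ _ S'' (href.aper (hiso.toRef.aper h.ap)) h1
      (h3.trans (hiso.rk_le.trans h.rk)) ?_))
    have h4 := hiso.nl_eq
    have h5 := h.nl
    omega

/-- The aperiodic case. -/
theorem good_of_aper (hπ : Monotone π) (hd : DenseRange π)
    (h0 : ∀ (O J : Type) [Fintype J] (S : Sys 𝒜 O J), (S.skel π).NL = 0 → S.IsGood) :
    ∀ (O J : Type) [Fintype J] (S : Sys 𝒜 O J), (S.skel π).Aper → S.IsGood := by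
  have key : ∀ m : ℕ, ∀ (O J : Type) [Fintype J] (S : Sys 𝒜 O J), (S.skel π).Aper →
      (S.skel π).rk < m → S.IsGood := by
    intro m
    induction m with
    | zero => exact fun O J _ S _ h => absurd h (Nat.not_lt_zero _)
    | succ m ih =>
      have key2 : ∀ g : ℕ, ∀ (O J : Type) [Fintype J] (S : Sys 𝒜 O J), (S.skel π).Aper →
          (S.skel π).rk ≤ m → S.Gp π < g → S.IsGood := by
        intro g
        induction g with
        | zero => exact fun O J _ S _ _ h => absurd h (Nat.not_lt_zero _)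
        | succ g ih2 =>
          intro O J _ S hap hrk hg
          by_cases hnf : (S.skel π).NoFree
          · exact good_of_noFree hπ hd h0 m ih _ O J S hap hnf hrk le_rfl
          · obtain ⟨ω, z, hf⟩ := S.exists_freeAt π hnf
            exact hf.good hπ (ih2 _ _ _ ((S.cut_ref _ hπ).aper hap) ((hf.rk_le hπ).trans hrk)
              ((hf.gp_lt hπ).trans_le (Nat.lt_succ_iff.1 hg)))
      exact fun O J _ S hap hrk => key2 _ O J S hap (Nat.lt_succ_iff.1 hrk) (Nat.lt_succ_self _)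
  exact fun O J _ S hap => key _ O J S hap (Nat.lt_succ_self _)

end

theorem good_of_finrank (n : ℕ) : ∀ (V : Type) [AddCommGroup V] [LinearOrder V]
    [IsOrderedAddMonoid V] [Module ℚ V] [FiniteDimensional ℚ V] (𝒜 : Amb Λ T G V),
    Module.finrank ℚ V ≤ n → ∀ (O J : Type) [Fintype J] (S : Sys 𝒜 O J), S.IsGood := by
  induction n using Nat.strong_induction_on with
  | _ n ih =>
    intro V _ _ _ _ _ 𝒜 hn O J _ S
    rcases subsingleton_or_nontrivial V with hV | hV
    · exact S.good_of_subsingleton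
    · obtain ⟨π, hπ, hd, W, hW, hlt⟩ := exists_real_part V
      obtain ⟨O', J', _, S', hap, hg⟩ := S.exists_aper hπ hd
      refine hg (good_of_aper hπ hd (fun O₁ J₁ _ S₁ h => ?_) O' J' S' hap)
      obtain ⟨O₂, S₂, h₂⟩ := S₁.exists_restrict W fun k t ht t' ht' =>
        (hW _).2 (S₁.sub_mem_of_nl_eq_zero hπ h k t ht t' ht')
      exact h₂ (ih _ (hlt.trans_le hn) W _ le_rfl _ _ S₂)

theorem Sys.isGood {V : Type} [AddCommGroup V] [LinearOrder V] [IsOrderedAddMonoid V]
    [Module ℚ V] {𝒜 : Amb Λ T G V} {O J : Type} [Fintype J] (S : Sys 𝒜 O J) : S.IsGood := by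
  let W : Submodule ℚ V := Submodule.span ℚ (⋃ k, ((S.B k).F : Set V))
  have : FiniteDimensional ℚ W :=
    FiniteDimensional.span_of_finite ℚ (Set.finite_iUnion fun k => (S.B k).F.finite_toSet)
  have hW : ∀ k, ∀ t ∈ (S.B k).F, t ∈ W := fun k t ht =>
    Submodule.subset_span (Set.mem_iUnion.2 ⟨k, ht⟩)
  obtain ⟨O', S', h⟩ := S.exists_restrict W fun k t ht t' ht' =>
    W.sub_mem (hW k t ht) (hW k t' ht')
  exact h (good_of_finrank _ W _ le_rfl _ _ S')

end Pool.Agent.Lib.MP_d87150_al
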