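import Pool.Agent.Lib.MP_d87150_al.Good

/-!
# Several merges at once
-/

set_option autoImplicit false

noncomputable section

namespace Pool.Agent.Lib.MP_d87150_al

variable {G A O : Type} [Group G] [Fintype A]

omit [Group G] [Fintype A] in
theorem LG.map_map_mu {O' O'' : Type} (Γ : LG G A O) (σ : O → O') (ρ : O' → O'') :
    (Γ.map σ).map ρ = Γ.map (fun o => ρ (σ o)) := rfl

omit [Group G] [Fintype A] in
theorem LG.map_id_mu (Γ : LG G A O) : Γ.map (fun o => o) = Γ := rfl

omit [Group G] [Fintype A] in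
theorem LG.mem_used_map_mu {O' : Type} {Γ : LG G A O} {ρ : O → O'} {v : O'} :
    v ∈ (Γ.map ρ).used ↔ ∃ u ∈ Γ.used, ρ u = v := by
  constructor
  · rintro ⟨a, s, h⟩
    exact ⟨Γ.en a s, ⟨a, s, rfl⟩, h⟩
  · rintro ⟨u, ⟨a, s, rfl⟩, h⟩
    exact ⟨a, s, h⟩

omit [Group G] in
theorem LG.finite_used_mu (Γ : LG G A O) : Γ.used.Finite := by
  refine (Set.finite_range fun ω : A × Bool => Γ.en ω.1 ω.2).subset ?_
  rintro o ⟨a, s, rfl⟩
  exact ⟨(a, s), rfl⟩

omit [Fintype A] in
theorem LG.edge_map_mu {O' : Type} (Γ : LG G A O) (ρ : O → O') :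
    ∀ p q e, (p, q, e) ∈ Γ.edges → Conn (Γ.map ρ).edges (p.1, ρ p.2) (q.1, ρ q.2) e := by
  rintro p q e ⟨a, h⟩
  simp only [Prod.mk.injEq] at h
  obtain ⟨rfl, rfl, rfl⟩ := h
  exact (Γ.map ρ).conn_arrow a

omit [Fintype A] in
theorem LG.conn_map_mu {O' : Type} {Γ : LG G A O} (ρ : O → O') {p q : G × O} {e : Fn G A}
    (h : Conn Γ.edges p q e) : Conn (Γ.map ρ).edges (p.1, ρ p.2) (q.1, ρ q.2) e :=
  Conn.pull' ρ (Γ.edge_map_mu ρ) h

open Classical in
/-- The map sending `o'` to `o` and fixing everything else. -/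
def mergeMapMu (o o' : O) : O → O := fun w => if w = o' then o else w

omit [Group G] [Fintype A] in
theorem mergeAt_mergeMapMu (Γ : LG G A O) {o o' : O} (h : o ≠ o') :
    Γ.MergeAt (mergeMapMu o o') o o' := by
  refine ⟨h, by simp [mergeMapMu, h], ?_⟩
  intro u _ u' _ huu
  unfold mergeMapMu at huu
  by_cases h1 : u = o'
  · by_cases h2 : u' = o'
    · exact Or.inl (h1.trans h2.symm)
    · rw [if_pos h1, if_neg h2] at huu
      exact Or.inr (Or.inr ⟨h1, huu.symm⟩)
  · by_cases h2 : u' = o'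
    · rw [if_neg h1, if_pos h2] at huu
      exact Or.inr (Or.inl ⟨huu, h2⟩)
    · rw [if_neg h1, if_neg h2] at huu
      exact Or.inl huu

omit [Group G] [Fintype A] in
theorem map_mergeMapMu_map {O' : Type} (Γ : LG G A O) {o o' : O} {ρ : O → O'} (h : ρ o = ρ o') :
    (Γ.map (mergeMapMu o o')).map ρ = Γ.map ρ := by
  have : (fun w => ρ (mergeMapMu o o' w)) = ρ := by
    funext w
    unfold mergeMapMu
    by_cases h1 : w = o'
    · rw [if_pos h1, h1, h]
    · rw [if_neg h1]
  rw [LG.map_map_mu, this]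

omit [Group G] in
theorem ncard_used_mergeMapMu (Γ : LG G A O) {o o' : O} (h : o ≠ o') (ho : o ∈ Γ.used)
    (ho' : o' ∈ Γ.used) : (Γ.map (mergeMapMu o o')).used.ncard < Γ.used.ncard := by
  refine Set.ncard_lt_ncard ⟨?_, ?_⟩ Γ.finite_used_mu
  · intro v hv
    obtain ⟨u, hu, rfl⟩ := LG.mem_used_map_mu.1 hv
    unfold mergeMapMu
    by_cases h1 : u = o'
    · rw [if_pos h1]; exact ho
    · rw [if_neg h1]; exact hu
  · intro hs
    obtain ⟨u, _, hu⟩ := LG.mem_used_map_mu.1 (hs ho')
    unfold mergeMapMu at hu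
    by_cases h1 : u = o'
    · rw [if_pos h1] at hu; exact h hu
    · rw [if_neg h1] at hu; exact h1 hu

omit [Fintype A] in
theorem Zm_le_Zm_map_of_injOn_mu {O' : Type} {Γ : LG G A O} {ρ : O → O'}
    (hρ : Set.InjOn ρ Γ.used) : Zm Γ.edges ≤ Zm (Γ.map ρ).edges := by
  intro c hc p e hpe
  rcases isEmpty_or_nonempty A with hA | hA
  · have : c = 0 := funext fun a => isEmptyElim a
    rw [this, map_zero]
  · obtain ⟨a₀⟩ := hA
    have : Nonempty O := ⟨Γ.en a₀ false⟩
    have h2 := Conn.pull' (𝔈' := Γ.edges) (Function.invFunOn ρ Γ.used) ?_ hpe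
    · exact hc _ _ h2
    · rintro p' q' e' ⟨a, h⟩
      simp only [Prod.mk.injEq] at h
      obtain ⟨rfl, rfl, rfl⟩ := h
      have h1 : ∀ s, Function.invFunOn ρ Γ.used (((Γ.map ρ).pt a s).2) = Γ.en a s := fun s =>
        hρ.leftInvOn_invFunOn ⟨a, s, rfl⟩
      rw [h1, h1]
      exact Γ.conn_arrow a

/-- One merge along an auxiliary edge set with commutative stabilizers. -/
theorem Good.merge_ab (hG : Nice G) {O' X : Type} {Γ : LG G A O} {ρ : O → O'}
    {𝔈 : Set (Edge G A X)} (μ : X → O) {x x' : X} (hm : Γ.MergeAt ρ (μ x) (μ x'))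
    (hreal : ∀ p q e, (p, q, e) ∈ 𝔈 → Conn Γ.edges (p.1, μ p.2) (q.1, μ q.2) e)
    (hcomm : ∀ y, ∀ a ∈ Im (insert (((1 : G), x), ((1 : G), x'), (0 : Fn G A)) 𝔈) y,
      ∀ b ∈ Im (insert (((1 : G), x), ((1 : G), x'), (0 : Fn G A)) 𝔈) y, Commute a b)
    {Z : Set (H G A)} (hZ : Z ⊆ Zm 𝔈) (h : Good Γ Z) :
    Good (Γ.map ρ)
      (Z ∩ Zm (insert (((1 : G), x), ((1 : G), x'), (0 : Fn G A)) 𝔈)) := by
  rcases insert_cases hG hcomm with ⟨e, he⟩ | ⟨u, v, ep, eq, hu, hv, huv, hp, hq⟩ | hle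
  · have h1 := Conn.pull' μ hreal he
    refine (Good.merge_def hm h1 h).mono ?_
    rintro c ⟨hc, hec⟩
    exact ⟨hc, mem_Zm_insert_of_conn he (hZ hc) (by rw [hec]; rfl)⟩
  · have h1 := Conn.pull' μ hreal hp
    have h2 := Conn.pull' μ hreal hq
    simp only [tr_mk, mul_one] at h1 h2
    refine (Good.merge_comm hG hm h1 h2 hu hv huv h).mono ?_
    rintro c ⟨hc, hec⟩
    refine ⟨hc, mem_Zm_insert_of_comm hG hcomm hp hq hu hv (hZ hc) ?_⟩
    simpa only [zero_apply, smul_zero, add_zero, sub_zero] using hec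
  · refine (Good.merge_free hG hm h).mono ?_
    intro c hc
    exact ⟨hc, hle (hZ hc)⟩

/-- The zero edges between the pairs `x k`, `x' k`. -/
def zeroEdges (G A : Type) [Group G] {K X : Type} (x x' : K → X) : Set (Edge G A X) :=
  Set.range fun k => (((1 : G), x k), ((1 : G), x' k), (0 : Fn G A))

open Classical in
/-- Erase the flags in `s`. -/
def eraseFlMu {K : Type} (s : Finset K) (u : O × (K → Bool)) : O × (K → Bool) :=
  (u.1, fun l => if l ∈ s then false else u.2 l)

/-- The zero edges with index in `s`. -/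
def zeroEdgesOnMu (G A : Type) [Group G] {K X : Type} (x x' : K → X) (s : Finset K) :
    Set (Edge G A X) :=
  {ε | ∃ k ∈ s, ε = (((1 : G), x k), ((1 : G), x' k), (0 : Fn G A))}

theorem eraseFlMu_eq_iff {K : Type} {s : Finset K} {u v : O × (K → Bool)} :
    eraseFlMu s u = eraseFlMu s v ↔ u.1 = v.1 ∧ ∀ l, l ∉ s → u.2 l = v.2 l := by
  unfold eraseFlMu
  constructor
  · intro h
    simp only [Prod.mk.injEq] at h
    refine ⟨h.1, fun l hl => ?_⟩
    have := congrFun h.2 l
    simpa only [if_neg hl] using this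
  · rintro ⟨h1, h2⟩
    refine Prod.ext h1 (funext fun l => ?_)
    by_cases hl : l ∈ s
    · simp only [if_pos hl]
    · simp only [if_neg hl, h2 l hl]

theorem eraseFlMu_snd {K : Type} {s : Finset K} (u : O × (K → Bool)) {l : K} (hl : l ∉ s) :
    (eraseFlMu s u).2 l = u.2 l := by
  unfold eraseFlMu
  simp only [if_neg hl]

theorem eraseFlMu_eraseFlMu {K : Type} [DecidableEq K] (s : Finset K) (k : K)
    (u : O × (K → Bool)) : eraseFlMu {k} (eraseFlMu s u) = eraseFlMu (insert k s) u := by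
  unfold eraseFlMu
  refine Prod.ext rfl (funext fun l => ?_)
  by_cases h1 : l = k
  · simp [h1]
  · by_cases h2 : l ∈ s
    · simp [h2]
    · simp [h1, h2]

/-- Erasing all flags. -/
theorem Good.multi_ab (hG : Nice G) {K X : Type} [Fintype K] {Γ : LG G A (O × (K → Bool))}
    {𝔈 : Set (Edge G A X)} (μ : X → O × (K → Bool)) (x x' : K → X)
    (hreal : ∀ p q e, (p, q, e) ∈ 𝔈 → Conn Γ.edges (p.1, μ p.2) (q.1, μ q.2) e)
    (hx1 : ∀ k, (μ (x k)).1 = (μ (x' k)).1) (hx2 : ∀ k, (μ (x k)).2 k = false)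
    (hx3 : ∀ k, (μ (x' k)).2 k = true)
    (hx4 : ∀ k l, l ≠ k → (μ (x k)).2 l = (μ (x' k)).2 l)
    (hC : ∀ u ∈ Γ.used, ∀ u' ∈ Γ.used, ∀ k, u.1 = u'.1 → u.2 k = false → u'.2 k = true →
      u.1 = (μ (x k)).1 ∧ ∀ l, l ≠ k → u.2 l = u'.2 l → (μ (x k)).2 l = u.2 l)
    (hcomm : ∀ y, ∀ a ∈ Im (𝔈 ∪ zeroEdges G A x x') y, ∀ b ∈ Im (𝔈 ∪ zeroEdges G A x x') y,
      Commute a b)
    {Z : Set (H G A)} (hZ : Z ⊆ Zm 𝔈) (h : Good Γ Z) :
    Good (Γ.map Prod.fst) (Z ∩ Zm (𝔈 ∪ zeroEdges G A x x')) := by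
  classical
  have key : ∀ s : Finset K,
      Good (Γ.map (eraseFlMu s)) (Z ∩ Zm (𝔈 ∪ zeroEdgesOnMu G A x x' s)) := by
    intro s
    induction s using Finset.induction_on with
    | empty =>
      have e1 : (eraseFlMu (∅ : Finset K) : O × (K → Bool) → O × (K → Bool)) = fun u => u := by
        funext u
        unfold eraseFlMu
        simp
      have e2 : zeroEdgesOnMu G A x x' ∅ = ∅ := by
        ext ε
        simp [zeroEdgesOnMu]
      rw [e1, e2, LG.map_id_mu, Set.union_empty]
      exact h.mono fun c hc => ⟨hc, hZ hc⟩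
    | insert k s hk ih =>
      have e2 : 𝔈 ∪ zeroEdgesOnMu G A x x' (insert k s) =
          insert (((1 : G), x k), ((1 : G), x' k), (0 : Fn G A)) (𝔈 ∪ zeroEdgesOnMu G A x x' s) := by
        ext ε
        simp only [zeroEdgesOnMu, Finset.mem_insert, Set.mem_union, Set.mem_ofPred_eq,
          Set.mem_insert_iff]
        constructor
        · rintro (h1 | ⟨l, rfl | hl, h2⟩)
          · exact Or.inr (Or.inl h1)
          · exact Or.inl h2
          · exact Or.inr (Or.inr ⟨l, hl, h2⟩)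
        · rintro (h1 | h1 | ⟨l, hl, h2⟩)
          · exact Or.inr ⟨k, Or.inl rfl, h1⟩
          · exact Or.inl h1
          · exact Or.inr ⟨l, Or.inr hl, h2⟩
      have e1 : Γ.map (eraseFlMu (insert k s)) = (Γ.map (eraseFlMu s)).map (eraseFlMu {k}) := by
        rw [LG.map_map_mu]
        simp only [eraseFlMu_eraseFlMu]
      -- a point with the same image as `μ (x k)` is one of the two
      have two : ∀ v : O × (K → Bool), v.1 = (μ (x k)).1 →
          (∀ l, l ∉ s → l ≠ k → v.2 l = (μ (x k)).2 l) →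
          (v.2 k = false → eraseFlMu s v = eraseFlMu s (μ (x k))) ∧
            (v.2 k = true → eraseFlMu s v = eraseFlMu s (μ (x' k))) := by
        intro v h1 h2
        constructor
        · intro h3
          refine eraseFlMu_eq_iff.2 ⟨h1, fun l hl => ?_⟩
          by_cases hlk : l = k
          · rw [hlk, h3, hx2]
          · exact h2 l hl hlk
        · intro h3
          refine eraseFlMu_eq_iff.2 ⟨h1.trans (hx1 k), fun l hl => ?_⟩
          by_cases hlk : l = k
          · rw [hlk, h3, hx3]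
          · rw [h2 l hl hlk, hx4 k l hlk]
      have hm : (Γ.map (eraseFlMu s)).MergeAt (eraseFlMu {k}) (eraseFlMu s (μ (x k)))
          (eraseFlMu s (μ (x' k))) := by
        refine ⟨?_, ?_, ?_⟩
        · intro heq
          have := (eraseFlMu_eq_iff.1 heq).2 k hk
          rw [hx2, hx3] at this
          exact Bool.false_ne_true this
        · rw [eraseFlMu_eraseFlMu, eraseFlMu_eraseFlMu]
          refine eraseFlMu_eq_iff.2 ⟨hx1 k, fun l hl => hx4 k l ?_⟩
          rintro rfl
          exact hl (Finset.mem_insert_self _ _)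
        · have lift : ∀ v ∈ (Γ.map (eraseFlMu s)).used ∪
              {eraseFlMu s (μ (x k)), eraseFlMu s (μ (x' k))},
              ∃ u, eraseFlMu s u = v ∧ (u ∈ Γ.used ∨ (u.1 = (μ (x k)).1 ∧
                ∀ l, l ≠ k → u.2 l = (μ (x k)).2 l)) := by
            rintro v (hv | hv | hv)
            · obtain ⟨u, hu, rfl⟩ := LG.mem_used_map_mu.1 hv
              exact ⟨u, rfl, Or.inl hu⟩
            · exact ⟨μ (x k), hv.symm, Or.inr ⟨rfl, fun _ _ => rfl⟩⟩
            · exact ⟨μ (x' k), hv.symm, Or.inr ⟨(hx1 k).symm, fun l hl => (hx4 k l hl).symm⟩⟩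
          have main : ∀ u u' : O × (K → Bool),
              (u ∈ Γ.used ∨ (u.1 = (μ (x k)).1 ∧ ∀ l, l ≠ k → u.2 l = (μ (x k)).2 l)) →
              (u' ∈ Γ.used ∨ (u'.1 = (μ (x k)).1 ∧ ∀ l, l ≠ k → u'.2 l = (μ (x k)).2 l)) →
              u.1 = u'.1 → (∀ l, l ∉ s → l ≠ k → u.2 l = u'.2 l) → u.2 k = false →
              u'.2 k = true →
              eraseFlMu s u = eraseFlMu s (μ (x k)) ∧ eraseFlMu s u' = eraseFlMu s (μ (x' k)) := by
            intro u u' hu hu' h1 h2 h3 h4
            have h5 : u.1 = (μ (x k)).1 ∧ ∀ l, l ∉ s → l ≠ k → u.2 l = (μ (x k)).2 l := by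
              rcases hu with hu | hu
              · rcases hu' with hu' | hu'
                · obtain ⟨h6, h7⟩ := hC u hu u' hu' k h1 h3 h4
                  exact ⟨h6, fun l hl hlk => (h7 l hlk (h2 l hl hlk)).symm⟩
                · exact ⟨h1.trans hu'.1, fun l hl hlk => (h2 l hl hlk).trans (hu'.2 l hlk)⟩
              · exact ⟨hu.1, fun l _ hlk => hu.2 l hlk⟩
            refine ⟨(two u h5.1 h5.2).1 h3, (two u' (h1.symm.trans h5.1) ?_).2 h4⟩
            intro l hl hlk
            exact (h2 l hl hlk).symm.trans (h5.2 l hl hlk)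
          intro v hv v' hv' hvv
          obtain ⟨u, rfl, hu⟩ := lift v hv
          obtain ⟨u', rfl, hu'⟩ := lift v' hv'
          rw [eraseFlMu_eraseFlMu, eraseFlMu_eraseFlMu] at hvv
          obtain ⟨h1, h2⟩ := eraseFlMu_eq_iff.1 hvv
          have h2' : ∀ l, l ∉ s → l ≠ k → u.2 l = u'.2 l := by
            intro l hl hlk
            refine h2 l fun hmem => ?_
            rcases Finset.mem_insert.1 hmem with h3 | h3
            · exact hlk h3
            · exact hl h3
          by_cases hkk : u.2 k = u'.2 k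
          · refine Or.inl (eraseFlMu_eq_iff.2 ⟨h1, fun l hl => ?_⟩)
            by_cases hlk : l = k
            · rw [hlk, hkk]
            · exact h2' l hl hlk
          · cases h3 : u.2 k
            · have h4 : u'.2 k = true := by
                cases h4 : u'.2 k
                · exact absurd (h3.trans h4.symm) hkk
                · rfl
              exact Or.inr (Or.inl (main u u' hu hu' h1 h2' h3 h4))
            · have h4 : u'.2 k = false := by
                cases h4 : u'.2 k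
                · rfl
                · exact absurd (h3.trans h4.symm) hkk
              have := main u' u hu' hu h1.symm (fun l hl hlk => (h2' l hl hlk).symm) h4 h3
              exact Or.inr (Or.inr ⟨this.2, this.1⟩)
      rw [e1, e2]
      have hres := Good.merge_ab hG (𝔈 := 𝔈 ∪ zeroEdgesOnMu G A x x' s)
        (fun y => eraseFlMu s (μ y)) hm ?_ ?_ Set.inter_subset_right ih
      · exact hres.mono fun c hc => ⟨hc.1.1, hc.2⟩
      · rintro p q e (hpq | ⟨l, hl, hpq⟩)
        · exact LG.conn_map_mu (eraseFlMu s) (hreal p q e hpq)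
        · simp only [Prod.mk.injEq] at hpq
          obtain ⟨rfl, rfl, rfl⟩ := hpq
          have : eraseFlMu s (μ (x l)) = eraseFlMu s (μ (x' l)) := by
            refine eraseFlMu_eq_iff.2 ⟨hx1 l, fun m hm' => hx4 l m ?_⟩
            rintro rfl
            exact hm' hl
          show Conn _ (1, eraseFlMu s (μ (x l))) (1, eraseFlMu s (μ (x' l))) 0
          rw [this]
          exact Conn.refl _
      · intro y a ha b hb
        have hsub : insert (((1 : G), x k), ((1 : G), x' k), (0 : Fn G A))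
            (𝔈 ∪ zeroEdgesOnMu G A x x' s) ⊆ 𝔈 ∪ zeroEdges G A x x' := by
          rintro ε (h1 | h1 | ⟨l, _, h1⟩)
          · exact Or.inr ⟨k, h1.symm⟩
          · exact Or.inl h1
          · exact Or.inr ⟨l, h1.symm⟩
        exact hcomm y a (Im_mono hsub y ha) b (Im_mono hsub y hb)
  have e2 : zeroEdgesOnMu G A x x' Finset.univ = zeroEdges G A x x' := by
    ext ε
    constructor
    · rintro ⟨l, _, h1⟩
      exact ⟨l, h1.symm⟩
    · rintro ⟨l, h1⟩
      exact ⟨l, Finset.mem_univ _, h1.symm⟩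
  have h1 := key Finset.univ
  rw [e2] at h1
  refine Good.relabel (Γ := Γ.map (eraseFlMu Finset.univ)) (ρ := Prod.fst) ?_ h1
  intro v hv v' hv' hvv
  obtain ⟨u, _, rfl⟩ := LG.mem_used_map_mu.1 hv
  obtain ⟨u', _, rfl⟩ := LG.mem_used_map_mu.1 hv'
  exact eraseFlMu_eq_iff.2 ⟨hvv, fun l hl => absurd (Finset.mem_univ l) hl⟩

/-- Arbitrary free merges. -/
theorem Good.map (hG : Nice G) {O' : Type} {Γ : LG G A O} (ρ : O → O') {Z : Set (H G A)}
    (h : Good Γ Z) : Good (Γ.map ρ) Z := by
  induction hn : Γ.used.ncard using Nat.strong_induction_on generalizing Γ with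
  | _ n ih =>
    by_cases hinj : Set.InjOn ρ Γ.used
    · exact Good.relabel hinj h
    · simp only [Set.InjOn, not_forall] at hinj
      obtain ⟨o, ho, o', ho', heq, hne⟩ := hinj
      have h1 := Good.merge_free hG (mergeAt_mergeMapMu Γ hne) h
      have h2 := ih _ (hn ▸ ncard_used_mergeMapMu Γ hne ho ho') h1 rfl
      rwa [map_mergeMapMu_map Γ heq] at h2

theorem Good.map_comm_mu (hG : Nice G) {O' : Type} {Γ : LG G A O} (ρ : O → O')
    (hcomm : ∀ o, ∀ a ∈ Im (Γ.map ρ).edges o, ∀ b ∈ Im (Γ.map ρ).edges o, Commute a b)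
    {Z : Set (H G A)} (hZ : Z ⊆ Zm Γ.edges) (h : Good Γ Z) :
    Good (Γ.map ρ) (Zm (Γ.map ρ).edges : Set (H G A)) := by
  induction hn : Γ.used.ncard using Nat.strong_induction_on generalizing Γ Z with
  | _ n ih =>
    by_cases hinj : Set.InjOn ρ Γ.used
    · exact (Good.relabel hinj h).mono fun c hc => Zm_le_Zm_map_of_injOn_mu hinj (hZ hc)
    · simp only [Set.InjOn, not_forall] at hinj
      obtain ⟨o, ho, o', ho', heq, hne⟩ := hinj
      have hm := mergeAt_mergeMapMu Γ hne
      have hIm : ∀ y, Im (insert (((1 : G), o), ((1 : G), o'), (0 : Fn G A)) Γ.edges) y ≤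
          Im (Γ.map ρ).edges (ρ y) := by
        rintro y g ⟨e, he⟩
        refine ⟨e, Conn.pull' (𝔈' := (Γ.map ρ).edges) ρ ?_ he⟩
        rintro p q f (hpq | hpq)
        · simp only [Prod.mk.injEq] at hpq
          obtain ⟨rfl, rfl, rfl⟩ := hpq
          show Conn _ (1, ρ o) (1, ρ o') 0
          rw [heq]
          exact Conn.refl _
        · exact Γ.edge_map_mu ρ p q f hpq
      have h1 := Good.merge_ab hG (𝔈 := Γ.edges) (fun y => y) hm
        (fun p q e hpq => Conn.of_mem hpq)
        (fun y a ha b hb => hcomm (ρ y) a (hIm y ha) b (hIm y hb)) hZ h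
      rw [← hm.Zm_eq] at h1
      have h2 := ih _ (hn ▸ ncard_used_mergeMapMu Γ hne ho ho')
        (by rw [map_mergeMapMu_map Γ heq]; exact hcomm) Set.inter_subset_right h1 rfl
      rwa [map_mergeMapMu_map Γ heq] at h2

/-- A graph with commutative vertex groups is good. -/
theorem good_of_comm (hG : Nice G) (Γ : LG G A O)
    (hcomm : ∀ o, ∀ a ∈ Im Γ.edges o, ∀ b ∈ Im Γ.edges o, Commute a b) :
    Good Γ (Zm Γ.edges : Set (H G A)) := by
  let Γ₀ : LG G A (A × Bool) := ⟨fun a s => (a, s), Γ.lab⟩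
  have h0 : Good Γ₀ Set.univ := Good.of_injective fun _ _ h => h
  have hZ : (Set.univ : Set (H G A)) ⊆ Zm Γ₀.edges := by
    intro c _
    refine mem_Zm_of_potential
      (fun p => if p.2.2 = true then (p.1 * (Γ.lab p.2.1 true)⁻¹) • c p.2.1 else 0) ?_
    rintro g p q e ⟨a, h⟩
    simp only [Prod.mk.injEq] at h
    obtain ⟨rfl, rfl, rfl⟩ := h
    simp [Γ₀, LG.pt, tr]
  exact Good.map_comm_mu hG (Γ := Γ₀) (fun ω => Γ.en ω.1 ω.2) hcomm hZ h0

/-- Collapsing finitely many objects along paths with label one. -/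
theorem Good.collapse [Finite O] {Γ : LG G A O} (o₀ : O) (e : O → Fn G A)
    (he : ∀ o, Conn Γ.edges (1, o₀) (1, o) (e o)) (h0 : e o₀ = 0) {Z : Set (H G A)}
    (h : Good Γ Z) :
    Good (Γ.map fun _ => ()) {c | c ∈ Z ∧ ∀ o, e o c = 0} := by
  classical
  have := Fintype.ofFinite O
  have key : ∀ s : Finset O, Good (Γ.map fun w => if w ∈ s then o₀ else w)
      {c | c ∈ Z ∧ ∀ o ∈ s, e o c = 0} := by
    intro s
    induction s using Finset.induction_on with
    | empty =>
      have e1 : (fun w => if w ∈ (∅ : Finset O) then o₀ else w) = fun w => w := by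
        funext w
        simp
      rw [e1, LG.map_id_mu]
      exact h.mono fun c hc => ⟨hc, fun o ho => absurd ho (Finset.notMem_empty o)⟩
    | insert o s ho ih =>
      by_cases hoo : o₀ = o
      · have e1 : (fun w => if w ∈ insert o s then o₀ else w) =
            fun w => if w ∈ s then o₀ else w := by
          funext w
          by_cases hw : w = o
          · simp [hw, hoo]
          · simp [hw]
        rw [e1]
        refine ih.mono ?_
        rintro c ⟨hc, hc'⟩
        refine ⟨hc, fun w hw => ?_⟩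
        rcases Finset.mem_insert.1 hw with h1 | h1
        · rw [h1, ← hoo, h0]; rfl
        · exact hc' w h1
      · have e1 : Γ.map (fun w => if w ∈ insert o s then o₀ else w) =
            (Γ.map fun w => if w ∈ s then o₀ else w).map (mergeMapMu o₀ o) := by
          rw [LG.map_map_mu]
          congr 1
          funext w
          unfold mergeMapMu
          by_cases hw : w = o
          · simp [hw, ho]
          · by_cases hw' : w ∈ s
            · simp [hw']
            · simp [hw, hw']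
        have hconn := LG.conn_map_mu (fun w => if w ∈ s then o₀ else w) (he o)
        simp only [ite_self, if_neg ho] at hconn
        rw [e1]
        refine (Good.merge_def (mergeAt_mergeMapMu _ hoo) hconn ih).mono ?_
        rintro c ⟨⟨hc, hc'⟩, hc''⟩
        refine ⟨hc, fun w hw => ?_⟩
        rcases Finset.mem_insert.1 hw with h1 | h1
        · rw [h1]; exact hc''
        · exact hc' w h1
  have h1 := Good.relabel (ρ := fun _ => ()) ?_ (key Finset.univ)
  · exact h1.mono fun c hc => ⟨hc.1, fun o => hc.2 o (Finset.mem_univ o)⟩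
  · intro v hv v' hv' _
    obtain ⟨u, _, rfl⟩ := LG.mem_used_map_mu.1 hv
    obtain ⟨u', _, rfl⟩ := LG.mem_used_map_mu.1 hv'
    simp

/-- The coboundary map of a labelled graph. -/
def LG.cobdMu {B X : Type} (Ξ : LG G B X) : H G X →L[ℝ] H G B :=
  ContinuousLinearMap.pi fun b =>
    Ξ.lab b true • (ContinuousLinearMap.proj (Ξ.en b true) : Fn G X) -
      Ξ.lab b false • (ContinuousLinearMap.proj (Ξ.en b false) : Fn G X)

theorem LG.eqv_cobd_mu {B X : Type} (Ξ : LG G B X) : Eqv Ξ.cobdMu :=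
  Eqv.pi fun _ => ((EqvF.proj _).gsmul _).sub ((EqvF.proj _).gsmul _)

theorem LG.val_cobd_mu {B X : Type} (Ξ : LG G B X) (β : H G X) {p q : G × X} {e : Fn G B}
    (h : Conn Ξ.edges p q e) : e (Ξ.cobdMu β) = q.1 • β q.2 - p.1 • β p.2 := by
  induction h with
  | refl p => simp
  | step g hmem =>
    obtain ⟨b, hb⟩ := hmem
    simp only [Prod.mk.injEq] at hb
    obtain ⟨rfl, rfl, rfl⟩ := hb
    simp [LG.cobdMu, LG.pt, tr, smul_sub, mul_smul]
  | symm _ ih => rw [neg_apply, ih, neg_sub]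
  | trans _ _ ih1 ih2 => rw [add_apply, ih1, ih2]; abel

omit [Fintype A] in
/-- No more arrows than objects and nontrivial vertex groups: no condition. -/
theorem Zm_eq_top_of_card_le (hG : Nice G) {B X : Type} [Fintype B] [Fintype X] (Ξ : LG G B X)
    (φ : B → Fn G A) (hc : Fintype.card B ≤ Fintype.card X) (hIm : ∀ x, Im Ξ.edges x ≠ ⊥) :
    Zm (Set.range fun b => (Ξ.pt b false, Ξ.pt b true, φ b)) = ⊤ := by
  have hinj : Function.Injective Ξ.cobdMu := by
    rw [injective_iff_map_eq_zero]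
    intro β hβ
    funext x
    obtain ⟨⟨g, e, he⟩, hg1⟩ := (Subgroup.ne_bot_iff_exists_ne_one.1 (hIm x))
    have hg : g ≠ 1 := fun h => hg1 (Subtype.ext h)
    have h1 := Ξ.val_cobd_mu β he
    rw [hβ, map_zero, one_smul] at h1
    exact L2.eq_zero_of_gsmul_eq (hG.tf g hg) (sub_eq_zero.1 h1.symm)
  have hd := denseRange_of_injective Ξ.eqv_cobd_mu hinj hc
  have hall : ∀ c : H G B, c ∈ Zm Ξ.edges := by
    intro c
    refine hd.induction_on (p := fun c => c ∈ Zm Ξ.edges) c (inv_Zm Ξ.eqvF_edges).closed ?_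
    intro β p e he
    rw [Ξ.val_cobd_mu β he, sub_self]
  rw [eq_top_iff]
  intro c _ p e he
  have hpush : ∃ f, Conn Ξ.edges p p f ∧ e = f.comp (ContinuousLinearMap.pi φ) := by
    refine Conn.push (𝔉 := Ξ.edges) (ContinuousLinearMap.pi φ) ?_ he
    rintro p' q' e' ⟨b, hb⟩
    simp only [Prod.mk.injEq] at hb
    obtain ⟨rfl, rfl, rfl⟩ := hb
    exact ⟨_, Ξ.conn_arrow b, rfl⟩
  obtain ⟨f, hf, rfl⟩ := hpush
  exact hall _ p f hf

/-- The two sides of a closed curve: `r + 1` pairs of parallel edges arranged in a cycle. -/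
def cycEdges {r : ℕ} (α β : Fin (r + 1) → G) (s s' : Fin (r + 1) → Bool → Bool)
    (φ : Fin (r + 1) → Bool → Fn G A) : Set (Edge G A (Fin (r + 1) × Bool)) :=
  Set.range fun p : Fin (r + 1) × Bool =>
    ((α p.1, (p.1, s p.1 p.2)), (β p.1, (p.1 + 1, s' p.1 p.2)), φ p.1 p.2)

/-- The graph underlying `cycEdges`. -/
def cycLGMu {r : ℕ} (α β : Fin (r + 1) → G) (s s' : Fin (r + 1) → Bool → Bool) :
    LG G (Fin (r + 1) × Bool) (Fin (r + 1) × Bool) where
  en := fun p t => match t with
    | false => (p.1, s p.1 p.2)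
    | true => (p.1 + 1, s' p.1 p.2)
  lab := fun p t => match t with
    | false => α p.1
    | true => β p.1

theorem cycLGMu_walk {r : ℕ} (α β : Fin (r + 1) → G) (s s' : Fin (r + 1) → Bool → Bool)
    (hs : ∀ i, Function.Injective (s i)) (hs' : ∀ i, Function.Injective (s' i))
    (a : ℕ → G) (h0 : a 0 = 1) (ha : ∀ i : Fin (r + 1), a (i + 1) = a i * (α i)⁻¹ * β i)
    (n : ℕ) (hn : n ≤ r + 1) :
    ∃ π : Bool → Bool, Function.Injective π ∧ ∀ b, ∃ e,
      Conn (cycLGMu α β s s').edges (1, (0, b)) (a n, (Fin.ofNat (r + 1) n, π b)) e := by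
  induction n with
  | zero =>
    refine ⟨fun b => b, fun _ _ h => h, fun b => ⟨0, ?_⟩⟩
    rw [h0]
    exact Conn.refl _
  | succ n ih =>
    obtain ⟨π, hπ, hc⟩ := ih (by omega)
    let i : Fin (r + 1) := ⟨n, by omega⟩
    have e1 : Fin.ofNat (r + 1) n = i := by
      apply Fin.ext
      simp only [Fin.val_ofNat, i]
      exact Nat.mod_eq_of_lt (by omega)
    have e2 : Fin.ofNat (r + 1) (n + 1) = i + 1 := by
      apply Fin.ext
      simp only [Fin.val_ofNat, i, Fin.val_add, Fin.coe_ofNat_eq_mod, Nat.add_mod_mod]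
    have hsurj : Function.Surjective (s i) := Finite.injective_iff_surjective.1 (hs i)
    obtain ⟨t, ht⟩ := hsurj.hasRightInverse
    refine ⟨fun b => s' i (t (π b)), (hs' i).comp (ht.injective.comp hπ), fun b => ?_⟩
    obtain ⟨e, he⟩ := hc b
    have h1 := ((cycLGMu α β s s').conn_arrow (i, t (π b))).translate (a n * (α i)⁻¹)
    have e3 : tr (a n * (α i)⁻¹) ((cycLGMu α β s s').pt (i, t (π b)) false) =
        (a n, (Fin.ofNat (r + 1) n, π b)) := by
      rw [e1]
      show (a n * (α i)⁻¹ * α i, (i, s i (t (π b)))) = _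
      rw [ht (π b), inv_mul_cancel_right]
    have e4 : tr (a n * (α i)⁻¹) ((cycLGMu α β s s').pt (i, t (π b)) true) =
        (a (n + 1), (Fin.ofNat (r + 1) (n + 1), s' i (t (π b)))) := by
      rw [e2]
      show (a n * (α i)⁻¹ * β i, (i + 1, s' i (t (π b)))) = _
      rw [← ha i]
    rw [e3, e4] at h1
    exact ⟨_, he.trans h1⟩

theorem cycLGMu_Im_ne_bot (hG : Nice G) {r : ℕ} (α β : Fin (r + 1) → G)
    (s s' : Fin (r + 1) → Bool → Bool)
    (hs : ∀ i, Function.Injective (s i)) (hs' : ∀ i, Function.Injective (s' i))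
    (a : ℕ → G) (h0 : a 0 = 1) (ha : ∀ i : Fin (r + 1), a (i + 1) = a i * (α i)⁻¹ * β i)
    (hne : a (r + 1) ≠ 1) (y : Fin (r + 1) × Bool) : Im (cycLGMu α β s s').edges y ≠ ⊥ := by
  obtain ⟨π, hπ, hc⟩ := cycLGMu_walk α β s s' hs hs' a h0 ha (r + 1) le_rfl
  have e0 : Fin.ofNat (r + 1) (r + 1) = 0 := by
    apply Fin.ext
    simp
  rw [e0] at hc
  have hππ : ∀ b, π (π b) = b := by
    intro b
    have h1 : π false ≠ π true := fun h => Bool.false_ne_true (hπ h)
    cases b <;> cases h2 : π false <;> cases h3 : π true <;> simp_all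
  have hsq : ∀ b, ∃ e, Conn (cycLGMu α β s s').edges (1, (0, b))
      (a (r + 1) * a (r + 1), (0, b)) e := by
    intro b
    obtain ⟨e, he⟩ := hc b
    obtain ⟨f, hf⟩ := hc (π b)
    have h1 := hf.translate (a (r + 1))
    simp only [tr_mk, mul_one, hππ] at h1
    exact ⟨_, he.trans h1⟩
  have hw : a (r + 1) * a (r + 1) ≠ 1 := by
    intro h
    refine hG.tf _ hne (isOfFinOrder_iff_pow_eq_one.2 ⟨2, by norm_num, ?_⟩)
    rw [pow_two, h]
  obtain ⟨i, b'⟩ := y
  obtain ⟨ρ, hρ, hd⟩ := cycLGMu_walk α β s s' hs hs' a h0 ha i (by have := i.2; omega)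
  have e1 : Fin.ofNat (r + 1) i = i := by
    apply Fin.ext
    simp only [Fin.val_ofNat]
    exact Nat.mod_eq_of_lt i.2
  rw [e1] at hd
  obtain ⟨b, rfl⟩ := Finite.injective_iff_surjective.1 hρ b'
  obtain ⟨e, he⟩ := hd b
  obtain ⟨f, hf⟩ := hsq b
  have h1 := he.translate (a (r + 1) * a (r + 1))
  simp only [tr_mk, mul_one] at h1
  have h2 := ((he.symm.trans hf).trans h1).translate (a i)⁻¹
  simp only [tr_mk, inv_mul_cancel] at h2
  intro hbot
  have h3 : (a i)⁻¹ * (a (r + 1) * a (r + 1) * a i) ∈ Im (cycLGMu α β s s').edges (i, ρ b) :=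
    ⟨_, h2⟩
  rw [hbot, Subgroup.mem_bot] at h3
  apply hw
  have h4 : a (r + 1) * a (r + 1) =
      a i * ((a i)⁻¹ * (a (r + 1) * a (r + 1) * a i)) * (a i)⁻¹ := by group
  rw [h4, h3, mul_one, mul_inv_cancel]

omit [Fintype A] in
/-- The cycle lemma. The element `a (r + 1)` is the label of the curve. -/
theorem cycEdges_spec (hG : Nice G) {r : ℕ} (α β : Fin (r + 1) → G)
    (s s' : Fin (r + 1) → Bool → Bool) (φ : Fin (r + 1) → Bool → Fn G A)
    (hs : ∀ i, Function.Injective (s i)) (hs' : ∀ i, Function.Injective (s' i))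
    (a : ℕ → G) (h0 : a 0 = 1) (ha : ∀ i : Fin (r + 1), a (i + 1) = a i * (α i)⁻¹ * β i)
    (hne : a (r + 1) ≠ 1) :
    Zm (cycEdges α β s s' φ) = ⊤ ∧
      (∀ y, ∀ u ∈ Im (cycEdges α β s s' φ ∪
          zeroEdges G A (fun i : Fin (r + 1) => (i, false)) (fun i => (i, true))) y,
        ∀ v ∈ Im (cycEdges α β s s' φ ∪
          zeroEdges G A (fun i : Fin (r + 1) => (i, false)) (fun i => (i, true))) y,
        Commute u v) ∧
      ∀ c ∈ Zm (cycEdges α β s s' φ ∪
          zeroEdges G A (fun i : Fin (r + 1) => (i, false)) (fun i => (i, true))),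
        ∀ i, φ i false c = φ i true c := by
  refine ⟨?_, ?_, ?_⟩
  · exact Zm_eq_top_of_card_le hG (cycLGMu α β s s') (fun p => φ p.1 p.2) le_rfl
      (cycLGMu_Im_ne_bot hG α β s s' hs hs' a h0 ha hne)
  · have key : ∀ p q e, Conn (cycEdges α β s s' φ ∪
        zeroEdges G A (fun i : Fin (r + 1) => (i, false)) (fun i => (i, true))) p q e →
        a p.2.1 * p.1⁻¹ * q.1 * (a q.2.1)⁻¹ ∈ Subgroup.zpowers (a (r + 1)) := by
      intro p q e h
      induction h with
      | refl p =>
        have : a p.2.1 * p.1⁻¹ * p.1 * (a p.2.1)⁻¹ = 1 := by group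
        rw [this]
        exact one_mem _
      | step g hmem =>
        rcases hmem with ⟨⟨i, t⟩, hb⟩ | ⟨i, hb⟩
        · simp only [Prod.mk.injEq] at hb
          obtain ⟨rfl, rfl, rfl⟩ := hb
          have e1 : a i * (g * α i)⁻¹ * (g * β i) = a (i + 1) := by
            rw [ha i]; group
          show a i * (g * α i)⁻¹ * (g * β i) * (a ((i + 1 : Fin (r + 1)) : ℕ))⁻¹ ∈ _
          rw [e1]
          by_cases hi : (i : ℕ) = r
          · have e2 : ((i + 1 : Fin (r + 1)) : ℕ) = 0 := by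
              simp only [Fin.val_add, Fin.coe_ofNat_eq_mod, Nat.add_mod_mod, hi, Nat.mod_self]
            rw [e2, h0, hi, inv_one, mul_one]
            exact Subgroup.mem_zpowers _
          · have e2 : ((i + 1 : Fin (r + 1)) : ℕ) = i + 1 := by
              simp only [Fin.val_add, Fin.coe_ofNat_eq_mod, Nat.add_mod_mod]
              exact Nat.mod_eq_of_lt (by have := i.2; omega)
            rw [e2, mul_inv_cancel]
            exact one_mem _
        · simp only [Prod.mk.injEq] at hb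
          obtain ⟨rfl, rfl, rfl⟩ := hb
          have : a i * (g * 1)⁻¹ * (g * 1) * (a i)⁻¹ = 1 := by group
          show a i * (g * 1)⁻¹ * (g * 1) * (a i)⁻¹ ∈ _
          rw [this]
          exact one_mem _
      | @symm p q _ _ ih =>
        have : a q.2.1 * q.1⁻¹ * p.1 * (a p.2.1)⁻¹ = (a p.2.1 * p.1⁻¹ * q.1 * (a q.2.1)⁻¹)⁻¹ := by
          group
        rw [this]
        exact inv_mem ih
      | @trans p q q' _ _ _ _ ih1 ih2 =>
        have : a p.2.1 * p.1⁻¹ * q'.1 * (a q'.2.1)⁻¹ = (a p.2.1 * p.1⁻¹ * q.1 * (a q.2.1)⁻¹) *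
            (a q.2.1 * q.1⁻¹ * q'.1 * (a q'.2.1)⁻¹) := by
          group
        rw [this]
        exact mul_mem ih1 ih2
    rintro y u ⟨e, he⟩ v ⟨f, hf⟩
    obtain ⟨m, hm⟩ := key _ _ _ he
    obtain ⟨n, hn⟩ := key _ _ _ hf
    simp only [inv_one, mul_one] at hm hn
    have hu : u = (a y.1)⁻¹ * a (r + 1) ^ m * a y.1 := by rw [hm]; group
    have hv : v = (a y.1)⁻¹ * a (r + 1) ^ n * a y.1 := by rw [hn]; group
    rw [hu, hv]
    show _ = _
    group
  · intro c hc i
    have hz : ∀ (g : G) (j : Fin (r + 1)) (b b' : Bool), Conn (cycEdges α β s s' φ ∪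
        zeroEdges G A (fun i : Fin (r + 1) => (i, false)) (fun i => (i, true)))
        (g, (j, b)) (g, (j, b')) 0 := by
      intro g j b b'
      have h1 : Conn (cycEdges α β s s' φ ∪
          zeroEdges G A (fun i : Fin (r + 1) => (i, false)) (fun i => (i, true)))
          (g, (j, false)) (g, (j, true)) 0 := by
        have := (Conn.of_mem (𝔈 := cycEdges α β s s' φ ∪
          zeroEdges G A (fun i : Fin (r + 1) => (i, false)) (fun i => (i, true)))
          (Or.inr ⟨j, rfl⟩)).translate g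
        simpa only [tr_mk, mul_one, smul_zero] using this
      cases b <;> cases b'
      · exact Conn.refl _
      · exact h1
      · simpa only [neg_zero] using h1.symm
      · exact Conn.refl _
    have h1 : ∀ t, Conn (cycEdges α β s s' φ ∪
        zeroEdges G A (fun i : Fin (r + 1) => (i, false)) (fun i => (i, true)))
        (α i, (i, false)) (β i, (i + 1, false)) (φ i t) := by
      intro t
      have h2 := Conn.of_mem (𝔈 := cycEdges α β s s' φ ∪
          zeroEdges G A (fun i : Fin (r + 1) => (i, false)) (fun i => (i, true)))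
          (Or.inl ⟨(i, t), rfl⟩)
      have h3 := ((hz (α i) i false (s i t)).trans h2).trans (hz (β i) (i + 1) (s' i t) false)
      simpa only [zero_add, add_zero] using h3
    exact val_eq hc (h1 false) (h1 true)

end Pool.Agent.Lib.MP_d87150_al
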