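import Pool.Agent.Lib.MP_d87150_al.PerM
import Pool.Agent.Lib.MP_d87150_al.Cut

/-!
# Cutting the periodic part into germs
-/

set_option autoImplicit false

noncomputable section

namespace Pool.Agent.Lib.MP_d87150_al

open Set Filter Topology

variable {Λ T G V : Type} [AddCommGroup Λ] [LinearOrder Λ] [IsOrderedAddMonoid Λ] [Group G]
  [MulAction G T] [AddCommGroup V] [LinearOrder V] {𝒜 : Amb Λ T G V} {O J : Type}
  {S : Sys 𝒜 O J} {π : V →+ ℝ}

/-- One-sided neighbourhoods; `true` is the right side. -/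
def sideF (δ : Bool) (x : ℝ) : Filter ℝ := if δ then 𝓝[>] x else 𝓝[<] x

/-- The side seen through a sign. -/
def dirOf (ε : ℤˣ) (δ : Bool) : Bool := if ε = 1 then δ else !δ

/-- The real sign of a side. -/
def perAuxSgn (δ : Bool) : ℝ := if δ then 1 else -1

theorem perAux_eventually_iff {δ : Bool} {x : ℝ} {Q : ℝ → Prop} :
    (∀ᶠ y in sideF δ x, Q y) ↔ ∃ ε, 0 < ε ∧ ∀ η, 0 < η → η < ε → Q (x + perAuxSgn δ * η) := by
  cases δ
  · simp only [sideF, perAuxSgn, Bool.false_eq_true, if_false]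
    constructor
    · intro h
      obtain ⟨l, hl, hl'⟩ := mem_nhdsLT_iff_exists_Ioo_subset.1 h
      have hl2 : l < x := hl
      refine ⟨x - l, by linarith, fun η h1 h2 => hl' ⟨by linarith, by linarith⟩⟩
    · rintro ⟨ε, hε, h⟩
      filter_upwards [Ioo_mem_nhdsLT (show x - ε < x by linarith)] with y hy
      have := h (x - y) (by linarith [hy.2]) (by linarith [hy.1])
      rwa [show x + -1 * (x - y) = y by ring] at this
  · simp only [sideF, perAuxSgn, if_true]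
    constructor
    · intro h
      obtain ⟨u, hu, hu'⟩ := mem_nhdsGT_iff_exists_Ioo_subset.1 h
      have hu2 : x < u := hu
      refine ⟨u - x, by linarith, fun η h1 h2 => hu' ⟨by linarith, by linarith⟩⟩
    · rintro ⟨ε, hε, h⟩
      filter_upwards [Ioo_mem_nhdsGT (show x < x + ε by linarith)] with y hy
      have := h (y - x) (by linarith [hy.1]) (by linarith [hy.2])
      rwa [show x + 1 * (y - x) = y by ring] at this

theorem perAux_neBot (δ : Bool) (x : ℝ) : (sideF δ x).NeBot := by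
  cases δ
  · simp only [sideF, Bool.false_eq_true, if_false]
    infer_instance
  · simp only [sideF, if_true]
    infer_instance

theorem perAux_le_nhds (δ : Bool) (x : ℝ) : sideF δ x ≤ 𝓝 x := by
  cases δ
  · simp only [sideF, Bool.false_eq_true, if_false]
    exact nhdsWithin_le_nhds
  · simp only [sideF, if_true]
    exact nhdsWithin_le_nhds

theorem perAux_rpos_add {L : Type} (A : Skel π L O) (ω : L × Bool) (τ η : ℝ) (δ : Bool) :
    A.rpos ω (τ + perAuxSgn δ * η) = A.rpos ω τ + perAuxSgn (dirOf (A.sg ω) δ) * η := by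
  unfold Skel.rpos dirOf perAuxSgn
  rcases Int.units_eq_one_or (A.sg ω) with h | h <;> cases δ <;> simp [h] <;> ring

theorem perAux_eventually_rpos {L : Type} (A : Skel π L O) (ω : L × Bool) (τ : ℝ) (δ : Bool)
    {Q : ℝ → Prop} : (∀ᶠ y in sideF (dirOf (A.sg ω) δ) (A.rpos ω τ), Q y) ↔
      ∀ᶠ τ' in sideF δ τ, Q (A.rpos ω τ') := by
  rw [perAux_eventually_iff, perAux_eventually_iff]
  simp only [perAux_rpos_add]

theorem perAux_lvl_eq (S : Sys 𝒜 O J) (ω : J × Bool) (t : V) :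
    S.lvl π ω t = (S.skel π).rpos ω (π t) := by
  simp only [Sys.lvl, Skel.rpos, Band.pos, Sys.skel, map_add, Units.smul_def, map_zsmul]

theorem perAux_finite_iUnion_Mk (S : Sys 𝒜 O J) [Finite J] : (⋃ o, S.Mk π o).Finite := by
  refine (finite_iUnion fun ω : J × Bool =>
    ((S.B ω.1).F.finite_toSet.image (S.lvl π ω))).subset ?_
  intro x hx
  obtain ⟨o, ω, _, t, ht, h⟩ := mem_iUnion.1 hx
  exact mem_iUnion.2 ⟨ω, t, ht, h⟩

theorem perAux_finite_Mk (S : Sys 𝒜 O J) [Finite J] (o : O) : (S.Mk π o).Finite :=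
  (perAux_finite_iUnion_Mk S).subset (subset_iUnion (S.Mk π) o)

theorem perAux_subset_of_frontier {U s : Set ℝ} (hU : IsOpen U) (hs : IsPreconnected s)
    (hf : ∀ x ∈ s, x ∉ frontier U) {x : ℝ} (hx : x ∈ s) (hxU : x ∈ U) : s ⊆ U := by
  refine hs.subset_of_closure_inter_subset hU ⟨x, hx, hxU⟩ ?_
  rintro y ⟨hy1, hy2⟩
  by_contra hy
  refine hf y hy2 ?_
  rw [hU.frontier_eq]
  exact ⟨hy1, hy⟩

theorem perAux_commute_conj {a g x : G} : Commute (a⁻¹ * g * a) x ↔ Commute g (a * x * a⁻¹) := by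
  constructor
  · intro h
    have h1 : a⁻¹ * g * a * x = x * (a⁻¹ * g * a) := h
    show g * (a * x * a⁻¹) = a * x * a⁻¹ * g
    calc g * (a * x * a⁻¹) = a * (a⁻¹ * g * a * x) * a⁻¹ := by group
      _ = a * (x * (a⁻¹ * g * a)) * a⁻¹ := by rw [h1]
      _ = a * x * a⁻¹ * g := by group
  · intro h
    have h1 : g * (a * x * a⁻¹) = a * x * a⁻¹ * g := h
    show a⁻¹ * g * a * x = x * (a⁻¹ * g * a)
    calc a⁻¹ * g * a * x = a⁻¹ * (g * (a * x * a⁻¹)) * a := by group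
      _ = a⁻¹ * (a * x * a⁻¹ * g) * a := by rw [h1]
      _ = x * (a⁻¹ * g * a) := by group

theorem perAux_conj_ne_one {a g : G} : a⁻¹ * g * a ≠ 1 ↔ g ≠ 1 := by
  refine not_congr ⟨fun h => ?_, fun h => by rw [h]; group⟩
  calc g = a * (a⁻¹ * g * a) * a⁻¹ := by group
    _ = 1 := by rw [h]; group

namespace Sys.PerData

variable (P : S.PerData π)

/-- Intervals between consecutive marked points that are contained in the periodic part. -/
def Item : Type :=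
  {κ : O × ℝ × ℝ // κ.2.1 < κ.2.2 ∧ κ.2.1 ∈ S.Mk π κ.1 ∧ κ.2.2 ∈ S.Mk π κ.1 ∧
    ∀ x ∈ Ioo κ.2.1 κ.2.2, x ∉ S.Mk π κ.1 ∧ x ∈ P.U κ.1}

theorem finite_item [Finite J] : Finite P.Item := by
  have h1 : (range fun ω : J × Bool => (S.B ω.1).en ω.2).Finite := finite_range _
  have h2 := perAux_finite_iUnion_Mk (π := π) S
  refine Set.Finite.subset (h1.prod (h2.prod h2)) ?_
  rintro ⟨o, a, b⟩ ⟨_, ha, hb, _⟩
  refine ⟨?_, mem_iUnion.2 ⟨o, ha⟩, mem_iUnion.2 ⟨o, hb⟩⟩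
  obtain ⟨ω, h, _⟩ := ha
  exact ⟨ω, h⟩

instance [Finite J] : Finite P.Item := P.finite_item

instance [Finite J] : Fintype P.Item := Fintype.ofFinite _

/-- Cut every periodic item in the middle. -/
def cuts : Cuts O P.Item := ⟨fun κ => κ.1.1, fun κ => (κ.1.2.1 + κ.1.2.2) / 2⟩

open Classical in
/-- Germs: two-sided at periodic points, one-sided elsewhere. -/
def germ (o : O) (x : ℝ) (σ : Bool) : O × ℝ × Option Bool :=
  (o, x, if x ∈ P.U o then none else some σ)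

/-- The object of the cut system that carries a germ. -/
def mu (y : O × ℝ × Option Bool) : O × (P.Item → Bool) := (y.1, P.cuts.flag y.1 y.2.1)

/-- The germ at the left end of an item. -/
def xl (κ : P.Item) : O × ℝ × Option Bool := P.germ κ.1.1 κ.1.2.1 true

/-- The germ at the right end of an item. -/
def xr (κ : P.Item) : O × ℝ × Option Bool := P.germ κ.1.1 κ.1.2.2 false

/-- The band `k` is periodic next to the fibre `t` on the side `δ`. -/
def UGap (k : J) (t : V) (δ : Bool) : Prop :=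
  ∀ᶠ τ in sideF δ (π t), τ ∈ Ioo ((S.skel π).a k) ((S.skel π).b k) ∧
    ∀ s, (S.skel π).rpos (k, s) τ ∈ P.U ((S.B k).en s)

/-- The germ at the end `s` of the fibre `t` on the side `δ`. -/
def egerm (k : J) (t : V) (δ s : Bool) : O × ℝ × Option Bool :=
  P.germ ((S.B k).en s) (S.lvl π (k, s) t) (dirOf ((S.B k).sg s) δ)

/-- The auxiliary edges between germs. -/
def aux : Set (Edge G (S.CutJ π P.cuts) (O × ℝ × Option Bool)) :=
  {E | ∃ (k : J) (t : V) (ht : t ∈ (S.B k).F) (δ : Bool), P.UGap k t δ ∧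
    E = (((S.B k).lab false, P.egerm k t δ false), ((S.B k).lab true, P.egerm k t δ true),
      (ContinuousLinearMap.proj (S.piece π P.cuts k t ht) : Fn G (S.CutJ π P.cuts)))}

/-- The auxiliary edges together with the zero edges across the cuts. -/
def aux' : Set (Edge G (S.CutJ π P.cuts) (O × ℝ × Option Bool)) :=
  P.aux ∪ zeroEdges G (S.CutJ π P.cuts) P.xl P.xr

theorem finite_aux [Finite J] : P.aux.Finite := by
  refine (finite_range fun q : (Σ k : J, (S.B k).F) × Bool =>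
    ((((S.B q.1.1).lab false, P.egerm q.1.1 q.1.2.1 q.2 false),
      ((S.B q.1.1).lab true, P.egerm q.1.1 q.1.2.1 q.2 true),
      (ContinuousLinearMap.proj (S.piece π P.cuts q.1.1 q.1.2.1 q.1.2.2) :
        Fn G (S.CutJ π P.cuts))) : Edge G (S.CutJ π P.cuts) (O × ℝ × Option Bool))).subset ?_
  rintro E ⟨k, t, ht, δ, _, rfl⟩
  exact ⟨(⟨k, t, ht⟩, δ), rfl⟩

theorem real_aux : ∀ p q e, (p, q, e) ∈ P.aux →
    Conn (S.cut π P.cuts).gr.edges (p.1, P.mu p.2) (q.1, P.mu q.2) e := by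
  rintro p q e ⟨k, t, ht, δ, _, h⟩
  simp only [Prod.mk.injEq] at h
  obtain ⟨rfl, rfl, rfl⟩ := h
  exact (S.cut π P.cuts).gr.conn_arrow (S.piece π P.cuts k t ht)

theorem perAux_mid_mem (κ : P.Item) : P.cuts.cz κ ∈ Ioo κ.1.2.1 κ.1.2.2 := by
  have h := κ.2.1
  constructor
  · show κ.1.2.1 < (κ.1.2.1 + κ.1.2.2) / 2
    linarith
  · show (κ.1.2.1 + κ.1.2.2) / 2 < κ.1.2.2
    linarith

/-- Overlapping items are equal. -/
theorem perAux_item_eq {κ κ' : P.Item} (ho : κ.1.1 = κ'.1.1) {x : ℝ}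
    (hx : x ∈ Ioo κ.1.2.1 κ.1.2.2) (hx' : x ∈ Ioo κ'.1.2.1 κ'.1.2.2) : κ = κ' := by
  obtain ⟨⟨o, a, b⟩, hab, ha, hb, h⟩ := κ
  obtain ⟨⟨o', a', b'⟩, hab', ha', hb', h'⟩ := κ'
  simp only at ho hx hx' hab ha hb h hab' ha' hb' h'
  subst ho
  have e1 : a = a' := by
    rcases lt_trichotomy a a' with h1 | h1 | h1
    · exact absurd ha' (h a' ⟨h1, hx'.1.trans hx.2⟩).1
    · exact h1
    · exact absurd ha (h' a ⟨h1, hx.1.trans hx'.2⟩).1
  have e2 : b = b' := by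
    rcases lt_trichotomy b b' with h1 | h1 | h1
    · exact absurd hb (h' b ⟨hx'.1.trans hx.2, h1⟩).1
    · exact h1
    · exact absurd hb' (h b' ⟨hx.1.trans hx'.2, h1⟩).1
  subst e1 e2
  rfl

theorem mu_xl (κ : P.Item) : P.mu (P.xl κ) = P.cuts.side κ false := by
  refine (P.cuts.side_false_eq (x := κ.1.2.1) (P.perAux_mid_mem κ).1.le ?_).symm
  intro l hl ho hm
  have ho' : l.1.1 = κ.1.1 := ho
  have h1 := P.perAux_mid_mem l
  have h2 : κ.1.2.1 ≠ P.cuts.cz l := by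
    intro h
    refine (l.2.2.2.2 _ h1).1 ?_
    rw [← h, ho']
    exact κ.2.2.1
  exact hl (P.perAux_item_eq ho' h1
    ⟨lt_of_le_of_ne hm.1 h2, hm.2.trans (P.perAux_mid_mem κ).2⟩)

theorem mu_xr (κ : P.Item) : P.mu (P.xr κ) = P.cuts.side κ true := by
  refine (P.cuts.side_true_eq (x := κ.1.2.2) (P.perAux_mid_mem κ).2 ?_).symm
  intro l hl ho hm
  have ho' : l.1.1 = κ.1.1 := ho
  exact hl (P.perAux_item_eq ho' (P.perAux_mid_mem l)
    ⟨(P.perAux_mid_mem κ).1.trans_le hm.1, hm.2⟩)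

/-- The neighbourhood filter of a germ. -/
def perAuxNh (y : O × ℝ × Option Bool) : Filter ℝ :=
  match y.2.2 with
  | none => 𝓝 y.2.1
  | some σ => sideF σ y.2.1

/-- `g` commutes with the field along the filter `F`. -/
def PerAuxEl (o : O) (F : Filter ℝ) (g : G) : Prop :=
  g ≠ 1 ∧ ∀ᶠ x in F, x ∈ P.U o ∧ Commute g (P.h o x)

theorem perAuxNh_neBot (y : O × ℝ × Option Bool) : (perAuxNh y).NeBot := by
  obtain ⟨o, x, _ | σ⟩ := y
  · show (𝓝 x).NeBot
    infer_instance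
  · exact perAux_neBot σ x

theorem perAux_commute_of_ordConnected {o : O} {I : Set ℝ} (hI : I.OrdConnected)
    (hIU : I ⊆ P.U o) {g : G} {x₁ x₂ : ℝ} (h₁ : x₁ ∈ I) (h₂ : x₂ ∈ I)
    (hc : Commute g (P.h o x₁)) : Commute g (P.h o x₂) :=
  𝒜.nice.ct _ _ _ (P.ne o x₁ (hIU h₁)) hc.symm
    (P.loc o x₁ x₂ ((hI.uIcc_subset h₁ h₂).trans hIU))

/-- The condition along a filter that lives in an interval contained in the periodic part. -/
theorem perAuxEl_iff {o : O} {I : Set ℝ} (hI : I.OrdConnected) (hIU : I ⊆ P.U o)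
    {F : Filter ℝ} (hF : F.NeBot) (hIF : I ∈ F) {g : G} :
    P.PerAuxEl o F g ↔ g ≠ 1 ∧ ∀ x ∈ I, Commute g (P.h o x) := by
  constructor
  · rintro ⟨h1, h2⟩
    obtain ⟨x₁, ⟨_, h3⟩, h4⟩ := (h2.and hIF).exists
    exact ⟨h1, fun x hx => P.perAux_commute_of_ordConnected hI hIU h4 hx h3⟩
  · rintro ⟨h1, h2⟩
    refine ⟨h1, ?_⟩
    filter_upwards [hIF] with x hx
    exact ⟨hIU hx, h2 x hx⟩

theorem perAuxEl_germ {o : O} {x : ℝ} {σ : Bool} {g : G} :
    P.PerAuxEl (P.germ o x σ).1 (perAuxNh (P.germ o x σ)) g ↔ P.PerAuxEl o (sideF σ x) g := by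
  by_cases hx : x ∈ P.U o
  · have e : P.germ o x σ = (o, x, none) := by
      unfold germ
      rw [if_pos hx]
    rw [e]
    show P.PerAuxEl o (𝓝 x) g ↔ _
    obtain ⟨l, u, hlu, hsub⟩ := mem_nhds_iff_exists_Ioo_subset.1 ((P.op o).mem_nhds hx)
    have hI : Ioo l u ∈ 𝓝 x := Ioo_mem_nhds hlu.1 hlu.2
    rw [P.perAuxEl_iff ordConnected_Ioo hsub inferInstance hI,
      P.perAuxEl_iff ordConnected_Ioo hsub (perAux_neBot σ x) (perAux_le_nhds σ x hI)]
  · have e : P.germ o x σ = (o, x, some σ) := by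
      unfold germ
      rw [if_neg hx]
    rw [e]
    rfl

theorem perAux_exists_el {o : O} {x : ℝ} {σ : Bool} (h : ∀ᶠ y in sideF σ x, y ∈ P.U o) :
    ∃ g, P.PerAuxEl o (sideF σ x) g := by
  have hI : ∃ I : Set ℝ, I.OrdConnected ∧ I ⊆ P.U o ∧ I ∈ sideF σ x := by
    cases σ
    · simp only [sideF, Bool.false_eq_true, if_false] at h ⊢
      obtain ⟨l, hl, hl'⟩ := mem_nhdsLT_iff_exists_Ioo_subset.1 h
      exact ⟨_, ordConnected_Ioo, hl', Ioo_mem_nhdsLT hl⟩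
    · simp only [sideF, if_true] at h ⊢
      obtain ⟨u, hu, hu'⟩ := mem_nhdsGT_iff_exists_Ioo_subset.1 h
      exact ⟨_, ordConnected_Ioo, hu', Ioo_mem_nhdsGT hu⟩
  obtain ⟨I, h1, h2, h3⟩ := hI
  obtain ⟨x₁, hx₁⟩ := (perAux_neBot σ x).nonempty_of_mem h3
  refine ⟨P.h o x₁, (P.perAuxEl_iff h1 h2 (perAux_neBot σ x) h3).2 ⟨P.ne o x₁ (h2 hx₁), ?_⟩⟩
  exact fun y hy => P.perAux_commute_of_ordConnected h1 h2 hx₁ hy (Commute.refl _)

theorem perAux_item_left (κ : P.Item) : Ioo κ.1.2.1 κ.1.2.2 ∈ sideF true κ.1.2.1 := by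
  simp only [sideF, if_true]
  exact Ioo_mem_nhdsGT κ.2.1

theorem perAux_item_right (κ : P.Item) : Ioo κ.1.2.1 κ.1.2.2 ∈ sideF false κ.1.2.2 := by
  simp only [sideF, Bool.false_eq_true, if_false]
  exact Ioo_mem_nhdsLT κ.2.1

theorem perAux_item_subset (κ : P.Item) : Ioo κ.1.2.1 κ.1.2.2 ⊆ P.U κ.1.1 :=
  fun x hx => (κ.2.2.2.2 x hx).2

theorem perAuxEl_egerm {k : J} {t : V} {δ s : Bool} {g : G} :
    P.PerAuxEl (P.egerm k t δ s).1 (perAuxNh (P.egerm k t δ s)) g ↔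
      g ≠ 1 ∧ ∀ᶠ τ in sideF δ (π t), (S.skel π).rpos (k, s) τ ∈ P.U ((S.B k).en s) ∧
        Commute g (P.h ((S.B k).en s) ((S.skel π).rpos (k, s) τ)) := by
  unfold egerm
  rw [P.perAuxEl_germ, perAux_lvl_eq]
  unfold PerAuxEl
  exact and_congr Iff.rfl (perAux_eventually_rpos (S.skel π) (k, s) (π t) δ)

theorem perAuxEl_cross {k : J} {t : V} {δ : Bool} (hU : P.UGap k t δ) (s : Bool) {g : G}
    (h : P.PerAuxEl (P.egerm k t δ s).1 (perAuxNh (P.egerm k t δ s))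
      (((S.B k).lab s)⁻¹ * g * (S.B k).lab s)) :
    P.PerAuxEl (P.egerm k t δ (!s)).1 (perAuxNh (P.egerm k t δ (!s)))
      (((S.B k).lab (!s))⁻¹ * g * (S.B k).lab (!s)) := by
  rw [perAuxEl_egerm] at h ⊢
  obtain ⟨h1, h2⟩ := h
  refine ⟨perAux_conj_ne_one.2 (perAux_conj_ne_one.1 h1), ?_⟩
  filter_upwards [h2, hU] with τ h3 h4
  refine ⟨h4.2 _, ?_⟩
  have h5 := P.tr (k, s) _ ((S.skel π).rpos_mem_base.2 h4.1) h3.1
  rw [Skel.rmap_rpos] at h5
  have h6 := perAux_commute_conj.1 h3.2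
  have h7 : (S.B k).lab s * P.h ((S.B k).en s) ((S.skel π).rpos (k, s) τ) * ((S.B k).lab s)⁻¹ ≠
      1 := by
    have := perAux_conj_ne_one (a := ((S.B k).lab s)⁻¹).2 (P.ne _ _ h3.1)
    rwa [inv_inv] at this
  exact perAux_commute_conj.2 (𝒜.nice.ct _ _ _ h7 h6.symm h5)

theorem perAuxEl_conn {p q : G × (O × ℝ × Option Bool)} {e : Fn G (S.CutJ π P.cuts)}
    (hc : Conn P.aux' p q e) : ∀ g, P.PerAuxEl p.2.1 (perAuxNh p.2) (p.1⁻¹ * g * p.1) ↔
      P.PerAuxEl q.2.1 (perAuxNh q.2) (q.1⁻¹ * g * q.1) := by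
  induction hc with
  | refl p => exact fun _ => Iff.rfl
  | @step g₀ p q e hmem =>
    have key : ∀ g, P.PerAuxEl p.2.1 (perAuxNh p.2) (p.1⁻¹ * g * p.1) ↔
        P.PerAuxEl q.2.1 (perAuxNh q.2) (q.1⁻¹ * g * q.1) := by
      intro g
      rcases hmem with ⟨k, t, ht, δ, hU, h⟩ | ⟨κ, h⟩
      · simp only [Prod.mk.injEq] at h
        obtain ⟨rfl, rfl, -⟩ := h
        exact ⟨P.perAuxEl_cross hU false, P.perAuxEl_cross hU true⟩
      · simp only [Prod.mk.injEq] at h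
        obtain ⟨rfl, rfl, -⟩ := h
        show P.PerAuxEl (P.xl κ).1 (perAuxNh (P.xl κ)) _ ↔
          P.PerAuxEl (P.xr κ).1 (perAuxNh (P.xr κ)) _
        unfold xl xr
        rw [P.perAuxEl_germ, P.perAuxEl_germ,
          P.perAuxEl_iff ordConnected_Ioo (P.perAux_item_subset κ) (perAux_neBot _ _)
            (P.perAux_item_left κ),
          P.perAuxEl_iff ordConnected_Ioo (P.perAux_item_subset κ) (perAux_neBot _ _)
            (P.perAux_item_right κ)]
    intro g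
    have e1 : ∀ a : G, (g₀ * a)⁻¹ * g * (g₀ * a) = a⁻¹ * (g₀⁻¹ * g * g₀) * a := by
      intro a
      group
    show P.PerAuxEl p.2.1 (perAuxNh p.2) ((g₀ * p.1)⁻¹ * g * (g₀ * p.1)) ↔
      P.PerAuxEl q.2.1 (perAuxNh q.2) ((g₀ * q.1)⁻¹ * g * (g₀ * q.1))
    rw [e1, e1]
    exact key _
  | symm _ ih => exact fun g => (ih g).symm
  | trans _ _ ih1 ih2 => exact fun g => (ih1 g).trans (ih2 g)

theorem perAux_exists_el_of_edge {p q : G × (O × ℝ × Option Bool)} {e : Fn G (S.CutJ π P.cuts)}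
    (hmem : (p, q, e) ∈ P.aux') : (∃ g, P.PerAuxEl p.2.1 (perAuxNh p.2) g) ∧
      ∃ g, P.PerAuxEl q.2.1 (perAuxNh q.2) g := by
  rcases hmem with ⟨k, t, ht, δ, hU, h⟩ | ⟨κ, h⟩
  · simp only [Prod.mk.injEq] at h
    obtain ⟨rfl, rfl, -⟩ := h
    have key : ∀ s, ∃ g, P.PerAuxEl (P.egerm k t δ s).1 (perAuxNh (P.egerm k t δ s)) g := by
      intro s
      have h1 : ∀ᶠ y in sideF (dirOf ((S.B k).sg s) δ) (S.lvl π (k, s) t),
          y ∈ P.U ((S.B k).en s) := by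
        rw [perAux_lvl_eq]
        exact (perAux_eventually_rpos (S.skel π) (k, s) (π t) δ).2 (hU.mono fun τ h => h.2 s)
      obtain ⟨g, hg⟩ := P.perAux_exists_el h1
      exact ⟨g, P.perAuxEl_germ.2 hg⟩
    exact ⟨key false, key true⟩
  · simp only [Prod.mk.injEq] at h
    obtain ⟨rfl, rfl, -⟩ := h
    constructor
    · obtain ⟨g, hg⟩ := P.perAux_exists_el
        (mem_of_superset (P.perAux_item_left κ) (P.perAux_item_subset κ))
      exact ⟨g, P.perAuxEl_germ.2 hg⟩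
    · obtain ⟨g, hg⟩ := P.perAux_exists_el
        (mem_of_superset (P.perAux_item_right κ) (P.perAux_item_subset κ))
      exact ⟨g, P.perAuxEl_germ.2 hg⟩

theorem perAux_commute_of_el {y : O × ℝ × Option Bool} {g a : G}
    (hg : P.PerAuxEl y.1 (perAuxNh y) g) (ha : a ∈ Im P.aux' y) : Commute g a := by
  obtain ⟨e, he⟩ := ha
  have h1 : P.PerAuxEl y.1 (perAuxNh y) (a⁻¹ * g * a) := by
    refine (P.perAuxEl_conn he g).1 ?_
    show P.PerAuxEl y.1 (perAuxNh y) (1⁻¹ * g * 1)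
    rwa [inv_one, one_mul, mul_one]
  have := perAuxNh_neBot y
  obtain ⟨x, ⟨h2, h3⟩, _, h4⟩ := (hg.2.and h1.2).exists
  have h5 : Commute g (a⁻¹ * g * a⁻¹⁻¹) := by
    rw [inv_inv]
    exact 𝒜.nice.ct _ _ _ (P.ne _ _ h2) h3.symm h4.symm
  exact (Commute.inv_right_iff).1 (𝒜.nice.mal _ _ hg.1 h5)

/-- Marked points joined inside the periodic part are joined by zero edges. -/
theorem perAux_zero_path [Finite J] {o : O} {y y' : ℝ} (hyy : y < y') (hy : y ∈ S.Mk π o)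
    (hy' : y' ∈ S.Mk π o) (hU : Ioo y y' ⊆ P.U o) :
    Conn P.aux' (1, P.germ o y true) (1, P.germ o y' false) 0 := by
  induction hn : (S.Mk π o ∩ Ioo y y').ncard using Nat.strong_induction_on generalizing y y' with
  | _ n ih =>
    have hfin : (S.Mk π o ∩ Ioo y y').Finite := (perAux_finite_Mk S o).subset inter_subset_left
    rcases (S.Mk π o ∩ Ioo y y').eq_empty_or_nonempty with h0 | ⟨z, hz, hz'⟩
    · let κ : P.Item := ⟨(o, y, y'), hyy, hy, hy', fun x hx =>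
        ⟨fun hm => (h0.subset (show x ∈ S.Mk π o ∩ Ioo y y' from ⟨hm, hx⟩)).elim, hU hx⟩⟩
      exact Conn.of_mem (Or.inr ⟨κ, rfl⟩)
    · have h1 : (S.Mk π o ∩ Ioo y z).ncard < n := by
        rw [← hn]
        refine ncard_lt_ncard ⟨inter_subset_inter_right _ (Ioo_subset_Ioo_right hz'.2.le), ?_⟩ hfin
        intro hs
        exact lt_irrefl z (hs ⟨hz, hz'⟩).2.2
      have h2 : (S.Mk π o ∩ Ioo z y').ncard < n := by
        rw [← hn]
        refine ncard_lt_ncard ⟨inter_subset_inter_right _ (Ioo_subset_Ioo_left hz'.1.le), ?_⟩ hfin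
        intro hs
        exact lt_irrefl z (hs ⟨hz, hz'⟩).2.1
      have c1 := ih _ h1 hz'.1 hy hz ((Ioo_subset_Ioo_right hz'.2.le).trans hU) rfl
      have c2 := ih _ h2 hz'.2 hz hy' ((Ioo_subset_Ioo_left hz'.1.le).trans hU) rfl
      have e : P.germ o z false = P.germ o z true := by
        unfold germ
        rw [if_pos (hU hz'), if_pos (hU hz')]
      rw [e] at c1
      simpa only [add_zero] using c1.trans c2

variable [IsOrderedAddMonoid V] [Finite J]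

/-- An unmarked periodic point lies in a periodic item. -/
theorem exists_item (hπ : Monotone π) {o : O} {x : ℝ} (hx : x ∈ P.U o) (hm : x ∉ S.Mk π o) :
    ∃ κ : P.Item, κ.1.1 = o ∧ κ.1.2.1 < x ∧ x < κ.1.2.2 := by
  obtain ⟨ω, ho, hb⟩ := P.sub o x hx
  have hlo : (S.skel π).lo ω ∈ S.Mk π o := ⟨ω, ho, S.exists_lvl_eq_lo ω⟩
  have hhi : (S.skel π).hi ω ∈ S.Mk π o := ⟨ω, ho, S.exists_lvl_eq_hi ω⟩
  have hfin := perAux_finite_Mk (π := π) S o
  obtain ⟨a, ⟨ha, hax⟩, hamax⟩ := exists_max_image (S.Mk π o ∩ Iio x) id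
    (hfin.subset inter_subset_left) ⟨_, hlo, hb.1⟩
  obtain ⟨b, ⟨hb', hxb⟩, hbmin⟩ := exists_min_image (S.Mk π o ∩ Ioi x) id
    (hfin.subset inter_subset_left) ⟨_, hhi, hb.2⟩
  have hax' : a < x := hax
  have hxb' : x < b := hxb
  have hun : ∀ z ∈ Ioo a b, z ∉ S.Mk π o := by
    intro z hz hzm
    rcases lt_trichotomy z x with h1 | h1 | h1
    · exact absurd hz.1 (not_lt.2 (hamax z ⟨hzm, h1⟩))
    · exact hm (h1 ▸ hzm)
    · exact absurd hz.2 (not_lt.2 (hbmin z ⟨hzm, h1⟩))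
  have hsub : Ioo a b ⊆ P.U o := by
    refine perAux_subset_of_frontier (P.op o) isPreconnected_Ioo ?_ ⟨hax', hxb'⟩ hx
    intro z hz hzf
    have h1 : (S.skel π).lo ω ≤ a := hamax _ ⟨hlo, hb.1⟩
    have h2 : b ≤ (S.skel π).hi ω := hbmin _ ⟨hhi, hb.2⟩
    exact hun z hz ⟨ω, ho, P.mark ω z ⟨h1.trans_lt hz.1, hz.2.trans_le h2⟩ (ho ▸ hzf)⟩
  exact ⟨⟨(o, a, b), hax'.trans hxb', ha, hb', fun z hz => ⟨hun z hz, hsub hz⟩⟩, rfl, hax', hxb'⟩

theorem aper_cut (hπ : Monotone π) : ((S.cut π P.cuts).skel π).Aper := by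
  intro i u v hper
  obtain ⟨⟨p, s⟩, ho, hb⟩ := hper.exists_base
  have hU := P.per _ u v ((S.cut_ref P.cuts hπ).per hper)
  have ho' : (S.B (S.par π P.cuts p)).en s = i.1 := congrArg Prod.fst ho
  obtain ⟨x, hx, hxm⟩ := (Ioo_infinite hper.1).exists_notMem_finite (perAux_finite_Mk (π := π) S i.1)
  obtain ⟨κ, hκ, h1, h2⟩ := P.exists_item hπ (hU hx) hxm
  have hmark : ∀ t ∈ ((S.cut π P.cuts).B p).F, (S.cut π P.cuts).lvl π (p, s) t ∈ S.Mk π κ.1.1 := by
    intro t ht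
    obtain ⟨ht', _⟩ := (S.mem_cut_F π P.cuts).1 ht
    exact ⟨(S.par π P.cuts p, s), ho'.trans hκ.symm, t, ht', rfl⟩
  obtain ⟨t₁, ht₁, e₁⟩ := (S.cut π P.cuts).exists_lvl_eq_lo (π := π) (p, s)
  obtain ⟨t₂, ht₂, e₂⟩ := (S.cut π P.cuts).exists_lvl_eq_hi (π := π) (p, s)
  have m₁ := hmark t₁ ht₁
  have m₂ := hmark t₂ ht₂
  rw [e₁] at m₁
  rw [e₂] at m₂
  have h3 : ((S.cut π P.cuts).skel π).lo (p, s) ≤ κ.1.2.1 := by
    by_contra h
    exact (κ.2.2.2.2 _ ⟨not_le.1 h, (hb hx).1.trans h2⟩).1 m₁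
  have h4 : κ.1.2.2 ≤ ((S.cut π P.cuts).skel π).hi (p, s) := by
    by_contra h
    exact (κ.2.2.2.2 _ ⟨h1.trans (hb hx).2, not_le.1 h⟩).1 m₂
  exact S.cz_notMem_base P.cuts hπ p s κ (ho'.trans hκ.symm)
    ⟨h3.trans_lt (P.perAux_mid_mem κ).1, (P.perAux_mid_mem κ).2.trans_le h4⟩

theorem comm_aux' : ∀ y, ∀ a ∈ Im P.aux' y, ∀ b ∈ Im P.aux' y, Commute a b := by
  intro y a ha b hb
  by_cases hy : ∃ g, P.PerAuxEl y.1 (perAuxNh y) g
  · obtain ⟨g, hg⟩ := hy
    exact 𝒜.nice.ct _ _ _ hg.1 (P.perAux_commute_of_el hg ha) (P.perAux_commute_of_el hg hb)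
  · obtain ⟨e, he⟩ := ha
    have h1 := (Conn.of_no_edge (x := y) (fun p q f hmem => ?_) he).1
    · have h2 : a = 1 := congrArg Prod.fst h1
      rw [h2]
      exact Commute.one_left b
    · have h2 := P.perAux_exists_el_of_edge hmem
      exact ⟨fun h => hy (h ▸ h2.1), fun h => hy (h ▸ h2.2)⟩

theorem commute_of_conn {o o' : O} {x x' : ℝ} (hx : x ∈ P.U o) (hx' : x' ∈ P.U o') {g : G}
    {e : Fn G (S.CutJ π P.cuts)} (hc : Conn P.aux' (1, (o, x, none)) (g, (o', x', none)) e) :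
    Commute (P.h o x) (g * P.h o' x' * g⁻¹) := by
  obtain ⟨l, u, hlu, hsub⟩ := mem_nhds_iff_exists_Ioo_subset.1 ((P.op o).mem_nhds hx)
  have h1 : P.PerAuxEl o (𝓝 x) (P.h o x) :=
    (P.perAuxEl_iff ordConnected_Ioo hsub inferInstance (Ioo_mem_nhds hlu.1 hlu.2)).2
      ⟨P.ne o x hx, fun z hz =>
        P.perAux_commute_of_ordConnected ordConnected_Ioo hsub hlu hz (Commute.refl _)⟩
  have h2 : P.PerAuxEl o' (𝓝 x') (g⁻¹ * P.h o x * g) := by
    refine (P.perAuxEl_conn hc (P.h o x)).1 ?_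
    show P.PerAuxEl o (𝓝 x) (1⁻¹ * P.h o x * 1)
    rwa [inv_one, one_mul, mul_one]
  exact perAux_commute_conj.1 h2.2.self_of_nhds.2

theorem rel_aux' (hπ : Monotone π) : ∀ c ∈ Zm P.aux', ∀ k t₁ t₂ (h₁ : t₁ ∈ (S.B k).F)
    (h₂ : t₂ ∈ (S.B k).F), π t₁ < π t₂ → (∀ t ∈ (S.B k).F, π t ∉ Ioo (π t₁) (π t₂)) →
    c (S.piece π P.cuts k t₁ h₁) = c (S.piece π P.cuts k t₂ h₂) := by
  intro c hc k t₁ t₂ h₁ h₂ hlt hgap
  by_cases heq : S.piece π P.cuts k t₁ h₁ = S.piece π P.cuts k t₂ h₂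
  · rw [heq]
  rw [S.piece_eq_iff π P.cuts h₁ h₂] at heq
  simp only [not_forall] at heq
  obtain ⟨s, κ, hs, hκ⟩ := heq
  have hs' : (S.B k).en s = κ.1.1 := hs
  have hab : Ioo (π t₁) (π t₂) ⊆ Ioo ((S.skel π).a k) ((S.skel π).b k) :=
    Ioo_subset_Ioo (S.a_le_level hπ h₁) (S.level_le_b hπ h₂)
  have hmk : ∀ s' t, t ∈ (S.B k).F → (S.skel π).rpos (k, s') (π t) ∈ S.Mk π ((S.B k).en s') :=
    fun s' t ht => ⟨(k, s'), rfl, t, ht, perAux_lvl_eq S _ _⟩
  -- the cut lies in the gap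
  obtain ⟨τ₀, hτ₀⟩ := (S.skel π).rpos_surjective (k, s) (P.cuts.cz κ)
  have hmid := κ.2.2.2.2 _ (P.perAux_mid_mem κ)
  rw [← hs', ← hτ₀] at hmid
  have hτ : τ₀ ∈ Ioo (π t₁) (π t₂) := by
    have n₁ : τ₀ ≠ π t₁ := fun h => hmid.1 (h ▸ hmk s t₁ h₁)
    have n₂ : τ₀ ≠ π t₂ := fun h => hmid.1 (h ▸ hmk s t₂ h₂)
    rw [perAux_lvl_eq, perAux_lvl_eq, ← hτ₀] at hκ
    unfold Skel.rpos at hκ
    rcases Int.units_eq_one_or ((S.skel π).sg (k, s)) with h | h
    · simp only [h, one_smul, add_lt_add_iff_right] at hκ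
      by_contra hcon
      refine hκ ⟨fun h3 => h3.trans hlt, fun h3 => ?_⟩
      by_contra h4
      exact hcon ⟨lt_of_le_of_ne (not_lt.1 h4) n₁.symm, h3⟩
    · simp only [h, Units.neg_smul, one_smul, add_lt_add_iff_right, neg_lt_neg_iff] at hκ
      by_contra hcon
      refine hκ ⟨fun h3 => ?_, fun h3 => hlt.trans h3⟩
      by_contra h4
      exact hcon ⟨h3, lt_of_le_of_ne (not_lt.1 h4) n₂⟩
  -- the whole gap is periodic
  have hcont : ∀ ω : J × Bool, Continuous ((S.skel π).rpos ω) := by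
    intro ω
    unfold Skel.rpos
    exact (continuous_const_smul _).add continuous_const
  have hU1 : ∀ τ ∈ Ioo (π t₁) (π t₂), (S.skel π).rpos (k, s) τ ∈ P.U ((S.B k).en s) := by
    intro τ hτ'
    refine perAux_subset_of_frontier (P.op _)
      (isPreconnected_Ioo.image _ (hcont (k, s)).continuousOn) ?_ ⟨τ₀, hτ, rfl⟩ hmid.2
      ⟨τ, hτ', rfl⟩
    rintro _ ⟨τ', h3, rfl⟩ hf
    obtain ⟨t, ht, e⟩ := P.mark (k, s) _ ((S.skel π).rpos_mem_base.2 (hab h3)) hf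
    rw [perAux_lvl_eq] at e
    exact hgap t ht ((S.skel π).rpos_injective _ e ▸ h3)
  have hU : ∀ τ ∈ Ioo (π t₁) (π t₂), ∀ s', (S.skel π).rpos (k, s') τ ∈ P.U ((S.B k).en s') := by
    intro τ hτ' s'
    by_cases hss : s' = s
    · rw [hss]
      exact hU1 τ hτ'
    · have e : s' = !s := by
        cases s <;> cases s' <;> simp_all
      have h3 := P.inv (k, s) _ ((S.skel π).rpos_mem_base.2 (hab hτ')) (hU1 τ hτ')
      rw [Skel.rmap_rpos] at h3
      rw [e]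
      exact h3
  have g₁ : P.UGap k t₁ true := by
    unfold UGap
    simp only [sideF, if_true]
    filter_upwards [Ioo_mem_nhdsGT hlt] with τ hτ'
    exact ⟨hab hτ', hU τ hτ'⟩
  have g₂ : P.UGap k t₂ false := by
    unfold UGap
    simp only [sideF, Bool.false_eq_true, if_false]
    filter_upwards [Ioo_mem_nhdsLT hlt] with τ hτ'
    exact ⟨hab hτ', hU τ hτ'⟩
  have hz : ∀ (g : G) (s' : Bool),
      Conn P.aux' (g, P.egerm k t₁ true s') (g, P.egerm k t₂ false s') 0 := by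
    intro g s'
    have h0 : Conn P.aux' (1, P.egerm k t₁ true s') (1, P.egerm k t₂ false s') 0 := by
      unfold egerm
      rw [perAux_lvl_eq, perAux_lvl_eq]
      have hsg : (S.skel π).sg (k, s') = (S.B k).sg s' := rfl
      rcases Int.units_eq_one_or ((S.B k).sg s') with h | h
      · have hr : ∀ τ, (S.skel π).rpos (k, s') τ = τ + π ((S.skel π).off (k, s')) := by
          intro τ
          unfold Skel.rpos
          rw [hsg, h, one_smul]
        have d₁ : dirOf ((S.B k).sg s') true = true := by simp [dirOf, h]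
        have d₂ : dirOf ((S.B k).sg s') false = false := by simp [dirOf, h]
        rw [d₁, d₂]
        refine P.perAux_zero_path (by rw [hr, hr]; linarith) (hmk s' t₁ h₁) (hmk s' t₂ h₂) ?_
        intro x hx
        obtain ⟨τ, rfl⟩ := (S.skel π).rpos_surjective (k, s') x
        refine hU τ ?_ s'
        rw [hr, hr, hr] at hx
        exact ⟨by linarith [hx.1], by linarith [hx.2]⟩
      · have hr : ∀ τ, (S.skel π).rpos (k, s') τ = -τ + π ((S.skel π).off (k, s')) := by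
          intro τ
          unfold Skel.rpos
          rw [hsg, h, Units.neg_smul, one_smul]
        have d₁ : dirOf ((S.B k).sg s') true = false := by simp [dirOf, h]
        have d₂ : dirOf ((S.B k).sg s') false = true := by simp [dirOf, h]
        rw [d₁, d₂]
        have h3 := P.perAux_zero_path (o := (S.B k).en s') (by rw [hr, hr]; linarith)
          (hmk s' t₂ h₂) (hmk s' t₁ h₁) (by
            intro x hx
            obtain ⟨τ, rfl⟩ := (S.skel π).rpos_surjective (k, s') x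
            refine hU τ ?_ s'
            rw [hr, hr, hr] at hx
            exact ⟨by linarith [hx.2], by linarith [hx.1]⟩)
        simpa only [neg_zero] using h3.symm
    simpa only [tr_mk, mul_one, smul_zero] using h0.translate g
  have c₁ : Conn P.aux' ((S.B k).lab false, P.egerm k t₁ true false)
      ((S.B k).lab true, P.egerm k t₁ true true)
      (ContinuousLinearMap.proj (S.piece π P.cuts k t₁ h₁)) :=
    Conn.of_mem (Or.inl ⟨k, t₁, h₁, true, g₁, rfl⟩)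
  have c₂ : Conn P.aux' ((S.B k).lab false, P.egerm k t₂ false false)
      ((S.B k).lab true, P.egerm k t₂ false true)
      (ContinuousLinearMap.proj (S.piece π P.cuts k t₂ h₂)) :=
    Conn.of_mem (Or.inl ⟨k, t₂, h₂, false, g₂, rfl⟩)
  have c₃ := ((hz _ false).trans c₂).trans (hz _ true).symm
  simp only [neg_zero, add_zero, zero_add] at c₃
  exact val_eq hc c₁ c₃

end Sys.PerData

end Pool.Agent.Lib.MP_d87150_al
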