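import Pool.Agent.Lib.MP_d87150_al.PerAux

/-!
# Reduction to aperiodic systems
-/

set_option autoImplicit false

noncomputable section

namespace Pool.Agent.Lib.MP_d87150_al

open Set

section Deep

variable {V : Type} [AddCommGroup V] [LinearOrder V] {π : V →+ ℝ}

/-- `Q` holds at all points of the level `x` that are far enough on the side `σ`. -/
def Deep (π : V →+ ℝ) (x : ℝ) (σ : Option Bool) (Q : V → Prop) : Prop :=
  ∃ w₀, π w₀ = x ∧ ∀ w, π w = x → (σ = some true → w₀ ≤ w) → (σ = some false → w ≤ w₀) → Q w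

theorem Deep.ex {x : ℝ} {σ : Option Bool} {Q : V → Prop} (h : Deep π x σ Q) :
    ∃ w, π w = x ∧ Q w := by
  obtain ⟨w₀, h0, h⟩ := h
  exact ⟨w₀, h0, h w₀ h0 (fun _ => le_rfl) (fun _ => le_rfl)⟩

theorem Deep.mono {x : ℝ} {σ : Option Bool} {Q Q' : V → Prop} (h : Deep π x σ Q)
    (hq : ∀ w, π w = x → Q w → Q' w) : Deep π x σ Q' := by
  obtain ⟨w₀, h0, h⟩ := h
  exact ⟨w₀, h0, fun w hw h1 h2 => hq w hw (h w hw h1 h2)⟩

theorem Deep.side {x : ℝ} {σ : Option Bool} {δ : Bool} {Q : V → Prop} (h : Deep π x σ Q)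
    (hσ : σ = none ∨ σ = some δ) : Deep π x (some δ) Q := by
  rcases hσ with rfl | rfl
  · obtain ⟨w₀, h0, h⟩ := h
    exact ⟨w₀, h0, fun w hw _ _ => h w hw (fun h => by simp at h) (fun h => by simp at h)⟩
  · exact h

theorem Deep.and {x : ℝ} {δ : Bool} {Q Q' : V → Prop} (h : Deep π x (some δ) Q)
    (h' : Deep π x (some δ) Q') : Deep π x (some δ) fun w => Q w ∧ Q' w := by
  obtain ⟨w₀, h0, h⟩ := h
  obtain ⟨w₁, h1, h'⟩ := h'
  cases δ
  · refine ⟨min w₀ w₁, ?_, fun w hw _ h2 => ⟨h w hw (by simp) fun _ => ?_, h' w hw (by simp)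
      fun _ => ?_⟩⟩
    · rcases min_choice w₀ w₁ with e | e <;> rw [e] <;> assumption
    · exact (h2 rfl).trans (min_le_left _ _)
    · exact (h2 rfl).trans (min_le_right _ _)
  · refine ⟨max w₀ w₁, ?_, fun w hw h2 _ => ⟨h w hw (fun _ => ?_) (by simp), h' w hw
      (fun _ => ?_) (by simp)⟩⟩
    · rcases max_choice w₀ w₁ with e | e <;> rw [e] <;> assumption
    · exact (le_max_left _ _).trans (h2 rfl)
    · exact (le_max_right _ _).trans (h2 rfl)

omit [LinearOrder V] in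
theorem perKill_map_units (π : V →+ ℝ) (ε : ℤˣ) (v : V) : π (ε • v) = ε • π v := by
  rw [Units.smul_def, Units.smul_def, map_zsmul]

variable [IsOrderedAddMonoid V]

theorem Deep.push {x : ℝ} {δ : Bool} {Q : V → Prop} (ε : ℤˣ) (d : V)
    (h : Deep π x (some δ) fun t => Q (ε • t + d)) :
    Deep π (ε • x + π d) (some (dirOf ε δ)) Q := by
  obtain ⟨t₀, h0, h⟩ := h
  refine ⟨ε • t₀ + d, by rw [map_add, perKill_map_units, h0], fun w hw h1 h2 => ?_⟩
  have e : ε • (ε • (w - d)) + d = w := by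
    rw [smul_smul, Int.units_mul_self, one_smul, sub_add_cancel]
  have hl : π (ε • (w - d)) = x := by
    rw [perKill_map_units, map_sub, hw, add_sub_cancel_right, smul_smul, Int.units_mul_self,
      one_smul]
  rw [← e]
  refine h _ hl (fun hδ => ?_) fun hδ => ?_
  · obtain rfl : δ = true := by simpa using hδ
    rcases Int.units_eq_one_or ε with rfl | rfl
    · have := h1 (by simp [dirOf])
      simp only [one_smul] at this ⊢
      exact le_sub_iff_add_le.2 this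
    · have := h2 (by simp [dirOf])
      simp only [Units.neg_smul, one_smul] at this ⊢
      grind
  · obtain rfl : δ = false := by simpa using hδ
    rcases Int.units_eq_one_or ε with rfl | rfl
    · have := h2 (by simp [dirOf])
      simp only [one_smul] at this ⊢
      exact sub_le_iff_le_add.2 this
    · have := h1 (by simp [dirOf])
      simp only [Units.neg_smul, one_smul] at this ⊢
      grind

theorem Deep.pull {x : ℝ} {δ : Bool} {Q : V → Prop} (ε : ℤˣ) (d : V)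
    (h : Deep π (ε • x + π d) (some (dirOf ε δ)) Q) :
    Deep π x (some δ) fun t => Q (ε • t + d) := by
  have h2 : Deep π (ε • x + π d) (some (dirOf ε δ))
      fun w => (fun t => Q (ε • t + d)) (ε • w + -(ε • d)) := by
    refine h.mono fun w _ hw => ?_
    have e : ε • (ε • w + -(ε • d)) + d = w := by
      rw [smul_add, smul_neg, smul_smul, smul_smul, Int.units_mul_self, one_smul, one_smul]
      abel
    simpa only [e] using hw
  have h3 := Deep.push (Q := fun t => Q (ε • t + d)) ε (-(ε • d)) h2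
  have e1 : ε • (ε • x + π d) + π (-(ε • d)) = x := by
    rw [map_neg, perKill_map_units, smul_add, smul_smul, Int.units_mul_self, one_smul]
    abel
  have e2 : dirOf ε (dirOf ε δ) = δ := by
    unfold dirOf
    split_ifs <;> simp
  rwa [e1, e2] at h3

/-- A second deep point. -/
theorem Deep.two {x : ℝ} {δ : Bool} {Q : V → Prop} (h : Deep π x (some δ) Q) {w : V}
    (hw : π w = x) : Q w ∨ ∃ w₀ w₁, π w₀ = x ∧ π w₁ = x ∧ w₀ ≠ w₁ ∧ Q w₀ ∧ Q w₁ := by
  obtain ⟨w₀, h0, h⟩ := h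
  have q0 := h w₀ h0 (fun _ => le_rfl) fun _ => le_rfl
  by_cases hw0 : w = w₀
  · exact Or.inl (hw0 ▸ q0)
  have hl : π (w₀ + w₀ - w) = x := by
    rw [map_sub, map_add, h0, hw]
    ring
  have hne : w₀ ≠ w₀ + w₀ - w := by
    intro e
    apply hw0
    grind
  rcases le_total w w₀ with hle | hle
  · cases δ
    · exact Or.inl (h w hw (by simp) fun _ => hle)
    · exact Or.inr ⟨w₀, _, h0, hl, hne, q0, h _ hl (fun _ => by grind) (by simp)⟩
  · cases δ
    · exact Or.inr ⟨w₀, _, h0, hl, hne, q0, h _ hl (by simp) fun _ => by grind⟩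
    · exact Or.inl (h w hw (fun _ => hle) (by simp))

end Deep

variable {Λ T G V : Type} [AddCommGroup Λ] [LinearOrder Λ] [IsOrderedAddMonoid Λ] [Group G]
  [MulAction G T] [AddCommGroup V] [LinearOrder V] [IsOrderedAddMonoid V] {𝒜 : Amb Λ T G V}
  {O J : Type} [Fintype J] {S : Sys 𝒜 O J} {π : V →+ ℝ}

namespace Sys

/-- Admissible finite sets of short extra bands. -/
structure Extra (S : Sys 𝒜 O J) (π : V →+ ℝ) (Ex : Set (Band G V O)) : Prop where
  fin : Ex.Finite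
  valid : ∀ q ∈ Ex, ∀ t ∈ q.F, q.ValidAt S.C t
  short : ∀ q ∈ Ex, ∀ t ∈ q.F, ∀ t' ∈ q.F, π t = π t'
  anch : S.Anch Ex

omit [IsOrderedAddMonoid V] [Fintype J] in
theorem Extra.union {Ex Ex' : Set (Band G V O)} (h : S.Extra π Ex) (h' : S.Extra π Ex') :
    S.Extra π (Ex ∪ Ex') := by
  refine ⟨h.fin.union h'.fin, fun q hq => hq.elim (h.valid q) (h'.valid q),
    fun q hq => hq.elim (h.short q) (h'.short q), fun q hq => ?_⟩
  rcases hq with hq | hq
  · obtain ⟨f, h1, h2⟩ := h.anch q hq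
    exact ⟨f, h1, fun c β hc hβ => h2 c β hc fun q' hq' => hβ q' (Or.inl hq')⟩
  · obtain ⟨f, h1, h2⟩ := h'.anch q hq
    exact ⟨f, h1, fun c β hc hβ => h2 c β hc fun q' hq' => hβ q' (Or.inr hq')⟩

omit [IsOrderedAddMonoid V] [Fintype J] in
theorem Extra.empty (S : Sys 𝒜 O J) (π : V →+ ℝ) : S.Extra π ∅ :=
  ⟨finite_empty, fun _ h => h.elim, fun _ h => h.elim, fun _ h => h.elim⟩

omit [IsOrderedAddMonoid V] [Fintype J] in
/-- Adding one band anchored with the help of the old ones. -/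
theorem Extra.insert {Ex : Set (Band G V O)} (h : S.Extra π Ex) (q : Band G V O)
    (hv : ∀ t ∈ q.F, q.ValidAt S.C t) (hs : ∀ t ∈ q.F, ∀ t' ∈ q.F, π t = π t') {f : Fn G J}
    (hf : Conn S.gr.edges (q.lab false, q.en false) (q.lab true, q.en true) f) {t₀ : V}
    (ht₀ : t₀ ∈ q.F) (ha : ∀ c β, S.Pot c β → (∀ q' ∈ Ex, q'.Cons β) → f c = q.del β t₀) :
    S.Extra π (insert q Ex) := by
  refine ⟨h.fin.insert q, ?_, ?_, ?_⟩
  · rintro q' (rfl | hq')
    · exact hv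
    · exact h.valid q' hq'
  · rintro q' (rfl | hq')
    · exact hs
    · exact h.short q' hq'
  · rintro q' (rfl | hq')
    · exact ⟨f, hf, fun c β hc hβ => ⟨t₀, ht₀, ha c β hc fun q'' hq'' => hβ q'' (Or.inr hq'')⟩⟩
    · obtain ⟨f', h1, h2⟩ := h.anch q' hq'
      exact ⟨f', h1, fun c β hc hβ => h2 c β hc fun q'' hq'' => hβ q'' (Or.inr hq'')⟩

namespace PerData

variable (P : S.PerData π)

/-- The path with value `e` from `(1, y₀)` to `(g, y)` is realized at the point `w`. -/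
structure St (y₀ y : O × ℝ × Option Bool) (g : G) (e : Fn G (S.CutJ π P.cuts)) (ε : ℤˣ) (d : V)
    (w : V) : Prop where
  m1 : w ∈ S.C.dom y.1
  m2 : ε • w + d ∈ S.C.dom y₀.1
  fib : S.C.ch y₀.1 (ε • w + d) = g • S.C.ch y.1 w
  val : ∃ Ex, (S.cut π P.cuts).Extra π Ex ∧ ∀ c β, (S.cut π P.cuts).Pot c β →
    (∀ q ∈ Ex, q.Cons β) → e c = g • β (P.mu y) w - β (P.mu y₀) (ε • w + d)

/-- The invariant of the induction along a path. -/
def Inv' (y₀ : O × ℝ × Option Bool) (p : G × (O × ℝ × Option Bool))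
    (e : Fn G (S.CutJ π P.cuts)) : Prop :=
  ∃ (ε : ℤˣ) (d : V), ε • p.2.2.1 + π d = y₀.2.1 ∧
    Deep π p.2.2.1 p.2.2.2 (P.St y₀ p.2 p.1 e ε d)

omit [Fintype J] in
theorem deep_valid (hπ : Monotone π) {k : J} {t : V} (ht : t ∈ (S.B k).F) {δ : Bool}
    (hu : P.UGap k t δ) : Deep π (π t) (some δ) fun t' => (S.B k).ValidAt S.C t' := by
  refine ⟨t, rfl, fun w hw h1 h2 => ?_⟩
  cases δ
  · have hu' : ∀ᶠ τ in nhdsWithin (π t) (Iio (π t)),
        τ ∈ Ioo ((S.skel π).a k) ((S.skel π).b k) := by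
      simpa [UGap, sideF] using (hu.mono fun τ h => h.1)
    obtain ⟨τ, hτ, hlt⟩ := (hu'.and self_mem_nhdsWithin).exists
    have h3 : (S.B k).F.min' (S.B k).ne ≤ w := by
      by_contra hc
      have := hπ (not_le.1 hc).le
      have h4 : π ((S.B k).F.min' (S.B k).ne) < τ := hτ.1
      have h5 : τ < π t := hlt
      linarith
    exact (S.valid k _ (Finset.min'_mem _ _)).between (S.valid k t ht) h3 (h2 rfl)
  · have hu' : ∀ᶠ τ in nhdsWithin (π t) (Ioi (π t)),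
        τ ∈ Ioo ((S.skel π).a k) ((S.skel π).b k) := by
      simpa [UGap, sideF] using (hu.mono fun τ h => h.1)
    obtain ⟨τ, hτ, hlt⟩ := (hu'.and self_mem_nhdsWithin).exists
    have h3 : w ≤ (S.B k).F.max' (S.B k).ne := by
      by_contra hc
      have := hπ (not_le.1 hc).le
      have h4 : τ < π ((S.B k).F.max' (S.B k).ne) := hτ.2
      have h5 : π t < τ := hlt
      linarith
    exact (S.valid k t ht).between (S.valid k _ (Finset.max'_mem _ _)) (h1 rfl) h3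

omit [IsOrderedAddMonoid V] [Fintype J] in
theorem egerm_kind (k : J) (t : V) (δ s : Bool) :
    ((P.egerm k t δ s).2.2 = none ∧ S.lvl π (k, s) t ∈ P.U ((S.B k).en s)) ∨
      (P.egerm k t δ s).2.2 = some (dirOf ((S.B k).sg s) δ) := by
  unfold egerm germ
  by_cases h : S.lvl π (k, s) t ∈ P.U ((S.B k).en s)
  · exact Or.inl ⟨by simp [h], h⟩
  · exact Or.inr (by simp [h])

omit [IsOrderedAddMonoid V] [Fintype J] in
theorem lvl_eq' (k : J) (t : V) (s : Bool) :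
    S.lvl π (k, s) t = (S.B k).sg s • π t + π ((S.B k).off s) := by
  unfold lvl Band.pos
  rw [map_add, perKill_map_units]

omit [Fintype J] in
theorem inv_refl (hπ : Monotone π) {k : J} {t : V} (ht : t ∈ (S.B k).F) {δ : Bool}
    (hu : P.UGap k t δ) (s : Bool) : P.Inv' (P.egerm k t δ s) (1, P.egerm k t δ s) 0 := by
  have key : ∀ w, w ∈ S.C.dom (P.egerm k t δ s).1 →
      P.St (P.egerm k t δ s) (P.egerm k t δ s) 1 0 1 0 w := fun w hw =>
    ⟨hw, by simpa using hw, by simp, ∅, Extra.empty _ _, fun c β _ _ => by simp⟩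
  refine ⟨1, 0, by simp, ?_⟩
  rcases P.egerm_kind k t δ s with ⟨h1, h2⟩ | h1
  · refine ⟨(S.B k).pos s t, rfl, fun w hw _ _ => key w (P.ax _ _ h2 w hw).1⟩
  · show Deep π (S.lvl π (k, s) t) (P.egerm k t δ s).2.2 _
    rw [h1, lvl_eq']
    refine Deep.push _ _ ((P.deep_valid hπ ht hu).mono fun t' _ hv => key _ (hv.mem s))

omit [Fintype J] in
/-- Crossing a piece at deep points. -/
theorem deep_cross (hπ : Monotone π) {y₀ : O × ℝ × Option Bool} {k : J} {t : V}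
    (ht : t ∈ (S.B k).F) {δ : Bool} (hu : P.UGap k t δ) (s : Bool) (γ : G)
    {e e' : Fn G (S.CutJ π P.cuts)}
    (he : ∀ (c : H G (S.CutJ π P.cuts)) (β : O × (P.Item → Bool) → V → L2 G) (t' : V),
      c (S.piece π P.cuts k t ht) = ((S.cut π P.cuts).B (S.piece π P.cuts k t ht)).del β t' →
      e' c = e c + γ • ((S.B k).lab (!s) • β (P.mu (P.egerm k t δ (!s))) ((S.B k).pos (!s) t') -
        (S.B k).lab s • β (P.mu (P.egerm k t δ s)) ((S.B k).pos s t')))
    (h : P.Inv' y₀ (γ * (S.B k).lab s, P.egerm k t δ s) e) :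
    ∃ (ε : ℤˣ) (d : V), ε • S.lvl π (k, !s) t + π d = y₀.2.1 ∧
      Deep π (S.lvl π (k, !s) t) (some (dirOf ((S.B k).sg (!s)) δ))
        (P.St y₀ (P.egerm k t δ (!s)) (γ * (S.B k).lab (!s)) e' ε d) := by
  classical
  obtain ⟨ε, d, hl, hd⟩ := h
  have hd1 : Deep π (S.lvl π (k, s) t) (some (dirOf ((S.B k).sg s) δ))
      (P.St y₀ (P.egerm k t δ s) (γ * (S.B k).lab s) e ε d) :=
    Deep.side hd ((P.egerm_kind k t δ s).imp And.left id)
  rw [lvl_eq'] at hd1
  have hd2 := (Deep.pull _ _ hd1).and (P.deep_valid hπ ht hu)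
  have alg : ∀ t' : V, (ε * (S.B k).sg s * (S.B k).sg (!s)) • (S.B k).pos (!s) t' +
      (ε • ((S.B k).off s - ((S.B k).sg s * (S.B k).sg (!s)) • (S.B k).off (!s)) + d) =
      ε • (S.B k).pos s t' + d := by
    intro t'
    unfold Band.pos
    rcases Int.units_eq_one_or ε with h1 | h1 <;>
      rcases Int.units_eq_one_or ((S.B k).sg s) with h2 | h2 <;>
      rcases Int.units_eq_one_or ((S.B k).sg (!s)) with h3 | h3 <;>
      simp [h1, h2, h3] <;> abel
  refine ⟨ε * (S.B k).sg s * (S.B k).sg (!s),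
    ε • ((S.B k).off s - ((S.B k).sg s * (S.B k).sg (!s)) • (S.B k).off (!s)) + d, ?_, ?_⟩
  · have := congrArg π (alg t)
    rw [map_add, perKill_map_units, map_add π (ε • (S.B k).pos s t), perKill_map_units] at this
    exact this.trans hl
  rw [lvl_eq']
  refine Deep.push _ _ (hd2.mono fun t' ht' ⟨hst, hv⟩ => ?_)
  show P.St y₀ _ _ _ _ _ ((S.B k).pos (!s) t')
  have hst' : P.St y₀ (P.egerm k t δ s) (γ * (S.B k).lab s) e ε d ((S.B k).pos s t') := hst
  refine ⟨hv.mem (!s), by rw [alg]; exact hst'.m2, ?_, ?_⟩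
  · rw [alg, hst'.fib, mul_smul, mul_smul]
    exact congrArg (γ • ·) (hv.fib' s)
  · obtain ⟨Ex, hEx, hval⟩ := hst'.val
    set q₀ := (S.cut π P.cuts).B (S.piece π P.cuts k t ht) with hq₀
    let q : Band G V (O × (P.Item → Bool)) :=
      ⟨{t, t'}, Finset.insert_nonempty _ _, q₀.en, q₀.lab, q₀.sg, q₀.off⟩
    have htq : t ∈ q₀.F := ((S.mem_cut_F π P.cuts).2 ⟨ht, rfl⟩)
    have hq1 : ∀ u ∈ q.F, u = t ∨ u = t' := fun u hu' => by simpa [q] using hu'
    refine ⟨insert q Ex, hEx.insert q (fun u hu' => ?_) (fun u hu' u' hu'' => ?_)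
      ((S.cut π P.cuts).gr.conn_arrow (S.piece π P.cuts k t ht)) (t₀ := t) (by simp [q])
      (fun c β hc _ => hc _ t htq), fun c β hc hβ => ?_⟩
    · rcases hq1 u hu' with rfl | rfl
      · exact ⟨(S.valid k _ ht).mem, (S.valid k _ ht).fib⟩
      · exact ⟨hv.mem, hv.fib⟩
    · rcases hq1 u hu' with rfl | rfl <;> rcases hq1 u' hu'' with rfl | rfl <;> simp [ht']
    · have h1 : c (S.piece π P.cuts k t ht) = q₀.del β t' :=
        (hc _ t htq).trans (hβ q (Or.inl rfl) t (by simp [q]) t' (by simp [q]))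
      rw [he c β t' h1, hval c β hc fun q' hq' => hβ q' (Or.inr hq'), alg, smul_sub, mul_smul,
        mul_smul]
      abel

/-- At a two-sided germ the realization extends to the whole level. -/
theorem deep_extend {o₀ o : O} {x₀ x : ℝ} (hx₀ : x₀ ∈ P.U o₀) (hx : x ∈ P.U o) {g : G}
    {e : Fn G (S.CutJ π P.cuts)} (hc : Conn P.aux (1, (o₀, x₀, none)) (g, (o, x, none)) e)
    {ε : ℤˣ} {d : V} (hl : ε • x + π d = x₀) {δ : Bool}
    (h : Deep π x (some δ) (P.St (o₀, x₀, none) (o, x, none) g e ε d)) :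
    Deep π x none (P.St (o₀, x₀, none) (o, x, none) g e ε d) := by
  classical
  obtain ⟨wb, hwb, -⟩ := h.ex
  refine ⟨wb, hwb, fun w hw _ _ => ?_⟩
  rcases h.two hw with h1 | ⟨w₀, w₁, hw₀, hw₁, hne, s₀, s₁⟩
  · exact h1
  have hlv : ∀ u, π u = x → π (ε • u + d) = x₀ := fun u hu => by
    rw [map_add, perKill_map_units, hu, hl]
  have hcomm := P.commute_of_conn hx₀ hx (hc.mono subset_union_left)
  have hne' : g * P.h o x * g⁻¹ ≠ 1 := by
    intro h1
    apply P.ne o x hx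
    have : P.h o x = g⁻¹ * (g * P.h o x * g⁻¹) * g := by group
    rw [this, h1]
    group
  have hfib : ∀ u ∈ {u | π u = x}, S.C.ch o₀ (ε • u + d) = g • S.C.ch o u := by
    refine LTree.chart_agree 𝒜.iso (𝒜.hyp _ (P.ne o₀ x₀ hx₀)) 𝒜.j 𝒜.hj
      (κ := fun u => S.C.ch o₀ (ε • u + d)) (κ' := fun u => g • S.C.ch o u)
      (fun u hu u' hu' => ?_) (fun u hu u' hu' => ?_) (fun u hu => ?_) (fun u hu => ?_)
      hw₀ hw₁ hne s₀.fib s₁.fib
    · rw [S.C.iso o₀ _ (P.ax o₀ x₀ hx₀ _ (hlv u hu)).1 _ (P.ax o₀ x₀ hx₀ _ (hlv u' hu')).1]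
      congr 1
      rcases Int.units_eq_one_or ε with h1 | h1
      · simp [h1]
      · simp only [h1, Units.neg_smul, one_smul]
        rw [← abs_neg]
        congr 1
        abel
    · rw [𝒜.iso g, S.C.iso o _ (P.ax o x hx u hu).1 _ (P.ax o x hx u' hu').1]
    · exact (P.ax o₀ x₀ hx₀ _ (hlv u hu)).2
    · exact LTree.ax_subset_of_commute 𝒜.iso (𝒜.hyp _ hne') hcomm.symm
        ((LTree.mem_ax_conj 𝒜.iso (P.h o x) g _).2 (P.ax o x hx u hu).2)
  refine ⟨(P.ax o x hx w hw).1, (P.ax o₀ x₀ hx₀ _ (hlv w hw)).1, hfib w hw, ?_⟩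
  obtain ⟨Ex, hEx, hval⟩ := s₀.val
  let q : Band G V (O × (P.Item → Bool)) :=
    ⟨{w₀, w}, Finset.insert_nonempty _ _,
      fun s => if s then P.mu (o, x, none) else P.mu (o₀, x₀, none),
      fun s => if s then g else 1, fun s => if s then 1 else ε, fun s => if s then 0 else d⟩
  have hq1 : ∀ u ∈ q.F, π u = x := fun u hu' => by
    have : u = w₀ ∨ u = w := by simpa [q] using hu'
    rcases this with rfl | rfl <;> assumption
  have hdel : ∀ β u, q.del β u = g • β (P.mu (o, x, none)) u -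
      β (P.mu (o₀, x₀, none)) (ε • u + d) := fun β u => by
    simp [q, Band.del, Band.pos]
  refine ⟨insert q Ex, hEx.insert q (fun u hu => ⟨fun s => ?_, ?_⟩)
    (fun u hu u' hu' => (hq1 u hu).trans (hq1 u' hu').symm) (f := e)
    (Conn.pull' P.mu P.real_aux hc) (t₀ := w₀) (by simp [q])
    (fun c β hc' hβ => by rw [hdel]; exact hval c β hc' hβ), fun c β hc' hβ => ?_⟩
  · cases s
    · exact (P.ax o₀ x₀ hx₀ _ (hlv u (hq1 u hu))).1
    · show (1 : ℤˣ) • u + 0 ∈ S.C.dom o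
      simpa using (P.ax o x hx u (hq1 u hu)).1
  · show (1 : G) • S.C.ch o₀ (ε • u + d) = g • S.C.ch o ((1 : ℤˣ) • u + 0)
    simpa using hfib u (hq1 u hu)
  · rw [← hdel, ← hβ q (Or.inl rfl) w₀ (by simp [q]) w (by simp [q]), hdel]
    exact hval c β hc' fun q' hq' => hβ q' (Or.inr hq')

theorem inv_step (hπ : Monotone π) {y₀ : O × ℝ × Option Bool}
    (hy₀ : (y₀.2.2 = none ∧ y₀.2.1 ∈ P.U y₀.1) ∨
      ∀ q f, Conn P.aux (1, y₀) q f → q.2.2.2 ≠ none) {k : J} {t : V}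
    (ht : t ∈ (S.B k).F) {δ : Bool} (hu : P.UGap k t δ) (s : Bool) (γ : G)
    {e e' : Fn G (S.CutJ π P.cuts)}
    (he : ∀ (c : H G (S.CutJ π P.cuts)) (β : O × (P.Item → Bool) → V → L2 G) (t' : V),
      c (S.piece π P.cuts k t ht) = ((S.cut π P.cuts).B (S.piece π P.cuts k t ht)).del β t' →
      e' c = e c + γ • ((S.B k).lab (!s) • β (P.mu (P.egerm k t δ (!s))) ((S.B k).pos (!s) t') -
        (S.B k).lab s • β (P.mu (P.egerm k t δ s)) ((S.B k).pos s t')))
    (hc : Conn P.aux (1, y₀) (γ * (S.B k).lab (!s), P.egerm k t δ (!s)) e')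
    (h : P.Inv' y₀ (γ * (S.B k).lab s, P.egerm k t δ s) e) :
    P.Inv' y₀ (γ * (S.B k).lab (!s), P.egerm k t δ (!s)) e' := by
  obtain ⟨ε, d, hl, hd⟩ := P.deep_cross hπ ht hu s γ he h
  refine ⟨ε, d, hl, ?_⟩
  rcases P.egerm_kind k t δ (!s) with ⟨h1, h2⟩ | h1
  · rcases hy₀ with ⟨h3, h4⟩ | h3
    · obtain ⟨o₀, x₀, σ₀⟩ := y₀
      obtain rfl : σ₀ = none := h3
      have e1 : P.egerm k t δ (!s) = ((S.B k).en (!s), S.lvl π (k, !s) t, none) :=
        Prod.ext rfl (Prod.ext rfl h1)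
      rw [e1] at hc hd ⊢
      exact P.deep_extend h4 h2 hc hl hd
    · exact (h3 _ _ hc h1).elim
  · show Deep π (S.lvl π (k, !s) t) (P.egerm k t δ (!s)).2.2 _
    rw [h1]
    exact hd

theorem inv_of_conn (hπ : Monotone π) {y₀ : O × ℝ × Option Bool}
    (hy₀ : (y₀.2.2 = none ∧ y₀.2.1 ∈ P.U y₀.1) ∨
      ∀ q f, Conn P.aux (1, y₀) q f → q.2.2.2 ≠ none) (h0 : P.Inv' y₀ (1, y₀) 0)
    {q : G × (O × ℝ × Option Bool)} {e : Fn G (S.CutJ π P.cuts)} (hc : Conn P.aux (1, y₀) q e) :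
    P.Inv' y₀ q e := by
  refine Conn.induction_tail (P := P.Inv' y₀) h0 ?_ ?_ hc
  · rintro q e g a b f hq hi hm rfl
    have hm' := hm
    obtain ⟨k, t, ht, δ, hu, hE⟩ := hm
    obtain ⟨rfl, rfl, rfl⟩ : a = ((S.B k).lab false, P.egerm k t δ false) ∧
        b = ((S.B k).lab true, P.egerm k t δ true) ∧
        f = ContinuousLinearMap.proj (S.piece π P.cuts k t ht) := by simpa using hE
    refine P.inv_step hπ hy₀ ht hu false g (fun c β t' h => ?_) (hq.trans (Conn.step g hm')) hi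
    show e c + g • c (S.piece π P.cuts k t ht) = _
    rw [h]
    rfl
  · rintro q e g a b f hq hi hm rfl
    have hm' := hm
    obtain ⟨k, t, ht, δ, hu, hE⟩ := hm
    obtain ⟨rfl, rfl, rfl⟩ : a = ((S.B k).lab false, P.egerm k t δ false) ∧
        b = ((S.B k).lab true, P.egerm k t δ true) ∧
        f = ContinuousLinearMap.proj (S.piece π P.cuts k t ht) := by simpa using hE
    refine P.inv_step hπ hy₀ ht hu true g (fun c β t' h => ?_)
      ((hq.trans (Conn.step g hm').symm).cast rfl rfl (sub_eq_add_neg _ _).symm) hi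
    show e c - g • c (S.piece π P.cuts k t ht) = _
    rw [h, sub_eq_add_neg, ← smul_neg]
    congr 2
    exact neg_sub _ _

theorem kill_base (hπ : Monotone π) {y₀ : O × ℝ × Option Bool}
    (hy₀ : (y₀.2.2 = none ∧ y₀.2.1 ∈ P.U y₀.1) ∨
      ∀ q f, Conn P.aux (1, y₀) q f → q.2.2.2 ≠ none)
    {e : Fn G (S.CutJ π P.cuts)} (hc : Conn P.aux (1, y₀) (1, y₀) e) :
    ∃ Ex, (S.cut π P.cuts).Extra π Ex ∧
      ∀ c β, (S.cut π P.cuts).Pot c β → (∀ q ∈ Ex, q.Cons β) → e c = 0 := by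
  by_cases hed : ∀ p q f, (p, q, f) ∈ P.aux → p.2 ≠ y₀ ∧ q.2 ≠ y₀
  · refine ⟨∅, Extra.empty _ _, fun c β _ _ => ?_⟩
    rw [(Conn.of_no_edge hed hc).2]
    rfl
  have h0 : P.Inv' y₀ (1, y₀) 0 := by
    by_contra hn
    apply hed
    rintro p q f ⟨k, t, ht, δ, hu, hE⟩
    obtain ⟨rfl, rfl, -⟩ : p = ((S.B k).lab false, P.egerm k t δ false) ∧
        q = ((S.B k).lab true, P.egerm k t δ true) ∧
        f = ContinuousLinearMap.proj (S.piece π P.cuts k t ht) := by simpa using hE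
    constructor
    · rintro rfl
      exact hn (P.inv_refl hπ ht hu false)
    · rintro rfl
      exact hn (P.inv_refl hπ ht hu true)
  obtain ⟨ε, d, -, hd⟩ := P.inv_of_conn hπ hy₀ h0 hc
  obtain ⟨w, -, hs⟩ := hd.ex
  obtain ⟨Ex, hEx, hval⟩ := hs.val
  have hw : ε • w + d = w := S.C.injOn _ hs.m2 hs.m1 (by simpa using hs.fib)
  refine ⟨Ex, hEx, fun c β h1 h2 => ?_⟩
  rw [hval c β h1 h2, hw]
  simp

end PerData

/-- One closed path of the auxiliary graph is killed by finitely many extra bands. -/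
theorem PerData.kill_loop (P : S.PerData π) (hπ : Monotone π) {p : G × (O × ℝ × Option Bool)}
    {e : Fn G (S.CutJ π P.cuts)} (hc : Conn P.aux p p e) :
    ∃ Ex, (S.cut π P.cuts).Extra π Ex ∧
      ∀ c β, (S.cut π P.cuts).Pot c β → (∀ q ∈ Ex, q.Cons β) → e c = 0 := by
  have key : ∀ (g : G) (y : O × ℝ × Option Bool), Conn P.aux (g, y) (g, y) e →
      ((y.2.2 = none ∧ y.2.1 ∈ P.U y.1) ∨ ∀ q f, Conn P.aux (1, y) q f → q.2.2.2 ≠ none) →
      ∃ Ex, (S.cut π P.cuts).Extra π Ex ∧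
        ∀ c β, (S.cut π P.cuts).Pot c β → (∀ q ∈ Ex, q.Cons β) → e c = 0 := by
    intro g y h hy
    have h1 := h.translate g⁻¹
    simp only [tr_mk, inv_mul_cancel] at h1
    obtain ⟨Ex, hEx, hval⟩ := P.kill_base hπ hy h1
    refine ⟨Ex, hEx, fun c β h2 h3 => ?_⟩
    have h4 : g⁻¹ • e c = 0 := hval c β h2 h3
    rw [← smul_inv_smul g (e c), h4, smul_zero]
  obtain ⟨g, y⟩ := p
  by_cases hed : ∀ p q f, (p, q, f) ∈ P.aux → p.2 ≠ y ∧ q.2 ≠ y
  · refine ⟨∅, Extra.empty _ _, fun c β _ _ => ?_⟩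
    rw [(Conn.of_no_edge hed hc).2]
    rfl
  by_cases hn : ∀ q f, Conn P.aux (1, y) q f → q.2.2.2 ≠ none
  · exact key g y hc (Or.inr hn)
  push Not at hn
  obtain ⟨⟨g₁, y₁⟩, f, hf, hy₁⟩ := hn
  have hf' := hf.translate g
  simp only [tr_mk, mul_one] at hf'
  refine key (g * g₁) y₁ (((hf'.symm.trans hc).trans hf').cast rfl rfl (by abel))
    (Or.inl ⟨hy₁, ?_⟩)
  have hU : ∀ p q f, (p, q, f) ∈ P.aux → (p.2 = y₁ ∨ q.2 = y₁) → y₁.2.1 ∈ P.U y₁.1 := by
    rintro p q f' ⟨k, t, ht, δ, hu, hE⟩ hpq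
    obtain ⟨rfl, rfl, -⟩ : p = ((S.B k).lab false, P.egerm k t δ false) ∧
        q = ((S.B k).lab true, P.egerm k t δ true) ∧
        f' = ContinuousLinearMap.proj (S.piece π P.cuts k t ht) := by simpa using hE
    have : ∀ s, P.egerm k t δ s = y₁ → y₁.2.1 ∈ P.U y₁.1 := by
      rintro s rfl
      rcases P.egerm_kind k t δ s with ⟨-, h2⟩ | h1
      · exact h2
      · exact absurd (h1.symm.trans hy₁) (by simp)
    exact hpq.elim (this false) (this true)
  by_contra hc₁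
  have h5 : ∀ p q f, (p, q, f) ∈ P.aux → p.2 ≠ y₁ ∧ q.2 ≠ y₁ := fun p q f' hm =>
    ⟨fun h => hc₁ (hU p q f' hm (Or.inl h)), fun h => hc₁ (hU p q f' hm (Or.inr h))⟩
  have h6 := (Conn.of_no_edge h5 hf.symm).1
  obtain rfl : y = y₁ := congrArg Prod.snd h6
  exact hed h5

theorem PerData.kill (P : S.PerData π) (hπ : Monotone π) :
    ∃ Ex, (S.cut π P.cuts).Extra π Ex ∧
      {c | ∃ β, (S.cut π P.cuts).Pot c β ∧ ∀ q ∈ Ex, q.Cons β} ⊆ Zm P.aux := by
  obtain ⟨L, hL, h1, h2⟩ := exists_finite_loops 𝒜.nice P.finite_aux fun y a ha b hb =>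
    P.comm_aux' y a (Im_mono subset_union_left y ha) b (Im_mono subset_union_left y hb)
  have key : ∀ L' : Set ((G × (O × ℝ × Option Bool)) × Fn G (S.CutJ π P.cuts)), L'.Finite →
      (∀ l ∈ L', Conn P.aux l.1 l.1 l.2) → ∃ Ex, (S.cut π P.cuts).Extra π Ex ∧
        ∀ c β, (S.cut π P.cuts).Pot c β → (∀ q ∈ Ex, q.Cons β) → ∀ l ∈ L', l.2 c = 0 := by
    intro L' hL'
    induction L', hL' using Set.Finite.induction_on with
    | empty => exact fun _ => ⟨∅, Extra.empty _ _, fun _ _ _ _ _ h => h.elim⟩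
    | insert _ _ ih =>
      intro h
      obtain ⟨Ex, hEx, hv⟩ := ih fun l hl => h l (Or.inr hl)
      obtain ⟨Ex', hEx', hv'⟩ := P.kill_loop hπ (h _ (Or.inl rfl))
      refine ⟨Ex ∪ Ex', hEx.union hEx', fun c β hc hβ l hl => ?_⟩
      rcases hl with rfl | hl
      · exact hv' c β hc fun q hq => hβ q (Or.inr hq)
      · exact hv c β hc (fun q hq => hβ q (Or.inl hq)) l hl
  obtain ⟨Ex, hEx, hv⟩ := key L hL h1
  exact ⟨Ex, hEx, fun c ⟨β, hc, hβ⟩ => h2 c (hv c β hc hβ)⟩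

theorem exists_aper (S : Sys 𝒜 O J) (hπ : Monotone π) (hd : DenseRange π) :
    ∃ (O' J' : Type) (_ : Fintype J') (S' : Sys 𝒜 O' J'),
      (S'.skel π).Aper ∧ (S'.IsGood → S.IsGood) := by
  obtain ⟨S₁, ⟨P⟩, hg₁⟩ := S.exists_perData hπ hd
  obtain ⟨Ex, hEx, hsub⟩ := P.kill hπ
  obtain ⟨J₂, _, S₂, hap, hg₂⟩ :=
    (S₁.cut π P.cuts).exists_add π hEx.fin hEx.valid hEx.short hEx.anch
  refine ⟨_, J₂, inferInstance, S₂, hap (P.aper_cut hπ), fun h => hg₁ ?_⟩
  exact S₁.good_of_cut P.cuts P.mu P.xl P.xr P.mu_xl P.mu_xr P.real_aux P.comm_aux'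
    (P.rel_aux' hπ) (fun c hc => ⟨hc.choose, hc.choose_spec.1⟩) hsub (hg₂ h)

end Sys

end Pool.Agent.Lib.MP_d87150_al
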