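import Pool.Agent.Lib.MP_d87150_al.Skel

/-!
# The set of periodic points
-/

set_option autoImplicit false

noncomputable section

namespace Pool.Agent.Lib.MP_d87150_al

open Set

theorem perU_exists_pos_lb {S : Set ℝ} (hS : S.Finite) (hpos : ∀ s ∈ S, 0 < s) :
    ∃ l : ℝ, 0 < l ∧ ∀ s ∈ S, l ≤ s := by
  rcases S.eq_empty_or_nonempty with rfl | hne
  · exact ⟨1, one_pos, fun s hs => hs.elim⟩
  · obtain ⟨l, hl, hmin⟩ := Set.exists_min_image S id hS hne
    exact ⟨l, hpos l hl, hmin⟩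

theorem perU_exists_gap {S : Set ℝ} (hS : S.Finite) :
    ∃ δ : ℝ, 0 < δ ∧ ∀ x ∈ S, ∀ y ∈ S, |x - y| < δ → x = y := by
  have h1 : ((fun p : ℝ × ℝ => |p.1 - p.2|) '' {p | p ∈ S ×ˢ S ∧ p.1 ≠ p.2}).Finite :=
    ((hS.prod hS).subset fun p hp => hp.1).image _
  obtain ⟨l, hl, hmin⟩ := perU_exists_pos_lb h1 (by
    rintro _ ⟨p, hp, rfl⟩
    exact abs_pos.2 (sub_ne_zero.2 hp.2))
  refine ⟨l, hl, fun x hx y hy hxy => ?_⟩
  by_contra hne
  have := hmin _ ⟨(x, y), ⟨⟨hx, hy⟩, hne⟩, rfl⟩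
  exact absurd hxy (not_lt.2 this)

theorem perU_abs_smul (ε : ℤˣ) (x : ℝ) : |ε • x| = |x| := by
  rcases Int.units_eq_one_or ε with rfl | rfl <;> simp

theorem perU_map_smul {V : Type} [AddCommGroup V] (π : V →+ ℝ) (ε : ℤˣ) (v : V) :
    π (ε • v) = ε • π v := by
  rcases Int.units_eq_one_or ε with rfl | rfl <;> simp

/-- A bounded set of points each followed by a collar is finite. -/
theorem perU_finite_of_sep {F : Set ℝ} {l R : ℝ} (hl : 0 < l) (hR : ∀ z ∈ F, |z| ≤ R)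
    (hsep : ∀ z ∈ F, ∀ z' ∈ F, z < z' → z + l ≤ z') : F.Finite := by
  refine Set.Finite.of_injOn (f := fun z => ⌊z / l⌋) (t := Icc ⌊-R / l⌋ ⌊R / l⌋) ?_ ?_
    (Set.finite_Icc _ _)
  · intro z hz
    have := abs_le.1 (hR z hz)
    exact ⟨Int.floor_le_floor (div_le_div_of_nonneg_right this.1 hl.le),
      Int.floor_le_floor (div_le_div_of_nonneg_right this.2 hl.le)⟩
  · have key : ∀ z ∈ F, ∀ z' ∈ F, z < z' → ⌊z / l⌋ < ⌊z' / l⌋ := by
      intro z hz z' hz' hlt
      have h1 := hsep z hz z' hz' hlt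
      have h2 : z / l + 1 ≤ z' / l := by
        rw [div_add_one hl.ne']
        exact div_le_div_of_nonneg_right h1 hl.le
      have h3 := Int.floor_le_floor h2
      rw [Int.floor_add_one] at h3
      omega
    intro z hz z' hz' h
    rcases lt_trichotomy z z' with h1 | h1 | h1
    · exact absurd h (key z hz z' hz' h1).ne
    · exact h1
    · exact absurd h (key z' hz' z hz h1).ne'

/-- Components of a set of reals. -/
def PerUComp (U : Set ℝ) (α β : ℝ) : Prop := α < β ∧ Ioo α β ⊆ U ∧ α ∉ U ∧ β ∉ U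

theorem perU_exists_comp {U : Set ℝ} (hU : IsOpen U) {R : ℝ} (hR : ∀ x ∈ U, |x| ≤ R) {x : ℝ}
    (hx : x ∈ U) : ∃ α β, PerUComp U α β ∧ α < x ∧ x < β := by
  have hc1 : IsClosed (Uᶜ ∩ Iic x) := hU.isClosed_compl.inter isClosed_Iic
  have hc2 : IsClosed (Uᶜ ∩ Ici x) := hU.isClosed_compl.inter isClosed_Ici
  have hxR := abs_le.1 (hR x hx)
  have hn1 : (Uᶜ ∩ Iic x).Nonempty := ⟨-R - 1, fun h => by
    have := abs_le.1 (hR _ h); linarith, show -R - 1 ≤ x by linarith⟩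
  have hn2 : (Uᶜ ∩ Ici x).Nonempty := ⟨R + 1, fun h => by
    have := abs_le.1 (hR _ h); linarith, show x ≤ R + 1 by linarith⟩
  have hb1 : BddAbove (Uᶜ ∩ Iic x) := ⟨x, fun y hy => hy.2⟩
  have hb2 : BddBelow (Uᶜ ∩ Ici x) := ⟨x, fun y hy => hy.2⟩
  have m1 := hc1.csSup_mem hn1 hb1
  have m2 := hc2.csInf_mem hn2 hb2
  have l1 : sSup (Uᶜ ∩ Iic x) < x := lt_of_le_of_ne m1.2 fun h => m1.1 (by rw [h]; exact hx)
  have l2 : x < sInf (Uᶜ ∩ Ici x) := lt_of_le_of_ne m2.2 fun h => m2.1 (by rw [← h]; exact hx)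
  refine ⟨_, _, ⟨l1.trans l2, fun y hy => ?_, m1.1, m2.1⟩, l1, l2⟩
  by_contra hyU
  rcases le_total y x with h | h
  · exact absurd (le_csSup hb1 ⟨hyU, h⟩) (not_le.2 hy.1)
  · exact absurd (csInf_le hb2 ⟨hyU, h⟩) (not_le.2 hy.2)

theorem perU_finite_comp (U : Set ℝ) (m : ℝ) :
    {p : ℝ × ℝ | PerUComp U p.1 p.2 ∧ p.1 ≤ m ∧ m ≤ p.2}.Finite := by
  have key : ∀ p q : ℝ × ℝ, PerUComp U p.1 p.2 → PerUComp U q.1 q.2 → p.1 < q.2 → q.1 < p.2 →
      p = q := by
    intro p q hp hq h1 h2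
    have e1 : p.1 = q.1 := by
      rcases lt_trichotomy p.1 q.1 with h | h | h
      · exact absurd (hp.2.1 ⟨h, h2⟩) hq.2.2.1
      · exact h
      · exact absurd (hq.2.1 ⟨h, h1⟩) hp.2.2.1
    have e2 : p.2 = q.2 := by
      rcases lt_trichotomy p.2 q.2 with h | h | h
      · exact absurd (hq.2.1 ⟨h2, h⟩) hp.2.2.2
      · exact h
      · exact absurd (hp.2.1 ⟨h1, h⟩) hq.2.2.2
    exact Prod.ext e1 e2
  have s1 : {p : ℝ × ℝ | PerUComp U p.1 p.2 ∧ p.1 ≤ m ∧ m < p.2}.Subsingleton :=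
    fun p hp q hq => key p q hp.1 hq.1 (lt_of_le_of_lt hp.2.1 hq.2.2) (lt_of_le_of_lt hq.2.1 hp.2.2)
  have s2 : {p : ℝ × ℝ | PerUComp U p.1 p.2 ∧ p.1 < m ∧ m ≤ p.2}.Subsingleton :=
    fun p hp q hq => key p q hp.1 hq.1 (lt_of_lt_of_le hp.2.1 hq.2.2) (lt_of_lt_of_le hq.2.1 hp.2.2)
  refine (s1.finite.union s2.finite).subset fun p hp => ?_
  rcases eq_or_lt_of_le hp.2.2 with h | h
  · exact Or.inr ⟨hp.1, by rw [h]; exact hp.1.1, hp.2.2⟩
  · exact Or.inl ⟨hp.1, hp.2.1, h⟩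

/-- If all components are long, every frontier point has a long collar. -/
theorem perU_collar {U : Set ℝ} (hU : IsOpen U) {R l : ℝ} (hR : ∀ x ∈ U, |x| ≤ R) (hl : 0 < l)
    (hlen : ∀ α β, PerUComp U α β → l ≤ β - α) {z : ℝ} (hz : z ∈ frontier U) :
    z ∉ U ∧ (Ioo z (z + l) ⊆ U ∨ Ioo (z - l) z ⊆ U) := by
  rw [hU.frontier_eq] at hz
  obtain ⟨hcl, hzU⟩ := hz
  refine ⟨hzU, ?_⟩
  by_contra hcon
  rw [not_or] at hcon
  -- a right neighbourhood free of points of U
  have hr : ∃ r, 0 < r ∧ ∀ y ∈ U, z < y → z + r ≤ y := by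
    by_cases hex : ∃ x ∈ U, z < x ∧ x < z + l
    · obtain ⟨x, hx, h1, h2⟩ := hex
      obtain ⟨α, β, hc, h3, h4⟩ := perU_exists_comp hU hR hx
      have h5 : z ≤ α := by
        by_contra h
        exact hzU (hc.2.1 ⟨not_le.1 h, h1.trans h4⟩)
      rcases eq_or_lt_of_le h5 with h6 | h6
      · exfalso
        apply hcon.1
        have := hlen α β hc
        exact fun y hy => hc.2.1 ⟨by rw [← h6]; exact hy.1, by linarith [hy.2]⟩
      · refine ⟨α - z, by linarith, fun y hy hzy => ?_⟩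
        by_contra h
        have h7 : y < α := by linarith [not_le.1 h]
        obtain ⟨α', β', hc', h8, h9⟩ := perU_exists_comp hU hR hy
        have h10 : z ≤ α' := by
          by_contra h
          exact hzU (hc'.2.1 ⟨not_le.1 h, hzy.trans h9⟩)
        have h11 : β' ≤ α := by
          by_contra h
          exact hc.2.2.1 (hc'.2.1 ⟨h8.trans h7, not_le.1 h⟩)
        have := hlen α' β' hc'
        linarith
    · refine ⟨l, hl, fun y hy hzy => ?_⟩
      by_contra h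
      exact hex ⟨y, hy, hzy, not_le.1 h⟩
  have hl' : ∃ r, 0 < r ∧ ∀ y ∈ U, y < z → y ≤ z - r := by
    by_cases hex : ∃ x ∈ U, x < z ∧ z - l < x
    · obtain ⟨x, hx, h1, h2⟩ := hex
      obtain ⟨α, β, hc, h3, h4⟩ := perU_exists_comp hU hR hx
      have h5 : β ≤ z := by
        by_contra h
        exact hzU (hc.2.1 ⟨h3.trans h1, not_le.1 h⟩)
      rcases eq_or_lt_of_le h5 with h6 | h6
      · exfalso
        apply hcon.2
        have := hlen α β hc
        exact fun y hy => hc.2.1 ⟨by linarith [hy.1], by rw [h6]; exact hy.2⟩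
      · refine ⟨z - β, by linarith, fun y hy hzy => ?_⟩
        by_contra h
        have h7 : β < y := by linarith [not_le.1 h]
        obtain ⟨α', β', hc', h8, h9⟩ := perU_exists_comp hU hR hy
        have h10 : β' ≤ z := by
          by_contra h
          exact hzU (hc'.2.1 ⟨h8.trans hzy, not_le.1 h⟩)
        have h11 : β ≤ α' := by
          by_contra h
          exact hc.2.2.2 (hc'.2.1 ⟨not_le.1 h, h7.trans h9⟩)
        have := hlen α' β' hc'
        linarith
    · refine ⟨l, hl, fun y hy hzy => ?_⟩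
      by_contra h
      exact hex ⟨y, hy, hzy, not_le.1 h⟩
  obtain ⟨r, hr0, hr⟩ := hr
  obtain ⟨r', hr0', hr'⟩ := hl'
  obtain ⟨y, hy, hd⟩ := Metric.mem_closure_iff.1 hcl (min r r') (lt_min hr0 hr0')
  rw [Real.dist_eq, abs_lt] at hd
  have m1 := min_le_left r r'
  have m2 := min_le_right r r'
  rcases lt_trichotomy y z with h | h | h
  · have := hr' y hy h
    linarith [hd.2]
  · exact hzU (h ▸ hy)
  · have := hr y hy h
    linarith [hd.1]

namespace Skel

variable {V : Type} [AddCommGroup V] {π : V →+ ℝ} {L O : Type} (A : Skel π L O)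

/-- Points with a periodic neighbourhood. -/
def PU (o : O) : Set ℝ := {x | ∃ u v, u < x ∧ x < v ∧ A.Per o u v}

theorem isOpen_PU (o : O) : IsOpen (A.PU o) := by
  rw [isOpen_iff_mem_nhds]
  rintro x ⟨u, v, h1, h2, h⟩
  exact Filter.mem_of_superset (Ioo_mem_nhds h1 h2) fun y hy => ⟨u, v, hy.1, hy.2, h⟩

variable {A}

theorem Per.subset_PU {o : O} {u v : ℝ} (h : A.Per o u v) : Ioo u v ⊆ A.PU o :=
  fun _ hx => ⟨u, v, hx.1, hx.2, h⟩

theorem exists_base_of_mem_PU {o : O} {x : ℝ} (h : x ∈ A.PU o) :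
    ∃ ω, A.ob ω = o ∧ x ∈ A.base ω := by
  obtain ⟨u, v, h1, h2, h⟩ := h
  obtain ⟨ω, h3, h4⟩ := h.exists_base
  exact ⟨ω, h3, h4 ⟨h1, h2⟩⟩

theorem perU_abs_rmap (ω : L × Bool) (x y : ℝ) : |A.rmap ω x - A.rmap ω y| = |x - y| := by
  unfold rmap
  rw [add_sub_add_right_eq_sub, ← smul_sub, perU_abs_smul]

theorem rmap_mem_PU {ω : L × Bool} {x : ℝ} (hx : x ∈ A.base ω) (h : x ∈ A.PU (A.ob ω)) :
    A.rmap ω x ∈ A.PU (A.ob (bar ω)) := by
  obtain ⟨u, v, h1, h2, hp⟩ := h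
  obtain ⟨r, hr, hr1, hr2, hr3, hr4⟩ : ∃ r : ℝ, 0 < r ∧ u ≤ x - 2 * r ∧ x + 2 * r ≤ v ∧
      A.lo ω ≤ x - 2 * r ∧ x + 2 * r ≤ A.hi ω := by
    have a1 := hx.1
    have a2 := hx.2
    refine ⟨min (min (x - u) (v - x)) (min (x - A.lo ω) (A.hi ω - x)) / 2, ?_, ?_, ?_, ?_, ?_⟩ <;>
      grind
  have hback : ∀ z ∈ Ioo (A.rmap ω x - r) (A.rmap ω x + r), |A.rmap (bar ω) z - x| < r := by
    intro z hz
    have := perU_abs_rmap (A := A) (bar ω) z (A.rmap ω x)
    rw [A.rmap_bar_rmap] at this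
    rw [this, abs_lt]
    constructor <;> linarith [hz.1, hz.2]
  refine ⟨A.rmap ω x - r, A.rmap ω x + r, by linarith, by linarith, by linarith, fun η hη => ?_⟩
  obtain ⟨c, hc0, hc1, hc2⟩ := hp.2 (min η r) (lt_min hη hr)
  have hcη : |π c| < η := hc1.trans_le (min_le_left _ _)
  have hcr : |π c| < r := hc1.trans_le (min_le_right _ _)
  have s1 := IA.step (A := A) (i := A.ob (bar ω)) (u := A.rmap ω x - r) (v := A.rmap ω x + r)
    (bar ω) IA.refl rfl (fun z hz => by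
      have h3 := abs_lt.1 (hback z hz)
      have h4 : A.rmap (bar ω) z ∈ A.base (bar (bar ω)) := by
        rw [bar_bar]
        exact ⟨by linarith [h3.1], by linarith [h3.2]⟩
      simpa using (A.rmap_mem_base).1 h4)
  rw [bar_bar, mul_one, smul_zero, zero_add] at s1
  have s2 := s1.trans hc2 (fun z hz => by
    have h3 := abs_lt.1 (hback z hz)
    exact ⟨by change u < A.rmap (bar ω) z; linarith [h3.1],
      by change A.rmap (bar ω) z < v; linarith [h3.2]⟩)
  rw [one_mul, one_smul] at s2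
  have s3 := IA.step ω s2 rfl (fun z hz => by
    have h3 := abs_lt.1 (hback z hz)
    have h4 := abs_lt.1 hcr
    have e : A.vsg (bar ω) • z + π (A.voff (bar ω) + c) = A.rmap (bar ω) z + π c := by
      rw [map_add, rmap, add_assoc]
    rw [e]
    exact ⟨by linarith [h3.1, h4.1], by linarith [h3.2, h4.2]⟩)
  have e1 : A.vsg ω * A.vsg (bar ω) = 1 := by rw [A.vsg_bar, Int.units_mul_self]
  have e2 : A.vsg ω • (A.voff (bar ω) + c) + A.voff ω = A.vsg ω • c := by
    rw [A.voff_bar, smul_add, smul_neg, smul_smul, Int.units_mul_self, one_smul]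
    abel
  rw [e1, e2] at s3
  refine ⟨A.vsg ω • c, ?_, ?_, s3⟩
  · intro h
    exact hc0 ((smul_eq_zero_iff_eq _).1 h)
  · rw [perU_map_smul, perU_abs_smul]
    exact hcη

theorem perU_rmap_iff {ω : L × Bool} {x : ℝ} (hx : x ∈ A.base ω) :
    x ∈ A.PU (A.ob ω) ↔ A.rmap ω x ∈ A.PU (A.ob (bar ω)) := by
  refine ⟨rmap_mem_PU hx, fun h => ?_⟩
  have := rmap_mem_PU ((A.rmap_mem_base).2 hx) h
  rwa [A.rmap_bar_rmap, bar_bar] at this

theorem perU_inv {i o : O} {u v : ℝ} {ε : ℤˣ} {c : V} (h : A.IA i u v o ε c) {x : ℝ}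
    (hx : x ∈ Ioo u v) : x ∈ A.PU i ↔ ε • x + π c ∈ A.PU o := by
  induction h with
  | refl => simp
  | @step o ε c ω _ hob hb ih =>
    have e : (A.vsg ω * ε) • x + π (A.vsg ω • c + A.voff ω) = A.rmap ω (ε • x + π c) := by
      rw [rmap, map_add, perU_map_smul, mul_smul, smul_add, add_assoc]
    rw [e, ih, ← hob]
    exact perU_rmap_iff (hb x hx)

theorem perU_ext {i o : O} {u v p q : ℝ} {ε : ℤˣ} {c : V} (h : A.IA i u v o ε c) (huv : u < v)
    (hp : p ≤ u) (hq : v ≤ q) :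
    (∃ (ω : L × Bool) (ε' : ℤˣ) (c' : V) (r : ℝ), 0 < r ∧
      A.IA i (p - r) (q + r) (A.ob ω) ε' c' ∧
      ∃ x ∈ Icc p q, ε' • x + π c' = A.lo ω ∨ ε' • x + π c' = A.hi ω) ∨
    ∃ r : ℝ, 0 < r ∧ A.IA i (p - r) (q + r) o ε c := by
  induction h with
  | refl => exact Or.inr ⟨1, one_pos, IA.refl⟩
  | @step o ε c ω _ hob hb ih =>
    rcases ih with ih | ⟨r, hr, ih⟩
    · exact Or.inl ih
    by_cases hm : ∃ x ∈ Icc p q, ε • x + π c = A.lo ω ∨ ε • x + π c = A.hi ω
    · exact Or.inl ⟨ω, ε, c, r, hr, hob ▸ ih, hm⟩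
    have h0 := hb ((u + v) / 2) ⟨by linarith, by linarith⟩
    have hex : ∃ r', 0 < r' ∧ ∀ x ∈ Ioo (p - r') (q + r'), ε • x + π c ∈ A.base ω := by
      rcases Int.units_eq_one_or ε with rfl | rfl
      · simp only [one_smul] at hm h0 ⊢
        have a1 := h0.1
        have a2 := h0.2
        have b1 : A.lo ω < p + π c := by
          by_contra hn
          exact hm ⟨A.lo ω - π c, ⟨by linarith [not_lt.1 hn], by linarith⟩, Or.inl (by ring)⟩
        have b2 : q + π c < A.hi ω := by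
          by_contra hn
          exact hm ⟨A.hi ω - π c, ⟨by linarith, by linarith [not_lt.1 hn]⟩, Or.inr (by ring)⟩
        refine ⟨min (p + π c - A.lo ω) (A.hi ω - q - π c), lt_min (by linarith) (by linarith),
          fun x hx => ?_⟩
        have m1 := min_le_left (p + π c - A.lo ω) (A.hi ω - q - π c)
        have m2 := min_le_right (p + π c - A.lo ω) (A.hi ω - q - π c)
        exact ⟨by linarith [hx.1], by linarith [hx.2]⟩
      · simp only [Units.neg_smul, one_smul] at hm h0 ⊢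
        have a1 := h0.1
        have a2 := h0.2
        have b1 : A.lo ω < -q + π c := by
          by_contra hn
          exact hm ⟨π c - A.lo ω, ⟨by linarith, by linarith [not_lt.1 hn]⟩, Or.inl (by ring)⟩
        have b2 : -p + π c < A.hi ω := by
          by_contra hn
          exact hm ⟨π c - A.hi ω, ⟨by linarith [not_lt.1 hn], by linarith⟩, Or.inr (by ring)⟩
        refine ⟨min (-q + π c - A.lo ω) (A.hi ω + p - π c), lt_min (by linarith) (by linarith),
          fun x hx => ?_⟩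
        have m1 := min_le_left (-q + π c - A.lo ω) (A.hi ω + p - π c)
        have m2 := min_le_right (-q + π c - A.lo ω) (A.hi ω + p - π c)
        exact ⟨by linarith [hx.2], by linarith [hx.1]⟩
    obtain ⟨r', hr', hb'⟩ := hex
    have m1 := min_le_left r r'
    have m2 := min_le_right r r'
    refine Or.inr ⟨min r r', lt_min hr hr', IA.step ω (ih.mono (by linarith) (by linarith)) hob
      fun x hx => hb' x ⟨by linarith [hx.1], by linarith [hx.2]⟩⟩

/-- A collar of a point outside the periodic set is carried to a collar touching a marked point. -/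
theorem perU_touch {o : O} {p q : ℝ} (hpq : p < q) (hU : Ioo p q ⊆ A.PU o)
    (hend : p ∉ A.PU o ∨ q ∉ A.PU o) :
    ∃ (ω : L × Bool) (ε : ℤˣ) (c : V),
      (∀ x ∈ Icc p q, x ∈ A.PU o ↔ ε • x + π c ∈ A.PU (A.ob ω)) ∧
      ∃ x ∈ Icc p q, ε • x + π c = A.lo ω ∨ ε • x + π c = A.hi ω := by
  obtain ⟨u, v, h1, h2, hp⟩ := hU (show (p + q) / 2 ∈ Ioo p q from ⟨by linarith, by linarith⟩)
  have hp' : A.Per o (max u p) (min v q) :=
    hp.mono (le_max_left _ _) (min_le_left _ _) (by grind)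
  obtain ⟨c, hc0, hc1, hc2⟩ := hp'.2 (q - p) (by linarith)
  rcases perU_ext hc2 hp'.1 (le_max_right u p) (min_le_right v q) with
    ⟨ω, ε', c', r, hr, hI, hx⟩ | ⟨r, hr, hI⟩
  · exact ⟨ω, ε', c', fun x hx => perU_inv hI ⟨by linarith [hx.1], by linarith [hx.2]⟩, hx⟩
  · exfalso
    have hinv : ∀ x ∈ Icc p q, x ∈ A.PU o ↔ x + π c ∈ A.PU o := fun x hx => by
      have := perU_inv hI (x := x) ⟨by linarith [hx.1], by linarith [hx.2]⟩
      rwa [one_smul] at this
    have hc := abs_lt.1 hc1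
    rcases lt_trichotomy (π c) 0 with h | h | h
    · rcases hend with he | he
      · have h3 : p - π c ∈ Ioo p q := ⟨by linarith, by linarith [hc.1]⟩
        have := (hinv _ (Ioo_subset_Icc_self h3)).1 (hU h3)
        rw [sub_add_cancel] at this
        exact he this
      · exact he ((hinv q ⟨hpq.le, le_rfl⟩).2 (hU ⟨by linarith [hc.1], by linarith⟩))
    · have hper : A.Per o (p - r) (q + r) :=
        ⟨by linarith, fun η hη => ⟨c, hc0, by rw [h, abs_zero]; exact hη, hI⟩⟩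
      rcases hend with he | he
      · exact he (hper.subset_PU ⟨by linarith, by linarith⟩)
      · exact he (hper.subset_PU ⟨by linarith, by linarith⟩)
    · rcases hend with he | he
      · exact he ((hinv p ⟨le_rfl, hpq.le⟩).2 (hU ⟨by linarith, by linarith [hc.2]⟩))
      · have h3 : q - π c ∈ Ioo p q := ⟨by linarith [hc.2], by linarith⟩
        have := (hinv _ (Ioo_subset_Icc_self h3)).1 (hU h3)
        rw [sub_add_cancel] at this
        exact he this

theorem perU_bdd [Finite L] (o : O) : ∃ R : ℝ, ∀ x ∈ A.PU o, |x| ≤ R := by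
  obtain ⟨R, hR⟩ := (Set.finite_range fun ω : L × Bool => |A.lo ω| + |A.hi ω|).bddAbove
  refine ⟨R, fun x hx => ?_⟩
  obtain ⟨ω, -, h⟩ := exists_base_of_mem_PU hx
  have h1 : |A.lo ω| + |A.hi ω| ≤ R := hR ⟨ω, rfl⟩
  have a1 := h.1
  have a2 := h.2
  grind

theorem perU_len [Finite L] (o : O) :
    ∃ l : ℝ, 0 < l ∧ ∀ α β, PerUComp (A.PU o) α β → l ≤ β - α := by
  have hfin : ((fun p : ℝ × ℝ => p.2 - p.1) '' ⋃ ω : L × Bool,
      ({p : ℝ × ℝ | PerUComp (A.PU (A.ob ω)) p.1 p.2 ∧ p.1 ≤ A.lo ω ∧ A.lo ω ≤ p.2} ∪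
        {p : ℝ × ℝ | PerUComp (A.PU (A.ob ω)) p.1 p.2 ∧ p.1 ≤ A.hi ω ∧ A.hi ω ≤ p.2})).Finite :=
    (Set.finite_iUnion fun ω => (perU_finite_comp _ _).union (perU_finite_comp _ _)).image _
  obtain ⟨l, hl, hmin⟩ := perU_exists_pos_lb hfin (by
    rintro _ ⟨p, hp, rfl⟩
    obtain ⟨ω, hp | hp⟩ := mem_iUnion.1 hp
    · exact sub_pos.2 hp.1.1
    · exact sub_pos.2 hp.1.1)
  refine ⟨l, hl, fun α β hc => ?_⟩
  obtain ⟨ω, ε, c, hiff, x, hx, hm⟩ := perU_touch hc.1 hc.2.1 (Or.inl hc.2.2.1)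
  have hα := hiff α ⟨le_rfl, hc.1.le⟩
  have hβ := hiff β ⟨hc.1.le, le_rfl⟩
  have hlt := hc.1
  rcases Int.units_eq_one_or ε with rfl | rfl
  · simp only [one_smul] at hiff hm hα hβ
    have hc' : PerUComp (A.PU (A.ob ω)) (α + π c) (β + π c) := by
      refine ⟨by linarith, fun y hy => ?_, fun h => hc.2.2.1 (hα.2 h), fun h => hc.2.2.2 (hβ.2 h)⟩
      have h3 : y - π c ∈ Ioo α β := ⟨by linarith [hy.1], by linarith [hy.2]⟩
      have := (hiff _ (Ioo_subset_Icc_self h3)).1 (hc.2.1 h3)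
      rwa [sub_add_cancel] at this
    refine hmin _ ⟨(α + π c, β + π c), mem_iUnion.2 ⟨ω, ?_⟩, by simp⟩
    rcases hm with hm | hm
    · exact Or.inl ⟨hc', by rw [← hm]; simpa using hx.1, by rw [← hm]; simpa using hx.2⟩
    · exact Or.inr ⟨hc', by rw [← hm]; simpa using hx.1, by rw [← hm]; simpa using hx.2⟩
  · simp only [Units.neg_smul, one_smul] at hiff hm hα hβ
    have hc' : PerUComp (A.PU (A.ob ω)) (-β + π c) (-α + π c) := by
      refine ⟨by linarith, fun y hy => ?_, fun h => hc.2.2.2 (hβ.2 h), fun h => hc.2.2.1 (hα.2 h)⟩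
      have h3 : π c - y ∈ Ioo α β := ⟨by linarith [hy.2], by linarith [hy.1]⟩
      have := (hiff _ (Ioo_subset_Icc_self h3)).1 (hc.2.1 h3)
      rwa [show -(π c - y) + π c = y by ring] at this
    refine hmin _ ⟨(-β + π c, -α + π c), mem_iUnion.2 ⟨ω, ?_⟩, by simp only; ring⟩
    rcases hm with hm | hm
    · exact Or.inl ⟨hc', by rw [← hm]; simp only; linarith [hx.2],
        by rw [← hm]; simp only; linarith [hx.1]⟩
    · exact Or.inr ⟨hc', by rw [← hm]; simp only; linarith [hx.2],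
        by rw [← hm]; simp only; linarith [hx.1]⟩

theorem perU_collar_PU [Finite L] (o : O) :
    ∃ l : ℝ, 0 < l ∧ ∀ z ∈ frontier (A.PU o),
      z ∉ A.PU o ∧ (Ioo z (z + l) ⊆ A.PU o ∨ Ioo (z - l) z ⊆ A.PU o) := by
  obtain ⟨R, hR⟩ := perU_bdd (A := A) o
  obtain ⟨l, hl, hlen⟩ := perU_len (A := A) o
  exact ⟨l, hl, fun z hz => perU_collar (A.isOpen_PU o) hR hl hlen hz⟩

theorem finite_frontier_PU [Finite L] (o : O) : (frontier (A.PU o)).Finite := by
  obtain ⟨R, hR⟩ := perU_bdd (A := A) o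
  obtain ⟨l, hl, hcol⟩ := perU_collar_PU (A := A) o
  have f1 : {z | z ∉ A.PU o ∧ Ioo z (z + l) ⊆ A.PU o}.Finite := by
    refine perU_finite_of_sep (R := R + l) hl (fun z hz => ?_) fun z hz z' hz' hlt => ?_
    · have := abs_le.1 (hR _ (hz.2 (show z + l / 2 ∈ Ioo z (z + l) from
        ⟨by linarith, by linarith⟩)))
      rw [abs_le]
      constructor <;> linarith [this.1, this.2]
    · by_contra h
      exact hz'.1 (hz.2 ⟨hlt, not_le.1 h⟩)
  have f2 : {z | z ∉ A.PU o ∧ Ioo (z - l) z ⊆ A.PU o}.Finite := by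
    refine perU_finite_of_sep (R := R + l) hl (fun z hz => ?_) fun z hz z' hz' hlt => ?_
    · have := abs_le.1 (hR _ (hz.2 (show z - l / 2 ∈ Ioo (z - l) z from
        ⟨by linarith, by linarith⟩)))
      rw [abs_le]
      constructor <;> linarith [this.1, this.2]
    · by_contra h
      exact hz.1 (hz'.2 ⟨by linarith [not_le.1 h], hlt⟩)
  refine (f1.union f2).subset fun z hz => ?_
  rcases hcol z hz with ⟨h1, h2 | h2⟩
  · exact Or.inl ⟨h1, h2⟩
  · exact Or.inr ⟨h1, h2⟩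

theorem frontier_PU_subset [Finite L] (ha : ∀ k, A.a k ∈ range π) (hb : ∀ k, A.b k ∈ range π)
    (o : O) : frontier (A.PU o) ⊆ range π := by
  have hrp : ∀ ω τ, τ ∈ range π → A.rpos ω τ ∈ range π := by
    rintro ω _ ⟨t, rfl⟩
    exact ⟨A.sg ω • t + A.off ω, by rw [map_add, perU_map_smul, rpos]⟩
  have hlo : ∀ ω, A.lo ω ∈ range π := fun ω => by
    unfold lo
    split_ifs
    exacts [hrp _ _ (ha _), hrp _ _ (hb _)]
  have hhi : ∀ ω, A.hi ω ∈ range π := fun ω => by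
    unfold hi
    split_ifs
    exacts [hrp _ _ (hb _), hrp _ _ (ha _)]
  have hfin : (range A.lo ∪ range A.hi ∪ ⋃ ω : L × Bool, frontier (A.PU (A.ob ω))).Finite :=
    ((Set.finite_range _).union (Set.finite_range _)).union
      (Set.finite_iUnion fun ω => finite_frontier_PU _)
  obtain ⟨δ, hδ, hgap⟩ := perU_exists_gap hfin
  obtain ⟨l, hl, hcol⟩ := perU_collar_PU (A := A) o
  have key : ∀ p q z : ℝ, p < q → q - p < δ → Ioo p q ⊆ A.PU o → z ∉ A.PU o → (z = p ∨ z = q) →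
      z ∈ range π := by
    intro p q z hpq hlen hU hz hzpq
    have hzI : z ∈ Icc p q := by
      rcases hzpq with rfl | rfl
      exacts [⟨le_rfl, hpq.le⟩, ⟨hpq.le, le_rfl⟩]
    obtain ⟨ω, ε, c, hiff, x, hx, hm⟩ := perU_touch hpq hU (by
      rcases hzpq with rfl | rfl
      exacts [Or.inl hz, Or.inr hz])
    have hfr : ε • z + π c ∈ frontier (A.PU (A.ob ω)) := by
      rw [(A.isOpen_PU _).frontier_eq]
      refine ⟨?_, fun h => hz ((hiff z hzI).2 h)⟩
      have hcl : z ∈ closure (Ioo p q) := by rwa [closure_Ioo hpq.ne]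
      have hcont : Continuous fun y : ℝ => ε • y + π c := by
        rcases Int.units_eq_one_or ε with rfl | rfl
        · simp only [one_smul]; fun_prop
        · simp only [Units.neg_smul, one_smul]; fun_prop
      exact map_mem_closure (f := fun y : ℝ => ε • y + π c) hcont hcl fun y hy =>
        (hiff y (Ioo_subset_Icc_self hy)).1 (hU hy)
    have hd : |ε • z + π c - (ε • x + π c)| < δ := by
      rw [add_sub_add_right_eq_sub, ← smul_sub, perU_abs_smul, abs_lt]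
      constructor <;> linarith [hx.1, hx.2, hzI.1, hzI.2]
    have hmem : ε • x + π c ∈
        range A.lo ∪ range A.hi ∪ ⋃ ω : L × Bool, frontier (A.PU (A.ob ω)) := by
      rcases hm with hm | hm
      · exact Or.inl (Or.inl ⟨ω, hm.symm⟩)
      · exact Or.inl (Or.inr ⟨ω, hm.symm⟩)
    have he := hgap _ (Or.inr (mem_iUnion.2 ⟨ω, hfr⟩)) _ hmem hd
    have hr : ε • z + π c ∈ range π := by
      rw [he]
      rcases hm with hm | hm
      · rw [hm]; exact hlo ω
      · rw [hm]; exact hhi ω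
    obtain ⟨t, ht⟩ := hr
    refine ⟨ε • (t - c), ?_⟩
    rw [perU_map_smul, map_sub, ht, add_sub_cancel_right, smul_smul, Int.units_mul_self, one_smul]
  intro z hz
  have m1 := min_le_left l (δ / 2)
  have m2 := min_le_right l (δ / 2)
  have m0 : 0 < min l (δ / 2) := lt_min hl (by linarith)
  rcases hcol z hz with ⟨h1, h2 | h2⟩
  · exact key z (z + min l (δ / 2)) z (by linarith) (by linarith)
      (fun y hy => h2 ⟨hy.1, by linarith [hy.2]⟩) h1 (Or.inl rfl)
  · exact key (z - min l (δ / 2)) z z (by linarith) (by linarith)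
      (fun y hy => h2 ⟨by linarith [hy.1], hy.2⟩) h1 (Or.inr rfl)

end Skel

end Pool.Agent.Lib.MP_d87150_al
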