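import Pool.Agent.Lib.MP_d87150_al.Sys
import Pool.Agent.Lib.MP_d87150_al.PerU

/-!
# The field of commuting hyperbolic elements over the periodic points
-/

set_option autoImplicit false

noncomputable section

namespace Pool.Agent.Lib.MP_d87150_al

open Set

variable {Λ T G V : Type} [AddCommGroup Λ] [LinearOrder Λ] [IsOrderedAddMonoid Λ] [Group G]
  [MulAction G T] [AddCommGroup V] [LinearOrder V] {𝒜 : Amb Λ T G V} {O J : Type}

namespace Sys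

/-- The periodic part `U` of a system whose frontier points are marked, with hyperbolic
elements `h` whose axes contain the charts over `U`. -/
structure PerData (S : Sys 𝒜 O J) (π : V →+ ℝ) where
  U : O → Set ℝ
  h : O → ℝ → G
  op : ∀ o, IsOpen (U o)
  per : ∀ o u v, (S.skel π).Per o u v → Ioo u v ⊆ U o
  sub : ∀ o, ∀ x ∈ U o, ∃ ω, (S.skel π).ob ω = o ∧ x ∈ (S.skel π).base ω
  inv : ∀ ω, ∀ x ∈ (S.skel π).base ω, x ∈ U ((S.skel π).ob ω) →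
    (S.skel π).rmap ω x ∈ U ((S.skel π).ob (bar ω))
  mark : ∀ ω, ∀ x ∈ (S.skel π).base ω, x ∈ frontier (U ((S.skel π).ob ω)) →
    ∃ t ∈ (S.B ω.1).F, S.lvl π ω t = x
  ne : ∀ o, ∀ x ∈ U o, h o x ≠ 1
  ax : ∀ o, ∀ x ∈ U o, ∀ w, π w = x → w ∈ S.C.dom o ∧ S.C.ch o w ∈ 𝒜.tree.Ax (h o x)
  loc : ∀ o x y, uIcc x y ⊆ U o → Commute (h o x) (h o y)
  tr : ∀ ω, ∀ x ∈ (S.skel π).base ω, x ∈ U ((S.skel π).ob ω) →
    Commute ((S.B ω.1).lab ω.2 * h ((S.skel π).ob ω) x * ((S.B ω.1).lab ω.2)⁻¹)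
      ((S.B ω.1).lab (!ω.2) * h ((S.skel π).ob (bar ω)) ((S.skel π).rmap ω x) *
        ((S.B ω.1).lab (!ω.2))⁻¹)

variable [IsOrderedAddMonoid V] {π : V →+ ℝ}

/-- The element `g` realizes the nonzero translation `c` over the interval `(u, v)`. -/
def perM_Fam (S : Sys 𝒜 O J) (π : V →+ ℝ) (o : O) (u v : ℝ) (c : V) (g : G) : Prop :=
  c ≠ 0 ∧ ∀ w, π w ∈ Ioo u v →
    w ∈ S.C.dom o ∧ w + c ∈ S.C.dom o ∧ S.C.ch o w = g • S.C.ch o (w + c)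

theorem perM_exists_fam (S : Sys 𝒜 O J) (hπ : Monotone π) {o : O} {u v : ℝ}
    (h : (S.skel π).Per o u v) {η : ℝ} (hη : 0 < η) :
    ∃ c g, |π c| < η ∧ S.perM_Fam π o u v c g := by
  obtain ⟨c, hc, hcη, hia⟩ := h.2 η hη
  obtain ⟨g, hg⟩ := S.ia_sound hπ hia
  obtain ⟨ω, hω, hsub⟩ := h.exists_base
  refine ⟨c, g, hcη, hc, fun w hw => ?_⟩
  have h1 : w ∈ S.C.dom o := hω ▸ (S.cross hπ (hsub hw)).1
  have h2 := hg w hw h1
  rw [one_smul] at h2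
  exact ⟨h1, h2.1, h2.2⟩

theorem perM_ne (S : Sys 𝒜 O J) (hd : DenseRange π) {o : O} {u v : ℝ} {c : V} {g : G}
    (h : S.perM_Fam π o u v c g) (huv : u < v) : g ≠ 1 := by
  rintro rfl
  obtain ⟨w, hw⟩ := hd.exists_mem_open isOpen_Ioo (nonempty_Ioo.2 huv)
  obtain ⟨h1, h2, h3⟩ := h.2 w hw
  rw [one_smul] at h3
  exact h.1 (left_eq_add.1 (S.C.injOn o h1 h2 h3))

omit [IsOrderedAddMonoid V] in
theorem perM_comm (S : Sys 𝒜 O J) (hd : DenseRange π) {o : O} {u v u' v' x : ℝ} {c c' : V}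
    {g g' : G} (h : S.perM_Fam π o u v c g) (h' : S.perM_Fam π o u' v' c' g')
    (h1 : x ∈ Ioo u v) (h2 : x ∈ Ioo u' v') (h3 : x + π c ∈ Ioo u' v')
    (h4 : x + π c' ∈ Ioo u v) : Commute g g' := by
  have hop : IsOpen (Ioo u v ∩ Ioo u' v' ∩ Ioo (u' - π c) (v' - π c) ∩
      Ioo (u - π c') (v - π c')) :=
    ((isOpen_Ioo.inter isOpen_Ioo).inter isOpen_Ioo).inter isOpen_Ioo
  obtain ⟨w, ⟨⟨a1, a2⟩, a3⟩, a4⟩ := hd.exists_mem_open hop
    ⟨x, ⟨⟨h1, h2⟩, ⟨by linarith [h3.1], by linarith [h3.2]⟩⟩,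
      ⟨by linarith [h4.1], by linarith [h4.2]⟩⟩
  have b1 := (h.2 w a1).2.2
  have b2 := (h'.2 w a2).2.2
  have b3 := (h'.2 (w + c) (by rw [map_add]; exact ⟨by linarith [a3.1], by linarith [a3.2]⟩)).2.2
  have b4 := (h.2 (w + c') (by rw [map_add]; exact ⟨by linarith [a4.1], by linarith [a4.2]⟩)).2.2
  rw [add_right_comm] at b4
  have e : ((g' * g)⁻¹ * (g * g')) • S.C.ch o (w + c + c') = S.C.ch o (w + c + c') := by
    rw [mul_smul, inv_smul_eq_iff, mul_smul, mul_smul, ← b3, ← b4, ← b1, ← b2]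
  exact (inv_mul_eq_one.1 (𝒜.eq_one e)).symm

/-- The defining property of the chosen element at the point `x`. -/
def perM_At (S : Sys 𝒜 O J) (π : V →+ ℝ) (o : O) (x u v : ℝ) (g : G) : Prop :=
  u < x ∧ x < v ∧ (S.skel π).Per o u v ∧
    ∃ c, |π c| < (x - u) / 4 ∧ |π c| < (v - x) / 4 ∧ S.perM_Fam π o u v c g

theorem perM_exists_at (S : Sys 𝒜 O J) (hπ : Monotone π) (o : O) (x : ℝ) :
    ∃ g, x ∈ (S.skel π).PU o → ∃ u v, S.perM_At π o x u v g := by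
  by_cases hx : x ∈ (S.skel π).PU o
  · obtain ⟨u, v, h1, h2, h3⟩ := hx
    obtain ⟨c, g, hc, hg⟩ := S.perM_exists_fam hπ h3
      (η := min ((x - u) / 4) ((v - x) / 4)) (lt_min (by linarith) (by linarith))
    exact ⟨g, fun _ => ⟨u, v, h1, h2, h3, c, (lt_min_iff.1 hc).1, (lt_min_iff.1 hc).2, hg⟩⟩
  · exact ⟨1, fun h => absurd h hx⟩

theorem perM_At.ne {S : Sys 𝒜 O J} (hd : DenseRange π) {o : O} {x u v : ℝ} {g : G}
    (h : S.perM_At π o x u v g) : g ≠ 1 := by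
  obtain ⟨h1, h2, -, c, -, -, hg⟩ := h
  exact S.perM_ne hd hg (h1.trans h2)

/-- There are arbitrarily small translations over `(u, v)` commuting with the chosen element. -/
theorem perM_At.tiny {S : Sys 𝒜 O J} (hπ : Monotone π) (hd : DenseRange π) {o : O} {x u v : ℝ}
    {g : G} (h : S.perM_At π o x u v g) {η : ℝ} (hη : 0 < η) :
    ∃ c t, |π c| < η ∧ S.perM_Fam π o u v c t ∧ t ≠ 1 ∧ Commute t g := by
  obtain ⟨h1, h2, h3, c, hc1, hc2, hg⟩ := h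
  obtain ⟨c', t, hc', ht⟩ := S.perM_exists_fam hπ h3
    (η := min η (min (x - u) (v - x))) (lt_min hη (lt_min (by linarith) (by linarith)))
  obtain ⟨k1, k2⟩ := lt_min_iff.1 hc'
  obtain ⟨k2, k3⟩ := lt_min_iff.1 k2
  have := abs_lt.1 k2
  have := abs_lt.1 k3
  have := abs_lt.1 hc1
  have := abs_lt.1 hc2
  refine ⟨c', t, k1, ht, S.perM_ne hd ht h3.1,
    S.perM_comm hd ht hg (x := x) ⟨h1, h2⟩ ⟨h1, h2⟩ ⟨?_, ?_⟩ ⟨?_, ?_⟩⟩ <;> linarith

theorem perM_At.comm {S : Sys 𝒜 O J} (hπ : Monotone π) (hd : DenseRange π) {o : O}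
    {x u v x' u' v' z : ℝ} {g g' : G} (h : S.perM_At π o x u v g)
    (h' : S.perM_At π o x' u' v' g') (hz : z ∈ Ioo u v) (hz' : z ∈ Ioo u' v') :
    Commute g g' := by
  obtain ⟨c, t, k1, k2, k3, k4⟩ := h.tiny hπ hd (η := min (z - u') (v' - z))
    (lt_min (by linarith [hz'.1]) (by linarith [hz'.2]))
  obtain ⟨c', t', k1', k2', k3', k4'⟩ := h'.tiny hπ hd (η := min (z - u) (v - z))
    (lt_min (by linarith [hz.1]) (by linarith [hz.2]))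
  have := abs_lt.1 (lt_min_iff.1 k1).1
  have := abs_lt.1 (lt_min_iff.1 k1).2
  have := abs_lt.1 (lt_min_iff.1 k1').1
  have := abs_lt.1 (lt_min_iff.1 k1').2
  have e : Commute t t' :=
    S.perM_comm hd k2 k2' hz hz' ⟨by linarith, by linarith⟩ ⟨by linarith, by linarith⟩
  exact 𝒜.nice.ct t' g g' k3' (𝒜.nice.ct t g t' k3 k4 e).symm k4'

theorem perM_At.ax {S : Sys 𝒜 O J} {o : O} {x u v : ℝ} {g : G} (h : S.perM_At π o x u v g)
    {w : V} (hw : π w = x) : w ∈ S.C.dom o ∧ S.C.ch o w ∈ 𝒜.tree.Ax g := by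
  obtain ⟨h1, h2, -, c, hc1, hc2, -, hg⟩ := h
  have := abs_lt.1 hc1
  have := abs_lt.1 hc2
  have a0 := (hg w (by rw [hw]; exact ⟨h1, h2⟩)).1
  obtain ⟨a1, -, b1⟩ := hg (w - c) (by rw [map_sub, hw]; exact ⟨by linarith, by linarith⟩)
  obtain ⟨a2, -, b2⟩ :=
    hg (w - c - c) (by rw [map_sub, map_sub, hw]; exact ⟨by linarith, by linarith⟩)
  rw [sub_add_cancel] at b1 b2
  refine ⟨a0, ?_⟩
  change 𝒜.tree.d _ _ = _
  rw [← b1, ← b2, S.C.iso o _ a0 _ a2, S.C.iso o _ a0 _ a1, ← map_add]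
  refine congrArg _ ?_
  grind

omit [LinearOrder V] [IsOrderedAddMonoid V] in
theorem perM_map_smul (ε : ℤˣ) (w : V) : π (ε • w) = ε • π w := by
  rw [Units.smul_def, Units.smul_def, map_zsmul]

/-- Transport of a small translation across a band. -/
theorem perM_cross (S : Sys 𝒜 O J) (hπ : Monotone π) {ω : J × Bool} {x u v r : ℝ} {c : V} {t : G}
    (h : S.perM_Fam π ((S.skel π).ob ω) u v c t) (hu : u ≤ x - r) (hv : x + r ≤ v)
    (hb : Ioo (x - 2 * r) (x + 2 * r) ⊆ (S.skel π).base ω) (hc : |π c| < r) :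
    S.perM_Fam π ((S.skel π).ob (bar ω)) ((S.skel π).rmap ω x - r) ((S.skel π).rmap ω x + r)
      ((S.skel π).vsg ω • c)
      (((S.B ω.1).lab (!ω.2))⁻¹ * (S.B ω.1).lab ω.2 * t *
        (((S.B ω.1).lab (!ω.2))⁻¹ * (S.B ω.1).lab ω.2)⁻¹) := by
  have hc' := abs_lt.1 hc
  refine ⟨fun h0 => h.1 ((smul_eq_zero_iff_eq _).1 h0), fun w' hw' => ?_⟩
  obtain ⟨w, rfl⟩ : ∃ w, w' = (S.skel π).vsg ω • w + (S.skel π).voff ω :=
    ⟨((S.skel π).vsg ω)⁻¹ • (w' - (S.skel π).voff ω), by rw [smul_inv_smul, sub_add_cancel]⟩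
  have hw : x - r < π w ∧ π w < x + r := by
    rw [map_add, perM_map_smul, Skel.rmap] at hw'
    obtain ⟨k1, k2⟩ := hw'
    rcases Int.units_eq_one_or ((S.skel π).vsg ω) with e | e
    · rw [e, one_smul, one_smul] at k1 k2
      constructor <;> linarith
    · rw [e, Units.neg_smul, Units.neg_smul, one_smul, one_smul] at k1 k2
      constructor <;> linarith
  obtain ⟨-, a1, b1⟩ := S.cross hπ (hb (a := π w) ⟨by linarith [hw.1], by linarith [hw.2]⟩)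
  obtain ⟨-, a2, b2⟩ := S.cross hπ (w := w + c)
    (hb (by rw [map_add]; exact ⟨by linarith [hw.1], by linarith [hw.2]⟩))
  obtain ⟨-, -, b3⟩ := h.2 w ⟨by linarith [hw.1], by linarith [hw.2]⟩
  rw [smul_add, add_right_comm] at a2 b2
  refine ⟨a1, a2, ?_⟩
  rw [mul_inv_rev, inv_inv, mul_smul, mul_smul, mul_smul, mul_smul, ← b2, inv_smul_smul, ← b3, b1,
    inv_smul_smul]

theorem perM_At.tr {S : Sys 𝒜 O J} (hπ : Monotone π) (hd : DenseRange π) {ω : J × Bool}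
    {x u v u' v' : ℝ} {g g' : G} (hx : x ∈ (S.skel π).base ω)
    (h : S.perM_At π ((S.skel π).ob ω) x u v g)
    (h' : S.perM_At π ((S.skel π).ob (bar ω)) ((S.skel π).rmap ω x) u' v' g') :
    Commute ((S.B ω.1).lab ω.2 * g * ((S.B ω.1).lab ω.2)⁻¹)
      ((S.B ω.1).lab (!ω.2) * g' * ((S.B ω.1).lab (!ω.2))⁻¹) := by
  obtain ⟨r, hr, r1, r2, r3, r4, r5, r6⟩ : ∃ r : ℝ, 0 < r ∧ u ≤ x - r ∧ x + r ≤ v ∧
      (S.skel π).lo ω ≤ x - 2 * r ∧ x + 2 * r ≤ (S.skel π).hi ω ∧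
      u' ≤ (S.skel π).rmap ω x - r ∧ (S.skel π).rmap ω x + r ≤ v' := by
    have := h.1
    have := h.2.1
    have := h'.1
    have := h'.2.1
    have := hx.1
    have := hx.2
    refine ⟨min (min (min (x - u) (v - x))
      (min ((x - (S.skel π).lo ω) / 2) (((S.skel π).hi ω - x) / 2)))
      (min ((S.skel π).rmap ω x - u') (v' - (S.skel π).rmap ω x)), ?_⟩
    grind
  obtain ⟨c, t, k1, k2, k3, k4⟩ := h.tiny hπ hd hr
  obtain ⟨c', t', k1', k2', k3', k4'⟩ := h'.tiny hπ hd hr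
  have k5 := S.perM_cross hπ k2 r1 r2 (Ioo_subset_Ioo r3 r4) k1
  have k6 : |π ((S.skel π).vsg ω • c)| < r := by
    rw [perM_map_smul]
    rcases Int.units_eq_one_or ((S.skel π).vsg ω) with e | e
    · rwa [e, one_smul]
    · rwa [e, Units.neg_smul, one_smul, abs_neg]
  have := abs_lt.1 k6
  have := abs_lt.1 k1'
  have e := S.perM_comm hd k5 k2' (x := (S.skel π).rmap ω x) ⟨by linarith, by linarith⟩
    ⟨h'.1, h'.2.1⟩ ⟨by linarith, by linarith⟩ ⟨by linarith, by linarith⟩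
  generalize (S.B ω.1).lab ω.2 = a at e ⊢
  generalize (S.B ω.1).lab (!ω.2) = b at e ⊢
  have e1 : b⁻¹ * a * t * (b⁻¹ * a)⁻¹ ≠ 1 := fun h0 => k3 (conj_eq_one_iff.1 h0)
  have e2 := 𝒜.nice.ct t' _ g' k3' (𝒜.nice.ct _ t' _ e1 e (k4.conj (b⁻¹ * a))) k4'
  have e3 := e2.conj b
  have e4 : b * (b⁻¹ * a * g * (b⁻¹ * a)⁻¹) * b⁻¹ = a * g * a⁻¹ := by group
  rwa [e4] at e3

/-- The field over the periodic points. -/
theorem exists_field (S : Sys 𝒜 O J) (hπ : Monotone π) (hd : DenseRange π) :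
    ∃ h : O → ℝ → G, (∀ o, ∀ x ∈ (S.skel π).PU o, h o x ≠ 1) ∧
      (∀ o, ∀ x ∈ (S.skel π).PU o, ∀ w, π w = x →
        w ∈ S.C.dom o ∧ S.C.ch o w ∈ 𝒜.tree.Ax (h o x)) ∧
      (∀ o x y, uIcc x y ⊆ (S.skel π).PU o → Commute (h o x) (h o y)) ∧
      ∀ ω, ∀ x ∈ (S.skel π).base ω, x ∈ (S.skel π).PU ((S.skel π).ob ω) →
        Commute ((S.B ω.1).lab ω.2 * h ((S.skel π).ob ω) x * ((S.B ω.1).lab ω.2)⁻¹)
          ((S.B ω.1).lab (!ω.2) * h ((S.skel π).ob (bar ω)) ((S.skel π).rmap ω x) *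
            ((S.B ω.1).lab (!ω.2))⁻¹) := by
  choose h hh using S.perM_exists_at hπ
  have hne : ∀ o, ∀ x ∈ (S.skel π).PU o, h o x ≠ 1 := fun o x hx => by
    obtain ⟨u, v, k⟩ := hh o x hx
    exact k.ne hd
  refine ⟨h, hne, fun o x hx w hw => ?_, fun o x y hxy => ?_, fun ω x hx hx' => ?_⟩
  · obtain ⟨u, v, k⟩ := hh o x hx
    exact k.ax hw
  · refine isPreconnected_uIcc.induction₂ (fun a b => Commute (h o a) (h o b))
      (fun a ha => ?_) (fun a b c _ hb _ k k' => 𝒜.nice.ct _ _ _ (hne o b (hxy hb)) k.symm k')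
      (fun a b _ _ k => k.symm) left_mem_uIcc right_mem_uIcc
    obtain ⟨u, v, k⟩ := hh o a (hxy ha)
    filter_upwards [self_mem_nhdsWithin,
      mem_nhdsWithin_of_mem_nhds (Ioo_mem_nhds k.1 k.2.1)] with b hb hb'
    obtain ⟨u', v', k'⟩ := hh o b (hxy hb)
    exact k.comm hπ hd k' hb' ⟨k'.1, k'.2.1⟩
  · obtain ⟨u, v, k⟩ := hh _ x hx'
    obtain ⟨u', v', k'⟩ := hh _ _ (Skel.rmap_mem_PU hx hx')
    exact k.tr hπ hd hx k'

theorem exists_perData [Fintype J] (S : Sys 𝒜 O J) (hπ : Monotone π) (hd : DenseRange π) :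
    ∃ S' : Sys 𝒜 O J, Nonempty (S'.PerData π) ∧ (S'.IsGood → S.IsGood) := by
  have hfin : ∀ k, {τ | τ ∈ Ioo ((S.skel π).a k) ((S.skel π).b k) ∧ ∃ s, (S.skel π).rpos (k, s) τ ∈
      frontier ((S.skel π).PU ((S.skel π).ob (k, s)))}.Finite := fun k =>
    (finite_iUnion fun s : Bool =>
      (Skel.finite_frontier_PU (A := S.skel π) ((S.skel π).ob (k, s))).preimage
        ((S.skel π).rpos_injective (k, s)).injOn).subset fun τ hτ => mem_iUnion.2 hτ.2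
  obtain ⟨S', h1, h2, h3⟩ := S.exists_add_levels hπ _ hfin fun k τ hτ => ⟨hτ.1, by
    obtain ⟨s, hs⟩ := hτ.2
    obtain ⟨w, hw⟩ := Skel.frontier_PU_subset (A := S.skel π) (fun _ => ⟨_, rfl⟩)
      (fun _ => ⟨_, rfl⟩) _ hs
    refine ⟨((S.skel π).sg (k, s))⁻¹ • (w - (S.skel π).off (k, s)), ?_⟩
    rw [perM_map_smul, map_sub, hw, Skel.rpos, add_sub_cancel_right, inv_smul_smul]⟩
  obtain ⟨h, k1, k2, k3, k4⟩ := S'.exists_field hπ hd
  refine ⟨S', ⟨⟨(S'.skel π).PU, h, (S'.skel π).isOpen_PU, fun o u v k => k.subset_PU,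
    fun o x hx => Skel.exists_base_of_mem_PU hx, fun ω x hx hx' => Skel.rmap_mem_PU hx hx',
    fun ω x hx hx' => ?_, k1, k2, k3, k4⟩⟩, h3⟩
  obtain ⟨τ, rfl⟩ := (S'.skel π).rpos_surjective ω x
  rw [Skel.rpos_mem_base] at hx
  obtain ⟨t, ht, rfl⟩ := h2 ω.1 τ (h1 ▸ ⟨hx, ω.2, hx'⟩)
  exact ⟨t, ht, S'.lvl_eq ω t⟩

end Sys

end Pool.Agent.Lib.MP_d87150_al
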