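import Mathlib

/-!
# Skeletons of systems of isometries: the real shadow of a system of bands
-/

set_option autoImplicit false

noncomputable section

namespace Pool.Agent.Lib.MP_d87150_al

open Set

/-- The other end of a band. -/
def bar {L : Type} (ω : L × Bool) : L × Bool := (ω.1, !ω.2)

@[simp] theorem bar_fst {L : Type} (ω : L × Bool) : (bar ω).1 = ω.1 := rfl
@[simp] theorem bar_snd {L : Type} (ω : L × Bool) : (bar ω).2 = !ω.2 := rfl
@[simp] theorem bar_bar {L : Type} (ω : L × Bool) : bar (bar ω) = ω := by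
  simp [bar]
theorem bar_ne {L : Type} (ω : L × Bool) : bar ω ≠ ω := by
  intro h
  have := congrArg Prod.snd h
  simp at this

/-- Bands `k : L` with real parameter range `[a k, b k]`; the end `ω` of a band lies in the object
`ob ω`, where the parameter `t : V` has the coordinate `sg ω • t + off ω`. -/
structure Skel {V : Type} [AddCommGroup V] (π : V →+ ℝ) (L O : Type) where
  a : L → ℝ
  b : L → ℝ
  ob : L × Bool → O
  sg : L × Bool → ℤˣ
  off : L × Bool → V

namespace Skel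

variable {V : Type} [AddCommGroup V] {π : V →+ ℝ} {L O : Type} (A : Skel π L O)

/-- Bands of positive real width. -/
def Long (k : L) : Prop := A.a k < A.b k

/-- Real position of the real parameter `τ` at the end `ω`. -/
def rpos (ω : L × Bool) (τ : ℝ) : ℝ := A.sg ω • τ + π (A.off ω)

/-- Lower end of a base. -/
def lo (ω : L × Bool) : ℝ := if A.sg ω = 1 then A.rpos ω (A.a ω.1) else A.rpos ω (A.b ω.1)

/-- Upper end of a base. -/
def hi (ω : L × Bool) : ℝ := if A.sg ω = 1 then A.rpos ω (A.b ω.1) else A.rpos ω (A.a ω.1)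

/-- The open base. -/
def base (ω : L × Bool) : Set ℝ := Ioo (A.lo ω) (A.hi ω)

/-- Sign of the map across the band from the end `ω` to the other end. -/
def vsg (ω : L × Bool) : ℤˣ := A.sg (bar ω) * A.sg ω

/-- Offset of the map across the band. -/
def voff (ω : L × Bool) : V := A.off (bar ω) - A.vsg ω • A.off ω

/-- The real shadow of the map across the band. -/
def rmap (ω : L × Bool) (x : ℝ) : ℝ := A.vsg ω • x + π (A.voff ω)

/-- Words of the pseudogroup defined over the interval `(u, v)` of the object `i`; the word acts by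
`w ↦ ε • w + c` and ends in the object `o`. -/
inductive IA (A : Skel π L O) (i : O) (u v : ℝ) : O → ℤˣ → V → Prop
  | refl : IA A i u v i 1 0
  | step {o : O} {ε : ℤˣ} {c : V} (ω : L × Bool) : IA A i u v o ε c → A.ob ω = o →
      (∀ x ∈ Ioo u v, ε • x + π c ∈ A.base ω) →
      IA A i u v (A.ob (bar ω)) (A.vsg ω * ε) (A.vsg ω • c + A.voff ω)

/-- Arbitrarily small nonzero translations over `(u, v)`. -/
def Per (i : O) (u v : ℝ) : Prop :=
  u < v ∧ ∀ η : ℝ, 0 < η → ∃ c : V, c ≠ 0 ∧ |π c| < η ∧ A.IA i u v i 1 c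

/-- No periodic interval. -/
def Aper : Prop := ∀ i u v, ¬ A.Per i u v

/-- No reflection with a fixed point in its interval. -/
def NoRefl : Prop := ∀ i u v c, A.IA i u v i (-1) c → ¬ (2 * u < π c ∧ π c < 2 * v)

/-- Overlapping bases. -/
def Ov (ω ω' : L × Bool) : Prop := A.ob ω = A.ob ω' ∧ (A.base ω ∩ A.base ω').Nonempty

/-- Almost every point of a base lies in a second base. -/
def NoFree : Prop :=
  ∃ E : Set ℝ, E.Finite ∧ ∀ ω, ∀ x ∈ A.base ω, x ∉ E →
    ∃ ω', ω' ≠ ω ∧ A.ob ω' = A.ob ω ∧ x ∈ A.base ω'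

/-- Number of long bands. -/
def NL : ℕ := {k | A.Long k}.ncard

/-- Cycles of the graph whose vertices are the blocks of overlapping bases. -/
def Cyc [Fintype L] : Submodule ℚ (L → ℚ) where
  carrier := {z | (∀ k, ¬ A.Long k → z k = 0) ∧
    ∀ f : L × Bool → ℚ, (∀ ω ω', A.Ov ω ω' → f ω = f ω') →
      ∑ k, z k * (f (k, true) - f (k, false)) = 0}
  add_mem' := by
    rintro z z' ⟨h1, h2⟩ ⟨h1', h2'⟩
    refine ⟨fun k hk => by simp [h1 k hk, h1' k hk], fun f hf => ?_⟩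
    simp only [Pi.add_apply, add_mul, Finset.sum_add_distrib, h2 f hf, h2' f hf, add_zero]
  zero_mem' := ⟨fun _ _ => rfl, fun f _ => by simp⟩
  smul_mem' := by
    rintro r z ⟨h1, h2⟩
    refine ⟨fun k hk => by simp [h1 k hk], fun f hf => ?_⟩
    simp only [Pi.smul_apply, smul_eq_mul, mul_assoc, ← Finset.mul_sum, h2 f hf, mul_zero]

/-- The complexity. -/
def rk [Fintype L] : ℕ := Module.finrank ℚ A.Cyc

theorem skel_map_smul (ε : ℤˣ) (c : V) : π (ε • c) = ε • π c := by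
  rw [Units.smul_def, Units.smul_def, map_zsmul]

section Basic

theorem hi_sub_lo (ω : L × Bool) : A.hi ω - A.lo ω = A.b ω.1 - A.a ω.1 := by
  unfold hi lo rpos
  rcases Int.units_eq_one_or (A.sg ω) with h | h
  · simp [h]
  · simp [h]
    ring

theorem long_of_mem_base {ω : L × Bool} {x : ℝ} (h : x ∈ A.base ω) : A.Long ω.1 := by
  have h1 := A.hi_sub_lo ω
  have h2 := h.1.trans h.2
  unfold Long
  linarith

theorem rpos_mem_base {ω : L × Bool} {τ : ℝ} :
    A.rpos ω τ ∈ A.base ω ↔ τ ∈ Ioo (A.a ω.1) (A.b ω.1) := by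
  unfold base hi lo rpos
  rcases Int.units_eq_one_or (A.sg ω) with h | h
  · simp [h]
  · simp [h]
    constructor <;> rintro ⟨h1, h2⟩ <;> constructor <;> linarith

theorem rpos_injective (ω : L × Bool) : Function.Injective (A.rpos ω) := by
  intro x y hxy
  unfold rpos at hxy
  rcases Int.units_eq_one_or (A.sg ω) with h | h <;> simpa [h] using hxy

theorem rpos_surjective (ω : L × Bool) : Function.Surjective (A.rpos ω) := by
  intro x
  refine ⟨A.sg ω • (x - π (A.off ω)), ?_⟩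
  unfold rpos
  rcases Int.units_eq_one_or (A.sg ω) with h | h <;> simp [h]

theorem rmap_rpos (ω : L × Bool) (τ : ℝ) : A.rmap ω (A.rpos ω τ) = A.rpos (bar ω) τ := by
  unfold rmap rpos voff vsg
  rcases Int.units_eq_one_or (A.sg ω) with h | h <;>
    rcases Int.units_eq_one_or (A.sg (bar ω)) with h' | h' <;> simp [h, h'] <;> ring

theorem rmap_bar_rmap (ω : L × Bool) (x : ℝ) : A.rmap (bar ω) (A.rmap ω x) = x := by
  obtain ⟨τ, rfl⟩ := A.rpos_surjective ω x
  rw [rmap_rpos, rmap_rpos, bar_bar]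

theorem rmap_mem_base {ω : L × Bool} {x : ℝ} : A.rmap ω x ∈ A.base (bar ω) ↔ x ∈ A.base ω := by
  obtain ⟨τ, rfl⟩ := A.rpos_surjective ω x
  rw [rmap_rpos, rpos_mem_base, rpos_mem_base, bar_fst]

theorem vsg_bar (ω : L × Bool) : A.vsg (bar ω) = A.vsg ω := by
  unfold vsg
  rw [bar_bar, mul_comm]

theorem voff_bar (ω : L × Bool) : A.voff (bar ω) = -(A.vsg ω • A.voff ω) := by
  unfold voff
  rw [vsg_bar, bar_bar]
  rcases Int.units_eq_one_or (A.vsg ω) with h | h <;> simp [h]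

variable {A}

theorem IA.mono {i o : O} {u v u' v' : ℝ} {ε : ℤˣ} {c : V} (h : A.IA i u v o ε c) (hu : u ≤ u')
    (hv : v' ≤ v) : A.IA i u' v' o ε c := by
  induction h with
  | refl => exact IA.refl
  | step ω _ ho hx ih => exact IA.step ω ih ho fun x hx' => hx x (Ioo_subset_Ioo hu hv hx')

theorem IA.trans {i o o' : O} {u v u' v' : ℝ} {ε ε' : ℤˣ} {c c' : V} (h : A.IA i u v o ε c)
    (h' : A.IA o u' v' o' ε' c') (hm : ∀ x ∈ Ioo u v, ε • x + π c ∈ Ioo u' v') :
    A.IA i u v o' (ε' * ε) (ε' • c + c') := by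
  induction h' with
  | refl => simpa using h
  | @step o₂ ε₂ c₂ ω _ ho hx ih =>
    have := IA.step ω ih ho fun x hx' => by
      have h1 := hx _ (hm x hx')
      have e : (ε₂ * ε) • x + π (ε₂ • c + c₂) = ε₂ • (ε • x + π c) + π c₂ := by
        rw [map_add, skel_map_smul, smul_add, mul_smul, add_assoc]
      rwa [e]
    rwa [← mul_assoc, smul_add, ← mul_smul, add_assoc] at this

theorem IA.single (ω : L × Bool) :
    A.IA (A.ob ω) (A.lo ω) (A.hi ω) (A.ob (bar ω)) (A.vsg ω) (A.voff ω) := by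
  simpa using IA.step (A := A) (i := A.ob ω) (u := A.lo ω) (v := A.hi ω) ω IA.refl rfl
    (fun x hx => by simpa [base] using hx)

/-- A word is empty or starts with a base containing the interval. -/
theorem IA.eq_or_base {i o : O} {u v : ℝ} {ε : ℤˣ} {c : V} (h : A.IA i u v o ε c) :
    (o = i ∧ ε = 1 ∧ c = 0) ∨ ∃ ω, A.ob ω = i ∧ Ioo u v ⊆ A.base ω := by
  induction h with
  | refl => exact Or.inl ⟨rfl, rfl, rfl⟩
  | step ω _ ho hx ih =>
    rcases ih with ⟨h1, h2, h3⟩ | ih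
    · subst h2 h3
      exact Or.inr ⟨ω, ho.trans h1, fun x hx' => by simpa using hx x hx'⟩
    · exact Or.inr ih

theorem Per.mono {i : O} {u v u' v' : ℝ} (h : A.Per i u v) (hu : u ≤ u') (hv : v' ≤ v)
    (huv : u' < v') : A.Per i u' v' := by
  refine ⟨huv, fun η hη => ?_⟩
  obtain ⟨c, h1, h2, h3⟩ := h.2 η hη
  exact ⟨c, h1, h2, h3.mono hu hv⟩

theorem Per.exists_base {i : O} {u v : ℝ} (h : A.Per i u v) :
    ∃ ω, A.ob ω = i ∧ Ioo u v ⊆ A.base ω := by
  obtain ⟨c, h1, -, h3⟩ := h.2 1 one_pos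
  exact h3.eq_or_base.resolve_left fun h' => h1 h'.2.2

end Basic

section Ref

variable {L' O' L'' O'' : Type}

/-- The long bands of `B` are disjoint pieces of the bands of `A`, and pieces that overlap lie in
the same object. -/
structure Ref (B : Skel π L' O') (A : Skel π L O) (ρ : L' → L) (pa : O' → O) : Prop where
  a_le : ∀ k, B.Long k → A.a (ρ k) ≤ B.a k
  b_le : ∀ k, B.Long k → B.b k ≤ A.b (ρ k)
  sg : ∀ k s, B.Long k → B.sg (k, s) = A.sg (ρ k, s)
  off : ∀ k s, B.Long k → B.off (k, s) = A.off (ρ k, s)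
  ob : ∀ k s, B.Long k → pa (B.ob (k, s)) = A.ob (ρ k, s)
  disj : ∀ k k', ρ k = ρ k' → k ≠ k' → Disjoint (Ioo (B.a k) (B.b k)) (Ioo (B.a k') (B.b k'))
  ovk : ∀ k s k' s', A.ob (ρ k, s) = A.ob (ρ k', s') →
    (B.base (k, s) ∩ B.base (k', s')).Nonempty → B.ob (k, s) = B.ob (k', s')

/-- The band `k` of `A` survives with its full range. -/
def Full (B : Skel π L' O') (A : Skel π L O) (ρ : L' → L) (k : L) : Prop :=
  ∃ k', ρ k' = k ∧ B.a k' = A.a k ∧ B.b k' = A.b k

/-- `B` and `A` have the same long bands. -/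
structure Iso (B : Skel π L' O') (A : Skel π L O) (ρ : L' → L) (pa : O' → O) : Prop
    extends Ref B A ρ pa where
  full : ∀ k, A.Long k → Full B A ρ k
  obi : ∀ k s k' s', B.Long k → B.Long k' → A.ob (ρ k, s) = A.ob (ρ k', s') →
    B.ob (k, s) = B.ob (k', s')

variable {A} {B : Skel π L' O'} {C : Skel π L'' O''} {ρ : L' → L} {pa : O' → O}
  {ρ' : L'' → L'} {pa' : O'' → O'}

theorem Ref.skel_Ioo_subset (h : Ref B A ρ pa) (k : L') :
    Ioo (B.a k) (B.b k) ⊆ Ioo (A.a (ρ k)) (A.b (ρ k)) := fun _ hx =>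
  Ioo_subset_Ioo (h.a_le k (hx.1.trans hx.2)) (h.b_le k (hx.1.trans hx.2)) hx

theorem Ref.skel_rpos (h : Ref B A ρ pa) {k : L'} (hk : B.Long k) (s : Bool) (τ : ℝ) :
    B.rpos (k, s) τ = A.rpos (ρ k, s) τ := by
  unfold Skel.rpos
  rw [h.sg k s hk, h.off k s hk]

theorem Ref.skel_base_subset (h : Ref B A ρ pa) (k : L') (s : Bool) :
    B.base (k, s) ⊆ A.base (ρ k, s) := by
  intro x hx
  obtain ⟨τ, rfl⟩ := B.rpos_surjective (k, s) x
  rw [h.skel_rpos (B.long_of_mem_base hx), rpos_mem_base]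
  exact h.skel_Ioo_subset k (B.rpos_mem_base.1 hx)

theorem Ref.refl (A : Skel π L O) : Ref A A id id := by
  exact ⟨fun _ _ => le_rfl, fun _ _ => le_rfl, fun _ _ _ => rfl, fun _ _ _ => rfl,
    fun _ _ _ => rfl, fun _ _ e ne => absurd e ne, fun _ _ _ _ e _ => e⟩

theorem Ref.trans (h' : Ref C B ρ' pa') (h : Ref B A ρ pa) : Ref C A (ρ ∘ ρ') (pa ∘ pa') := by
  have hl : ∀ {k}, C.Long k → B.Long (ρ' k) := fun {k} hk =>
    (h'.a_le k hk).trans_lt (lt_of_lt_of_le hk (h'.b_le k hk))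
  refine ⟨fun k hk => (h.a_le _ (hl hk)).trans (h'.a_le k hk),
    fun k hk => (h'.b_le k hk).trans (h.b_le _ (hl hk)),
    fun k s hk => (h'.sg k s hk).trans (h.sg _ s (hl hk)),
    fun k s hk => (h'.off k s hk).trans (h.off _ s (hl hk)),
    fun k s hk => (congrArg pa (h'.ob k s hk)).trans (h.ob _ s (hl hk)), fun k k' e ne => ?_,
    fun k s k' s' e hne => h'.ovk k s k' s' (h.ovk _ _ _ _ e ?_) hne⟩
  · by_cases e' : ρ' k = ρ' k'
    · exact h'.disj k k' e' ne
    · exact (h.disj _ _ e e').mono (h'.skel_Ioo_subset k) (h'.skel_Ioo_subset k')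
  · exact hne.mono (inter_subset_inter (h'.skel_base_subset k s) (h'.skel_base_subset k' s'))

theorem Ref.long (h : Ref B A ρ pa) {k : L'} (hk : B.Long k) : A.Long (ρ k) := by
  exact (h.a_le k hk).trans_lt (lt_of_lt_of_le hk (h.b_le k hk))

theorem Ref.rpos (h : Ref B A ρ pa) {k : L'} (hk : B.Long k) (s : Bool) (τ : ℝ) :
    B.rpos (k, s) τ = A.rpos (ρ k, s) τ := by
  exact h.skel_rpos hk s τ

theorem Ref.rmap (h : Ref B A ρ pa) {k : L'} (hk : B.Long k) (s : Bool) (x : ℝ) :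
    B.rmap (k, s) x = A.rmap (ρ k, s) x := by
  obtain ⟨τ, rfl⟩ := B.rpos_surjective (k, s) x
  rw [rmap_rpos, h.rpos hk, rmap_rpos]
  exact h.rpos hk (!s) τ

theorem Ref.base_subset (h : Ref B A ρ pa) (k : L') (s : Bool) :
    B.base (k, s) ⊆ A.base (ρ k, s) := by
  exact h.skel_base_subset k s

theorem Ref.ia (h : Ref B A ρ pa) {i o : O'} {u v : ℝ} (huv : u < v) {ε : ℤˣ} {c : V}
    (hi : B.IA i u v o ε c) : A.IA (pa i) u v (pa o) ε c := by
  induction hi with
  | refl => exact IA.refl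
  | @step o ε c ω _ ho hx ih =>
    obtain ⟨k, s⟩ := ω
    obtain ⟨x, hx'⟩ := nonempty_Ioo.2 huv
    have hk : B.Long k := B.long_of_mem_base (hx x hx')
    have h1 := IA.step (A := A) (ρ k, s) ih (by rw [← ho, h.ob k s hk])
      fun x hx' => h.base_subset k s (hx x hx')
    have h2 : B.vsg (k, s) = A.vsg (ρ k, s) := by
      unfold vsg bar
      rw [h.sg k s hk, h.sg k (!s) hk]
    have h3 : B.voff (k, s) = A.voff (ρ k, s) := by
      unfold voff
      rw [h2]
      unfold bar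
      rw [h.off k s hk, h.off k (!s) hk]
    have h4 : pa (B.ob (bar (k, s))) = A.ob (bar (ρ k, s)) := h.ob k (!s) hk
    rw [h2, h3, h4]
    exact h1

theorem Ref.per (h : Ref B A ρ pa) {i : O'} {u v : ℝ} (hp : B.Per i u v) : A.Per (pa i) u v := by
  refine ⟨hp.1, fun η hη => ?_⟩
  obtain ⟨c, h1, h2, h3⟩ := hp.2 η hη
  exact ⟨c, h1, h2, h.ia hp.1 h3⟩

theorem Ref.aper (h : Ref B A ρ pa) (ha : A.Aper) : B.Aper := by
  exact fun i u v hp => ha _ u v (h.per hp)

theorem Ref.rk_le [Fintype L] [Fintype L'] [DecidableEq L] (h : Ref B A ρ pa)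
    (hinj : ∀ z ∈ B.Cyc, (∀ k, ∑ k' with ρ k' = k, z k' = 0) → z = 0) : B.rk ≤ A.rk := by
  have hmem : ∀ z ∈ B.Cyc, (fun k => ∑ k' with ρ k' = k, z k') ∈ A.Cyc := by
    rintro z ⟨h1, h2⟩
    refine ⟨fun k hk => Finset.sum_eq_zero fun k' hk' => h1 k' fun hl => hk ?_, fun f hf => ?_⟩
    · rw [← (Finset.mem_filter.1 hk').2]
      exact h.long hl
    · have h3 := h2 (fun ω => f (ρ ω.1, ω.2)) fun ω ω' hov => by
        obtain ⟨x, hx, hx'⟩ := hov.2
        refine hf _ _ ⟨?_, x, h.base_subset _ _ hx, h.base_subset _ _ hx'⟩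
        rw [← h.ob _ _ (B.long_of_mem_base hx), ← h.ob _ _ (B.long_of_mem_base hx')]
        exact congrArg pa hov.1
      rw [← Finset.sum_fiberwise Finset.univ ρ] at h3
      rw [← h3]
      refine Finset.sum_congr rfl fun k _ => ?_
      rw [Finset.sum_mul]
      refine Finset.sum_congr rfl fun k' hk' => ?_
      rw [(Finset.mem_filter.1 hk').2]
  let φ : B.Cyc →ₗ[ℚ] A.Cyc :=
    { toFun := fun z => ⟨fun k => ∑ k' with ρ k' = k, z.1 k', hmem z.1 z.2⟩
      map_add' := fun z z' => Subtype.ext (funext fun k => by simp [Finset.sum_add_distrib])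
      map_smul' := fun r z => Subtype.ext (funext fun k => by simp [Finset.mul_sum]) }
  refine LinearMap.finrank_le_finrank_of_injective (f := φ) ?_
  rw [injective_iff_map_eq_zero]
  intro z hz
  exact Subtype.ext (hinj z.1 z.2 fun k => congrFun (congrArg Subtype.val hz) k)

theorem Ref.rk_le_of_injOn [Fintype L] [Fintype L'] (h : Ref B A ρ pa)
    (hinj : InjOn ρ {k | B.Long k}) : B.rk ≤ A.rk := by
  classical
  refine h.rk_le fun z hz h0 => funext fun k => ?_
  by_cases hk : B.Long k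
  · have := h0 (ρ k)
    rwa [Finset.sum_eq_single k (fun k' hk' ne => hz.1 k' fun hl =>
      ne (hinj hl hk (Finset.mem_filter.1 hk').2)) (by simp)] at this
  · exact hz.1 k hk

/-- A full piece is the only long piece. -/
theorem Ref.eq_of_full (h : Ref B A ρ pa) {k k' : L'} (hk : B.Long k) (he : ρ k = ρ k')
    (ha : B.a k' = A.a (ρ k')) (hb : B.b k' = A.b (ρ k')) : k = k' := by
  by_contra ne
  obtain ⟨x, hx⟩ := nonempty_Ioo.2 hk
  refine Set.disjoint_left.1 (h.disj k k' he ne) hx ?_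
  rw [ha, hb, ← he]
  exact h.skel_Ioo_subset k hx

theorem Full.trans {k : L} (h1 : Full B A ρ k)
    (h2 : ∀ k', ρ k' = k → B.a k' = A.a k → B.b k' = A.b k → Full C B ρ' k') :
    Full C A (ρ ∘ ρ') k := by
  obtain ⟨k', e, ha, hb⟩ := h1
  obtain ⟨k'', e', ha', hb'⟩ := h2 k' e ha hb
  exact ⟨k'', by simp [e', e], ha'.trans ha, hb'.trans hb⟩

theorem Iso.refl (A : Skel π L O) : Iso A A id id := by
  exact ⟨Ref.refl A, fun k _ => ⟨k, rfl, rfl, rfl⟩, fun _ _ _ _ _ _ e => e⟩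

theorem Iso.trans (h' : Iso C B ρ' pa') (h : Iso B A ρ pa) : Iso C A (ρ ∘ ρ') (pa ∘ pa') := by
  refine ⟨h'.toRef.trans h.toRef, fun k hk => (h.full k hk).trans fun k' _ ha hb =>
    h'.full k' ?_, fun k s k' s' hk hk' e => h'.obi k s k' s' hk hk'
      (h.obi _ s _ s' (h'.toRef.long hk) (h'.toRef.long hk') e)⟩
  unfold Long
  rw [ha, hb]
  exact hk

theorem Iso.injOn (h : Iso B A ρ pa) : InjOn ρ {k | B.Long k} := by
  intro k hk k' hk' e
  obtain ⟨k₀, e₀, ha, hb⟩ := h.full _ (h.toRef.long hk)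
  rw [← e₀] at ha hb
  exact (h.toRef.eq_of_full hk e₀.symm ha hb).trans
    (h.toRef.eq_of_full hk' (e.symm.trans e₀.symm) ha hb).symm

theorem Iso.a_eq (h : Iso B A ρ pa) {k : L'} (hk : B.Long k) : B.a k = A.a (ρ k) := by
  obtain ⟨k₀, e₀, ha, hb⟩ := h.full _ (h.toRef.long hk)
  rw [← ha, h.toRef.eq_of_full hk e₀.symm (e₀ ▸ ha) (e₀ ▸ hb)]

theorem Iso.b_eq (h : Iso B A ρ pa) {k : L'} (hk : B.Long k) : B.b k = A.b (ρ k) := by
  obtain ⟨k₀, e₀, ha, hb⟩ := h.full _ (h.toRef.long hk)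
  rw [← hb, h.toRef.eq_of_full hk e₀.symm (e₀ ▸ ha) (e₀ ▸ hb)]

theorem Iso.lo_eq (h : Iso B A ρ pa) {k : L'} (hk : B.Long k) (s : Bool) :
    B.lo (k, s) = A.lo (ρ k, s) := by
  unfold lo
  rw [h.toRef.rpos hk, h.toRef.rpos hk, h.sg k s hk, h.a_eq hk, h.b_eq hk]

theorem Iso.hi_eq (h : Iso B A ρ pa) {k : L'} (hk : B.Long k) (s : Bool) :
    B.hi (k, s) = A.hi (ρ k, s) := by
  unfold hi
  rw [h.toRef.rpos hk, h.toRef.rpos hk, h.sg k s hk, h.a_eq hk, h.b_eq hk]

theorem Iso.noFree (h : Iso B A ρ pa) (ha : A.NoFree) : B.NoFree := by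
  obtain ⟨E, hE, hn⟩ := ha
  refine ⟨E, hE, ?_⟩
  rintro ⟨k, s⟩ x hx hxE
  have hk : B.Long k := B.long_of_mem_base hx
  obtain ⟨⟨l, s'⟩, ne, ho, hx'⟩ := hn (ρ k, s) x (h.toRef.base_subset k s hx) hxE
  have hl : A.Long l := A.long_of_mem_base hx'
  obtain ⟨k', rfl, ha, hb⟩ := h.full l hl
  have hk' : B.Long k' := by
    unfold Long
    rw [ha, hb]
    exact hl
  refine ⟨(k', s'), fun e => ne ?_, h.obi _ _ _ _ hk' hk ho, ?_⟩
  · cases e
    rfl
  · unfold base
    rw [h.lo_eq hk', h.hi_eq hk']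
    exact hx' 

theorem Iso.nl_eq [Finite L] [Finite L'] (h : Iso B A ρ pa) : B.NL = A.NL := by
  unfold NL
  rw [← h.injOn.ncard_image]
  congr 1
  ext l
  constructor
  · rintro ⟨k, hk, rfl⟩
    exact h.toRef.long hk
  · intro hl
    obtain ⟨k', e, ha, hb⟩ := h.full l hl
    refine ⟨k', ?_, e⟩
    change B.a k' < B.b k'
    rw [ha, hb]
    exact hl

theorem Iso.rk_le [Fintype L] [Fintype L'] (h : Iso B A ρ pa) : B.rk ≤ A.rk := by
  exact h.toRef.rk_le_of_injOn h.injOn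

/-- Shortening an annulus lowers the complexity. -/
theorem rk_lt_of_annulus [Fintype L] {A B : Skel π L O} (h : Ref B A id id) {k : L}
    (hk : A.Ov (k, false) (k, true)) (hB : ¬ B.Long k) : B.rk < A.rk := by
  classical
  refine Submodule.finrank_lt_finrank_of_lt
    (SetLike.lt_iff_le_and_exists.2 ⟨?_, Pi.single k 1, ?_, ?_⟩)
  · rintro z ⟨h1, h2⟩
    refine ⟨fun l hl => h1 l fun hl' => hl (h.long hl'), fun f hf => h2 f fun ω ω' hov => ?_⟩
    obtain ⟨x, hx, hx'⟩ := hov.2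
    refine hf _ _ ⟨?_, x, h.base_subset _ _ hx, h.base_subset _ _ hx'⟩
    exact (h.ob _ _ (B.long_of_mem_base hx)).symm.trans
      (hov.1.trans (h.ob _ _ (B.long_of_mem_base hx')))
  · obtain ⟨x, hx, -⟩ := hk.2
    refine ⟨fun l hl => Pi.single_eq_of_ne (fun e => hl ?_) _, fun f hf => ?_⟩
    · rw [e]
      exact A.long_of_mem_base hx
    · rw [Finset.sum_eq_single k (fun l _ ne => by simp [ne]) (by simp), hf _ _ hk]
      simp
  · intro hz
    simpa using hz.1 k hB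

end Ref

end Skel

end Pool.Agent.Lib.MP_d87150_al
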