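import Pool.Agent.Lib.MP_d87150_al.FreeTree
import Pool.Agent.Lib.MP_d87150_al.Multi
import Pool.Agent.Lib.MP_d87150_al.Skel

/-!
# Systems of isometries in a tree with a free action
-/

set_option autoImplicit false

noncomputable section

namespace Pool.Agent.Lib.MP_d87150_al

open Set

/-- A free action on a `Λ`-tree, and an ordered group `V` of parameters embedded in `Λ`. -/
structure Amb (Λ T G V : Type) [AddCommGroup Λ] [LinearOrder Λ] [IsOrderedAddMonoid Λ] [Group G]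
    [MulAction G T] [AddCommGroup V] [LinearOrder V] where
  tree : LTree Λ T
  iso : tree.Iso G
  hyp : ∀ g : G, g ≠ 1 → tree.Hyp g
  j : V →+ Λ
  hj : StrictMono j

/-- A band with a finite set `F` of fibres. -/
structure Band (G V O : Type) where
  F : Finset V
  ne : F.Nonempty
  en : Bool → O
  lab : Bool → G
  sg : Bool → ℤˣ
  off : Bool → V

variable {Λ T G V : Type} [AddCommGroup Λ] [LinearOrder Λ] [IsOrderedAddMonoid Λ] [Group G]
  [MulAction G T] [AddCommGroup V] [LinearOrder V]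

theorem Amb.nice (𝒜 : Amb Λ T G V) : Nice G := nice_of_free 𝒜.iso 𝒜.hyp

theorem Amb.eq_one (𝒜 : Amb Λ T G V) {g : G} {p : T} (h : g • p = p) : g = 1 :=
  eq_one_of_smul_eq 𝒜.hyp h

/-- Restriction of the parameters to a subspace. -/
def Amb.restrict [Module ℚ V] (𝒜 : Amb Λ T G V) (W : Submodule ℚ V) : Amb Λ T G W where
  tree := 𝒜.tree
  iso := 𝒜.iso
  hyp := 𝒜.hyp
  j := 𝒜.j.comp W.subtype.toAddMonoidHom
  hj := fun _ _ h => 𝒜.hj h

/-- Isometric charts of segments of the tree. -/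
structure Charts (𝒜 : Amb Λ T G V) (O : Type) where
  ch : O → V → T
  dom : O → Set V
  conv : ∀ o, (dom o).OrdConnected
  iso : ∀ o, ∀ s ∈ dom o, ∀ t ∈ dom o, 𝒜.tree.d (ch o s) (ch o t) = 𝒜.j |s - t|

variable {𝒜 : Amb Λ T G V} {O J O' J' : Type}

/-- Pull back of charts. -/
def Charts.comap (C : Charts 𝒜 O) (pa : O' → O) : Charts 𝒜 O' where
  ch o := C.ch (pa o)
  dom o := C.dom (pa o)
  conv o := C.conv (pa o)
  iso o := C.iso (pa o)

namespace Band

variable (q : Band G V O)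

/-- Position of the fibre `t` at the end `s`. -/
def pos (s : Bool) (t : V) : V := q.sg s • t + q.off s

/-- The fibre `t` makes sense in the tree. -/
structure ValidAt (C : Charts 𝒜 O) (t : V) : Prop where
  mem : ∀ s, q.pos s t ∈ C.dom (q.en s)
  fib : q.lab false • C.ch (q.en false) (q.pos false t) =
    q.lab true • C.ch (q.en true) (q.pos true t)

/-- The coboundary of `β` along the fibre `t`. -/
def del (β : O → V → L2 G) (t : V) : L2 G :=
  q.lab true • β (q.en true) (q.pos true t) - q.lab false • β (q.en false) (q.pos false t)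

/-- The coboundary of `β` is the same on all fibres. -/
def Cons (β : O → V → L2 G) : Prop := ∀ t ∈ q.F, ∀ t' ∈ q.F, q.del β t = q.del β t'

end Band

/-- A system of isometries. -/
structure Sys (𝒜 : Amb Λ T G V) (O J : Type) where
  C : Charts 𝒜 O
  B : J → Band G V O
  valid : ∀ k, ∀ t ∈ (B k).F, (B k).ValidAt C t

namespace Sys

variable (S : Sys 𝒜 O J)

/-- The labelled graph of a system. -/
def gr : LG G J O := ⟨fun k => (S.B k).en, fun k => (S.B k).lab⟩

/-- `β` is a potential for `c` on all fibres. -/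
def Pot (c : H G J) (β : O → V → L2 G) : Prop := ∀ k, ∀ t ∈ (S.B k).F, c k = (S.B k).del β t

/-- Tuples that kill all closed paths along fibres. -/
def Z0 : Set (H G J) := {c | ∃ β, S.Pot c β}

/-- The property proved for all systems. -/
def IsGood [Fintype J] : Prop := Good S.gr S.Z0

/-- The skeleton of a system. -/
def skel (π : V →+ ℝ) : Skel π J O where
  a k := π ((S.B k).F.min' (S.B k).ne)
  b k := π ((S.B k).F.max' (S.B k).ne)
  ob ω := (S.B ω.1).en ω.2
  sg ω := (S.B ω.1).sg ω.2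
  off ω := (S.B ω.1).off ω.2

/-- Real position of the fibre `t` at the end `ω`. -/
def lvl (π : V →+ ℝ) (ω : J × Bool) (t : V) : ℝ := π ((S.B ω.1).pos ω.2 t)

/-- Marked real points of an object. -/
def Mk (π : V →+ ℝ) (o : O) : Set ℝ :=
  {x | ∃ ω : J × Bool, (S.B ω.1).en ω.2 = o ∧ ∃ t ∈ (S.B ω.1).F, S.lvl π ω t = x}

open Classical in
/-- Total number of gaps. -/
def Gp [Fintype J] (π : V →+ ℝ) : ℕ := ∑ k, (((S.B k).F.image π).card - 1)

/-- New bands parallel to old ones, new objects above old ones. -/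
def refine (ρ : J' → J) (pa : O' → O) (F : J' → Finset V) (ne : ∀ k, (F k).Nonempty)
    (en : J' → Bool → O') (hen : ∀ k s, pa (en k s) = (S.B (ρ k)).en s)
    (hv : ∀ k, ∀ t ∈ F k, (S.B (ρ k)).ValidAt S.C t) : Sys 𝒜 O' J' where
  C := S.C.comap pa
  B k := ⟨F k, ne k, en k, (S.B (ρ k)).lab, (S.B (ρ k)).sg, (S.B (ρ k)).off⟩
  valid k t ht := by
    refine ⟨fun s => ?_, ?_⟩
    · have := (hv k t ht).mem s
      rw [← hen] at this
      exact this
    · have := (hv k t ht).fib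
      rw [← hen, ← hen] at this
      exact this

/-- Changing the sets of fibres. -/
def setF (F : J → Finset V) (ne : ∀ k, (F k).Nonempty)
    (hv : ∀ k, ∀ t ∈ F k, (S.B k).ValidAt S.C t) : Sys 𝒜 O J :=
  S.refine id id F ne (fun k => (S.B k).en) (fun _ _ => rfl) hv

/-- Every fibre of `S` is a fibre of a parallel band of `S'`, coherently with the objects. -/
structure Refines (S' : Sys 𝒜 O' J') (S : Sys 𝒜 O J) (ρ : J' → J) (pa : O' → O) : Prop where
  en : ∀ k s, pa ((S'.B k).en s) = (S.B (ρ k)).en s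
  lab : ∀ k, (S'.B k).lab = (S.B (ρ k)).lab
  sg : ∀ k, (S'.B k).sg = (S.B (ρ k)).sg
  off : ∀ k, (S'.B k).off = (S.B (ρ k)).off
  cover : ∃ σ : O → V → O', ∀ k, ∀ t ∈ (S.B k).F, ∃ k', ρ k' = k ∧ t ∈ (S'.B k').F ∧
    ∀ s, σ ((S.B k).en s) ((S.B k).pos s t) = (S'.B k').en s

/-- The extra bands `Ex` are parallel to paths of the graph. -/
def Anch (Ex : Set (Band G V O)) : Prop :=
  ∀ q ∈ Ex, ∃ f, Conn S.gr.edges (q.lab false, q.en false) (q.lab true, q.en true) f ∧
    ∀ c β, S.Pot c β → (∀ q' ∈ Ex, q'.Cons β) → ∃ t ∈ q.F, f c = q.del β t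

end Sys

variable [IsOrderedAddMonoid V]

theorem Charts.injOn (C : Charts 𝒜 O) (o : O) : InjOn (C.ch o) (C.dom o) := by
  intro s hs t ht h
  have h1 := C.iso o s hs t ht
  rw [h, 𝒜.tree.d_self, ← map_zero 𝒜.j] at h1
  exact sub_eq_zero.1 (abs_eq_zero.1 (𝒜.hj.injective h1).symm)

omit [LinearOrder V] [IsOrderedAddMonoid V] [Group G] in
theorem sys_pos_sub (q : Band G V O) (s : Bool) (t t' : V) :
    q.pos s t - q.pos s t' = q.sg s • (t - t') := by
  simp only [Band.pos, smul_sub]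
  abel

omit [LinearOrder V] [IsOrderedAddMonoid V] [Group G] in
theorem sys_pos_inj (q : Band G V O) (s : Bool) {t t' : V} (h : q.pos s t = q.pos s t') :
    t = t' := by
  have h1 := sys_pos_sub q s t t'
  rw [h, sub_self] at h1
  exact sub_eq_zero.1 ((smul_eq_zero_iff_eq _).1 h1.symm)

omit [LinearOrder V] [IsOrderedAddMonoid V] [Group G] in
theorem sys_pos_inv (q : Band G V O) (s : Bool) (w : V) :
    q.pos s (q.sg s • (w - q.off s)) = w := by
  rw [Band.pos, smul_smul, Int.units_mul_self, one_smul, sub_add_cancel]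

theorem sys_d_fib {q : Band G V O} {C : Charts 𝒜 O} (s : Bool) {t t' : V}
    (h : q.pos s t ∈ C.dom (q.en s)) (h' : q.pos s t' ∈ C.dom (q.en s)) :
    𝒜.tree.d (q.lab s • C.ch (q.en s) (q.pos s t)) (q.lab s • C.ch (q.en s) (q.pos s t')) =
      𝒜.j |t - t'| := by
  rw [𝒜.iso, C.iso _ _ h _ h', sys_pos_sub]
  rcases Int.units_eq_one_or (q.sg s) with e | e
  · rw [e, one_smul]
  · rw [e, Units.neg_smul, one_smul, abs_neg]

/-- Bands are convex. -/
theorem Band.ValidAt.between {q : Band G V O} {C : Charts 𝒜 O} {t₁ t t₂ : V}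
    (h₁ : q.ValidAt C t₁) (h₂ : q.ValidAt C t₂) (h : t₁ ≤ t) (h' : t ≤ t₂) : q.ValidAt C t := by
  have hm : ∀ s, q.pos s t ∈ C.dom (q.en s) := by
    intro s
    rcases Int.units_eq_one_or (q.sg s) with e | e
    · refine (C.conv _).out (h₁.mem s) (h₂.mem s) ⟨?_, ?_⟩ <;>
        simp only [Band.pos, e, one_smul, add_le_add_iff_right] <;> assumption
    · refine (C.conv _).out (h₂.mem s) (h₁.mem s) ⟨?_, ?_⟩ <;>
        simp only [Band.pos, e, Units.neg_smul, one_smul, add_le_add_iff_right,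
          neg_le_neg_iff] <;> assumption
  have hb : ∀ s, 𝒜.tree.Btw (q.lab s • C.ch (q.en s) (q.pos s t₁))
      (q.lab s • C.ch (q.en s) (q.pos s t)) (q.lab s • C.ch (q.en s) (q.pos s t₂)) := by
    intro s
    unfold LTree.Btw
    rw [sys_d_fib s (h₁.mem s) (hm s), sys_d_fib s (hm s) (h₂.mem s),
      sys_d_fib s (h₁.mem s) (h₂.mem s), ← map_add, abs_sub_comm t₁ t, abs_sub_comm t t₂,
      abs_sub_comm t₁ t₂, abs_of_nonneg (sub_nonneg.2 h), abs_of_nonneg (sub_nonneg.2 h'),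
      abs_of_nonneg (sub_nonneg.2 (h.trans h'))]
    congr 1
    abel
  refine ⟨hm, ?_⟩
  have h3 := hb true
  rw [← h₁.fib, ← h₂.fib] at h3
  refine (hb false).unique h3 ?_
  rw [sys_d_fib false (h₁.mem _) (hm _), h₁.fib, sys_d_fib true (h₁.mem _) (hm _)]

omit [IsOrderedAddMonoid V] in
theorem Band.ValidAt.fib' {q : Band G V O} {C : Charts 𝒜 O} {t : V} (h : q.ValidAt C t)
    (s : Bool) : q.lab s • C.ch (q.en s) (q.pos s t) =
      q.lab (!s) • C.ch (q.en (!s)) (q.pos (!s) t) := by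
  cases s
  · exact h.fib
  · exact h.fib.symm

namespace Sys

variable (S : Sys 𝒜 O J) {π : V →+ ℝ}

omit [LinearOrder V] [IsOrderedAddMonoid V] in
theorem sys_map_smul (π : V →+ ℝ) (ε : ℤˣ) (v : V) : π (ε • v) = ε • π v := by
  rw [Units.smul_def, Units.smul_def, map_zsmul]

theorem lvl_eq (ω : J × Bool) (t : V) : S.lvl π ω t = (S.skel π).rpos ω (π t) := by
  rw [lvl, Band.pos, map_add, sys_map_smul]
  rfl

theorem vmap_pos (ω : J × Bool) (t : V) :
    (S.skel π).vsg ω • (S.B ω.1).pos ω.2 t + (S.skel π).voff ω = (S.B ω.1).pos (!ω.2) t := by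
  change ((S.B ω.1).sg (!ω.2) * (S.B ω.1).sg ω.2) • ((S.B ω.1).sg ω.2 • t + (S.B ω.1).off ω.2) +
    ((S.B ω.1).off (!ω.2) - ((S.B ω.1).sg (!ω.2) * (S.B ω.1).sg ω.2) • (S.B ω.1).off ω.2) =
    (S.B ω.1).sg (!ω.2) • t + (S.B ω.1).off (!ω.2)
  rw [smul_add, smul_smul, mul_assoc, Int.units_mul_self, mul_one]
  abel

theorem a_le_level (hπ : Monotone π) {k : J} {t : V} (ht : t ∈ (S.B k).F) :
    (S.skel π).a k ≤ π t := by
  exact hπ (Finset.min'_le _ _ ht)

theorem level_le_b (hπ : Monotone π) {k : J} {t : V} (ht : t ∈ (S.B k).F) :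
    π t ≤ (S.skel π).b k := by
  exact hπ (Finset.le_max' _ _ ht)

theorem lvl_mem_Icc (hπ : Monotone π) {ω : J × Bool} {t : V} (ht : t ∈ (S.B ω.1).F) :
    S.lvl π ω t ∈ Icc ((S.skel π).lo ω) ((S.skel π).hi ω) := by
  have h1 := S.a_le_level hπ ht
  have h2 := S.level_le_b hπ ht
  rw [lvl_eq]
  unfold Skel.lo Skel.hi Skel.rpos
  rcases Int.units_eq_one_or ((S.skel π).sg ω) with e | e
  · rw [if_pos e, if_pos e, e]
    simp only [one_smul]
    constructor <;> linarith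
  · have hne : ¬ (S.skel π).sg ω = 1 := by rw [e]; decide
    rw [if_neg hne, if_neg hne, e]
    simp only [Units.neg_smul, one_smul]
    constructor <;> linarith

theorem exists_lvl_eq_lo (ω : J × Bool) : ∃ t ∈ (S.B ω.1).F, S.lvl π ω t = (S.skel π).lo ω := by
  unfold Skel.lo
  split_ifs
  · exact ⟨_, Finset.min'_mem _ (S.B ω.1).ne, S.lvl_eq ω _⟩
  · exact ⟨_, Finset.max'_mem _ (S.B ω.1).ne, S.lvl_eq ω _⟩

theorem exists_lvl_eq_hi (ω : J × Bool) : ∃ t ∈ (S.B ω.1).F, S.lvl π ω t = (S.skel π).hi ω := by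
  unfold Skel.hi
  split_ifs
  · exact ⟨_, Finset.max'_mem _ (S.B ω.1).ne, S.lvl_eq ω _⟩
  · exact ⟨_, Finset.min'_mem _ (S.B ω.1).ne, S.lvl_eq ω _⟩

omit [IsOrderedAddMonoid V] in
theorem sys_finite_lvl [Finite J] :
    (⋃ ω : J × Bool, S.lvl π ω '' ((S.B ω.1).F : Set V)).Finite :=
  finite_iUnion fun ω => (S.B ω.1).F.finite_toSet.image _

theorem finite_Mk [Finite J] (o : O) : (S.Mk π o).Finite := by
  refine (S.sys_finite_lvl (π := π)).subset ?_
  rintro x ⟨ω, -, t, ht, rfl⟩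
  exact mem_iUnion.2 ⟨ω, t, ht, rfl⟩

theorem finite_iUnion_Mk [Finite J] : (⋃ o, S.Mk π o).Finite := by
  refine (S.sys_finite_lvl (π := π)).subset (iUnion_subset fun o => ?_)
  rintro x ⟨ω, -, t, ht, rfl⟩
  exact mem_iUnion.2 ⟨ω, t, ht, rfl⟩

theorem validAt_of_mem_Ioo (hπ : Monotone π) {k : J} {t : V}
    (ht : π t ∈ Ioo ((S.skel π).a k) ((S.skel π).b k)) : (S.B k).ValidAt S.C t := by
  exact (S.valid k _ (Finset.min'_mem _ (S.B k).ne)).between
    (S.valid k _ (Finset.max'_mem _ (S.B k).ne)) (hπ.reflect_lt ht.1).le (hπ.reflect_lt ht.2).le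

/-- Crossing a band at a point over the open base. -/
theorem cross (hπ : Monotone π) {ω : J × Bool} {w : V} (hw : π w ∈ (S.skel π).base ω) :
    w ∈ S.C.dom ((S.skel π).ob ω) ∧
      (S.skel π).vsg ω • w + (S.skel π).voff ω ∈ S.C.dom ((S.skel π).ob (bar ω)) ∧
      (S.B ω.1).lab ω.2 • S.C.ch ((S.skel π).ob ω) w =
        (S.B ω.1).lab (!ω.2) • S.C.ch ((S.skel π).ob (bar ω))
          ((S.skel π).vsg ω • w + (S.skel π).voff ω) := by
  obtain ⟨t, rfl⟩ : ∃ t, (S.B ω.1).pos ω.2 t = w := ⟨_, sys_pos_inv _ _ w⟩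
  have h1 : S.lvl π ω t ∈ (S.skel π).base ω := hw
  rw [lvl_eq, Skel.rpos_mem_base] at h1
  have hv := S.validAt_of_mem_Ioo hπ h1
  rw [vmap_pos]
  exact ⟨hv.mem _, hv.mem _, hv.fib' _⟩

/-- Words of the pseudogroup are realized by group elements. -/
theorem ia_sound (hπ : Monotone π) {i o : O} {u v : ℝ} {ε : ℤˣ} {c : V}
    (h : (S.skel π).IA i u v o ε c) :
    ∃ g : G, ∀ w, π w ∈ Ioo u v → w ∈ S.C.dom i →
      ε • w + c ∈ S.C.dom o ∧ S.C.ch i w = g • S.C.ch o (ε • w + c) := by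
  induction h with
  | refl => exact ⟨1, fun w _ hw => by simpa using hw⟩
  | @step o ε c ω _ ho hb ih =>
    obtain ⟨g, hg⟩ := ih
    subst ho
    refine ⟨g * (((S.B ω.1).lab ω.2)⁻¹ * (S.B ω.1).lab (!ω.2)), fun w hw hd => ?_⟩
    have h1 : π (ε • w + c) ∈ (S.skel π).base ω := by
      rw [map_add, sys_map_smul]
      exact hb _ hw
    obtain ⟨-, h2, h3⟩ := S.cross hπ h1
    have e : ((S.skel π).vsg ω * ε) • w + ((S.skel π).vsg ω • c + (S.skel π).voff ω) =
        (S.skel π).vsg ω • (ε • w + c) + (S.skel π).voff ω := by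
      rw [smul_add, mul_smul, add_assoc]
    rw [e, mul_smul, mul_smul, ← h3, inv_smul_smul]
    exact ⟨h2, (hg w hw hd).2⟩

theorem noRefl [Module ℚ V] (hπ : Monotone π) (hd : DenseRange π) : (S.skel π).NoRefl := by
  rintro i u v c h ⟨h1, h2⟩
  obtain ⟨g, hg⟩ := S.ia_sound hπ h
  have hdom : ∀ w, π w ∈ Ioo u v → w ∈ S.C.dom i := by
    rcases h.eq_or_base with ⟨-, h3, -⟩ | ⟨ω, rfl, h3⟩
    · exact absurd h3 (by decide)
    · exact fun w hw => (S.cross hπ (h3 hw)).1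
  have e : (1 / 2 : ℚ) • c + (1 / 2 : ℚ) • c = c := by
    rw [← add_smul]
    norm_num
  have e1 : π ((1 / 2 : ℚ) • c) + π ((1 / 2 : ℚ) • c) = π c := by rw [← map_add, e]
  have hw : π ((1 / 2 : ℚ) • c) ∈ Ioo u v := ⟨by linarith, by linarith⟩
  have h4 := (hg _ hw (hdom _ hw)).2
  have e2 : (-1 : ℤˣ) • (1 / 2 : ℚ) • c + c = (1 / 2 : ℚ) • c := by
    rw [Units.neg_smul, one_smul, neg_add_eq_iff_eq_add, e]
  rw [e2] at h4
  have hg1 : g = 1 := 𝒜.eq_one h4.symm
  obtain ⟨_, ⟨w, rfl⟩, hw1, hw2⟩ := hd.exists_between (show u < π c / 2 by linarith)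
  have hw' : π w ∈ Ioo u v := ⟨hw1, by linarith⟩
  obtain ⟨h5, h6⟩ := hg w hw' (hdom w hw')
  rw [hg1, one_smul] at h6
  have h7 := congrArg π (S.C.injOn i (hdom w hw') h5 h6)
  rw [map_add, sys_map_smul, Units.neg_smul, one_smul] at h7
  linarith

variable {S} [Fintype J] [Fintype J']

theorem good_of_refines {S' : Sys 𝒜 O' J'} {ρ : J' → J} {pa : O' → O} (h : Refines S' S ρ pa)
    (hg : Good (S'.gr.map pa) {c | c ∈ S'.Z0 ∧ ∀ k k', ρ k = ρ k' → c k = c k'}) : S.IsGood := by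
  obtain ⟨σ, hσ⟩ := h.cover
  choose κ hκ using fun k => hσ k _ (Finset.min'_mem _ (S.B k).ne)
  have hpt : ∀ k' s, (S'.gr.map pa).pt k' s = S.gr.pt (ρ k') s := by
    intro k' s
    change ((S'.B k').lab s, pa ((S'.B k').en s)) = ((S.B (ρ k')).lab s, (S.B (ρ k')).en s)
    rw [h.en, h.lab]
  refine Good.gen (fun k => ContinuousLinearMap.proj (κ k))
    (fun k' => ContinuousLinearMap.proj (ρ k')) (fun k => ?_) (fun k' => ?_) ?_ ?_ hg
  · refine ((S'.gr.map pa).conn_arrow (κ k)).cast ?_ ?_ rfl <;> rw [hpt, (hκ k).1]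
  · refine (S.gr.conn_arrow (ρ k')).cast ?_ ?_ rfl <;> rw [hpt]
  · rintro c' ⟨-, hc⟩ k'
    exact hc _ _ (hκ (ρ k')).1
  · rintro c' ⟨⟨β, hβ⟩, hc⟩
    refine ⟨fun o v => β (σ o v) v, fun k t ht => ?_⟩
    obtain ⟨k', rfl, h1, h2⟩ := hσ k t ht
    have hp : ∀ s, (S'.B k').pos s t = (S.B (ρ k')).pos s t := fun s => by
      rw [Band.pos, Band.pos, h.sg, h.off]
    change c' (κ (ρ k')) = _
    rw [hc _ k' (hκ (ρ k')).1, hβ k' t h1]
    simp only [Band.del, h2, hp, h.lab]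

/-- Adding fibres. -/
theorem good_of_setF_superset {F : J → Finset V} {ne : ∀ k, (F k).Nonempty}
    {hv : ∀ k, ∀ t ∈ F k, (S.B k).ValidAt S.C t} (h : ∀ k, (S.B k).F ⊆ F k)
    (hg : (S.setF F ne hv).IsGood) : S.IsGood := by
  exact Good.mono (Γ := S.gr) hg fun c ⟨β, hβ⟩ => ⟨β, fun k t ht => hβ k t (h k ht)⟩

/-- Dropping fibres of the band of `l` whose end at `l` is used by no other base. -/
theorem good_of_setF_drop {F : J → Finset V} {ne : ∀ k, (F k).Nonempty}
    {hv : ∀ k, ∀ t ∈ F k, (S.B k).ValidAt S.C t} (l : J × Bool)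
    (h1 : ∀ k, k ≠ l.1 → F k = (S.B k).F) (h2 : F l.1 ⊆ (S.B l.1).F)
    (h3 : ∀ t ∈ (S.B l.1).F, t ∉ F l.1 → ∀ ω : J × Bool, ω ≠ l →
      (S.B ω.1).en ω.2 = (S.B l.1).en l.2 → ∀ t' ∈ (S.B ω.1).F,
        (S.B ω.1).pos ω.2 t' ≠ (S.B l.1).pos l.2 t)
    (hg : (S.setF F ne hv).IsGood) : S.IsGood := by
  classical
  refine Good.mono (Γ := S.gr) hg ?_
  rintro c ⟨β, hβ⟩
  have hβ' : ∀ k, ∀ t ∈ F k, c k = (S.B k).del β t := hβ
  obtain ⟨k₀, s₀⟩ := l
  let q := S.B k₀
  let D : O → V → Prop := fun o v => o = q.en s₀ ∧ ∃ t ∈ q.F, t ∉ F k₀ ∧ v = q.pos s₀ t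
  let β' : O → V → L2 G := fun o v => if D o v then (q.lab s₀)⁻¹ •
    (q.lab (!s₀) • β (q.en (!s₀)) (q.pos (!s₀) (q.sg s₀ • (v - q.off s₀))) +
      if s₀ then c k₀ else -c k₀) else β o v
  have hD : ∀ k s, (k, s) ≠ (k₀, s₀) → ∀ t ∈ (S.B k).F,
      β' ((S.B k).en s) ((S.B k).pos s t) = β ((S.B k).en s) ((S.B k).pos s t) := by
    intro k s hne t ht
    refine if_neg ?_
    rintro ⟨e1, t₀, e2, e3, e4⟩
    exact h3 t₀ e2 e3 (k, s) hne e1 t ht e4
  refine ⟨β', fun k t ht => ?_⟩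
  by_cases hk : t ∈ F k
  · have hs : ∀ s, β' ((S.B k).en s) ((S.B k).pos s t) = β ((S.B k).en s) ((S.B k).pos s t) := by
      intro s
      by_cases hne : (k, s) = (k₀, s₀)
      · obtain ⟨rfl, rfl⟩ := Prod.mk.inj hne
        refine if_neg ?_
        rintro ⟨-, t₀, -, e3, e4⟩
        exact e3 (sys_pos_inj _ _ e4 ▸ hk)
      · exact hD k s hne t ht
    rw [hβ' k t hk, Band.del, Band.del, hs, hs]
  · obtain rfl : k = k₀ := by
      by_contra hne
      exact hk (by rw [h1 k hne]; exact ht)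
    have e1 : β' (q.en s₀) (q.pos s₀ t) = (q.lab s₀)⁻¹ •
        (q.lab (!s₀) • β (q.en (!s₀)) (q.pos (!s₀) t) + if s₀ then c k else -c k) := by
      have e : q.sg s₀ • (q.pos s₀ t - q.off s₀) = t :=
        sys_pos_inj q s₀ (sys_pos_inv q s₀ _)
      have hd : D (q.en s₀) (q.pos s₀ t) := ⟨rfl, t, ht, hk, rfl⟩
      simp only [β', if_pos hd, e]
    have e2 := hD k (!s₀) (by simp) t ht
    change c k = q.lab true • β' (q.en true) (q.pos true t) -
      q.lab false • β' (q.en false) (q.pos false t)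
    cases s₀
    · have e3 : β' (q.en true) (q.pos true t) = β (q.en true) (q.pos true t) := e2
      rw [e1, e3, smul_inv_smul]
      simp
    · have e3 : β' (q.en false) (q.pos false t) = β (q.en false) (q.pos false t) := e2
      rw [e1, e3, smul_inv_smul]
      simp

omit [IsOrderedAddMonoid V] [Fintype J] in
theorem sys_skel_setF_eq {F : J → Finset V} {ne : ∀ k, (F k).Nonempty}
    {hv : ∀ k, ∀ t ∈ F k, (S.B k).ValidAt S.C t}
    (ha : ∀ k, π ((F k).min' (ne k)) = (S.skel π).a k)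
    (hb : ∀ k, π ((F k).max' (ne k)) = (S.skel π).b k) :
    (S.setF F ne hv).skel π = S.skel π :=
  congrArg₂ (fun a b => (⟨a, b, (S.skel π).ob, (S.skel π).sg, (S.skel π).off⟩ : Skel π J O))
    (funext ha) (funext hb)

/-- Adding fibres at given real levels inside the bands. -/
theorem exists_add_levels (S : Sys 𝒜 O J) (hπ : Monotone π) (Y : J → Set ℝ)
    (hf : ∀ k, (Y k).Finite)
    (hY : ∀ k, ∀ τ ∈ Y k, τ ∈ Ioo ((S.skel π).a k) ((S.skel π).b k) ∧ τ ∈ range π) :
    ∃ S' : Sys 𝒜 O J, S'.skel π = S.skel π ∧ (∀ k, ∀ τ ∈ Y k, ∃ t ∈ (S'.B k).F, π t = τ) ∧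
      (S'.IsGood → S.IsGood) := by
  classical
  choose! lift hlift using fun k τ (h : τ ∈ Y k) => (hY k τ h).2
  let F : J → Finset V := fun k => (S.B k).F ∪ (hf k).toFinset.image (lift k)
  have hsub : ∀ k, (S.B k).F ⊆ F k := fun k => Finset.subset_union_left
  have hne : ∀ k, (F k).Nonempty := fun k => (S.B k).ne.mono (hsub k)
  have hF : ∀ k, ∀ t ∈ F k, t ∈ (S.B k).F ∨
      π t ∈ Ioo ((S.skel π).a k) ((S.skel π).b k) := by
    intro k t ht
    refine (Finset.mem_union.1 ht).imp id fun h => ?_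
    obtain ⟨τ, h1, rfl⟩ := Finset.mem_image.1 h
    have h2 := (hf k).mem_toFinset.1 h1
    rw [hlift k τ h2]
    exact (hY k τ h2).1
  have hv : ∀ k, ∀ t ∈ F k, (S.B k).ValidAt S.C t := fun k t ht =>
    (hF k t ht).elim (S.valid k t) (S.validAt_of_mem_Ioo hπ)
  refine ⟨S.setF F hne hv, ?_, fun k τ h => ⟨lift k τ, ?_, hlift k τ h⟩,
    good_of_setF_superset hsub⟩
  · refine sys_skel_setF_eq (fun k => le_antisymm ?_ ?_) fun k => le_antisymm ?_ ?_
    · exact hπ (Finset.min'_le _ _ (hsub k (Finset.min'_mem _ _)))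
    · exact (hF k _ (Finset.min'_mem _ (hne k))).elim (S.a_le_level hπ) fun h => h.1.le
    · exact (hF k _ (Finset.max'_mem _ (hne k))).elim (S.level_le_b hπ) fun h => h.2.le
    · exact hπ (Finset.le_max' _ _ (hsub k (Finset.max'_mem _ _)))
  · exact Finset.mem_union_right _ (Finset.mem_image_of_mem _ ((hf k).mem_toFinset.2 h))

/-- Sliding the bases `Sl` across the band of `l`. -/
theorem exists_slide (S : Sys 𝒜 O J) (π : V →+ ℝ) (l : J × Bool) (Sl : J × Bool → Prop)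
    (h1 : ∀ ω, Sl ω → ω.1 ≠ l.1) (h2 : ∀ ω, Sl ω → (S.B ω.1).en ω.2 = (S.B l.1).en l.2)
    (h3 : ∀ ω, Sl ω → ∀ t ∈ (S.B ω.1).F, ∃ t₀ ∈ (S.B l.1).F,
      (S.B ω.1).pos ω.2 t = (S.B l.1).pos l.2 t₀) :
    ∃ S' : Sys 𝒜 O J, (∀ k, (S'.B k).F = (S.B k).F) ∧
      (∀ ω, ¬ Sl ω → (S'.skel π).ob ω = (S.skel π).ob ω ∧ (S'.skel π).sg ω = (S.skel π).sg ω ∧
        (S'.skel π).off ω = (S.skel π).off ω) ∧
      (∀ ω, Sl ω → (S'.skel π).ob ω = (S.skel π).ob (bar l) ∧
        (S'.skel π).sg ω = (S.skel π).vsg l * (S.skel π).sg ω ∧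
        (S'.skel π).off ω = (S.skel π).vsg l • (S.skel π).off ω + (S.skel π).voff l) ∧
      (S'.IsGood → S.IsGood) := by
  classical
  let q := S.B l.1
  let B' : J → Band G V O := fun k =>
    ⟨(S.B k).F, (S.B k).ne, fun s => if Sl (k, s) then q.en (!l.2) else (S.B k).en s,
      fun s => if Sl (k, s) then (S.B k).lab s * (q.lab l.2)⁻¹ * q.lab (!l.2) else (S.B k).lab s,
      fun s => if Sl (k, s) then (S.skel π).vsg l * (S.B k).sg s else (S.B k).sg s,
      fun s => if Sl (k, s) then (S.skel π).vsg l • (S.B k).off s + (S.skel π).voff l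
        else (S.B k).off s⟩
  have hn : ∀ k s, ¬ Sl (k, s) → (B' k).en s = (S.B k).en s ∧ (B' k).lab s = (S.B k).lab s ∧
      ∀ t, (B' k).pos s t = (S.B k).pos s t := fun k s h =>
    ⟨if_neg h, if_neg h, fun t => by simp only [Band.pos, B', if_neg h]⟩
  have hy : ∀ k s, Sl (k, s) → (B' k).en s = q.en (!l.2) ∧
      (B' k).lab s = (S.B k).lab s * (q.lab l.2)⁻¹ * q.lab (!l.2) ∧ (S.B k).en s = q.en l.2 ∧
      ∀ t ∈ (S.B k).F, ∃ t₀ ∈ q.F, (S.B k).pos s t = q.pos l.2 t₀ ∧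
        (B' k).pos s t = q.pos (!l.2) t₀ := by
    intro k s h
    refine ⟨if_pos h, if_pos h, h2 _ h, fun t ht => ?_⟩
    obtain ⟨t₀, e1, e2⟩ := h3 _ h t ht
    refine ⟨t₀, e1, e2, ?_⟩
    have e3 : (S.B k).pos s t = (S.B l.1).pos l.2 t₀ := e2
    rw [← S.vmap_pos (π := π) l t₀, ← e3]
    simp only [Band.pos, B', if_pos h, smul_add, mul_smul, add_assoc]
  have hl : ∀ s, ¬ Sl (l.1, s) := fun s h => h1 _ h rfl
  have hpt : ∀ k s, ∀ t ∈ (S.B k).F, (B' k).pos s t ∈ S.C.dom ((B' k).en s) ∧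
      (B' k).lab s • S.C.ch ((B' k).en s) ((B' k).pos s t) =
        (S.B k).lab s • S.C.ch ((S.B k).en s) ((S.B k).pos s t) := by
    intro k s t ht
    by_cases h : Sl (k, s)
    · obtain ⟨e1, e2, e3, e4⟩ := hy k s h
      obtain ⟨t₀, e5, e6, e7⟩ := e4 t ht
      have hv := S.valid l.1 t₀ e5
      rw [e1, e2, e3, e6, e7, mul_smul, mul_smul, ← hv.fib' l.2, inv_smul_smul]
      exact ⟨hv.mem _, rfl⟩
    · obtain ⟨e1, e2, e3⟩ := hn k s h
      rw [e1, e2, e3]
      exact ⟨(S.valid k t ht).mem s, rfl⟩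
  let S' : Sys 𝒜 O J := ⟨S.C, B', fun k t ht => ⟨fun s => (hpt k s t ht).1, by
    rw [(hpt k false t ht).2, (hpt k true t ht).2]
    exact (S.valid k t ht).fib⟩⟩
  refine ⟨S', fun _ => rfl, fun ω h => ⟨if_neg h, if_neg h, if_neg h⟩,
    fun ω h => ⟨if_pos h, if_pos h, if_pos h⟩, fun hg => ?_⟩
  let el : Fn G J := if l.2 then -ContinuousLinearMap.proj l.1 else ContinuousLinearMap.proj l.1
  let d : J → Bool → Fn G J := fun k s =>
    if Sl (k, s) then ((S.B k).lab s * (q.lab l.2)⁻¹) • el else 0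
  have hll : ∀ s, S'.gr.pt l.1 s = S.gr.pt l.1 s := fun s =>
    Prod.ext (hn _ s (hl s)).2.1 (hn _ s (hl s)).1
  have hd : ∀ 𝔈 : Set (Edge G J O), Conn 𝔈 (S.gr.pt l.1 false) (S.gr.pt l.1 true)
      (ContinuousLinearMap.proj l.1) → ∀ k s, Conn 𝔈 (S.gr.pt k s) (S'.gr.pt k s) (d k s) := by
    intro 𝔈 hc k s
    have hc' : Conn 𝔈 (S.gr.pt l.1 l.2) (S.gr.pt l.1 (!l.2)) el := by
      obtain ⟨k₀, _ | _⟩ := l
      · exact hc
      · exact hc.symm
    by_cases h : Sl (k, s)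
    · obtain ⟨e1, e2, e3, -⟩ := hy k s h
      refine (hc'.translate ((S.B k).lab s * (q.lab l.2)⁻¹)).cast ?_ ?_ (if_pos h).symm
      · exact Prod.ext (inv_mul_cancel_right _ _) e3.symm
      · exact Prod.ext e2.symm e1.symm
    · refine (Conn.refl _).cast rfl ?_ (if_neg h).symm
      exact Prod.ext (hn k s h).2.1.symm (hn k s h).1.symm
  have hd1 := hd _ (S.gr.conn_arrow l.1)
  have hd2 := hd _ ((S'.gr.conn_arrow l.1).cast (hll _) (hll _) rfl)
  have hdc : ∀ c c' : H G J, c l.1 = c' l.1 → ∀ k s, d k s c = d k s c' := by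
    intro c c' h k s
    have : el c = el c' := by
      simp only [el]
      split_ifs <;> simp [h]
    simp only [d]
    split_ifs
    · rw [ContinuousLinearMap.smul_apply, ContinuousLinearMap.smul_apply, this]
    · rfl
  refine Good.gen (fun k => d k false + ContinuousLinearMap.proj k + -d k true)
    (fun k => -d k false + ContinuousLinearMap.proj k + d k true)
    (fun k => ((hd2 k false).trans (S'.gr.conn_arrow k)).trans (hd2 k true).symm)
    (fun k => ((hd1 k false).symm.trans (S.gr.conn_arrow k)).trans (hd1 k true)) ?_ ?_ hg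
  · intro c' _ k
    have h0 : ∀ s, d l.1 s = 0 := fun s => if_neg (hl s)
    have e := hdc (fun a => (d a false + ContinuousLinearMap.proj a + -d a true : Fn G J) c') c'
      (by simp [h0])
    simp only [ContinuousLinearMap.add_apply, ContinuousLinearMap.neg_apply,
      ContinuousLinearMap.proj_apply] at e ⊢
    rw [e, e]
    abel
  · rintro c' ⟨β, hβ⟩
    refine ⟨β, fun k t ht => ?_⟩
    have key : ∀ s, (B' k).lab s • β ((B' k).en s) ((B' k).pos s t) =
        (S.B k).lab s • β ((S.B k).en s) ((S.B k).pos s t) + d k s c' := by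
      intro s
      by_cases h : Sl (k, s)
      · obtain ⟨e1, e2, e3, e4⟩ := hy k s h
        obtain ⟨t₀, e5, e6, e7⟩ := e4 t ht
        have e8 : c' l.1 = q.del β t₀ := by
          have e9 : c' l.1 = (B' l.1).del β t₀ := hβ l.1 t₀ e5
          rw [e9, Band.del, Band.del, (hn _ _ (hl true)).1, (hn _ _ (hl false)).1,
            (hn _ _ (hl true)).2.1, (hn _ _ (hl false)).2.1, (hn _ _ (hl true)).2.2,
            (hn _ _ (hl false)).2.2]
        have e9 : el c' = q.lab (!l.2) • β (q.en (!l.2)) (q.pos (!l.2) t₀) -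
            q.lab l.2 • β (q.en l.2) (q.pos l.2 t₀) := by
          obtain ⟨k₀, _ | _⟩ := l
          · exact e8
          · exact (congrArg Neg.neg e8).trans (neg_sub _ _)
        simp only [d, if_pos h, ContinuousLinearMap.smul_apply]
        rw [e1, e2, e3, e6, e7, e9, smul_sub, smul_smul, smul_smul, inv_mul_cancel_right]
        abel
      · obtain ⟨e1, e2, e3⟩ := hn k s h
        simp only [d, if_neg h, ContinuousLinearMap.zero_apply, add_zero]
        rw [e1, e2, e3]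
    have e : c' k = (B' k).del β t := hβ k t ht
    simp only [ContinuousLinearMap.add_apply, ContinuousLinearMap.neg_apply,
      ContinuousLinearMap.proj_apply]
    rw [e, Band.del, Band.del, key, key]
    abel

/-- Adding finitely many short bands parallel to paths. -/
theorem exists_add (S : Sys 𝒜 O J) (π : V →+ ℝ) {Ex : Set (Band G V O)} (hfin : Ex.Finite)
    (hv : ∀ q ∈ Ex, ∀ t ∈ q.F, q.ValidAt S.C t)
    (hs : ∀ q ∈ Ex, ∀ t ∈ q.F, ∀ t' ∈ q.F, π t = π t') (ha : S.Anch Ex) :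
    ∃ (J₁ : Type) (_ : Fintype J₁) (S' : Sys 𝒜 O J₁),
      ((S.skel π).Aper → (S'.skel π).Aper) ∧
        (S'.IsGood → Good S.gr {c | ∃ β, S.Pot c β ∧ ∀ q ∈ Ex, q.Cons β}) := by
  classical
  choose f hf1 hf2 using ha
  let S' : Sys 𝒜 O (J ⊕ Ex) := ⟨S.C, Sum.elim S.B Subtype.val, by
    rintro (k | q) t ht
    · exact S.valid k t ht
    · exact hv q.1 q.2 t ht⟩
  let _ : Fintype Ex := hfin.fintype
  refine ⟨J ⊕ Ex, inferInstance, S', fun hap i u v ⟨huv, hp⟩ => hap i u v ⟨huv, fun η hη => ?_⟩,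
    fun hg => ?_⟩
  · have key : ∀ o ε c, (S'.skel π).IA i u v o ε c → (S.skel π).IA i u v o ε c := by
      intro o ε c h
      induction h with
      | refl => exact Skel.IA.refl
      | @step o ε c ω _ ho hb ih =>
        have hl := (S'.skel π).long_of_mem_base (hb ((u + v) / 2) ⟨by linarith, by linarith⟩)
        obtain ⟨k | q, s⟩ := ω
        · exact Skel.IA.step (A := S.skel π) (k, s) ih ho hb
        · exact absurd (hs q.1 q.2 _ (Finset.min'_mem _ q.1.ne) _ (Finset.max'_mem _ q.1.ne))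
            (ne_of_lt hl)
    obtain ⟨c, h1, h2, h3⟩ := hp η hη
    exact ⟨c, h1, h2, key _ _ _ h3⟩
  · refine Good.gen (Γ' := S'.gr) (fun k => ContinuousLinearMap.proj (Sum.inl k))
      (Sum.elim (fun k => ContinuousLinearMap.proj k) fun q => f q.1 q.2)
      (fun k => S'.gr.conn_arrow (Sum.inl k)) ?_ ?_ ?_ hg
    · rintro (k | q)
      · exact S.gr.conn_arrow k
      · exact hf1 q.1 q.2
    · rintro c' ⟨β, hβ⟩ (k | q)
      · rfl
      · obtain ⟨t, ht, e⟩ := hf2 q.1 q.2 (fun k => c' (Sum.inl k)) β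
          (fun k t ht => hβ (Sum.inl k) t ht) fun q' hq' t ht t' ht' =>
            (hβ (Sum.inr ⟨q', hq'⟩) t ht).symm.trans (hβ (Sum.inr ⟨q', hq'⟩) t' ht')
        exact e.trans (hβ (Sum.inr q) t ht).symm
    · rintro c' ⟨β, hβ⟩
      exact ⟨β, fun k t ht => hβ (Sum.inl k) t ht, fun q' hq' t ht t' ht' =>
        (hβ (Sum.inr ⟨q', hq'⟩) t ht).symm.trans (hβ (Sum.inr ⟨q', hq'⟩) t' ht')⟩

/-- An aperiodic annulus can be shortened to a single fibre. -/
theorem exists_annulus [Module ℚ V] (S : Sys 𝒜 O J) (hπ : Monotone π) (hd : DenseRange π)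
    (hap : (S.skel π).Aper) {l : J × Bool} (hl : (S.skel π).Long l.1)
    (ho : (S.skel π).ob (bar l) = (S.skel π).ob l) (hlo : (S.skel π).lo (bar l) = (S.skel π).lo l) :
    ∃ S' : Sys 𝒜 O J, (S'.skel π).Aper ∧ (S'.skel π).rk < (S.skel π).rk ∧
      (S'.IsGood → S.IsGood) := by
  classical
  have hhi : (S.skel π).hi (bar l) = (S.skel π).hi l := by
    have e1 := (S.skel π).hi_sub_lo l
    have e2 := (S.skel π).hi_sub_lo (bar l)
    rw [bar_fst] at e2
    linarith
  have hlt : (S.skel π).lo l < (S.skel π).hi l := by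
    have e1 := (S.skel π).hi_sub_lo l
    have e2 : (S.skel π).a l.1 < (S.skel π).b l.1 := hl
    linarith
  have hia : (S.skel π).IA ((S.skel π).ob l) ((S.skel π).lo l) ((S.skel π).hi l)
      ((S.skel π).ob l) ((S.skel π).vsg l) ((S.skel π).voff l) := by
    have := Skel.IA.single (A := S.skel π) l
    rwa [ho] at this
  have hmap : ∀ x ∈ (S.skel π).base l, (S.skel π).vsg l • x + π ((S.skel π).voff l) ∈
      Ioo ((S.skel π).lo l) ((S.skel π).hi l) := by
    intro x hx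
    have := (S.skel π).rmap_mem_base.2 hx
    rwa [Skel.base, hlo, hhi] at this
  have hsg : (S.skel π).vsg l = 1 := by
    refine (Int.units_eq_one_or _).resolve_right fun e => ?_
    rw [e] at hia hmap
    obtain ⟨e1, e2⟩ := hmap (((S.skel π).lo l + (S.skel π).hi l) / 2) ⟨by linarith, by linarith⟩
    rw [Units.neg_smul, one_smul] at e1 e2
    exact S.noRefl hπ hd _ _ _ _ hia ⟨by linarith, by linarith⟩
  have hoff : (S.skel π).voff l = 0 := by
    by_contra hne
    rw [hsg] at hia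
    have h1 : π ((S.skel π).voff l) = 0 := by
      have e1 : (S.skel π).sg (bar l) = (S.skel π).sg l := by
        have e2 : (S.skel π).sg (bar l) * (S.skel π).sg l = 1 := hsg
        rw [← mul_one ((S.skel π).sg (bar l)), ← Int.units_mul_self ((S.skel π).sg l),
          ← mul_assoc, e2, one_mul]
      have e2 : π ((S.skel π).off (bar l)) = π ((S.skel π).off l) := by
        simp only [Skel.lo, Skel.rpos, e1, bar_fst] at hlo
        split_ifs at hlo <;> exact add_left_cancel hlo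
      rw [Skel.voff, hsg, one_smul, map_sub, e2, sub_self]
    exact hap _ _ _ ⟨hlt, fun η hη => ⟨_, hne, by rw [h1, abs_zero]; exact hη, hia⟩⟩
  have hdel : ∀ β t, (S.B l.1).del β t = 0 := by
    have hp : ∀ t, (S.B l.1).pos l.2 t = (S.B l.1).pos (!l.2) t := fun t => by
      rw [← S.vmap_pos (π := π) l t, hsg, hoff, one_smul, add_zero]
    have hen : (S.B l.1).en (!l.2) = (S.B l.1).en l.2 := ho
    have hlab : (S.B l.1).lab l.2 = (S.B l.1).lab (!l.2) := by
      have h1 := (S.valid l.1 _ (Finset.min'_mem _ (S.B l.1).ne)).fib' l.2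
      rw [hen, ← hp, ← inv_smul_eq_iff, smul_smul] at h1
      exact (inv_mul_eq_one.1 (𝒜.eq_one h1)).symm
    intro β t
    obtain ⟨k₀, _ | _⟩ := l
    · exact sub_eq_zero.2 (by rw [hlab, hp, ← hen]; rfl)
    · exact sub_eq_zero.2 (by rw [hlab, hp, ← hen]; rfl)
  let F : J → Finset V := fun k => if k = l.1 then {(S.B k).F.min' (S.B k).ne} else (S.B k).F
  have hsub : ∀ k, F k ⊆ (S.B k).F := fun k => by
    simp only [F]
    split_ifs
    · exact Finset.singleton_subset_iff.2 (Finset.min'_mem _ _)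
    · exact subset_rfl
  have hne : ∀ k, (F k).Nonempty := fun k => by
    simp only [F]
    split_ifs
    · exact Finset.singleton_nonempty _
    · exact (S.B k).ne
  have hv : ∀ k, ∀ t ∈ F k, (S.B k).ValidAt S.C t := fun k t ht => S.valid k t (hsub k ht)
  have href : Skel.Ref ((S.setF F hne hv).skel π) (S.skel π) id id :=
    ⟨fun k _ => S.a_le_level hπ (hsub k (Finset.min'_mem _ (hne k))),
      fun k _ => S.level_le_b hπ (hsub k (Finset.max'_mem _ (hne k))), fun _ _ _ => rfl,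
      fun _ _ _ => rfl, fun _ _ _ => rfl, fun _ _ h h' => absurd h h', fun _ _ _ _ h _ => h⟩
  refine ⟨S.setF F hne hv, href.aper hap, Skel.rk_lt_of_annulus href (k := l.1) ?_ ?_,
    fun hg => Good.mono (Γ := S.gr) hg ?_⟩
  · have hb : (S.skel π).base (bar l) = (S.skel π).base l := by
      rw [Skel.base, Skel.base, hlo, hhi]
    have hn : ((S.skel π).base l).Nonempty := nonempty_Ioo.2 hlt
    obtain ⟨k₀, _ | _⟩ := l
    · exact ⟨ho.symm, hn.mono (subset_inter subset_rfl hb.symm.subset)⟩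
    · exact ⟨ho, hn.mono (subset_inter hb.symm.subset subset_rfl)⟩
  · have e : F l.1 = {(S.B l.1).F.min' (S.B l.1).ne} := if_pos rfl
    have e1 : ∀ t ∈ F l.1, t = (S.B l.1).F.min' (S.B l.1).ne := fun t ht =>
      Finset.mem_singleton.1 (e ▸ ht)
    have e2 : π ((F l.1).min' (hne l.1)) = π ((F l.1).max' (hne l.1)) := by
      rw [e1 _ (Finset.min'_mem _ (hne l.1)), e1 _ (Finset.max'_mem _ (hne l.1))]
    exact fun h => absurd e2 (ne_of_lt h)
  · rintro c ⟨β, hβ⟩
    have hβ' : ∀ k, ∀ t ∈ F k, c k = (S.B k).del β t := hβ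
    refine ⟨β, fun k t ht => ?_⟩
    by_cases hk : k = l.1
    · subst hk
      obtain ⟨t', ht'⟩ := hne l.1
      rw [hβ' _ t' ht', hdel, hdel]
    · exact hβ' k t (by simp only [F, if_neg hk]; exact ht)

end Sys

end Pool.Agent.Lib.MP_d87150_al
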