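import Pool.Agent.Lib.MP_d87150_al.LTree
import Pool.Agent.Lib.MP_d87150_al.L2More

/-!
# Simplicial trees: the associated `ℤ`-tree, lines, and fields of vectors on bipartite graphs
-/

set_option autoImplicit false

noncomputable section

namespace Pool.Agent.Lib.MP_d87150_al

section Graph

variable {N : Type} {Y : SimpleGraph N}

/-- A simplicial tree is a `ℤ`-tree for the graph distance. -/
theorem exists_ltree_of_isTree (hY : Y.IsTree) :
    ∃ 𝒯 : LTree ℤ N, ∀ x y, 𝒯.d x y = (Y.dist x y : ℤ) := by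
  classical
  obtain ⟨r⟩ := hY.connected.nonempty
  choose P hP hU using fun x => hY.existsUnique_path r x
  have hlen : ∀ x, (P x).length = Y.dist r x := by
    intro x
    obtain ⟨p, hp1, hp2⟩ := hY.connected.exists_path_of_dist r x
    rw [← hU x p hp1, hp2]
  have htake : ∀ x i, P ((P x).getVert i) = (P x).take i := fun x i =>
    (hU _ _ ((hP x).take i)).symm
  have hanc : ∀ x i j, j ≤ i → (P ((P x).getVert i)).getVert j = (P x).getVert j := by
    intro x i j hj
    rw [htake, SimpleGraph.Walk.take_getVert, inf_eq_right.mpr hj]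
  have hht : ∀ x i, i ≤ (P x).length → (P ((P x).getVert i)).length = i := by
    intro x i hi
    rw [htake, SimpleGraph.Walk.take_length, inf_eq_left.mpr hi]
  let A : N → N → ℕ → Prop := fun x y i =>
    i ≤ (P x).length ∧ i ≤ (P y).length ∧ (P x).getVert i = (P y).getVert i
  let c : N → N → ℕ := fun x y => Nat.findGreatest (A x y) (P x).length
  have hc : ∀ x y i, i ≤ c x y ↔ A x y i := by
    intro x y i
    constructor
    · intro hi
      have h0 : A x y (c x y) := Nat.findGreatest_spec (P := A x y) (Nat.zero_le _)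
        ⟨Nat.zero_le _, Nat.zero_le _, by simp⟩
      refine ⟨hi.trans h0.1, hi.trans h0.2.1, ?_⟩
      rw [← hanc x _ i hi, h0.2.2, hanc y _ i hi]
    · intro hi
      exact Nat.le_findGreatest hi.1 hi
  have hsymm : ∀ x y, c x y = c y x := by
    intro x y
    apply le_antisymm
    · obtain ⟨h1, h2, h3⟩ := (hc x y _).mp le_rfl
      exact (hc y x _).mpr ⟨h2, h1, h3.symm⟩
    · obtain ⟨h1, h2, h3⟩ := (hc y x _).mp le_rfl
      exact (hc x y _).mpr ⟨h2, h1, h3.symm⟩
  have hself : ∀ x, c x x = (P x).length := fun x =>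
    le_antisymm ((hc x x _).mp le_rfl).1 ((hc x x _).mpr ⟨le_rfl, le_rfl, rfl⟩)
  have hle : ∀ x y, c x y ≤ (P x).length := fun x y => ((hc x y _).mp le_rfl).1
  have hchild : ∀ u v (huv : Y.Adj u v), v ∉ (P u).support →
      (P v).length = (P u).length + 1 ∧ ∀ x, c x u ≤ c x v ∧ c x v ≤ c x u + 1 := by
    intro u v huv hv
    have h1 : (P u).concat huv = P v := hU v _ ((hP u).concat hv huv)
    have h2 : (P v).length = (P u).length + 1 := by
      rw [← h1, SimpleGraph.Walk.length_concat]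
    have h3 : ∀ i, i ≤ (P u).length → (P v).getVert i = (P u).getVert i := by
      intro i hi
      rw [← h1, SimpleGraph.Walk.concat_eq_append, SimpleGraph.Walk.getVert_append', if_pos hi]
    refine ⟨h2, fun x => ⟨?_, ?_⟩⟩
    · obtain ⟨a1, a2, a3⟩ := (hc x u _).mp le_rfl
      exact (hc x v _).mpr ⟨a1, by omega, by rw [h3 _ a2, a3]⟩
    · obtain ⟨a1, a2, a3⟩ := (hc x v (c x v - 1)).mp (Nat.sub_le _ _)
      have a4 := ((hc x v _).mp le_rfl).2.1
      have a5 := (hc x u (c x v - 1)).mpr ⟨a1, by omega, by rw [a3, h3 _ (by omega)]⟩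
      omega
  have hadj : ∀ x u v, Y.Adj u v →
      (P v).length + 2 * c x u ≤ (P u).length + 2 * c x v + 1 := by
    intro x u v huv
    by_cases hv : v ∈ (P u).support
    · have hu := hY.isAcyclic.ne_mem_support_of_support_of_adj_of_isPath (hP u) (hP v) huv hv
      obtain ⟨h1, h2⟩ := hchild v u huv.symm hu
      have := h2 x
      omega
    · obtain ⟨h1, h2⟩ := hchild u v huv hv
      have := h2 x
      omega
  have hwalk : ∀ x u v (w : Y.Walk u v),
      (P v).length + 2 * c x u ≤ (P u).length + 2 * c x v + w.length := by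
    intro x u v w
    induction w with
    | nil => simp
    | cons h w ih =>
      have := hadj x _ _ h
      rw [SimpleGraph.Walk.length_cons]
      omega
  have hdist : ∀ x y, Y.dist x y + 2 * c x y = (P x).length + (P y).length := by
    intro x y
    apply le_antisymm
    · obtain ⟨a1, a2, a3⟩ := (hc x y _).mp le_rfl
      have h1 := SimpleGraph.dist_le ((P x).drop (c x y))
      have h2 := SimpleGraph.dist_le ((P y).drop (c x y))
      rw [SimpleGraph.Walk.drop_length] at h1 h2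
      rw [← a3] at h2
      have h3 := hY.connected.dist_triangle (u := x) (v := (P x).getVert (c x y)) (w := y)
      rw [SimpleGraph.dist_comm] at h1
      omega
    · obtain ⟨w, hw⟩ := hY.connected.exists_walk_length_eq_dist x y
      have h1 := hwalk x x y w
      rw [hself, hw] at h1
      omega
  obtain ⟨𝒯, h𝒯⟩ := LTree.exists_ofRooted (Λ := ℤ) (fun x y => (c x y : ℤ))
    (fun x y => by rw [hsymm]) (fun x y => Int.natCast_nonneg _)
    (fun x y => by rw [hself]; exact_mod_cast hle x y)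
    (fun x y z => by
      have h1 : min (c x z) (c y z) ≤ c x y := by
        obtain ⟨a1, a2, a3⟩ := (hc x z _).mp (min_le_left (c x z) (c y z))
        obtain ⟨b1, b2, b3⟩ := (hc y z _).mp (min_le_right (c x z) (c y z))
        exact (hc x y _).mpr ⟨a1, b1, a3.trans b3.symm⟩
      exact_mod_cast h1)
    (fun x y h1 h2 => by
      have h3 : c x y = (P x).length := by rw [← hself]; exact_mod_cast h1
      have h4 : c x y = (P y).length := by rw [← hself]; exact_mod_cast h2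
      have h5 := ((hc x y _).mp le_rfl).2.2
      rw [h3, SimpleGraph.Walk.getVert_length, ← h3, h4, SimpleGraph.Walk.getVert_length] at h5
      exact h5)
    (fun x t h0 ht => by
      obtain ⟨n, rfl⟩ := Int.eq_ofNat_of_zero_le h0
      have hn : n ≤ (P x).length := by rw [← hself]; exact_mod_cast ht
      refine ⟨(P x).getVert n, fun y => ?_⟩
      have h1 : c ((P x).getVert n) y = min n (c x y) := by
        apply le_antisymm
        · obtain ⟨a1, a2, a3⟩ := (hc ((P x).getVert n) y _).mp le_rfl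
          rw [hht x n hn] at a1
          exact le_min a1 ((hc x y _).mpr ⟨a1.trans hn, a2, by rw [← a3, hanc x n _ a1]⟩)
        · obtain ⟨a1, a2, a3⟩ := (hc x y _).mp (min_le_right n (c x y))
          exact (hc _ y _).mpr ⟨by rw [hht x n hn]; exact min_le_left _ _, a2,
            by rw [hanc x n _ (min_le_left _ _), a3]⟩
      exact_mod_cast h1)
  refine ⟨𝒯, fun x y => ?_⟩
  rw [h𝒯]
  have h1 := hdist x y
  simp only [hself]
  omega

/-- A locally injective graph homomorphism from a connected graph to a forest is injective. -/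
theorem injective_of_locally_injective {N' : Type} {Y' : SimpleGraph N'} (hY' : Y'.Preconnected)
    (hY : Y.IsAcyclic) (f : N' → N) (hf : ∀ a b, Y'.Adj a b → Y.Adj (f a) (f b))
    (hloc : ∀ a b c, Y'.Adj a b → Y'.Adj a c → f b = f c → b = c) : Function.Injective f := by
  let φ : Y' →g Y := ⟨f, fun {a b} h => hf a b h⟩
  have key : ∀ (a b : N') (p : Y'.Walk a b), p.IsPath → (p.map φ).IsPath := by
    intro a b p
    induction p with
    | nil => intro _; simp
    | @cons a a' b h p ih =>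
      intro hp
      rw [SimpleGraph.Walk.cons_isPath_iff] at hp
      rw [SimpleGraph.Walk.map_cons, SimpleGraph.Walk.cons_isPath_iff]
      refine ⟨ih hp.1, fun hmem => ?_⟩
      have h1 := hY.eq_snd_of_adj_start (ih hp.1) (hf _ _ h.symm) hmem
      cases p with
      | nil => exact (hf _ _ h).ne (show f a = φ a' by simpa using h1)
      | @cons _ a'' _ h' q =>
        have h2 : f a = f a'' := show f a = φ a'' by simpa using h1
        have h3 := hloc a' a a'' h.symm h' h2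
        apply hp.2
        rw [h3]
        simp
  intro a b hab
  classical
  obtain ⟨w⟩ := hY' a b
  have h1 := key a b w.toPath w.toPath.2
  have h2 : ((w.toPath : Y'.Walk a b).map φ).length = 0 := by
    have h3 := h1.getVert_injOn (x₁ := ((w.toPath : Y'.Walk a b).map φ).length) (x₂ := 0)
      (by simp) (by simp) (by
        rw [SimpleGraph.Walk.getVert_length, SimpleGraph.Walk.getVert_zero]
        exact hab.symm)
    exact h3
  rw [SimpleGraph.Walk.length_map] at h2
  exact SimpleGraph.Walk.eq_of_length_eq_zero h2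

variable {G : Type}

/-- `b` is a field: differences of values at two neighbours of a pivot `w` are supported in a set
attached to `w`, and these sets are pairwise disjoint. -/
def Fld (Y : SimpleGraph N) (piv : N → Prop) (b : N → L2 G) : Prop :=
  ∃ supp : N → Set G, (∀ w w', piv w → piv w' → w ≠ w' → Disjoint (supp w) (supp w')) ∧
    ∀ w p q, piv w → Y.Adj w p → Y.Adj w q → L2.SuppIn (supp w) (b p - b q)

theorem piv_alt {piv : N → Prop} (hpiv : ∀ a b, Y.Adj a b → (piv a ↔ ¬ piv b)) (ω : ℕ → N)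
    (hadj : ∀ i, Y.Adj (ω i) (ω (i + 1))) (h0 : ¬ piv (ω 0)) (k : ℕ) :
    ¬ piv (ω (2 * k)) ∧ piv (ω (2 * k + 1)) := by
  induction k with
  | zero => exact ⟨h0, (hpiv _ _ (hadj 0).symm).mpr h0⟩
  | succ k ih =>
    have h1 : ¬ piv (ω (2 * (k + 1))) := (hpiv _ _ (hadj (2 * k + 1))).mp ih.2
    exact ⟨h1, (hpiv _ _ (hadj _).symm).mpr h1⟩

theorem norm_sq_telescope {piv : N → Prop} (hpiv : ∀ a b, Y.Adj a b → (piv a ↔ ¬ piv b))
    {b : N → L2 G} (hb : Fld Y piv b) (ω : ℕ → N) (hadj : ∀ i, Y.Adj (ω i) (ω (i + 1)))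
    (h0 : ¬ piv (ω 0)) (m : ℕ)
    (hinj : ∀ i j, i < m → j < m → i ≠ j → ω (2 * i + 1) ≠ ω (2 * j + 1)) :
    ‖b (ω (2 * m)) - b (ω 0)‖ ^ 2 =
      ∑ k ∈ Finset.range m, ‖b (ω (2 * k + 2)) - b (ω (2 * k))‖ ^ 2 := by
  obtain ⟨supp, h1, h2⟩ := hb
  have hp := piv_alt hpiv ω hadj h0
  rw [← L2.norm_sum_sq_of_disjoint (Finset.range m) (fun k => supp (ω (2 * k + 1)))
    (fun k => b (ω (2 * k + 2)) - b (ω (2 * k)))
    (fun k _ => h2 _ _ _ (hp k).2 (hadj (2 * k + 1)) (hadj (2 * k)).symm)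
    (fun i hi j hj hij => h1 _ _ (hp i).2 (hp j).2
      (hinj i j (Finset.mem_range.mp hi) (Finset.mem_range.mp hj) hij))]
  congr 2
  exact (Finset.sum_range_sub (fun k => b (ω (2 * k))) m).symm

/-- If among any two consecutive turns one is detected by a field, the graph has no cycle. -/
theorem isAcyclic_of_fld {piv : N → Prop} (hpiv : ∀ a b, Y.Adj a b → (piv a ↔ ¬ piv b))
    (h : ∀ p₀ w₁ p₁ w₂ p₂, piv w₁ → piv w₂ → Y.Adj w₁ p₀ → Y.Adj w₁ p₁ → Y.Adj w₂ p₁ →
      Y.Adj w₂ p₂ → p₀ ≠ p₁ → p₁ ≠ p₂ → w₁ ≠ w₂ →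
      ∃ b : N → L2 G, Fld Y piv b ∧ (b p₀ ≠ b p₁ ∨ b p₁ ≠ b p₂)) : Y.IsAcyclic := by
  intro v c hc
  have hn := hc.three_le_length
  set n := c.length with hnd
  let ω0 : ℕ → N := fun i => c.getVert (i % n)
  have hadj0 : ∀ i, Y.Adj (ω0 i) (ω0 (i + 1)) := by
    intro i
    have h1 : i % n < n := Nat.mod_lt _ (by omega)
    have h2 := c.adj_getVert_succ h1
    by_cases h3 : i % n + 1 < n
    · have h4 : (i + 1) % n = i % n + 1 := by
        rw [Nat.add_mod, Nat.mod_eq_of_lt (show 1 < n by omega), Nat.mod_eq_of_lt h3]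
      simp only [ω0, h4]
      exact h2
    · have h5 : i % n + 1 = n := by omega
      have h4 : (i + 1) % n = 0 := by
        rw [Nat.add_mod, Nat.mod_eq_of_lt (show 1 < n by omega), h5, Nat.mod_self]
      simp only [ω0, h4]
      rw [h5, hnd, SimpleGraph.Walk.getVert_length] at h2
      rw [SimpleGraph.Walk.getVert_zero]
      exact h2
  have hinj0 : ∀ i j, ω0 i = ω0 j → i % n = j % n := by
    intro i j hij
    have h1 : i % n < n := Nat.mod_lt _ (by omega)
    have h2 : j % n < n := Nat.mod_lt _ (by omega)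
    exact hc.getVert_injOn' (show i % n ≤ c.length - 1 by omega)
      (show j % n ≤ c.length - 1 by omega) hij
  obtain ⟨s, hs⟩ : ∃ s, ¬ piv (ω0 s) := by
    by_cases h0 : piv (ω0 0)
    · exact ⟨1, (hpiv _ _ (hadj0 0)).mp h0⟩
    · exact ⟨0, h0⟩
  let ω : ℕ → N := fun i => ω0 (s + i)
  have hadj : ∀ i, Y.Adj (ω i) (ω (i + 1)) := fun i => hadj0 (s + i)
  have hinj : ∀ i j, i < j → j < i + n → ω i ≠ ω j := by
    intro i j h1 h2 h3
    have h4 : (s + i) ≡ (s + j) [MOD n] := hinj0 _ _ h3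
    have h5 := (Nat.modEq_iff_dvd' (by omega)).mp h4
    have h6 := Nat.le_of_dvd (by omega) h5
    omega
  have hper : ω n = ω 0 := by simp [ω, ω0]
  have hp := piv_alt hpiv ω hadj hs
  obtain ⟨m, hm⟩ : ∃ m, n = 2 * m := by
    rcases Nat.even_or_odd' n with ⟨m, hm | hm⟩
    · exact ⟨m, hm⟩
    · have h1 := (hp m).2
      rw [← hm, hper] at h1
      exact absurd h1 hs
  obtain ⟨b, hb, hne⟩ := h (ω 0) (ω 1) (ω 2) (ω 3) (ω 4) (hp 0).2 (hp 1).2 (hadj 0).symm (hadj 1)
    (hadj 2).symm (hadj 3) (hinj _ _ (by omega) (by omega)) (hinj _ _ (by omega) (by omega))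
    (hinj _ _ (by omega) (by omega))
  have h1 := norm_sq_telescope hpiv hb ω hadj hs m (fun i j hi hj hij => by
    rcases lt_or_gt_of_ne hij with h2 | h2
    · exact hinj _ _ (by omega) (by omega)
    · exact (hinj _ _ (by omega) (by omega)).symm)
  rw [← hm, hper, sub_self, norm_zero, zero_pow two_ne_zero, eq_comm,
    Finset.sum_eq_zero_iff_of_nonneg (fun _ _ => sq_nonneg _)] at h1
  have h2 := h1 0 (Finset.mem_range.mpr (by omega))
  have h3 := h1 1 (Finset.mem_range.mpr (by omega))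
  rw [pow_eq_zero_iff two_ne_zero, norm_eq_zero, sub_eq_zero] at h2 h3
  rcases hne with h4 | h4
  · exact h4 h2.symm
  · exact h4 h3.symm

/-- Along an injective periodic line, a field with one nonzero turn is unbounded. -/
theorem unbounded_of_line {piv : N → Prop} (hpiv : ∀ a b, Y.Adj a b → (piv a ↔ ¬ piv b))
    {b : N → L2 G} (hb : Fld Y piv b) (ω : ℤ → N) (hinj : Function.Injective ω)
    (hadj : ∀ i, Y.Adj (ω i) (ω (i + 1))) (h0 : ¬ piv (ω 0)) {α : ℤ} (hα : 0 < α)
    (hper : ∀ i : ℤ, ‖b (ω (2 * i + 2 * α + 2)) - b (ω (2 * i + 2 * α))‖ =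
      ‖b (ω (2 * i + 2)) - b (ω (2 * i))‖)
    {i₀ : ℤ} (hne : b (ω (2 * i₀ + 2)) ≠ b (ω (2 * i₀))) (C : ℝ) :
    ∃ n : ℕ, C < ‖b (ω (2 * α * n)) - b (ω 0)‖ := by
  obtain ⟨a, rfl⟩ := Int.eq_ofNat_of_zero_le hα.le
  have ha : 0 < a := by exact_mod_cast hα
  let j : ℤ → ℝ := fun i => ‖b (ω (2 * i + 2)) - b (ω (2 * i))‖
  have hj : Function.Periodic j (a : ℤ) := by
    intro i
    simp only [j]
    rw [← hper i, mul_add]
  have hδ : 0 < j i₀ := norm_pos_iff.mpr (sub_ne_zero.mpr hne)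
  obtain ⟨i₁, hi₁⟩ := Int.eq_ofNat_of_zero_le (Int.emod_nonneg i₀ hα.ne')
  have hlt : i₁ < a := by
    have := Int.emod_lt_of_pos i₀ hα
    omega
  have h1 : ∀ t : ℕ, j ((a * t + i₁ : ℕ) : ℤ) = j i₀ := by
    intro t
    have h2 := (hj.int_mul (t - i₀ / a)) i₀
    rw [← h2]
    congr 1
    have h3 := Int.emod_add_mul_ediv i₀ a
    push_cast
    rw [← hi₁]
    linear_combination h3
  have h2 : ∀ n : ℕ, n * j i₀ ^ 2 ≤ ∑ k ∈ Finset.range (a * n), j (k : ℤ) ^ 2 := by
    intro n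
    induction n with
    | zero => simp
    | succ n ih =>
      rw [mul_add, mul_one, Finset.sum_range_add]
      have h3 := Finset.single_le_sum (f := fun k => j ((a * n + k : ℕ) : ℤ) ^ 2)
        (fun k _ => sq_nonneg _) (Finset.mem_range.mpr hlt)
      simp only [h1] at h3
      push_cast at h3 ⊢
      linarith
  obtain ⟨n, hn⟩ := exists_nat_gt (C ^ 2 / j i₀ ^ 2)
  refine ⟨n, ?_⟩
  have h3 := norm_sq_telescope hpiv hb (fun k : ℕ => ω k) (fun i => by
    push_cast
    exact hadj i) h0 (a * n) (fun i k _ _ hik h4 => by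
      have := hinj h4
      omega)
  push_cast at h3
  rw [div_lt_iff₀ (by positivity)] at hn
  have h4 : C ^ 2 < ‖b (ω (2 * a * n)) - b (ω 0)‖ ^ 2 := by
    rw [mul_assoc, h3]
    exact hn.trans_le (h2 n)
  exact lt_of_pow_lt_pow_left₀ 2 (norm_nonneg _) h4

end Graph

section Int

variable {N K : Type} [Group K] [MulAction K N] {𝒯 : LTree ℤ N}

theorem exists_min_int {α : Type} [Nonempty α] (f : α → ℤ) (h : ∀ a, 0 ≤ f a) :
    ∃ a, ∀ b, f a ≤ f b := by
  refine ⟨Function.argmin (fun a => (f a).toNat), fun b => ?_⟩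
  have h1 := Function.argmin_le (fun a => (f a).toNat) b
  have h2 := h b
  have h3 := h (Function.argmin (fun a => (f a).toNat))
  omega

/-- No fixed point and even displacement: hyperbolic. -/
theorem hyp_of_no_fix (hI : 𝒯.Iso K) [Nonempty N] {g : K} (hfix : ∀ p : N, g • p ≠ p)
    (heven : ∀ p : N, Even (𝒯.d p (g • p))) : 𝒯.Hyp g := by
  refine ⟨hfix, ?_⟩
  obtain ⟨p, hp⟩ := exists_min_int (fun p : N => 𝒯.d p (g • p)) (fun p => 𝒯.d_nonneg _ _)
  obtain ⟨k, hk⟩ := heven p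
  have h0 := 𝒯.d_nonneg p (g • p)
  have h1 : 𝒯.d p (g • p) ≠ 0 := fun h => hfix p (𝒯.eq_of_d _ _ h).symm
  obtain ⟨m, hm1, hm2⟩ := 𝒯.geo p (g • p) k (by omega) (by omega)
  have h2 := hp m
  have h3 := 𝒯.d_triangle m (g • p) (g • m)
  have h4 := hI g p m
  have b1 : 𝒯.Btw p m (g • p) := by unfold LTree.Btw; omega
  have b2 : 𝒯.Btw m (g • p) (g • m) := by unfold LTree.Btw; omega
  have n1 : m ≠ g • p := by
    intro h
    rw [h, 𝒯.d_self] at hm2
    omega
  have n2 : g • p ≠ g • m := by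
    intro h
    rw [h, 𝒯.d_self] at h4
    omega
  have b3 := ((b1.trans b2 n1).2.trans (hI.btw g b1) n2).1
  refine ⟨p, ?_⟩
  show _ = _
  rw [← b3, hI g p (g • p)]

/-- The axis of a hyperbolic element through a given point, as a line. -/
theorem exists_line (hI : 𝒯.Iso K) {g : K} (hg : 𝒯.Hyp g) {p : N} (hp : p ∈ 𝒯.Ax g) :
    ∃ ω : ℤ → N, ω 0 = p ∧ (∀ i j, 𝒯.d (ω i) (ω j) = |i - j|) ∧
      ∀ i, g • ω i = ω (i + 𝒯.d p (g • p)) := by
  have hgp : g • p ∈ 𝒯.Ax g := LTree.smul_mem_ax hI (Commute.refl g) hp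
  have h0 := 𝒯.d_nonneg p (g • p)
  have h1 : 𝒯.d p (g • p) ≠ 0 := fun h => hg.1 p (𝒯.eq_of_d _ _ h).symm
  have hpos : 0 < 𝒯.d p (g • p) := by omega
  have hex : ∀ i : ℤ, ∃ q ∈ 𝒯.Ax g, 𝒯.sd g p q = i := by
    intro i
    obtain ⟨m, hm1, hm2⟩ := 𝒯.geo p (g • p) (i % 𝒯.d p (g • p)) (Int.emod_nonneg _ h1)
      (Int.emod_lt_of_pos _ hpos).le
    have hm : m ∈ 𝒯.Ax g := LTree.btw_mem_ax hI hg hp hgp (by unfold LTree.Btw; omega)
    have a1 := LTree.abs_sd (𝒯 := 𝒯) g p m
    have a2 := LTree.abs_sd (𝒯 := 𝒯) g m (g • p)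
    have a3 := LTree.sd_add hI hg hp hm hgp
    rw [LTree.sd_smul_self hI hg hp] at a3
    have a4 : 𝒯.sd g p m = i % 𝒯.d p (g • p) := by
      rcases abs_cases (𝒯.sd g p m) with h | h <;>
        rcases abs_cases (𝒯.sd g m (g • p)) with h' | h' <;> omega
    have hc : Commute g (g ^ (i / 𝒯.d p (g • p))) := (Commute.refl g).zpow_right _
    refine ⟨g ^ (i / 𝒯.d p (g • p)) • m, LTree.smul_mem_ax hI hc hm, ?_⟩
    rw [← LTree.sd_add hI hg hp (LTree.smul_mem_ax hI hc hp) (LTree.smul_mem_ax hI hc hm),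
      LTree.d_zpow_smul hI hg hp, LTree.sd_smul_smul hI hc, a4, smul_eq_mul]
    exact Int.ediv_mul_add_emod _ _
  choose ω h2 h3 using hex
  have h4 : 𝒯.sd g p p = 0 := by
    have := LTree.abs_sd (𝒯 := 𝒯) g p p
    rwa [𝒯.d_self, abs_eq_zero] at this
  refine ⟨ω, LTree.eq_of_sd_eq hI hg hp (h2 0) hp (by rw [h3, h4]), fun i j => ?_, fun i => ?_⟩
  · have h5 := LTree.sd_add hI hg hp (h2 i) (h2 j)
    rw [h3, h3] at h5
    rw [← LTree.abs_sd g, abs_sub_comm]
    congr 1
    omega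
  · have hm := LTree.smul_mem_ax hI (Commute.refl g) (h2 i)
    apply LTree.eq_of_sd_eq hI hg hp hm (h2 _)
    rw [← LTree.sd_add hI hg hp hgp hm, LTree.sd_smul_self hI hg hp,
      LTree.sd_smul_smul hI (Commute.refl g), h3, h3, add_comm]

theorem btw_of_min (hI : 𝒯.Iso K) {x : K} {p q : N} (hx : x • p = p)
    (hmin : ∀ m, x • m = m → 𝒯.d p q ≤ 𝒯.d m q) : 𝒯.Btw q p (x • q) := by
  obtain ⟨m, h1, h2, h3⟩ := LTree.exists_median (𝒯 := 𝒯) q p (x • q)
  have h4 : 𝒯.Btw p (x • m) (x • q) := by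
    have := hI.btw x h1.symm
    rwa [hx] at this
  have h5 : x • m = m := h4.unique h2 (by rw [← hI x p m, hx])
  have h6 := hmin m h5
  have h7 : m = p := by
    apply 𝒯.eq_of_d
    have := 𝒯.d_nonneg m p
    have := 𝒯.d_comm q m
    have := 𝒯.d_comm p q
    unfold LTree.Btw at h1
    omega
  rwa [h7] at h3

/-- Serre's lemma. -/
theorem hyp_mul_of_no_common_fix (hI : 𝒯.Iso K) {x y : K} {p q : N} (hx : x • p = p)
    (hy : y • q = q) (h : ∀ r : N, ¬ (x • r = r ∧ y • r = r)) : 𝒯.Hyp (x * y) := by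
  have : Nonempty {z : N × N // x • z.1 = z.1 ∧ y • z.2 = z.2} := ⟨⟨(p, q), hx, hy⟩⟩
  obtain ⟨⟨⟨p, q⟩, hx, hy⟩, hmin⟩ := exists_min_int
    (fun z : {z : N × N // x • z.1 = z.1 ∧ y • z.2 = z.2} => 𝒯.d z.1.1 z.1.2)
    (fun z => 𝒯.d_nonneg _ _)
  simp only at hx hy hmin
  have hne : p ≠ q := fun h0 => h p ⟨hx, by rw [h0]; exact hy⟩
  have b1 : 𝒯.Btw q p (x • q) := btw_of_min hI hx (fun m hm => by
    exact hmin ⟨(m, q), hm, hy⟩)
  have b2 : 𝒯.Btw p q (y • p) := btw_of_min hI hy (fun m hm => by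
    rw [𝒯.d_comm q, 𝒯.d_comm m]
    exact hmin ⟨(p, m), hx, hm⟩)
  have b3 : 𝒯.Btw (x⁻¹ • q) p q := by
    have := hI.btw x⁻¹ b1
    rwa [inv_smul_smul, inv_smul_eq_iff.mpr hx.symm] at this
  have b4 : 𝒯.Btw q (y • p) (y • x • q) := by
    have := hI.btw y b1
    rwa [hy] at this
  have hD : 0 < 𝒯.d p q := lt_of_le_of_ne (𝒯.d_nonneg _ _) (fun h0 => hne (𝒯.eq_of_d _ _ h0.symm))
  have n1 : q ≠ y • p := by
    intro h0
    have h1 := hI y p q
    rw [← h0, hy, 𝒯.d_self] at h1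
    omega
  have b5 := ((b3.trans b2 hne).2.trans b4 n1).1
  apply LTree.hyp_of_lt hI (p := q)
  have e1 : 𝒯.d q ((x * y) • (x * y) • q) = 𝒯.d (x⁻¹ • q) (y • x • q) := by
    rw [← hI x (x⁻¹ • q), smul_inv_smul, mul_smul, mul_smul, hy]
  have e2 : 𝒯.d (x⁻¹ • q) q = 𝒯.d q (x • q) := by rw [← hI x (x⁻¹ • q), smul_inv_smul]
  have e3 : 𝒯.d q (y • p) = 𝒯.d q p := by rw [← hI y q p, hy]
  have e4 := 𝒯.d_nonneg (y • p) (y • x • q)
  have e5 := 𝒯.d_comm p q
  rw [e1, mul_smul, hy]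
  unfold LTree.Btw at b4 b5
  omega

/-- A group of elements commuting with a hyperbolic element and acting freely is cyclic. -/
theorem fg_of_free_centralizer (hI : 𝒯.Iso K) {g : K} (hg : 𝒯.Hyp g)
    (hfree : ∀ h : K, Commute g h → ∀ p : N, h • p = p → h = 1) :
    (Subgroup.centralizer ({g} : Set K)).FG := by
  obtain ⟨τ, hτ⟩ := LTree.exists_transl hI hg
  obtain ⟨p, hp⟩ := hg.2
  have hinj : Function.Injective τ := by
    rw [injective_iff_map_eq_one]
    intro h h1
    have h2 := hτ h p hp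
    rw [h1, toAdd_one] at h2
    have h3 := LTree.abs_sd (𝒯 := 𝒯) g p ((h : K) • p)
    rw [← h2, abs_zero] at h3
    apply Subtype.ext
    exact hfree h (Subgroup.mem_centralizer_iff.mp h.2 g rfl) p (𝒯.eq_of_d _ _ h3.symm).symm
  obtain ⟨z, hz⟩ := (Subgroup.isCyclic_iff_exists_zpowers_eq_top _).mp
    (isCyclic_of_injective τ hinj)
  rw [← hz, Subgroup.zpowers_eq_closure]
  exact ⟨{z}, by simp⟩

end Int

end Pool.Agent.Lib.MP_d87150_al
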